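import Mathlib

section

/-! Smoothness of odd perfect numbers, part A: two logarithms (perturbed interpolation determinants). -/

set_option autoImplicit false

namespace Pool.Agent.Lib.MP_f02ea4_nt.Sm

open Finset Real

-- BEGIN A1
lemma a1_aux (T : Finset ℕ) : ∑ n ∈ Finset.range T.card, n ≤ ∑ n ∈ T, n := by
  induction T using Finset.induction_on_max with
  | empty => simp
  | insert a s hs ih =>
    have ha : a ∉ s := fun h => lt_irrefl _ (hs a h)
    rw [Finset.card_insert_of_notMem ha, Finset.sum_range_succ, Finset.sum_insert ha]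
    have hc : s.card ≤ a := by
      have : s ⊆ Finset.range a := fun x hx => Finset.mem_range.2 (hs x hx)
      simpa using Finset.card_le_card this
    omega

/-- A1. distinct naturals have a large sum -/
lemma sum_ge_of_injOn {ι : Type*} (S : Finset ι) (ν : ι → ℕ) (h : Set.InjOn ν S) :
    (S.card : ℝ) * ((S.card : ℝ) - 1) / 2 ≤ ∑ i ∈ S, (ν i : ℝ) := by
  classical
  have h1 := a1_aux (S.image ν)
  rw [Finset.card_image_of_injOn h, Finset.sum_image (fun x hx y hy hxy => h hx hy hxy)] at h1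
  have h2 : (∑ n ∈ Finset.range S.card, (n : ℝ)) = (S.card : ℝ) * ((S.card : ℝ) - 1) / 2 := by
    induction S.card with
    | zero => simp
    | succ k ih => rw [Finset.sum_range_succ, ih]; push_cast; ring
  rw [← h2]
  calc (∑ n ∈ Finset.range S.card, (n : ℝ)) = ((∑ n ∈ Finset.range S.card, n : ℕ) : ℝ) := by
        push_cast; rfl
    _ ≤ ((∑ i ∈ S, ν i : ℕ) : ℝ) := Nat.cast_le.2 h1
    _ = ∑ i ∈ S, (ν i : ℝ) := by push_cast; rfl

/-- A1. determinant bound by row bounds -/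
lemma abs_det_le {ι : Type*} [Fintype ι] [DecidableEq ι] (M : Matrix ι ι ℝ) (b : ι → ℝ)
    (h : ∀ i j, |M i j| ≤ b i) :
    |M.det| ≤ (Fintype.card ι).factorial * ∏ i, b i := by
  rw [Matrix.det_apply]
  refine (Finset.abs_sum_le_sum_abs _ _).trans ?_
  have hterm : ∀ σ ∈ (Finset.univ : Finset (Equiv.Perm ι)),
      |Equiv.Perm.sign σ • ∏ i, M (σ i) i| ≤ ∏ i, b i := by
    intro σ _
    have h1 : |Equiv.Perm.sign σ • ∏ i, M (σ i) i| = ∏ i, |M (σ i) i| := by
      rcases Int.units_eq_one_or (Equiv.Perm.sign σ) with hs | hs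
      · rw [hs, one_smul, Finset.abs_prod]
      · rw [hs, Units.neg_smul, one_smul, abs_neg, Finset.abs_prod]
    rw [h1]
    calc ∏ i, |M (σ i) i| ≤ ∏ i, b (σ i) :=
          Finset.prod_le_prod (fun i _ => abs_nonneg _) (fun i _ => h _ _)
      _ = ∏ i, b i := Equiv.prod_comp σ b
  refine (Finset.sum_le_card_nsmul _ _ _ hterm).trans ?_
  rw [Finset.card_univ, Fintype.card_perm, nsmul_eq_mul]
-- END A1

-- BEGIN A2
/-- A2. auxiliary: total weight of a choice of exponents which is injective where it is `some` -/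
lemma a2_weight {ι : Type*} [Fintype ι] [DecidableEq ι] {m : ℕ} (c : ι → Option (Fin m))
    (hinj : ∀ i j ν, c i = some ν → c j = some ν → i = j) :
    (Fintype.card ι : ℝ) * ((Fintype.card ι : ℝ) - 1) / 2 ≤
      ∑ i, ((c i).elim (Fintype.card ι : ℝ) fun ν => ((ν : ℕ) : ℝ)) := by
  classical
  let S : Finset ι := univ.filter fun i => (c i).isSome
  let T : Finset ι := univ.filter fun i => ¬ (c i).isSome
  let ν : ι → ℕ := fun i => (c i).elim 0 fun ν => (ν : ℕ)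
  have hcard : S.card + T.card = Fintype.card ι := by
    rw [Finset.card_filter_add_card_filter_not]
    exact Finset.card_univ
  have hinjS : Set.InjOn ν S := by
    intro i hi j hj hij
    obtain ⟨p, hp⟩ := Option.isSome_iff_exists.1 (Finset.mem_filter.1 hi).2
    obtain ⟨q, hq⟩ := Option.isSome_iff_exists.1 (Finset.mem_filter.1 hj).2
    have h1 : (p : ℕ) = (q : ℕ) := by
      simpa only [ν, hp, hq, Option.elim_some] using hij
    have h2 : p = q := Fin.ext h1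
    subst h2
    exact hinj i j p hp hq
  have hS := sum_ge_of_injOn S ν hinjS
  have hsplit : ∑ i, ((c i).elim (Fintype.card ι : ℝ) fun ν => ((ν : ℕ) : ℝ)) =
      ∑ i ∈ S, (ν i : ℝ) + ∑ i ∈ T, (Fintype.card ι : ℝ) := by
    rw [← Finset.sum_filter_add_sum_filter_not univ (fun i => (c i).isSome)]
    congr 1
    · refine Finset.sum_congr rfl fun i hi => ?_
      obtain ⟨p, hp⟩ := Option.isSome_iff_exists.1 (Finset.mem_filter.1 hi).2
      simp only [ν, hp, Option.elim_some]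
    · refine Finset.sum_congr rfl fun i hi => ?_
      have h3 : c i = none := by
        have := (Finset.mem_filter.1 hi).2
        simpa using this
      rw [h3, Option.elim_none]
  rw [hsplit, Finset.sum_const, nsmul_eq_mul]
  have hcR : (S.card : ℝ) + (T.card : ℝ) = (Fintype.card ι : ℝ) := by exact_mod_cast hcard
  have hT0 : (0 : ℝ) ≤ (T.card : ℝ) := Nat.cast_nonneg _
  rw [← hcR]
  nlinarith [hS, mul_nonneg hT0 hT0]

/-- A2. polynomial version of the perturbed interpolation determinant bound.  Row `i` is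
`∑ ν, a i ν • v ν + E i` with `v ν = (x j ^ ν)_j` and `|E i j| ≤ 2 e^{-n} G i`.  Expand `det`
multilinearly over `Option (Fin m)` (`MultilinearMap.map_sum`): if two rows choose the same `some ν` the
determinant vanishes; if `t` rows choose `none`, the other `n - t` exponents are distinct, so their sum is at least
`(n-t)(n-t-1)/2` (A1), and `(n-t)(n-t-1)/2 + n t ≥ n(n-1)/2`.  Bound each determinant by A1 (row bounds `X^ν` resp.
`2 e^{-n} G i`), write `X^ν = (eX)^ν e^{-ν}`, and use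
`∑ over choices of products = product of sums ≤ ∏ (G i + 2 G i)`. -/
theorem idb_poly {ι : Type*} [Fintype ι] [DecidableEq ι] {m : ℕ} (M : Matrix ι ι ℝ)
    (a : ι → Fin m → ℝ) (x : ι → ℝ)
    (X : ℝ) (hX : 0 ≤ X) (hx : ∀ j, |x j| ≤ X) (G : ι → ℝ)
    (hG : ∀ i, ∑ ν, |a i ν| * (exp 1 * X) ^ (ν : ℕ) ≤ G i)
    (hM : ∀ i j, |M i j - ∑ ν, a i ν * x j ^ (ν : ℕ)| ≤
      2 * exp (-(Fintype.card ι : ℝ)) * G i) :
    |M.det| ≤ (Fintype.card ι).factorial * 3 ^ (Fintype.card ι) *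
      exp (-((Fintype.card ι : ℝ) * ((Fintype.card ι : ℝ) - 1) / 2)) * ∏ i, G i := by
  classical
  have hG0 : ∀ i, 0 ≤ G i := fun i => le_trans (Finset.sum_nonneg fun ν _ => by positivity) (hG i)
  let w : ι → Option (Fin m) → ι → ℝ := fun i c j =>
    c.elim (M i j - ∑ ν, a i ν * x j ^ (ν : ℕ)) fun ν => a i ν * x j ^ (ν : ℕ)
  let b : ι → Option (Fin m) → ℝ := fun i c =>
    c.elim (2 * G i) fun ν => |a i ν| * (exp 1 * X) ^ (ν : ℕ)
  let wt : Option (Fin m) → ℝ := fun c => c.elim (Fintype.card ι : ℝ) fun ν => ((ν : ℕ) : ℝ)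
  have hb0 : ∀ i c, 0 ≤ b i c := by
    intro i c
    cases c with
    | none => exact mul_nonneg zero_le_two (hG0 i)
    | some ν =>
      change 0 ≤ |a i ν| * (exp 1 * X) ^ (ν : ℕ)
      positivity
  have hwb : ∀ i c j, |w i c j| ≤ b i c * exp (-(wt c)) := by
    intro i c j
    cases c with
    | none =>
      change |M i j - ∑ ν, a i ν * x j ^ (ν : ℕ)| ≤ 2 * G i * exp (-(Fintype.card ι : ℝ))
      refine (hM i j).trans (le_of_eq ?_)
      ring
    | some ν =>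
      change |a i ν * x j ^ (ν : ℕ)| ≤ |a i ν| * (exp 1 * X) ^ (ν : ℕ) * exp (-((ν : ℕ) : ℝ))
      have h1 : (exp 1 * X) ^ (ν : ℕ) * exp (-((ν : ℕ) : ℝ)) = X ^ (ν : ℕ) := by
        rw [mul_pow, ← Real.exp_nat_mul, mul_one, mul_right_comm, ← Real.exp_add, add_neg_cancel,
          Real.exp_zero, one_mul]
      rw [mul_assoc, h1, abs_mul, abs_pow]
      exact mul_le_mul_of_nonneg_left (pow_le_pow_left₀ (abs_nonneg _) (hx j) _) (abs_nonneg _)
  have hdet : M.det = ∑ c : ι → Option (Fin m), Matrix.det (Matrix.of fun i j => w i (c i) j) := by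
    have h1 : M.det = Matrix.detRowAlternating.toMultilinearMap
        (fun i => ∑ c : Option (Fin m), w i c) := by
      have h2 : M = fun i => ∑ c : Option (Fin m), w i c := by
        ext i j
        rw [Finset.sum_apply, Fintype.sum_option]
        simp only [w, Option.elim_none, Option.elim_some]
        ring
      conv_lhs => rw [h2]
      rfl
    rw [h1, MultilinearMap.map_sum]
    rfl
  have hterm : ∀ c : ι → Option (Fin m), |Matrix.det (Matrix.of fun i j => w i (c i) j)| ≤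
      (Fintype.card ι).factorial *
        exp (-((Fintype.card ι : ℝ) * ((Fintype.card ι : ℝ) - 1) / 2)) * ∏ i, b i (c i) := by
    intro c
    have hrhs : 0 ≤ ((Fintype.card ι).factorial : ℝ) *
        exp (-((Fintype.card ι : ℝ) * ((Fintype.card ι : ℝ) - 1) / 2)) * ∏ i, b i (c i) := by
      have := Finset.prod_nonneg (s := univ) fun i _ => hb0 i (c i)
      positivity
    by_cases hinj : ∀ i j ν, c i = some ν → c j = some ν → i = j
    · have h1 := abs_det_le (Matrix.of fun i j => w i (c i) j)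
        (fun i => b i (c i) * exp (-(wt (c i)))) (fun i j => hwb i (c i) j)
      refine h1.trans ?_
      rw [Finset.prod_mul_distrib, ← Real.exp_sum, Finset.sum_neg_distrib, mul_assoc]
      refine mul_le_mul_of_nonneg_left ?_ (Nat.cast_nonneg _)
      rw [mul_comm]
      refine mul_le_mul_of_nonneg_right ?_ (Finset.prod_nonneg fun i _ => hb0 i (c i))
      exact Real.exp_le_exp.2 (neg_le_neg (a2_weight c hinj))
    · push Not at hinj
      obtain ⟨i, j, ν, hi, hj, hij⟩ := hinj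
      have h0 : Matrix.det (Matrix.of fun i j => w i (c i) j) = 0 := by
        let row : Matrix ι ι ℝ := fun i j => (c i).elim (M i j - ∑ ν, a i ν * x j ^ (ν : ℕ))
          fun ν => x j ^ (ν : ℕ)
        let cf : ι → ℝ := fun i => (c i).elim 1 fun ν => a i ν
        have h2 : (Matrix.of fun i j => w i (c i) j) = Matrix.of fun i j => cf i * row i j := by
          ext p q
          change w p (c p) q = cf p * row p q
          cases hc : c p with
          | none => simp only [w, cf, row, hc, Option.elim_none, one_mul]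
          | some μ => simp only [w, cf, row, hc, Option.elim_some]
        rw [h2, Matrix.det_mul_column, Matrix.det_zero_of_row_eq (M := row) hij ?_, mul_zero]
        funext q
        simp only [row, hi, hj, Option.elim_some]
      rw [h0, abs_zero]
      exact hrhs
  have hsum : ∑ c : ι → Option (Fin m), ∏ i, b i (c i) = ∏ i, ∑ c : Option (Fin m), b i c := by
    rw [Finset.prod_univ_sum, Fintype.piFinset_univ]
  calc |M.det| = |∑ c : ι → Option (Fin m), Matrix.det (Matrix.of fun i j => w i (c i) j)| := by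
        rw [hdet]
    _ ≤ ∑ c : ι → Option (Fin m), |Matrix.det (Matrix.of fun i j => w i (c i) j)| :=
        Finset.abs_sum_le_sum_abs _ _
    _ ≤ ∑ c : ι → Option (Fin m), (Fintype.card ι).factorial *
        exp (-((Fintype.card ι : ℝ) * ((Fintype.card ι : ℝ) - 1) / 2)) * ∏ i, b i (c i) :=
        Finset.sum_le_sum fun c _ => hterm c
    _ = (Fintype.card ι).factorial *
        exp (-((Fintype.card ι : ℝ) * ((Fintype.card ι : ℝ) - 1) / 2)) *
          ∏ i, ∑ c : Option (Fin m), b i c := by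
        rw [← Finset.mul_sum, hsum]
    _ ≤ (Fintype.card ι).factorial *
        exp (-((Fintype.card ι : ℝ) * ((Fintype.card ι : ℝ) - 1) / 2)) * ∏ i, (3 * G i) := by
        refine mul_le_mul_of_nonneg_left ?_ (by positivity)
        refine Finset.prod_le_prod (fun i _ => Finset.sum_nonneg fun c _ => hb0 i c) fun i _ => ?_
        rw [Fintype.sum_option]
        have h3 : ∑ ν : Fin m, b i (some ν) ≤ G i := hG i
        have h4 : b i none = 2 * G i := rfl
        rw [h4]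
        linarith
    _ = _ := by
        rw [Finset.prod_mul_distrib, Finset.prod_const, Finset.card_univ]
        ring
-- END A2

-- BEGIN A3
lemma a3_hasSum (y : ℝ) : HasSum (fun i : ℕ => y ^ i / (i.factorial : ℝ)) (exp y) := by
  have h := NormedSpace.expSeries_div_hasSum_exp (𝔸 := ℝ) y
  rwa [← Real.exp_eq_exp_ℝ] at h

lemma a3_tail (N : ℕ) (y Y : ℝ) (h : |y| ≤ Y) :
    |exp y - ∑ i ∈ range N, y ^ i / (i.factorial : ℝ)| ≤
      exp Y - ∑ i ∈ range N, Y ^ i / (i.factorial : ℝ) := by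
  have h1 := (hasSum_nat_add_iff' N).2 (a3_hasSum y)
  have h2 := (hasSum_nat_add_iff' N).2 (a3_hasSum Y)
  refine HasSum.norm_le_of_bounded h1 h2 fun i => ?_
  rw [Real.norm_eq_abs, abs_div, abs_pow, Nat.abs_cast]
  exact div_le_div_of_nonneg_right (pow_le_pow_left₀ (abs_nonneg _) h _) (Nat.cast_nonneg _)

/-- the Taylor coefficients of `x ^ k * exp (c * x)` -/
noncomputable def a3co (k : ℕ) (c : ℝ) (i : ℕ) : ℝ :=
  if k ≤ i then c ^ (i - k) / ((i - k).factorial : ℝ) else 0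

lemma a3_sum (k N : ℕ) (c y : ℝ) :
    ∑ ν : Fin (k + N), a3co k c ν * y ^ (ν : ℕ) =
      y ^ k * ∑ j ∈ range N, (c * y) ^ j / (j.factorial : ℝ) := by
  rw [Fin.sum_univ_eq_sum_range (fun i => a3co k c i * y ^ i) (k + N), Finset.sum_range_add]
  have h1 : ∑ i ∈ range k, a3co k c i * y ^ i = 0 := by
    refine Finset.sum_eq_zero fun i hi => ?_
    rw [a3co, if_neg (by have := Finset.mem_range.1 hi; omega), zero_mul]
  rw [h1, zero_add, Finset.mul_sum]
  refine Finset.sum_congr rfl fun j _ => ?_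
  rw [a3co, if_pos (by omega), Nat.add_sub_cancel_left, pow_add, mul_pow]
  ring

lemma a3_abs (k : ℕ) (c : ℝ) (i : ℕ) : |a3co k c i| = a3co k |c| i := by
  unfold a3co
  split_ifs
  · rw [abs_div, abs_pow, Nat.abs_cast]
  · exact abs_zero

/-- A3. Taylor truncation of `x^k exp(c x)`: for every `η > 0` there is a polynomial with nonnegative
majorant at most the majorant of the function and uniformly `η`-close on `[-X, X]`. -/
lemma taylor_trunc (k : ℕ) (c X η : ℝ) (hX : 0 ≤ X) (hη : 0 < η) :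
    ∃ m0 : ℕ, ∀ m : ℕ, m0 ≤ m → ∃ a : Fin m → ℝ,
      (∑ ν, |a ν| * (exp 1 * X) ^ (ν : ℕ) ≤ (exp 1 * X) ^ k * exp (|c| * (exp 1 * X))) ∧
      ∀ x : ℝ, |x| ≤ X → |x ^ k * exp (c * x) - ∑ ν, a ν * x ^ (ν : ℕ)| ≤ η := by
  have hXk : 0 ≤ X ^ k := pow_nonneg hX k
  have hη' : 0 < η / (X ^ k + 1) := by positivity
  obtain ⟨N0, hN0⟩ := (Metric.tendsto_atTop.1 (a3_hasSum (|c| * X)).tendsto_sum_nat) _ hη'
  refine ⟨k + N0, fun m hm => ?_⟩
  obtain ⟨N, rfl⟩ : ∃ N, m = k + N := ⟨m - k, by omega⟩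
  have hN : N0 ≤ N := by omega
  refine ⟨fun ν => a3co k c ν, ?_, ?_⟩
  · have h1 : ∑ ν : Fin (k + N), |a3co k c ν| * (exp 1 * X) ^ (ν : ℕ) =
        (exp 1 * X) ^ k * ∑ j ∈ range N, (|c| * (exp 1 * X)) ^ j / (j.factorial : ℝ) := by
      rw [← a3_sum]
      exact Finset.sum_congr rfl fun ν _ => by rw [a3_abs]
    rw [h1]
    have h0 : 0 ≤ exp 1 * X := by positivity
    exact mul_le_mul_of_nonneg_left (Real.sum_le_exp_of_nonneg (by positivity) N) (by positivity)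
  · intro x hx
    rw [a3_sum, ← mul_sub, abs_mul, abs_pow]
    have hcx : |c * x| ≤ |c| * X := by
      rw [abs_mul]
      exact mul_le_mul_of_nonneg_left hx (abs_nonneg _)
    have h2 := a3_tail N (c * x) (|c| * X) hcx
    have h3 := hN0 N hN
    rw [Real.dist_eq, abs_sub_comm] at h3
    have h4 : exp (|c| * X) - ∑ i ∈ range N, (|c| * X) ^ i / (i.factorial : ℝ) ≤
        η / (X ^ k + 1) := (le_abs_self _).trans h3.le
    have h5 : |x| ^ k ≤ X ^ k := pow_le_pow_left₀ (abs_nonneg _) hx k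
    calc |x| ^ k * |exp (c * x) - ∑ j ∈ range N, (c * x) ^ j / (j.factorial : ℝ)| ≤
          X ^ k * (η / (X ^ k + 1)) :=
        mul_le_mul h5 (h2.trans h4) (abs_nonneg _) hXk
      _ = η * (X ^ k / (X ^ k + 1)) := by ring
      _ ≤ η * 1 := by
        refine mul_le_mul_of_nonneg_left ?_ hη.le
        rw [div_le_one (by positivity)]
        linarith
      _ = η := mul_one η

/-- A3. perturbed interpolation determinant bound for the functions `x^k exp(c x)` -/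
theorem idb {ι : Type*} [Fintype ι] [DecidableEq ι] (M : Matrix ι ι ℝ) (k : ι → ℕ)
    (c : ι → ℝ) (x : ι → ℝ)
    (X : ℝ) (hX : 1 ≤ X) (hx : ∀ j, |x j| ≤ X)
    (hM : ∀ i j, |M i j - x j ^ k i * exp (c i * x j)| ≤
      exp (-(Fintype.card ι : ℝ)) * ((exp 1 * X) ^ k i * exp (|c i| * (exp 1 * X)))) :
    |M.det| ≤ (Fintype.card ι).factorial * 3 ^ (Fintype.card ι) *
      exp (-((Fintype.card ι : ℝ) * ((Fintype.card ι : ℝ) - 1) / 2)) *
      ∏ i, ((exp 1 * X) ^ k i * exp (|c i| * (exp 1 * X))) := by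
  have hX0 : 0 < X := by linarith
  have hη : ∀ i, 0 < exp (-(Fintype.card ι : ℝ)) *
      ((exp 1 * X) ^ k i * exp (|c i| * (exp 1 * X))) := fun i => by positivity
  choose m0 hm0 using fun i => taylor_trunc (k i) (c i) X _ hX0.le (hη i)
  have hle : ∀ i, m0 i ≤ ∑ i, m0 i := fun i => Finset.single_le_sum
    (fun _ _ => Nat.zero_le _) (Finset.mem_univ i)
  choose a ha1 ha2 using fun i => hm0 i (∑ i, m0 i) (hle i)
  refine idb_poly M a x X hX0.le hx _ ha1 fun i j => ?_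
  have h1 := hM i j
  have h2 := ha2 i (x j) (hx j)
  calc |M i j - ∑ ν, a i ν * x j ^ (ν : ℕ)| =
        |(M i j - x j ^ k i * exp (c i * x j)) +
          (x j ^ k i * exp (c i * x j) - ∑ ν, a i ν * x j ^ (ν : ℕ))| := by
        congr 1
        ring
    _ ≤ _ := abs_add_le _ _
    _ ≤ exp (-(Fintype.card ι : ℝ)) * ((exp 1 * X) ^ k i * exp (|c i| * (exp 1 * X))) +
        exp (-(Fintype.card ι : ℝ)) * ((exp 1 * X) ^ k i * exp (|c i| * (exp 1 * X))) :=
        add_le_add h1 h2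
    _ = _ := by ring
-- END A3

-- BEGIN A4
/-- A4. linearly independent rows: some square minor is nonzero -/
lemma exists_minor {ι κ : Type*} [Fintype ι] [DecidableEq ι] [Fintype κ] (A : Matrix ι κ ℝ)
    (h : LinearIndependent ℝ (fun i => A i)) :
    ∃ f : ι → κ, (A.submatrix id f).det ≠ 0 := by
  classical
  have hrank : A.rank = Fintype.card ι := LinearIndependent.rank_matrix h
  have hcol : Module.finrank ℝ (Submodule.span ℝ (Set.range A.transpose)) = Fintype.card ι := by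
    rw [← hrank, Matrix.rank_eq_finrank_span_cols]
    rfl
  obtain ⟨κ', a, hainj, hspan, hli⟩ := exists_linearIndependent' ℝ A.transpose
  have : Finite κ' := Finite.of_injective a hainj
  have : Fintype κ' := Fintype.ofFinite κ'
  have hcard : Fintype.card κ' = Fintype.card ι := by
    rw [← hcol, ← hspan]
    exact (finrank_span_eq_card hli).symm
  obtain ⟨e⟩ := Fintype.card_eq.1 hcard
  refine ⟨fun i => a (e.symm i), ?_⟩
  have hli2 : LinearIndependent ℝ (fun i => (A.submatrix id (fun i => a (e.symm i))).transpose i) := by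
    have := hli.comp e.symm e.symm.injective
    exact this
  have hu : IsUnit (A.submatrix id (fun i => a (e.symm i))).transpose :=
    Matrix.linearIndependent_rows_iff_isUnit.1 hli2
  have := (Matrix.isUnit_iff_isUnit_det _).1 hu
  rw [Matrix.det_transpose] at this
  exact this.ne_zero
-- END A4

-- BEGIN A5
lemma a5_prod {ι : Type*} (s : Finset ι) (f : ι → Polynomial ℝ) (d : ι → ℕ)
    (hd : ∀ i ∈ s, (f i).natDegree ≤ d i) :
    (∏ i ∈ s, f i).natDegree ≤ ∑ i ∈ s, d i ∧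
    (∏ i ∈ s, f i).coeff (∑ i ∈ s, d i) = ∏ i ∈ s, (f i).coeff (d i) := by
  classical
  induction s using Finset.induction_on with
  | empty => simp
  | insert i s hi ih =>
    obtain ⟨h1, h2⟩ := ih fun j hj => hd j (Finset.mem_insert_of_mem hj)
    have h3 := hd i (Finset.mem_insert_self i s)
    rw [Finset.prod_insert hi, Finset.sum_insert hi, Finset.prod_insert hi]
    exact ⟨Polynomial.natDegree_mul_le_of_le h3 h1, by
      rw [Polynomial.coeff_mul_add_eq_of_natDegree_le h3 h1, h2]⟩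

/-- A5. top coefficient of a polynomial determinant with column degree bounds -/
lemma coeff_det {ι : Type*} [Fintype ι] [DecidableEq ι] (M : Matrix ι ι (Polynomial ℝ)) (d : ι → ℕ)
    (hd : ∀ i j, (M i j).natDegree ≤ d j) :
    M.det.natDegree ≤ ∑ j, d j ∧
    M.det.coeff (∑ j, d j) = (Matrix.of fun i j => (M i j).coeff (d j)).det := by
  have key := fun σ : Equiv.Perm ι => a5_prod Finset.univ (fun j => M (σ j) j) d
    (fun j _ => hd (σ j) j)
  rw [Matrix.det_apply, Matrix.det_apply]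
  constructor
  · refine Polynomial.natDegree_sum_le_of_forall_le _ _ fun σ _ => ?_
    exact (Polynomial.natDegree_smul_le _ _).trans (key σ).1
  · rw [Polynomial.finsetSum_coeff]
    refine Finset.sum_congr rfl fun σ _ => ?_
    rw [Polynomial.coeff_smul, (key σ).2]
    rfl
-- END A5

-- BEGIN A6
/-- A6. zero lemma.  `S = {l : p l ≠ 0}`, `s = |S|`.  The Vandermonde matrix `(y1 i ^ l)` is invertible, so its
columns with `l ∈ S` are independent and (A4) some `s` rows `i` give `det (y1 i ^ l) ≠ 0`.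
`D = det (p l (X + x1 i) * y1 i ^ l)` has by A5 the coefficient `(∏ lead (p l)) det (y1 i ^ l) ≠ 0` at
`X^(∑ deg p l)`, so `D ≠ 0` and `deg D ≤ K L`, but `D` vanishes on `B` because the vector `(y2 x ^ l)_l` is in
the kernel. -/
lemma zero_lemma {K L : ℕ} (p : Fin L → Polynomial ℝ) (hdeg : ∀ l, (p l).natDegree ≤ K)
    (x1 y1 : Fin L → ℝ) (hy1 : Function.Injective y1) (B : Finset ℝ) (y2 : ℝ → ℝ)
    (hB : K * L < B.card) (hy2 : ∀ x ∈ B, y2 x ≠ 0)
    (hv : ∀ i : Fin L, ∀ x ∈ B,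
      ∑ l, (p l).eval (x + x1 i) * (y2 x * y1 i) ^ (l : ℕ) = 0) :
    ∀ l, p l = 0 := by
  classical
  by_contra hcon
  push Not at hcon
  obtain ⟨l0, hl0⟩ := hcon
  set ι := {l : Fin L // p l ≠ 0} with hι
  have hV : (Matrix.vandermonde y1).det ≠ 0 := Matrix.det_vandermonde_ne_zero_iff.2 hy1
  have hV' : (Matrix.vandermonde y1).transpose.det ≠ 0 := by rwa [Matrix.det_transpose]
  have hli : LinearIndependent ℝ (Matrix.vandermonde y1).transpose.row :=
    Matrix.linearIndependent_rows_of_det_ne_zero hV'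
  let A : Matrix ι (Fin L) ℝ := fun s i => y1 i ^ ((s : Fin L) : ℕ)
  have hA : LinearIndependent ℝ (fun s => A s) :=
    hli.comp (fun s : ι => (s : Fin L)) Subtype.val_injective
  obtain ⟨f, hf⟩ := exists_minor A hA
  let M : Matrix ι ι (Polynomial ℝ) := fun t s =>
    Polynomial.taylor (x1 (f t)) (p s) * Polynomial.C (y1 (f t) ^ ((s : Fin L) : ℕ))
  have hM : ∀ t s, (M t s).natDegree ≤ (p (s : Fin L)).natDegree := by
    intro t s
    refine (Polynomial.natDegree_mul_C_le _ _).trans ?_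
    rw [Polynomial.natDegree_taylor]
  obtain ⟨h1, h2⟩ := coeff_det M (fun s => (p (s : Fin L)).natDegree) hM
  have h3 : (Matrix.of fun i j => (M i j).coeff (p (j : Fin L)).natDegree).det ≠ 0 := by
    have e : (Matrix.of fun i j => (M i j).coeff (p (j : Fin L)).natDegree) =
        Matrix.of fun i j => (fun s : ι => (p (s : Fin L)).leadingCoeff) j *
          ((A.submatrix id f).transpose) i j := by
      ext i j
      change (Polynomial.taylor (x1 (f i)) (p j) *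
        Polynomial.C (y1 (f i) ^ ((j : Fin L) : ℕ))).coeff (p (j : Fin L)).natDegree =
        (p (j : Fin L)).leadingCoeff * y1 (f i) ^ ((j : Fin L) : ℕ)
      rw [Polynomial.coeff_mul_C, Polynomial.coeff_taylor_natDegree]
    rw [e, Matrix.det_mul_row, Matrix.det_transpose]
    refine mul_ne_zero (Finset.prod_ne_zero_iff.2 fun s _ => ?_) hf
    exact Polynomial.leadingCoeff_ne_zero.2 s.2
  have hD : M.det ≠ 0 := by
    intro h0
    rw [h0, Polynomial.coeff_zero] at h2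
    exact h3 h2.symm
  apply hD
  refine Polynomial.eq_zero_of_natDegree_lt_card_of_eval_eq_zero' _ B ?_ ?_
  · intro x hx
    have e : Polynomial.eval x M.det = (Matrix.of fun t s : ι =>
        (p (s : Fin L)).eval (x + x1 (f t)) * y1 (f t) ^ ((s : Fin L) : ℕ)).det := by
      have e1 := RingHom.map_det (Polynomial.evalRingHom x) M
      rw [Polynomial.coe_evalRingHom] at e1
      rw [e1]
      congr 1
      ext t s
      change (Polynomial.taylor (x1 (f t)) (p s) *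
        Polynomial.C (y1 (f t) ^ ((s : Fin L) : ℕ))).eval x =
        (p (s : Fin L)).eval (x + x1 (f t)) * y1 (f t) ^ ((s : Fin L) : ℕ)
      rw [Polynomial.eval_mul, Polynomial.eval_C, Polynomial.taylor_eval]
    rw [e, ← Matrix.exists_mulVec_eq_zero_iff]
    refine ⟨fun s => y2 x ^ ((s : Fin L) : ℕ), ?_, ?_⟩
    · intro h0
      have h4 := congrFun h0 ⟨l0, hl0⟩
      exact pow_ne_zero _ (hy2 x hx) h4
    · ext t
      have h4 := hv (f t) x hx
      rw [Matrix.mulVec, dotProduct, Pi.zero_apply, ← h4]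
      have h5 : ∀ l : Fin L, l ∈ (univ : Finset (Fin L)) → l ∉ univ.filter (fun l => p l ≠ 0) →
          (p l).eval (x + x1 (f t)) * (y2 x * y1 (f t)) ^ (l : ℕ) = 0 := by
        intro l _ hl
        have : p l = 0 := by simpa using hl
        rw [this, Polynomial.eval_zero, zero_mul]
      rw [← Finset.sum_subset (Finset.filter_subset _ _) h5,
        Finset.sum_subtype (univ.filter (fun l => p l ≠ 0)) (p := fun l => p l ≠ 0)
          (fun l => by simp)]
      refine Finset.sum_congr rfl fun s _ => ?_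
      rw [Matrix.of_apply, mul_pow]
      ring
  · refine lt_of_le_of_lt h1 (lt_of_le_of_lt ?_ hB)
    calc ∑ s : ι, (p (s : Fin L)).natDegree ≤ ∑ _s : ι, K :=
          Finset.sum_le_sum fun s _ => hdeg _
      _ = Fintype.card ι * K := by rw [Finset.sum_const, Finset.card_univ, smul_eq_mul]
      _ ≤ L * K := by
          refine Nat.mul_le_mul_right _ ?_
          have := Fintype.card_subtype_le (fun l : Fin L => p l ≠ 0)
          rwa [Fintype.card_fin] at this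
      _ = K * L := Nat.mul_comm _ _
-- END A6

-- BEGIN A7
/-- A7. there are `K * L` points of the box with nonzero determinant (use A4 with columns = all points of the box,
rows `x^k y^l`; independence of the rows: A6 with `x1 i = i`, `y1 i = a ^ i` and
`B` = the `R2 * U` distinct numbers `r + m u`, `r < R2 ≤ m`, `u < U`) -/
lemma exists_points {K L R2 U m : ℕ} (a b : ℝ) (ha : 0 < a) (hb : 0 < b)
    (hinj : ∀ r u r' u' : ℕ, a ^ r * b ^ u = a ^ r' * b ^ u' → r = r' ∧ u = u')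
    (hm : R2 ≤ m) (hcard : (K - 1) * L < R2 * U) (hK : 0 < K) (hL : 0 < L) :
    ∃ pt : Fin K × Fin L → ℕ × ℕ, (∀ i, (pt i).1 < R2 + L ∧ (pt i).2 < U) ∧
      (Matrix.of fun (i j : Fin K × Fin L) =>
        (((pt j).1 + m * (pt j).2 : ℕ) : ℝ) ^ (i.1 : ℕ) *
          (a ^ (pt j).1 * b ^ (pt j).2) ^ (i.2 : ℕ)).det ≠ 0 := by
  classical
  have hR2 : 0 < R2 := by
    rcases Nat.eq_zero_or_pos R2 with h | h
    · subst h; simp at hcard
    · exact h
  have hmpos : 0 < m := lt_of_lt_of_le hR2 hm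
  set A : Matrix (Fin K × Fin L) (Fin (R2 + L) × Fin U) ℝ := Matrix.of fun i j =>
    (((j.1 : ℕ) + m * (j.2 : ℕ) : ℕ) : ℝ) ^ (i.1 : ℕ) *
      (a ^ (j.1 : ℕ) * b ^ (j.2 : ℕ)) ^ (i.2 : ℕ) with hA
  have hli : LinearIndependent ℝ (fun i => A i) := by
    rw [Fintype.linearIndependent_iff]
    intro c hc
    -- the polynomials
    set p : Fin L → Polynomial ℝ := fun l =>
      ∑ k : Fin K, Polynomial.C (c (k, l)) * Polynomial.X ^ (k : ℕ) with hp
    have hdeg : ∀ l, (p l).natDegree ≤ K - 1 := by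
      intro l
      refine Polynomial.natDegree_sum_le_of_forall_le _ _ ?_
      intro k _
      refine (Polynomial.natDegree_C_mul_X_pow_le _ _).trans ?_
      have := k.2
      omega
    have heval : ∀ (l : Fin L) (x : ℝ), (p l).eval x = ∑ k : Fin K, c (k, l) * x ^ (k : ℕ) := by
      intro l x
      simp [hp, Polynomial.eval_finsetSum]
    have hcoeff : ∀ (l : Fin L) (k : Fin K), (p l).coeff (k : ℕ) = c (k, l) := by
      intro l k
      simp only [hp, Polynomial.finsetSum_coeff, Polynomial.coeff_C_mul, Polynomial.coeff_X_pow]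
      rw [Finset.sum_eq_single k]
      · simp
      · intro k' _ hk'
        have : (k : ℕ) ≠ (k' : ℕ) := fun h => hk' (Fin.ext h.symm)
        simp [this]
      · simp
    have hvanish : ∀ r u : ℕ, r < R2 + L → u < U →
        ∑ l : Fin L, (p l).eval ((r + m * u : ℕ) : ℝ) * (a ^ r * b ^ u) ^ (l : ℕ) = 0 := by
      intro r u hr hu
      have h1 := congrFun hc (⟨r, hr⟩, ⟨u, hu⟩)
      simp only [Finset.sum_apply, Pi.smul_apply, smul_eq_mul, Pi.zero_apply, hA, Matrix.of_apply]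
        at h1
      rw [Fintype.sum_prod_type, Finset.sum_comm] at h1
      rw [← h1]
      refine Finset.sum_congr rfl fun l _ => ?_
      rw [heval, Finset.sum_mul]
      refine Finset.sum_congr rfl fun k _ => ?_
      ring
    set g : ℕ × ℕ → ℝ := fun q => ((q.1 + m * q.2 : ℕ) : ℝ) with hg
    set B : Finset ℝ := ((Finset.range R2) ×ˢ (Finset.range U)).image g with hB
    set y2 : ℝ → ℝ := fun x => a ^ (⌊x⌋₊ % m) * b ^ (⌊x⌋₊ / m) with hy2
    have hmod : ∀ r u : ℕ, r < R2 → (r + m * u) % m = r ∧ (r + m * u) / m = u := by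
      intro r u hr
      have hrm : r < m := lt_of_lt_of_le hr hm
      constructor
      · rw [Nat.add_mul_mod_self_left, Nat.mod_eq_of_lt hrm]
      · rw [Nat.add_mul_div_left _ _ hmpos, Nat.div_eq_of_lt hrm, zero_add]
    have hBcard : B.card = R2 * U := by
      rw [hB, Finset.card_image_of_injOn, Finset.card_product, Finset.card_range,
        Finset.card_range]
      rintro ⟨r, u⟩ h1 ⟨r', u'⟩ h2 h12
      simp only [Finset.coe_product, Finset.coe_range, Set.mem_prod, Set.mem_Iio] at h1 h2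
      have h12' : r + m * u = r' + m * u' := by
        have : ((r + m * u : ℕ) : ℝ) = ((r' + m * u' : ℕ) : ℝ) := h12
        exact_mod_cast this
      have e1 := hmod r u h1.1
      have e2 := hmod r' u' h2.1
      rw [h12'] at e1
      exact Prod.ext (e1.1.symm.trans e2.1) (e1.2.symm.trans e2.2)
    have hzero := zero_lemma (K := K - 1) (L := L) p hdeg (fun i => ((i : ℕ) : ℝ))
      (fun i => a ^ (i : ℕ))
      (by
        intro i i' hii
        have := hinj i 0 i' 0 (by simpa using hii)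
        exact Fin.ext this.1)
      B y2 (by rw [hBcard]; exact hcard)
      (by
        intro x _
        simp only [hy2]
        positivity)
      (by
        intro i x hx
        rw [hB, Finset.mem_image] at hx
        obtain ⟨⟨r, u⟩, hru, rfl⟩ := hx
        rw [Finset.mem_product, Finset.mem_range, Finset.mem_range] at hru
        have e1 := hmod r u hru.1
        have h2 := hvanish (r + i) u (by have := i.2; have := hru.1; omega) hru.2
        rw [← h2]
        refine Finset.sum_congr rfl fun l _ => ?_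
        have e2 : y2 (g (r, u)) = a ^ r * b ^ u := by
          simp only [hy2, hg, Nat.floor_natCast, e1.1, e1.2]
        rw [e2]
        congr 1
        · congr 1
          simp only [hg]
          push_cast
          ring
        · congr 1
          rw [pow_add]
          ring)
    rintro ⟨k, l⟩
    rw [← hcoeff l k, hzero l, Polynomial.coeff_zero]
  obtain ⟨f, hf⟩ := exists_minor A hli
  refine ⟨fun i => ((f i).1, (f i).2), fun i => ⟨(f i).1.2, (f i).2.2⟩, ?_⟩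
  exact hf
-- END A7

-- BEGIN A8
/-- A8. arithmetic lower bound: multiply column `j` by `(B1 ^ r_j * B2 ^ u_j) ^ (L-1)`: integer entries -/
lemma det_lower {K L m : ℕ} (A1 B1 A2 B2 : ℕ) (hB1 : 0 < B1) (hB2 : 0 < B2)
    (h1 h2 R U : ℝ) (hlB1 : log B1 ≤ h1) (hlB2 : log B2 ≤ h2) (hh1 : 0 ≤ h1) (hh2 : 0 ≤ h2)
    (pt : Fin K × Fin L → ℕ × ℕ) (hR : ∀ i, ((pt i).1 : ℝ) ≤ R) (hU : ∀ i, ((pt i).2 : ℝ) ≤ U)
    (hdet : (Matrix.of fun (i j : Fin K × Fin L) =>
        (((pt j).1 + m * (pt j).2 : ℕ) : ℝ) ^ (i.1 : ℕ) *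
          (((A1 : ℝ) / B1) ^ (pt j).1 * ((A2 : ℝ) / B2) ^ (pt j).2) ^ (i.2 : ℕ)).det ≠ 0) :
    exp (-((K : ℝ) * L * ((L : ℝ) - 1) * (R * h1 + U * h2))) ≤
      |(Matrix.of fun (i j : Fin K × Fin L) =>
        (((pt j).1 + m * (pt j).2 : ℕ) : ℝ) ^ (i.1 : ℕ) *
          (((A1 : ℝ) / B1) ^ (pt j).1 * ((A2 : ℝ) / B2) ^ (pt j).2) ^ (i.2 : ℕ)).det| := by
  classical
  set M : Matrix (Fin K × Fin L) (Fin K × Fin L) ℝ := Matrix.of fun (i j : Fin K × Fin L) =>
        (((pt j).1 + m * (pt j).2 : ℕ) : ℝ) ^ (i.1 : ℕ) *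
          (((A1 : ℝ) / B1) ^ (pt j).1 * ((A2 : ℝ) / B2) ^ (pt j).2) ^ (i.2 : ℕ) with hM
  have hB1' : (0 : ℝ) < B1 := by exact_mod_cast hB1
  have hB2' : (0 : ℝ) < B2 := by exact_mod_cast hB2
  set v : Fin K × Fin L → ℝ := fun j => ((B1 : ℝ) ^ (pt j).1 * (B2 : ℝ) ^ (pt j).2) ^ (L - 1)
    with hv
  have hvpos : ∀ j, 0 < v j := fun j => by simp only [hv]; positivity
  set N : Matrix (Fin K × Fin L) (Fin K × Fin L) ℤ := Matrix.of fun (i j : Fin K × Fin L) =>
      (((pt j).1 + m * (pt j).2 : ℕ) : ℤ) ^ (i.1 : ℕ) *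
        (((A1 : ℤ) ^ (pt j).1 * (A2 : ℤ) ^ (pt j).2) ^ (i.2 : ℕ) *
          ((B1 : ℤ) ^ (pt j).1 * (B2 : ℤ) ^ (pt j).2) ^ (L - 1 - (i.2 : ℕ))) with hN
  have hNM : N.map (Int.cast : ℤ → ℝ) = Matrix.of fun i j => v j * M i j := by
    ext i j
    simp only [Matrix.map_apply, hN, hM, Matrix.of_apply, hv]
    have hi : (i.2 : ℕ) ≤ L - 1 := by have := i.2.2; omega
    have hsplit : ((B1 : ℝ) ^ (pt j).1 * (B2 : ℝ) ^ (pt j).2) ^ (L - 1) =
        ((B1 : ℝ) ^ (pt j).1 * (B2 : ℝ) ^ (pt j).2) ^ (i.2 : ℕ) *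
        ((B1 : ℝ) ^ (pt j).1 * (B2 : ℝ) ^ (pt j).2) ^ (L - 1 - (i.2 : ℕ)) := by
      rw [← pow_add]; congr 1; omega
    rw [hsplit]
    have hq : ((B1 : ℝ) ^ (pt j).1 * (B2 : ℝ) ^ (pt j).2) *
        (((A1 : ℝ) / B1) ^ (pt j).1 * ((A2 : ℝ) / B2) ^ (pt j).2) =
        (A1 : ℝ) ^ (pt j).1 * (A2 : ℝ) ^ (pt j).2 := by
      rw [div_pow, div_pow]
      field_simp
    have hq2 : ((B1 : ℝ) ^ (pt j).1 * (B2 : ℝ) ^ (pt j).2) ^ (i.2 : ℕ) *
        (((A1 : ℝ) / B1) ^ (pt j).1 * ((A2 : ℝ) / B2) ^ (pt j).2) ^ (i.2 : ℕ) =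
        ((A1 : ℝ) ^ (pt j).1 * (A2 : ℝ) ^ (pt j).2) ^ (i.2 : ℕ) := by
      rw [← mul_pow, hq]
    push_cast
    rw [← hq2]
    ring
  have hdetN : (N.det : ℝ) = (∏ j, v j) * M.det := by
    rw [← Matrix.det_mul_row, ← hNM]
    have := (Int.castRingHom ℝ).map_det N
    simpa using this
  have hvprod : 0 < ∏ j, v j := Finset.prod_pos fun j _ => hvpos j
  have hNne : N.det ≠ 0 := by
    intro h0
    rw [h0] at hdetN
    simp only [Int.cast_zero] at hdetN
    rcases mul_eq_zero.1 hdetN.symm with h | h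
    · exact hvprod.ne' h
    · exact hdet h
  have hN1 : (1 : ℝ) ≤ |(N.det : ℝ)| := by
    have : (1 : ℤ) ≤ |N.det| := Int.one_le_abs hNne
    exact_mod_cast this
  rw [hdetN, abs_mul, abs_of_pos hvprod] at hN1
  have hvle : ∏ j, v j ≤ exp ((K : ℝ) * L * ((L : ℝ) - 1) * (R * h1 + U * h2)) := by
    rcases Nat.eq_zero_or_pos L with hL | hL
    · subst hL
      simp
    have hLcast : ((L - 1 : ℕ) : ℝ) = (L : ℝ) - 1 := by
      rw [Nat.cast_sub hL, Nat.cast_one]
    have hL1 : (0 : ℝ) ≤ (L : ℝ) - 1 := by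
      rw [← hLcast]; positivity
    have hvj : ∀ j, v j ≤ exp (((L : ℝ) - 1) * (R * h1 + U * h2)) := by
      intro j
      have e1 : v j = exp (((L : ℝ) - 1) * (((pt j).1 : ℝ) * log B1 + ((pt j).2 : ℝ) * log B2)) := by
        simp only [hv]
        rw [← hLcast, exp_nat_mul, exp_add, exp_nat_mul, exp_nat_mul, exp_log hB1', exp_log hB2']
      rw [e1, exp_le_exp]
      refine mul_le_mul_of_nonneg_left ?_ hL1
      have hlB1' : 0 ≤ log (B1 : ℝ) := log_natCast_nonneg B1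
      have hlB2' : 0 ≤ log (B2 : ℝ) := log_natCast_nonneg B2
      have r0 : (0 : ℝ) ≤ ((pt j).1 : ℝ) := by positivity
      have u0 : (0 : ℝ) ≤ ((pt j).2 : ℝ) := by positivity
      refine add_le_add ?_ ?_
      · exact mul_le_mul (hR j) hlB1 hlB1' (r0.trans (hR j))
      · exact mul_le_mul (hU j) hlB2 hlB2' (u0.trans (hU j))
    calc ∏ j, v j ≤ ∏ _j : Fin K × Fin L, exp (((L : ℝ) - 1) * (R * h1 + U * h2)) :=
          Finset.prod_le_prod (fun j _ => (hvpos j).le) (fun j _ => hvj j)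
      _ = exp ((K : ℝ) * L * ((L : ℝ) - 1) * (R * h1 + U * h2)) := by
          rw [Finset.prod_const, Finset.card_univ, Fintype.card_prod, Fintype.card_fin,
            Fintype.card_fin, ← exp_nat_mul]
          congr 1
          push_cast
          ring
  rw [exp_neg, inv_le_iff_one_le_mul₀ (exp_pos _)]
  calc (1 : ℝ) ≤ (∏ j, v j) * |M.det| := hN1
    _ ≤ exp ((K : ℝ) * L * ((L : ℝ) - 1) * (R * h1 + U * h2)) * |M.det| :=
        mul_le_mul_of_nonneg_right hvle (abs_nonneg _)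
    _ = |M.det| * exp ((K : ℝ) * L * ((L : ℝ) - 1) * (R * h1 + U * h2)) := mul_comm _ _
-- END A8

-- BEGIN A9
lemma a9_sum_range (K : ℕ) : ∑ k ∈ range K, (k : ℝ) = K * (K - 1) / 2 := by
  induction K with
  | zero => simp
  | succ n ih =>
    rw [sum_range_succ, ih]
    push_cast
    ring

lemma a9_sum_fst (K L : ℕ) : ∑ i : Fin K × Fin L, ((i.1 : ℕ) : ℝ) = K * L * ((K - 1) / 2) := by
  rw [Fintype.sum_prod_type]
  simp only [sum_const, card_univ, Fintype.card_fin, nsmul_eq_mul]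
  rw [← mul_sum, Fin.sum_univ_eq_sum_range (fun k => (k : ℝ)), a9_sum_range]
  ring

lemma a9_sum_snd (K L : ℕ) : ∑ i : Fin K × Fin L, ((i.2 : ℕ) : ℝ) = K * L * ((L - 1) / 2) := by
  rw [Fintype.sum_prod_type]
  simp only [sum_const, card_univ, Fintype.card_fin, nsmul_eq_mul]
  rw [Fin.sum_univ_eq_sum_range (fun k => (k : ℝ)), a9_sum_range]
  ring

lemma a9_exp_sub (t : ℝ) (ht : |t| ≤ 1) : |exp t - 1| ≤ 2 * |t| := by
  have h := Real.abs_exp_sub_one_le ht
  exact h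

/-- A9. analytic upper bound for the determinant of A7 (from `idb`).  `Λ = m log α1 - log α2`,
`α1^r α2^u = exp ((r + m u) log α1 - u Λ)`, `|log α1| X ≤ H`. -/
lemma det_upper {K L m R U : ℕ} (α1 α2 h1 h2 : ℝ) (hα1 : 0 < α1) (hα2 : 0 < α2)
    (hl1 : |log α1| ≤ h1) (hl2 : |log α2| ≤ h2) (hh1 : 0 ≤ h1) (hh2 : 0 ≤ h2)
    (hK : 0 < K) (hL : 0 < L) (hRpos : 0 < R)
    (hsmall : 2 * L * U * |m * log α1 - log α2| ≤ exp (-((K : ℝ) * L)))
    (pt : Fin K × Fin L → ℕ × ℕ) (hR : ∀ i, (pt i).1 ≤ R) (hU : ∀ i, (pt i).2 ≤ U) :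
    |(Matrix.of fun (i j : Fin K × Fin L) =>
        (((pt j).1 + m * (pt j).2 : ℕ) : ℝ) ^ (i.1 : ℕ) *
          (α1 ^ (pt j).1 * α2 ^ (pt j).2) ^ (i.2 : ℕ)).det| ≤
      (K * L).factorial * 3 ^ (K * L) * exp (-((K : ℝ) * L * (K * L - 1) / 2)) *
        exp ((K : ℝ) * L * ((K - 1) / 2 * (1 + log (R + m * U)) +
          (L - 1) / 2 * exp 1 * (R * h1 + U * h2 + 1))) := by
  set Λ : ℝ := m * log α1 - log α2 with hΛ
  set X : ℝ := (R : ℝ) + m * U with hX
  have hR1 : (1 : ℝ) ≤ R := by exact_mod_cast hRpos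
  have hL1 : (1 : ℝ) ≤ L := by exact_mod_cast hL
  have hmU : (0 : ℝ) ≤ m * U := by positivity
  have hX1 : 1 ≤ X := by rw [hX]; linarith
  have hX0 : 0 < X := by linarith
  have hKL0 : (0 : ℝ) ≤ (K : ℝ) * L := by positivity
  have hexp1 : exp (-((K : ℝ) * L)) ≤ 1 := by
    rw [exp_le_one_iff]; linarith
  have hcard : Fintype.card (Fin K × Fin L) = K * L := by simp
  have hxX : ∀ j : Fin K × Fin L, |(((pt j).1 + m * (pt j).2 : ℕ) : ℝ)| ≤ X := by
    intro j
    rw [abs_of_nonneg (Nat.cast_nonneg _), hX]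
    have : (pt j).1 + m * (pt j).2 ≤ R + m * U :=
      Nat.add_le_add (hR j) (Nat.mul_le_mul_left _ (hU j))
    exact_mod_cast this
  have hUΛ : (U : ℝ) * |Λ| ≤ 1 / 2 := by
    have h0 : 0 ≤ (U : ℝ) * |Λ| := by positivity
    nlinarith
  -- the exponential form
  have hform : ∀ i j : Fin K × Fin L,
      (((pt j).1 + m * (pt j).2 : ℕ) : ℝ) ^ (i.1 : ℕ) *
          (α1 ^ (pt j).1 * α2 ^ (pt j).2) ^ (i.2 : ℕ) =
        (((pt j).1 + m * (pt j).2 : ℕ) : ℝ) ^ (i.1 : ℕ) *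
          exp (((i.2 : ℕ) : ℝ) * log α1 * (((pt j).1 + m * (pt j).2 : ℕ) : ℝ)) *
          exp (-(((i.2 : ℕ) : ℝ) * ((pt j).2 : ℝ) * Λ)) := by
    intro i j
    rw [mul_assoc, ← exp_add]
    congr 1
    have e1 : α1 ^ (pt j).1 * α2 ^ (pt j).2 =
        exp (((pt j).1 : ℝ) * log α1 + ((pt j).2 : ℝ) * log α2) := by
      rw [exp_add, exp_nat_mul, exp_nat_mul, exp_log hα1, exp_log hα2]
    rw [e1, ← exp_nat_mul]
    congr 1
    rw [hΛ]
    push_cast
    ring
  have hb : ∀ i : Fin K × Fin L, |((i.2 : ℕ) : ℝ) * log α1| * (exp 1 * X) ≤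
      ((i.2 : ℕ) : ℝ) * (exp 1 * (R * h1 + U * h2 + 1)) := by
    intro i
    rw [abs_mul, abs_of_nonneg (Nat.cast_nonneg (i.2 : ℕ)), mul_assoc]
    refine mul_le_mul_of_nonneg_left ?_ (Nat.cast_nonneg _)
    have h3 : (m : ℝ) * |log α1| ≤ |Λ| + h2 := by
      have h4 : (m : ℝ) * log α1 = Λ + log α2 := by rw [hΛ]; ring
      have h5 : (m : ℝ) * |log α1| = |(m : ℝ) * log α1| := by
        rw [abs_mul, Nat.abs_cast]
      rw [h5, h4]
      exact (abs_add_le _ _).trans (by linarith)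
    have h6 : |log α1| * X ≤ R * h1 + U * h2 + 1 := by
      have h7 : |log α1| * X = R * |log α1| + U * (m * |log α1|) := by rw [hX]; ring
      rw [h7]
      have h8 : (R : ℝ) * |log α1| ≤ R * h1 := mul_le_mul_of_nonneg_left hl1 (by positivity)
      have h9 : (U : ℝ) * (m * |log α1|) ≤ U * (|Λ| + h2) :=
        mul_le_mul_of_nonneg_left h3 (Nat.cast_nonneg _)
      nlinarith
    calc |log α1| * (exp 1 * X) = exp 1 * (|log α1| * X) := by ring
      _ ≤ exp 1 * (R * h1 + U * h2 + 1) := mul_le_mul_of_nonneg_left h6 (exp_pos 1).le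
  have key := idb (Matrix.of fun (i j : Fin K × Fin L) =>
        (((pt j).1 + m * (pt j).2 : ℕ) : ℝ) ^ (i.1 : ℕ) *
          (α1 ^ (pt j).1 * α2 ^ (pt j).2) ^ (i.2 : ℕ))
    (fun i => (i.1 : ℕ)) (fun i => ((i.2 : ℕ) : ℝ) * log α1)
    (fun j => (((pt j).1 + m * (pt j).2 : ℕ) : ℝ)) X hX1 hxX (by
      intro i j
      rw [Matrix.of_apply, hform i j, hcard]
      set x : ℝ := (((pt j).1 + m * (pt j).2 : ℕ) : ℝ) with hx
      set c : ℝ := ((i.2 : ℕ) : ℝ) * log α1 with hc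
      set t : ℝ := -(((i.2 : ℕ) : ℝ) * ((pt j).2 : ℝ) * Λ) with ht
      have e1 : x ^ (i.1 : ℕ) * exp (c * x) * exp t - x ^ (i.1 : ℕ) * exp (c * x) =
          (x ^ (i.1 : ℕ) * exp (c * x)) * (exp t - 1) := by ring
      rw [e1, abs_mul, abs_mul, abs_pow, abs_of_pos (exp_pos (c * x))]
      have ht1 : |t| ≤ (L : ℝ) * (U * |Λ|) := by
        rw [ht, abs_neg, abs_mul, abs_mul, abs_of_nonneg (Nat.cast_nonneg (i.2 : ℕ)),
          abs_of_nonneg (Nat.cast_nonneg (pt j).2), mul_assoc]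
        have q1 : ((i.2 : ℕ) : ℝ) ≤ L := by exact_mod_cast i.2.2.le
        have q2 : ((pt j).2 : ℝ) ≤ U := by exact_mod_cast hU j
        exact mul_le_mul q1 (mul_le_mul_of_nonneg_right q2 (abs_nonneg _)) (by positivity)
          (by positivity)
      have ht2 : 2 * ((L : ℝ) * (U * |Λ|)) ≤ exp (-((K : ℝ) * L)) := by
        have : 2 * ((L : ℝ) * (U * |Λ|)) = 2 * L * U * |Λ| := by ring
        rw [this]
        exact hsmall
      have ht3 : |t| ≤ 1 := by linarith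
      have ht4 : |exp t - 1| ≤ exp (-((K : ℝ) * L)) := by
        refine (a9_exp_sub t ht3).trans ?_
        linarith
      have hx1 : |x| ≤ exp 1 * X := by
        have := hxX j
        have h2e : (1 : ℝ) ≤ exp 1 := one_le_exp (by norm_num)
        nlinarith
      have hx2 : |x| ^ (i.1 : ℕ) ≤ (exp 1 * X) ^ (i.1 : ℕ) :=
        pow_le_pow_left₀ (abs_nonneg _) hx1 _
      have hx3 : exp (c * x) ≤ exp (|c| * (exp 1 * X)) := by
        rw [exp_le_exp]
        calc c * x ≤ |c * x| := le_abs_self _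
          _ = |c| * |x| := abs_mul _ _
          _ ≤ _ := mul_le_mul_of_nonneg_left hx1 (abs_nonneg _)
      have hcast : ((K * L : ℕ) : ℝ) = (K : ℝ) * L := by push_cast; ring
      rw [hcast, mul_comm (exp (-((K : ℝ) * L)))]
      exact mul_le_mul (mul_le_mul hx2 hx3 (exp_pos _).le (by positivity)) ht4 (abs_nonneg _)
        (by positivity))
  rw [hcard] at key
  refine key.trans ?_
  have hcast : ((K * L : ℕ) : ℝ) = (K : ℝ) * L := by push_cast; ring
  rw [hcast]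
  refine mul_le_mul_of_nonneg_left ?_ (by positivity)
  have hprod : ∏ i : Fin K × Fin L, ((exp 1 * X) ^ (i.1 : ℕ) *
      exp (|((i.2 : ℕ) : ℝ) * log α1| * (exp 1 * X))) ≤
      ∏ i : Fin K × Fin L, exp (((i.1 : ℕ) : ℝ) * (1 + log X) +
        ((i.2 : ℕ) : ℝ) * (exp 1 * (R * h1 + U * h2 + 1))) := by
    refine prod_le_prod (fun i _ => by positivity) fun i _ => ?_
    rw [exp_add]
    have e2 : (exp 1 * X) ^ (i.1 : ℕ) = exp (((i.1 : ℕ) : ℝ) * (1 + log X)) := by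
      rw [exp_nat_mul, exp_add, exp_log hX0]
    rw [e2]
    exact mul_le_mul_of_nonneg_left (exp_le_exp.mpr (hb i)) (exp_pos _).le
  refine hprod.trans (le_of_eq ?_)
  rw [← exp_sum, sum_add_distrib, ← sum_mul, ← sum_mul, a9_sum_fst, a9_sum_snd]
  congr 1
  ring
-- END A9

-- BEGIN A10
private lemma a10_ceil (x c : ℝ) (hx : 1 ≤ x) (hc : 0 ≤ c) :
    c * x ≤ (⌈c * x⌉₊ : ℝ) ∧ (⌈c * x⌉₊ : ℝ) ≤ (c + 1) * x := by
  have h0 : 0 ≤ c * x := by positivity
  refine ⟨Nat.le_ceil _, ?_⟩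
  have := Nat.ceil_lt_add_one h0
  linarith

private lemma a10_log (n : ℝ) (hn : 24576 ≤ n) : log (3 * n) + 1 / 2 ≤ n / 32 := by
  have h1 : 3 * n ≤ exp (n / 32 - 1 / 2) := by
    have h2 : (0 : ℝ) ≤ n / 32 - 1 / 2 := by linarith
    have h3 := Real.quadratic_le_exp_of_nonneg h2
    nlinarith
  have h4 := Real.log_le_log (by linarith) h1
  rw [Real.log_exp] at h4
  linarith

private lemma a10_log2 (m h1 h2 l y : ℝ) (hm : 1 ≤ m) (hh1 : 1 ≤ h1) (hh2 : 1 ≤ h2)
    (hl1 : 1 ≤ l) (hl : l = 1 + log m + log h1 + log h2) (hy0 : 0 < y)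
    (hy : y ≤ 2023 * (l * m * h1 * h2)) : 1 + log y ≤ 10 * l := by
  have h3 : log y ≤ log (2023 * (l * m * h1 * h2)) := Real.log_le_log hy0 hy
  have hm0 : m ≠ 0 := by positivity
  have hh10 : h1 ≠ 0 := by positivity
  have hh20 : h2 ≠ 0 := by positivity
  have hl0 : l ≠ 0 := by positivity
  rw [Real.log_mul (by norm_num) (by positivity), Real.log_mul (by positivity) hh20,
    Real.log_mul (by positivity) hh10, Real.log_mul hl0 hm0] at h3
  have h4 : log (2023 : ℝ) ≤ 8 := by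
    have h5 : (2023 : ℝ) ≤ exp 8 := by
      have h6 : exp (8 : ℝ) = exp 1 ^ 8 := by
        rw [← Real.exp_nat_mul]
        norm_num
      rw [h6]
      have h7 : (2.7 : ℝ) ^ 8 ≤ exp 1 ^ 8 :=
        pow_le_pow_left₀ (by norm_num) (by linarith [Real.exp_one_gt_d9]) 8
      refine le_trans (by norm_num) h7
    have h8 := Real.log_le_log (by norm_num) h5
    rwa [Real.log_exp] at h8
  have h9 : log l ≤ l - 1 := Real.log_le_sub_one_of_pos (by linarith)
  linarith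

/-- A10. the parameters -/
lemma parameters (m : ℕ) (hm : 0 < m) (h1 h2 l : ℝ) (hh1 : 1 ≤ h1) (hh2 : 1 ≤ h2)
    (hl : l = 1 + log m + log h1 + log h2) :
    ∃ K L R2 U : ℕ, 0 < K ∧ 0 < L ∧ 0 < R2 ∧ (R2 : ℝ) ≤ 4000 * l * h2 ∧
      (K - 1) * L < R2 * U ∧
      (2 * L * U * exp (-(3 * 10 ^ 7 * l ^ 2 * h1 * h2)) ≤ exp (-((K : ℝ) * L))) ∧
      (K * L).factorial * 3 ^ (K * L) * exp (-((K : ℝ) * L * (K * L - 1) / 2)) *
        exp ((K : ℝ) * L * ((K - 1) / 2 * (1 + log ((R2 + L : ℕ) + m * U)) +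
          (L - 1) / 2 * exp 1 * ((R2 + L : ℕ) * h1 + U * h2 + 1))) <
        exp (-((K : ℝ) * L * ((L : ℝ) - 1) * ((R2 + L : ℕ) * h1 + U * h2))) := by
  have hm1 : (1 : ℝ) ≤ (m : ℝ) := by exact_mod_cast hm
  have hlm : 0 ≤ log (m : ℝ) := Real.log_nonneg hm1
  have hlh1 : 0 ≤ log h1 := Real.log_nonneg hh1
  have hlh2 : 0 ≤ log h2 := Real.log_nonneg hh2
  have hl1 : 1 ≤ l := by linarith
  have hlh1' : 1 ≤ l * h1 := one_le_mul_of_one_le_of_one_le hl1 hh1
  have hlh2' : 1 ≤ l * h2 := one_le_mul_of_one_le_of_one_le hl1 hh2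
  obtain ⟨hL1, hL2⟩ := a10_ceil l 20 hl1 (by norm_num)
  obtain ⟨hR1, hR2⟩ := a10_ceil (l * h2) 1000 hlh2' (by norm_num)
  obtain ⟨hU1, hU2⟩ := a10_ceil (l * h1) 1000 hlh1' (by norm_num)
  generalize ⌈(20 : ℝ) * l⌉₊ = L at hL1 hL2
  generalize ⌈(1000 : ℝ) * (l * h2)⌉₊ = R at hR1 hR2
  generalize ⌈(1000 : ℝ) * (l * h1)⌉₊ = U at hU1 hU2
  have hLpos : 0 < L := by
    have : (0 : ℝ) < (L : ℝ) := by linarith
    exact_mod_cast this
  have hRpos : 0 < R := by
    have : (0 : ℝ) < (R : ℝ) := by linarith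
    exact_mod_cast this
  have hUpos : 0 < U := by
    have : (0 : ℝ) < (U : ℝ) := by linarith
    exact_mod_cast this
  have hRU : 1 ≤ R * U := Nat.mul_pos hRpos hUpos
  -- the parameter `K`
  obtain ⟨K, hK⟩ : ∃ K : ℕ, K = (R * U - 1) / L + 1 := ⟨_, rfl⟩
  have hKpos : 0 < K := by rw [hK]; exact Nat.succ_pos _
  have hc1 : (K - 1) * L < R * U := by
    have h3 : K - 1 = (R * U - 1) / L := by rw [hK, Nat.add_sub_cancel]
    rw [h3]
    have := Nat.div_mul_le_self (R * U - 1) L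
    omega
  have hc2 : R * U ≤ K * L := by
    have h3 := Nat.lt_div_mul_add (a := R * U - 1) hLpos
    have h4 : K * L = (R * U - 1) / L * L + L := by rw [hK, add_mul, one_mul]
    omega
  have hc3 : K * L ≤ R * U + L := by
    have h3 := Nat.div_mul_le_self (R * U - 1) L
    have h4 : K * L = (R * U - 1) / L * L + L := by rw [hK, add_mul, one_mul]
    omega
  have hc2' : (R : ℝ) * U ≤ (K : ℝ) * L := by exact_mod_cast hc2
  have hc3' : (K : ℝ) * L ≤ (R : ℝ) * U + L := by exact_mod_cast hc3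
  -- the size `w = l² h1 h2`
  obtain ⟨w, hw⟩ : ∃ w : ℝ, w = l ^ 2 * h1 * h2 := ⟨_, rfl⟩
  have hw' : w = (l * h2) * (l * h1) := by rw [hw]; ring
  have hw1 : 1 ≤ w := by rw [hw']; exact one_le_mul_of_one_le_of_one_le hlh2' hlh1'
  have hlw : l ≤ w := by
    rw [hw']
    calc l = l * 1 := (mul_one l).symm
      _ ≤ (l * h2) * (l * h1) := by
        refine mul_le_mul ?_ hlh1' zero_le_one (by positivity)
        calc l = l * 1 := (mul_one l).symm
          _ ≤ l * h2 := mul_le_mul_of_nonneg_left hh2 (by linarith)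
  have hRU1 : 10 ^ 6 * w ≤ (R : ℝ) * U := by
    have := mul_le_mul hR1 hU1 (by positivity) (by positivity)
    rw [hw']
    linarith
  have hRU2 : (R : ℝ) * U ≤ 1002001 * w := by
    have := mul_le_mul hR2 hU2 (by positivity) (by positivity)
    rw [hw']
    linarith
  have hn1 : 10 ^ 6 * w ≤ (K : ℝ) * L := hRU1.trans hc2'
  have hn2 : (K : ℝ) * L ≤ 1002022 * w := by linarith
  have hLr : (1 : ℝ) ≤ (L : ℝ) := by exact_mod_cast hLpos
  have hKr : (1 : ℝ) ≤ (K : ℝ) := by exact_mod_cast hKpos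
  have hUr : (1 : ℝ) ≤ (U : ℝ) := by exact_mod_cast hUpos
  -- the quantity `S`
  have hRL : ((R + L : ℕ) : ℝ) ≤ 1022 * (l * h2) := by
    push_cast
    have : l ≤ l * h2 := le_mul_of_one_le_right (by linarith) hh2
    linarith
  have hRL0 : (0 : ℝ) ≤ ((R + L : ℕ) : ℝ) := Nat.cast_nonneg _
  obtain ⟨S, hS⟩ : ∃ S : ℝ, S = ((R + L : ℕ) : ℝ) * h1 + U * h2 := ⟨_, rfl⟩
  have hS2 : S ≤ 2023 * (l * h1 * h2) := by
    have e1 : ((R + L : ℕ) : ℝ) * h1 ≤ 1022 * (l * h2) * h1 :=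
      mul_le_mul_of_nonneg_right hRL (by linarith)
    have e2 : (U : ℝ) * h2 ≤ (1000 + 1) * (l * h1) * h2 :=
      mul_le_mul_of_nonneg_right hU2 (by linarith)
    rw [hS]
    linarith
  have hS1 : 1000 ≤ S := by
    have e1 : (1000 : ℝ) ≤ U := by linarith
    have e2 : (U : ℝ) ≤ U * h2 := le_mul_of_one_le_right (by linarith) hh2
    have e3 : 0 ≤ ((R + L : ℕ) : ℝ) * h1 := mul_nonneg hRL0 (by linarith)
    rw [hS]
    linarith
  have hLS : (L : ℝ) * S ≤ 42483 * w := by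
    have e1 := mul_le_mul hL2 hS2 (by linarith) (by linarith)
    have e2 : (20 + 1) * l * (2023 * (l * h1 * h2)) = 42483 * w := by rw [hw]; ring
    linarith
  refine ⟨K, L, R, U, hKpos, hLpos, hRpos, ?_, hc1, ?_, ?_⟩
  · have : 0 ≤ l * h2 := by linarith
    linarith
  · -- the exponential smallness
    have e0 : (0 : ℝ) < 2 * L * U := by positivity
    have e1 : 2 * (L : ℝ) * U ≤ exp (2 * L * U) := by
      have := Real.add_one_le_exp (2 * (L : ℝ) * U)
      linarith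
    have e2 : 2 * (L : ℝ) * U ≤ 42042 * w := by
      have e3 := mul_le_mul hL2 hU2 (by positivity) (by positivity)
      have e4 : (20 + 1) * l * ((1000 + 1) * (l * h1)) = 21021 * (l * (l * h1)) := by ring
      have e5 : l * (l * h1) ≤ w := by
        rw [hw']
        have e6 : l ≤ l * h2 := le_mul_of_one_le_right (by linarith) hh2
        exact mul_le_mul_of_nonneg_right e6 (by linarith)
      linarith
    calc 2 * L * U * exp (-(3 * 10 ^ 7 * l ^ 2 * h1 * h2))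
        ≤ exp (2 * L * U) * exp (-(3 * 10 ^ 7 * l ^ 2 * h1 * h2)) :=
          mul_le_mul_of_nonneg_right e1 (exp_pos _).le
      _ = exp (2 * L * U + -(3 * 10 ^ 7 * l ^ 2 * h1 * h2)) := (Real.exp_add _ _).symm
      _ ≤ exp (-((K : ℝ) * L)) := by
          refine Real.exp_le_exp.mpr ?_
          have e7 : 3 * 10 ^ 7 * l ^ 2 * h1 * h2 = 3 * 10 ^ 7 * w := by rw [hw]; ring
          rw [e7]
          linarith
  · -- the final inequality
    rw [← hS]
    have hnpos : (0 : ℝ) < (K : ℝ) * L := by positivity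
    have hy0 : (0 : ℝ) < ((R + L : ℕ) : ℝ) + m * U := by
      have : (0 : ℝ) < (m : ℝ) * U := by positivity
      linarith
    have hlog : 1 + log (((R + L : ℕ) : ℝ) + m * U) ≤ 10 * l := by
      refine a10_log2 m h1 h2 l _ hm1 hh1 hh2 hl1 hl hy0 ?_
      have f1 : (m : ℝ) * U ≤ m * ((1000 + 1) * (l * h1)) :=
        mul_le_mul_of_nonneg_left hU2 (by linarith)
      have f2 : l * h2 ≤ l * m * h1 * h2 := by
        have f3 : 1 ≤ (m : ℝ) * h1 := one_le_mul_of_one_le_of_one_le hm1 hh1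
        have f4 := mul_le_mul_of_nonneg_left f3 (by linarith : (0 : ℝ) ≤ l * h2)
        have f8 : l * h2 * (m * h1) = l * m * h1 * h2 := by ring
        rw [f8, mul_one] at f4
        exact f4
      have f5 : m * (l * h1) ≤ l * m * h1 * h2 := by
        have f6 : 0 ≤ m * (l * h1) := by positivity
        have f7 := mul_le_mul_of_nonneg_left hh2 f6
        have f8 : (m : ℝ) * (l * h1) * h2 = l * m * h1 * h2 := by ring
        rw [f8, mul_one] at f7
        exact f7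
      linarith
    generalize log (((R + L : ℕ) : ℝ) + m * U) = y at hlog
    have hfac : ((K * L).factorial : ℝ) ≤ ((K : ℝ) * L) ^ (K * L) := by
      have := Nat.factorial_le_pow (K * L)
      exact_mod_cast this
    have hpow : ((K : ℝ) * L) ^ (K * L) * 3 ^ (K * L) =
        exp ((K : ℝ) * L * log (3 * ((K : ℝ) * L))) := by
      rw [← mul_pow, mul_comm ((K : ℝ) * L) 3]
      have g1 : (0 : ℝ) < 3 * ((K : ℝ) * L) := by positivity
      conv_lhs => rw [← Real.exp_log g1]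
      rw [← Real.exp_nat_mul]
      push_cast
      rfl
    have hnlog : log (3 * ((K : ℝ) * L)) + 1 / 2 ≤ (K : ℝ) * L / 32 :=
      a10_log _ (by linarith)
    have hA : ((K : ℝ) - 1) / 2 * (1 + y) ≤ (K : ℝ) * L / 4 := by
      have g1 : 1 + y ≤ (L : ℝ) / 2 := by linarith
      have g2 : ((K : ℝ) - 1) / 2 * (1 + y) ≤ ((K : ℝ) - 1) / 2 * ((L : ℝ) / 2) :=
        mul_le_mul_of_nonneg_left g1 (by linarith)
      linarith
    have hB : ((L : ℝ) - 1) / 2 * exp 1 * (S + 1) + ((L : ℝ) - 1) * S ≤ 5 / 2 * (L * S) := by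
      have g1 := Real.exp_one_lt_d9
      have g0 : 0 < exp (1 : ℝ) := exp_pos _
      have g7 : exp 1 * (S + 1) ≤ 2.72 * (S + 1) :=
        mul_le_mul_of_nonneg_right (by linarith) (by linarith)
      have g2 : exp 1 / 2 * (S + 1) + S ≤ 5 / 2 * S := by linarith
      have g3 : 0 ≤ exp 1 / 2 * (S + 1) + S := by positivity
      have g4 : ((L : ℝ) - 1) / 2 * exp 1 * (S + 1) + ((L : ℝ) - 1) * S =
          ((L : ℝ) - 1) * (exp 1 / 2 * (S + 1) + S) := by ring
      rw [g4]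
      have g5 : ((L : ℝ) - 1) * (exp 1 / 2 * (S + 1) + S) ≤
          (L : ℝ) * (exp 1 / 2 * (S + 1) + S) :=
        mul_le_mul_of_nonneg_right (by linarith) g3
      have g6 := mul_le_mul_of_nonneg_left g2 (by linarith : (0 : ℝ) ≤ (L : ℝ))
      linarith
    calc ((K * L).factorial : ℝ) * 3 ^ (K * L) * exp (-((K : ℝ) * L * (K * L - 1) / 2)) *
          exp ((K : ℝ) * L * ((K - 1) / 2 * (1 + y) + (L - 1) / 2 * exp 1 * (S + 1)))
        ≤ ((K : ℝ) * L) ^ (K * L) * 3 ^ (K * L) * exp (-((K : ℝ) * L * (K * L - 1) / 2)) *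
          exp ((K : ℝ) * L * ((K - 1) / 2 * (1 + y) + (L - 1) / 2 * exp 1 * (S + 1))) := by
          gcongr
      _ = exp ((K : ℝ) * L * log (3 * ((K : ℝ) * L)) + -((K : ℝ) * L * (K * L - 1) / 2) +
          (K : ℝ) * L * ((K - 1) / 2 * (1 + y) + (L - 1) / 2 * exp 1 * (S + 1))) := by
          rw [hpow, Real.exp_add, Real.exp_add]
      _ < exp (-((K : ℝ) * L * ((L : ℝ) - 1) * S)) := by
          refine Real.exp_lt_exp.mpr ?_
          have g1 : log (3 * ((K : ℝ) * L)) - (K * L - 1) / 2 +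
              ((K - 1) / 2 * (1 + y) + (L - 1) / 2 * exp 1 * (S + 1)) + ((L : ℝ) - 1) * S < 0 := by
            linarith
          have g2 := mul_neg_of_pos_of_neg hnpos g1
          linarith
-- END A10

-- BEGIN A11
/-- Lemma A (two logarithms, one coefficient equal to one) -/
theorem two_logs (A1 B1 A2 B2 m : ℕ) (hA1 : 0 < A1) (hB1 : 0 < B1) (hA2 : 0 < A2) (hB2 : 0 < B2)
    (hm : 0 < m) (h1 h2 : ℝ) (hh1 : 1 ≤ h1) (hh2 : 1 ≤ h2) (hlA1 : log A1 ≤ h1)
    (hlB1 : log B1 ≤ h1) (hlA2 : log A2 ≤ h2) (hlB2 : log B2 ≤ h2)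
    (hinj : ∀ r u r' u' : ℕ, ((A1 : ℝ) / B1) ^ r * ((A2 : ℝ) / B2) ^ u =
      ((A1 : ℝ) / B1) ^ r' * ((A2 : ℝ) / B2) ^ u' → r = r' ∧ u = u')
    (l : ℝ) (hl : l = 1 + log m + log h1 + log h2)
    (hsmall : |m * log ((A1 : ℝ) / B1) - log ((A2 : ℝ) / B2)| ≤
      exp (-(3 * 10 ^ 7 * l ^ 2 * h1 * h2))) :
    (m : ℝ) ≤ 4000 * l * h2 := by
  obtain ⟨K, L, R2, U, hK, hL, hR2, hR2le, hcard, hsm, hfin⟩ :=
    parameters m hm h1 h2 l hh1 hh2 hl
  by_contra hcon
  push Not at hcon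
  have hmR : R2 ≤ m := by
    have : (R2 : ℝ) < m := lt_of_le_of_lt hR2le hcon
    exact_mod_cast this.le
  have hα1 : (0 : ℝ) < (A1 : ℝ) / B1 := by positivity
  have hα2 : (0 : ℝ) < (A2 : ℝ) / B2 := by positivity
  obtain ⟨pt, hpt, hdet⟩ := exists_points ((A1 : ℝ) / B1) ((A2 : ℝ) / B2) hα1 hα2 hinj hmR hcard
    hK hL
  have habs : ∀ (A B : ℕ) (h : ℝ), 0 < A → 0 < B → log A ≤ h → log B ≤ h →
      |log ((A : ℝ) / B)| ≤ h := by
    intro A B h hA hB hlA hlB
    have hA' : (0 : ℝ) ≤ log A := log_natCast_nonneg A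
    have hB' : (0 : ℝ) ≤ log B := log_natCast_nonneg B
    rw [log_div (by positivity) (by positivity), abs_le]
    constructor <;> linarith
  have h1up := det_upper (K := K) (L := L) (m := m) (R := R2 + L) (U := U)
    ((A1 : ℝ) / B1) ((A2 : ℝ) / B2) h1 h2 hα1 hα2 (habs A1 B1 h1 hA1 hB1 hlA1 hlB1)
    (habs A2 B2 h2 hA2 hB2 hlA2 hlB2) (by linarith) (by linarith) hK hL (by omega)
    (le_trans (mul_le_mul_of_nonneg_left hsmall (by positivity)) hsm) pt
    (fun i => (hpt i).1.le) (fun i => (hpt i).2.le)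
  have h2lo := det_lower (K := K) (L := L) (m := m) A1 B1 A2 B2 hB1 hB2 h1 h2 ((R2 + L : ℕ) : ℝ)
    (U : ℝ) hlB1 hlB2 (by linarith) (by linarith) pt
    (fun i => by exact_mod_cast (hpt i).1.le) (fun i => by exact_mod_cast (hpt i).2.le) hdet
  have := lt_of_le_of_lt (h2lo.trans h1up) hfin
  exact lt_irrefl _ this
-- END A11

end Pool.Agent.Lib.MP_f02ea4_nt.Sm
end

section

/-! Smoothness of odd perfect numbers, part B: linear forms with one large term (Dirichlet + two logarithms). -/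

set_option autoImplicit false

namespace Pool.Agent.Lib.MP_f02ea4_nt.Sm

open Finset Real

-- BEGIN B1
private lemma b1_aux (x : ℝ) (Q t1 t2 : ℕ) (hQ : 1 ≤ Q) (h12 : t1 < t2)
    (h : ⌊(Q : ℝ) * Int.fract (t1 * x)⌋₊ = ⌊(Q : ℝ) * Int.fract (t2 * x)⌋₊) :
    |((t2 - t1 : ℕ) : ℝ) * x - ((⌊t2 * x⌋ - ⌊t1 * x⌋ : ℤ) : ℝ)| ≤ 1 / Q := by
  have hQ0 : (0 : ℝ) < Q := by exact_mod_cast hQ
  have e1 : ((t2 - t1 : ℕ) : ℝ) = (t2 : ℝ) - t1 := by
    rw [Nat.cast_sub h12.le]
  have e2 : ((t2 - t1 : ℕ) : ℝ) * x - ((⌊t2 * x⌋ - ⌊t1 * x⌋ : ℤ) : ℝ) =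
      Int.fract (t2 * x) - Int.fract (t1 * x) := by
    rw [e1]
    unfold Int.fract
    push_cast
    ring
  rw [e2]
  have n1 : 0 ≤ (Q : ℝ) * Int.fract (t1 * x) := mul_nonneg hQ0.le (Int.fract_nonneg _)
  have n2 : 0 ≤ (Q : ℝ) * Int.fract (t2 * x) := mul_nonneg hQ0.le (Int.fract_nonneg _)
  have a1 := Nat.floor_le n1
  have a2 := Nat.floor_le n2
  have a3 := Nat.lt_floor_add_one ((Q : ℝ) * Int.fract (t1 * x))
  have a4 := Nat.lt_floor_add_one ((Q : ℝ) * Int.fract (t2 * x))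
  rw [h] at a1 a3
  rw [abs_le, le_div_iff₀ hQ0, ← sub_nonneg]
  constructor
  · rw [sub_neg_eq_add]
    have : 0 ≤ ((Int.fract (t2 * x) - Int.fract (t1 * x)) + 1 / Q) * Q := by
      rw [add_mul, one_div, inv_mul_cancel₀ hQ0.ne']
      nlinarith
    exact nonneg_of_mul_nonneg_left this hQ0
  · nlinarith

/-- B1. simultaneous Dirichlet approximation.  Pigeonhole: the `Q ^ s.card + 1` integers `t = 0, …, Q ^ s.card` are
mapped to the `Q ^ s.card` functions `s → Fin Q`, `i ↦ ⌊Q * fract (t * x i)⌋` (on `s.card = 0` take `t = 1`);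
two values `t1 < t2` with the same image: `t = t2 - t1`, `b i = ⌊t2 x i⌋ - ⌊t1 x i⌋`. -/
theorem dirichlet (s : Finset ℕ) (x : ℕ → ℝ) (Q : ℕ) (hQ : 1 ≤ Q) :
    ∃ t : ℕ, 1 ≤ t ∧ t ≤ Q ^ s.card ∧ ∃ b : ℕ → ℤ, ∀ i ∈ s, |t * x i - b i| ≤ 1 / Q := by
  have hQ0 : (0 : ℝ) < Q := by exact_mod_cast hQ
  have hcard : (s.pi (fun _ => range Q)).card < (range (Q ^ s.card + 1)).card := by
    rw [Finset.card_pi, card_range]
    simp
  have hmaps : ∀ t ∈ range (Q ^ s.card + 1),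
      (fun i (_ : i ∈ s) => ⌊(Q : ℝ) * Int.fract (t * x i)⌋₊) ∈ s.pi (fun _ => range Q) := by
    intro t _
    rw [Finset.mem_pi]
    intro i _
    rw [mem_range, Nat.floor_lt (mul_nonneg hQ0.le (Int.fract_nonneg _))]
    have := Int.fract_lt_one ((t : ℝ) * x i)
    nlinarith
  obtain ⟨t1, ht1, t2, ht2, hne, heq⟩ :=
    Finset.exists_ne_map_eq_of_card_lt_of_maps_to hcard hmaps
  rw [mem_range] at ht1 ht2
  have key : ∀ i ∈ s, ⌊(Q : ℝ) * Int.fract (t1 * x i)⌋₊ = ⌊(Q : ℝ) * Int.fract (t2 * x i)⌋₊ := by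
    intro i hi
    exact congrFun (congrFun heq i) hi
  rcases lt_or_gt_of_ne hne with hlt | hgt
  · refine ⟨t2 - t1, by omega, by omega, fun i => ⌊t2 * x i⌋ - ⌊t1 * x i⌋, ?_⟩
    intro i hi
    exact b1_aux (x i) Q t1 t2 hQ hlt (key i hi)
  · refine ⟨t1 - t2, by omega, by omega, fun i => ⌊t1 * x i⌋ - ⌊t2 * x i⌋, ?_⟩
    intro i hi
    exact b1_aux (x i) Q t2 t1 hQ hgt (key i hi).symm
-- END B1

-- BEGIN B2
/-- B2. multiplicative independence.  Cross-multiplying gives in `ℕ`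
`A1^r A2^u B1^r' B2^u' = A1^r' A2^u' B1^r B2^u`; compare the factorization at `w`: `u v = u' v` with
`v = A2.factorization w > 0`, so `u = u'`; cancel; then `(A1/B1)^r = (A1/B1)^r'` with `A1/B1 ≠ 1`, positive. -/
lemma indep (A1 B1 A2 B2 w : ℕ) (hA1 : 0 < A1) (hB1 : 0 < B1) (hA2 : 0 < A2) (hB2 : 0 < B2)
    (hw : w.Prime) (h1 : ¬ w ∣ A1) (h2 : ¬ w ∣ B1) (h3 : ¬ w ∣ B2) (h4 : w ∣ A2) (hne : A1 ≠ B1)
    (r u r' u' : ℕ) (h : ((A1 : ℝ) / B1) ^ r * ((A2 : ℝ) / B2) ^ u =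
      ((A1 : ℝ) / B1) ^ r' * ((A2 : ℝ) / B2) ^ u') : r = r' ∧ u = u' := by
  have hA1' : (0 : ℝ) < A1 := by exact_mod_cast hA1
  have hB1' : (0 : ℝ) < B1 := by exact_mod_cast hB1
  have hA2' : (0 : ℝ) < A2 := by exact_mod_cast hA2
  have hB2' : (0 : ℝ) < B2 := by exact_mod_cast hB2
  have hR : (A1 : ℝ) ^ r * A2 ^ u * (B1 ^ r' * B2 ^ u') = A1 ^ r' * A2 ^ u' * (B1 ^ r * B2 ^ u) := by
    rw [div_pow, div_pow, div_pow, div_pow, div_mul_div_comm, div_mul_div_comm,
      div_eq_div_iff (by positivity) (by positivity)] at h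
    exact h
  have hN : A1 ^ r * A2 ^ u * (B1 ^ r' * B2 ^ u') = A1 ^ r' * A2 ^ u' * (B1 ^ r * B2 ^ u) := by
    exact_mod_cast hR
  have f1 : A1.factorization w = 0 := Nat.factorization_eq_zero_of_not_dvd h1
  have f2 : B1.factorization w = 0 := Nat.factorization_eq_zero_of_not_dvd h2
  have f3 : B2.factorization w = 0 := Nat.factorization_eq_zero_of_not_dvd h3
  have f4 : 0 < A2.factorization w := hw.factorization_pos_of_dvd hA2.ne' h4
  have hF := congrArg (fun n : ℕ => n.factorization w) hN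
  have hfac : ∀ (a b c d : ℕ), (A1 ^ a * A2 ^ b * (B1 ^ c * B2 ^ d)).factorization w =
      b * A2.factorization w := by
    intro a b c d
    rw [Nat.factorization_mul (by positivity) (by positivity),
      Nat.factorization_mul (by positivity) (by positivity),
      Nat.factorization_mul (by positivity) (by positivity)]
    simp only [Nat.factorization_pow, Finsupp.coe_add, Finsupp.coe_smul, Pi.add_apply,
      Pi.smul_apply, smul_eq_mul, f1, f2, f3, mul_zero, add_zero, zero_add]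
  simp only [hfac] at hF
  have hu : u = u' := Nat.eq_of_mul_eq_mul_right f4 hF
  subst hu
  refine ⟨?_, rfl⟩
  have h5 : ((A1 : ℝ) / B1) ^ r = ((A1 : ℝ) / B1) ^ r' :=
    mul_right_cancel₀ (by positivity) h
  refine pow_right_injective₀ (by positivity) ?_ h5
  intro h6
  rw [div_eq_one_iff_eq hB1'.ne'] at h6
  exact hne (by exact_mod_cast h6)
-- END B2

-- BEGIN B3
lemma b3_abs (A B : ℕ) : ((A - B : ℕ) : ℝ) ≤ |(A : ℝ) - B| := by
  rcases le_total B A with h | h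
  · rw [Nat.cast_sub h]
    exact le_abs_self _
  · rw [Nat.sub_eq_zero_of_le h, Nat.cast_zero]
    exact abs_nonneg _

/-- B3. size of the data: `a' P ≤ t (a P)/n + 1/Q`, `∑ (a P) log P ≤ n log q` (because `∏ P^(a P) ≤ q^n`), so
`log B1 = ∑ a' P log P ≤ t log q + g lam / Q ≤ (t+g) lam`; with `m = n / t`, `n'' = n - m t < t` the integer
`a P - m a' P = (n''/n) a P - m θ/Q`, `|θ| ≤ 1`, so `∑ |a P - m a' P| log P ≤ t lam + g lam m / Q`.
(Truncated subtraction: `(a P - m * a' P : ℕ)` and `(m * a' P - a P : ℕ)` are both at most `|a P - m a' P|`.) -/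
lemma data_size (q W n t g : ℕ) (s : Finset ℕ) (a a' : ℕ → ℕ) (lam Q : ℝ)
    (hs : s.card ≤ g) (hsp : ∀ P ∈ s, P.Prime)
    (hq : 2 ≤ q) (hW : 1 ≤ W) (hn : 1 ≤ n)
    (heq : q ^ n = 1 + W * ∏ P ∈ s, P ^ (a P)) (hlam : 1 ≤ lam) (hlq : log q ≤ lam)
    (hls : ∀ P ∈ s, log P ≤ lam) (ht : 1 ≤ t) (htn : t ≤ n) (hQ : 1 ≤ Q)
    (ha : ∀ P ∈ s, |t * ((a P : ℝ) / n) - a' P| ≤ 1 / Q) :
    ∑ P ∈ s, (a' P : ℝ) * log P ≤ (t + g) * lam ∧
    ∑ P ∈ s, ((a P - (n / t) * a' P : ℕ) : ℝ) * log P ≤ t * lam + g * lam * (n / t : ℕ) / Q ∧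
    ∑ P ∈ s, (((n / t) * a' P - a P : ℕ) : ℝ) * log P ≤ t * lam + g * lam * (n / t : ℕ) / Q := by
  have hlP : ∀ P ∈ s, 0 ≤ log (P : ℝ) := fun P _ => log_natCast_nonneg P
  have hn0 : (0 : ℝ) < n := by exact_mod_cast hn
  have ht0 : (0 : ℝ) < t := by exact_mod_cast ht
  have hQ0 : 0 < Q := by linarith
  have hprod : ∏ P ∈ s, P ^ (a P) ≤ q ^ n := by
    rw [heq]
    calc ∏ P ∈ s, P ^ (a P) = 1 * ∏ P ∈ s, P ^ (a P) := (one_mul _).symm
      _ ≤ W * ∏ P ∈ s, P ^ (a P) := Nat.mul_le_mul_right _ hW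
      _ ≤ _ := Nat.le_add_left _ _
  have hPpos : 0 < ∏ P ∈ s, P ^ (a P) := Finset.prod_pos fun P hP => pow_pos (hsp P hP).pos _
  have hlogprod : ∑ P ∈ s, (a P : ℝ) * log P ≤ n * log q := by
    have h1 : log ((∏ P ∈ s, P ^ (a P) : ℕ) : ℝ) ≤ log ((q ^ n : ℕ) : ℝ) :=
      log_le_log (by exact_mod_cast hPpos) (by exact_mod_cast hprod)
    rw [Nat.cast_prod, log_prod (fun P hP => by
      have := (hsp P hP).pos
      positivity), Nat.cast_pow, log_pow] at h1
    simpa only [Nat.cast_pow, log_pow] using h1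
  have hlogs : ∑ P ∈ s, log (P : ℝ) ≤ g * lam := by
    calc ∑ P ∈ s, log (P : ℝ) ≤ ∑ P ∈ s, lam := Finset.sum_le_sum hls
      _ = s.card * lam := by rw [Finset.sum_const, nsmul_eq_mul]
      _ ≤ g * lam := mul_le_mul_of_nonneg_right (by exact_mod_cast hs) (by linarith)
  have htl : (t : ℝ) / n * ∑ P ∈ s, (a P : ℝ) * log P ≤ t * lam := by
    calc (t : ℝ) / n * ∑ P ∈ s, (a P : ℝ) * log P ≤ t / n * (n * log q) :=
          mul_le_mul_of_nonneg_left hlogprod (by positivity)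
      _ = t * log q := by field_simp
      _ ≤ t * lam := mul_le_mul_of_nonneg_left hlq ht0.le
  have hmain : ∑ P ∈ s, |(a P : ℝ) - ((n / t : ℕ) : ℝ) * a' P| * log P ≤
      t * lam + g * lam * (n / t : ℕ) / Q := by
    have hm0 : (0 : ℝ) ≤ ((n / t : ℕ) : ℝ) := Nat.cast_nonneg _
    have hdm : ((n / t : ℕ) : ℝ) * t ≤ n := by exact_mod_cast Nat.div_mul_le_self n t
    have hdm2 : (n : ℝ) - ((n / t : ℕ) : ℝ) * t ≤ t := by
      have h1 : n < (n / t) * t + t := by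
        have h2 := Nat.lt_div_mul_add (a := n) (b := t) (by omega)
        exact h2
      have h2 : (n : ℝ) < ((n / t : ℕ) : ℝ) * t + t := by exact_mod_cast h1
      linarith
    have hterm : ∀ P ∈ s, |(a P : ℝ) - ((n / t : ℕ) : ℝ) * a' P| * log P ≤
        (t : ℝ) / n * (a P * log P) + ((n / t : ℕ) : ℝ) / Q * log P := by
      intro P hP
      have h1 := ha P hP
      have h2 : (a P : ℝ) - ((n / t : ℕ) : ℝ) * a' P =
          (a P / n) * (n - ((n / t : ℕ) : ℝ) * t) +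
            ((n / t : ℕ) : ℝ) * (t * ((a P : ℝ) / n) - a' P) := by
        field_simp
        ring
      have h3 : |(a P : ℝ) - ((n / t : ℕ) : ℝ) * a' P| ≤
          (a P / n) * t + ((n / t : ℕ) : ℝ) * (1 / Q) := by
        rw [h2]
        refine (abs_add_le _ _).trans (add_le_add ?_ ?_)
        · rw [abs_of_nonneg (mul_nonneg (by positivity) (by linarith))]
          exact mul_le_mul_of_nonneg_left hdm2 (by positivity)
        · rw [abs_mul, abs_of_nonneg hm0]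
          exact mul_le_mul_of_nonneg_left h1 hm0
      calc |(a P : ℝ) - ((n / t : ℕ) : ℝ) * a' P| * log P ≤
            ((a P / n) * t + ((n / t : ℕ) : ℝ) * (1 / Q)) * log P :=
          mul_le_mul_of_nonneg_right h3 (hlP P hP)
        _ = _ := by ring
    calc ∑ P ∈ s, |(a P : ℝ) - ((n / t : ℕ) : ℝ) * a' P| * log P ≤
          ∑ P ∈ s, ((t : ℝ) / n * (a P * log P) + ((n / t : ℕ) : ℝ) / Q * log P) :=
        Finset.sum_le_sum hterm
      _ = (t : ℝ) / n * ∑ P ∈ s, (a P : ℝ) * log P + ((n / t : ℕ) : ℝ) / Q * ∑ P ∈ s, log (P : ℝ) := by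
        rw [Finset.sum_add_distrib, ← Finset.mul_sum, ← Finset.mul_sum]
      _ ≤ t * lam + ((n / t : ℕ) : ℝ) / Q * (g * lam) :=
        add_le_add htl (mul_le_mul_of_nonneg_left hlogs (by positivity))
      _ = _ := by ring
  refine ⟨?_, ?_, ?_⟩
  · have hterm : ∀ P ∈ s, (a' P : ℝ) * log P ≤ (t : ℝ) / n * (a P * log P) + log P := by
      intro P hP
      have h1 := (abs_le.1 (ha P hP)).1
      have h2 : (1 : ℝ) / Q ≤ 1 := by
        rw [div_le_one hQ0]
        exact hQ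
      have h3 : (a' P : ℝ) ≤ t * ((a P : ℝ) / n) + 1 := by linarith
      calc (a' P : ℝ) * log P ≤ (t * ((a P : ℝ) / n) + 1) * log P :=
            mul_le_mul_of_nonneg_right h3 (hlP P hP)
        _ = _ := by ring
    calc ∑ P ∈ s, (a' P : ℝ) * log P ≤ ∑ P ∈ s, ((t : ℝ) / n * (a P * log P) + log P) :=
          Finset.sum_le_sum hterm
      _ = (t : ℝ) / n * ∑ P ∈ s, (a P : ℝ) * log P + ∑ P ∈ s, log (P : ℝ) := by
        rw [Finset.sum_add_distrib, ← Finset.mul_sum]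
      _ ≤ t * lam + g * lam := add_le_add htl hlogs
      _ = _ := by ring
  · refine le_trans (Finset.sum_le_sum fun P hP => ?_) hmain
    refine mul_le_mul_of_nonneg_right ?_ (hlP P hP)
    refine (b3_abs _ _).trans (le_of_eq ?_)
    push_cast
    rfl
  · refine le_trans (Finset.sum_le_sum fun P hP => ?_) hmain
    refine mul_le_mul_of_nonneg_right ?_ (hlP P hP)
    rw [abs_sub_comm]
    refine (b3_abs _ _).trans (le_of_eq ?_)
    push_cast
    rfl
-- END B3

-- BEGIN B4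
lemma b4_log_prod (s : Finset ℕ) (e : ℕ → ℕ) (hsp : ∀ P ∈ s, P.Prime) :
    log ((∏ P ∈ s, P ^ (e P) : ℕ) : ℝ) = ∑ P ∈ s, (e P : ℝ) * log P := by
  rw [Nat.cast_prod, log_prod (fun P hP => by
      have := (hsp P hP).pos
      positivity)]
  simp only [Nat.cast_pow, log_pow]

lemma b4_not_dvd (s : Finset ℕ) (e : ℕ → ℕ) (hsp : ∀ P ∈ s, P.Prime) (w : ℕ) (hw : w.Prime)
    (hws : w ∉ s) : ¬ w ∣ ∏ P ∈ s, P ^ (e P) := by
  intro h
  obtain ⟨P, hP, hd⟩ := (hw.prime.dvd_finsetProd_iff _).1 h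
  have h1 := hw.dvd_of_dvd_pow hd
  have h2 := (Nat.prime_dvd_prime_iff_eq hw (hsp P hP)).1 h1
  exact hws (h2 ▸ hP)

/-- B4. the data `A1 = q^t`, `B1 = ∏ P^(a' P)`, `A2 = W ∏ P^(a P - m a' P)`, `B2 = q^(n - m t) ∏ P^(m a' P - a P)`
(truncated subtractions in `ℕ`), `m = n / t`.  Sizes by B3.
`m log (A1/B1) - log (A2/B2) = n log q - log W - ∑ a P log P = log (q^n / (q^n - 1))`, which is positive and at most
`1/(q^n - 1) ≤ 2 / q^n ≤ 2 / 2^n`.  Independence: B2 with `w` = a prime factor of `W` (`W ≥ 2`), `w ∤ q`, `w ∉ s`,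
and `q^t ≠ ∏ P^(a' P)` because a prime factor of `q` does not divide the right side (primes of `s` do not divide
`q`). -/
lemma baker_data (q W n t g : ℕ) (s : Finset ℕ) (a a' : ℕ → ℕ) (lam Q : ℝ)
    (hs : s.card ≤ g) (hsp : ∀ P ∈ s, P.Prime) (hsq : ∀ P ∈ s, ¬ P ∣ q) (hsW : ∀ P ∈ s, ¬ P ∣ W)
    (hq : 2 ≤ q) (hW : 2 ≤ W) (hn : 1 ≤ n) (hqW : Nat.Coprime q W)
    (heq : q ^ n = 1 + W * ∏ P ∈ s, P ^ (a P)) (hlam : 1 ≤ lam) (hlq : log q ≤ lam)
    (hls : ∀ P ∈ s, log P ≤ lam) (ht : 1 ≤ t) (htn : t ≤ n) (hQ : 1 ≤ Q)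
    (ha : ∀ P ∈ s, |t * ((a P : ℝ) / n) - a' P| ≤ 1 / Q) :
    ∃ A1 B1 A2 B2 : ℕ, 0 < A1 ∧ 0 < B1 ∧ 0 < A2 ∧ 0 < B2 ∧
      log A1 ≤ (t + g) * lam ∧ log B1 ≤ (t + g) * lam ∧
      log A2 ≤ 1 + log W + 2 * t * lam + g * lam * (n / t : ℕ) / Q ∧
      log B2 ≤ 1 + log W + 2 * t * lam + g * lam * (n / t : ℕ) / Q ∧
      |(n / t : ℕ) * log ((A1 : ℝ) / B1) - log ((A2 : ℝ) / B2)| ≤ 2 * exp (-(n * log 2)) ∧
      ∀ r u r' u' : ℕ, ((A1 : ℝ) / B1) ^ r * ((A2 : ℝ) / B2) ^ u =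
        ((A1 : ℝ) / B1) ^ r' * ((A2 : ℝ) / B2) ^ u' → r = r' ∧ u = u' := by
  obtain ⟨d1, d2, d3⟩ := data_size q W n t g s a a' lam Q hs hsp hq (by omega) hn heq hlam hlq hls
    ht htn hQ ha
  have hpos : ∀ e : ℕ → ℕ, 0 < ∏ P ∈ s, P ^ (e P) := fun e =>
    Finset.prod_pos fun P hP => pow_pos (hsp P hP).pos _
  have hq0 : (0 : ℝ) < q := by
    have : 0 < q := by omega
    exact_mod_cast this
  have hW0 : (0 : ℝ) < W := by
    have : 0 < W := by omega
    exact_mod_cast this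
  have ht0 : (0 : ℝ) < t := by exact_mod_cast ht
  have hlq0 : 0 ≤ log (q : ℝ) := log_natCast_nonneg q
  have hlW0 : 0 ≤ log (W : ℝ) := log_natCast_nonneg W
  have hposR : ∀ e : ℕ → ℕ, (0 : ℝ) < ((∏ P ∈ s, P ^ (e P) : ℕ) : ℝ) := fun e => by
    exact_mod_cast hpos e
  have hQ0 : 0 < Q := by linarith
  have hmt : (n / t) * t ≤ n := Nat.div_mul_le_self n t
  have hmt2 : n < (n / t) * t + t := Nat.lt_div_mul_add (a := n) (b := t) (by omega)
  have hg0 : (0 : ℝ) ≤ g * lam := by positivity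
  have hgm : (0 : ℝ) ≤ g * lam * (n / t : ℕ) / Q := by positivity
  have htlam : (0 : ℝ) ≤ t * lam := by positivity
  have lA1 : log ((q ^ t : ℕ) : ℝ) = t * log q := by rw [Nat.cast_pow, log_pow]
  have lB1 : log ((∏ P ∈ s, P ^ (a' P) : ℕ) : ℝ) = ∑ P ∈ s, (a' P : ℝ) * log P :=
    b4_log_prod s a' hsp
  have lA2 : log ((W * ∏ P ∈ s, P ^ (a P - (n / t) * a' P) : ℕ) : ℝ) =
      log W + ∑ P ∈ s, ((a P - (n / t) * a' P : ℕ) : ℝ) * log P := by
    rw [Nat.cast_mul, log_mul hW0.ne' (hposR _).ne', b4_log_prod s _ hsp]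
  have lB2 : log ((q ^ (n - (n / t) * t) * ∏ P ∈ s, P ^ ((n / t) * a' P - a P) : ℕ) : ℝ) =
      ((n - (n / t) * t : ℕ) : ℝ) * log q +
        ∑ P ∈ s, (((n / t) * a' P - a P : ℕ) : ℝ) * log P := by
    rw [Nat.cast_mul, log_mul (by positivity) (hposR _).ne', b4_log_prod s _ hsp, Nat.cast_pow,
      log_pow]
  have hrem : ((n - (n / t) * t : ℕ) : ℝ) = (n : ℝ) - ((n / t : ℕ) : ℝ) * t := by
    rw [Nat.cast_sub hmt, Nat.cast_mul]
  have hremt : ((n - (n / t) * t : ℕ) : ℝ) ≤ t := by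
    have : n - (n / t) * t ≤ t := by omega
    exact_mod_cast this
  refine ⟨q ^ t, ∏ P ∈ s, P ^ (a' P), W * ∏ P ∈ s, P ^ (a P - (n / t) * a' P),
    q ^ (n - (n / t) * t) * ∏ P ∈ s, P ^ ((n / t) * a' P - a P), by positivity, hpos _,
    Nat.mul_pos (by omega) (hpos _), Nat.mul_pos (by positivity) (hpos _), ?_, ?_, ?_, ?_, ?_, ?_⟩
  · rw [lA1]
    nlinarith [mul_le_mul_of_nonneg_left hlq ht0.le]
  · rw [lB1]
    exact d1
  · rw [lA2]
    linarith
  · rw [lB2]
    have h1 : ((n - (n / t) * t : ℕ) : ℝ) * log q ≤ t * lam :=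
      mul_le_mul hremt hlq hlq0 ht0.le
    linarith
  · rw [log_div (by positivity) (hposR _).ne', log_div
      (by rw [Nat.cast_mul]; exact (mul_pos hW0 (hposR _)).ne')
      (by rw [Nat.cast_mul]; exact (mul_pos (by positivity) (hposR _)).ne'), lA1, lB1, lA2, lB2,
      hrem]
    have hsum : ∑ P ∈ s, ((a P - (n / t) * a' P : ℕ) : ℝ) * log P -
        ∑ P ∈ s, (((n / t) * a' P - a P : ℕ) : ℝ) * log P =
        ∑ P ∈ s, (a P : ℝ) * log P - (n / t : ℕ) * ∑ P ∈ s, (a' P : ℝ) * log P := by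
      rw [Finset.mul_sum, ← Finset.sum_sub_distrib, ← Finset.sum_sub_distrib]
      refine Finset.sum_congr rfl fun P _ => ?_
      rcases le_total (a P) ((n / t) * a' P) with h | h
      · rw [Nat.sub_eq_zero_of_le h, Nat.cast_sub h]
        push_cast
        ring
      · rw [Nat.sub_eq_zero_of_le h, Nat.cast_sub h]
        push_cast
        ring
    have hform : ((n / t : ℕ) : ℝ) * (t * log q - ∑ P ∈ s, (a' P : ℝ) * log P) -
        (log W + ∑ P ∈ s, ((a P - (n / t) * a' P : ℕ) : ℝ) * log P -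
          (((n : ℝ) - ((n / t : ℕ) : ℝ) * t) * log q +
            ∑ P ∈ s, (((n / t) * a' P - a P : ℕ) : ℝ) * log P)) =
        n * log q - (log W + ∑ P ∈ s, (a P : ℝ) * log P) := by
      linear_combination -hsum
    rw [hform]
    have hE : ((q : ℝ)) ^ n = 1 + W * ((∏ P ∈ s, P ^ (a P) : ℕ) : ℝ) := by exact_mod_cast heq
    have hlogE : log W + ∑ P ∈ s, (a P : ℝ) * log P = log ((q : ℝ) ^ n - 1) := by
      rw [hE, add_sub_cancel_left, log_mul hW0.ne' (hposR _).ne', b4_log_prod s a hsp]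
    have h2n : (2 : ℝ) ^ n ≤ (q : ℝ) ^ n :=
      pow_le_pow_left₀ (by norm_num) (by exact_mod_cast hq) n
    have h22 : (2 : ℝ) ≤ 2 ^ n := by
      calc (2 : ℝ) = 2 ^ 1 := (pow_one 2).symm
        _ ≤ 2 ^ n := pow_le_pow_right₀ (by norm_num) hn
    have hqn : (2 : ℝ) ≤ (q : ℝ) ^ n := h22.trans h2n
    have hqn1 : (0 : ℝ) < (q : ℝ) ^ n - 1 := by linarith
    rw [hlogE, ← log_pow, ← log_div (by positivity) hqn1.ne']
    have hge1 : 1 ≤ (q : ℝ) ^ n / ((q : ℝ) ^ n - 1) := by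
      rw [le_div_iff₀ hqn1]
      linarith
    rw [abs_of_nonneg (log_nonneg hge1)]
    have h3 := log_le_sub_one_of_pos (lt_of_lt_of_le one_pos hge1)
    have h4 : (q : ℝ) ^ n / ((q : ℝ) ^ n - 1) - 1 ≤ 2 / (q : ℝ) ^ n := by
      rw [div_sub_one hqn1.ne', div_le_div_iff₀ hqn1 (by positivity)]
      nlinarith
    have h5 : 2 / (q : ℝ) ^ n ≤ 2 / 2 ^ n :=
      div_le_div_of_nonneg_left (by norm_num) (by positivity) h2n
    have h6 : exp (-(n * log 2)) = 1 / 2 ^ n := by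
      rw [Real.exp_neg, ← log_pow, exp_log (by positivity), one_div]
    rw [h6]
    calc _ ≤ _ := h3
      _ ≤ _ := h4
      _ ≤ _ := h5
      _ = _ := by ring
  · obtain ⟨w, hw, hwW⟩ := Nat.exists_prime_and_dvd (show W ≠ 1 by omega)
    have hwq : ¬ w ∣ q := fun h => hw.one_lt.ne' (Nat.dvd_one.1 (hqW ▸ Nat.dvd_gcd h hwW))
    have hws : w ∉ s := fun h => hsW w h hwW
    intro r u r' u' h
    refine indep (q ^ t) (∏ P ∈ s, P ^ (a' P)) (W * ∏ P ∈ s, P ^ (a P - (n / t) * a' P))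
      (q ^ (n - (n / t) * t) * ∏ P ∈ s, P ^ ((n / t) * a' P - a P)) w (by positivity) (hpos _)
      (Nat.mul_pos (by omega) (hpos _)) (Nat.mul_pos (by positivity) (hpos _)) hw
      (fun h => hwq (hw.dvd_of_dvd_pow h)) (b4_not_dvd s _ hsp w hw hws) ?_
      (Dvd.dvd.mul_right hwW _) ?_ r u r' u' h
    · intro h
      rcases hw.dvd_mul.1 h with h1 | h1
      · exact hwq (hw.dvd_of_dvd_pow h1)
      · exact b4_not_dvd s _ hsp w hw hws h1
    · intro h
      obtain ⟨p, hp, hpq⟩ := Nat.exists_prime_and_dvd (show q ≠ 1 by omega)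
      have h1 : p ∣ q ^ t := hpq.trans (dvd_pow_self q (by omega))
      rw [h] at h1
      exact b4_not_dvd s _ hsp p hp (fun hps => hsq p hps hpq) h1
-- END B4

-- BEGIN B5
/-- B5. real inequality.  In case 1 the term `4000 l g lam m / Q ≤ m/2`, so `m ≤ 8000 l (h + 2 t lam)`,
`h + 2 t lam ≤ 3 t lam h`, `n ≤ 2 t m`.  In case 2: `(t+g) m ≤ (1+g) t m ≤ (1+g) n`, so the term with `m/Q` is at most
`n/2`, and `n ≤ 12 * 10^7 l^2 (t+g) lam (h + 2 t lam) ≤ 36 * 10^7 (1+g) l^2 lam^2 t^2 h`. -/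
lemma baker_ineq (g n t m h lam l lb Q : ℝ) (hg : 0 ≤ g) (ht : 1 ≤ t) (hm : 1 ≤ m)
    (htm : t * m ≤ n) (hn2 : n ≤ 2 * t * m) (hh : 1 ≤ h) (hlam : 1 ≤ lam) (hl : 1 ≤ l)
    (hlb : l ≤ lb) (hQ : 24 * 10 ^ 7 * lb ^ 2 * lam ^ 2 * (g + 1) ^ 2 ≤ Q)
    (hcase : m ≤ 4000 * l * (h + 2 * t * lam + g * lam * m / Q) ∨
      n ≤ 6 * 10 ^ 7 * l ^ 2 * ((t + g) * lam) * (h + 2 * t * lam + g * lam * m / Q)) :
    n ≤ 10 ^ 9 * (g + 1) * lb ^ 2 * lam ^ 2 * t ^ 2 * h := by
  have hl0 : 0 < l := by linarith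
  have hlb0 : 0 < lb := by linarith
  have hlam0 : 0 < lam := by linarith
  have ht0 : 0 < t := by linarith
  have hm0 : 0 < m := by linarith
  have hh0 : 0 < h := by linarith
  have hn0 : 0 < n := lt_of_lt_of_le (mul_pos ht0 hm0) htm
  have hll : l ^ 2 ≤ lb ^ 2 := by
    exact pow_le_pow_left₀ hl0.le hlb 2
  have hl1 : l ≤ l ^ 2 := by nlinarith
  have hlam1 : lam ≤ lam ^ 2 := by nlinarith
  have hg1 : 1 ≤ g + 1 := by linarith
  have hQpos : 0 < Q := by
    have : 0 < 24 * 10 ^ 7 * lb ^ 2 * lam ^ 2 * (g + 1) ^ 2 := by positivity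
    linarith
  have h3 : h + 2 * t * lam ≤ 3 * (t * lam * h) := by
    have e1 : 1 ≤ t * lam := one_le_mul_of_one_le_of_one_le ht hlam
    have e2 : h ≤ t * lam * h := le_mul_of_one_le_left hh0.le e1
    have e3 : t * lam ≤ t * lam * h := le_mul_of_one_le_right (by positivity) hh
    nlinarith
  rcases hcase with h1 | h1
  · -- case 1
    have hs : 4000 * l * (g * lam * m / Q) ≤ m / 2 := by
      have : 8000 * l * g * lam ≤ Q := by
        calc 8000 * l * g * lam ≤ 24 * 10 ^ 7 * lb ^ 2 * lam ^ 2 * (g + 1) ^ 2 := by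
              have a1 : l * (g * lam) ≤ lb ^ 2 * ((g + 1) ^ 2 * lam ^ 2) := by
                apply mul_le_mul (hl1.trans hll) _ (by positivity) (by positivity)
                apply mul_le_mul _ hlam1 hlam0.le (by positivity)
                nlinarith
              have a2 : 0 ≤ lb ^ 2 * ((g + 1) ^ 2 * lam ^ 2) := by positivity
              nlinarith
          _ ≤ Q := hQ
      rw [← mul_div_assoc, div_le_iff₀ hQpos]
      have : 8000 * l * g * lam * m ≤ Q * m := mul_le_mul_of_nonneg_right this hm0.le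
      nlinarith
    have h2 : m ≤ 8000 * l * (3 * (t * lam * h)) := by
      have e1 : m / 2 ≤ 4000 * l * (h + 2 * t * lam) := by
        have := h1
        rw [mul_add] at this
        linarith
      have e2 : 4000 * l * (h + 2 * t * lam) ≤ 4000 * l * (3 * (t * lam * h)) :=
        mul_le_mul_of_nonneg_left h3 (by positivity)
      linarith
    calc n ≤ 2 * t * m := hn2
      _ ≤ 2 * t * (8000 * l * (3 * (t * lam * h))) := mul_le_mul_of_nonneg_left h2 (by positivity)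
      _ = 48000 * (t ^ 2 * h) * (l * lam) := by ring
      _ ≤ 48000 * (t ^ 2 * h) * (lb ^ 2 * lam ^ 2) := by
          apply mul_le_mul_of_nonneg_left _ (by positivity)
          exact mul_le_mul (hl1.trans hll) hlam1 hlam0.le (by positivity)
      _ ≤ 10 ^ 9 * (g + 1) * lb ^ 2 * lam ^ 2 * t ^ 2 * h := by
          have a2 : 0 ≤ (t ^ 2 * h) * (lb ^ 2 * lam ^ 2) := by positivity
          have a3 : 0 ≤ g * ((t ^ 2 * h) * (lb ^ 2 * lam ^ 2)) := mul_nonneg hg a2
          nlinarith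
  · -- case 2
    have htg : (t + g) ≤ (1 + g) * t := by nlinarith
    have htg0 : 0 < t + g := by linarith
    have hs : 6 * 10 ^ 7 * l ^ 2 * ((t + g) * lam) * (g * lam * m / Q) ≤ n / 4 := by
      have b1 : (t + g) * m ≤ (1 + g) * n := by
        calc (t + g) * m ≤ ((1 + g) * t) * m := mul_le_mul_of_nonneg_right htg hm0.le
          _ = (1 + g) * (t * m) := by ring
          _ ≤ (1 + g) * n := mul_le_mul_of_nonneg_left htm (by linarith)
      rw [← mul_div_assoc, div_le_iff₀ hQpos]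
      calc 6 * 10 ^ 7 * l ^ 2 * ((t + g) * lam) * (g * lam * m)
          = 6 * 10 ^ 7 * (l ^ 2 * lam ^ 2 * g) * ((t + g) * m) := by ring
        _ ≤ 6 * 10 ^ 7 * (lb ^ 2 * lam ^ 2 * (g + 1)) * ((1 + g) * n) := by
            apply mul_le_mul _ b1 (by positivity) (by positivity)
            apply mul_le_mul_of_nonneg_left _ (by positivity)
            apply mul_le_mul _ (by linarith) hg (by positivity)
            exact mul_le_mul_of_nonneg_right hll (by positivity)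
        _ = n / 4 * (24 * 10 ^ 7 * lb ^ 2 * lam ^ 2 * (g + 1) ^ 2) := by ring
        _ ≤ n / 4 * Q := mul_le_mul_of_nonneg_left hQ (by positivity)
    have h2 : n * (3 / 4) ≤ 6 * 10 ^ 7 * l ^ 2 * ((t + g) * lam) * (h + 2 * t * lam) := by
      have := h1
      rw [mul_add] at this
      linarith
    have h4 : 6 * 10 ^ 7 * l ^ 2 * ((t + g) * lam) * (h + 2 * t * lam) ≤
        6 * 10 ^ 7 * lb ^ 2 * (((1 + g) * t) * lam) * (3 * (t * lam * h)) := by
      apply mul_le_mul _ h3 (by positivity) (by positivity)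
      apply mul_le_mul _ (mul_le_mul_of_nonneg_right htg hlam0.le) (by positivity) (by positivity)
      exact mul_le_mul_of_nonneg_left hll (by positivity)
    have h5 : 6 * 10 ^ 7 * lb ^ 2 * (((1 + g) * t) * lam) * (3 * (t * lam * h)) =
        18 * 10 ^ 7 * ((g + 1) * lb ^ 2 * lam ^ 2 * t ^ 2 * h) := by ring
    have h6 : 0 ≤ (g + 1) * lb ^ 2 * lam ^ 2 * t ^ 2 * h := by positivity
    nlinarith
-- END B5

-- BEGIN B6
/-- B6. bound for `l`: `h1 = (t+g) lam ≤ (1+g) n lam`, `h2 ≤ (3+g) n lam`, `log (1+g) ≤ g`, `log (3+g) ≤ 2+g`,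
`log lam ≤ lam - 1`. -/
lemma l_bound (g n t m h lam Q : ℝ) (hg : 0 ≤ g) (ht : 1 ≤ t) (hm : 1 ≤ m) (hmn : m ≤ n)
    (htn : t ≤ n) (hh : 1 ≤ h) (hhn : h ≤ n) (hlam : 1 ≤ lam) (hQ : 1 ≤ Q) :
    1 + log m + log ((t + g) * lam) + log (h + 2 * t * lam + g * lam * m / Q) ≤
      (5 + 2 * g) * (1 + log n) * lam := by
  have hn1 : 1 ≤ n := hm.trans hmn
  have hn0 : 0 < n := by linarith
  have hlam0 : 0 < lam := by linarith
  have hm0 : 0 < m := by linarith
  have hL0 : 0 ≤ log n := log_nonneg hn1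
  have e1 : log m ≤ log n := log_le_log hm0 hmn
  have e2 : log ((t + g) * lam) ≤ g + log n + (lam - 1) := by
    have a1 : (t + g) * lam ≤ (1 + g) * n * lam := by
      apply mul_le_mul_of_nonneg_right _ hlam0.le
      nlinarith
    calc log ((t + g) * lam) ≤ log ((1 + g) * n * lam) :=
          log_le_log (by positivity) a1
      _ = log (1 + g) + log n + log lam := by
          rw [log_mul (by positivity) (by positivity), log_mul (by positivity) (by positivity)]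
      _ ≤ g + log n + (lam - 1) := by
          have b1 := log_le_sub_one_of_pos (show (0 : ℝ) < 1 + g by linarith)
          have b2 := log_le_sub_one_of_pos hlam0
          linarith
  have e3 : log (h + 2 * t * lam + g * lam * m / Q) ≤ (2 + g) + log n + (lam - 1) := by
    have a0 : g * lam * m / Q ≤ g * lam * n := by
      calc g * lam * m / Q ≤ g * lam * m := div_le_self (by positivity) hQ
        _ ≤ g * lam * n := mul_le_mul_of_nonneg_left hmn (by positivity)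
    have a1 : h + 2 * t * lam + g * lam * m / Q ≤ (3 + g) * n * lam := by
      have c1 : h ≤ n * lam := hhn.trans (le_mul_of_one_le_right hn0.le hlam)
      have c2 : t * lam ≤ n * lam := mul_le_mul_of_nonneg_right htn hlam0.le
      nlinarith
    have a2 : 0 < h + 2 * t * lam + g * lam * m / Q := by positivity
    calc log (h + 2 * t * lam + g * lam * m / Q) ≤ log ((3 + g) * n * lam) := log_le_log a2 a1
      _ = log (3 + g) + log n + log lam := by
          rw [log_mul (by positivity) (by positivity), log_mul (by positivity) (by positivity)]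
      _ ≤ (2 + g) + log n + (lam - 1) := by
          have b1 := log_le_sub_one_of_pos (show (0 : ℝ) < 3 + g by linarith)
          have b2 := log_le_sub_one_of_pos hlam0
          linarith
  have e4 : (5 + 2 * g) * (1 + log n) * lam ≥ 5 * lam + 2 * g + 5 * log n := by
    have c1 : log n ≤ log n * lam := le_mul_of_one_le_right hL0 hlam
    have c2 : g ≤ g * lam := le_mul_of_one_le_right hg hlam
    have c3 : 0 ≤ g * (log n * lam) := by positivity
    nlinarith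
  linarith
-- END B6

-- BEGIN B7
private lemma b7_log (n E : ℝ) (hE : 1 ≤ E)
    (h : exp (-(3 * 10 ^ 7 * E)) < 2 * exp (-(n * log 2))) : n ≤ 6 * 10 ^ 7 * E := by
  have h2 : (0.69 : ℝ) ≤ log 2 := by linarith [Real.log_two_gt_d9]
  have h3 := Real.log_lt_log (exp_pos _) h
  rw [log_exp, log_mul (by norm_num) (exp_pos _).ne', log_exp] at h3
  by_contra hcon
  push Not at hcon
  have : (n - 1) * log 2 < 3 * 10 ^ 7 * E := by linarith
  have h4 : 6 * 10 ^ 7 * E - 1 < n - 1 := by linarith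
  have h5 : (6 * 10 ^ 7 * E - 1) * 0.69 ≤ (n - 1) * log 2 := by
    apply mul_le_mul h4.le h2 (by norm_num) (by nlinarith)
  nlinarith

private lemma b7_t (g Q t c : ℕ) (G X : ℝ) (hQ1 : 1 ≤ Q)
    (hQ : (Q : ℝ) ≤ 10 ^ 11 * G ^ 4 * X ^ 4) (hc : c ≤ g) (ht : t ≤ Q ^ c) :
    (t : ℝ) ≤ (10 ^ 11 * G ^ 4) ^ g * X ^ (4 * g) := by
  have h1 : (t : ℝ) ≤ (Q : ℝ) ^ g := by
    have : t ≤ Q ^ g := ht.trans (Nat.pow_le_pow_right hQ1 hc)
    exact_mod_cast this
  calc (t : ℝ) ≤ (Q : ℝ) ^ g := h1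
    _ ≤ (10 ^ 11 * G ^ 4 * X ^ 4) ^ g := pow_le_pow_left₀ (by positivity) hQ g
    _ = (10 ^ 11 * G ^ 4) ^ g * X ^ (4 * g) := by rw [mul_pow, ← pow_mul]

private lemma b7_Q (g L1 lam : ℝ) (hg : 0 ≤ g) (hL1 : 1 ≤ L1) (hlam : 1 ≤ lam) :
    (⌈24 * 10 ^ 7 * ((5 + 2 * g) * L1 * lam) ^ 2 * lam ^ 2 * (g + 1) ^ 2⌉₊ : ℝ) ≤
      10 ^ 11 * (g + 1) ^ 4 * (lam * L1) ^ 4 := by
  have hlam0 : 0 < lam := by linarith
  have hL0 : 0 < L1 := by linarith
  have hX : 1 ≤ lam * L1 := one_le_mul_of_one_le_of_one_le hlam hL1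
  have h0 : 0 ≤ 24 * 10 ^ 7 * ((5 + 2 * g) * L1 * lam) ^ 2 * lam ^ 2 * (g + 1) ^ 2 := by positivity
  have h1 := (Nat.ceil_lt_add_one h0).le
  have hY : 1 ≤ (g + 1) ^ 4 * (lam * L1) ^ 4 :=
    one_le_mul_of_one_le_of_one_le (one_le_pow₀ (by linarith)) (one_le_pow₀ hX)
  have h2 : 24 * 10 ^ 7 * ((5 + 2 * g) * L1 * lam) ^ 2 * lam ^ 2 * (g + 1) ^ 2 ≤
      600 * 10 ^ 7 * ((g + 1) ^ 4 * (lam * L1) ^ 4) := by
    have e1 : (5 + 2 * g) * L1 * lam ≤ 5 * (g + 1) * (lam * L1) := by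
      have : 0 ≤ g * (lam * L1) := by positivity
      nlinarith
    have e2 : ((5 + 2 * g) * L1 * lam) ^ 2 ≤ (5 * (g + 1) * (lam * L1)) ^ 2 :=
      pow_le_pow_left₀ (by positivity) e1 2
    have e3 : lam ^ 2 ≤ (lam * L1) ^ 2 :=
      pow_le_pow_left₀ hlam0.le (le_mul_of_one_le_right hlam0.le hL1) 2
    calc 24 * 10 ^ 7 * ((5 + 2 * g) * L1 * lam) ^ 2 * lam ^ 2 * (g + 1) ^ 2
        ≤ 24 * 10 ^ 7 * (5 * (g + 1) * (lam * L1)) ^ 2 * (lam * L1) ^ 2 * (g + 1) ^ 2 := by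
          apply mul_le_mul_of_nonneg_right _ (by positivity)
          apply mul_le_mul _ e3 (by positivity) (by positivity)
          exact mul_le_mul_of_nonneg_left e2 (by norm_num)
      _ = 600 * 10 ^ 7 * ((g + 1) ^ 4 * (lam * L1) ^ 4) := by ring
  calc _ ≤ _ := h1
    _ ≤ 600 * 10 ^ 7 * ((g + 1) ^ 4 * (lam * L1) ^ 4) + 1 := by linarith
    _ ≤ 10 ^ 11 * (g + 1) ^ 4 * (lam * L1) ^ 4 := by nlinarith

private lemma b7_fin (g n t h L1 lam lb : ℝ) (gN C : ℕ) (hg : 0 ≤ g) (hgN : g = gN)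
    (hL1 : 1 ≤ L1) (hlam : 1 ≤ lam) (hh : 1 ≤ h) (ht : 0 ≤ t)
    (hlb : lb = (5 + 2 * g) * L1 * lam)
    (hC : C = 10 ^ 11 * (gN + 1) ^ 3 * (10 ^ 11 * (gN + 1) ^ 4) ^ (2 * gN) + 8 * gN + 4)
    (ht2 : t ≤ (10 ^ 11 * (g + 1) ^ 4) ^ gN * (lam * L1) ^ (4 * gN))
    (hn : n ≤ 10 ^ 9 * (g + 1) * lb ^ 2 * lam ^ 2 * t ^ 2 * h) :
    n ≤ C * (lam * L1) ^ (8 * gN + 4) * h := by
  have hlam0 : 0 < lam := by linarith
  have hL0 : 0 < L1 := by linarith
  have hX : 1 ≤ lam * L1 := one_le_mul_of_one_le_of_one_le hlam hL1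
  have hh0 : 0 < h := by linarith
  have e1 : (5 + 2 * g) * L1 * lam ≤ 5 * (g + 1) * (lam * L1) := by
    have : 0 ≤ g * (lam * L1) := by positivity
    nlinarith
  have e2 : lb ^ 2 ≤ (5 * (g + 1) * (lam * L1)) ^ 2 := by
    rw [hlb]
    exact pow_le_pow_left₀ (by positivity) e1 2
  have e3 : lam ^ 2 ≤ (lam * L1) ^ 2 :=
    pow_le_pow_left₀ hlam0.le (le_mul_of_one_le_right hlam0.le hL1) 2
  have e4 : t ^ 2 ≤ (10 ^ 11 * (g + 1) ^ 4) ^ (2 * gN) * (lam * L1) ^ (8 * gN) := by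
    calc t ^ 2 ≤ ((10 ^ 11 * (g + 1) ^ 4) ^ gN * (lam * L1) ^ (4 * gN)) ^ 2 :=
          pow_le_pow_left₀ ht ht2 2
      _ = _ := by
          rw [mul_pow, ← pow_mul, ← pow_mul]
          congr 2 <;> ring
  have hCC : 10 ^ 11 * (g + 1) ^ 3 * (10 ^ 11 * (g + 1) ^ 4) ^ (2 * gN) ≤ (C : ℝ) := by
    have e0 : (10 : ℝ) ^ 11 = 100000000000 := by norm_num
    rw [hC, hgN]
    push_cast
    rw [e0]
    have : (0 : ℝ) ≤ gN := by positivity
    linarith
  calc n ≤ 10 ^ 9 * (g + 1) * lb ^ 2 * lam ^ 2 * t ^ 2 * h := hn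
    _ ≤ 10 ^ 9 * (g + 1) * (5 * (g + 1) * (lam * L1)) ^ 2 * (lam * L1) ^ 2 *
        ((10 ^ 11 * (g + 1) ^ 4) ^ (2 * gN) * (lam * L1) ^ (8 * gN)) * h := by
        apply mul_le_mul_of_nonneg_right _ hh0.le
        apply mul_le_mul _ e4 (by positivity) (by positivity)
        apply mul_le_mul _ e3 (by positivity) (by positivity)
        exact mul_le_mul_of_nonneg_left e2 (by positivity)
    _ = 25 * 10 ^ 9 * ((g + 1) ^ 3 * (10 ^ 11 * (g + 1) ^ 4) ^ (2 * gN)) *
        (lam * L1) ^ (8 * gN + 4) * h := by ring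
    _ ≤ (10 ^ 11 * (g + 1) ^ 3 * (10 ^ 11 * (g + 1) ^ 4) ^ (2 * gN)) *
        (lam * L1) ^ (8 * gN + 4) * h := by
        apply mul_le_mul_of_nonneg_right _ hh0.le
        apply mul_le_mul_of_nonneg_right _ (by positivity)
        have : 0 ≤ (g + 1) ^ 3 * (10 ^ 11 * (g + 1) ^ 4) ^ (2 * gN) := by positivity
        nlinarith
    _ ≤ C * (lam * L1) ^ (8 * gN + 4) * h := by
        apply mul_le_mul_of_nonneg_right _ hh0.le
        exact mul_le_mul_of_nonneg_right hCC (by positivity)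

/-- B7. Lemma B.  `C = 10^11 (g+1)^3 (10^11 (g+1)^4)^(2g) + 8 g + 4`, `h = 1 + log W`, `L1 = 1 + log n`.
If `n ≤ h` trivial.  `lb = (5 + 2 g) L1 lam`, `Q = ⌈24 * 10^7 * lb^2 * lam^2 * (g+1)^2⌉`
(`≤ 12 * 10^9 (g+1)^4 (L1 lam)^4`).  B1 with `x P = a P / n`: `t ≤ Q^g`, integers `b P`, which are `≥ 0` because
`1/Q < 1` (`a' P = (b P).toNat`).  If `n < t` then `n ≤ Q^g`, fine.  Otherwise B4 and `two_logs` with
`h1 = (t+g) lam`, `h2 = h + 2 t lam + g lam m/Q`, `m = n / t`: either `m ≤ 4000 l h2`, or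
`|Λ| > exp (-(3*10^7 l^2 h1 h2))` and then `n log 2 ≤ log 2 + 3 * 10^7 l^2 h1 h2`, so `n ≤ 6 * 10^7 l^2 h1 h2`
(`log 2 ≥ 0.69`, `l, h1, h2 ≥ 1`).  B5, B6: `n ≤ 10^9 (g+1) lb^2 lam^2 t^2 h`, `t^2 ≤ Q^(2g)`. -/
theorem baker_exp (g : ℕ) : ∃ C : ℕ, 1 ≤ C ∧ ∀ (q W n : ℕ) (s : Finset ℕ) (a : ℕ → ℕ) (lam : ℝ),
    s.card ≤ g → (∀ P ∈ s, P.Prime) → (∀ P ∈ s, ¬ P ∣ q) → (∀ P ∈ s, ¬ P ∣ W) →
    2 ≤ q → 2 ≤ W → 1 ≤ n → Nat.Coprime q W →
    q ^ n = 1 + W * ∏ P ∈ s, P ^ (a P) → 1 ≤ lam → log q ≤ lam → (∀ P ∈ s, log P ≤ lam) →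
    (n : ℝ) ≤ C * (lam * (1 + log n)) ^ (8 * g + 4) * (1 + log W) := by
  obtain ⟨C, hC⟩ : ∃ C : ℕ,
      C = 10 ^ 11 * (g + 1) ^ 3 * (10 ^ 11 * (g + 1) ^ 4) ^ (2 * g) + 8 * g + 4 := ⟨_, rfl⟩
  refine ⟨C, by omega, ?_⟩
  intro q W n s a lam hs hsp hsq hsW hq hW hn hqW heq hlam hlq hls
  have hnR : (1 : ℝ) ≤ n := by exact_mod_cast hn
  have hn0 : (0 : ℝ) < n := by linarith
  have hlogn : 0 ≤ log (n : ℝ) := log_nonneg hnR
  have hL1 : 1 ≤ 1 + log (n : ℝ) := by linarith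
  have hWR : (2 : ℝ) ≤ W := by exact_mod_cast hW
  have hlogW : 0 ≤ log (W : ℝ) := log_nonneg (by linarith)
  have hh : 1 ≤ 1 + log (W : ℝ) := by linarith
  have hlam0 : 0 < lam := by linarith
  have hgR : (0 : ℝ) ≤ g := by positivity
  have hX : 1 ≤ lam * (1 + log n) := one_le_mul_of_one_le_of_one_le hlam hL1
  have hC1 : (1 : ℝ) ≤ C := by
    have : 1 ≤ C := by omega
    exact_mod_cast this
  have hCX : 1 ≤ (C : ℝ) * (lam * (1 + log n)) ^ (8 * g + 4) :=
    one_le_mul_of_one_le_of_one_le hC1 (one_le_pow₀ hX)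
  by_cases hnh : (n : ℝ) ≤ 1 + log W
  · exact hnh.trans (le_mul_of_one_le_left (by linarith) hCX)
  push Not at hnh
  -- the parameter Q
  obtain ⟨Q, hQdef⟩ : ∃ Q : ℕ,
      Q = ⌈24 * 10 ^ 7 * ((5 + 2 * (g : ℝ)) * (1 + log n) * lam) ^ 2 * lam ^ 2 *
        ((g : ℝ) + 1) ^ 2⌉₊ := ⟨_, rfl⟩
  have hQge : 24 * 10 ^ 7 * ((5 + 2 * (g : ℝ)) * (1 + log n) * lam) ^ 2 * lam ^ 2 *
        ((g : ℝ) + 1) ^ 2 ≤ Q := by
    rw [hQdef]
    exact Nat.le_ceil _
  have hQle : (Q : ℝ) ≤ 10 ^ 11 * ((g : ℝ) + 1) ^ 4 * (lam * (1 + log n)) ^ 4 := by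
    rw [hQdef]
    exact b7_Q g (1 + log n) lam hgR hL1 hlam
  have hQ2 : (2 : ℝ) ≤ Q := by
    have e1 : 1 ≤ ((5 + 2 * (g : ℝ)) * (1 + log n) * lam) ^ 2 := by
      apply one_le_pow₀
      apply one_le_mul_of_one_le_of_one_le _ hlam
      exact one_le_mul_of_one_le_of_one_le (by linarith) hL1
    have e2 : 1 ≤ lam ^ 2 := one_le_pow₀ hlam
    have e3 : 1 ≤ ((g : ℝ) + 1) ^ 2 := one_le_pow₀ (by linarith)
    have e4 : 1 ≤ ((5 + 2 * (g : ℝ)) * (1 + log n) * lam) ^ 2 * lam ^ 2 * ((g : ℝ) + 1) ^ 2 :=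
      one_le_mul_of_one_le_of_one_le (one_le_mul_of_one_le_of_one_le e1 e2) e3
    have e5 : 24 * 10 ^ 7 * ((5 + 2 * (g : ℝ)) * (1 + log n) * lam) ^ 2 * lam ^ 2 *
        ((g : ℝ) + 1) ^ 2 = 24 * 10 ^ 7 *
        (((5 + 2 * (g : ℝ)) * (1 + log n) * lam) ^ 2 * lam ^ 2 * ((g : ℝ) + 1) ^ 2) := by ring
    rw [e5] at hQge
    linarith
  have hQ1 : 1 ≤ Q := by
    have : (1 : ℝ) ≤ Q := by linarith
    exact_mod_cast this
  obtain ⟨t, ht1, htQ, b, hb⟩ := dirichlet s (fun P => (a P : ℝ) / n) Q hQ1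
  have ht1R : (1 : ℝ) ≤ t := by exact_mod_cast ht1
  have htle := b7_t g Q t s.card ((g : ℝ) + 1) (lam * (1 + log n)) hQ1 hQle hs htQ
  have ha : ∀ P ∈ s, |t * ((a P : ℝ) / n) - ((b P).toNat : ℕ)| ≤ 1 / Q := by
    intro P hP
    have h1 := hb P hP
    have h2 : (0 : ℝ) ≤ t * ((a P : ℝ) / n) := by positivity
    have h3 : (1 : ℝ) / Q ≤ 1 / 2 := by
      apply div_le_div_of_nonneg_left (by norm_num) (by norm_num) hQ2
    have h4 : (-1 : ℝ) < b P := by
      have := (abs_le.1 h1).2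
      linarith
    have h5 : 0 ≤ b P := by
      have : (-1 : ℤ) < b P := by exact_mod_cast h4
      omega
    have h6 : (((b P).toNat : ℕ) : ℝ) = (b P : ℝ) := by
      have : (((b P).toNat : ℤ) : ℝ) = (b P : ℝ) := by
        rw [Int.toNat_of_nonneg h5]
      exact_mod_cast this
    rw [h6]
    exact h1
  by_cases htn : n < t
  · -- n < t
    have h1 : (n : ℝ) ≤ t := by exact_mod_cast htn.le
    refine b7_fin g n t (1 + log W) (1 + log n) lam _ g C hgR rfl hL1 hlam hh (by linarith) rfl hC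
      htle ?_
    have e1 : 1 ≤ ((5 + 2 * (g : ℝ)) * (1 + log n) * lam) ^ 2 := by
      apply one_le_pow₀
      apply one_le_mul_of_one_le_of_one_le _ hlam
      exact one_le_mul_of_one_le_of_one_le (by linarith) hL1
    have e2 : 1 ≤ lam ^ 2 := one_le_pow₀ hlam
    have e3 : (t : ℝ) ≤ (t : ℝ) ^ 2 := by nlinarith
    have e4 : 1 ≤ 10 ^ 9 * ((g : ℝ) + 1) * ((5 + 2 * (g : ℝ)) * (1 + log n) * lam) ^ 2 *
        lam ^ 2 := by
      apply one_le_mul_of_one_le_of_one_le _ e2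
      apply one_le_mul_of_one_le_of_one_le _ e1
      exact one_le_mul_of_one_le_of_one_le (by norm_num) (by linarith)
    calc (n : ℝ) ≤ (t : ℝ) ^ 2 := h1.trans e3
      _ ≤ 10 ^ 9 * ((g : ℝ) + 1) * ((5 + 2 * (g : ℝ)) * (1 + log n) * lam) ^ 2 * lam ^ 2 *
          (t : ℝ) ^ 2 := le_mul_of_one_le_left (by positivity) e4
      _ ≤ _ := le_mul_of_one_le_right (by positivity) hh
  push Not at htn
  have htnR : (t : ℝ) ≤ n := by exact_mod_cast htn
  have ht0 : 0 < t := ht1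
  obtain ⟨A1, B1, A2, B2, hA1, hB1, hA2, hB2, hlA1, hlB1, hlA2, hlB2, hsmall, hind⟩ :=
    baker_data q W n t g s a (fun P => (b P).toNat) lam Q hs hsp hsq hsW hq hW hn hqW heq hlam hlq
      hls ht1 htn (by linarith) ha
  obtain ⟨m, hm⟩ : ∃ m : ℕ, m = n / t := ⟨_, rfl⟩
  rw [← hm] at hlA2 hlB2 hsmall
  have hm1 : 1 ≤ m := by
    rw [hm]
    exact Nat.div_pos htn ht0
  have hmR : (1 : ℝ) ≤ m := by exact_mod_cast hm1
  have htm : t * m ≤ n := by
    rw [hm]
    exact Nat.mul_div_le n t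
  have hn2 : n ≤ 2 * t * m := by
    have h1 : n < t * (n / t) + t := Nat.lt_mul_div_succ n ht0
    rw [← hm] at h1
    nlinarith
  have htmR : (t : ℝ) * m ≤ n := by exact_mod_cast htm
  have hn2R : (n : ℝ) ≤ 2 * t * m := by exact_mod_cast hn2
  have hmn : (m : ℝ) ≤ n := by nlinarith
  have hh1 : 1 ≤ ((t : ℝ) + g) * lam :=
    one_le_mul_of_one_le_of_one_le (by linarith) hlam
  have hextra : 0 ≤ (g : ℝ) * lam * m / Q := by positivity
  have htl : 0 ≤ 2 * (t : ℝ) * lam := by positivity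
  have hh2 : 1 ≤ 1 + log W + 2 * t * lam + (g : ℝ) * lam * m / Q := by linarith
  obtain ⟨l, hl⟩ : ∃ l : ℝ, l = 1 + log (m : ℝ) + log (((t : ℝ) + g) * lam) +
      log (1 + log W + 2 * t * lam + (g : ℝ) * lam * m / Q) := ⟨_, rfl⟩
  have hl1 : 1 ≤ l := by
    have e1 := log_nonneg hmR
    have e2 := log_nonneg hh1
    have e3 := log_nonneg hh2
    rw [hl]
    linarith
  have hllb : l ≤ (5 + 2 * (g : ℝ)) * (1 + log n) * lam := by
    rw [hl]
    exact l_bound g n t m (1 + log W) lam Q hgR ht1R hmR hmn htnR hh hnh.le hlam (by linarith)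
  have hcase : (m : ℝ) ≤ 4000 * l * (1 + log W + 2 * t * lam + (g : ℝ) * lam * m / Q) ∨
      (n : ℝ) ≤ 6 * 10 ^ 7 * l ^ 2 * ((t + g) * lam) *
        (1 + log W + 2 * t * lam + (g : ℝ) * lam * m / Q) := by
    by_cases hsm : |(m : ℝ) * log ((A1 : ℝ) / B1) - log ((A2 : ℝ) / B2)| ≤
        exp (-(3 * 10 ^ 7 * l ^ 2 * (((t : ℝ) + g) * lam) *
          (1 + log W + 2 * t * lam + (g : ℝ) * lam * m / Q)))
    · left
      exact two_logs A1 B1 A2 B2 m hA1 hB1 hA2 hB2 hm1 _ _ hh1 hh2 hlA1 hlB1 hlA2 hlB2 hind l hl hsm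
    · right
      push Not at hsm
      have h1 := hsm.trans_le hsmall
      have e1 : 3 * 10 ^ 7 * l ^ 2 * (((t : ℝ) + g) * lam) *
          (1 + log W + 2 * t * lam + (g : ℝ) * lam * m / Q) =
          3 * 10 ^ 7 * (l ^ 2 * (((t : ℝ) + g) * lam) *
          (1 + log W + 2 * t * lam + (g : ℝ) * lam * m / Q)) := by ring
      rw [e1] at h1
      have h2 := b7_log n _ (one_le_mul_of_one_le_of_one_le
        (one_le_mul_of_one_le_of_one_le (one_le_pow₀ hl1) hh1) hh2) h1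
      calc (n : ℝ) ≤ _ := h2
        _ = _ := by ring
  have hfin := baker_ineq g n t m (1 + log W) lam l _ Q hgR ht1R hmR htmR hn2R hh hlam hl1 hllb
    hQge hcase
  exact b7_fin g n t (1 + log W) (1 + log n) lam _ g C hgR rfl hL1 hlam hh (by linarith) rfl hC
      htle hfin

/-- B7. weak form -/
theorem baker (g : ℕ) : ∃ C : ℕ, 1 ≤ C ∧ ∀ (q W n : ℕ) (s : Finset ℕ) (a : ℕ → ℕ) (lam : ℝ),
    s.card ≤ g → (∀ P ∈ s, P.Prime) → (∀ P ∈ s, ¬ P ∣ q) → (∀ P ∈ s, ¬ P ∣ W) →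
    2 ≤ q → 2 ≤ W → 1 ≤ n → Nat.Coprime q W →
    q ^ n = 1 + W * ∏ P ∈ s, P ^ (a P) → 1 ≤ lam → log q ≤ lam → (∀ P ∈ s, log P ≤ lam) →
    (n : ℝ) ≤ C * (lam * (1 + log n)) ^ C * (1 + log W) := by
  obtain ⟨C, hC1, hC⟩ := baker_exp g
  refine ⟨C + (8 * g + 4), by omega, ?_⟩
  intro q W n s a lam hs hsp hsq hsW hq hW hn hqW heq hlam hlq hls
  have h := hC q W n s a lam hs hsp hsq hsW hq hW hn hqW heq hlam hlq hls
  have hnR : (1 : ℝ) ≤ n := by exact_mod_cast hn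
  have hlogn : 0 ≤ log (n : ℝ) := log_nonneg hnR
  have hX : 1 ≤ lam * (1 + log n) := one_le_mul_of_one_le_of_one_le hlam (by linarith)
  have hWR : (2 : ℝ) ≤ W := by exact_mod_cast hW
  have hlogW : 0 ≤ log (W : ℝ) := log_nonneg (by linarith)
  refine h.trans ?_
  apply mul_le_mul_of_nonneg_right _ (by linarith)
  apply mul_le_mul _ (pow_le_pow_right₀ hX (by omega)) (by positivity) (by positivity)
  push_cast
  have : (0 : ℝ) ≤ 8 * g + 4 := by positivity
  linarith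
-- END B7

end Pool.Agent.Lib.MP_f02ea4_nt.Sm
end
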