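import Mathlib
import Pool.Agent.Lib.MP_f02ea4_nt.SigmaBasics
import Pool.Agent.Lib.MP_f02ea4_nt.Mg.G017

section

/-! Smoothness of odd perfect numbers, part C: structure of odd perfect numbers, gaps between the large primes,
proof of (b). -/

set_option autoImplicit false

namespace Pool.Agent.Lib.MP_f02ea4_nt.Sm

open Finset Real

/-- the factor of `σ(N)` belonging to the prime `q` -/
abbrev Sq (N q : ℕ) : ℕ := Sb.sg (q ^ N.factorization q)

/-- `n_q = e_q + 1` -/
abbrev nn (N q : ℕ) : ℕ := N.factorization q + 1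

-- BEGIN C1
/-- C1. `σ(N) = ∏ σ(q^e_q)` (`ArithmeticFunction.IsMultiplicative.multiplicative_factorization`) and `σ(N) = 2N` -/
lemma prod_Sq (N : ℕ) (hN : Nat.Perfect N) : ∏ q ∈ N.primeFactors, Sq N q = 2 * N := by
  have h1 : Sb.sg N = 2 * N := by
    rw [Sb.sg, ArithmeticFunction.sigma_one_apply]
    exact (Nat.perfect_iff_sum_divisors_eq_two_mul hN.2).mp hN
  have h2 := ArithmeticFunction.IsMultiplicative.multiplicative_factorization
    (ArithmeticFunction.sigma 1) ArithmeticFunction.isMultiplicative_sigma hN.2.ne'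
  rw [← h1, Sb.sg, h2, Finsupp.prod, Nat.support_factorization]

lemma c1_ne_zero (N : ℕ) (q : ℕ) (hq : q.Prime) : Sq N q ≠ 0 :=
  (Sb.sg_pos (pow_pos hq.pos _)).ne'

/-- C1. column sums -/
lemma sum_val (N : ℕ) (hN : Nat.Perfect N) (r : ℕ) (_hr : r.Prime) (hr2 : r ≠ 2) :
    ∑ q ∈ N.primeFactors, (Sq N q).factorization r = N.factorization r := by
  have h := prod_Sq N hN
  have h1 : (∏ q ∈ N.primeFactors, Sq N q).factorization r =
      ∑ q ∈ N.primeFactors, (Sq N q).factorization r := by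
    rw [Nat.factorization_prod (fun q hq => c1_ne_zero N q (Nat.prime_of_mem_primeFactors hq))]
    simp
  rw [← h1, h, Nat.factorization_mul (by norm_num) hN.2.ne', Finsupp.add_apply,
    Nat.Prime.factorization Nat.prime_two, Finsupp.single_apply, if_neg (Ne.symm hr2), zero_add]

/-- C1. an odd prime dividing `σ(q^e_q)` divides `N` -/
lemma mem_of_dvd_Sq (N : ℕ) (hN : Nat.Perfect N) (q r : ℕ) (hq : q ∈ N.primeFactors) (hr : r.Prime)
    (hr2 : r ≠ 2) (h : r ∣ Sq N q) : r ∈ N.primeFactors := by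
  have h1 : r ∣ 2 * N := by
    rw [← prod_Sq N hN]
    exact h.trans (dvd_prod_of_mem _ hq)
  rcases (Nat.Prime.dvd_mul hr).1 h1 with h2 | h2
  · exact absurd ((Nat.prime_dvd_prime_iff_eq hr Nat.prime_two).1 h2) hr2
  · exact Nat.mem_primeFactors.2 ⟨hr, h2, hN.2.ne'⟩
-- END C1

-- BEGIN C2
private lemma c2_fact_dvd {a b r : ℕ} (hb : b ≠ 0) (h : a ∣ b) :
    a.factorization r ≤ b.factorization r :=
  (Nat.factorization_le_iff_dvd (fun h0 => hb (by rw [h0] at h; exact zero_dvd_iff.1 h)) hb).2 h r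

/-- C2. LTE, `r` odd: `p^n - 1 ∣ (p^(r-1))^n - 1` and `r ∣ p^(r-1) - 1` (`padicValNat.pow_sub_pow` or
`Nat.emultiplicity_pow_sub_pow`). -/
lemma val_odd (p n r : ℕ) (hp : 2 ≤ p) (hn : 1 ≤ n) (hr : r.Prime) (hr2 : r ≠ 2) (hrp : ¬ r ∣ p) :
    (p ^ n - 1).factorization r ≤ (p ^ (r - 1) - 1).factorization r + n.factorization r := by
  have := Fact.mk hr
  have hr3 : 3 ≤ r := by have := hr.two_le; omega
  have hodd : Odd r := hr.odd_of_ne_two hr2
  have hcop : Nat.Coprime p r := ((Nat.Prime.coprime_iff_not_dvd hr).2 hrp).symm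
  have h1 : 1 < p ^ (r - 1) := Nat.one_lt_pow (by omega) (by omega)
  have hdvd : r ∣ p ^ (r - 1) - 1 := by
    have h2 : p ^ (r - 1) ≡ 1 [MOD r] := by
      have := Nat.ModEq.pow_totient hcop
      rwa [Nat.totient_prime hr] at this
    exact (Nat.modEq_iff_dvd' h1.le).1 h2.symm
  have hnd : ¬ r ∣ p ^ (r - 1) := fun h => hrp (hr.dvd_of_dvd_pow h)
  have h3 := padicValNat.pow_sub_pow (p := r) hodd (x := p ^ (r - 1)) (y := 1) h1 hdvd hnd
    (n := n) (by omega)
  rw [one_pow] at h3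
  have hd2 : p ^ n - 1 ∣ (p ^ (r - 1)) ^ n - 1 := by
    have := Nat.sub_dvd_pow_sub_pow (p ^ n) 1 (r - 1)
    rwa [one_pow, ← pow_mul, mul_comm, pow_mul] at this
  have hne : (p ^ (r - 1)) ^ n - 1 ≠ 0 := by
    have : 1 < (p ^ (r - 1)) ^ n := Nat.one_lt_pow (by omega) h1
    omega
  have h4 := c2_fact_dvd (r := r) hne hd2
  refine h4.trans ?_
  rw [Nat.factorization_def _ hr, Nat.factorization_def _ hr, Nat.factorization_def _ hr, h3]

/-- C2. LTE, `r = 2`: `p^n - 1 ∣ (p^2)^n - 1`, `4 ∣ p^2 - 1` (`Int.two_pow_sub_pow'`) -/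
lemma val_two (p n : ℕ) (hp : Odd p) (hp3 : 3 ≤ p) (hn : 1 ≤ n) :
    (p ^ n - 1).factorization 2 ≤ (p ^ 2 - 1).factorization 2 + n.factorization 2 := by
  have := Fact.mk Nat.prime_two
  have h1 : 1 < p ^ 2 := Nat.one_lt_pow (by omega) (by omega)
  have hd2 : p ^ n - 1 ∣ (p ^ 2) ^ n - 1 := by
    have := Nat.sub_dvd_pow_sub_pow (p ^ n) 1 2
    rwa [one_pow, ← pow_mul, mul_comm, pow_mul] at this
  have hne : (p ^ 2) ^ n - 1 ≠ 0 := by
    have : 1 < (p ^ 2) ^ n := Nat.one_lt_pow (by omega) h1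
    omega
  have h4 := c2_fact_dvd (r := 2) hne hd2
  refine h4.trans ?_
  have h4d : (4 : ℤ) ∣ ((p ^ 2 : ℕ) : ℤ) - ((1 : ℕ) : ℤ) := by
    obtain ⟨k, rfl⟩ := hp
    refine ⟨k * (k + 1), ?_⟩
    push_cast
    ring
  have hnd : ¬ (2 : ℤ) ∣ ((p ^ 2 : ℕ) : ℤ) := by
    intro h
    have h2 : 2 ∣ p ^ 2 := by exact_mod_cast h
    have h3 := Nat.prime_two.dvd_of_dvd_pow h2
    exact (Nat.not_even_iff_odd.2 hp) (even_iff_two_dvd.2 h3)
  have h3 := Int.two_pow_sub_pow' n h4d hnd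
  rw [Nat.factorization_def _ Nat.prime_two, Nat.factorization_def _ Nat.prime_two,
    Nat.factorization_def _ Nat.prime_two]
  have e1 : ((p ^ 2 : ℕ) : ℤ) ^ n - ((1 : ℕ) : ℤ) ^ n = (((p ^ 2) ^ n - 1 : ℕ) : ℤ) := by
    rw [Nat.cast_sub (Nat.one_le_pow _ _ (by omega))]
    push_cast
    rw [one_pow]
  have e2 : ((p ^ 2 : ℕ) : ℤ) - ((1 : ℕ) : ℤ) = ((p ^ 2 - 1 : ℕ) : ℤ) := by
    rw [Nat.cast_sub h1.le]
  rw [e1, e2] at h3
  have h5 : emultiplicity 2 ((p ^ 2) ^ n - 1) = emultiplicity 2 (p ^ 2 - 1) + emultiplicity 2 n := by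
    have k1 : emultiplicity (2 : ℤ) (((p ^ 2) ^ n - 1 : ℕ) : ℤ) = emultiplicity 2 ((p ^ 2) ^ n - 1) := by
      exact_mod_cast Int.natCast_emultiplicity 2 _
    have k2 : emultiplicity (2 : ℤ) ((p ^ 2 - 1 : ℕ) : ℤ) = emultiplicity 2 (p ^ 2 - 1) := by
      exact_mod_cast Int.natCast_emultiplicity 2 _
    have k3 : emultiplicity (2 : ℤ) (n : ℤ) = emultiplicity 2 n := by
      exact_mod_cast Int.natCast_emultiplicity 2 _
    rw [← k1, ← k2, ← k3]
    exact h3
  rw [← padicValNat_eq_emultiplicity hne, ← padicValNat_eq_emultiplicity (by omega),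
    ← padicValNat_eq_emultiplicity (by omega)] at h5
  exact_mod_cast h5.le

/-- C2. LTE, `r` odd, `r ∣ p - 1`, `p` prime: `v_r(σ(p^e)) = v_r(e+1)` (only `≤` is needed; `Sb.sg_pow`) -/
lemma val_sg_of_dvd (p e r : ℕ) (hp : p.Prime) (hr : r.Prime) (hr2 : r ≠ 2) (h : r ∣ p - 1) :
    (Sb.sg (p ^ e)).factorization r ≤ (e + 1).factorization r := by
  have := Fact.mk hr
  have hodd : Odd r := hr.odd_of_ne_two hr2
  have hp1 : 1 < p := hp.one_lt
  have hnd : ¬ r ∣ p := by
    intro h2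
    have h3 : r ∣ p - (p - 1) := Nat.dvd_sub h2 h
    have h4 : p - (p - 1) = 1 := by omega
    rw [h4] at h3
    exact hr.one_lt.ne' (Nat.dvd_one.1 h3)
  have h3 := padicValNat.pow_sub_pow (p := r) hodd (x := p) (y := 1) hp1 h hnd
    (n := e + 1) (by omega)
  rw [one_pow] at h3
  have h4 : (p - 1) * Sb.sg (p ^ e) = p ^ (e + 1) - 1 := by
    have := Sb.sg_pow hp e
    omega
  have hs : Sb.sg (p ^ e) ≠ 0 := (Sb.sg_pos (pow_pos hp.pos e)).ne'
  have hp0 : p - 1 ≠ 0 := by omega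
  rw [Nat.factorization_def _ hr, Nat.factorization_def _ hr]
  rw [← h4, padicValNat.mul hp0 hs] at h3
  omega
-- END C2

-- BEGIN C3
private lemma c3_sum_le (n : ℕ) (S : Finset ℕ) :
    ∑ r ∈ S, (n.factorization r : ℝ) * log r ≤ log n := by
  rw [Real.log_nat_eq_sum_factorization, Finsupp.sum]
  have h1 : ∑ r ∈ S, (n.factorization r : ℝ) * log r =
      ∑ r ∈ S.filter (· ∈ n.factorization.support), (n.factorization r : ℝ) * log r := by
    rw [Finset.sum_filter]
    refine Finset.sum_congr rfl fun r _ => ?_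
    split_ifs with h
    · rfl
    · rw [Finsupp.notMem_support_iff.1 h]; simp
  rw [h1]
  refine Finset.sum_le_sum_of_subset_of_nonneg ?_ ?_
  · intro r hr
    exact (Finset.mem_filter.1 hr).2
  · intro r _ _
    exact mul_nonneg (Nat.cast_nonneg _) (Real.log_natCast_nonneg r)

private lemma c3_single (n r : ℕ) : (n.factorization r : ℝ) * log r ≤ log n := by
  have h := c3_sum_le n {r}
  rwa [Finset.sum_singleton] at h

/-- C3. the `y`-smooth part of `p^n - 1`.  `r = p`: valuation zero.  `r` odd: C2 and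
`v_r(p^(r-1) - 1) log r ≤ (r-1) log p`; `r = 2`: C2 and `v_2(p^2-1) log 2 ≤ 2 log p`.
`2 + ∑_{3 ≤ r ≤ y} (r-1) ≤ y^2`, `∑_r v_r(n) log r ≤ log n`. -/
lemma smooth_part_le (p n y : ℕ) (hp : p.Prime) (hp2 : p ≠ 2) (hn : 1 ≤ n) :
    ∑ r ∈ (range (y + 1)).filter Nat.Prime, ((p ^ n - 1).factorization r : ℝ) * log r ≤
      (y : ℝ) ^ 2 * log p + log n := by
  have hp3 : 3 ≤ p := by have := hp.two_le; omega
  have hlp : 0 ≤ log (p : ℝ) := Real.log_natCast_nonneg p
  have hpow : ∀ k : ℕ, log ((p ^ k - 1 : ℕ) : ℝ) ≤ k * log p := by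
    intro k
    rcases Nat.eq_zero_or_pos (p ^ k - 1) with h | h
    · rw [h, Nat.cast_zero, Real.log_zero]
      positivity
    · rw [← Real.log_pow]
      refine Real.log_le_log (by exact_mod_cast h) ?_
      have : ((p ^ k - 1 : ℕ) : ℝ) ≤ ((p ^ k : ℕ) : ℝ) := by
        exact_mod_cast Nat.sub_le _ _
      rwa [Nat.cast_pow] at this
  have key : ∀ r ∈ (range (y + 1)).filter Nat.Prime,
      ((p ^ n - 1).factorization r : ℝ) * log r ≤
        (r : ℝ) * log p + (n.factorization r : ℝ) * log r := by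
    intro r hr
    have hrp := (Finset.mem_filter.1 hr).2
    have hlr : 0 ≤ log (r : ℝ) := Real.log_natCast_nonneg r
    have hnn : 0 ≤ (n.factorization r : ℝ) * log r := mul_nonneg (Nat.cast_nonneg _) hlr
    by_cases hrep : r ∣ p
    · have hrp' : r = p := (Nat.prime_dvd_prime_iff_eq hrp hp).1 hrep
      have h0 : (p ^ n - 1).factorization r = 0 := by
        apply Nat.factorization_eq_zero_of_not_dvd
        intro h
        have h2 : r ∣ p ^ n := by rw [hrp']; exact dvd_pow_self p (by omega)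
        have h3 : r ∣ p ^ n - (p ^ n - 1) := Nat.dvd_sub h2 h
        have h4 : p ^ n - (p ^ n - 1) = 1 := by
          have := Nat.one_le_pow n p (by omega)
          omega
        rw [h4] at h3
        exact hrp.one_lt.ne' (Nat.dvd_one.1 h3)
      rw [h0, Nat.cast_zero, zero_mul]
      have : 0 ≤ (r : ℝ) * log p := by positivity
      linarith
    · by_cases hr2 : r = 2
      · subst hr2
        have hodd : Odd p := hp.odd_of_ne_two hp2
        have h1 := val_two p n hodd hp3 hn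
        have h1' : ((p ^ n - 1).factorization 2 : ℝ) ≤
            ((p ^ 2 - 1).factorization 2 : ℝ) + (n.factorization 2 : ℝ) := by exact_mod_cast h1
        have h2 := (c3_single (p ^ 2 - 1) 2).trans (hpow 2)
        have h3 := mul_le_mul_of_nonneg_right h1' hlr
        push_cast at h2 h3 ⊢
        nlinarith
      · have h1 := val_odd p n r (by omega) hn hrp hr2 hrep
        have h1' : ((p ^ n - 1).factorization r : ℝ) ≤
            ((p ^ (r - 1) - 1).factorization r : ℝ) + (n.factorization r : ℝ) := by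
          exact_mod_cast h1
        have h2 := (c3_single (p ^ (r - 1) - 1) r).trans (hpow (r - 1))
        have h3 := mul_le_mul_of_nonneg_right h1' hlr
        have h4 : ((r - 1 : ℕ) : ℝ) * log p ≤ (r : ℝ) * log p :=
          mul_le_mul_of_nonneg_right (by exact_mod_cast Nat.sub_le _ _) hlp
        nlinarith
  refine (Finset.sum_le_sum key).trans ?_
  rw [Finset.sum_add_distrib, ← Finset.sum_mul]
  refine add_le_add (mul_le_mul_of_nonneg_right ?_ hlp) (c3_sum_le n _)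
  have h1 : ∑ r ∈ (range (y + 1)).filter Nat.Prime, (r : ℝ) ≤ ∑ r ∈ range (y + 1), (r : ℝ) :=
    Finset.sum_le_sum_of_subset_of_nonneg (Finset.filter_subset _ _)
      (fun _ _ _ => Nat.cast_nonneg _)
  refine h1.trans ?_
  have h2 : (∑ r ∈ range (y + 1), r) * 2 = (y + 1) * y := by
    have := Finset.sum_range_id_mul_two (y + 1)
    simpa using this
  have h3 : (∑ r ∈ range (y + 1), (r : ℝ)) * 2 = ((y : ℝ) + 1) * y := by
    have h4 := congrArg (fun k : ℕ => (k : ℝ)) h2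
    push_cast at h4
    exact h4
  rcases Nat.eq_zero_or_pos y with hy | hy
  · subst hy; simp
  · have : (1 : ℝ) ≤ y := by exact_mod_cast hy
    nlinarith
-- END C3

-- BEGIN C4
/-- C4. absorbing logarithms: `1 + log x ≤ 2 K x^(1/(2K))` (`K ≥ 1`), so `x ≤ A (2K)^K x^(1/2)`. -/
lemma absorb (K : ℕ) (A x : ℝ) (hA : 1 ≤ A) (hx : 1 ≤ x) (h : x ≤ A * (1 + log x) ^ K) :
    x ≤ A ^ 2 * (2 * K + 1) ^ (2 * K) := by
  have hx0 : 0 < x := by linarith
  have hlx : 0 ≤ log x := log_nonneg hx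
  set c : ℝ := 2 * K + 1 with hc
  have hc1 : 1 ≤ c := by
    have : (0 : ℝ) ≤ K := Nat.cast_nonneg _
    rw [hc]; linarith
  have hc0 : 0 < c := by linarith
  -- `1 + log x ≤ c * x ^ (1 / c)`
  set z : ℝ := exp (log x / c) with hz
  have hz1 : log x / c + 1 ≤ z := add_one_le_exp _
  have hzc : z ^ (2 * K) ≤ x := by
    rw [hz, ← exp_nat_mul]
    calc exp (((2 * K : ℕ) : ℝ) * (log x / c)) ≤ exp (log x) := by
          apply exp_le_exp.2
          have h1 : ((2 * K : ℕ) : ℝ) = c - 1 := by rw [hc]; push_cast; ring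
          rw [h1]
          have h2 : (c - 1) * (log x / c) = log x - log x / c := by field_simp
          rw [h2]
          have : 0 ≤ log x / c := by positivity
          linarith
      _ = x := exp_log hx0
  have hlc : 1 + log x ≤ c * z := by
    have h1 : c * (log x / c + 1) = log x + c := by field_simp
    have h2 := mul_le_mul_of_nonneg_left hz1 hc0.le
    linarith
  have h1 : x ≤ A * (c * z) ^ K :=
    h.trans (mul_le_mul_of_nonneg_left (pow_le_pow_left₀ (by linarith) hlc K) (by linarith))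
  have h2 : x ^ 2 ≤ (A * (c * z) ^ K) ^ 2 := pow_le_pow_left₀ hx0.le h1 2
  have h3 : (A * (c * z) ^ K) ^ 2 = A ^ 2 * c ^ (2 * K) * z ^ (2 * K) := by
    rw [mul_pow, ← pow_mul, mul_pow, mul_comm K 2]; ring
  have h4 : A ^ 2 * c ^ (2 * K) * z ^ (2 * K) ≤ A ^ 2 * c ^ (2 * K) * x :=
    mul_le_mul_of_nonneg_left hzc (by positivity)
  have h5 : x * x ≤ A ^ 2 * c ^ (2 * K) * x := by
    calc x * x = x ^ 2 := by ring
      _ ≤ _ := h2
      _ = _ := h3
      _ ≤ _ := h4
  exact le_of_mul_le_mul_right h5 hx0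

/-- C4. sharper version -/
lemma absorb_exp (K m : ℕ) (hm : 1 ≤ m) (A x : ℝ) (hA : 1 ≤ A) (hx : 1 ≤ x)
    (h : x ≤ A * (1 + log x) ^ K) :
    x ^ m ≤ A ^ (m + 1) * ((m + 1) * K + 1) ^ ((m + 1) * K) := by
  have hx0 : 0 < x := by linarith
  have hlx : 0 ≤ log x := log_nonneg hx
  set c : ℝ := (m + 1) * K + 1 with hc
  have hc1 : 1 ≤ c := by
    have : (0 : ℝ) ≤ (m + 1) * K := by positivity
    rw [hc]; linarith
  have hc0 : 0 < c := by linarith
  set z : ℝ := exp (log x / c) with hz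
  have hz1 : log x / c + 1 ≤ z := add_one_le_exp _
  have hzc : z ^ ((m + 1) * K) ≤ x := by
    rw [hz, ← exp_nat_mul]
    calc exp ((((m + 1) * K : ℕ) : ℝ) * (log x / c)) ≤ exp (log x) := by
          apply exp_le_exp.2
          have h1 : (((m + 1) * K : ℕ) : ℝ) = c - 1 := by rw [hc]; push_cast; ring
          rw [h1]
          have h2 : (c - 1) * (log x / c) = log x - log x / c := by field_simp
          rw [h2]
          have : 0 ≤ log x / c := by positivity
          linarith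
      _ = x := exp_log hx0
  have hlc : 1 + log x ≤ c * z := by
    have h1 : c * (log x / c + 1) = log x + c := by field_simp
    have h2 := mul_le_mul_of_nonneg_left hz1 hc0.le
    linarith
  have h1 : x ≤ A * (c * z) ^ K :=
    h.trans (mul_le_mul_of_nonneg_left (pow_le_pow_left₀ (by linarith) hlc K) (by linarith))
  have h2 : x ^ (m + 1) ≤ (A * (c * z) ^ K) ^ (m + 1) := pow_le_pow_left₀ hx0.le h1 _
  have h3 : (A * (c * z) ^ K) ^ (m + 1) =
      A ^ (m + 1) * c ^ ((m + 1) * K) * z ^ ((m + 1) * K) := by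
    rw [mul_pow, ← pow_mul, mul_pow, mul_comm K (m + 1)]; ring
  have h4 : A ^ (m + 1) * c ^ ((m + 1) * K) * z ^ ((m + 1) * K) ≤
      A ^ (m + 1) * c ^ ((m + 1) * K) * x :=
    mul_le_mul_of_nonneg_left hzc (by positivity)
  have h5 : x ^ m * x ≤ A ^ (m + 1) * c ^ ((m + 1) * K) * x := by
    calc x ^ m * x = x ^ (m + 1) := (pow_succ x m).symm
      _ ≤ _ := h2
      _ = _ := h3
      _ ≤ _ := h4
  exact le_of_mul_le_mul_right h5 hx0
-- END C4

-- BEGIN C5
private lemma c5_sum_le (n : ℕ) (S : Finset ℕ) :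
    ∑ r ∈ S, (n.factorization r : ℝ) * log r ≤ log n := by
  rw [Real.log_nat_eq_sum_factorization, Finsupp.sum]
  have h1 : ∑ r ∈ S, (n.factorization r : ℝ) * log r =
      ∑ r ∈ S.filter (· ∈ n.factorization.support), (n.factorization r : ℝ) * log r := by
    rw [Finset.sum_filter]
    refine Finset.sum_congr rfl fun r _ => ?_
    split_ifs with h
    · rfl
    · rw [Finsupp.notMem_support_iff.1 h]; simp
  rw [h1]
  refine Finset.sum_le_sum_of_subset_of_nonneg ?_ ?_
  · intro r hr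
    exact (Finset.mem_filter.1 hr).2
  · intro r _ _
    exact mul_nonneg (Nat.cast_nonneg _) (Real.log_natCast_nonneg r)

/-- C5. the cofactor.  `N` odd perfect, `p ∣ N`, all odd primes of `σ(p^e)` have `log ≤ Lb`;
`s = {P ∈ N.primeFactors : y < P, P ≠ p, log P ≤ Lb, P ∣ Sq N p}`;
`W = (p^n - 1) / ∏_{P ∈ s} P ^ v_P(p^n - 1)`, `n = e + 1`.  `W` is even (`p` odd, `s` odd primes).  A prime `r ∣ W`
is not in `s`; `r ≠ p`; if `r > y` then `r ∤ Sq N p` (otherwise `r ∈ s`; use C1 `mem_of_dvd_Sq`), so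
`v_r(p^n-1) = v_r(p-1)` (`p^n - 1 = (p-1) Sq N p`, `Sb.sg_pow`).  Hence
`log W = ∑_{r ∣ W} v_r(W) log r ≤ ∑_{r ≤ y} v_r(p^n-1) log r + log (p-1) ≤ y^2 log p + log n + log p`. -/
lemma cofactor (N y : ℕ) (hodd : Odd N) (hN : Nat.Perfect N) (Lb : ℝ) (hy : 2 ≤ y)
    (p : ℕ) (hp : p ∈ N.primeFactors) (hpL : log p ≤ Lb)
    (hall : ∀ P : ℕ, P.Prime → P ≠ 2 → P ∣ Sq N p → log P ≤ Lb) :
    ∃ (W : ℕ) (s : Finset ℕ) (a : ℕ → ℕ), s ⊆ N.primeFactors.filter (y < ·) ∧
      (∀ P ∈ s, P.Prime) ∧ (∀ P ∈ s, ¬ P ∣ p) ∧ (∀ P ∈ s, ¬ P ∣ W) ∧ 2 ≤ W ∧ Nat.Coprime p W ∧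
      p ^ (nn N p) = 1 + W * ∏ P ∈ s, P ^ (a P) ∧ (∀ P ∈ s, log P ≤ Lb) ∧
      log W ≤ (y : ℝ) ^ 2 * Lb + log (nn N p) + Lb := by
  classical
  have hpp : p.Prime := (Nat.mem_primeFactors.1 hp).1
  have hpN : p ∣ N := (Nat.mem_primeFactors.1 hp).2.1
  have h2N : ¬ 2 ∣ N := fun h => (Nat.not_even_iff_odd.2 hodd) (even_iff_two_dvd.2 h)
  have hp2 : p ≠ 2 := fun h => h2N (h ▸ hpN)
  have hp3 : 3 ≤ p := by have := hpp.two_le; omega
  have hn : 1 ≤ nn N p := Nat.succ_pos _
  have hpow : 1 < p ^ nn N p := Nat.one_lt_pow (by omega) hpp.one_lt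
  set M : ℕ := p ^ nn N p - 1 with hM
  have hM0 : M ≠ 0 := by omega
  have hMfac : M = (p - 1) * Sq N p := by
    have h : (p - 1) * Sq N p + 1 = p ^ nn N p := Sb.sg_pow hpp (N.factorization p)
    omega
  have hS0 : Sq N p ≠ 0 := (Sb.sg_pos (pow_pos hpp.pos _)).ne'
  have hp10 : p - 1 ≠ 0 := by omega
  have hSM : Sq N p ∣ M := ⟨p - 1, by rw [hMfac, mul_comm]⟩
  have hcopM : ∀ r : ℕ, r.Prime → r ∣ M → r ≠ p := by
    intro r hr hrM hrp
    have h1 : r ∣ p ^ nn N p := by rw [hrp]; exact dvd_pow_self p (by omega)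
    have h2 : r ∣ p ^ nn N p - M := Nat.dvd_sub h1 hrM
    have h3 : p ^ nn N p - M = 1 := by omega
    rw [h3] at h2
    exact hr.one_lt.ne' (Nat.dvd_one.1 h2)
  set s : Finset ℕ := (N.primeFactors.filter (y < ·)).filter (fun P => P ∣ Sq N p) with hs
  have hsub : s ⊆ M.primeFactors := by
    intro P hP
    obtain ⟨h1, h2⟩ := Finset.mem_filter.1 hP
    obtain ⟨h3, _⟩ := Finset.mem_filter.1 h1
    exact Nat.mem_primeFactors.2 ⟨(Nat.mem_primeFactors.1 h3).1, h2.trans hSM, hM0⟩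
  have hsp : ∀ P ∈ s, P.Prime := fun P hP => (Nat.mem_primeFactors.1 (hsub hP)).1
  have hs2 : ∀ P ∈ s, P ≠ 2 := by
    intro P hP h
    obtain ⟨h1, _⟩ := Finset.mem_filter.1 hP
    obtain ⟨h3, h4⟩ := Finset.mem_filter.1 h1
    omega
  set W : ℕ := ∏ r ∈ M.primeFactors \ s, r ^ M.factorization r with hW
  have hWM : W * ∏ P ∈ s, P ^ M.factorization P = M := by
    rw [hW, Finset.prod_sdiff hsub]
    exact Nat.prod_factorization_pow_eq_self hM0
  have hWdvd : W ∣ M := ⟨_, hWM.symm⟩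
  have hW0 : W ≠ 0 := fun h => hM0 (by rw [← hWM, h, zero_mul])
  have hWprime : ∀ r : ℕ, r.Prime → r ∣ W → r ∈ M.primeFactors \ s := by
    intro r hr hrW
    obtain ⟨q, hq, hrq⟩ := (hr.prime.dvd_finsetProd_iff _).1 hrW
    have h1 := hr.dvd_of_dvd_pow hrq
    have h2 : r = q := (Nat.prime_dvd_prime_iff_eq hr
      (Nat.mem_primeFactors.1 (Finset.mem_sdiff.1 hq).1).1).1 h1
    rw [h2]; exact hq
  have h2M : 2 ∣ M := by
    have h1 : Odd (p ^ nn N p) := (hpp.odd_of_ne_two hp2).pow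
    obtain ⟨k, hk⟩ := h1
    exact ⟨k, by omega⟩
  have h2W : 2 ∣ W := by
    have h3 : 2 ∈ M.primeFactors \ s := by
      rw [Finset.mem_sdiff]
      exact ⟨Nat.mem_primeFactors.2 ⟨Nat.prime_two, h2M, hM0⟩, fun h => hs2 2 h rfl⟩
    have h4 : 2 ^ M.factorization 2 ∣ W := Finset.dvd_prod_of_mem _ h3
    refine dvd_trans (dvd_pow_self 2 ?_) h4
    exact (Nat.Prime.factorization_pos_of_dvd Nat.prime_two hM0 h2M).ne'
  refine ⟨W, s, fun P => M.factorization P, Finset.filter_subset _ _, hsp, ?_, ?_, ?_, ?_, ?_, ?_, ?_⟩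
  · intro P hP hPp
    have h1 := (Nat.prime_dvd_prime_iff_eq (hsp P hP) hpp).1 hPp
    exact hcopM P (hsp P hP) (Nat.mem_primeFactors.1 (hsub hP)).2.1 h1
  · intro P hP hPW
    exact (Finset.mem_sdiff.1 (hWprime P (hsp P hP) hPW)).2 hP
  · exact Nat.le_of_dvd (Nat.pos_of_ne_zero hW0) h2W
  · rw [Nat.Prime.coprime_iff_not_dvd hpp]
    intro h
    exact hcopM p hpp (h.trans hWdvd) rfl
  · rw [hWM]; omega
  · intro P hP
    exact hall P (hsp P hP) (hs2 P hP) (Finset.mem_filter.1 hP).2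
  · have hlog : log (W : ℝ) = ∑ r ∈ M.primeFactors \ s, (M.factorization r : ℝ) * log r := by
      rw [hW, Nat.cast_prod, Real.log_prod]
      · refine Finset.sum_congr rfl fun r _ => ?_
        rw [Nat.cast_pow, Real.log_pow]
      · intro r hr
        have h1 : r ≠ 0 := (Nat.mem_primeFactors.1 (Finset.mem_sdiff.1 hr).1).1.ne_zero
        positivity
    rw [hlog, ← Finset.sum_filter_add_sum_filter_not (M.primeFactors \ s) (fun r => r ≤ y)]
    have hA : ∑ r ∈ (M.primeFactors \ s).filter (fun r => r ≤ y),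
        (M.factorization r : ℝ) * log r ≤ (y : ℝ) ^ 2 * log p + log (nn N p) := by
      refine le_trans ?_ (smooth_part_le p (nn N p) y hpp hp2 hn)
      refine Finset.sum_le_sum_of_subset_of_nonneg ?_ ?_
      · intro r hr
        obtain ⟨h1, h2⟩ := Finset.mem_filter.1 hr
        exact Finset.mem_filter.2 ⟨Finset.mem_range.2 (by omega),
          (Nat.mem_primeFactors.1 (Finset.mem_sdiff.1 h1).1).1⟩
      · intro r _ _
        exact mul_nonneg (Nat.cast_nonneg _) (Real.log_natCast_nonneg r)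
    have hB : ∑ r ∈ (M.primeFactors \ s).filter (fun r => ¬ r ≤ y),
        (M.factorization r : ℝ) * log r ≤ Lb := by
      have h1 : ∀ r ∈ (M.primeFactors \ s).filter (fun r => ¬ r ≤ y),
          (M.factorization r : ℝ) * log r = ((p - 1).factorization r : ℝ) * log r := by
        intro r hr
        obtain ⟨h1, h2⟩ := Finset.mem_filter.1 hr
        obtain ⟨h3, h4⟩ := Finset.mem_sdiff.1 h1
        have hrp := (Nat.mem_primeFactors.1 h3).1
        have h5 : ¬ r ∣ Sq N p := by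
          intro h
          have h6 := mem_of_dvd_Sq N hN p r hp hrp (by omega) h
          exact h4 (Finset.mem_filter.2 ⟨Finset.mem_filter.2 ⟨h6, by omega⟩, h⟩)
        rw [hMfac, Nat.factorization_mul hp10 hS0, Finsupp.add_apply,
          Nat.factorization_eq_zero_of_not_dvd h5, add_zero]
      rw [Finset.sum_congr rfl h1]
      refine (c5_sum_le (p - 1) _).trans (le_trans ?_ hpL)
      refine Real.log_le_log (by exact_mod_cast Nat.pos_of_ne_zero hp10) ?_
      exact_mod_cast Nat.sub_le _ _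
    have hC : (y : ℝ) ^ 2 * log p ≤ (y : ℝ) ^ 2 * Lb :=
      mul_le_mul_of_nonneg_left hpL (by positivity)
    linarith
-- END C5

-- BEGIN C6
/-- C6. bound of the exponents (C5, `baker` with `g = j`, `lam = Lb`, C4):
`1 + log W ≤ 4 Lb^3 (1 + log n)`, so `n ≤ 4 C Lb^(C+3) (1 + log n)^(C+1)`. -/
theorem J_bound (j : ℕ) : ∃ C : ℕ, 1 ≤ C ∧ ∀ (N y : ℕ) (Lb : ℝ), Odd N → Nat.Perfect N → 2 ≤ y →
    (N.primeFactors.filter (y < ·)).card ≤ j → (y : ℝ) ≤ Lb → ∀ p ∈ N.primeFactors, log p ≤ Lb →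
    (∀ P : ℕ, P.Prime → P ≠ 2 → P ∣ Sq N p → log P ≤ Lb) → (nn N p : ℝ) ≤ C * Lb ^ (8 * j + 8) := by
  obtain ⟨C, hC1, hC⟩ := baker_exp j
  obtain ⟨e, he⟩ : ∃ e, e = 8 * j + 4 := ⟨_, rfl⟩
  obtain ⟨m, hm⟩ : ∃ m, m = 8 * j + 7 := ⟨_, rfl⟩
  rw [← he] at hC
  refine ⟨(4 * C) ^ (m + 1) * ((m + 1) * (e + 1) + 1) ^ ((m + 1) * (e + 1)),
    Nat.mul_pos (pow_pos (by omega) _) (pow_pos (by omega) _), ?_⟩
  intro N y Lb hodd hN hy hcard hyL p hp hpL hall
  obtain ⟨W, s, a, hs, hsp, hsq, hsW, hW, hcop, heq, hsL, hWl⟩ :=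
    cofactor N y hodd hN Lb hy p hp hpL hall
  have hpp := Nat.prime_of_mem_primeFactors hp
  have hy2 : (2 : ℝ) ≤ y := by exact_mod_cast hy
  have hL2 : 2 ≤ Lb := hy2.trans hyL
  have hL1 : 1 ≤ Lb := by linarith
  have hL0 : 0 < Lb := by linarith
  have h := hC p W (nn N p) s a Lb ((card_le_card hs).trans hcard) hsp hsq hsW hpp.two_le hW
    (Nat.succ_le_succ (Nat.zero_le _)) hcop heq hL1 hpL hsL
  set n : ℝ := (nn N p : ℝ) with hn
  have hn1 : 1 ≤ n := by
    rw [hn]
    have : 1 ≤ nn N p := Nat.succ_le_succ (Nat.zero_le _)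
    exact_mod_cast this
  have hln : 0 ≤ log n := log_nonneg hn1
  have hC1' : (1 : ℝ) ≤ C := by exact_mod_cast hC1
  have h1 : 1 + log (W : ℝ) ≤ 4 * Lb ^ 3 * (1 + log n) := by
    have h2 : (y : ℝ) ^ 2 * Lb ≤ Lb ^ 3 := by
      have : (y : ℝ) ^ 2 ≤ Lb ^ 2 := pow_le_pow_left₀ (by linarith) hyL 2
      calc (y : ℝ) ^ 2 * Lb ≤ Lb ^ 2 * Lb := mul_le_mul_of_nonneg_right this hL0.le
        _ = Lb ^ 3 := by ring
    have h3 : 1 ≤ Lb ^ 3 := one_le_pow₀ hL1
    have h4 : Lb ≤ Lb ^ 3 := by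
      calc Lb = Lb ^ 1 := by ring
        _ ≤ Lb ^ 3 := pow_le_pow_right₀ hL1 (by norm_num)
    have h5 : log n ≤ Lb ^ 3 * log n := le_mul_of_one_le_left hln h3
    have h6 : 0 ≤ Lb ^ 3 * log n := by positivity
    nlinarith
  have h2 : n ≤ (4 * C * Lb ^ m) * (1 + log n) ^ (e + 1) := by
    calc n ≤ C * (Lb * (1 + log n)) ^ e * (1 + log (W : ℝ)) := h
      _ ≤ C * (Lb * (1 + log n)) ^ e * (4 * Lb ^ 3 * (1 + log n)) :=
          mul_le_mul_of_nonneg_left h1 (by positivity)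
      _ = (4 * C * Lb ^ m) * (1 + log n) ^ (e + 1) := by
          have : m = e + 3 := by omega
          rw [this, mul_pow, pow_add, pow_add]; ring
  have hA : 1 ≤ 4 * (C : ℝ) * Lb ^ m := by
    have : 1 ≤ Lb ^ m := one_le_pow₀ hL1
    nlinarith
  have h3 := absorb_exp (e + 1) m (by omega) _ n hA hn1 h2
  obtain ⟨F, hF⟩ : ∃ F : ℕ, F = ((m + 1) * (e + 1) + 1) ^ ((m + 1) * (e + 1)) := ⟨_, rfl⟩
  rw [← hF]
  have hF1 : 1 ≤ F := by rw [hF]; exact Nat.one_le_pow _ _ (Nat.succ_pos _)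
  have hFr : (((m : ℝ) + 1) * ((e + 1 : ℕ) : ℝ) + 1) ^ ((m + 1) * (e + 1)) = (F : ℝ) := by
    rw [hF]; push_cast; rfl
  rw [hFr] at h3
  obtain ⟨D, hD⟩ : ∃ D : ℕ, D = (4 * C) ^ (m + 1) * F := ⟨_, rfl⟩
  rw [← hD]
  have hD1 : (1 : ℝ) ≤ D := by
    have : 1 ≤ D := by rw [hD]; exact Nat.mul_pos (pow_pos (by omega) _) hF1
    exact_mod_cast this
  have h4 : n ^ m ≤ ((D : ℝ) * Lb ^ (m + 1)) ^ m := by
    calc n ^ m ≤ _ := h3
      _ = (D : ℝ) * (Lb ^ (m + 1)) ^ m := by
          rw [hD, mul_pow, ← pow_mul, ← pow_mul, mul_comm m (m + 1)]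
          push_cast
          ring
      _ ≤ (D : ℝ) ^ m * (Lb ^ (m + 1)) ^ m := by
          apply mul_le_mul_of_nonneg_right _ (by positivity)
          exact le_self_pow₀ hD1 (by omega)
      _ = ((D : ℝ) * Lb ^ (m + 1)) ^ m := by rw [mul_pow]
  have h5 := le_of_pow_le_pow_left₀ (by omega : m ≠ 0) (by positivity) h4
  have h6 : m + 1 = 8 * j + 8 := by omega
  rw [h6] at h5
  exact h5
-- END C6

-- BEGIN C7
private lemma c7_lt (N p : ℕ) (hp : p ∈ N.primeFactors) : p ^ N.factorization p < Sq N p := by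
  have hpp : p.Prime := (Nat.mem_primeFactors.1 hp).1
  have hN : N ≠ 0 := (Nat.mem_primeFactors.1 hp).2.2
  have he : 0 < N.factorization p :=
    Nat.Prime.factorization_pos_of_dvd hpp hN (Nat.mem_primeFactors.1 hp).2.1
  have h : (p - 1) * Sq N p + 1 = p ^ nn N p := Sb.sg_pow hpp (N.factorization p)
  have h1 : 1 < p ^ N.factorization p := Nat.one_lt_pow he.ne' hpp.one_lt
  have h2 : p ^ nn N p = (p - 1) * p ^ N.factorization p + p ^ N.factorization p := by
    have h3 : p ^ nn N p = p ^ N.factorization p * p := pow_succ _ _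
    have h4 : p ^ N.factorization p * p = p ^ N.factorization p * (p - 1 + 1) := by
      rw [Nat.sub_add_cancel hpp.one_lt.le]
    rw [h3, h4]
    ring
  have h3 : (p - 1) * p ^ N.factorization p < (p - 1) * Sq N p := by omega
  exact Nat.lt_of_mul_lt_mul_left h3

/-- C7. `R ≠ 1`.  `LL ⊆ N.primeFactors` proper subset, `J ⊆ LL`, and the odd primes of `σ(p^e)`, `p ∈ J`, arbitrary.
Claim `2 ∏_{LL} (p-1) ∏_J p^(n_p) ≠ ∏_{LL} p ∏_J (p^(n_p) - 1)`.
Suppose equality. `D = ∏_J p^(e_p)`; `p^(n_p) = p p^(e_p)`, `p^(n_p) - 1 = (p-1) σ(p^(e_p))`.  Cancelling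
`∏_J p ∏_J (p-1)`: `2 D ∏_{LL \ J} (p-1) = σ(D) ∏_{LL \ J} p`.  If `LL \ J ≠ ∅` its largest prime divides the right
side but not the left (odd; `D` is composed of `J`; `0 < p - 1 <` it).  If `LL = J`: `σ(D) = 2 D`, `N = D E`,
`(D,E) = 1`, `σ(E) = E`, so `E = 1` and `LL` is everything, contradiction. -/
lemma R_ne_one (N : ℕ) (hodd : Odd N) (hN : Nat.Perfect N) (LL J : Finset ℕ)
    (hLL : LL ⊂ N.primeFactors) (hJ : J ⊆ LL) :
    2 * (∏ p ∈ LL, (p - 1)) * (∏ p ∈ J, p ^ nn N p) ≠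
      (∏ p ∈ LL, p) * ∏ p ∈ J, (p ^ nn N p - 1) := by
  classical
  intro heq
  have hsub : LL ⊆ N.primeFactors := hLL.1
  have hN0 : N ≠ 0 := hN.2.ne'
  have hprime : ∀ p ∈ LL, p.Prime := fun p hp => (Nat.mem_primeFactors.1 (hsub hp)).1
  have e1 : ∏ p ∈ J, p ^ nn N p = (∏ p ∈ J, p) * ∏ p ∈ J, p ^ N.factorization p := by
    rw [← Finset.prod_mul_distrib]
    exact Finset.prod_congr rfl fun p _ => pow_succ' _ _
  have e2 : ∏ p ∈ J, (p ^ nn N p - 1) = (∏ p ∈ J, (p - 1)) * ∏ p ∈ J, Sq N p := by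
    rw [← Finset.prod_mul_distrib]
    refine Finset.prod_congr rfl fun p hp => ?_
    have h : (p - 1) * Sq N p + 1 = p ^ nn N p := Sb.sg_pow (hprime p (hJ hp)) (N.factorization p)
    omega
  have e3 : ∏ p ∈ LL, (p - 1) = (∏ p ∈ LL \ J, (p - 1)) * ∏ p ∈ J, (p - 1) :=
    (Finset.prod_sdiff hJ).symm
  have e4 : ∏ p ∈ LL, p = (∏ p ∈ LL \ J, p) * ∏ p ∈ J, p := (Finset.prod_sdiff hJ).symm
  have hJp : 0 < ∏ p ∈ J, p := Finset.prod_pos fun p hp => (hprime p (hJ hp)).pos
  have hJp1 : 0 < ∏ p ∈ J, (p - 1) := Finset.prod_pos fun p hp => by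
    have := (hprime p (hJ hp)).one_lt
    omega
  have hmain : 2 * (∏ p ∈ J, p ^ N.factorization p) * ∏ p ∈ LL \ J, (p - 1) =
      (∏ p ∈ J, Sq N p) * ∏ p ∈ LL \ J, p := by
    rw [e1, e2, e3, e4] at heq
    have h5 : ((∏ p ∈ J, p) * ∏ p ∈ J, (p - 1)) *
        (2 * (∏ p ∈ J, p ^ N.factorization p) * ∏ p ∈ LL \ J, (p - 1)) =
        ((∏ p ∈ J, p) * ∏ p ∈ J, (p - 1)) * ((∏ p ∈ J, Sq N p) * ∏ p ∈ LL \ J, p) := by
      calc _ = 2 * ((∏ p ∈ LL \ J, (p - 1)) * ∏ p ∈ J, (p - 1)) *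
            ((∏ p ∈ J, p) * ∏ p ∈ J, p ^ N.factorization p) := by ring
        _ = _ := by rw [heq]; ring
    exact Nat.eq_of_mul_eq_mul_left (Nat.mul_pos hJp hJp1) h5
  rcases (LL \ J).eq_empty_or_nonempty with hemp | hne
  · rw [hemp, Finset.prod_empty, Finset.prod_empty, mul_one, mul_one] at hmain
    have hLJ : LL = J := Finset.Subset.antisymm (Finset.sdiff_eq_empty_iff_subset.1 hemp) hJ
    have hJsub : J ⊆ N.primeFactors := hJ.trans hsub
    have h1 := prod_Sq N hN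
    rw [← Finset.prod_sdiff hJsub, ← hmain] at h1
    have h2 : N = (∏ p ∈ N.primeFactors \ J, p ^ N.factorization p) *
        ∏ p ∈ J, p ^ N.factorization p := by
      rw [Finset.prod_sdiff hJsub]
      exact (Nat.prod_factorization_pow_eq_self hN0).symm
    have hD : 0 < ∏ p ∈ J, p ^ N.factorization p :=
      Finset.prod_pos fun p hp => pow_pos (hprime p (hJ hp)).pos _
    have h3 : (∏ p ∈ N.primeFactors \ J, Sq N p) =
        ∏ p ∈ N.primeFactors \ J, p ^ N.factorization p := by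
      have h4 : (2 * ∏ p ∈ J, p ^ N.factorization p) * (∏ p ∈ N.primeFactors \ J, Sq N p) =
          (2 * ∏ p ∈ J, p ^ N.factorization p) *
            ∏ p ∈ N.primeFactors \ J, p ^ N.factorization p := by
        calc _ = (∏ p ∈ N.primeFactors \ J, Sq N p) * (2 * ∏ p ∈ J, p ^ N.factorization p) := by
              ring
          _ = 2 * N := h1
          _ = 2 * ((∏ p ∈ N.primeFactors \ J, p ^ N.factorization p) *
            ∏ p ∈ J, p ^ N.factorization p) := by rw [← h2]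
          _ = _ := by ring
      exact Nat.eq_of_mul_eq_mul_left (by omega) h4
    have hne : (N.primeFactors \ J).Nonempty := by
      rw [Finset.sdiff_nonempty]
      intro h
      exact hLL.2 (h.trans hJ)
    have h5 : ∏ p ∈ N.primeFactors \ J, p ^ N.factorization p <
        ∏ p ∈ N.primeFactors \ J, Sq N p := by
      refine Finset.prod_lt_prod_of_nonempty ?_ ?_ hne
      · intro p hp
        exact pow_pos (Nat.mem_primeFactors.1 (Finset.mem_sdiff.1 hp).1).1.pos _
      · intro p hp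
        exact c7_lt N p (Finset.mem_sdiff.1 hp).1
    omega
  · set P := (LL \ J).max' hne with hP
    have hPmem : P ∈ LL \ J := Finset.max'_mem _ _
    have hPp : P.Prime := hprime P (Finset.mem_sdiff.1 hPmem).1
    have hPN : P ∣ N := (Nat.mem_primeFactors.1 (hsub (Finset.mem_sdiff.1 hPmem).1)).2.1
    have hd : P ∣ 2 * (∏ p ∈ J, p ^ N.factorization p) * ∏ p ∈ LL \ J, (p - 1) := by
      rw [hmain]
      exact Dvd.dvd.mul_left (Finset.dvd_prod_of_mem _ hPmem) _
    rcases (hPp.dvd_mul).1 hd with h1 | h1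
    · rcases (hPp.dvd_mul).1 h1 with h2 | h2
      · have h3 : P = 2 := (Nat.prime_dvd_prime_iff_eq hPp Nat.prime_two).1 h2
        rw [h3] at hPN
        exact (Nat.not_even_iff_odd.2 hodd) (even_iff_two_dvd.2 hPN)
      · obtain ⟨q, hq, hPq⟩ := (hPp.prime.dvd_finsetProd_iff _).1 h2
        have h3 := hPp.dvd_of_dvd_pow hPq
        have h4 : P = q := (Nat.prime_dvd_prime_iff_eq hPp (hprime q (hJ hq))).1 h3
        exact (Finset.mem_sdiff.1 hPmem).2 (h4 ▸ hq)
    · obtain ⟨q, hq, hPq⟩ := (hPp.prime.dvd_finsetProd_iff _).1 h1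
      have h3 : q ≤ P := Finset.le_max' _ _ hq
      have h4 := (hprime q (Finset.mem_sdiff.1 hq).1).one_lt
      have h5 := Nat.le_of_dvd (by omega) hPq
      omega
-- END C7

-- BEGIN C8
private lemma c8_log (x : ℝ) (hx : 1 < x) :
    0 ≤ log x - log (x - 1) ∧ log x - log (x - 1) ≤ 1 / (x - 1) := by
  have h0 : 0 < x - 1 := by linarith
  constructor
  · have := Real.log_le_log h0 (by linarith : x - 1 ≤ x)
    linarith
  · rw [← Real.log_div (by linarith) h0.ne']
    have h1 := Real.log_le_sub_one_of_pos (show 0 < x / (x - 1) by positivity)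
    have h2 : x / (x - 1) - 1 = 1 / (x - 1) := by
      field_simp
      ring
    rwa [h2] at h1

private lemma c8_nat (m : ℕ) (hm : 2 ≤ m) :
    0 ≤ log (m : ℝ) - log ((m - 1 : ℕ) : ℝ) ∧
      log (m : ℝ) - log ((m - 1 : ℕ) : ℝ) ≤ 1 / ((m : ℝ) - 1) := by
  have h : ((m - 1 : ℕ) : ℝ) = (m : ℝ) - 1 := by
    rw [Nat.cast_sub (by omega), Nat.cast_one]
  rw [h]
  exact c8_log m (by exact_mod_cast (show 1 < m by omega))

/-- C8. the value of `R` in two ways:
`log 2 + ∑_{LL} log ((p-1)/p) - ∑_J log (1 - 1/p^(n_p)) = ∑_{not LL} log (p/(p-1)) + ∑_{not J} log (1 - 1/p^(n_p))`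
(from `prod_Sq`: `∏ (p^(n_p) - 1)/(p-1) = 2 ∏ p^(e_p)`), and the right side has absolute value at most
`ω(N)/(ps - 1)` if all primes outside `LL` are `≥ ps` and all `p^(n_p)`, `p ∉ J`, are `≥ ps`
(the two sums have opposite signs; `log (p/(p-1)) ≤ 1/(p-1)`, `- log (1 - 1/x) ≤ 1/(x-1)`). -/
lemma R_close (N : ℕ) (hodd : Odd N) (hN : Nat.Perfect N) (LL J : Finset ℕ)
    (hLL : LL ⊆ N.primeFactors) (hJ : J ⊆ LL) (ps : ℕ) (hps : 2 ≤ ps)
    (h1 : ∀ p ∈ N.primeFactors, p ∉ LL → ps ≤ p)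
    (h2 : ∀ p ∈ N.primeFactors, p ∉ J → ps ≤ p ^ nn N p) :
    |log ((2 * (∏ p ∈ LL, (p - 1)) * (∏ p ∈ J, p ^ nn N p) : ℕ) : ℝ) -
      log (((∏ p ∈ LL, p) * ∏ p ∈ J, (p ^ nn N p - 1) : ℕ) : ℝ)| ≤
      (N.primeFactors.card : ℝ) / ((ps : ℝ) - 1) := by
  classical
  have hJsub : J ⊆ N.primeFactors := hJ.trans hLL
  have hN0 : N ≠ 0 := hN.2.ne'
  have hprime : ∀ p ∈ N.primeFactors, p.Prime := fun p hp => (Nat.mem_primeFactors.1 hp).1
  have hpow2 : ∀ p ∈ N.primeFactors, 2 ≤ p ^ nn N p := fun p hp =>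
    Nat.one_lt_pow (Nat.succ_ne_zero _) (hprime p hp).one_lt
  have hA : log ((2 * (∏ p ∈ LL, (p - 1)) * (∏ p ∈ J, p ^ nn N p) : ℕ) : ℝ) =
      log 2 + ∑ p ∈ LL, log ((p - 1 : ℕ) : ℝ) + ∑ p ∈ J, log ((p ^ nn N p : ℕ) : ℝ) := by
    rw [Nat.cast_mul, Nat.cast_mul, Nat.cast_prod, Nat.cast_prod, Nat.cast_ofNat]
    have a1 : ∏ p ∈ LL, ((p - 1 : ℕ) : ℝ) ≠ 0 := by
      rw [Finset.prod_ne_zero_iff]
      intro p hp
      have := (hprime p (hLL hp)).one_lt
      exact_mod_cast (show p - 1 ≠ 0 by omega)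
    have a2 : ∏ p ∈ J, ((p ^ nn N p : ℕ) : ℝ) ≠ 0 := by
      rw [Finset.prod_ne_zero_iff]
      intro p hp
      have := hpow2 p (hJsub hp)
      exact_mod_cast (show p ^ nn N p ≠ 0 by omega)
    rw [Real.log_mul (mul_ne_zero (by norm_num) a1) a2, Real.log_mul (by norm_num) a1,
      Real.log_prod (fun p hp => ?_), Real.log_prod (fun p hp => ?_)]
    · rw [Finset.prod_ne_zero_iff] at a2; exact a2 p hp
    · rw [Finset.prod_ne_zero_iff] at a1; exact a1 p hp
  have hB : log (((∏ p ∈ LL, p) * ∏ p ∈ J, (p ^ nn N p - 1) : ℕ) : ℝ) =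
      ∑ p ∈ LL, log (p : ℝ) + ∑ p ∈ J, log ((p ^ nn N p - 1 : ℕ) : ℝ) := by
    rw [Nat.cast_mul, Nat.cast_prod, Nat.cast_prod]
    have a1 : ∏ p ∈ LL, (p : ℝ) ≠ 0 := by
      rw [Finset.prod_ne_zero_iff]
      intro p hp
      exact_mod_cast (hprime p (hLL hp)).ne_zero
    have a2 : ∏ p ∈ J, ((p ^ nn N p - 1 : ℕ) : ℝ) ≠ 0 := by
      rw [Finset.prod_ne_zero_iff]
      intro p hp
      have := hpow2 p (hJsub hp)
      exact_mod_cast (show p ^ nn N p - 1 ≠ 0 by omega)
    rw [Real.log_mul a1 a2, Real.log_prod (fun p hp => ?_), Real.log_prod (fun p hp => ?_)]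
    · rw [Finset.prod_ne_zero_iff] at a2; exact a2 p hp
    · rw [Finset.prod_ne_zero_iff] at a1; exact a1 p hp
  -- the identity from perfectness
  have hlogS : ∀ p ∈ N.primeFactors, log ((p - 1 : ℕ) : ℝ) + log ((Sq N p : ℕ) : ℝ) =
      log ((p ^ nn N p - 1 : ℕ) : ℝ) := by
    intro p hp
    have h : (p - 1) * Sq N p + 1 = p ^ nn N p := Sb.sg_pow (hprime p hp) (N.factorization p)
    have h' : p ^ nn N p - 1 = (p - 1) * Sq N p := by omega
    have hS0 : Sq N p ≠ 0 := (Sb.sg_pos (pow_pos (hprime p hp).pos _)).ne'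
    have hp10 : p - 1 ≠ 0 := by have := (hprime p hp).one_lt; omega
    rw [h', Nat.cast_mul, Real.log_mul (by exact_mod_cast hp10) (by exact_mod_cast hS0)]
  have hk : ∀ p ∈ N.primeFactors, log ((p ^ nn N p : ℕ) : ℝ) =
      (N.factorization p : ℝ) * log p + log p := by
    intro p hp
    rw [Nat.cast_pow, Real.log_pow]
    push_cast
    ring
  have hid : log 2 = ∑ p ∈ N.primeFactors, (log (p : ℝ) - log ((p - 1 : ℕ) : ℝ)) -
      ∑ p ∈ N.primeFactors, (log ((p ^ nn N p : ℕ) : ℝ) - log ((p ^ nn N p - 1 : ℕ) : ℝ)) := by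
    have e1 := prod_Sq N hN
    have e2 : log ((∏ q ∈ N.primeFactors, Sq N q : ℕ) : ℝ) = log 2 + log (N : ℝ) := by
      rw [e1, Nat.cast_mul, Nat.cast_ofNat, Real.log_mul (by norm_num) (by exact_mod_cast hN0)]
    have e3 : log ((∏ q ∈ N.primeFactors, Sq N q : ℕ) : ℝ) =
        ∑ q ∈ N.primeFactors, log ((Sq N q : ℕ) : ℝ) := by
      rw [Nat.cast_prod, Real.log_prod]
      intro p hp
      exact_mod_cast (Sb.sg_pos (pow_pos (hprime p hp).pos _)).ne'
    have e4 : log (N : ℝ) = ∑ p ∈ N.primeFactors, (N.factorization p : ℝ) * log p := by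
      rw [Real.log_nat_eq_sum_factorization, Finsupp.sum, Nat.support_factorization]
    have e5 : ∑ q ∈ N.primeFactors, log ((Sq N q : ℕ) : ℝ) =
        ∑ q ∈ N.primeFactors, (log ((q ^ nn N q - 1 : ℕ) : ℝ) - log ((q - 1 : ℕ) : ℝ)) := by
      refine Finset.sum_congr rfl fun p hp => ?_
      rw [← hlogS p hp]
      ring
    have e6 : ∑ p ∈ N.primeFactors, (N.factorization p : ℝ) * log p =
        ∑ p ∈ N.primeFactors, (log ((p ^ nn N p : ℕ) : ℝ) - log (p : ℝ)) := by
      refine Finset.sum_congr rfl fun p hp => ?_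
      rw [hk p hp]
      ring
    rw [e3, e5, e4, e6] at e2
    simp only [Finset.sum_sub_distrib] at e2 ⊢
    linarith
  have hps0 : (0 : ℝ) < (ps : ℝ) - 1 := by
    have : (2 : ℝ) ≤ ps := by exact_mod_cast hps
    linarith
  have hS1 : ∑ p ∈ N.primeFactors \ LL, (log (p : ℝ) - log ((p - 1 : ℕ) : ℝ)) =
      ∑ p ∈ N.primeFactors, (log (p : ℝ) - log ((p - 1 : ℕ) : ℝ)) -
        ∑ p ∈ LL, (log (p : ℝ) - log ((p - 1 : ℕ) : ℝ)) := by
    rw [← Finset.sum_sdiff hLL]
    ring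
  have hS2 : ∑ p ∈ N.primeFactors \ J,
        (log ((p ^ nn N p : ℕ) : ℝ) - log ((p ^ nn N p - 1 : ℕ) : ℝ)) =
      ∑ p ∈ N.primeFactors, (log ((p ^ nn N p : ℕ) : ℝ) - log ((p ^ nn N p - 1 : ℕ) : ℝ)) -
        ∑ p ∈ J, (log ((p ^ nn N p : ℕ) : ℝ) - log ((p ^ nn N p - 1 : ℕ) : ℝ)) := by
    rw [← Finset.sum_sdiff hJsub]
    ring
  have hdiff : log ((2 * (∏ p ∈ LL, (p - 1)) * (∏ p ∈ J, p ^ nn N p) : ℕ) : ℝ) -
      log (((∏ p ∈ LL, p) * ∏ p ∈ J, (p ^ nn N p - 1) : ℕ) : ℝ) =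
      ∑ p ∈ N.primeFactors \ LL, (log (p : ℝ) - log ((p - 1 : ℕ) : ℝ)) -
      ∑ p ∈ N.primeFactors \ J,
        (log ((p ^ nn N p : ℕ) : ℝ) - log ((p ^ nn N p - 1 : ℕ) : ℝ)) := by
    rw [hA, hB, hS1, hS2, hid]
    simp only [Finset.sum_sub_distrib]
    ring
  have hb : ∀ (S : Finset ℕ) (f : ℕ → ℝ), S ⊆ N.primeFactors →
      (∀ p ∈ S, 0 ≤ f p ∧ f p ≤ 1 / ((ps : ℝ) - 1)) →
      0 ≤ ∑ p ∈ S, f p ∧ ∑ p ∈ S, f p ≤ (N.primeFactors.card : ℝ) / ((ps : ℝ) - 1) := by
    intro S f hS hf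
    refine ⟨Finset.sum_nonneg fun p hp => (hf p hp).1, ?_⟩
    refine (Finset.sum_le_sum fun p hp => (hf p hp).2).trans ?_
    rw [Finset.sum_const, nsmul_eq_mul, mul_one_div]
    exact div_le_div_of_nonneg_right (by exact_mod_cast Finset.card_le_card hS) hps0.le
  have hle : ∀ m : ℕ, ps ≤ m → 1 / ((m : ℝ) - 1) ≤ 1 / ((ps : ℝ) - 1) := by
    intro m hm
    refine one_div_le_one_div_of_le hps0 ?_
    have : (ps : ℝ) ≤ m := by exact_mod_cast hm
    linarith
  have hb1 := hb (N.primeFactors \ LL) (fun p => log (p : ℝ) - log ((p - 1 : ℕ) : ℝ))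
    Finset.sdiff_subset (by
      intro p hp
      obtain ⟨h3, h4⟩ := Finset.mem_sdiff.1 hp
      have h5 := c8_nat p (hprime p h3).two_le
      exact ⟨h5.1, h5.2.trans (hle p (h1 p h3 h4))⟩)
  have hb2 := hb (N.primeFactors \ J)
    (fun p => log ((p ^ nn N p : ℕ) : ℝ) - log ((p ^ nn N p - 1 : ℕ) : ℝ))
    Finset.sdiff_subset (by
      intro p hp
      obtain ⟨h3, h4⟩ := Finset.mem_sdiff.1 hp
      have h5 := c8_nat (p ^ nn N p) (hpow2 p h3)
      exact ⟨h5.1, h5.2.trans (hle _ (h2 p h3 h4))⟩)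
  rw [hdiff, abs_le]
  constructor <;> linarith [hb1.1, hb1.2, hb2.1, hb2.2]
-- END C8

-- BEGIN C9
/-- C9. two different positive integers `a, b ≤ M` have `|log a - log b| ≥ 1 / M`
(`a < b`: `log b - log a ≥ log b - log (b-1) ≥ 1/b`). -/
lemma log_sub_ge (a b M : ℕ) (ha : 0 < a) (hb : 0 < b) (hab : a ≠ b) (haM : a ≤ M) (hbM : b ≤ M) :
    1 / (M : ℝ) ≤ |log (a : ℝ) - log (b : ℝ)| := by
  wlog h : a < b generalizing a b
  · have := this b a hb ha hab.symm hbM haM (lt_of_le_of_ne (not_lt.1 h) hab.symm)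
    rwa [abs_sub_comm] at this
  have ha' : (0 : ℝ) < a := by exact_mod_cast ha
  have hb' : (0 : ℝ) < b := by exact_mod_cast hb
  have hM' : (b : ℝ) ≤ M := by exact_mod_cast hbM
  have h1 : (a : ℝ) + 1 ≤ b := by exact_mod_cast h
  have h2 := Real.one_sub_inv_le_log_of_pos (div_pos hb' ha')
  rw [log_div hb'.ne' ha'.ne', inv_div] at h2
  have h3 : 1 / (M : ℝ) ≤ 1 / b := one_div_le_one_div_of_le hb' hM'
  have h4 : 1 / (b : ℝ) ≤ 1 - a / b := by
    rw [le_sub_iff_add_le, ← add_div, div_le_one hb']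
    linarith
  rw [abs_sub_comm]
  exact (h3.trans (h4.trans h2)).trans (le_abs_self _)

/-- C9. combination of C7, C8 and the first part: `ps - 1 ≤ 2 ω(N) ∏_{LL} p ∏_J p^(n_p)`. -/
lemma ps_le (N : ℕ) (hodd : Odd N) (hN : Nat.Perfect N) (LL J : Finset ℕ)
    (hLL : LL ⊂ N.primeFactors) (hJ : J ⊆ LL) (ps : ℕ) (hps : 2 ≤ ps)
    (h1 : ∀ p ∈ N.primeFactors, p ∉ LL → ps ≤ p)
    (h2 : ∀ p ∈ N.primeFactors, p ∉ J → ps ≤ p ^ nn N p) :
    (ps : ℝ) - 1 ≤ 2 * N.primeFactors.card * (∏ p ∈ LL, (p : ℝ)) * ∏ p ∈ J, (p : ℝ) ^ nn N p := by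
  have hne := R_ne_one N hodd hN LL J hLL hJ
  have hcl := R_close N hodd hN LL J hLL.1 hJ ps hps h1 h2
  have hprime : ∀ p ∈ LL, p.Prime := fun p hp => Nat.prime_of_mem_primeFactors (hLL.1 hp)
  set a : ℕ := 2 * (∏ p ∈ LL, (p - 1)) * (∏ p ∈ J, p ^ nn N p) with ha
  set b : ℕ := (∏ p ∈ LL, p) * ∏ p ∈ J, (p ^ nn N p - 1) with hb
  set M : ℕ := 2 * (∏ p ∈ LL, p) * (∏ p ∈ J, p ^ nn N p) with hM
  have hapos : 0 < a := by
    refine Nat.mul_pos (Nat.mul_pos two_pos ?_) ?_
    · exact Finset.prod_pos fun p hp => by have := (hprime p hp).two_le; omega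
    · exact Finset.prod_pos fun p hp => pow_pos (hprime p (hJ hp)).pos _
  have hbpos : 0 < b := by
    refine Nat.mul_pos ?_ ?_
    · exact Finset.prod_pos fun p hp => (hprime p hp).pos
    · refine Finset.prod_pos fun p hp => ?_
      have : 1 < p ^ nn N p := Nat.one_lt_pow (Nat.succ_ne_zero _) (hprime p (hJ hp)).one_lt
      omega
  have hMpos : 0 < M := by
    refine Nat.mul_pos (Nat.mul_pos two_pos ?_) ?_
    · exact Finset.prod_pos fun p hp => (hprime p hp).pos
    · exact Finset.prod_pos fun p hp => pow_pos (hprime p (hJ hp)).pos _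
  have haM : a ≤ M := by
    refine Nat.mul_le_mul_right _ (Nat.mul_le_mul_left _ ?_)
    exact Finset.prod_le_prod' fun p _ => Nat.sub_le _ _
  have hbM : b ≤ M := by
    have e1 : b ≤ (∏ p ∈ LL, p) * ∏ p ∈ J, p ^ nn N p :=
      Nat.mul_le_mul_left _ (Finset.prod_le_prod' fun p _ => Nat.sub_le _ _)
    refine e1.trans ?_
    rw [hM]
    calc (∏ p ∈ LL, p) * ∏ p ∈ J, p ^ nn N p
        ≤ 2 * ((∏ p ∈ LL, p) * ∏ p ∈ J, p ^ nn N p) := by omega
      _ = 2 * (∏ p ∈ LL, p) * ∏ p ∈ J, p ^ nn N p := by ring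
  have h3 := log_sub_ge a b M hapos hbpos hne haM hbM
  have h4 := h3.trans hcl
  have hM' : (0 : ℝ) < M := by exact_mod_cast hMpos
  have hps' : (0 : ℝ) < (ps : ℝ) - 1 := by
    have : (2 : ℝ) ≤ ps := by exact_mod_cast hps
    linarith
  rw [div_le_div_iff₀ hM' hps', one_mul] at h4
  refine h4.trans (le_of_eq ?_)
  rw [hM]
  push_cast
  ring
-- END C9

-- BEGIN C10
lemma c10_card (N y j : ℕ) (Lb : ℝ) (hy : 2 ≤ y) (hc : (N.primeFactors.filter (y < ·)).card ≤ j)
    (hyL : (y : ℝ) ≤ Lb) : (N.primeFactors.card : ℝ) ≤ (j + 1) * Lb := by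
  have h1 : N.primeFactors.card ≤ j + y := by
    have h2 := Finset.card_filter_add_card_filter_not (s := N.primeFactors) (fun p => y < p)
    have h3 : (N.primeFactors.filter (fun p => ¬ y < p)).card ≤ y := by
      have h4 : N.primeFactors.filter (fun p => ¬ y < p) ⊆ Finset.Icc 1 y := by
        intro p hp
        rw [Finset.mem_filter] at hp
        rw [Finset.mem_Icc]
        have := (Nat.prime_of_mem_primeFactors hp.1).one_lt
        exact ⟨this.le, not_lt.1 hp.2⟩
      have h5 := Finset.card_le_card h4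
      rw [Nat.card_Icc] at h5
      omega
    omega
  have h2 : (N.primeFactors.card : ℝ) ≤ j + y := by exact_mod_cast h1
  have h3 : (2 : ℝ) ≤ y := by exact_mod_cast hy
  have h4 : (0 : ℝ) ≤ j := Nat.cast_nonneg j
  nlinarith

lemma c10_sg_le (p a : ℕ) (hp : p.Prime) : Sb.sg (p ^ a) < p ^ (a + 1) := by
  have h := Sb.sg_pow hp a
  have h1 : 1 ≤ p - 1 := by have := hp.two_le; omega
  nlinarith [Nat.mul_le_mul_right (Sb.sg (p ^ a)) h1]

/-- C10. the gap theorem.  `ps` = the least prime of `N` with `log > Lb`; `LL = {p : log p ≤ Lb}`,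
`J = {p ∈ LL : all odd primes P of Sq N p have log P ≤ Lb}`.  `p ∉ LL` gives `p ≥ ps`;
`p ∈ LL \ J`: some odd prime `P ∣ Sq N p` with `log P > Lb`, `P ∣ N` (C1) so `ps ≤ P ≤ Sq N p < p^(n_p)`.
C9 and C6 (`n_p ≤ C Lb^C` on `J`): `ps ≤ 1 + 2 ω ∏_{LL} p ∏_J p^(n_p)`, `ω = card primeFactors ≤ y + j ≤ (1+j) Lb`,
`log ps ≤ log 4 + log ω + ω Lb + ω C Lb^C Lb ≤ C' Lb^C'`. -/
theorem gap (j : ℕ) : ∃ C : ℕ, 1 ≤ C ∧ ∀ (N y : ℕ) (Lb : ℝ), Odd N → Nat.Perfect N → 2 ≤ y →
    (N.primeFactors.filter (y < ·)).card ≤ j → (y : ℝ) ≤ Lb →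
    (∃ p ∈ N.primeFactors, Lb < log p) →
    ∃ p ∈ N.primeFactors, Lb < log p ∧ log p ≤ C * Lb ^ (8 * j + 10) := by
  obtain ⟨C1, hC1, hJ⟩ := J_bound j
  refine ⟨3 + (j + 1) * (C1 + 2), by omega, ?_⟩
  intro N y Lb hodd hN hy hc hyL hex
  classical
  set F := N.primeFactors.filter (fun p : ℕ => Lb < log (p : ℝ)) with hF
  have hFne : F.Nonempty := by
    obtain ⟨p, hp, hpL⟩ := hex
    exact ⟨p, by rw [hF, Finset.mem_filter]; exact ⟨hp, hpL⟩⟩
  obtain ⟨ps, hps⟩ : ∃ ps, ps = F.min' hFne := ⟨_, rfl⟩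
  have hpsF : ps ∈ F := hps ▸ Finset.min'_mem F hFne
  have hpsmin : ∀ p ∈ F, ps ≤ p := fun p hp => hps ▸ Finset.min'_le F p hp
  rw [hF, Finset.mem_filter] at hpsF
  obtain ⟨hpsN, hpsL⟩ := hpsF
  have hpsP := Nat.prime_of_mem_primeFactors hpsN
  refine ⟨ps, hpsN, hpsL, ?_⟩
  set LL := N.primeFactors.filter (fun p : ℕ => log (p : ℝ) ≤ Lb) with hLL
  set J := LL.filter (fun p : ℕ => ∀ P : ℕ, P.Prime → P ≠ 2 → P ∣ Sq N p → log (P : ℝ) ≤ Lb)
    with hJdef
  have hLLsub : LL ⊆ N.primeFactors := Finset.filter_subset _ _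
  have hJsub : J ⊆ LL := Finset.filter_subset _ _
  have hLLss : LL ⊂ N.primeFactors := by
    refine (Finset.ssubset_iff_of_subset hLLsub).2 ⟨ps, hpsN, ?_⟩
    rw [hLL, Finset.mem_filter]
    exact fun h => absurd h.2 (not_le.2 hpsL)
  have h1 : ∀ p ∈ N.primeFactors, p ∉ LL → ps ≤ p := by
    intro p hp hpn
    apply hpsmin
    rw [hF, Finset.mem_filter]
    refine ⟨hp, ?_⟩
    by_contra hcon
    exact hpn (by rw [hLL, Finset.mem_filter]; exact ⟨hp, not_lt.1 hcon⟩)
  have h2 : ∀ p ∈ N.primeFactors, p ∉ J → ps ≤ p ^ nn N p := by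
    intro p hp hpn
    have hpP := Nat.prime_of_mem_primeFactors hp
    by_cases hpL : p ∈ LL
    · have hex2 : ∃ P : ℕ, P.Prime ∧ P ≠ 2 ∧ P ∣ Sq N p ∧ Lb < log (P : ℝ) := by
        by_contra hcon
        apply hpn
        rw [hJdef, Finset.mem_filter]
        refine ⟨hpL, ?_⟩
        intro P hP1 hP2 hP3
        by_contra hcon2
        exact hcon ⟨P, hP1, hP2, hP3, not_le.1 hcon2⟩
      obtain ⟨P, hP1, hP2, hP3, hP4⟩ := hex2
      have hPN := mem_of_dvd_Sq N hN p P hp hP1 hP2 hP3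
      have h3 : ps ≤ P := hpsmin P (by rw [hF, Finset.mem_filter]; exact ⟨hPN, hP4⟩)
      have h4 : P ≤ Sq N p := Nat.le_of_dvd (Sb.sg_pos (pow_pos hpP.pos _)) hP3
      have h5 : Sq N p < p ^ nn N p := c10_sg_le p _ hpP
      omega
    · calc ps ≤ p := h1 p hp hpL
        _ ≤ p ^ nn N p := Nat.le_self_pow (Nat.succ_ne_zero _) p
  have h9 := ps_le N hodd hN LL J hLLss hJsub ps hpsP.two_le h1 h2
  have hω := c10_card N y j Lb hy hc hyL
  have hω1 : (1 : ℝ) ≤ N.primeFactors.card := by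
    exact_mod_cast Finset.card_pos.2 ⟨ps, hpsN⟩
  set ω : ℝ := (N.primeFactors.card : ℝ) with hωdef
  have hL1 : (1 : ℝ) ≤ Lb := by
    have : (2 : ℝ) ≤ y := by exact_mod_cast hy
    linarith
  have hpP : ∀ p ∈ N.primeFactors, (1 : ℝ) ≤ (p : ℝ) := fun p hp => by
    exact_mod_cast (Nat.prime_of_mem_primeFactors hp).one_lt.le
  set A : ℝ := ∏ p ∈ LL, (p : ℝ) with hA
  set B : ℝ := ∏ p ∈ J, (p : ℝ) ^ nn N p with hB
  have hA1 : 1 ≤ A := by
    rw [hA]
    apply Finset.one_le_prod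
    intro p hp
    exact hpP p (hLLsub hp)
  have hB1 : 1 ≤ B := by
    rw [hB]
    apply Finset.one_le_prod
    intro p hp
    exact one_le_pow₀ (hpP p (hLLsub (hJsub hp)))
  have hAB : 1 ≤ ω * A * B := by
    have h3 : 1 ≤ ω * A := one_le_mul_of_one_le_of_one_le hω1 hA1
    exact one_le_mul_of_one_le_of_one_le h3 hB1
  have h10 : (ps : ℝ) ≤ 4 * ω * A * B := by nlinarith
  have hps0 : (0 : ℝ) < ps := by exact_mod_cast hpsP.pos
  have hA0 : 0 < A := by linarith
  have hB0 : 0 < B := by linarith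
  have hω0 : 0 < ω := by linarith
  have h11 : log (ps : ℝ) ≤ log 4 + log ω + log A + log B := by
    have h12 := Real.log_le_log hps0 h10
    rw [Real.log_mul (by positivity) hB0.ne', Real.log_mul (by positivity) hA0.ne',
      Real.log_mul (by norm_num) hω0.ne'] at h12
    exact h12
  have hlog4 : log (4 : ℝ) ≤ 3 := by
    have := Real.log_le_sub_one_of_pos (show (0 : ℝ) < 4 by norm_num)
    linarith
  have hlogω : log ω ≤ ω := by
    have := Real.log_le_sub_one_of_pos hω0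
    linarith
  have hcardLL : (LL.card : ℝ) ≤ ω := by
    rw [hωdef]; exact_mod_cast Finset.card_le_card hLLsub
  have hcardJ : (J.card : ℝ) ≤ ω := by
    rw [hωdef]; exact_mod_cast Finset.card_le_card (hJsub.trans hLLsub)
  have hlogA : log A ≤ ω * Lb := by
    rw [hA, Real.log_prod (fun p hp => by
      have := hpP p (hLLsub hp); positivity)]
    calc ∑ p ∈ LL, log (p : ℝ) ≤ LL.card • Lb := by
          apply Finset.sum_le_card_nsmul
          intro p hp
          rw [hLL, Finset.mem_filter] at hp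
          exact hp.2
      _ = LL.card * Lb := by rw [nsmul_eq_mul]
      _ ≤ ω * Lb := by
          apply mul_le_mul_of_nonneg_right hcardLL (by linarith)
  have hlogB : log B ≤ ω * (C1 * Lb ^ (8 * j + 8) * Lb) := by
    rw [hB, Real.log_prod (fun p hp => by
      have := hpP p (hLLsub (hJsub hp)); positivity)]
    calc ∑ p ∈ J, log ((p : ℝ) ^ nn N p) ≤ J.card • (C1 * Lb ^ (8 * j + 8) * Lb) := by
          apply Finset.sum_le_card_nsmul
          intro p hp
          have hp' := hp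
          rw [hJdef, Finset.mem_filter] at hp
          have hpLL := hp.1
          rw [hLL, Finset.mem_filter] at hpLL
          rw [Real.log_pow]
          have h3 := hJ N y Lb hodd hN hy hc hyL p hpLL.1 hpLL.2 hp.2
          have h4 : 0 ≤ log (p : ℝ) := Real.log_nonneg (hpP p hpLL.1)
          exact mul_le_mul h3 hpLL.2 h4 (by positivity)
      _ = J.card * (C1 * Lb ^ (8 * j + 8) * Lb) := by rw [nsmul_eq_mul]
      _ ≤ ω * (C1 * Lb ^ (8 * j + 8) * Lb) := by
          apply mul_le_mul_of_nonneg_right hcardJ (by positivity)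
  -- combine
  set M : ℝ := Lb ^ (8 * j + 8 + 2) with hM
  have hM1 : 1 ≤ M := one_le_pow₀ hL1
  have hLM : Lb ≤ M := by
    rw [hM]
    exact le_self_pow₀ hL1 (by omega)
  have hL2M : Lb * Lb ≤ M := by
    rw [hM, pow_add]
    have h3 : 1 ≤ Lb ^ (8 * j + 8) := one_le_pow₀ hL1
    have h4 : 0 ≤ Lb * Lb := by positivity
    nlinarith
  have hj0 : (0 : ℝ) ≤ j := Nat.cast_nonneg j
  have hC10 : (1 : ℝ) ≤ C1 := by exact_mod_cast hC1
  have e1 : log ω ≤ (j + 1) * M := by
    calc log ω ≤ ω := hlogω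
      _ ≤ (j + 1) * Lb := hω
      _ ≤ (j + 1) * M := mul_le_mul_of_nonneg_left hLM (by linarith)
  have e2 : log A ≤ (j + 1) * M := by
    calc log A ≤ ω * Lb := hlogA
      _ ≤ ((j + 1) * Lb) * Lb := mul_le_mul_of_nonneg_right hω (by linarith)
      _ = (j + 1) * (Lb * Lb) := by ring
      _ ≤ (j + 1) * M := mul_le_mul_of_nonneg_left hL2M (by linarith)
  have e3 : log B ≤ (j + 1) * C1 * M := by
    calc log B ≤ ω * (C1 * Lb ^ (8 * j + 8) * Lb) := hlogB
      _ ≤ ((j + 1) * Lb) * (C1 * Lb ^ (8 * j + 8) * Lb) := mul_le_mul_of_nonneg_right hω (by positivity)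
      _ = (j + 1) * C1 * M := by rw [hM, pow_add]; ring
  have e4 : log (4 : ℝ) ≤ 3 * M := by nlinarith
  have e5 : log (ps : ℝ) ≤ (3 + (j + 1) * (C1 + 2)) * M := by
    have : (3 + ((j : ℝ) + 1) * (C1 + 2)) * M = 3 * M + (j + 1) * M + (j + 1) * M + (j + 1) * C1 * M := by
      ring
    rw [this]
    linarith
  calc log (ps : ℝ) ≤ (3 + (j + 1) * (C1 + 2)) * M := e5
    _ = ((3 + (j + 1) * (C1 + 2) : ℕ) : ℝ) * Lb ^ (8 * j + 10) := by rw [hM]; push_cast; ring
-- END C10

-- BEGIN C11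
lemma c11_log (N : ℕ) (hN : N ≠ 0) :
    log (N : ℝ) = ∑ p ∈ N.primeFactors, (N.factorization p : ℝ) * log (p : ℝ) := by
  conv_lhs => rw [← Nat.prod_factorization_pow_eq_self hN]
  rw [Finsupp.prod, Nat.support_factorization]
  push_cast
  rw [Real.log_prod (fun p hp => by
    have := (Nat.prime_of_mem_primeFactors hp).pos; positivity)]
  exact Finset.sum_congr rfl (fun p _ => Real.log_pow _ _)

/-- C11. if all primes of `N` have `log p ≤ Lb` then `log N ≤ C Lb^C`:
`log N = ∑ e_p log p ≤ ω · C Lb^C · Lb`, `ω ≤ y + j`. -/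
theorem all_small (j : ℕ) : ∃ C : ℕ, 1 ≤ C ∧ ∀ (N y : ℕ) (Lb : ℝ), Odd N → Nat.Perfect N →
    2 ≤ y → (N.primeFactors.filter (y < ·)).card ≤ j → (y : ℝ) ≤ Lb →
    (∀ p ∈ N.primeFactors, log p ≤ Lb) → log N ≤ C * Lb ^ (8 * j + 10) := by
  obtain ⟨C1, hC1, hJ⟩ := J_bound j
  refine ⟨(j + 1) * C1 + 2, by omega, ?_⟩
  intro N y Lb hodd hN hy hc hyL hall
  have hN0 : N ≠ 0 := hN.2.ne'
  have hω := c10_card N y j Lb hy hc hyL
  have hL1 : (1 : ℝ) ≤ Lb := by
    have : (2 : ℝ) ≤ y := by exact_mod_cast hy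
    linarith
  have hj0 : (0 : ℝ) ≤ j := Nat.cast_nonneg j
  have h1 : log (N : ℝ) ≤ N.primeFactors.card * (C1 * Lb ^ (8 * j + 8) * Lb) := by
    rw [c11_log N hN0]
    calc ∑ p ∈ N.primeFactors, (N.factorization p : ℝ) * log (p : ℝ)
        ≤ N.primeFactors.card • (C1 * Lb ^ (8 * j + 8) * Lb) := by
          apply Finset.sum_le_card_nsmul
          intro p hp
          have hpP := Nat.prime_of_mem_primeFactors hp
          have h3 : (nn N p : ℝ) ≤ C1 * Lb ^ (8 * j + 8) := by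
            apply hJ N y Lb hodd hN hy hc hyL p hp (hall p hp)
            intro P hP1 hP2 hP3
            exact hall P (mem_of_dvd_Sq N hN p P hp hP1 hP2 hP3)
          have h4 : (N.factorization p : ℝ) ≤ C1 * Lb ^ (8 * j + 8) := by
            have h5 : (nn N p : ℝ) = N.factorization p + 1 := by
              simp only [nn]; push_cast; ring
            linarith
          have h5 : 0 ≤ log (p : ℝ) := Real.log_nonneg (by exact_mod_cast hpP.one_lt.le)
          exact mul_le_mul h4 (hall p hp) h5 (by positivity)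
      _ = N.primeFactors.card * (C1 * Lb ^ (8 * j + 8) * Lb) := by rw [nsmul_eq_mul]
  have hC1' : (0 : ℝ) ≤ C1 := Nat.cast_nonneg C1
  calc log (N : ℝ) ≤ N.primeFactors.card * (C1 * Lb ^ (8 * j + 8) * Lb) := h1
    _ ≤ ((j + 1) * Lb) * (C1 * Lb ^ (8 * j + 8) * Lb) := mul_le_mul_of_nonneg_right hω (by positivity)
    _ = ((j + 1) * C1) * Lb ^ (8 * j + 10) := by rw [pow_add, pow_add]; ring
    _ ≤ ((j + 1) * C1 + 2) * Lb ^ (8 * j + 10) := by
        apply mul_le_mul_of_nonneg_right _ (by positivity)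
        linarith
    _ = (((j + 1) * C1 + 2 : ℕ) : ℝ) * Lb ^ (8 * j + 10) := by push_cast; ring
-- END C11

-- BEGIN C12
/-- C12. iteration: induction on `k`.  `k = 0`: C11.  `k + 1`: if no prime has `log p > Lb` use C11; otherwise C10 gives a
prime `p` with `Lb < log p ≤ Lb' := C Lb^(8j+10)` (`Lb' ≥ Lb`), the filter for `Lb'` is strictly smaller; use the
induction hypothesis. -/
theorem iterate (j k : ℕ) : ∃ C : ℕ, 1 ≤ C ∧ ∀ (N y : ℕ) (Lb : ℝ), Odd N → Nat.Perfect N →
    2 ≤ y → (N.primeFactors.filter (y < ·)).card ≤ j → (y : ℝ) ≤ Lb →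
    (N.primeFactors.filter (fun p : ℕ => Lb < log (p : ℝ))).card ≤ k →
      log N ≤ C * Lb ^ ((8 * j + 10) ^ (k + 1)) := by
  obtain ⟨C11, hC11, hS⟩ := all_small j
  induction k with
  | zero =>
    refine ⟨C11, hC11, ?_⟩
    intro N y Lb hodd hN hy hc hyL hk
    rw [zero_add, pow_one]
    apply hS N y Lb hodd hN hy hc hyL
    intro p hp
    by_contra hcon
    have hmem : p ∈ N.primeFactors.filter (fun p : ℕ => Lb < log (p : ℝ)) := by
      rw [Finset.mem_filter]; exact ⟨hp, not_le.1 hcon⟩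
    have := Finset.card_pos.2 ⟨p, hmem⟩
    omega
  | succ k ih =>
    obtain ⟨Ck, hCk, hI⟩ := ih
    obtain ⟨C10, hC10, hG⟩ := gap j
    set E : ℕ := (8 * j + 10) ^ (k + 1) with hE
    have hE1 : 1 ≤ E := Nat.one_le_pow _ _ (by omega)
    refine ⟨Ck * C10 ^ E + C11, by omega, ?_⟩
    intro N y Lb hodd hN hy hc hyL hk
    have hL1 : (1 : ℝ) ≤ Lb := by
      have : (2 : ℝ) ≤ y := by exact_mod_cast hy
      linarith
    have hEE : (8 * j + 10) ^ (k + 1 + 1) = (8 * j + 10) * E := by rw [hE, pow_succ]; ring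
    rw [hEE]
    by_cases hex : ∃ p ∈ N.primeFactors, Lb < log (p : ℝ)
    · obtain ⟨p, hp, hp1, hp2⟩ := hG N y Lb hodd hN hy hc hyL hex
      have hLL : Lb ≤ C10 * Lb ^ (8 * j + 10) := by
        have h1 : (1 : ℝ) ≤ C10 := by exact_mod_cast hC10
        have h2 : Lb ≤ Lb ^ (8 * j + 10) := le_self_pow₀ hL1 (by omega)
        have h3 : 0 ≤ Lb ^ (8 * j + 10) := by positivity
        nlinarith
      have hcard : (N.primeFactors.filter
          (fun p : ℕ => (C10 : ℝ) * Lb ^ (8 * j + 10) < log (p : ℝ))).card ≤ k := by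
        have hss : N.primeFactors.filter (fun p : ℕ => (C10 : ℝ) * Lb ^ (8 * j + 10) < log (p : ℝ)) ⊂
            N.primeFactors.filter (fun p : ℕ => Lb < log (p : ℝ)) := by
          refine (Finset.ssubset_iff_of_subset ?_).2 ⟨p, ?_, ?_⟩
          · intro r hr
            rw [Finset.mem_filter] at hr ⊢
            exact ⟨hr.1, lt_of_le_of_lt hLL hr.2⟩
          · rw [Finset.mem_filter]; exact ⟨hp, hp1⟩
          · rw [Finset.mem_filter]
            exact fun h => absurd h.2 (not_lt.2 hp2)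
        have := Finset.card_lt_card hss
        omega
      have h5 := hI N y _ hodd hN hy hc (hyL.trans hLL) hcard
      have h6 : (Ck : ℝ) * (C10 * Lb ^ (8 * j + 10)) ^ E =
          ((Ck * C10 ^ E : ℕ) : ℝ) * Lb ^ ((8 * j + 10) * E) := by
        rw [mul_pow, ← pow_mul]; push_cast; ring
      rw [h6] at h5
      refine h5.trans (mul_le_mul_of_nonneg_right ?_ (by positivity))
      exact_mod_cast (by omega : Ck * C10 ^ E ≤ Ck * C10 ^ E + C11)
    · have h6 := hS N y Lb hodd hN hy hc hyL (by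
        intro p hp
        by_contra hcon
        exact hex ⟨p, hp, not_le.1 hcon⟩)
      have h7 : Lb ^ (8 * j + 10) ≤ Lb ^ ((8 * j + 10) * E) :=
        pow_le_pow_right₀ hL1 (Nat.le_mul_of_pos_right _ hE1)
      refine h6.trans (mul_le_mul ?_ h7 (by positivity) (by positivity))
      exact_mod_cast (by omega : C11 ≤ Ck * C10 ^ E + C11)

/-- C12. Theorem (b) with explicit exponent -/
theorem part_b_exp (j : ℕ) : ∃ C : ℕ, ∀ N y : ℕ, Odd N → Nat.Perfect N → 2 ≤ y →
    (N.primeFactors.filter (y < ·)).card ≤ j →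
      log N ≤ C * (y : ℝ) ^ ((8 * j + 10) ^ (j + 1)) := by
  obtain ⟨C, _, h⟩ := iterate j j
  refine ⟨C, ?_⟩
  intro N y hodd hN hy hc
  apply h N y (y : ℝ) hodd hN hy hc le_rfl
  refine le_trans (Finset.card_le_card ?_) hc
  intro p hp
  rw [Finset.mem_filter] at hp ⊢
  refine ⟨hp.1, ?_⟩
  have hpP := Nat.prime_of_mem_primeFactors hp.1
  have h1 : log (p : ℝ) ≤ p := by
    have := Real.log_le_sub_one_of_pos (show (0 : ℝ) < p by exact_mod_cast hpP.pos)
    linarith
  have h2 : (y : ℝ) < p := lt_of_lt_of_le hp.2 h1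
  exact_mod_cast h2

/-- C12. Theorem (b) -/
theorem part_b (j : ℕ) : ∃ C : ℕ, ∀ N y : ℕ, Odd N → Nat.Perfect N → 2 ≤ y →
    (N.primeFactors.filter (y < ·)).card ≤ j → log N ≤ C * (y : ℝ) ^ C := by
  obtain ⟨C, hC⟩ := part_b_exp j
  refine ⟨C + (8 * j + 10) ^ (j + 1), ?_⟩
  intro N y hodd hN hy hc
  have hy1 : (1 : ℝ) ≤ y := by
    have : (2 : ℝ) ≤ y := by exact_mod_cast hy
    linarith
  refine (hC N y hodd hN hy hc).trans ?_
  apply mul_le_mul _ (pow_le_pow_right₀ hy1 (by omega)) (by positivity) (by positivity)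
  exact_mod_cast (by omega : C ≤ C + (8 * j + 10) ^ (j + 1))
-- END C12

end Pool.Agent.Lib.MP_f02ea4_nt.Sm
end

section

/-! Smoothness of odd perfect numbers, part D: proof of (a). -/

set_option autoImplicit false

namespace Pool.Agent.Lib.MP_f02ea4_nt.Sm

open Finset Real

/-- mass of the prime `q` -/
noncomputable abbrev mass (N q : ℕ) : ℝ := (N.factorization q : ℝ) * log q

/-- logarithmic contribution of `r` to `σ(q^e)` -/
noncomputable abbrev aa (N q r : ℕ) : ℝ := ((Sq N q).factorization r : ℝ) * log r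

open Classical in
/-- the exceptional part of `aa` -/
noncomputable def bb (N q r : ℕ) : ℝ :=
  if r ∣ Sq N q ∧ ¬ r ∣ q - 1 then ((q ^ (r - 1) - 1).factorization r : ℝ) * log r else 0

-- BEGIN D1
/-- D1. row sums: `∑_r v_r(S) log r ≤ log S` and `S ≤ 2 q^e` (`Sb.sg_pow`) -/
lemma row_sum (N q : ℕ) (hN : Nat.Perfect N) (hq : q ∈ N.primeFactors) :
    ∑ r ∈ N.primeFactors, aa N q r ≤ mass N q + 1 := by
  have hqp : q.Prime := Nat.prime_of_mem_primeFactors hq
  have hSpos : 0 < Sq N q := Sb.sg_pos (pow_pos hqp.pos _)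
  have hlogS : log ((Sq N q : ℕ) : ℝ) =
      ∑ r ∈ (Sq N q).primeFactors, ((Sq N q).factorization r : ℝ) * log r := by
    have := Real.log_nat_eq_sum_factorization (Sq N q)
    rw [this, Finsupp.sum, Nat.support_factorization]
  have h1 : ∑ r ∈ N.primeFactors, aa N q r ≤ log ((Sq N q : ℕ) : ℝ) := by
    rw [hlogS]
    have hz : ∑ r ∈ N.primeFactors, aa N q r =
        ∑ r ∈ N.primeFactors.filter (fun r => r ∈ (Sq N q).primeFactors), aa N q r := by
      rw [Finset.sum_filter]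
      refine Finset.sum_congr rfl fun r _ => ?_
      split_ifs with h
      · rfl
      · have h0 : (Sq N q).factorization r = 0 := by
          rw [← Finsupp.notMem_support_iff, Nat.support_factorization]
          exact h
        simp only [aa, h0, Nat.cast_zero, zero_mul]
    rw [hz]
    refine Finset.sum_le_sum_of_subset_of_nonneg ?_ ?_
    · intro r hr
      exact (Finset.mem_filter.1 hr).2
    · intro r _ _
      exact mul_nonneg (Nat.cast_nonneg _) (log_natCast_nonneg r)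
  refine h1.trans ?_
  have h2 : Sq N q ≤ 2 * q ^ N.factorization q := by
    have h3 := Sb.sg_pow hqp (N.factorization q)
    have hq2 := hqp.two_le
    have h4 : q ≤ 2 * (q - 1) := by omega
    have h5 : 0 < q - 1 := by omega
    by_contra hcon
    push Not at hcon
    have h6 : (q - 1) * (2 * q ^ N.factorization q) < (q - 1) * Sq N q :=
      Nat.mul_lt_mul_of_pos_left hcon h5
    have h7 : q * q ^ N.factorization q ≤ 2 * (q - 1) * q ^ N.factorization q :=
      Nat.mul_le_mul_right _ h4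
    have h8 : q ^ (N.factorization q + 1) = q * q ^ N.factorization q := by rw [pow_succ]; ring
    have h9 : (q - 1) * Sq N q + 1 = q ^ (N.factorization q + 1) := h3
    rw [h8] at h9
    have h10 : (q - 1) * (2 * q ^ N.factorization q) = 2 * (q - 1) * q ^ N.factorization q := by
      ring
    omega
  have hqpos : (0 : ℝ) < q := by exact_mod_cast hqp.pos
  have h3 : log ((Sq N q : ℕ) : ℝ) ≤ log (2 * (q : ℝ) ^ N.factorization q) := by
    refine Real.log_le_log (by exact_mod_cast hSpos) ?_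
    exact_mod_cast h2
  rw [Real.log_mul (by norm_num) (by positivity), Real.log_pow] at h3
  have h4 := Real.log_two_lt_d9
  simp only [mass]
  linarith

/-- D1. column sums, from `sum_val` -/
lemma col_sum (N r : ℕ) (hodd : Odd N) (hN : Nat.Perfect N) (hr : r ∈ N.primeFactors) :
    ∑ q ∈ N.primeFactors, aa N q r = mass N r := by
  have hrp : r.Prime := Nat.prime_of_mem_primeFactors hr
  have hr2 : r ≠ 2 := by
    rintro rfl
    exact (Nat.not_even_iff_odd.2 hodd) (even_iff_two_dvd.2 (Nat.dvd_of_mem_primeFactors hr))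
  simp only [aa, mass]
  rw [← Finset.sum_mul, ← sum_val N hN r hrp hr2]
  push_cast
  rfl

/-- D1. `log N = ∑ mass` -/
lemma log_eq_sum (N : ℕ) (hN : N ≠ 0) : log (N : ℝ) = ∑ q ∈ N.primeFactors, mass N q := by
  rw [Real.log_nat_eq_sum_factorization N, Finsupp.sum, Nat.support_factorization]
-- END D1

-- BEGIN D2
/-- D2. all primes of `N` are at most `P`: `n_q ≤ P^3`.  All prime factors of `q^n - 1 = (q-1) Sq N q` are `≤ P`
(`2`, or `< q`, or in `N.primeFactors` by `mem_of_dvd_Sq`), so by `smooth_part_le`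
`n log q ≤ log (q^n - 1) + log 2 ≤ P^2 log q + log n + 1`; `log n ≤ n/2`, `n ≤ 2 P^2 + 2 ≤ P^3` as `P ≥ 3`. -/
lemma nn_le (N P q : ℕ) (hodd : Odd N) (hN : Nat.Perfect N) (hP : ∀ p ∈ N.primeFactors, p ≤ P)
    (hq : q ∈ N.primeFactors) : nn N q ≤ P ^ 3 := by
  have hqp : q.Prime := Nat.prime_of_mem_primeFactors hq
  have hqN : q ∣ N := Nat.dvd_of_mem_primeFactors hq
  have hq2 : q ≠ 2 := by
    rintro rfl
    exact (Nat.not_even_iff_odd.2 hodd) (even_iff_two_dvd.2 hqN)
  have hq3 : 3 ≤ q := by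
    have := hqp.two_le
    omega
  have hqP : q ≤ P := hP q hq
  set n := nn N q with hn
  have hn1 : 1 ≤ n := by rw [hn]; simp [nn]
  have hsg : (q - 1) * Sq N q + 1 = q ^ n := Sb.sg_pow hqp _
  have hM : q ^ n - 1 = (q - 1) * Sq N q := by omega
  have hqn3 : 3 ≤ q ^ n := by
    calc 3 ≤ q := hq3
      _ = q ^ 1 := (pow_one q).symm
      _ ≤ q ^ n := Nat.pow_le_pow_right (by omega) hn1
  have hMne : q ^ n - 1 ≠ 0 := by omega
  -- the prime factors are at most P
  have hpf : (q ^ n - 1).primeFactors ⊆ (range (P + 1)).filter Nat.Prime := by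
    intro r hr
    have hrp := Nat.prime_of_mem_primeFactors hr
    have hrd := Nat.dvd_of_mem_primeFactors hr
    rw [mem_filter, mem_range]
    refine ⟨?_, hrp⟩
    rw [hM] at hrd
    rcases (Nat.Prime.dvd_mul hrp).1 hrd with h1 | h1
    · have := Nat.le_of_dvd (by omega) h1
      omega
    · by_cases hr2 : r = 2
      · omega
      · have := hP r (mem_of_dvd_Sq N hN q r hq hrp hr2 h1)
        omega
  have hlogM : log ((q ^ n - 1 : ℕ) : ℝ) =
      ∑ r ∈ (range (P + 1)).filter Nat.Prime, ((q ^ n - 1).factorization r : ℝ) * log r := by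
    conv_lhs => rw [← Nat.prod_factorization_pow_eq_self hMne]
    rw [Finsupp.prod, Nat.support_factorization]
    push_cast
    rw [Real.log_prod (by
      intro i hi
      have := (Nat.prime_of_mem_primeFactors hi).pos
      positivity)]
    rw [Finset.sum_subset hpf]
    · apply Finset.sum_congr rfl
      intro r hr
      rw [Real.log_pow]
    · intro r _ hr
      have : (q ^ n - 1).factorization r = 0 := by
        rw [← Finsupp.notMem_support_iff, Nat.support_factorization]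
        exact hr
      rw [this]; simp
  have hsm := smooth_part_le q n P hqp hq2 hn1
  rw [← hlogM] at hsm
  have hlow : (n : ℝ) * log q - log 2 ≤ log ((q ^ n - 1 : ℕ) : ℝ) := by
    rw [← Real.log_pow, ← Real.log_div (by positivity) (by norm_num)]
    apply Real.log_le_log (by positivity)
    rw [Nat.cast_sub (by omega)]
    push_cast
    have : (3 : ℝ) ≤ (q : ℝ) ^ n := by exact_mod_cast hqn3
    linarith
  have hlogq : 1 ≤ log (q : ℝ) := by
    rw [Real.le_log_iff_exp_le (by positivity)]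
    have h1 := Real.exp_one_lt_d9
    have h2 : (3 : ℝ) ≤ q := by exact_mod_cast hq3
    linarith
  have hlogn : log (n : ℝ) ≤ n / 2 - 1 + log 2 := by
    have hn0 : (0 : ℝ) < n := by exact_mod_cast (by omega : 0 < n)
    have h1 : log ((n : ℝ) / 2) ≤ n / 2 - 1 := Real.log_le_sub_one_of_pos (by positivity)
    rw [Real.log_div (by positivity) (by norm_num)] at h1
    linarith
  have hlog2 : log (2 : ℝ) < 1 := by
    have := Real.log_two_lt_d9
    linarith
  have hmain : (n : ℝ) ≤ 2 * P ^ 2 + 2 := by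
    by_contra hcon
    push Not at hcon
    have h1 : ((n : ℝ) - P ^ 2) * log q ≤ n / 2 - 1 + log 2 + log 2 := by nlinarith
    have h2 : ((n : ℝ) - P ^ 2) ≤ ((n : ℝ) - P ^ 2) * log q := by
      have : 0 ≤ (n : ℝ) - P ^ 2 := by nlinarith
      nlinarith
    nlinarith
  have h3 : n ≤ 2 * P ^ 2 + 2 := by exact_mod_cast hmain
  have hP3 : 3 ≤ P := hq3.trans hqP
  have h4 : 2 * P ^ 2 + 2 ≤ P ^ 3 := by
    obtain ⟨k, rfl⟩ : ∃ k, P = k + 3 := ⟨P - 3, by omega⟩
    ring_nf
    nlinarith [Nat.zero_le k, Nat.zero_le (k ^ 2), Nat.zero_le (k ^ 3)]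
  omega
-- END D2

-- BEGIN D3
/-- D3. `aa ≤ bb + v_r(n) log r` (`val_sg_of_dvd`, `val_odd`, `Sb.coprime_sg_pow`) -/
lemma aa_le (N q r : ℕ) (hodd : Odd N) (hN : Nat.Perfect N) (hq : q ∈ N.primeFactors)
    (hr : r ∈ N.primeFactors) :
    aa N q r ≤ bb N q r + ((nn N q).factorization r : ℝ) * log r := by
  have hqp : q.Prime := Nat.prime_of_mem_primeFactors hq
  have hrp : r.Prime := Nat.prime_of_mem_primeFactors hr
  have hrN : r ∣ N := Nat.dvd_of_mem_primeFactors hr
  have hr2 : r ≠ 2 := by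
    rintro rfl
    exact (Nat.not_even_iff_odd.2 hodd) (even_iff_two_dvd.2 hrN)
  have hlogr : 0 ≤ log (r : ℝ) := log_nonneg (by exact_mod_cast hrp.one_lt.le)
  by_cases hdvd : r ∣ Sq N q
  · by_cases hq1 : r ∣ q - 1
    · have hbb : bb N q r = 0 := by
        rw [bb, if_neg]
        intro h
        exact h.2 hq1
      rw [hbb, zero_add]
      have h1 := val_sg_of_dvd q (N.factorization q) r hqp hrp hr2 hq1
      apply mul_le_mul_of_nonneg_right _ hlogr
      exact_mod_cast h1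
    · have hbb : bb N q r = ((q ^ (r - 1) - 1).factorization r : ℝ) * log r := by
        rw [bb, if_pos ⟨hdvd, hq1⟩]
      rw [hbb, ← add_mul]
      apply mul_le_mul_of_nonneg_right _ hlogr
      have hrq : ¬ r ∣ q := by
        intro h
        have h1 : r = q := (Nat.prime_dvd_prime_iff_eq hrp hqp).1 h
        have h2 := Sb.coprime_sg_pow hqp (N.factorization q)
        rw [h1] at hdvd
        exact ((Nat.Prime.coprime_iff_not_dvd hqp).1 h2) hdvd
      have h1 := val_odd q (nn N q) r hqp.two_le (by simp [nn]) hrp hr2 hrq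
      have hsg : (q - 1) * Sq N q + 1 = q ^ (nn N q) := Sb.sg_pow hqp _
      have hM : q ^ (nn N q) - 1 = (q - 1) * Sq N q := by omega
      have hq1' : q - 1 ≠ 0 := by have := hqp.two_le; omega
      have hS : Sq N q ≠ 0 := (Sb.sg_pos (pow_pos hqp.pos _)).ne'
      have h2 : (Sq N q).factorization r ≤ (q ^ (nn N q) - 1).factorization r := by
        rw [hM, Nat.factorization_mul hq1' hS]
        simp
      exact_mod_cast h2.trans h1
  · have h0 : (Sq N q).factorization r = 0 := Nat.factorization_eq_zero_of_not_dvd hdvd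
    have hbb : 0 ≤ bb N q r := by
      rw [bb]
      split_ifs
      · positivity
      · exact le_refl _
    have h1 : 0 ≤ ((nn N q).factorization r : ℝ) * log r := by positivity
    simp only [aa, h0]
    simp only [Nat.cast_zero, zero_mul]
    linarith
-- END D3

-- BEGIN D4
/-- D4. primes with given order `o > 1` of `q`: `r ≡ 1 mod o` gives `≤ P/o`; they are `≥ 3` and their product divides
`q^o - 1 < P^o`, so there are at most `o log P / log 3 ≤ o log P`; `min (P/o) (o log P) ≤ √(P log P)`. -/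
lemma count_fixed_order (P q o : ℕ) (hq : 2 ≤ q) (hqP : q ≤ P) (ho : 2 ≤ o) :
    (((range (P + 1)).filter (fun r => r.Prime ∧ orderOf (q : ZMod r) = o)).card : ℝ) ≤
      √(P * log P) := by
  set F := (range (P + 1)).filter (fun r => r.Prime ∧ orderOf (q : ZMod r) = o) with hF
  have hP1 : (1 : ℝ) ≤ P := by exact_mod_cast (by omega : 1 ≤ P)
  have hlogP : 0 ≤ log (P : ℝ) := log_nonneg hP1
  -- basic facts for elements
  have hmem : ∀ r ∈ F, r.Prime ∧ orderOf (q : ZMod r) = o ∧ r ≤ P ∧ o ∣ r - 1 ∧ r ∣ q ^ o - 1 ∧ 3 ≤ r := by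
    intro r hr
    rw [hF, mem_filter, mem_range] at hr
    obtain ⟨hrP, hrp, hro⟩ := hr
    haveI : Fact r.Prime := ⟨hrp⟩
    have hne : (q : ZMod r) ≠ 0 := by
      intro h0
      rw [h0] at hro
      have : orderOf (0 : ZMod r) = 0 := by
        rw [orderOf_eq_zero_iff']
        intro n hn h
        rw [zero_pow hn.ne'] at h
        exact zero_ne_one h
      omega
    have h1 : o ∣ r - 1 := by
      rw [← hro]
      exact ZMod.orderOf_dvd_card_sub_one hne
    have h2 : r ∣ q ^ o - 1 := by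
      have h3 : (q : ZMod r) ^ o = 1 := by rw [← hro]; exact pow_orderOf_eq_one _
      have h4 : ((q ^ o - 1 : ℕ) : ZMod r) = 0 := by
        rw [Nat.cast_sub (Nat.one_le_pow _ _ (by omega))]
        push_cast
        rw [h3]; simp
      exact (ZMod.natCast_eq_zero_iff _ _).1 h4
    refine ⟨hrp, hro, by omega, h1, h2, ?_⟩
    have h5 := Nat.le_of_dvd (by have := hrp.two_le; omega) h1
    omega
  -- first bound
  have hA : (F.card : ℝ) * o ≤ P := by
    have hcard : F.card ≤ P / o := by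
      have : F.card ≤ (Finset.Icc 1 (P / o)).card := by
        apply Finset.card_le_card_of_injOn (fun r => (r - 1) / o)
        · intro r hr
          obtain ⟨hrp, hro, hrP, h1, h2, h3⟩ := hmem r hr
          simp only [Finset.coe_Icc, Set.mem_Icc]
          constructor
          · exact (Nat.one_le_div_iff (by omega)).2 (Nat.le_of_dvd (by omega) h1)
          · exact Nat.div_le_div_right (by omega)
        · intro r hr r' hr' hrr
          obtain ⟨hrp, hro, hrP, h1, h2, h3⟩ := hmem r hr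
          obtain ⟨hrp', hro', hrP', h1', h2', h3'⟩ := hmem r' hr'
          simp only at hrr
          have e1 := Nat.div_mul_cancel h1
          have e2 := Nat.div_mul_cancel h1'
          rw [hrr] at e1
          omega
      simpa using this
    have h1 : F.card * o ≤ P := by
      calc F.card * o ≤ (P / o) * o := Nat.mul_le_mul_right _ hcard
        _ ≤ P := Nat.div_mul_le_self _ _
    exact_mod_cast h1
  -- second bound
  have hB : (F.card : ℝ) ≤ o * log P := by
    have hdvd : ∏ r ∈ F, r ∣ q ^ o - 1 := by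
      apply Finset.prod_primes_dvd
      · intro r hr; exact (hmem r hr).1.prime
      · intro r hr; exact (hmem r hr).2.2.2.2.1
    have hpos : 0 < q ^ o - 1 := by
      have : 1 < q ^ o := Nat.one_lt_pow (by omega) (by omega)
      omega
    have hle : ∏ r ∈ F, r ≤ q ^ o - 1 := Nat.le_of_dvd hpos hdvd
    have hlow : 3 ^ F.card ≤ ∏ r ∈ F, r := by
      calc 3 ^ F.card = ∏ _r ∈ F, 3 := by rw [prod_const]
        _ ≤ ∏ r ∈ F, r := Finset.prod_le_prod' (fun r hr => (hmem r hr).2.2.2.2.2)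
    have h3 : (3 : ℝ) ^ F.card ≤ (P : ℝ) ^ o := by
      have : 3 ^ F.card ≤ P ^ o := by
        calc 3 ^ F.card ≤ ∏ r ∈ F, r := hlow
          _ ≤ q ^ o - 1 := hle
          _ ≤ q ^ o := Nat.sub_le _ _
          _ ≤ P ^ o := Nat.pow_le_pow_left hqP _
      exact_mod_cast this
    have h4 := Real.log_le_log (by positivity) h3
    rw [Real.log_pow, Real.log_pow] at h4
    have h5 : (1 : ℝ) ≤ log 3 := by
      rw [Real.le_log_iff_exp_le (by norm_num)]
      have := Real.exp_one_lt_d9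
      linarith
    have h6 : (F.card : ℝ) * 1 ≤ F.card * log 3 := by
      apply mul_le_mul_of_nonneg_left h5; positivity
    linarith
  apply Real.le_sqrt_of_sq_le
  have ho' : (0 : ℝ) < o := by exact_mod_cast (by omega : 0 < o)
  have h7 : (F.card : ℝ) ^ 2 * o ≤ (P * log P) * o := by
    calc (F.card : ℝ) ^ 2 * o = (F.card * o) * F.card := by ring
      _ ≤ P * (o * log P) := by
          apply mul_le_mul hA hB (by positivity) (by positivity)
      _ = (P * log P) * o := by ring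
  exact le_of_mul_le_mul_right h7 ho'
-- END D4

-- BEGIN D5
/-- D5. from D4: the order of `q` mod `r` divides `n` and is not `1` -/
lemma count_order (P q n : ℕ) (hq : 2 ≤ q) (hqP : q ≤ P) (hn : 1 ≤ n) :
    (((range (P + 1)).filter (fun r => r.Prime ∧ ¬ r ∣ q - 1 ∧ r ∣ q ^ n - 1)).card : ℝ) ≤
      (n.divisors.card : ℝ) * √(P * log P) := by
  set D := n.divisors.filter (fun o => 2 ≤ o) with hD
  have hsub : (range (P + 1)).filter (fun r => r.Prime ∧ ¬ r ∣ q - 1 ∧ r ∣ q ^ n - 1) ⊆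
      D.biUnion (fun o => (range (P + 1)).filter (fun r => r.Prime ∧ orderOf (q : ZMod r) = o)) := by
    intro r hr
    rw [mem_filter] at hr
    obtain ⟨hrP, hrp, hrd, hrn⟩ := hr
    rw [mem_biUnion]
    haveI : Fact r.Prime := ⟨hrp⟩
    have h1 : (q : ZMod r) ^ n = 1 := by
      have h4 : ((q ^ n - 1 : ℕ) : ZMod r) = 0 := (ZMod.natCast_eq_zero_iff _ _).2 hrn
      rw [Nat.cast_sub (Nat.one_le_pow _ _ (by omega))] at h4
      push_cast at h4
      exact sub_eq_zero.1 h4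
    have h2 : orderOf (q : ZMod r) ∣ n := orderOf_dvd_of_pow_eq_one h1
    have h3 : orderOf (q : ZMod r) ≠ 1 := by
      intro h
      rw [orderOf_eq_one_iff] at h
      apply hrd
      have h4 : ((q - 1 : ℕ) : ZMod r) = 0 := by
        rw [Nat.cast_sub (by omega), h]; simp
      exact (ZMod.natCast_eq_zero_iff _ _).1 h4
    have h5 : 0 < orderOf (q : ZMod r) := Nat.pos_of_dvd_of_pos h2 (by omega)
    refine ⟨orderOf (q : ZMod r), ?_, ?_⟩
    · rw [hD, mem_filter, Nat.mem_divisors]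
      exact ⟨⟨h2, by omega⟩, by omega⟩
    · rw [mem_filter]
      exact ⟨hrP, hrp, rfl⟩
  have h1 : (((range (P + 1)).filter (fun r => r.Prime ∧ ¬ r ∣ q - 1 ∧ r ∣ q ^ n - 1)).card : ℝ) ≤
      ∑ o ∈ D, (((range (P + 1)).filter (fun r => r.Prime ∧ orderOf (q : ZMod r) = o)).card : ℝ) := by
    have := (Finset.card_le_card hsub).trans Finset.card_biUnion_le
    exact_mod_cast this
  refine h1.trans ?_
  calc ∑ o ∈ D, (((range (P + 1)).filter (fun r => r.Prime ∧ orderOf (q : ZMod r) = o)).card : ℝ)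
      ≤ ∑ _o ∈ D, √(P * log P) := by
        apply Finset.sum_le_sum
        intro o ho
        rw [hD, mem_filter] at ho
        exact count_fixed_order P q o hq hqP ho.2
    _ = (D.card : ℝ) * √(P * log P) := by rw [sum_const, nsmul_eq_mul]
    _ ≤ (n.divisors.card : ℝ) * √(P * log P) := by
        apply mul_le_mul_of_nonneg_right _ (Real.sqrt_nonneg _)
        exact_mod_cast Finset.card_filter_le _ _
-- END D5

-- BEGIN D6
/-- D6. Teichmüller injectivity: `z^(r-1) - z'^(r-1) = (z - z') ∑ z^i z'^(r-2-i)` and the sum is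
`≡ (r-1) z^(r-2) ≢ 0 mod r`. -/
lemma teich_inj (r v z z' : ℕ) (hr : r.Prime) (hz : ¬ r ∣ z) (h : z ^ (r - 1) ≡ 1 [MOD r ^ v])
    (h' : z' ^ (r - 1) ≡ 1 [MOD r ^ v]) (hzz : z ≡ z' [MOD r]) : z ≡ z' [MOD r ^ v] := by
  have h1 : ((r ^ v : ℕ) : ℤ) ∣ (z : ℤ) ^ (r - 1) - (z' : ℤ) ^ (r - 1) := by
    have h2 : z' ^ (r - 1) ≡ z ^ (r - 1) [MOD r ^ v] := h'.trans h.symm
    have := (Nat.modEq_iff_dvd.1 h2)
    exact_mod_cast this
  have h3 : (r : ℤ) ∣ (z : ℤ) - z' := Nat.modEq_iff_dvd.1 hzz.symm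
  have hgeom := geom_sum₂_mul (z : ℤ) (z' : ℤ) (r - 1)
  set Tt := ∑ i ∈ range (r - 1), (z : ℤ) ^ i * (z' : ℤ) ^ (r - 1 - 1 - i) with hTt
  have hrp : Prime (r : ℤ) := Nat.prime_iff_prime_int.1 hr
  have hcop : ¬ (r : ℤ) ∣ Tt := by
    intro hd
    have h4 : (r : ℤ) ∣ Tt - ((r - 1 : ℕ) : ℤ) * (z : ℤ) ^ (r - 1 - 1) := by
      have h5 : Tt - ((r - 1 : ℕ) : ℤ) * (z : ℤ) ^ (r - 1 - 1) =
          ∑ i ∈ range (r - 1), ((z : ℤ) ^ i * (z' : ℤ) ^ (r - 1 - 1 - i) - (z : ℤ) ^ (r - 1 - 1)) := by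
        rw [Finset.sum_sub_distrib, sum_const, card_range, nsmul_eq_mul]
      rw [h5]
      apply Finset.dvd_sum
      intro i hi
      rw [mem_range] at hi
      have h6 : (z : ℤ) ^ (r - 1 - 1) = (z : ℤ) ^ i * (z : ℤ) ^ (r - 1 - 1 - i) := by
        rw [← pow_add]; congr 1; omega
      rw [h6, ← mul_sub]
      apply Dvd.dvd.mul_left
      have h7 : (z' : ℤ) - z ∣ (z' : ℤ) ^ (r - 1 - 1 - i) - (z : ℤ) ^ (r - 1 - 1 - i) :=
        sub_dvd_pow_sub_pow _ _ _
      have h8 : (r : ℤ) ∣ (z' : ℤ) - z := by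
        have := (dvd_neg (a := (r : ℤ))).2 h3
        simpa using this
      exact h8.trans h7
    have h9 : (r : ℤ) ∣ ((r - 1 : ℕ) : ℤ) * (z : ℤ) ^ (r - 1 - 1) := by
      have := dvd_sub hd h4
      simpa using this
    rcases hrp.dvd_or_dvd h9 with h10 | h10
    · have h11 : r ∣ r - 1 := by exact_mod_cast h10
      have := Nat.le_of_dvd (by have := hr.two_le; omega) h11
      have := hr.two_le
      omega
    · have h11 := hrp.dvd_of_dvd_pow h10
      exact hz (by exact_mod_cast h11)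
  have hcop2 : IsCoprime ((r ^ v : ℕ) : ℤ) Tt := by
    push_cast
    apply IsCoprime.pow_left
    exact (Prime.coprime_iff_not_dvd hrp).2 hcop
  rw [← hgeom] at h1
  have h12 : ((r ^ v : ℕ) : ℤ) ∣ (z : ℤ) - z' := hcop2.dvd_of_dvd_mul_left h1
  have h13 : z' ≡ z [MOD r ^ v] := by
    rw [Nat.modEq_iff_dvd]
    exact h12
  exact h13.symm
-- END D6

-- BEGIN D7
private lemma d7_fac {i : ℕ} (q : Fin i → ℕ) (hq : ∀ j, (q j).Prime)
    (hinj : Function.Injective q) (j : Fin i) (m : Multiset (Fin (i + 1))) :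
    (m.map (Fin.cons 1 q : Fin (i + 1) → ℕ)).prod ≠ 0 ∧
      ((m.map (Fin.cons 1 q : Fin (i + 1) → ℕ)).prod).factorization (q j) =
        m.count j.succ := by
  induction m using Multiset.induction_on with
  | empty => simp
  | cons a m ih =>
    have hQ : (Fin.cons 1 q : Fin (i + 1) → ℕ) a ≠ 0 := by
      refine Fin.cases ?_ (fun k => ?_) a
      · rw [Fin.cons_zero]
        exact one_ne_zero
      · rw [Fin.cons_succ]
        exact (hq k).ne_zero
    have hQf : ((Fin.cons 1 q : Fin (i + 1) → ℕ) a).factorization (q j) =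
        if j.succ = a then 1 else 0 := by
      refine Fin.cases ?_ (fun k => ?_) a
      · rw [Fin.cons_zero, if_neg (Fin.succ_ne_zero j)]
        simp
      · rw [Fin.cons_succ, (hq k).factorization]
        by_cases hjk : j = k
        · subst hjk
          simp
        · rw [if_neg (fun h => hjk (Fin.succ_injective _ h)), Finsupp.single_apply,
            if_neg (fun h => hjk (hinj h).symm)]
    rw [Multiset.map_cons, Multiset.prod_cons]
    refine ⟨mul_ne_zero hQ ih.1, ?_⟩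
    rw [Nat.factorization_mul hQ ih.1, Finsupp.add_apply, ih.2, hQf, Multiset.count_cons]
    ring

private lemma d7_inj {i u : ℕ} (q : Fin i → ℕ) (hq : ∀ j, (q j).Prime)
    (hinj : Function.Injective q) (s s' : Sym (Fin (i + 1)) u)
    (h : ((s : Multiset (Fin (i + 1))).map (Fin.cons 1 q : Fin (i + 1) → ℕ)).prod =
      ((s' : Multiset (Fin (i + 1))).map (Fin.cons 1 q : Fin (i + 1) → ℕ)).prod) : s = s' := by
  have h1 : ∀ j : Fin i, (s : Multiset (Fin (i + 1))).count j.succ =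
      (s' : Multiset (Fin (i + 1))).count j.succ := by
    intro j
    rw [← (d7_fac q hq hinj j s).2, ← (d7_fac q hq hinj j s').2, h]
  have h2 : ∀ t : Sym (Fin (i + 1)) u, (t : Multiset (Fin (i + 1))).count 0 +
      ∑ j : Fin i, (t : Multiset (Fin (i + 1))).count j.succ = u := by
    intro t
    rw [← Fin.sum_univ_succ (fun a => (t : Multiset (Fin (i + 1))).count a),
      Multiset.sum_count_eq_card (fun a _ => Finset.mem_univ a)]
    exact t.2
  apply Subtype.ext
  apply Multiset.ext.2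
  intro a
  refine Fin.cases ?_ (fun k => h1 k) a
  have h3 := h2 s
  have h4 := h2 s'
  rw [Finset.sum_congr rfl fun j _ => h1 j] at h3
  have : (s : Multiset (Fin (i + 1))).count 0 = (s' : Multiset (Fin (i + 1))).count 0 := by
    omega
  exact this

/-- D7. gap principle.  The `(i+u).choose i` monomials `∏ q_j^(x_j)`, `∑ x_j ≤ u`, are distinct, `≤ P^u < r^v`,
and `(r-1)`-th roots of unity mod `r^v`; by D6 they are distinct mod `r` and nonzero mod `r`, so there are at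
most `r - 1`.  (Number of `x : Fin i → ℕ` with `∑ x ≤ u`: `Sym (Fin (i+1)) u`, `Sym.card_sym_eq_choose`.) -/
lemma gap_principle (r v P u i : ℕ) (hr : r.Prime) (q : Fin i → ℕ) (hq : ∀ j, (q j).Prime)
    (hinj : Function.Injective q) (hP : ∀ j, q j ≤ P) (hv : ∀ j, r ^ v ∣ (q j) ^ (r - 1) - 1)
    (hu : P ^ u < r ^ v) : (i + u).choose i ≤ r - 1 := by
  classical
  rcases Nat.eq_zero_or_pos i with hi | hi
  · subst hi
    rw [Nat.choose_zero_right]
    have := hr.two_le
    omega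
  have hP1 : 1 ≤ P := (hq ⟨0, hi⟩).one_lt.le.trans (hP ⟨0, hi⟩)
  have hv1 : v ≠ 0 := by
    rintro rfl
    rw [pow_zero] at hu
    have := Nat.one_le_pow u P hP1
    omega
  have hr2 := hr.two_le
  set Q : Fin (i + 1) → ℕ := Fin.cons 1 q with hQdef
  have hQP : ∀ a, Q a ≤ P := by
    intro a
    refine Fin.cases ?_ (fun k => ?_) a
    · rw [hQdef, Fin.cons_zero]
      exact hP1
    · rw [hQdef, Fin.cons_succ]
      exact hP k
  have hQ1 : ∀ a, Q a ^ (r - 1) ≡ 1 [MOD r ^ v] := by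
    intro a
    refine Fin.cases ?_ (fun k => ?_) a
    · rw [hQdef, Fin.cons_zero, one_pow]
    · rw [hQdef, Fin.cons_succ]
      exact ((Nat.modEq_iff_dvd' (Nat.one_le_pow _ _ (hq k).pos)).2 (hv k)).symm
  have hQr : ∀ a, ¬ r ∣ Q a := by
    intro a hra
    have h1 : r ∣ Q a ^ (r - 1) := dvd_pow hra (by omega)
    have h2 : Q a ^ (r - 1) ≡ 1 [MOD r] := (hQ1 a).of_dvd (dvd_pow_self r hv1)
    have h3 : r ∣ 1 := (Nat.modEq_zero_iff_dvd.1 (h2.symm.trans (Nat.modEq_zero_iff_dvd.2 h1)))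
    exact hr.one_lt.ne' (Nat.dvd_one.1 h3)
  -- properties of the products
  have hz : ∀ m : Multiset (Fin (i + 1)), (m.map Q).prod ≤ P ^ (Multiset.card m) ∧
      (m.map Q).prod ^ (r - 1) ≡ 1 [MOD r ^ v] ∧ ¬ r ∣ (m.map Q).prod := by
    intro m
    induction m using Multiset.induction_on with
    | empty =>
      refine ⟨by simp, by simp; rfl, ?_⟩
      simp only [Multiset.map_zero, Multiset.prod_zero]
      intro h
      exact hr.one_lt.ne' (Nat.dvd_one.1 h)
    | cons a m ih =>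
      obtain ⟨h1, h2, h3⟩ := ih
      rw [Multiset.map_cons, Multiset.prod_cons, Multiset.card_cons, pow_succ']
      refine ⟨Nat.mul_le_mul (hQP a) h1, ?_, ?_⟩
      · rw [mul_pow]
        exact (hQ1 a).mul h2
      · rw [hr.dvd_mul]
        push Not
        exact ⟨hQr a, h3⟩
  -- the map to the nonzero residues
  have hcard : Fintype.card (Sym (Fin (i + 1)) u) ≤ Fintype.card (Fin (r - 1)) := by
    refine Fintype.card_le_of_injective
      (fun s : Sym (Fin (i + 1)) u =>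
        (⟨((s : Multiset (Fin (i + 1))).map Q).prod % r - 1, by
          have := Nat.mod_lt ((s : Multiset (Fin (i + 1))).map Q).prod hr.pos
          omega⟩ : Fin (r - 1))) ?_
    intro s s' hss
    have hs := hz (s : Multiset (Fin (i + 1)))
    have hs' := hz (s' : Multiset (Fin (i + 1)))
    have e1 : ((s : Multiset (Fin (i + 1))).map Q).prod % r - 1 =
        ((s' : Multiset (Fin (i + 1))).map Q).prod % r - 1 := congrArg Fin.val hss
    have n1 : ((s : Multiset (Fin (i + 1))).map Q).prod % r ≠ 0 :=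
      fun h => hs.2.2 (Nat.dvd_of_mod_eq_zero h)
    have n2 : ((s' : Multiset (Fin (i + 1))).map Q).prod % r ≠ 0 :=
      fun h => hs'.2.2 (Nat.dvd_of_mod_eq_zero h)
    have e2 : ((s : Multiset (Fin (i + 1))).map Q).prod ≡
        ((s' : Multiset (Fin (i + 1))).map Q).prod [MOD r] := by
      unfold Nat.ModEq
      omega
    have e3 := teich_inj r v _ _ hr hs.2.2 hs.2.1 hs'.2.1 e2
    have c1 : Multiset.card (s : Multiset (Fin (i + 1))) = u := s.2
    have c2 : Multiset.card (s' : Multiset (Fin (i + 1))) = u := s'.2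
    have l1 : ((s : Multiset (Fin (i + 1))).map Q).prod < r ^ v := by
      have := hs.1
      rw [c1] at this
      omega
    have l2 : ((s' : Multiset (Fin (i + 1))).map Q).prod < r ^ v := by
      have := hs'.1
      rw [c2] at this
      omega
    exact d7_inj q hq hinj s s' (Nat.ModEq.eq_of_lt_of_lt e3 l1 l2)
  rw [Sym.card_sym_eq_choose, Fintype.card_fin, Fintype.card_fin] at hcard
  have e : (i + 1 + u - 1).choose u = (i + u).choose i := by
    rw [show i + 1 + u - 1 = i + u by omega, Nat.choose_symm_add]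
  rw [← e]
  exact hcard
-- END D7

-- BEGIN D8
/-- D8. two primes (`i = 2`, `u` maximal with `P^u < r^v`): `(u+1)^2 ≤ (u+1)(u+2) ≤ 2(r-1) ≤ 2P`,
`v log r ≤ (u+1) log P`. -/
lemma heavy_second (r v P q1 q2 : ℕ) (hr : r.Prime) (hrP : r ≤ P) (h1 : q1.Prime) (h2 : q2.Prime)
    (hne : q1 ≠ q2) (hq1 : q1 ≤ P) (hq2 : q2 ≤ P) (hv1 : r ^ v ∣ q1 ^ (r - 1) - 1)
    (hv2 : r ^ v ∣ q2 ^ (r - 1) - 1) : (v : ℝ) * log r ≤ √(2 * P) * log P := by
  have hr2 := hr.two_le
  have hP2 : 2 ≤ P := hr2.trans hrP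
  have hlogP : 0 ≤ log (P : ℝ) := log_nonneg (by exact_mod_cast (by omega : 1 ≤ P))
  rcases Nat.eq_zero_or_pos v with hv | hv
  · rw [hv]
    simp only [Nat.cast_zero, zero_mul]
    positivity
  · have hrv : 1 < r ^ v := Nat.one_lt_pow hv.ne' (by omega)
    set u := Nat.log P (r ^ v - 1) with hu
    have hu1 : P ^ u ≤ r ^ v - 1 := Nat.pow_log_le_self P (by omega)
    have hu2 : r ^ v - 1 < P ^ (u + 1) := Nat.lt_pow_succ_log_self (by omega) _
    have hu3 : P ^ u < r ^ v := by omega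
    have hu4 : r ^ v ≤ P ^ (u + 1) := by omega
    have hg := gap_principle r v P u 2 hr ![q1, q2]
      (by intro j; fin_cases j <;> simp [h1, h2])
      (by
        intro a b hab
        fin_cases a <;> fin_cases b <;> simp_all)
      (by intro j; fin_cases j <;> simp [hq1, hq2])
      (by intro j; fin_cases j <;> simp [hv1, hv2]) hu3
    have hg2 : (u + 1) * (u + 1) ≤ 2 * P := by
      have h3 : (2 + u).choose 2 = (u + 2) * (u + 1) / 2 := by
        rw [Nat.choose_two_right]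
        have : 2 + u = u + 2 := by ring
        rw [this]; rfl
      rw [h3] at hg
      have h4 : (u + 2) * (u + 1) ≤ 2 * (r - 1) + 1 := by omega
      have h5 : (u + 1) * (u + 1) ≤ (u + 2) * (u + 1) := Nat.mul_le_mul_right _ (by omega)
      omega
    have h5 : ((u : ℝ) + 1) ≤ √(2 * P) := by
      apply Real.le_sqrt_of_sq_le
      have : (((u + 1) * (u + 1) : ℕ) : ℝ) ≤ ((2 * P : ℕ) : ℝ) := by exact_mod_cast hg2
      push_cast at this
      nlinarith
    have h6 : (v : ℝ) * log r ≤ (u + 1) * log P := by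
      have h7 : ((r ^ v : ℕ) : ℝ) ≤ ((P ^ (u + 1) : ℕ) : ℝ) := by exact_mod_cast hu4
      have h8 := Real.log_le_log (by positivity) h7
      push_cast at h8
      rw [Real.log_pow, Real.log_pow] at h8
      push_cast at h8
      exact h8
    calc (v : ℝ) * log r ≤ (u + 1) * log P := h6
      _ ≤ √(2 * P) * log P := mul_le_mul_of_nonneg_right h5 hlogP
-- END D8

-- BEGIN D9
/-- D9. few heavy hits.  `i = ⌈2/η⌉`, `I = i! + i`.  If `H.card ≥ i` take `i` of its elements, `v` = the least of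
the valuations, `T = P^η`, `u = ⌊T⌋`: `P^u ≤ exp (T log P) < r^v`, so D7: `(i+u).choose i ≤ r - 1 ≤ P`;
`T^i ≤ (u+1)^i ≤ i! (i+u).choose i` (`Nat.pow_le_choose`), `T^i ≥ P^2`, so `P ≤ i!` and `H.card ≤ P`. -/
lemma heavy_count (η : ℝ) (hη : 0 < η) : ∃ I : ℕ, ∀ (P r : ℕ) (H : Finset ℕ), r.Prime → r ≤ P →
    (∀ q ∈ H, q.Prime ∧ q ≤ P) →
    (∀ q ∈ H, (P : ℝ) ^ η * log P < ((q ^ (r - 1) - 1).factorization r : ℝ) * log r) →
    H.card ≤ I := by
  set i := ⌈2 / η⌉₊ with hi
  have hi0 : 0 < i := Nat.ceil_pos.2 (by positivity)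
  have hi1 : 2 ≤ η * i := by
    have := Nat.le_ceil (2 / η)
    rw [← hi, div_le_iff₀ hη] at this
    linarith
  refine ⟨i.factorial + i, ?_⟩
  intro P r H hr hrP hH hheavy
  have hr2 := hr.two_le
  have hP1 : (1 : ℝ) ≤ P := by exact_mod_cast (by omega : 1 ≤ P)
  have hP0 : (0 : ℝ) < P := by linarith
  by_cases hcard : H.card < i
  · omega
  push Not at hcard
  obtain ⟨H', hH', hH'c⟩ := Finset.exists_subset_card_eq hcard
  -- enumeration
  let q : Fin i → ℕ := fun j => ((Finset.equivFin H').symm (Fin.cast hH'c.symm j) : ℕ)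
  have hqmem : ∀ j, q j ∈ H := fun j => hH' ((Finset.equivFin H').symm (Fin.cast hH'c.symm j)).2
  have hqinj : Function.Injective q := by
    intro a b hab
    have h1 : (Finset.equivFin H').symm (Fin.cast hH'c.symm a) =
        (Finset.equivFin H').symm (Fin.cast hH'c.symm b) := Subtype.ext hab
    have h2 := (Finset.equivFin H').symm.injective h1
    exact Fin.cast_injective _ h2
  -- the least valuation
  obtain ⟨j0, -, hj0⟩ := Finset.exists_min_image (Finset.univ : Finset (Fin i))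
    (fun j => ((q j) ^ (r - 1) - 1).factorization r) ⟨⟨0, hi0⟩, mem_univ _⟩
  set v := ((q j0) ^ (r - 1) - 1).factorization r with hv
  have hv0 := hheavy (q j0) (hqmem j0)
  rw [← hv] at hv0
  set T := (P : ℝ) ^ η with hT
  have hT1 : 1 ≤ T := Real.one_le_rpow hP1 hη.le
  set u := ⌊T⌋₊ with hu
  have huT : (u : ℝ) ≤ T := Nat.floor_le (by linarith)
  have hTu : T ≤ u + 1 := (Nat.lt_floor_add_one T).le
  have hlogP : 0 ≤ log (P : ℝ) := log_nonneg hP1
  have hPu : P ^ u < r ^ v := by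
    have h1 : (P : ℝ) ^ u < (r : ℝ) ^ v := by
      have hr0 : (0 : ℝ) < r := by exact_mod_cast (by omega : 0 < r)
      rw [← Real.log_lt_log_iff (by positivity) (by positivity), Real.log_pow, Real.log_pow]
      calc (u : ℝ) * log P ≤ T * log P := mul_le_mul_of_nonneg_right huT hlogP
        _ < v * log r := hv0
    exact_mod_cast h1
  have hg := gap_principle r v P u i hr q (fun j => (hH _ (hqmem j)).1) hqinj
    (fun j => (hH _ (hqmem j)).2) (by
      intro j
      have h1 : v ≤ ((q j) ^ (r - 1) - 1).factorization r := hj0 j (mem_univ _)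
      exact (Nat.pow_dvd_pow r h1).trans (Nat.ordProj_dvd _ _)) hPu
  have hpc : ((u : ℝ) + 1) ^ i ≤ (i.factorial : ℝ) * ((i + u).choose i : ℝ) := by
    have h1 := Nat.pow_le_choose (α := ℝ) i (i + u)
    have h2 : i + u + 1 - i = u + 1 := by omega
    rw [h2] at h1
    push_cast at h1
    rw [div_le_iff₀ (by positivity)] at h1
    linarith
  have hch : ((i + u).choose i : ℝ) ≤ P := by
    exact_mod_cast (hg.trans (by omega) : (i + u).choose i ≤ P)
  have hTi : (P : ℝ) ^ 2 ≤ T ^ i := by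
    rw [hT, ← Real.rpow_natCast ((P : ℝ) ^ η) i, ← Real.rpow_mul hP0.le, ← Real.rpow_natCast (P : ℝ) 2]
    apply Real.rpow_le_rpow_of_exponent_le hP1
    push_cast
    exact hi1
  have hfin : (P : ℝ) ^ 2 ≤ i.factorial * P := by
    calc (P : ℝ) ^ 2 ≤ T ^ i := hTi
      _ ≤ ((u : ℝ) + 1) ^ i := pow_le_pow_left₀ (by linarith) hTu _
      _ ≤ (i.factorial : ℝ) * ((i + u).choose i : ℝ) := hpc
      _ ≤ i.factorial * P := by
          apply mul_le_mul_of_nonneg_left hch; positivity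
  have hPf : (P : ℝ) ≤ i.factorial := by
    have h1 : (P : ℝ) * P ≤ i.factorial * P := by rw [← sq]; exact hfin
    exact le_of_mul_le_mul_right h1 hP0
  have hPf' : P ≤ i.factorial := by exact_mod_cast hPf
  have hHc : H.card ≤ P := by
    have h1 : H ⊆ Finset.Icc 1 P := by
      intro x hx
      rw [mem_Icc]
      exact ⟨(hH x hx).1.one_lt.le, (hH x hx).2⟩
    simpa using Finset.card_le_card h1
  omega
-- END D9

-- BEGIN D10
/-- D10. divisor bound -/
lemma tau_bound (η : ℝ) (hη : 0 < η) : ∃ C : ℝ, 1 ≤ C ∧ ∀ n : ℕ, 1 ≤ n →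
    (n.divisors.card : ℝ) ≤ C * (n : ℝ) ^ η := by
  set Y := (2 : ℝ) ^ (1 / η) with hY
  set C0 := 1 + 1 / (η * log 2) with hC0
  have hlog2 : 0 < log (2 : ℝ) := Real.log_pos (by norm_num)
  have hC01 : 1 ≤ C0 := by
    rw [hC0]
    have : 0 < 1 / (η * log 2) := by positivity
    linarith
  refine ⟨C0 ^ (⌈Y⌉₊ + 1), one_le_pow₀ hC01, ?_⟩
  intro n hn
  have hn0 : n ≠ 0 := by omega
  have hcard : (n.divisors.card : ℝ) = ∏ p ∈ n.primeFactors, ((n.factorization p : ℝ) + 1) := by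
    rw [Nat.card_divisors hn0]
    push_cast
    rfl
  have hnprod : (n : ℝ) ^ η = ∏ p ∈ n.primeFactors, (((p : ℝ) ^ n.factorization p) ^ η) := by
    conv_lhs => rw [← Nat.prod_factorization_pow_eq_self hn0]
    rw [Finsupp.prod]
    push_cast
    rw [← Real.finsetProd_rpow]
    · rfl
    · intro i _; positivity
  have hterm : ∀ p ∈ n.primeFactors, ((n.factorization p : ℝ) + 1) ≤
      (if p < ⌈Y⌉₊ + 1 then C0 else 1) * (((p : ℝ) ^ n.factorization p) ^ η) := by
    intro p hp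
    have hpp := Nat.prime_of_mem_primeFactors hp
    have hp2 : (2 : ℝ) ≤ p := by exact_mod_cast hpp.two_le
    set v := n.factorization p with hv
    split_ifs with hlt
    · -- small prime
      have h1 : ((2 : ℝ) ^ v) ^ η ≤ ((p : ℝ) ^ v) ^ η := by
        apply Real.rpow_le_rpow (by positivity) _ hη.le
        exact pow_le_pow_left₀ (by norm_num) hp2 _
      have h2 : 1 + η * log 2 * v ≤ ((2 : ℝ) ^ v) ^ η := by
        rw [Real.rpow_def_of_pos (by positivity), Real.log_pow]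
        have := Real.add_one_le_exp ((v : ℝ) * log 2 * η)
        linarith
      have h3 : (v : ℝ) + 1 ≤ C0 * (1 + η * log 2 * v) := by
        rw [hC0]
        have h4 : (1 + 1 / (η * log 2)) * (1 + η * log 2 * v) =
            1 + η * log 2 * v + 1 / (η * log 2) + v := by
          field_simp
          ring
        rw [h4]
        have : 0 < 1 / (η * log 2) := by positivity
        have : 0 ≤ η * log 2 * v := by positivity
        linarith
      calc (v : ℝ) + 1 ≤ C0 * (1 + η * log 2 * v) := h3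
        _ ≤ C0 * ((p : ℝ) ^ v) ^ η := by
            apply mul_le_mul_of_nonneg_left (h2.trans h1); linarith
    · -- large prime
      have hpY : Y ≤ p := by
        push Not at hlt
        have h1 : (⌈Y⌉₊ : ℝ) ≤ p := by exact_mod_cast (by omega : ⌈Y⌉₊ ≤ p)
        exact (Nat.le_ceil Y).trans h1
      have h2 : (2 : ℝ) ≤ (p : ℝ) ^ η := by
        calc (2 : ℝ) = Y ^ η := by
              rw [hY, ← Real.rpow_mul (by norm_num)]
              field_simp
              simp
          _ ≤ (p : ℝ) ^ η := Real.rpow_le_rpow (by positivity) hpY hη.le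
      have h3 : ((p : ℝ) ^ v) ^ η = ((p : ℝ) ^ η) ^ v := by
        rw [← Real.rpow_natCast, ← Real.rpow_mul (by positivity), ← Real.rpow_natCast ((p : ℝ) ^ η),
          ← Real.rpow_mul (by positivity), mul_comm]
      have h4 : ((v : ℝ) + 1) ≤ 2 ^ v := by
        have : v + 1 ≤ 2 ^ v := Nat.lt_two_pow_self
        exact_mod_cast this
      rw [one_mul, h3]
      exact h4.trans (pow_le_pow_left₀ (by norm_num) h2 _)
  rw [hcard, hnprod]
  calc ∏ p ∈ n.primeFactors, ((n.factorization p : ℝ) + 1)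
      ≤ ∏ p ∈ n.primeFactors, ((if p < ⌈Y⌉₊ + 1 then C0 else 1) *
          (((p : ℝ) ^ n.factorization p) ^ η)) := by
        apply Finset.prod_le_prod _ hterm
        intro i _; positivity
    _ = (∏ p ∈ n.primeFactors, (if p < ⌈Y⌉₊ + 1 then C0 else 1)) *
          ∏ p ∈ n.primeFactors, (((p : ℝ) ^ n.factorization p) ^ η) := Finset.prod_mul_distrib
    _ ≤ C0 ^ (⌈Y⌉₊ + 1) * ∏ p ∈ n.primeFactors, (((p : ℝ) ^ n.factorization p) ^ η) := by
        apply mul_le_mul_of_nonneg_right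
        · rw [Finset.prod_ite, prod_const, prod_const_one, mul_one]
          apply pow_le_pow_right₀ hC01
          have h1 : (n.primeFactors.filter (fun p => p < ⌈Y⌉₊ + 1)) ⊆ range (⌈Y⌉₊ + 1) := by
            intro x hx
            rw [mem_filter] at hx
            rw [mem_range]; exact hx.2
          simpa using Finset.card_le_card h1
        · apply Finset.prod_nonneg; intro i _; positivity
-- END D10

-- BEGIN D11
/-- D11. one column.  `f` = a maximizer of `q ↦ bb N q r` on `N.primeFactors`.  For `q ≠ f`: if `bb N q r ≤ P^η log P`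
nothing to do; otherwise `q` is one of at most `I` heavy ones (D9) and `bb N q r ≤ √(2P) log P` by D8 with
`v` = the smaller of the two valuations. -/
lemma column_bound (η : ℝ) (hη : 0 < η) : ∃ I : ℕ, ∀ (N P r : ℕ), Odd N → Nat.Perfect N →
    (∀ p ∈ N.primeFactors, p ≤ P) → r ∈ N.primeFactors → ∃ f ∈ N.primeFactors,
      ∑ q ∈ N.primeFactors.erase f, bb N q r ≤
        ((N.primeFactors.filter (fun q => bb N q r ≠ 0)).card : ℝ) * ((P : ℝ) ^ η * log P) +
          I * (√(2 * P) * log P) := by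
  obtain ⟨I, hI⟩ := heavy_count η hη
  refine ⟨I, ?_⟩
  intro N P r _ _ hP hr
  obtain ⟨f, hf, hmax⟩ := exists_max_image N.primeFactors (fun q => bb N q r) ⟨r, hr⟩
  refine ⟨f, hf, ?_⟩
  have hrp : r.Prime := Nat.prime_of_mem_primeFactors hr
  have hrP : r ≤ P := hP r hr
  have hlr : 0 < log (r : ℝ) := log_pos (by exact_mod_cast hrp.one_lt)
  have hlP : 0 ≤ log (P : ℝ) := log_natCast_nonneg P
  set B1 : ℝ := (P : ℝ) ^ η * log P with hB1
  set B2 : ℝ := √(2 * P) * log P with hB2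
  have hB1' : 0 ≤ B1 := by positivity
  have hB2' : 0 ≤ B2 := by positivity
  have hval : ∀ q, bb N q r ≠ 0 → bb N q r = ((q ^ (r - 1) - 1).factorization r : ℝ) * log r := by
    intro q hq
    unfold bb at hq ⊢
    split_ifs with h
    · rfl
    · rw [if_neg h] at hq
      exact absurd rfl hq
  set H : Finset ℕ := (N.primeFactors.erase f).filter (fun q => B1 < bb N q r) with hH
  have hHI : H.card ≤ I := by
    refine hI P r H hrp hrP ?_ ?_
    · intro q hq
      have h1 : q ∈ N.primeFactors := mem_of_mem_erase (mem_filter.mp hq).1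
      exact ⟨Nat.prime_of_mem_primeFactors h1, hP q h1⟩
    · intro q hq
      have h1 : B1 < bb N q r := (mem_filter.mp hq).2
      have h2 : bb N q r ≠ 0 := by
        intro h3
        rw [h3] at h1
        linarith
      rw [← hval q h2]
      exact h1
  have hpt : ∀ q ∈ N.primeFactors.erase f, bb N q r ≤
      (if bb N q r ≠ 0 then B1 else 0) + (if q ∈ H then B2 else 0) := by
    intro q hq
    have hq1 : q ∈ N.primeFactors := mem_of_mem_erase hq
    have hqf : q ≠ f := ne_of_mem_erase hq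
    by_cases h0 : bb N q r = 0
    · rw [h0, if_neg (by simp)]
      split_ifs <;> simp [hB2']
    · by_cases h1 : B1 < bb N q r
      · have hqH : q ∈ H := mem_filter.mpr ⟨hq, h1⟩
        rw [if_pos h0, if_pos hqH]
        have hfmax : bb N q r ≤ bb N f r := hmax q hq1
        have hf0 : bb N f r ≠ 0 := by
          intro h2
          linarith
        have e1 := hval q h0
        have e2 := hval f hf0
        have hvle : (q ^ (r - 1) - 1).factorization r ≤ (f ^ (r - 1) - 1).factorization r := by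
          rw [e1, e2] at hfmax
          exact_mod_cast le_of_mul_le_mul_right hfmax hlr
        have h3 := heavy_second r ((q ^ (r - 1) - 1).factorization r) P q f hrp hrP
          (Nat.prime_of_mem_primeFactors hq1) (Nat.prime_of_mem_primeFactors hf) hqf (hP q hq1)
          (hP f hf) (Nat.ordProj_dvd _ _)
          ((pow_dvd_pow r hvle).trans (Nat.ordProj_dvd _ _))
        rw [← e1] at h3
        linarith
      · rw [if_pos h0]
        have : 0 ≤ (if q ∈ H then B2 else 0) := by split_ifs <;> simp [hB2']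
        linarith
  refine (sum_le_sum hpt).trans ?_
  rw [sum_add_distrib]
  have s1 : ∑ q ∈ N.primeFactors.erase f, (if bb N q r ≠ 0 then B1 else 0) ≤
      ((N.primeFactors.filter (fun q => bb N q r ≠ 0)).card : ℝ) * B1 := by
    refine (sum_le_sum_of_subset_of_nonneg (erase_subset f _) ?_).trans ?_
    · intro i _ _
      split_ifs <;> simp [hB1']
    · rw [← sum_filter, sum_const, nsmul_eq_mul]
  have s2 : ∑ q ∈ N.primeFactors.erase f, (if q ∈ H then B2 else 0) ≤ I * B2 := by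
    rw [← sum_filter, sum_const, nsmul_eq_mul]
    refine mul_le_mul_of_nonneg_right ?_ hB2'
    have h4 : ((N.primeFactors.erase f).filter (fun q => q ∈ H)).card ≤ H.card :=
      card_le_card fun q hq => (mem_filter.mp hq).2
    exact_mod_cast h4.trans hHI
  exact add_le_add s1 s2
-- END D11

-- BEGIN D12
private lemma d12_logsum (n : ℕ) (V : Finset ℕ) :
    ∑ r ∈ V, (n.factorization r : ℝ) * log r ≤ log n := by
  classical
  rw [Real.log_nat_eq_sum_factorization, Finsupp.sum, Nat.support_factorization]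
  have h1 : ∑ r ∈ V, (n.factorization r : ℝ) * log r =
      ∑ r ∈ V.filter (· ∈ n.primeFactors), (n.factorization r : ℝ) * log r := by
    refine (Finset.sum_filter_of_ne fun r _ hr => ?_).symm
    rw [← Nat.support_factorization, Finsupp.mem_support_iff]
    intro h0
    apply hr
    rw [h0]
    simp
  rw [h1]
  refine Finset.sum_le_sum_of_subset_of_nonneg ?_ ?_
  · intro r hr
    exact (Finset.mem_filter.1 hr).2
  · intro r _ _
    exact mul_nonneg (Nat.cast_nonneg _) (log_natCast_nonneg r)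

private lemma d12_card (N P q : ℕ) (hP : ∀ p ∈ N.primeFactors, p ≤ P)
    (hq : q ∈ N.primeFactors) :
    ((N.primeFactors.filter (fun r => bb N q r ≠ 0)).card : ℝ) ≤
      ((nn N q).divisors.card : ℝ) * √(P * log P) := by
  classical
  have hqp : q.Prime := Nat.prime_of_mem_primeFactors hq
  refine le_trans ?_ (count_order P q (nn N q) hqp.two_le (hP q hq) (by unfold nn; omega))
  refine Nat.cast_le.2 (Finset.card_le_card ?_)
  intro r hr
  obtain ⟨hr1, hr2⟩ := Finset.mem_filter.1 hr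
  have hb : r ∣ Sq N q ∧ ¬ r ∣ q - 1 := by
    by_contra hcon
    apply hr2
    unfold bb
    rw [if_neg hcon]
  refine Finset.mem_filter.2 ⟨Finset.mem_range.2 (by have := hP r hr1; omega),
    Nat.prime_of_mem_primeFactors hr1, hb.2, ?_⟩
  have h1 : q ^ nn N q - 1 = (q - 1) * Sq N q := by
    have := Sb.sg_pow hqp (N.factorization q)
    unfold nn Sq
    omega
  rw [h1]
  exact Dvd.dvd.mul_left hb.1 _

private lemma d12_real {η K T I x L : ℝ} (hη : 0 < η) (hK : 1 ≤ K) (hT : 0 ≤ T) (hI : 0 ≤ I)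
    (hx : 1 ≤ x) (hL0 : 0 ≤ L) (hL : L ≤ K * x ^ η) :
    x * (T * (x ^ 3) ^ η * √(x * L)) * (x ^ η * L) + x * (I * (√(2 * x) * L)) +
      x * (3 * L) ≤ (T * K ^ 2 + √2 * I * K + 3 * K) * x ^ (3 / 2 + 6 * η) := by
  have hx0 : 0 < x := by linarith
  set y : ℝ := x ^ η with hy
  have hy1 : 1 ≤ y := one_le_rpow hx hη.le
  set s : ℝ := √x with hs
  have hs1 : 1 ≤ s := Real.one_le_sqrt.2 hx
  have e1 : (x ^ 3) ^ η = y ^ 3 := by
    rw [hy, ← rpow_natCast x 3, ← rpow_natCast (x ^ η) 3, ← rpow_mul hx0.le, ← rpow_mul hx0.le,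
      mul_comm]
  have hKy : 1 ≤ K * y := by nlinarith
  have e2 : √(x * L) ≤ s * (K * y) := by
    rw [Real.sqrt_mul hx0.le]
    refine mul_le_mul_of_nonneg_left ?_ (by positivity)
    refine (Real.sqrt_le_sqrt hL).trans ?_
    rw [Real.sqrt_le_left (by linarith)]
    nlinarith
  have e3 : √(2 * x) = √2 * s := Real.sqrt_mul (by norm_num) x
  have e4 : x ^ (3 / 2 + 6 * η) = x * s * y ^ 6 := by
    rw [rpow_add hx0, hs, Real.sqrt_eq_rpow, hy, ← rpow_natCast (x ^ η) 6, ← rpow_mul hx0.le,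
      show (3 / 2 : ℝ) = 1 + 1 / 2 by norm_num, rpow_add hx0, rpow_one]
    congr 2
    push_cast
    ring
  have hy6 : 1 ≤ y ^ 6 := one_le_pow₀ hy1
  have hy5 : y ≤ y ^ 6 := by
    calc y = y ^ 1 := (pow_one y).symm
      _ ≤ y ^ 6 := pow_le_pow_right₀ hy1 (by norm_num)
  have hsq : 0 ≤ √(2 : ℝ) := Real.sqrt_nonneg 2
  rw [e1, e3, e4]
  have hK0 : 0 ≤ K := by linarith
  have hy0 : 0 ≤ y := by linarith
  have hs0 : 0 ≤ s := by linarith
  have t1 : x * (T * y ^ 3 * √(x * L)) * (y * L) ≤ T * K ^ 2 * (x * s * y ^ 6) := by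
    calc x * (T * y ^ 3 * √(x * L)) * (y * L) ≤ x * (T * y ^ 3 * (s * (K * y))) * (y * (K * y)) := by
          gcongr
      _ = T * K ^ 2 * (x * s * y ^ 6) := by ring
  have t2 : x * (I * (√2 * s * L)) ≤ √2 * I * K * (x * s * y ^ 6) := by
    calc x * (I * (√2 * s * L)) ≤ x * (I * (√2 * s * (K * y))) := by gcongr
      _ ≤ x * (I * (√2 * s * (K * y ^ 6))) := by gcongr
      _ = √2 * I * K * (x * s * y ^ 6) := by ring
  have t3 : x * (3 * L) ≤ 3 * K * (x * s * y ^ 6) := by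
    calc x * (3 * L) ≤ x * (3 * (K * y)) := by gcongr
      _ ≤ x * (3 * (K * y ^ 6)) := by gcongr
      _ = 3 * K * (x * 1 * y ^ 6) := by ring
      _ ≤ 3 * K * (x * s * y ^ 6) := by gcongr
  calc _ ≤ T * K ^ 2 * (x * s * y ^ 6) + √2 * I * K * (x * s * y ^ 6) +
        3 * K * (x * s * y ^ 6) := add_le_add (add_le_add t1 t2) t3
    _ = _ := by ring

/-- D12. `∑_r v_r(n) log r ≤ log n ≤ 3 log P`, double counting of the pairs with `bb ≠ 0` by D5 with
`n = n_q ≤ P^3` (`r ∣ Sq N q ∣ q^n - 1`), D10 with `η`, `log P ≤ C P^η`, `η = ε/10`: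
total `≤ P log n + (∑_q τ(n_q) √(P log P)) P^η log P + P I √(2P) log P ≤ C P^(3/2+ε)`. -/
theorem inerr_bound (ε : ℝ) (hε : 0 < ε) : ∃ C : ℝ, 0 ≤ C ∧ ∀ (N P : ℕ), Odd N → Nat.Perfect N →
    (∀ p ∈ N.primeFactors, p ≤ P) → ∃ f : ℕ → ℕ, (∀ r ∈ N.primeFactors, f r ∈ N.primeFactors) ∧
      ∑ r ∈ N.primeFactors, ∑ q ∈ N.primeFactors.erase (f r), aa N q r ≤
        C * (P : ℝ) ^ (3 / 2 + ε) := by
  classical
  set η : ℝ := min (ε / 10) 1 with hηdef
  have hη : 0 < η := lt_min (by linarith) one_pos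
  have hη1 : η ≤ 1 := min_le_right _ _
  have hηε : 6 * η ≤ ε := by
    have := min_le_left (ε / 10) 1
    linarith
  obtain ⟨I, hI⟩ := column_bound η hη
  obtain ⟨T, hT1, hT⟩ := tau_bound η hη
  set K : ℝ := 1 / η with hKdef
  have hK : 1 ≤ K := by
    rw [hKdef, le_div_iff₀ hη]
    linarith
  refine ⟨T * K ^ 2 + √2 * I * K + 3 * K, by positivity, ?_⟩
  intro N P hodd hN hP
  rcases N.primeFactors.eq_empty_or_nonempty with hV | ⟨p0, hp0⟩
  · refine ⟨id, by simp [hV], ?_⟩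
    rw [hV, Finset.sum_empty]
    positivity
  have hP1 : 1 ≤ P := (Nat.prime_of_mem_primeFactors hp0).one_lt.le.trans (hP p0 hp0)
  have hx : (1 : ℝ) ≤ P := by exact_mod_cast hP1
  have hL0 : 0 ≤ log (P : ℝ) := log_nonneg hx
  have hL : log (P : ℝ) ≤ K * (P : ℝ) ^ η := by
    refine (Real.log_le_rpow_div (Nat.cast_nonneg P) hη).trans (le_of_eq ?_)
    rw [hKdef]
    ring
  have hcard : (N.primeFactors.card : ℝ) ≤ P := by
    have h1 : N.primeFactors ⊆ Finset.Icc 1 P := fun r hr =>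
      Finset.mem_Icc.2 ⟨(Nat.prime_of_mem_primeFactors hr).pos, hP r hr⟩
    have h2 := Finset.card_le_card h1
    rw [Nat.card_Icc] at h2
    exact_mod_cast (by omega : N.primeFactors.card ≤ P)
  have hcol := fun r hr => hI N P r hodd hN hP hr
  choose! f hf hfb using hcol
  refine ⟨f, hf, ?_⟩
  have hbb0 : ∀ q r, 0 ≤ (((nn N q).factorization r : ℝ) * log r) := fun q r =>
    mul_nonneg (Nat.cast_nonneg _) (log_natCast_nonneg r)
  -- the bound for the number of exceptional pairs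
  have hpairs : ∑ r ∈ N.primeFactors, ((N.primeFactors.filter (fun q => bb N q r ≠ 0)).card : ℝ) ≤
      P * (T * ((P : ℝ) ^ 3) ^ η * √(P * log P)) := by
    have h1 : ∑ r ∈ N.primeFactors, ((N.primeFactors.filter (fun q => bb N q r ≠ 0)).card : ℝ) =
        ∑ q ∈ N.primeFactors, ((N.primeFactors.filter (fun r => bb N q r ≠ 0)).card : ℝ) := by
      simp only [Finset.card_filter, Nat.cast_sum]
      exact Finset.sum_comm
    rw [h1]
    have h2 : ∀ q ∈ N.primeFactors,
        ((N.primeFactors.filter (fun r => bb N q r ≠ 0)).card : ℝ) ≤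
          T * ((P : ℝ) ^ 3) ^ η * √(P * log P) := by
      intro q hq
      refine (d12_card N P q hP hq).trans ?_
      refine mul_le_mul_of_nonneg_right ?_ (Real.sqrt_nonneg _)
      refine (hT (nn N q) (by unfold nn; omega)).trans ?_
      refine mul_le_mul_of_nonneg_left ?_ (by linarith)
      refine rpow_le_rpow (Nat.cast_nonneg _) ?_ hη.le
      exact_mod_cast nn_le N P q hodd hN hP hq
    calc ∑ q ∈ N.primeFactors, ((N.primeFactors.filter (fun r => bb N q r ≠ 0)).card : ℝ)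
        ≤ ∑ _q ∈ N.primeFactors, T * ((P : ℝ) ^ 3) ^ η * √(P * log P) := Finset.sum_le_sum h2
      _ = (N.primeFactors.card : ℝ) * (T * ((P : ℝ) ^ 3) ^ η * √(P * log P)) := by
        rw [Finset.sum_const, nsmul_eq_mul]
      _ ≤ P * (T * ((P : ℝ) ^ 3) ^ η * √(P * log P)) :=
        mul_le_mul_of_nonneg_right hcard (by positivity)
  -- the part with the exponents
  have hexp : ∑ r ∈ N.primeFactors, ∑ q ∈ N.primeFactors.erase (f r),
      ((nn N q).factorization r : ℝ) * log r ≤ P * (3 * log P) := by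
    calc ∑ r ∈ N.primeFactors, ∑ q ∈ N.primeFactors.erase (f r),
          ((nn N q).factorization r : ℝ) * log r
        ≤ ∑ r ∈ N.primeFactors, ∑ q ∈ N.primeFactors,
          ((nn N q).factorization r : ℝ) * log r := by
          refine Finset.sum_le_sum fun r _ => ?_
          exact Finset.sum_le_sum_of_subset_of_nonneg (Finset.erase_subset _ _)
            fun q _ _ => hbb0 q r
      _ = ∑ q ∈ N.primeFactors, ∑ r ∈ N.primeFactors,
          ((nn N q).factorization r : ℝ) * log r := Finset.sum_comm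
      _ ≤ ∑ _q ∈ N.primeFactors, 3 * log P := by
          refine Finset.sum_le_sum fun q hq => (d12_logsum _ _).trans ?_
          have h1 : ((nn N q : ℕ) : ℝ) ≤ (P : ℝ) ^ 3 := by
            exact_mod_cast nn_le N P q hodd hN hP hq
          have h2 : (0 : ℝ) < ((nn N q : ℕ) : ℝ) := by
            unfold nn
            positivity
          have h3 := Real.log_le_log h2 h1
          rw [Real.log_pow] at h3
          exact_mod_cast h3
      _ = (N.primeFactors.card : ℝ) * (3 * log P) := by rw [Finset.sum_const, nsmul_eq_mul]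
      _ ≤ P * (3 * log P) := mul_le_mul_of_nonneg_right hcard (by positivity)
  have hmain : ∑ r ∈ N.primeFactors, ∑ q ∈ N.primeFactors.erase (f r), bb N q r ≤
      P * (T * ((P : ℝ) ^ 3) ^ η * √(P * log P)) * ((P : ℝ) ^ η * log P) +
        P * (I * (√(2 * P) * log P)) := by
    calc ∑ r ∈ N.primeFactors, ∑ q ∈ N.primeFactors.erase (f r), bb N q r
        ≤ ∑ r ∈ N.primeFactors,
          (((N.primeFactors.filter (fun q => bb N q r ≠ 0)).card : ℝ) *
            ((P : ℝ) ^ η * log P) + I * (√(2 * P) * log P)) :=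
          Finset.sum_le_sum fun r hr => hfb r hr
      _ = (∑ r ∈ N.primeFactors, ((N.primeFactors.filter (fun q => bb N q r ≠ 0)).card : ℝ)) *
            ((P : ℝ) ^ η * log P) + (N.primeFactors.card : ℝ) * (I * (√(2 * P) * log P)) := by
          rw [Finset.sum_add_distrib, Finset.sum_mul, Finset.sum_const, nsmul_eq_mul]
      _ ≤ _ := by
          refine add_le_add (mul_le_mul_of_nonneg_right hpairs (by positivity)) ?_
          exact mul_le_mul_of_nonneg_right hcard (by positivity)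
  calc ∑ r ∈ N.primeFactors, ∑ q ∈ N.primeFactors.erase (f r), aa N q r
      ≤ ∑ r ∈ N.primeFactors, ∑ q ∈ N.primeFactors.erase (f r),
        (bb N q r + ((nn N q).factorization r : ℝ) * log r) := by
        refine Finset.sum_le_sum fun r hr => Finset.sum_le_sum fun q hq => ?_
        exact aa_le N q r hodd hN (Finset.mem_of_mem_erase hq) hr
    _ = (∑ r ∈ N.primeFactors, ∑ q ∈ N.primeFactors.erase (f r), bb N q r) +
        ∑ r ∈ N.primeFactors, ∑ q ∈ N.primeFactors.erase (f r),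
          ((nn N q).factorization r : ℝ) * log r := by
        rw [← Finset.sum_add_distrib]
        refine Finset.sum_congr rfl fun r _ => Finset.sum_add_distrib
    _ ≤ (P * (T * ((P : ℝ) ^ 3) ^ η * √(P * log P)) * ((P : ℝ) ^ η * log P) +
        P * (I * (√(2 * P) * log P))) + P * (3 * log P) := add_le_add hmain hexp
    _ ≤ (T * K ^ 2 + √2 * I * K + 3 * K) * (P : ℝ) ^ (3 / 2 + 6 * η) :=
        d12_real hη hK (by linarith) (Nat.cast_nonneg I) hx hL0 hL
    _ ≤ (T * K ^ 2 + √2 * I * K + 3 * K) * (P : ℝ) ^ (3 / 2 + ε) := by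
        refine mul_le_mul_of_nonneg_left ?_ (by positivity)
        exact rpow_le_rpow_of_exponent_le hx (by linarith)
-- END D12

-- BEGIN D13
/-- the analytic part of D13 -/
lemma d13_real (C0 : ℕ) (hC0 : 1 ≤ C0) (n l W ms aav lq : ℝ) (hl : 1 ≤ l) (hn1 : 1 ≤ n)
    (hn : log n ≤ 3 * l)
    (hb : n ≤ C0 * (l * (1 + log n)) ^ C0 * (1 + log W)) (hW : 0 ≤ log W)
    (hms0 : 0 ≤ ms) (hms : ms ≤ n * l) (hnq : n * lq = ms + lq) (hlq : lq ≤ l)
    (haa : aav ≤ n * lq - log W) :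
    aav ≤ (1 - 1 / (((C0 * 4 ^ C0 + (2 * C0 + 1) : ℕ) : ℝ) * l ^ (C0 * 4 ^ C0 + (2 * C0 + 1)))) * ms
      + (l + 1) := by
  have hl0 : 0 < l := by linarith
  have hC0' : (1 : ℝ) ≤ C0 := by exact_mod_cast hC0
  have hlogn : 0 ≤ log n := log_nonneg hn1
  set D : ℝ := C0 * (4 * l ^ 2) ^ C0 with hD
  have hDpos : 0 < D := by positivity
  have h1 : l * (1 + log n) ≤ 4 * l ^ 2 := by nlinarith
  have h2 : (l * (1 + log n)) ^ C0 ≤ (4 * l ^ 2) ^ C0 := pow_le_pow_left₀ (by positivity) h1 _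
  have h3 : n ≤ D * (1 + log W) := by
    refine hb.trans ?_
    rw [hD]
    exact mul_le_mul_of_nonneg_right (mul_le_mul_of_nonneg_left h2 (by positivity))
      (by linarith)
  have h4 : n / D ≤ 1 + log W := by
    rw [div_le_iff₀ hDpos]
    linarith
  -- the constant
  set E : ℕ := C0 * 4 ^ C0 + (2 * C0 + 1) with hE
  have hE1 : (C0 : ℝ) * 4 ^ C0 ≤ (E : ℝ) := by
    rw [hE]
    push_cast
    have : (0 : ℝ) ≤ 2 * C0 + 1 := by positivity
    linarith
  have hEpos : (0 : ℝ) < E := by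
    have : (0 : ℝ) < (C0 : ℝ) * 4 ^ C0 := by positivity
    linarith
  have hpow : l ^ (2 * C0 + 1) ≤ l ^ E := pow_le_pow_right₀ hl (by omega)
  have h5 : D * l ≤ (E : ℝ) * l ^ E := by
    have e1 : D * l = (C0 * 4 ^ C0) * l ^ (2 * C0 + 1) := by
      rw [hD, mul_pow, ← pow_mul, pow_succ]
      ring
    rw [e1]
    exact mul_le_mul hE1 hpow (by positivity) hEpos.le
  have h6 : ms / ((E : ℝ) * l ^ E) ≤ n / D := by
    calc ms / ((E : ℝ) * l ^ E) ≤ ms / (D * l) :=
          div_le_div_of_nonneg_left hms0 (by positivity) h5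
      _ ≤ (n * l) / (D * l) := div_le_div_of_nonneg_right hms (by positivity)
      _ = n / D := by field_simp
  have e2 : (1 - 1 / ((E : ℝ) * l ^ E)) * ms = ms - ms / ((E : ℝ) * l ^ E) := by ring
  rw [e2]
  linarith

/-- D13. one prime `r` takes at most a proportion `1 - δ` of `σ(q^e)`.  `r ≠ q` (otherwise `aa = 0`).
`q^n - 1 = W r^a`, `a = v_r(q^n - 1)`, `W` even so `≥ 2`; `baker` with `g = 1`, `s = {r}`, `lam = log P ≥ 1`,
`n ≤ P^3` (D2), `1 + log n ≤ 4 log P`: `1 + log W ≥ n / (C (4 (log P)^2)^C)`, and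
`aa ≤ a log r = log (q^n - 1) - log W ≤ n log q - n/(C (4 (log P)^2)^C) + 1`, `n log q = mass + log q`,
`n ≥ mass / log P`. -/
theorem baker_step : ∃ C : ℕ, 1 ≤ C ∧ ∀ (N P : ℕ), Odd N → Nat.Perfect N →
    (∀ p ∈ N.primeFactors, p ≤ P) → ∀ q ∈ N.primeFactors, ∀ r ∈ N.primeFactors,
      aa N q r ≤ (1 - 1 / (C * (log P) ^ C)) * mass N q + (log P + 1) := by
  obtain ⟨C0, hC0, hbaker⟩ := baker 1
  refine ⟨C0 * 4 ^ C0 + (2 * C0 + 1), by omega, ?_⟩
  intro N P hodd hN hP q hq r hr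
  have hqp : q.Prime := Nat.prime_of_mem_primeFactors hq
  have hrp : r.Prime := Nat.prime_of_mem_primeFactors hr
  have hq2 : q ≠ 2 := by
    rintro rfl
    have h2 : 2 ∣ N := Nat.dvd_of_mem_primeFactors hq
    exact (Nat.not_even_iff_odd.mpr hodd) (even_iff_two_dvd.mpr h2)
  have hr2 : r ≠ 2 := by
    rintro rfl
    have h2 : 2 ∣ N := Nat.dvd_of_mem_primeFactors hr
    exact (Nat.not_even_iff_odd.mpr hodd) (even_iff_two_dvd.mpr h2)
  have hq3 : 3 ≤ q := by have := hqp.two_le; omega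
  have hqP : q ≤ P := hP q hq
  have hrP : r ≤ P := hP r hr
  have hP3 : 3 ≤ P := hq3.trans hqP
  have hPpos : (0 : ℝ) < P := by exact_mod_cast (by omega : 0 < P)
  have hl1 : 1 ≤ log (P : ℝ) := by
    rw [le_log_iff_exp_le hPpos]
    have h1 : exp 1 < 3 := by
      have := exp_one_lt_d9
      linarith
    have h2 : (3 : ℝ) ≤ P := by exact_mod_cast hP3
    linarith
  have hqpos : (0 : ℝ) < q := by exact_mod_cast hqp.pos
  have hrpos : (0 : ℝ) < r := by exact_mod_cast hrp.pos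
  have hlqP : log (q : ℝ) ≤ log P := log_le_log hqpos (by exact_mod_cast hqP)
  have hlrP : log (r : ℝ) ≤ log P := log_le_log hrpos (by exact_mod_cast hrP)
  have hlq0 : 0 ≤ log (q : ℝ) := log_natCast_nonneg q
  have hlr0 : 0 ≤ log (r : ℝ) := log_natCast_nonneg r
  set e : ℕ := N.factorization q with he
  have hnn : nn N q = e + 1 := rfl
  have hmass0 : 0 ≤ mass N q := by unfold mass; positivity
  have hSpos : 0 < Sq N q := Sb.sg_pos (pow_pos hqp.pos _)
  have hn1 : (1 : ℝ) ≤ ((e + 1 : ℕ) : ℝ) := by push_cast; linarith [(Nat.cast_nonneg e : (0:ℝ) ≤ e)]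
  have hnP : log ((e + 1 : ℕ) : ℝ) ≤ 3 * log P := by
    have h1 : nn N q ≤ P ^ 3 := nn_le N P q hodd hN hP hq
    rw [hnn] at h1
    have h2 : ((e + 1 : ℕ) : ℝ) ≤ (P : ℝ) ^ 3 := by exact_mod_cast h1
    calc log ((e + 1 : ℕ) : ℝ) ≤ log ((P : ℝ) ^ 3) := log_le_log (by linarith) h2
      _ = 3 * log P := by rw [log_pow]; norm_num
  have hmsn : mass N q ≤ ((e + 1 : ℕ) : ℝ) * log P := by
    unfold mass
    rw [← he]
    push_cast
    have : (e : ℝ) * log q ≤ e * log P := mul_le_mul_of_nonneg_left hlqP (Nat.cast_nonneg _)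
    linarith
  have hnq : ((e + 1 : ℕ) : ℝ) * log q = mass N q + log q := by
    unfold mass
    rw [← he]
    push_cast
    ring
  by_cases hqr : r = q
  · -- `aa = 0`
    have h0 : aa N q r = 0 := by
      unfold aa
      have h1 : ¬ q ∣ Sq N q := (Nat.Prime.coprime_iff_not_dvd hqp).mp (Sb.coprime_sg_pow hqp _)
      rw [hqr, Nat.factorization_eq_zero_of_not_dvd h1]
      simp
    rw [h0]
    have h1 : (1 : ℝ) ≤ ((C0 * 4 ^ C0 + (2 * C0 + 1) : ℕ) : ℝ) *
        log (P : ℝ) ^ (C0 * 4 ^ C0 + (2 * C0 + 1)) := by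
      have a1 : (1 : ℝ) ≤ ((C0 * 4 ^ C0 + (2 * C0 + 1) : ℕ) : ℝ) := by
        exact_mod_cast (by omega : 1 ≤ C0 * 4 ^ C0 + (2 * C0 + 1))
      have a2 : (1 : ℝ) ≤ log (P : ℝ) ^ (C0 * 4 ^ C0 + (2 * C0 + 1)) := one_le_pow₀ hl1
      nlinarith
    have h2 : 0 ≤ 1 - 1 / (((C0 * 4 ^ C0 + (2 * C0 + 1) : ℕ) : ℝ) *
        log (P : ℝ) ^ (C0 * 4 ^ C0 + (2 * C0 + 1))) := by
      rw [sub_nonneg, div_le_one (by linarith)]
      exact h1
    have h3 := mul_nonneg h2 hmass0
    linarith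
  · -- the main case
    set T : ℕ := q ^ (e + 1) - 1 with hT
    have hqn : 1 < q ^ (e + 1) := Nat.one_lt_pow (by omega) hqp.one_lt
    have hTpos : 0 < T := by omega
    have hTq : q ^ (e + 1) = 1 + T := by omega
    have hTS : T = (q - 1) * Sq N q := by
      have := Sb.sg_pow hqp e
      have h2 : Sq N q = Sb.sg (q ^ e) := rfl
      rw [h2]
      omega
    set a : ℕ := T.factorization r with ha
    set W : ℕ := T / r ^ a with hW
    have hdiv : r ^ a ∣ T := Nat.ordProj_dvd T r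
    have hTW : T = W * r ^ a := by rw [hW, Nat.div_mul_cancel hdiv]
    have hWpos : 0 < W := Nat.pos_of_ne_zero fun h => by rw [h, zero_mul] at hTW; omega
    have hrW : ¬ r ∣ W := Nat.not_dvd_ordCompl hrp hTpos.ne'
    have hTeven : 2 ∣ T := by
      have hqodd : Odd q := hqp.odd_of_ne_two hq2
      have h1 : Odd (q ^ (e + 1)) := hqodd.pow
      rw [hTq] at h1
      obtain ⟨k, hk⟩ := h1
      exact ⟨k, by omega⟩
    have hW2 : 2 ≤ W := by
      have h1 : 2 ∣ W * r ^ a := hTW ▸ hTeven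
      rcases (Nat.Prime.dvd_mul Nat.prime_two).mp h1 with h2 | h2
      · exact Nat.le_of_dvd hWpos h2
      · exact absurd ((Nat.prime_dvd_prime_iff_eq Nat.prime_two hrp).mp
          (Nat.prime_two.dvd_of_dvd_pow h2)).symm hr2
    have hcop : Nat.Coprime q W := by
      rw [Nat.Prime.coprime_iff_not_dvd hqp]
      intro h1
      have h2 : q ∣ T := hTW ▸ Dvd.dvd.mul_right h1 _
      have h3 : q ∣ 1 + T := hTq ▸ dvd_pow_self q (by omega)
      have h4 : q ∣ 1 := (Nat.dvd_add_left h2).mp h3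
      exact hqp.one_lt.ne' (Nat.dvd_one.mp h4)
    have hb := hbaker q W (e + 1) {r} (fun _ => a) (log P) (by simp)
      (by simpa using hrp)
      (by
        intro x hx
        rw [mem_singleton] at hx
        rw [hx]
        exact fun h => hqr ((Nat.prime_dvd_prime_iff_eq hrp hqp).mp h))
      (by
        intro x hx
        rw [mem_singleton] at hx
        rw [hx]
        exact hrW)
      (by omega) hW2 (by omega) hcop
      (by rw [prod_singleton, ← hTW, hTq]) hl1 hlqP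
      (by
        intro x hx
        rw [mem_singleton] at hx
        rw [hx]
        exact hlrP)
    have hWr : (0 : ℝ) < W := by exact_mod_cast hWpos
    have hTr : (0 : ℝ) < T := by exact_mod_cast hTpos
    have haa : aa N q r ≤ ((e + 1 : ℕ) : ℝ) * log q - log W := by
      have h1 : (Sq N q).factorization r ≤ a := by
        rw [ha, hTS]
        exact (Nat.factorization_le_iff_dvd hSpos.ne' (by rw [← hTS]; exact hTpos.ne')).mpr
          (Dvd.intro_left _ rfl) r
      have h2 : aa N q r ≤ (a : ℝ) * log r := by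
        unfold aa
        exact mul_le_mul_of_nonneg_right (by exact_mod_cast h1) hlr0
      have h3 : log (T : ℝ) = log W + a * log r := by
        rw [hTW]
        push_cast
        rw [log_mul hWr.ne' (by positivity), log_pow]
      have h4 : log (T : ℝ) ≤ ((e + 1 : ℕ) : ℝ) * log q := by
        rw [← log_pow]
        refine log_le_log hTr ?_
        have : T ≤ q ^ (e + 1) := by omega
        exact_mod_cast this
      linarith
    exact d13_real C0 hC0 ((e + 1 : ℕ) : ℝ) (log P) W (mass N q) (aa N q r) (log q) hl1 hn1 hnP hb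
      (log_natCast_nonneg W) hmass0 hmsn hnq hlqP haa
-- END D13

-- BEGIN D14
/-- D14. the potential argument.  `G = {r ∈ V : e r + Lg ≤ (δ/2) m r}`.  Bad `r`: `m r < (2/δ)(e r + Lg)`, so
`∑_bad m ≤ B := (2/δ)(E + |V| Lg)`.  For `r ∈ G`: `m r ≤ (1-δ) m (f r) + (δ/2) m r`, so
`m r ≤ (1-δ/2) m (f r)` and `log m (f r) - log m r ≥ δ/2`.
`∑_G m r log m (f r) ≤ ∑_{r ∈ G} (a (f r) r + e r) log m (f r) ≤ ∑_{q ∈ V} log (m q) (m q + 1) + E log Mx`, and
`∑_G m log m ≥ ∑_V m log m - B log Mx`.  So `(δ/2) ∑_G m ≤ log Mx (|V| + E + B)`,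
`∑_V m ≤ (2/δ) log Mx (|V| + E + B) + B ≤ 10/δ^2 (1 + log Mx)(E + |V| (1 + Lg))`. -/
theorem potential {ι : Type*} [DecidableEq ι] (V : Finset ι) (m e : ι → ℝ) (a : ι → ι → ℝ)
    (f : ι → ι) (hf : ∀ r ∈ V, f r ∈ V) (δ Lg E Mx : ℝ) (hδ : 0 < δ) (hδ1 : δ ≤ 1) (hLg : 0 ≤ Lg)
    (hE : 0 ≤ E) (hMx : 1 ≤ Mx) (ha : ∀ q ∈ V, ∀ r ∈ V, 0 ≤ a q r) (he : ∀ r ∈ V, 0 ≤ e r)
    (hrow : ∀ q ∈ V, ∑ r ∈ V, a q r ≤ m q + 1)
    (hcol : ∀ r ∈ V, m r ≤ a (f r) r + e r)
    (hbak : ∀ r ∈ V, a (f r) r ≤ (1 - δ) * m (f r) + Lg)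
    (hm1 : ∀ q ∈ V, 1 ≤ m q) (hmM : ∀ q ∈ V, m q ≤ Mx) (heE : ∑ r ∈ V, e r ≤ E) :
    ∑ q ∈ V, m q ≤ 10 / δ ^ 2 * (1 + log Mx) * (E + V.card * (1 + Lg)) := by
  classical
  set G := V.filter (fun r => e r + Lg ≤ δ / 2 * m r) with hG
  set Bd := V.filter (fun r => ¬ (e r + Lg ≤ δ / 2 * m r)) with hBd
  have hsplit : ∀ g : ι → ℝ, ∑ r ∈ G, g r + ∑ r ∈ Bd, g r = ∑ r ∈ V, g r :=
    fun g => sum_filter_add_sum_filter_not V _ g
  have hLM : 0 ≤ log Mx := log_nonneg hMx
  have hlog0 : ∀ q ∈ V, 0 ≤ log (m q) := fun q hq => log_nonneg (hm1 q hq)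
  have hlogM : ∀ q ∈ V, log (m q) ≤ log Mx :=
    fun q hq => log_le_log (by linarith [hm1 q hq]) (hmM q hq)
  have hGV : G ⊆ V := filter_subset _ _
  have hBV : Bd ⊆ V := filter_subset _ _
  -- bad part
  have hbad : ∑ r ∈ Bd, m r ≤ 2 / δ * (E + V.card * Lg) := by
    have h1 : ∑ r ∈ Bd, m r ≤ ∑ r ∈ Bd, 2 / δ * (e r + Lg) := by
      apply sum_le_sum
      intro r hr
      have h2 := (mem_filter.1 hr).2
      push Not at h2
      have h3 : m r = 2 / δ * (δ / 2 * m r) := by field_simp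
      rw [h3]
      exact mul_le_mul_of_nonneg_left h2.le (by positivity)
    have h2 : ∑ r ∈ Bd, 2 / δ * (e r + Lg) ≤ ∑ r ∈ V, 2 / δ * (e r + Lg) := by
      apply sum_le_sum_of_subset_of_nonneg hBV
      intro r hr _
      have := he r hr
      positivity
    have h3 : ∑ r ∈ V, 2 / δ * (e r + Lg) = 2 / δ * (∑ r ∈ V, e r + V.card * Lg) := by
      rw [← mul_sum, sum_add_distrib, sum_const, nsmul_eq_mul]
    have h4 : 2 / δ * (∑ r ∈ V, e r + V.card * Lg) ≤ 2 / δ * (E + V.card * Lg) :=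
      mul_le_mul_of_nonneg_left (by linarith) (by positivity)
    linarith
  have hbad0 : 0 ≤ ∑ r ∈ Bd, m r := sum_nonneg fun r hr => by linarith [hm1 r (hBV hr)]
  -- good part, pointwise
  have hgood : ∀ r ∈ G, m r * (δ / 2) ≤ m r * log (m (f r)) - m r * log (m r) := by
    intro r hr
    have hrV := hGV hr
    have h1 := (mem_filter.1 hr).2
    have h2 := hcol r hrV
    have h3 := hbak r hrV
    have hmf := hm1 (f r) (hf r hrV)
    have hmr := hm1 r hrV
    have h4a : (1 - δ / 2) * m r ≤ (1 - δ) * m (f r) := by linarith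
    have h4b : 0 ≤ δ ^ 2 / 4 * m (f r) := by positivity
    have h4 : (1 - δ / 2) * m r ≤ (1 - δ / 2) * ((1 - δ / 2) * m (f r)) := by
      have h4c : (1 - δ / 2) * ((1 - δ / 2) * m (f r)) =
          (1 - δ) * m (f r) + δ ^ 2 / 4 * m (f r) := by ring
      linarith
    have h5 : m r ≤ (1 - δ / 2) * m (f r) := le_of_mul_le_mul_left h4 (by linarith)
    have h6 : log (m r) ≤ log (1 - δ / 2) + log (m (f r)) := by
      rw [← log_mul (by linarith) (by linarith)]
      exact log_le_log (by linarith) h5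
    have h7 : log (1 - δ / 2) ≤ (1 - δ / 2) - 1 := log_le_sub_one_of_pos (by linarith)
    have h8 : δ / 2 ≤ log (m (f r)) - log (m r) := by linarith
    have := mul_le_mul_of_nonneg_left h8 (show 0 ≤ m r by linarith)
    linarith [mul_sub (m r) (log (m (f r))) (log (m r))]
  have hs1 : ∑ r ∈ G, m r * log (m (f r)) ≤
      ∑ q ∈ V, m q * log (m q) + V.card * log Mx + E * log Mx := by
    have h1 : ∑ r ∈ G, m r * log (m (f r)) ≤
        ∑ r ∈ G, (∑ q ∈ V, a q r * log (m q) + e r * log Mx) := by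
      apply sum_le_sum
      intro r hr
      have hrV := hGV hr
      have h2 : m r * log (m (f r)) ≤ (a (f r) r + e r) * log (m (f r)) :=
        mul_le_mul_of_nonneg_right (hcol r hrV) (hlog0 _ (hf r hrV))
      have h3 : a (f r) r * log (m (f r)) ≤ ∑ q ∈ V, a q r * log (m q) :=
        single_le_sum (f := fun q => a q r * log (m q))
          (fun q hq => mul_nonneg (ha q hq r hrV) (hlog0 q hq)) (hf r hrV)
      have h4 : e r * log (m (f r)) ≤ e r * log Mx :=
        mul_le_mul_of_nonneg_left (hlogM _ (hf r hrV)) (he r hrV)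
      linarith [add_mul (a (f r) r) (e r) (log (m (f r)))]
    have h2 : ∑ r ∈ G, (∑ q ∈ V, a q r * log (m q) + e r * log Mx) ≤
        ∑ r ∈ V, (∑ q ∈ V, a q r * log (m q) + e r * log Mx) := by
      apply sum_le_sum_of_subset_of_nonneg hGV
      intro r hr _
      have := he r hr
      have h3 : 0 ≤ ∑ q ∈ V, a q r * log (m q) :=
        sum_nonneg fun q hq => mul_nonneg (ha q hq r hr) (hlog0 q hq)
      have h4 : 0 ≤ e r * log Mx := mul_nonneg this hLM
      linarith
    have h3 : ∑ r ∈ V, (∑ q ∈ V, a q r * log (m q) + e r * log Mx) =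
        ∑ q ∈ V, (∑ r ∈ V, a q r) * log (m q) + (∑ r ∈ V, e r) * log Mx := by
      rw [sum_add_distrib, sum_comm, sum_mul]
      congr 1
      apply sum_congr rfl
      intro q _
      rw [sum_mul]
    have h4 : ∑ q ∈ V, (∑ r ∈ V, a q r) * log (m q) ≤
        ∑ q ∈ V, (m q * log (m q) + log Mx) := by
      apply sum_le_sum
      intro q hq
      have h5 := mul_le_mul_of_nonneg_right (hrow q hq) (hlog0 q hq)
      have h6 := hlogM q hq
      linarith [add_mul (m q) 1 (log (m q))]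
    rw [sum_add_distrib, sum_const, nsmul_eq_mul] at h4
    have h5 : (∑ r ∈ V, e r) * log Mx ≤ E * log Mx := mul_le_mul_of_nonneg_right heE hLM
    linarith
  have hs2 : ∑ q ∈ V, m q * log (m q) ≤ ∑ r ∈ G, m r * log (m r) + (∑ r ∈ Bd, m r) * log Mx := by
    rw [← hsplit (fun q => m q * log (m q)), sum_mul]
    have : ∑ r ∈ Bd, m r * log (m r) ≤ ∑ r ∈ Bd, m r * log Mx := by
      apply sum_le_sum
      intro r hr
      exact mul_le_mul_of_nonneg_left (hlogM r (hBV hr)) (by linarith [hm1 r (hBV hr)])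
    linarith
  have hs3 : (∑ r ∈ G, m r) * (δ / 2) ≤
      ∑ r ∈ G, m r * log (m (f r)) - ∑ r ∈ G, m r * log (m r) := by
    rw [sum_mul, ← sum_sub_distrib]
    exact sum_le_sum hgood
  set B := ∑ r ∈ Bd, m r with hB
  have hc0 : (0 : ℝ) ≤ V.card := Nat.cast_nonneg _
  have hkey : (∑ r ∈ G, m r) * (δ / 2) ≤ log Mx * (V.card + E + B) := by nlinarith
  set S : ℝ := E + V.card * (1 + Lg) with hS
  have hS0 : 0 ≤ S := by positivity
  have hBS : B ≤ 2 / δ * S := by
    refine hbad.trans (mul_le_mul_of_nonneg_left ?_ (by positivity))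
    rw [hS]; nlinarith
  have hδ' : 1 ≤ 1 / δ := by rw [le_div_iff₀ hδ]; linarith
  have hCE : V.card + E ≤ S := by rw [hS]; nlinarith [mul_nonneg hc0 hLg]
  have hsum : V.card + E + B ≤ 3 / δ * S := by
    have h1 : S ≤ 1 / δ * S := by nlinarith
    have h2 : 3 / δ * S = 1 / δ * S + 2 / δ * S := by ring
    linarith
  have hG2 : ∑ r ∈ G, m r ≤ 2 / δ * (log Mx * (3 / δ * S)) := by
    have h1 : (∑ r ∈ G, m r) = 2 / δ * ((∑ r ∈ G, m r) * (δ / 2)) := by field_simp
    rw [h1]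
    apply mul_le_mul_of_nonneg_left _ (by positivity)
    exact hkey.trans (mul_le_mul_of_nonneg_left hsum hLM)
  have htot : ∑ q ∈ V, m q = ∑ r ∈ G, m r + B := (hsplit m).symm
  rw [htot]
  have h1 : 2 / δ * (log Mx * (3 / δ * S)) = 6 / δ ^ 2 * log Mx * S := by field_simp; ring
  have h2 : 2 / δ * S ≤ 2 / δ ^ 2 * S := by
    apply mul_le_mul_of_nonneg_right _ hS0
    rw [div_le_div_iff₀ hδ (by positivity)]
    nlinarith
  have h3 : 10 / δ ^ 2 * (1 + log Mx) * S =
      6 / δ ^ 2 * log Mx * S + 2 / δ ^ 2 * S + (8 / δ ^ 2 * S + 4 / δ ^ 2 * log Mx * S) := by ring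
  have h4 : 0 ≤ 8 / δ ^ 2 * S + 4 / δ ^ 2 * log Mx * S := by positivity
  linarith
-- END D14

-- BEGIN D15
lemma d15_log3 {x : ℝ} (hx : 3 ≤ x) : 1 ≤ log x := by
  rw [Real.le_log_iff_exp_le (by linarith)]
  have := Real.exp_one_lt_d9
  linarith

lemma d15_three_le {N q : ℕ} (hodd : Odd N) (hq : q ∈ N.primeFactors) : (3 : ℝ) ≤ q := by
  have hqp := Nat.prime_of_mem_primeFactors hq
  have hqd := Nat.dvd_of_mem_primeFactors hq
  have h2 : q ≠ 2 := by
    rintro rfl
    exact (Nat.not_even_iff_odd.2 hodd) (even_iff_two_dvd.2 hqd)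
  have h3 : 3 ≤ q := by
    have := hqp.two_le
    omega
  exact_mod_cast h3

/-- D15. Theorem (a).  `N` has a prime `≥ 3`, so `P ≥ 3`, `log P ≥ 1`.  D14 with `V = N.primeFactors`, `m = mass N`
(`mass ≥ log 3 ≥ 1`), `a = aa N`, `f` and `E = C P^(3/2+ε/2)` from D12, `δ = 1/(C (log P)^C)` and `Lg = log P + 1` from
D13, `Mx = P^4` (`mass ≤ n log P ≤ P^3 P`), `V.card ≤ P`; finally `(log P)^K ≤ C P^(ε/2)`. -/
theorem part_a (ε : ℝ) (hε : 0 < ε) : ∃ C : ℝ, ∀ N P : ℕ, Odd N → Nat.Perfect N →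
    (∀ p ∈ N.primeFactors, p ≤ P) → log N ≤ C * (P : ℝ) ^ (3 / 2 + ε) := by
  obtain ⟨C, hC0, hC⟩ := inerr_bound (ε / 2) (by positivity)
  obtain ⟨Cb, hCb1, hCb⟩ := baker_step
  set K' : ℕ := 2 * Cb + 2 with hK'
  have hK'0 : (0 : ℝ) < K' := by rw [hK']; positivity
  set η : ℝ := ε / (2 * K') with hη
  have hη0 : 0 < η := by positivity
  refine ⟨50 * Cb ^ 2 * (C + 3) * (1 / η) ^ K', ?_⟩
  intro N P hodd hN hP
  obtain ⟨f, hf, hfE⟩ := hC N P hodd hN hP
  set V := N.primeFactors with hV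
  have h3 : ∀ q ∈ V, (3 : ℝ) ≤ q := fun q hq => d15_three_le hodd hq
  have hN1 : N ≠ 1 := by
    rintro rfl
    have := (Nat.perfect_iff_sum_divisors_eq_two_mul (by norm_num)).1 hN
    simp at this
  have hne : V.Nonempty := Nat.nonempty_primeFactors.2 (by
    have := hN.2
    omega)
  obtain ⟨p0, hp0⟩ := hne
  have hP3 : (3 : ℝ) ≤ P := (h3 p0 hp0).trans (by exact_mod_cast hP p0 hp0)
  have hP0 : (0 : ℝ) < P := by linarith
  have hP1 : (1 : ℝ) ≤ P := by linarith
  set l := log (P : ℝ) with hl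
  have hl1 : 1 ≤ l := d15_log3 hP3
  have hl0 : 0 < l := by linarith
  have hlP : l ≤ P := (log_le_sub_one_of_pos hP0).trans (by linarith)
  have hlq : ∀ q ∈ V, log (q : ℝ) ≤ l := fun q hq =>
    log_le_log (by linarith [h3 q hq]) (by exact_mod_cast hP q hq)
  have hlq1 : ∀ q ∈ V, 1 ≤ log (q : ℝ) := fun q hq => d15_log3 (h3 q hq)
  have hCb1' : (1 : ℝ) ≤ Cb := by exact_mod_cast hCb1
  have hden : (1 : ℝ) ≤ Cb * l ^ Cb := one_le_mul_of_one_le_of_one_le hCb1' (one_le_pow₀ hl1)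
  have hden0 : (0 : ℝ) < Cb * l ^ Cb := by linarith
  have hm0 : ∀ q ∈ V, 0 ≤ mass N q := fun q hq =>
    mul_nonneg (Nat.cast_nonneg _) (by linarith [hlq1 q hq])
  have haa0 : ∀ q ∈ V, ∀ r ∈ V, 0 ≤ aa N q r := fun q hq r hr =>
    mul_nonneg (Nat.cast_nonneg _) (by linarith [hlq1 r hr])
  have hcard : (V.card : ℝ) ≤ P := by
    have h1 : V ⊆ Finset.Icc 1 P := by
      intro q hq
      rw [Finset.mem_Icc]
      exact ⟨(Nat.prime_of_mem_primeFactors hq).one_lt.le, hP q hq⟩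
    have h2 := Finset.card_le_card h1
    rw [Nat.card_Icc] at h2
    exact_mod_cast (by omega : V.card ≤ P)
  set E : ℝ := C * (P : ℝ) ^ (3 / 2 + ε / 2) with hE
  have hE0 : 0 ≤ E := by positivity
  have hpot := potential V (mass N) (fun r => ∑ q ∈ V.erase (f r), aa N q r) (aa N) f hf
    (1 / (Cb * l ^ Cb)) (l + 1) E ((P : ℝ) ^ 4) (by positivity)
    (by rw [div_le_one hden0]; exact hden) (by linarith) hE0 (one_le_pow₀ hP1) haa0
    (fun r hr => sum_nonneg fun q hq => haa0 q (mem_of_mem_erase hq) r hr)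
    (fun q hq => row_sum N q hN hq)
    (fun r hr => by
      have h1 := col_sum N r hodd hN hr
      rw [← h1, ← Finset.add_sum_erase V (fun q => aa N q r) (hf r hr)])
    (fun r hr => hCb N P hodd hN hP (f r) (hf r hr) r hr)
    (fun q hq => by
      have h1 : (1 : ℝ) ≤ (N.factorization q : ℝ) := by
        have hq' := Nat.mem_primeFactors.1 hq
        have := (hq'.1.dvd_iff_one_le_factorization hq'.2.2).1 hq'.2.1
        exact_mod_cast this
      have h2 := hlq1 q hq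
      calc (1 : ℝ) = 1 * 1 := by ring
        _ ≤ mass N q := mul_le_mul h1 h2 (by norm_num) (by linarith))
    (fun q hq => by
      have h1 : (nn N q : ℝ) ≤ (P : ℝ) ^ 3 := by exact_mod_cast nn_le N P q hodd hN hP hq
      have h2 : (N.factorization q : ℝ) ≤ (P : ℝ) ^ 3 := by
        have : (nn N q : ℝ) = (N.factorization q : ℝ) + 1 := by push_cast; ring
        linarith
      calc mass N q ≤ (P : ℝ) ^ 3 * P := mul_le_mul h2 ((hlq q hq).trans hlP)
            (by linarith [hlq1 q hq]) (by positivity)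
        _ = (P : ℝ) ^ 4 := by ring)
    hfE
  rw [log_eq_sum N hN.2.ne']
  refine hpot.trans ?_
  -- simplify the bound
  have hlM : log ((P : ℝ) ^ 4) = 4 * l := by rw [log_pow]; push_cast; ring
  rw [hlM]
  have hδ : 10 / (1 / (Cb * l ^ Cb)) ^ 2 = 10 * (Cb : ℝ) ^ 2 * l ^ (2 * Cb) := by
    field_simp
    ring
  rw [hδ]
  have hPe : (P : ℝ) ≤ (P : ℝ) ^ (3 / 2 + ε / 2) := by
    conv_lhs => rw [← rpow_one (P : ℝ)]
    exact rpow_le_rpow_of_exponent_le hP1 (by linarith)
  set Z : ℝ := (P : ℝ) ^ (3 / 2 + ε / 2) with hZ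
  have hZ0 : 0 < Z := by positivity
  have hS : E + V.card * (1 + (l + 1)) ≤ (C + 3) * Z * l := by
    have h1 : E ≤ C * Z * l := by
      rw [hE]
      exact le_mul_of_one_le_right (by positivity) hl1
    have h2 : (V.card : ℝ) * (1 + (l + 1)) ≤ Z * (3 * l) :=
      mul_le_mul (hcard.trans hPe) (by linarith) (by linarith) hZ0.le
    linarith [show (C + 3) * Z * l = C * Z * l + Z * (3 * l) by ring]
  have hlK : l ^ K' ≤ (1 / η) ^ K' * (P : ℝ) ^ (ε / 2) := by
    have h1 : l ≤ (P : ℝ) ^ η / η := log_le_rpow_div hP0.le hη0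
    have h2 : l ^ K' ≤ ((P : ℝ) ^ η / η) ^ K' := pow_le_pow_left₀ hl0.le h1 K'
    have h3 : ((P : ℝ) ^ η / η) ^ K' = (1 / η) ^ K' * (P : ℝ) ^ (ε / 2) := by
      rw [div_eq_mul_one_div, mul_pow, mul_comm, ← rpow_natCast ((P : ℝ) ^ η) K', ← rpow_mul hP0.le]
      congr 2
      rw [hη]
      field_simp
    linarith
  calc 10 * (Cb : ℝ) ^ 2 * l ^ (2 * Cb) * (1 + 4 * l) * (E + V.card * (1 + (l + 1)))
      ≤ 10 * (Cb : ℝ) ^ 2 * l ^ (2 * Cb) * (5 * l) * ((C + 3) * Z * l) := by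
        gcongr
        linarith
    _ = 50 * (Cb : ℝ) ^ 2 * (C + 3) * Z * l ^ K' := by rw [hK', pow_add]; ring
    _ ≤ 50 * (Cb : ℝ) ^ 2 * (C + 3) * Z * ((1 / η) ^ K' * (P : ℝ) ^ (ε / 2)) := by
        gcongr
    _ = 50 * (Cb : ℝ) ^ 2 * (C + 3) * (1 / η) ^ K' * (Z * (P : ℝ) ^ (ε / 2)) := by ring
    _ = 50 * (Cb : ℝ) ^ 2 * (C + 3) * (1 / η) ^ K' * (P : ℝ) ^ (3 / 2 + ε) := by
        rw [hZ, ← rpow_add hP0]
        congr 2
        ring
-- END D15

end Pool.Agent.Lib.MP_f02ea4_nt.Sm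
end

section

/-! Many large primes, part G: the process.  `LL` = known primes, `J` = primes with known component; each step adds one
item and at most doubles the logarithm of the data. -/

set_option autoImplicit false

namespace Pool.Agent.Lib.MP_f02ea4_nt.Ml

open Finset Real Sm

/-- `∑_{LL} log p + ∑_J n_p log p` -/
noncomputable def HH (N : ℕ) (LL J : Finset ℕ) : ℝ :=
  ∑ p ∈ LL, log (p : ℝ) + ∑ p ∈ J, (nn N p : ℝ) * log p

-- BEGIN G1
private lemma g1_lt (N p : ℕ) (hp : p ∈ N.primeFactors) : p ^ N.factorization p < Sq N p := by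
  have hpp : p.Prime := (Nat.mem_primeFactors.1 hp).1
  have hN : N ≠ 0 := (Nat.mem_primeFactors.1 hp).2.2
  have he : 0 < N.factorization p :=
    Nat.Prime.factorization_pos_of_dvd hpp hN (Nat.mem_primeFactors.1 hp).2.1
  have h : (p - 1) * Sq N p + 1 = p ^ nn N p := Sb.sg_pow hpp (N.factorization p)
  have h1 : 1 < p ^ N.factorization p := Nat.one_lt_pow he.ne' hpp.one_lt
  have h2 : p ^ nn N p = (p - 1) * p ^ N.factorization p + p ^ N.factorization p := by
    have h3 : p ^ nn N p = p ^ N.factorization p * p := pow_succ _ _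
    have h4 : p ^ N.factorization p * p = p ^ N.factorization p * (p - 1 + 1) := by
      rw [Nat.sub_add_cancel hpp.one_lt.le]
    rw [h3, h4]
    ring
  have h3 : (p - 1) * p ^ N.factorization p < (p - 1) * Sq N p := by omega
  exact Nat.lt_of_mul_lt_mul_left h3

/-- G1. `R ≠ 1` for `J ⊆ LL ⊆ primes of N`, `J` not all primes (model `Sm.R_ne_one`, same proof: if `LL \ J ≠ ∅` the
largest prime of `LL \ J`; if `LL = J` then `D = ∏_J p^(e_p)` is a perfect proper unitary divisor of `N`). -/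
lemma R_ne_one' (N : ℕ) (hodd : Odd N) (hN : Nat.Perfect N) (LL J : Finset ℕ)
    (hLL : LL ⊆ N.primeFactors) (hJ : J ⊆ LL) (hJne : J ≠ N.primeFactors) :
    2 * (∏ p ∈ LL, (p - 1)) * (∏ p ∈ J, p ^ nn N p) ≠
      (∏ p ∈ LL, p) * ∏ p ∈ J, (p ^ nn N p - 1) := by
  classical
  intro heq
  have hsub : LL ⊆ N.primeFactors := hLL
  have hN0 : N ≠ 0 := hN.2.ne'
  have hprime : ∀ p ∈ LL, p.Prime := fun p hp => (Nat.mem_primeFactors.1 (hsub hp)).1
  have e1 : ∏ p ∈ J, p ^ nn N p = (∏ p ∈ J, p) * ∏ p ∈ J, p ^ N.factorization p := by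
    rw [← Finset.prod_mul_distrib]
    exact Finset.prod_congr rfl fun p _ => pow_succ' _ _
  have e2 : ∏ p ∈ J, (p ^ nn N p - 1) = (∏ p ∈ J, (p - 1)) * ∏ p ∈ J, Sq N p := by
    rw [← Finset.prod_mul_distrib]
    refine Finset.prod_congr rfl fun p hp => ?_
    have h : (p - 1) * Sq N p + 1 = p ^ nn N p := Sb.sg_pow (hprime p (hJ hp)) (N.factorization p)
    omega
  have e3 : ∏ p ∈ LL, (p - 1) = (∏ p ∈ LL \ J, (p - 1)) * ∏ p ∈ J, (p - 1) :=
    (Finset.prod_sdiff hJ).symm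
  have e4 : ∏ p ∈ LL, p = (∏ p ∈ LL \ J, p) * ∏ p ∈ J, p := (Finset.prod_sdiff hJ).symm
  have hJp : 0 < ∏ p ∈ J, p := Finset.prod_pos fun p hp => (hprime p (hJ hp)).pos
  have hJp1 : 0 < ∏ p ∈ J, (p - 1) := Finset.prod_pos fun p hp => by
    have := (hprime p (hJ hp)).one_lt
    omega
  have hmain : 2 * (∏ p ∈ J, p ^ N.factorization p) * ∏ p ∈ LL \ J, (p - 1) =
      (∏ p ∈ J, Sq N p) * ∏ p ∈ LL \ J, p := by
    rw [e1, e2, e3, e4] at heq
    have h5 : ((∏ p ∈ J, p) * ∏ p ∈ J, (p - 1)) *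
        (2 * (∏ p ∈ J, p ^ N.factorization p) * ∏ p ∈ LL \ J, (p - 1)) =
        ((∏ p ∈ J, p) * ∏ p ∈ J, (p - 1)) * ((∏ p ∈ J, Sq N p) * ∏ p ∈ LL \ J, p) := by
      calc _ = 2 * ((∏ p ∈ LL \ J, (p - 1)) * ∏ p ∈ J, (p - 1)) *
            ((∏ p ∈ J, p) * ∏ p ∈ J, p ^ N.factorization p) := by ring
        _ = _ := by rw [heq]; ring
    exact Nat.eq_of_mul_eq_mul_left (Nat.mul_pos hJp hJp1) h5
  rcases (LL \ J).eq_empty_or_nonempty with hemp | hne
  · rw [hemp, Finset.prod_empty, Finset.prod_empty, mul_one, mul_one] at hmain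
    have hLJ : LL = J := Finset.Subset.antisymm (Finset.sdiff_eq_empty_iff_subset.1 hemp) hJ
    have hJsub : J ⊆ N.primeFactors := hJ.trans hsub
    have h1 := prod_Sq N hN
    rw [← Finset.prod_sdiff hJsub, ← hmain] at h1
    have h2 : N = (∏ p ∈ N.primeFactors \ J, p ^ N.factorization p) *
        ∏ p ∈ J, p ^ N.factorization p := by
      rw [Finset.prod_sdiff hJsub]
      exact (Nat.prod_factorization_pow_eq_self hN0).symm
    have hD : 0 < ∏ p ∈ J, p ^ N.factorization p :=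
      Finset.prod_pos fun p hp => pow_pos (hprime p (hJ hp)).pos _
    have h3 : (∏ p ∈ N.primeFactors \ J, Sq N p) =
        ∏ p ∈ N.primeFactors \ J, p ^ N.factorization p := by
      have h4 : (2 * ∏ p ∈ J, p ^ N.factorization p) * (∏ p ∈ N.primeFactors \ J, Sq N p) =
          (2 * ∏ p ∈ J, p ^ N.factorization p) *
            ∏ p ∈ N.primeFactors \ J, p ^ N.factorization p := by
        calc _ = (∏ p ∈ N.primeFactors \ J, Sq N p) * (2 * ∏ p ∈ J, p ^ N.factorization p) := by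
              ring
          _ = 2 * N := h1
          _ = 2 * ((∏ p ∈ N.primeFactors \ J, p ^ N.factorization p) *
            ∏ p ∈ J, p ^ N.factorization p) := by rw [← h2]
          _ = _ := by ring
      exact Nat.eq_of_mul_eq_mul_left (by omega) h4
    have hne : (N.primeFactors \ J).Nonempty := by
      rw [Finset.sdiff_nonempty]
      intro h
      exact hJne (Finset.Subset.antisymm hJsub h)
    have h5 : ∏ p ∈ N.primeFactors \ J, p ^ N.factorization p <
        ∏ p ∈ N.primeFactors \ J, Sq N p := by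
      refine Finset.prod_lt_prod_of_nonempty ?_ ?_ hne
      · intro p hp
        exact pow_pos (Nat.mem_primeFactors.1 (Finset.mem_sdiff.1 hp).1).1.pos _
      · intro p hp
        exact g1_lt N p (Finset.mem_sdiff.1 hp).1
    omega
  · set P := (LL \ J).max' hne with hP
    have hPmem : P ∈ LL \ J := Finset.max'_mem _ _
    have hPp : P.Prime := hprime P (Finset.mem_sdiff.1 hPmem).1
    have hPN : P ∣ N := (Nat.mem_primeFactors.1 (hsub (Finset.mem_sdiff.1 hPmem).1)).2.1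
    have hd : P ∣ 2 * (∏ p ∈ J, p ^ N.factorization p) * ∏ p ∈ LL \ J, (p - 1) := by
      rw [hmain]
      exact Dvd.dvd.mul_left (Finset.dvd_prod_of_mem _ hPmem) _
    rcases (hPp.dvd_mul).1 hd with h1 | h1
    · rcases (hPp.dvd_mul).1 h1 with h2 | h2
      · have h3 : P = 2 := (Nat.prime_dvd_prime_iff_eq hPp Nat.prime_two).1 h2
        rw [h3] at hPN
        exact (Nat.not_even_iff_odd.2 hodd) (even_iff_two_dvd.2 hPN)
      · obtain ⟨q, hq, hPq⟩ := (hPp.prime.dvd_finsetProd_iff _).1 h2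
        have h3 := hPp.dvd_of_dvd_pow hPq
        have h4 : P = q := (Nat.prime_dvd_prime_iff_eq hPp (hprime q (hJ hq))).1 h3
        exact (Finset.mem_sdiff.1 hPmem).2 (h4 ▸ hq)
    · obtain ⟨q, hq, hPq⟩ := (hPp.prime.dvd_finsetProd_iff _).1 h1
      have h3 : q ≤ P := Finset.le_max' _ _ hq
      have h4 := (hprime q (Finset.mem_sdiff.1 hq).1).one_lt
      have h5 := Nat.le_of_dvd (by omega) hPq
      omega
-- END G1

-- BEGIN G2
/-- G2. from G1 and `Sm.R_close` exactly as `Sm.ps_le`. -/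
lemma ps_le' (N : ℕ) (hodd : Odd N) (hN : Nat.Perfect N) (LL J : Finset ℕ)
    (hLL : LL ⊆ N.primeFactors) (hJ : J ⊆ LL) (hJne : J ≠ N.primeFactors) (ps : ℕ) (hps : 2 ≤ ps)
    (h1 : ∀ p ∈ N.primeFactors, p ∉ LL → ps ≤ p)
    (h2 : ∀ p ∈ N.primeFactors, p ∉ J → ps ≤ p ^ nn N p) :
    (ps : ℝ) - 1 ≤ 2 * N.primeFactors.card * (∏ p ∈ LL, (p : ℝ)) * ∏ p ∈ J, (p : ℝ) ^ nn N p := by
  have hne := R_ne_one' N hodd hN LL J hLL hJ hJne
  have hcl := R_close N hodd hN LL J hLL hJ ps hps h1 h2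
  have hprime : ∀ p ∈ LL, p.Prime := fun p hp => Nat.prime_of_mem_primeFactors (hLL hp)
  set a : ℕ := 2 * (∏ p ∈ LL, (p - 1)) * (∏ p ∈ J, p ^ nn N p) with ha
  set b : ℕ := (∏ p ∈ LL, p) * ∏ p ∈ J, (p ^ nn N p - 1) with hb
  set M : ℕ := 2 * (∏ p ∈ LL, p) * (∏ p ∈ J, p ^ nn N p) with hM
  have hapos : 0 < a := by
    refine Nat.mul_pos (Nat.mul_pos two_pos ?_) ?_
    · exact Finset.prod_pos fun p hp => by have := (hprime p hp).two_le; omega
    · exact Finset.prod_pos fun p hp => pow_pos (hprime p (hJ hp)).pos _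
  have hbpos : 0 < b := by
    refine Nat.mul_pos ?_ ?_
    · exact Finset.prod_pos fun p hp => (hprime p hp).pos
    · refine Finset.prod_pos fun p hp => ?_
      have : 1 < p ^ nn N p := Nat.one_lt_pow (Nat.succ_ne_zero _) (hprime p (hJ hp)).one_lt
      omega
  have hMpos : 0 < M := by
    refine Nat.mul_pos (Nat.mul_pos two_pos ?_) ?_
    · exact Finset.prod_pos fun p hp => (hprime p hp).pos
    · exact Finset.prod_pos fun p hp => pow_pos (hprime p (hJ hp)).pos _
  have haM : a ≤ M := by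
    refine Nat.mul_le_mul_right _ (Nat.mul_le_mul_left _ ?_)
    exact Finset.prod_le_prod' fun p _ => Nat.sub_le _ _
  have hbM : b ≤ M := by
    have e1 : b ≤ (∏ p ∈ LL, p) * ∏ p ∈ J, p ^ nn N p :=
      Nat.mul_le_mul_left _ (Finset.prod_le_prod' fun p _ => Nat.sub_le _ _)
    refine e1.trans ?_
    rw [hM]
    calc (∏ p ∈ LL, p) * ∏ p ∈ J, p ^ nn N p
        ≤ 2 * ((∏ p ∈ LL, p) * ∏ p ∈ J, p ^ nn N p) := by omega
      _ = 2 * (∏ p ∈ LL, p) * ∏ p ∈ J, p ^ nn N p := by ring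
  have h3 := log_sub_ge a b M hapos hbpos hne haM hbM
  have h4 := h3.trans hcl
  have hM' : (0 : ℝ) < M := by exact_mod_cast hMpos
  have hps' : (0 : ℝ) < (ps : ℝ) - 1 := by
    have : (2 : ℝ) ≤ ps := by exact_mod_cast hps
    linarith
  rw [div_le_div_iff₀ hM' hps', one_mul] at h4
  refine h4.trans (le_of_eq ?_)
  rw [hM]
  push_cast
  ring
-- END G2

-- BEGIN G3
/-- G3. one step.  `ps` = the least element of `{p ∉ LL} ∪ {p^(n_p) : p ∉ J}` (nonempty as `J` is not everything).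
G2: `ps ≤ 1 + 2 ω e^H ≤ 4 ω e^H`, `log ps ≤ H + log (4 ω)`.  If `ps = p ∉ LL`: `LL' = insert p LL`.  Otherwise
`ps = p^(n_p)` with `p ∉ J`, and `p ∈ LL` by minimality (`p < p^(n_p)`, `n_p ≥ 2`): `J' = insert p J`. -/
lemma proc_step (N : ℕ) (hodd : Odd N) (hN : Nat.Perfect N) (LL J : Finset ℕ)
    (hLL : LL ⊆ N.primeFactors) (hJ : J ⊆ LL) (hJne : J ≠ N.primeFactors) :
    ∃ LL' J' : Finset ℕ, LL' ⊆ N.primeFactors ∧ J' ⊆ LL' ∧ LL'.card + J'.card = LL.card + J.card + 1 ∧
      HH N LL' J' ≤ 2 * HH N LL J + log (4 * N.primeFactors.card) := by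
  classical
  have hprime : ∀ p ∈ N.primeFactors, p.Prime := fun p hp => Nat.prime_of_mem_primeFactors hp
  have hJN : J ⊆ N.primeFactors := hJ.trans hLL
  obtain ⟨q₀, hq₀, hq₀J⟩ : ∃ q ∈ N.primeFactors, q ∉ J := by
    by_contra hcon
    push Not at hcon
    exact hJne (Finset.Subset.antisymm hJN hcon)
  have hnn : ∀ p ∈ N.primeFactors, 2 ≤ nn N p := by
    intro p hp
    have hN0 : N ≠ 0 := (Nat.mem_primeFactors.1 hp).2.2
    have := (hprime p hp).factorization_pos_of_dvd hN0 (Nat.mem_primeFactors.1 hp).2.1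
    show 2 ≤ N.factorization p + 1
    omega
  have hlt : ∀ p ∈ N.primeFactors, p < p ^ nn N p := by
    intro p hp
    calc p = p ^ 1 := (pow_one p).symm
      _ < p ^ nn N p := Nat.pow_lt_pow_right (hprime p hp).one_lt (hnn p hp)
  set S : Finset ℕ := (N.primeFactors \ LL) ∪ (N.primeFactors \ J).image (fun p => p ^ nn N p) with hS
  have hSne : S.Nonempty := by
    refine ⟨q₀ ^ nn N q₀, ?_⟩
    rw [hS, Finset.mem_union]
    exact Or.inr (Finset.mem_image.2 ⟨q₀, Finset.mem_sdiff.2 ⟨hq₀, hq₀J⟩, rfl⟩)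
  set ps : ℕ := S.min' hSne with hpsdef
  have hpsS : ps ∈ S := S.min'_mem hSne
  have hmin : ∀ x ∈ S, ps ≤ x := fun x hx => S.min'_le x hx
  have h1 : ∀ p ∈ N.primeFactors, p ∉ LL → ps ≤ p := by
    intro p hp hpL
    apply hmin
    rw [hS, Finset.mem_union]
    exact Or.inl (Finset.mem_sdiff.2 ⟨hp, hpL⟩)
  have h2 : ∀ p ∈ N.primeFactors, p ∉ J → ps ≤ p ^ nn N p := by
    intro p hp hpJ
    apply hmin
    rw [hS, Finset.mem_union]
    exact Or.inr (Finset.mem_image.2 ⟨p, Finset.mem_sdiff.2 ⟨hp, hpJ⟩, rfl⟩)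
  have hps : 2 ≤ ps := by
    rw [hS, Finset.mem_union] at hpsS
    rcases hpsS with h | h
    · exact (hprime _ (Finset.mem_sdiff.1 h).1).two_le
    · obtain ⟨p, hp, hpe⟩ := Finset.mem_image.1 h
      have hp' := (Finset.mem_sdiff.1 hp).1
      have := hlt p hp'
      have h3 := (hprime p hp').two_le
      omega
  have hle := ps_le' N hodd hN LL J hLL hJ hJne ps hps h1 h2
  set E : ℝ := (∏ p ∈ LL, (p : ℝ)) * ∏ p ∈ J, (p : ℝ) ^ nn N p with hE
  have hLLpos : ∀ p ∈ LL, (1 : ℝ) ≤ (p : ℝ) := fun p hp => by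
    exact_mod_cast (hprime p (hLL hp)).one_lt.le
  have hJpos : ∀ p ∈ J, (1 : ℝ) ≤ (p : ℝ) ^ nn N p := fun p hp => by
    have : (1 : ℝ) ≤ (p : ℝ) := by exact_mod_cast (hprime p (hJN hp)).one_lt.le
    exact one_le_pow₀ this
  have hE1 : 1 ≤ E := by
    rw [hE]
    exact one_le_mul_of_one_le_of_one_le (Finset.one_le_prod hLLpos) (Finset.one_le_prod hJpos)
  have hlogE : log E = HH N LL J := by
    have hA : (0 : ℝ) < ∏ p ∈ LL, (p : ℝ) :=
      Finset.prod_pos fun p hp => lt_of_lt_of_le one_pos (hLLpos p hp)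
    have hB : (0 : ℝ) < ∏ p ∈ J, (p : ℝ) ^ nn N p :=
      Finset.prod_pos fun p hp => lt_of_lt_of_le one_pos (hJpos p hp)
    rw [hE, Real.log_mul hA.ne' hB.ne', HH]
    rw [Real.log_prod fun p hp => (lt_of_lt_of_le one_pos (hLLpos p hp)).ne',
      Real.log_prod fun p hp => (lt_of_lt_of_le one_pos (hJpos p hp)).ne']
    congr 1
    refine Finset.sum_congr rfl fun p _ => ?_
    rw [Real.log_pow]
  have hω1 : (1 : ℝ) ≤ N.primeFactors.card := by
    exact_mod_cast Finset.card_pos.2 ⟨q₀, hq₀⟩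
  have hpsle : (ps : ℝ) ≤ 4 * N.primeFactors.card * E := by
    have h3 : (ps : ℝ) - 1 ≤ 2 * N.primeFactors.card * E := by
      rw [hE, ← mul_assoc]
      exact hle
    nlinarith [mul_le_mul hω1 hE1 zero_le_one (by linarith : (0 : ℝ) ≤ N.primeFactors.card)]
  have hlogps : log (ps : ℝ) ≤ HH N LL J + log (4 * N.primeFactors.card) := by
    have hps0 : (0 : ℝ) < ps := by exact_mod_cast (by omega : 0 < ps)
    calc log (ps : ℝ) ≤ log (4 * N.primeFactors.card * E) := Real.log_le_log hps0 hpsle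
      _ = log (4 * N.primeFactors.card) + log E := Real.log_mul (by positivity) (by positivity)
      _ = HH N LL J + log (4 * N.primeFactors.card) := by rw [hlogE]; ring
  rw [hS, Finset.mem_union] at hpsS
  rcases hpsS with h | h
  · obtain ⟨hpN, hpL⟩ := Finset.mem_sdiff.1 h
    refine ⟨insert ps LL, J, Finset.insert_subset hpN hLL, hJ.trans (Finset.subset_insert _ _), ?_, ?_⟩
    · rw [Finset.card_insert_of_notMem hpL]
      omega
    · rw [HH, Finset.sum_insert hpL]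
      rw [HH] at hlogps ⊢
      linarith
  · obtain ⟨p, hp, hpe⟩ := Finset.mem_image.1 h
    obtain ⟨hpN, hpJ⟩ := Finset.mem_sdiff.1 hp
    have hpL : p ∈ LL := by
      by_contra hcon
      have h3 := h1 p hpN hcon
      have h4 := hlt p hpN
      omega
    refine ⟨LL, insert p J, hLL, Finset.insert_subset hpL hJ, ?_, ?_⟩
    · rw [Finset.card_insert_of_notMem hpJ]
      omega
    · have h5 : (nn N p : ℝ) * log p = log (ps : ℝ) := by
        rw [← hpe, Nat.cast_pow, Real.log_pow]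
      rw [HH, Finset.sum_insert hpJ, h5]
      rw [HH] at hlogps ⊢
      linarith
-- END G3

-- BEGIN G4
/-- G4. iteration: after `k = 2 ω - |LL| - |J|` steps `J` is everything; `H' + c ≤ 2 (H + c)`, `c = log (4 ω) ≥ 0`;
`log N = ∑ e_p log p ≤ HH N pF pF`. -/
theorem process (N : ℕ) (hodd : Odd N) (hN : Nat.Perfect N) (LL J : Finset ℕ)
    (hLL : LL ⊆ N.primeFactors) (hJ : J ⊆ LL) (k : ℕ)
    (hk : 2 * N.primeFactors.card ≤ LL.card + J.card + k) :
    log N ≤ 2 ^ k * (HH N LL J + log (4 * N.primeFactors.card)) := by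
  have hω : 1 ≤ N.primeFactors.card := by
    rw [Nat.one_le_iff_ne_zero]
    intro h0
    rw [Finset.card_eq_zero, Nat.primeFactors_eq_empty] at h0
    rcases h0 with h0 | h0
    · exact hN.2.ne' h0
    · rw [h0] at hN
      have h1 := hN.1
      simp at h1
  have hωR : (1 : ℝ) ≤ N.primeFactors.card := by exact_mod_cast hω
  set cc : ℝ := log (4 * N.primeFactors.card) with hcc
  have hcc0 : 0 ≤ cc := Real.log_nonneg (by linarith)
  have hlogp : ∀ p ∈ N.primeFactors, 0 ≤ log (p : ℝ) := fun p hp =>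
    Real.log_nonneg (by exact_mod_cast (Nat.prime_of_mem_primeFactors hp).one_lt.le)
  have hHH0 : ∀ LL J : Finset ℕ, LL ⊆ N.primeFactors → J ⊆ LL → 0 ≤ HH N LL J := by
    intro LL J h1 h2
    refine add_nonneg (Finset.sum_nonneg fun p hp => hlogp p (h1 hp))
      (Finset.sum_nonneg fun p hp => mul_nonneg (Nat.cast_nonneg _) (hlogp p (h1 (h2 hp))))
  have hfull : log (N : ℝ) ≤ HH N N.primeFactors N.primeFactors := by
    rw [c11_log N hN.2.ne', HH]
    have h1 : 0 ≤ ∑ p ∈ N.primeFactors, log (p : ℝ) := Finset.sum_nonneg hlogp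
    have h2 : ∑ p ∈ N.primeFactors, (N.factorization p : ℝ) * log (p : ℝ) ≤
        ∑ p ∈ N.primeFactors, (nn N p : ℝ) * log (p : ℝ) := by
      refine Finset.sum_le_sum fun p hp => mul_le_mul_of_nonneg_right ?_ (hlogp p hp)
      exact_mod_cast Nat.le_succ _
    linarith
  induction k generalizing LL J with
  | zero =>
    have h1 := Finset.card_le_card hLL
    have h2 := Finset.card_le_card hJ
    have h3 : LL = N.primeFactors := Finset.eq_of_subset_of_card_le hLL (by omega)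
    have h4 : J = LL := Finset.eq_of_subset_of_card_le hJ (by omega)
    rw [h4, h3, pow_zero, one_mul]
    linarith
  | succ k ih =>
    by_cases hJne : J = N.primeFactors
    · have h3 : LL = N.primeFactors := Finset.Subset.antisymm hLL (hJne ▸ hJ)
      rw [h3, hJne]
      have h4 := hHH0 N.primeFactors N.primeFactors (Finset.Subset.refl _) (Finset.Subset.refl _)
      have h5 : (1 : ℝ) ≤ 2 ^ (k + 1) := one_le_pow₀ (by norm_num)
      nlinarith
    · obtain ⟨LL', J', h1, h2, h3, h4⟩ := proc_step N hodd hN LL J hLL hJ hJne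
      have h5 := ih LL' J' h1 h2 (by omega)
      refine h5.trans ?_
      rw [pow_succ]
      have h6 : (0 : ℝ) ≤ 2 ^ k := by positivity
      have h7 : HH N LL' J' + cc ≤ 2 * (HH N LL J + cc) := by linarith
      calc (2 : ℝ) ^ k * (HH N LL' J' + cc) ≤ 2 ^ k * (2 * (HH N LL J + cc)) :=
            mul_le_mul_of_nonneg_left h7 h6
        _ = 2 ^ k * 2 * (HH N LL J + cc) := by ring
-- END G4

-- BEGIN G5
/-- G5. `LL` = primes `≤ y`, `J` = light primes `≤ y` (`n_p log p ≤ Z`); the complement of `LL` has `j` elements, that of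
`J` at most `j + t`; `∑_{p ≤ y} log p ≤ y log y`, `∑_J ≤ y Z`. -/
theorem process_light (N y j t : ℕ) (Z : ℝ) (hodd : Odd N) (hN : Nat.Perfect N) (hy : 2 ≤ y)
    (hZ : 0 ≤ Z) (hj : (N.primeFactors.filter (y < ·)).card ≤ j)
    (ht : (N.primeFactors.filter (fun p => p ≤ y ∧ Z < nn N p * log (p : ℝ))).card ≤ t) :
    log N ≤ 2 ^ (2 * j + t) * (y * log y + y * Z + log (4 * N.primeFactors.card)) := by
  classical
  set LL : Finset ℕ := N.primeFactors.filter (fun p => p ≤ y) with hLLdef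
  set J : Finset ℕ := N.primeFactors.filter (fun p => p ≤ y ∧ ¬ Z < nn N p * log (p : ℝ)) with hJdef
  have hLL : LL ⊆ N.primeFactors := Finset.filter_subset _ _
  have hJ : J ⊆ LL := by
    intro p hp
    rw [hJdef, Finset.mem_filter] at hp
    rw [hLLdef, Finset.mem_filter]
    exact ⟨hp.1, hp.2.1⟩
  have hc1 : LL.card + (N.primeFactors.filter (y < ·)).card = N.primeFactors.card := by
    have h := Finset.card_filter_add_card_filter_not (s := N.primeFactors) (fun p => p ≤ y)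
    have e : N.primeFactors.filter (fun p => ¬ p ≤ y) = N.primeFactors.filter (y < ·) := by
      apply Finset.filter_congr
      intro p _
      exact not_le
    rw [e] at h
    exact h
  have hc2 : J.card + (N.primeFactors.filter (fun p => p ≤ y ∧ Z < nn N p * log (p : ℝ))).card =
      LL.card := by
    have h := Finset.card_filter_add_card_filter_not (s := LL)
      (fun p : ℕ => ¬ Z < nn N p * log (p : ℝ))
    have e1 : LL.filter (fun p : ℕ => ¬ Z < nn N p * log (p : ℝ)) = J := by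
      rw [hLLdef, Finset.filter_filter]
    have e2 : LL.filter (fun p : ℕ => ¬ ¬ Z < nn N p * log (p : ℝ)) =
        N.primeFactors.filter (fun p => p ≤ y ∧ Z < nn N p * log (p : ℝ)) := by
      rw [hLLdef, Finset.filter_filter]
      apply Finset.filter_congr
      intro p _
      simp only [not_not]
    rw [e1, e2] at h
    exact h
  have hk : 2 * N.primeFactors.card ≤ LL.card + J.card + (2 * j + t) := by omega
  have h0 := process N hodd hN LL J hLL hJ (2 * j + t) hk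
  have hy1 : (1 : ℝ) ≤ (y : ℝ) := by exact_mod_cast (by omega : 1 ≤ y)
  have hcLL : LL.card ≤ y := by
    have h1 : LL ⊆ Finset.Icc 1 y := by
      intro p hp
      rw [hLLdef, Finset.mem_filter] at hp
      rw [Finset.mem_Icc]
      exact ⟨(Nat.prime_of_mem_primeFactors hp.1).one_lt.le, hp.2⟩
    have h2 := Finset.card_le_card h1
    simpa using h2
  have hcJ : J.card ≤ y := (Finset.card_le_card hJ).trans hcLL
  have hcLL' : (LL.card : ℝ) ≤ y := by exact_mod_cast hcLL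
  have hcJ' : (J.card : ℝ) ≤ y := by exact_mod_cast hcJ
  have h1 : ∑ p ∈ LL, log (p : ℝ) ≤ y * log y := by
    have h2 : ∑ p ∈ LL, log (p : ℝ) ≤ LL.card • log (y : ℝ) := by
      apply Finset.sum_le_card_nsmul
      intro p hp
      rw [hLLdef, Finset.mem_filter] at hp
      apply Real.log_le_log
      · exact_mod_cast (Nat.prime_of_mem_primeFactors hp.1).pos
      · exact_mod_cast hp.2
    rw [nsmul_eq_mul] at h2
    exact h2.trans (mul_le_mul_of_nonneg_right hcLL' (Real.log_nonneg hy1))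
  have h3 : ∑ p ∈ J, (nn N p : ℝ) * log p ≤ y * Z := by
    have h2 : ∑ p ∈ J, (nn N p : ℝ) * log (p : ℝ) ≤ J.card • Z := by
      apply Finset.sum_le_card_nsmul
      intro p hp
      rw [hJdef, Finset.mem_filter] at hp
      exact not_lt.1 hp.2.2
    rw [nsmul_eq_mul] at h2
    exact h2.trans (mul_le_mul_of_nonneg_right hcJ' hZ)
  refine h0.trans ?_
  apply mul_le_mul_of_nonneg_left _ (by positivity)
  unfold HH
  linarith
-- END G5

end Pool.Agent.Lib.MP_f02ea4_nt.Ml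
end
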