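import Mathlib
import Pool.Agent.Lib.MP_f02ea4_nt.MlC

section

/-! Many large primes, part D: elimination.  `t` primes `p_i` with `p_i^(n_i) = 1 + W_i ∏_k r_k^(v_ki)`, few `r_k`,
`log W_i ≤ w`: then some `n_i log p_i` is small. -/

set_option autoImplicit false

namespace Pool.Agent.Lib.MP_f02ea4_nt.Ml

open Finset Real

-- BEGIN D1
/-- D1. Siegel's lemma (`Int.Matrix.exists_ne_zero_int_vec_norm_le`), `m = card κ` equations, `n = card ι ≥ (M+1)(m+1)`
unknowns: `m/(n-m) ≤ 1/M`, `(n V)^(1/M) ≤ Cm`.  If `κ` is empty take a unit vector. -/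
lemma small_comb {ι κ : Type} [Fintype ι] [Fintype κ] [DecidableEq ι] (v : κ → ι → ℕ)
    (V Cm M : ℕ) (hM : 1 ≤ M) (hV1 : 1 ≤ V) (hCm1 : 1 ≤ Cm)
    (hcard : (M + 1) * (Fintype.card κ + 1) ≤ Fintype.card ι) (hv : ∀ k i, v k i ≤ V)
    (hCm : Fintype.card ι * V ≤ Cm ^ M) :
    ∃ c : ι → ℤ, c ≠ 0 ∧ (∀ k, ∑ i, c i * (v k i : ℤ) = 0) ∧ ∀ i, |c i| ≤ Cm := by
  classical
  rcases isEmpty_or_nonempty κ with hκ | hκ
  · have hpos : 0 < Fintype.card ι := lt_of_lt_of_le (by positivity) hcard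
    obtain ⟨i0⟩ := Fintype.card_pos_iff.1 hpos
    refine ⟨Pi.single i0 1, ?_, fun k => (hκ.false k).elim, fun i => ?_⟩
    · intro h
      have h1 := congrFun h i0
      simp at h1
    · by_cases hi : i = i0
      · subst hi
        simp only [Pi.single_eq_same, abs_one]
        exact_mod_cast hCm1
      · rw [Pi.single_eq_of_ne hi, abs_zero]
        positivity
  · have hm : 0 < Fintype.card κ := Fintype.card_pos
    have hlt : Fintype.card κ < Fintype.card ι := by nlinarith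
    let A : Matrix κ ι ℤ := Matrix.of fun k i => (v k i : ℤ)
    obtain ⟨t, ht0, htA, htn⟩ := Int.Matrix.exists_ne_zero_int_vec_norm_le A hlt hm
    let _ : SeminormedAddCommGroup (Matrix κ ι ℤ) := Matrix.seminormedAddCommGroup
    have hnA : ‖A‖ ≤ (V : ℝ) := by
      rw [Matrix.norm_le_iff (by positivity)]
      intro k i
      change ‖((v k i : ℕ) : ℤ)‖ ≤ (V : ℝ)
      rw [Int.norm_eq_abs]
      push_cast
      rw [abs_of_nonneg (by positivity)]
      exact_mod_cast hv k i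
    have hV1' : (1 : ℝ) ≤ V := by exact_mod_cast hV1
    have hmax : max 1 ‖A‖ ≤ (V : ℝ) := max_le hV1' hnA
    have hmax1 : (1 : ℝ) ≤ max 1 ‖A‖ := le_max_left _ _
    have hn1 : (1 : ℝ) ≤ Fintype.card ι := by
      exact_mod_cast (lt_of_le_of_lt (Nat.zero_le _) hlt : 0 < Fintype.card ι)
    have hbase1 : (1 : ℝ) ≤ Fintype.card ι * max 1 ‖A‖ := by nlinarith
    have hM0 : (0 : ℝ) < M := by exact_mod_cast (by omega : 0 < M)
    have hnm : (0 : ℝ) < (Fintype.card ι : ℝ) - Fintype.card κ := by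
      have : (Fintype.card κ : ℝ) < Fintype.card ι := by exact_mod_cast hlt
      linarith
    have hexp : (Fintype.card κ : ℝ) / ((Fintype.card ι : ℝ) - Fintype.card κ) ≤ 1 / M := by
      rw [div_le_div_iff₀ hnm hM0]
      have h1 : ((M : ℝ) + 1) * (Fintype.card κ + 1) ≤ Fintype.card ι := by exact_mod_cast hcard
      nlinarith
    have hb2 : (Fintype.card ι : ℝ) * max 1 ‖A‖ ≤ (Cm : ℝ) ^ M := by
      have h1 : ((Fintype.card ι : ℝ)) * V ≤ (Cm : ℝ) ^ M := by exact_mod_cast hCm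
      refine le_trans ?_ h1
      exact mul_le_mul_of_nonneg_left hmax (by linarith)
    have hfin : ‖t‖ ≤ (Cm : ℝ) := by
      refine htn.trans ?_
      calc ((Fintype.card ι : ℝ) * max 1 ‖A‖) ^
            ((Fintype.card κ : ℝ) / ((Fintype.card ι : ℝ) - Fintype.card κ))
          ≤ ((Fintype.card ι : ℝ) * max 1 ‖A‖) ^ (1 / (M : ℝ)) :=
            Real.rpow_le_rpow_of_exponent_le hbase1 hexp
        _ ≤ ((Cm : ℝ) ^ M) ^ (1 / (M : ℝ)) :=
            Real.rpow_le_rpow (by linarith) hb2 (by positivity)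
        _ = Cm := by
            rw [← Real.rpow_natCast, ← Real.rpow_mul (by positivity), mul_one_div_cancel hM0.ne',
              Real.rpow_one]
    refine ⟨t, ht0, fun k => ?_, fun i => ?_⟩
    · have h1 := congrFun htA k
      rw [Matrix.mulVec, dotProduct, Pi.zero_apply] at h1
      rw [← h1]
      refine Finset.sum_congr rfl fun i _ => ?_
      rw [mul_comm]
      rfl
    · have h1 : ‖t i‖ ≤ ‖t‖ := norm_le_pi_norm t i
      rw [Int.norm_eq_abs] at h1
      have h2 : (|(t i : ℝ)|) ≤ (Cm : ℝ) := h1.trans hfin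
      exact_mod_cast h2
-- END D1

-- BEGIN D2
/-- D2. `log (p^n) - log (p^n - 1) ∈ [0, 2 p^(-n)]`, `p^n - 1 = W ∏ r^v`. -/
lemma log_eq_one {κ : Type} [Fintype κ] (p n W : ℕ) (r : κ → ℕ) (v : κ → ℕ) (hp : 2 ≤ p)
    (hn : 1 ≤ n) (hW : 1 ≤ W) (hr : ∀ k, 1 ≤ r k) (heq : p ^ n = 1 + W * ∏ k, r k ^ v k) (Z : ℝ)
    (hZ : Z ≤ n * log p) :
    |n * log p - log W - ∑ k, (v k : ℝ) * log (r k)| ≤ 2 * exp (-Z) := by
  have hpR : (0 : ℝ) < p := by
    have : 0 < p := by omega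
    exact_mod_cast this
  set Q : ℕ := W * ∏ k, r k ^ v k with hQ
  have hX2 : 2 ≤ p ^ n := by
    calc 2 ≤ p := hp
      _ = p ^ 1 := (pow_one p).symm
      _ ≤ p ^ n := Nat.pow_le_pow_right (by omega) hn
  have hQ1 : 1 ≤ Q := by omega
  have hWR : (0 : ℝ) < W := by exact_mod_cast hW
  have hrR : ∀ k, (0 : ℝ) < r k := fun k => by exact_mod_cast hr k
  have hlogQ : log (Q : ℝ) = log W + ∑ k, (v k : ℝ) * log (r k) := by
    have h1 : (Q : ℝ) = W * ∏ k, (r k : ℝ) ^ v k := by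
      rw [hQ]
      push_cast
      rfl
    rw [h1, Real.log_mul hWR.ne' (Finset.prod_ne_zero_iff.2 fun k _ => pow_ne_zero _ (hrR k).ne'),
      Real.log_prod fun k _ => pow_ne_zero _ (hrR k).ne']
    congr 1
    refine Finset.sum_congr rfl fun k _ => ?_
    rw [Real.log_pow]
  have hlogX : log ((p : ℝ) ^ n) = n * log p := Real.log_pow _ _
  have hXQ : (p : ℝ) ^ n = 1 + Q := by
    have : ((p ^ n : ℕ) : ℝ) = ((1 + Q : ℕ) : ℝ) := by rw [heq]
    push_cast at this
    exact this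
  have hQR : (1 : ℝ) ≤ Q := by exact_mod_cast hQ1
  have e : n * log p - log W - ∑ k, (v k : ℝ) * log (r k) = log ((p : ℝ) ^ n) - log Q := by
    rw [hlogX, hlogQ]
    ring
  rw [e, hXQ]
  have h1 : log (Q : ℝ) ≤ log (1 + Q) := Real.log_le_log (by linarith) (by linarith)
  rw [abs_of_nonneg (by linarith)]
  have h2 : log (1 + Q) - log (Q : ℝ) ≤ 1 / Q := by
    rw [← Real.log_div (by linarith) (by linarith)]
    have h3 := Real.log_le_sub_one_of_pos (x := (1 + Q) / (Q : ℝ)) (by positivity)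
    refine h3.trans (le_of_eq ?_)
    field_simp
    ring
  refine h2.trans ?_
  have h3 : exp (-Z) ≥ exp (-(n * log p)) := exp_le_exp.2 (by linarith)
  have h4 : exp (-(n * log p)) = 1 / (1 + Q) := by
    rw [Real.exp_neg, ← hlogX, Real.exp_log (by positivity), hXQ, one_div]
  have h5 : 1 / (Q : ℝ) ≤ 2 * (1 / (1 + Q)) := by
    rw [mul_one_div, div_le_div_iff₀ (by linarith) (by linarith)]
    linarith
  linarith

/-- D2. linear combination with `∑ c_i v_ki = 0`. -/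
lemma comb_small {ι κ : Type} [Fintype ι] [Fintype κ] (p n W : ι → ℕ) (r : κ → ℕ)
    (v : κ → ι → ℕ) (hp : ∀ i, 2 ≤ p i) (hn : ∀ i, 1 ≤ n i) (hW : ∀ i, 1 ≤ W i)
    (hr : ∀ k, 1 ≤ r k) (heq : ∀ i, p i ^ n i = 1 + W i * ∏ k, r k ^ v k i) (Z : ℝ)
    (hZ : ∀ i, Z ≤ n i * log (p i)) (c : ι → ℤ) (Cm : ℕ) (hc : ∀ i, |c i| ≤ Cm)
    (hc0 : ∀ k, ∑ i, c i * (v k i : ℤ) = 0) :
    |∑ i, (c i : ℝ) * (n i * log (p i) - log (W i))| ≤ 2 * Fintype.card ι * Cm * exp (-Z) := by
  have h1 : ∑ i, (c i : ℝ) * ∑ k, (v k i : ℝ) * log (r k) = 0 := by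
    simp only [Finset.mul_sum]
    rw [Finset.sum_comm]
    refine Finset.sum_eq_zero fun k _ => ?_
    have h2 : ∑ i, (c i : ℝ) * ((v k i : ℝ) * log (r k)) =
        ((∑ i, c i * (v k i : ℤ) : ℤ) : ℝ) * log (r k) := by
      push_cast
      rw [Finset.sum_mul]
      exact Finset.sum_congr rfl fun i _ => by ring
    rw [h2, hc0 k]
    simp
  have h2 : ∑ i, (c i : ℝ) * (n i * log (p i) - log (W i)) =
      ∑ i, (c i : ℝ) * (n i * log (p i) - log (W i) - ∑ k, (v k i : ℝ) * log (r k)) := by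
    have h3 : ∑ i, (c i : ℝ) * (n i * log (p i) - log (W i) - ∑ k, (v k i : ℝ) * log (r k)) =
        ∑ i, (c i : ℝ) * (n i * log (p i) - log (W i)) -
          ∑ i, (c i : ℝ) * ∑ k, (v k i : ℝ) * log (r k) := by
      rw [← Finset.sum_sub_distrib]
      exact Finset.sum_congr rfl fun i _ => by ring
    rw [h3, h1, sub_zero]
  rw [h2]
  refine (Finset.abs_sum_le_sum_abs _ _).trans ?_
  have h4 : ∀ i ∈ (Finset.univ : Finset ι), |(c i : ℝ) * (n i * log (p i) - log (W i) -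
      ∑ k, (v k i : ℝ) * log (r k))| ≤ Cm * (2 * exp (-Z)) := by
    intro i _
    rw [abs_mul]
    have h5 := log_eq_one (p i) (n i) (W i) r (fun k => v k i) (hp i) (hn i) (hW i) hr (heq i) Z
      (hZ i)
    have h6 : |(c i : ℝ)| ≤ Cm := by
      have : ((|c i| : ℤ) : ℝ) ≤ ((Cm : ℤ) : ℝ) := by exact_mod_cast hc i
      push_cast at this
      exact this
    exact mul_le_mul h6 h5 (abs_nonneg _) (Nat.cast_nonneg _)
  refine (Finset.sum_le_sum h4).trans (le_of_eq ?_)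
  rw [Finset.sum_const, Finset.card_univ, nsmul_eq_mul]
  ring
-- END D2

-- BEGIN D3
/-- D3. decomposition of `∏ W_i^(c_i)`: `β_i = ∑_j c_j v_(p_i)(W_j)`; for a prime `q` outside the `p_i` let
`G q = ∑_j c_j v_q(W_j)`, `A = ∏ q^(G q)^+`, `B = ∏ q^(G q)^-` (`Int.toNat`).  Then
`∑ c_i log W_i = log A - log B + ∑ β_i log p_i`; `log A, log B ≤ ∑ |c_i| log W_i`. -/
lemma decompose {ι : Type} [Fintype ι] [DecidableEq ι] (p W : ι → ℕ) (hp : ∀ i, (p i).Prime)
    (hinj : Function.Injective p) (hW : ∀ i, 1 ≤ W i) (c : ι → ℤ) (Cm : ℕ) (hc : ∀ i, |c i| ≤ Cm)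
    (w : ℝ) (hw : ∀ i, log (W i) ≤ w) :
    ∃ (A B : ℕ), 1 ≤ A ∧ 1 ≤ B ∧ Nat.Coprime A B ∧ (∀ i, Nat.Coprime A (p i)) ∧
      (∀ i, Nat.Coprime B (p i)) ∧
      ∑ i, (c i : ℝ) * log (W i) = log A - log B +
        ∑ i, ((∑ j, c j * ((W j).factorization (p i) : ℤ) : ℤ) : ℝ) * log (p i) ∧
      log A ≤ Fintype.card ι * Cm * w ∧ log B ≤ Fintype.card ι * Cm * w := by
  classical
  set U : Finset ℕ := Finset.univ.biUnion fun j => (W j).primeFactors with hU
  set S : Finset ℕ := U \ Finset.univ.image p with hS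
  set G : ℕ → ℤ := fun q => ∑ j, c j * ((W j).factorization q : ℤ) with hG
  have hSprime : ∀ q ∈ S, q.Prime := by
    intro q hq
    rw [hS, Finset.mem_sdiff, hU, Finset.mem_biUnion] at hq
    obtain ⟨⟨j, _, hj⟩, _⟩ := hq
    exact Nat.prime_of_mem_primeFactors hj
  have hSp : ∀ q ∈ S, ∀ i, q ≠ p i := by
    intro q hq i h
    rw [hS, Finset.mem_sdiff] at hq
    exact hq.2 (Finset.mem_image.2 ⟨i, Finset.mem_univ _, h.symm⟩)
  set A : ℕ := ∏ q ∈ S, q ^ (G q).toNat with hA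
  set B : ℕ := ∏ q ∈ S, q ^ (-G q).toNat with hB
  have hlogpos : ∀ q ∈ S, 0 ≤ log (q : ℝ) := fun q hq =>
    Real.log_nonneg (by exact_mod_cast (hSprime q hq).one_lt.le)
  have hlogA : log (A : ℝ) = ∑ q ∈ S, ((G q).toNat : ℝ) * log q := by
    rw [hA]
    push_cast
    rw [Real.log_prod fun q hq => pow_ne_zero _ (by exact_mod_cast (hSprime q hq).ne_zero)]
    exact Finset.sum_congr rfl fun q _ => Real.log_pow _ _
  have hlogB : log (B : ℝ) = ∑ q ∈ S, ((-G q).toNat : ℝ) * log q := by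
    rw [hB]
    push_cast
    rw [Real.log_prod fun q hq => pow_ne_zero _ (by exact_mod_cast (hSprime q hq).ne_zero)]
    exact Finset.sum_congr rfl fun q _ => Real.log_pow _ _
  have hdisj : Disjoint S (Finset.univ.image p) := Finset.sdiff_disjoint
  have hlogW : ∀ j, log (W j : ℝ) = ∑ q ∈ S, ((W j).factorization q : ℝ) * log q +
      ∑ i, ((W j).factorization (p i) : ℝ) * log (p i) := by
    intro j
    have h1 : ∑ i, ((W j).factorization (p i) : ℝ) * log (p i) =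
        ∑ q ∈ Finset.univ.image p, ((W j).factorization q : ℝ) * log q := by
      rw [Finset.sum_image fun x _ y _ h => hinj h]
    rw [h1, ← Finset.sum_union hdisj, Real.log_nat_eq_sum_factorization, Finsupp.sum]
    refine Finset.sum_subset ?_ ?_
    · intro q hq
      rw [Nat.support_factorization] at hq
      by_cases h : q ∈ Finset.univ.image p
      · exact Finset.mem_union_right _ h
      · refine Finset.mem_union_left _ (Finset.mem_sdiff.2 ⟨?_, h⟩)
        exact Finset.mem_biUnion.2 ⟨j, Finset.mem_univ _, hq⟩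
    · intro q _ hq
      rw [Finsupp.notMem_support_iff] at hq
      rw [hq]
      simp
  have hcR : ∀ i, |(c i : ℝ)| ≤ Cm := by
    intro i
    have : ((|c i| : ℤ) : ℝ) ≤ ((Cm : ℤ) : ℝ) := by exact_mod_cast hc i
    push_cast at this
    exact this
  have hlogp : ∀ i, 0 ≤ log (p i : ℝ) := fun i =>
    Real.log_nonneg (by exact_mod_cast (hp i).one_lt.le)
  have hSW : ∀ j, ∑ q ∈ S, ((W j).factorization q : ℝ) * log q ≤ log (W j : ℝ) := by
    intro j
    rw [hlogW j]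
    have : 0 ≤ ∑ i, ((W j).factorization (p i) : ℝ) * log (p i) :=
      Finset.sum_nonneg fun i _ => mul_nonneg (Nat.cast_nonneg _) (hlogp i)
    linarith
  have habs : ∑ q ∈ S, |(G q : ℝ)| * log q ≤ Fintype.card ι * Cm * w := by
    have h1 : ∀ q ∈ S, |(G q : ℝ)| * log q ≤
        ∑ j, |(c j : ℝ)| * (((W j).factorization q : ℝ) * log q) := by
      intro q hq
      have h2 : |(G q : ℝ)| ≤ ∑ j, |(c j : ℝ)| * ((W j).factorization q : ℝ) := by
        rw [hG]
        push_cast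
        refine (Finset.abs_sum_le_sum_abs _ _).trans (le_of_eq ?_)
        refine Finset.sum_congr rfl fun j _ => ?_
        rw [abs_mul, Nat.abs_cast]
      refine (mul_le_mul_of_nonneg_right h2 (hlogpos q hq)).trans (le_of_eq ?_)
      rw [Finset.sum_mul]
      exact Finset.sum_congr rfl fun j _ => by ring
    refine (Finset.sum_le_sum h1).trans ?_
    rw [Finset.sum_comm]
    have h3 : ∀ j ∈ (Finset.univ : Finset ι), ∑ q ∈ S, |(c j : ℝ)| *
        (((W j).factorization q : ℝ) * log q) ≤ Cm * w := by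
      intro j _
      rw [← Finset.mul_sum]
      have h4 := (hSW j).trans (hw j)
      have h5 : 0 ≤ ∑ q ∈ S, ((W j).factorization q : ℝ) * log q :=
        Finset.sum_nonneg fun q hq => mul_nonneg (Nat.cast_nonneg _) (hlogpos q hq)
      exact mul_le_mul (hcR j) h4 h5 (Nat.cast_nonneg _)
    refine (Finset.sum_le_sum h3).trans (le_of_eq ?_)
    rw [Finset.sum_const, Finset.card_univ, nsmul_eq_mul]
    ring
  have htoNat : ∀ z : ℤ, ((z.toNat : ℕ) : ℝ) ≤ |(z : ℝ)| := by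
    intro z
    have h1 : ((z.toNat : ℕ) : ℤ) ≤ |z| := by
      rcases le_total 0 z with hz | hz
      · rw [Int.toNat_of_nonneg hz]
        exact le_abs_self z
      · rw [Int.toNat_of_nonpos hz]
        exact abs_nonneg z
    exact_mod_cast h1
  refine ⟨A, B, ?_, ?_, ?_, ?_, ?_, ?_, ?_, ?_⟩
  · exact Nat.pos_of_ne_zero (Finset.prod_ne_zero_iff.2 fun q hq =>
      pow_ne_zero _ (hSprime q hq).ne_zero)
  · exact Nat.pos_of_ne_zero (Finset.prod_ne_zero_iff.2 fun q hq =>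
      pow_ne_zero _ (hSprime q hq).ne_zero)
  · refine Nat.Coprime.prod_left fun q hq => Nat.Coprime.prod_right fun q' hq' => ?_
    by_cases h : q = q'
    · subst h
      rcases le_total 0 (G q) with h1 | h1
      · have : (-G q).toNat = 0 := Int.toNat_of_nonpos (by linarith)
        rw [this, pow_zero]
        exact Nat.coprime_one_right _
      · have : (G q).toNat = 0 := Int.toNat_of_nonpos h1
        rw [this, pow_zero]
        exact Nat.coprime_one_left _
    · exact Nat.Coprime.pow _ _ ((Nat.coprime_primes (hSprime q hq) (hSprime q' hq')).2 h)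
  · intro i
    refine Nat.Coprime.prod_left fun q hq => Nat.Coprime.pow_left _ ?_
    exact (Nat.coprime_primes (hSprime q hq) (hp i)).2 (hSp q hq i)
  · intro i
    refine Nat.Coprime.prod_left fun q hq => Nat.Coprime.pow_left _ ?_
    exact (Nat.coprime_primes (hSprime q hq) (hp i)).2 (hSp q hq i)
  · have h1 : ∑ i, (c i : ℝ) * log (W i) = ∑ q ∈ S, (G q : ℝ) * log q +
        ∑ i, (G (p i) : ℝ) * log (p i) := by
      have h2 : ∀ j ∈ (Finset.univ : Finset ι), (c j : ℝ) * log (W j) =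
          ∑ q ∈ S, (c j : ℝ) * ((W j).factorization q : ℝ) * log q +
          ∑ i, (c j : ℝ) * ((W j).factorization (p i) : ℝ) * log (p i) := by
        intro j _
        rw [hlogW j, mul_add, Finset.mul_sum, Finset.mul_sum]
        congr 1
        · exact Finset.sum_congr rfl fun q _ => by ring
        · exact Finset.sum_congr rfl fun q _ => by ring
      rw [Finset.sum_congr rfl h2, Finset.sum_add_distrib]
      congr 1
      · rw [Finset.sum_comm]
        refine Finset.sum_congr rfl fun q _ => ?_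
        rw [hG, ← Finset.sum_mul]
        push_cast
        rfl
      · rw [Finset.sum_comm]
        refine Finset.sum_congr rfl fun q _ => ?_
        rw [hG, ← Finset.sum_mul]
        push_cast
        rfl
    rw [h1, hlogA, hlogB, ← Finset.sum_sub_distrib]
    congr 1
    refine Finset.sum_congr rfl fun q _ => ?_
    rw [← sub_mul]
    congr 1
    have h3 : G q = ((G q).toNat : ℤ) - ((-G q).toNat : ℤ) := (Int.toNat_sub_toNat_neg (G q)).symm
    have h4 : ((G q : ℤ) : ℝ) = ((((G q).toNat : ℤ) - ((-G q).toNat : ℤ) : ℤ) : ℝ) :=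
      congrArg _ h3
    rw [h4]
    push_cast
    rfl
  · rw [hlogA]
    refine le_trans (Finset.sum_le_sum fun q hq => ?_) habs
    exact mul_le_mul_of_nonneg_right (htoNat _) (hlogpos q hq)
  · rw [hlogB]
    refine le_trans (Finset.sum_le_sum fun q hq => ?_) habs
    refine mul_le_mul_of_nonneg_right ((htoNat _).trans ?_) (hlogpos q hq)
    push_cast
    rw [abs_neg]

/-- D3. `|β_i| log 2 ≤ ∑_j |c_j| v_(p_i)(W_j) log p_i ≤ card ι C w` for any bound `C` of the `|c_j|`. -/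
lemma beta_le {ι : Type} [Fintype ι] (p W : ι → ℕ) (hp : ∀ i, (p i).Prime) (hW : ∀ i, 1 ≤ W i)
    (c : ι → ℤ) (C : ℕ) (hc : ∀ i, |c i| ≤ C) (w : ℝ) (hw : ∀ i, log (W i) ≤ w) (i : ι) :
    |((∑ j, c j * ((W j).factorization (p i) : ℤ) : ℤ) : ℝ)| ≤ 2 * (Fintype.card ι * C * w) := by
  have hcR : ∀ i, |(c i : ℝ)| ≤ C := by
    intro i
    have : ((|c i| : ℤ) : ℝ) ≤ ((C : ℤ) : ℝ) := by exact_mod_cast hc i
    push_cast at this
    exact this
  push_cast
  refine (Finset.abs_sum_le_sum_abs _ _).trans ?_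
  have h1 : ∀ j ∈ (Finset.univ : Finset ι),
      |(c j : ℝ) * ((W j).factorization (p i) : ℝ)| ≤ C * (2 * w) := by
    intro j _
    rw [abs_mul, Nat.abs_cast]
    have h2 : p i ^ (W j).factorization (p i) ≤ W j :=
      Nat.ordProj_le (p i) (by have := hW j; omega)
    have hWj : (0 : ℝ) < W j := by exact_mod_cast hW j
    have h3 : ((W j).factorization (p i) : ℝ) * log (p i) ≤ log (W j) := by
      rw [← Real.log_pow]
      refine Real.log_le_log ?_ (by exact_mod_cast h2)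
      have : (0 : ℝ) < p i := by exact_mod_cast (hp i).pos
      positivity
    have h4 : (1 : ℝ) / 2 ≤ log (p i) := by
      have h5 := Real.log_le_log (by norm_num : (0 : ℝ) < 2)
        (by exact_mod_cast (hp i).two_le : (2 : ℝ) ≤ p i)
      have h6 := Real.log_two_gt_d9
      linarith
    have h5 : (0 : ℝ) ≤ ((W j).factorization (p i) : ℝ) := Nat.cast_nonneg _
    have h6 : ((W j).factorization (p i) : ℝ) ≤ 2 * w := by
      have := hw j
      nlinarith
    exact mul_le_mul (hcR j) h6 h5 (Nat.cast_nonneg _)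
  refine (Finset.sum_le_sum h1).trans (le_of_eq ?_)
  rw [Finset.sum_const, Finset.card_univ, nsmul_eq_mul]
  ring
-- END D3

-- BEGIN D4
/-- D4. case `A ≠ B`: `baker_sym` with `b0 = 1`, `b_i = c_i n_i - β_i`, `H = card ι Cm w`. -/
lemma lower_ne {ι : Type} [Fintype ι] [DecidableEq ι] (t : ℕ) (hcard : Fintype.card ι = t)
    (ht : 2 ≤ t) (p n W : ι → ℕ) (hp : ∀ i, (p i).Prime) (hinj : Function.Injective p)
    (hW : ∀ i, 1 ≤ W i) (c : ι → ℤ) (Cm V : ℕ) (hc : ∀ i, |c i| ≤ Cm) (hn : ∀ i, n i ≤ V) (w : ℝ)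
    (hw : ∀ i, log (W i) ≤ w) (E Y Bb : ℕ) (hE1 : 1 ≤ E) (hY1 : 1 ≤ Y)
    (hBb : (Cm * V : ℝ) + 2 * (t * Cm * w) + 1 ≤ Bb) (hE : ∀ i, log (p i : ℝ) ≤ E)
    (hY : log (Bb : ℝ) + log (1 + t * Cm * w) ≤ Y) (A B : ℕ) (hA : 1 ≤ A) (hB : 1 ≤ B)
    (hAB : Nat.Coprime A B) (hAp : ∀ i, Nat.Coprime A (p i)) (hBp : ∀ i, Nat.Coprime B (p i))
    (hsum : ∑ i, (c i : ℝ) * log (W i) = log A - log B +
        ∑ i, ((∑ j, c j * ((W j).factorization (p i) : ℤ) : ℤ) : ℝ) * log (p i))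
    (hAw : log A ≤ t * Cm * w) (hBw : log B ≤ t * Cm * w) (hne : A ≠ B) :
    exp (-(t * Cm * w * (pR t E Y : ℝ) ^ (32 * t + 64))) ≤
      |∑ i, (c i : ℝ) * (n i * log (p i) - log (W i))| := by
  have hcR : ∀ i, |(c i : ℝ)| ≤ Cm := by
    intro i
    have : ((|c i| : ℤ) : ℝ) ≤ ((Cm : ℤ) : ℝ) := by exact_mod_cast hc i
    push_cast at this
    exact this
  set β : ι → ℤ := fun i => ∑ j, c j * ((W j).factorization (p i) : ℤ) with hβ
  set b : ι → ℤ := fun i => c i * n i - β i with hbdef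
  have hβle : ∀ i, |(β i : ℝ)| ≤ 2 * (t * Cm * w) := by
    intro i
    have h1 := beta_le p W hp hW c Cm hc w hw i
    rw [hcard] at h1
    exact h1
  have hbR : ∀ i, |(b i : ℝ)| ≤ Bb := by
    intro i
    have h1 : |(c i : ℝ) * n i| ≤ Cm * V := by
      rw [abs_mul, Nat.abs_cast]
      exact mul_le_mul (hcR i) (by exact_mod_cast hn i) (Nat.cast_nonneg _) (Nat.cast_nonneg _)
    have h2 : ((b i : ℤ) : ℝ) = (c i : ℝ) * n i - (β i : ℝ) := by
      rw [hbdef]
      push_cast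
      rfl
    rw [h2]
    refine (abs_sub _ _).trans ?_
    have h3 := hβle i
    linarith
  have hb : ∀ i, |b i| ≤ Bb := by
    intro i
    have h1 := hbR i
    have h2 : ((|b i| : ℤ) : ℝ) ≤ ((Bb : ℤ) : ℝ) := by
      push_cast
      exact h1
    exact_mod_cast h2
  have hX0 : 0 ≤ (Cm : ℝ) * V := by positivity
  have hι : Nonempty ι := by
    rw [← Fintype.card_pos_iff, hcard]
    omega
  obtain ⟨i0⟩ := hι
  have hw0 : 0 ≤ w := (Real.log_nonneg (by exact_mod_cast hW i0)).trans (hw i0)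
  have hBb1 : 1 ≤ Bb := by
    have h1 : 0 ≤ 2 * (t * Cm * w : ℝ) := by positivity
    have h2 : (1 : ℝ) ≤ Bb := by linarith
    exact_mod_cast h2
  have key := baker_sym t hcard (by omega) p (fun i => (hp i).two_le) A B hA hB hne hAB hAp hBp
    1 one_ne_zero b E Y Bb hE1 hY1 hBb1 hE (by
      rw [abs_one]
      exact_mod_cast hBb1) hb (t * Cm * w) hAw hBw hY
  refine key.trans (le_of_eq ?_)
  rw [← abs_neg]
  congr 1
  have h1 : ∑ i, (c i : ℝ) * (n i * log (p i) - log (W i)) =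
      ∑ i, (c i : ℝ) * n i * log (p i) - ∑ i, (c i : ℝ) * log (W i) := by
    rw [← Finset.sum_sub_distrib]
    exact Finset.sum_congr rfl fun i _ => by ring
  have h2 : ∑ i, (b i : ℝ) * log (p i) =
      ∑ i, (c i : ℝ) * n i * log (p i) - ∑ i, (β i : ℝ) * log (p i) := by
    rw [← Finset.sum_sub_distrib]
    refine Finset.sum_congr rfl fun i _ => ?_
    rw [hbdef]
    push_cast
    ring
  have hsum' : ∑ i, (c i : ℝ) * log (W i) = log A - log B + ∑ i, (β i : ℝ) * log (p i) := hsum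
  rw [h1, h2, hsum', Int.cast_one]
  ring
-- END D4

-- BEGIN D5
/-- D5. case `A = B` (so `log A - log B = 0`): the form is `∑ (c_i n_i - β_i) log p_i`.  Let `|c_i0|` be maximal, `≥ 1`;
`|β_i0| ≤ 2 t |c_i0| w` (D3 `beta_le` with `C = |c_i0|`) and `n_i0 ≥ Z/E > 2 t w`, so the coefficient `b_i0` is not `0`.
`baker_sym` on `{i // i ≠ i0}` (card `t - 1 ≥ 1`) with `A = p_i0`, `B = 1`, `b0 = b_i0` (signs), `H = log p_i0 ≤ E ≤ w`;
`pR (t-1) ≤ pR t`, exponent monotone. -/
lemma lower_eq {ι : Type} [Fintype ι] [DecidableEq ι] (t : ℕ) (hcard : Fintype.card ι = t)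
    (ht : 2 ≤ t) (p n W : ι → ℕ) (hp : ∀ i, (p i).Prime) (hinj : Function.Injective p)
    (hW : ∀ i, 1 ≤ W i) (c : ι → ℤ) (hc0 : c ≠ 0) (Cm V : ℕ) (hc : ∀ i, |c i| ≤ Cm)
    (hn : ∀ i, n i ≤ V) (w : ℝ)
    (hw : ∀ i, log (W i) ≤ w) (E Y Bb : ℕ) (hE1 : 1 ≤ E) (hEw : (E : ℝ) ≤ w) (hY1 : 1 ≤ Y)
    (hnw : ∀ i, 2 * (t * w) < n i)
    (hBb : (Cm * V : ℝ) + 2 * (t * Cm * w) + 1 ≤ Bb) (hE : ∀ i, log (p i : ℝ) ≤ E)
    (hY : log (Bb : ℝ) + log (1 + t * Cm * w) ≤ Y)
    (hsum : ∑ i, (c i : ℝ) * log (W i) =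
        ∑ i, ((∑ j, c j * ((W j).factorization (p i) : ℤ) : ℤ) : ℝ) * log (p i)) :
    exp (-(t * Cm * w * (pR t E Y : ℝ) ^ (32 * t + 64))) ≤
      |∑ i, (c i : ℝ) * (n i * log (p i) - log (W i))| := by
  classical
  have hcR : ∀ i, |(c i : ℝ)| ≤ Cm := by
    intro i
    have : ((|c i| : ℤ) : ℝ) ≤ ((Cm : ℤ) : ℝ) := by exact_mod_cast hc i
    push_cast at this
    exact this
  set β : ι → ℤ := fun i => ∑ j, c j * ((W j).factorization (p i) : ℤ) with hβ
  set b : ι → ℤ := fun i => c i * n i - β i with hbdef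
  have hβle : ∀ i, |(β i : ℝ)| ≤ 2 * (t * Cm * w) := by
    intro i
    have h1 := beta_le p W hp hW c Cm hc w hw i
    rw [hcard] at h1
    exact h1
  have hbeq : ∀ i, ((b i : ℤ) : ℝ) = (c i : ℝ) * n i - (β i : ℝ) := by
    intro i
    rw [hbdef]
    push_cast
    rfl
  have hbR : ∀ i, |(b i : ℝ)| ≤ Bb := by
    intro i
    have h1 : |(c i : ℝ) * n i| ≤ Cm * V := by
      rw [abs_mul, Nat.abs_cast]
      exact mul_le_mul (hcR i) (by exact_mod_cast hn i) (Nat.cast_nonneg _) (Nat.cast_nonneg _)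
    rw [hbeq]
    refine (abs_sub _ _).trans ?_
    have h3 := hβle i
    linarith
  have hb : ∀ i, |b i| ≤ Bb := by
    intro i
    have h1 := hbR i
    have h2 : ((|b i| : ℤ) : ℝ) ≤ ((Bb : ℤ) : ℝ) := by
      push_cast
      exact h1
    exact_mod_cast h2
  have hX0 : 0 ≤ (Cm : ℝ) * V := by positivity
  obtain ⟨i1, hi1⟩ := Function.ne_iff.1 hc0
  obtain ⟨i0, _, hmax⟩ := Finset.exists_max_image (Finset.univ : Finset ι)
    (fun i => (c i).natAbs) ⟨i1, Finset.mem_univ _⟩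
  have hC0 : 1 ≤ (c i0).natAbs := by
    have h1 := hmax i1 (Finset.mem_univ _)
    have h2 : 0 < (c i1).natAbs := Int.natAbs_pos.2 hi1
    omega
  have hw0 : 0 ≤ w := (Real.log_nonneg (by exact_mod_cast hW i0)).trans (hw i0)
  have ht0 : (0 : ℝ) < t := by
    have : 0 < t := by omega
    exact_mod_cast this
  have hCC : (c i0).natAbs ≤ Cm := by
    have h1 := hc i0
    rw [Int.abs_eq_natAbs] at h1
    exact_mod_cast h1
  have hCm1 : (1 : ℝ) ≤ Cm := by exact_mod_cast hC0.trans hCC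
  have hBb1 : 1 ≤ Bb := by
    have h1 : 0 ≤ 2 * (t * Cm * w : ℝ) := by positivity
    have h2 : (1 : ℝ) ≤ Bb := by linarith
    exact_mod_cast h2
  have hβ0 : |(β i0 : ℝ)| ≤ 2 * (t * (c i0).natAbs * w) := by
    have h1 := beta_le p W hp hW c (c i0).natAbs (fun i => by
      rw [Int.abs_eq_natAbs]
      exact_mod_cast hmax i (Finset.mem_univ _)) w hw i0
    rw [hcard] at h1
    exact h1
  have hbi0 : b i0 ≠ 0 := by
    intro h0
    have h1 : (c i0 : ℝ) * n i0 = (β i0 : ℝ) := by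
      have h2 := hbeq i0
      rw [h0] at h2
      push_cast at h2
      linarith
    have h2 : |(c i0 : ℝ) * n i0| = ((c i0).natAbs : ℝ) * n i0 := by
      rw [abs_mul, Nat.abs_cast]
      congr 1
      rw [Nat.cast_natAbs]
      push_cast
      rfl
    have h3 : (1 : ℝ) ≤ (c i0).natAbs := by exact_mod_cast hC0
    have h4 := hnw i0
    rw [← h1, h2] at hβ0
    nlinarith
  have hcard' : Fintype.card {i : ι // i ≠ i0} = t - 1 := by
    rw [Fintype.card_subtype_compl, Fintype.card_subtype_eq, hcard]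
  have hEone : (1 : ℝ) ≤ E := by exact_mod_cast hE1
  have ht1 : (1 : ℝ) ≤ t := by
    have : 1 ≤ t := by omega
    exact_mod_cast this
  have hEX : (E : ℝ) ≤ t * Cm * w := by
    have h1 : w ≤ t * Cm * w := by
      have h2 : 1 ≤ (t : ℝ) * Cm := by nlinarith
      nlinarith
    linarith
  have key := baker_sym (ι := {i : ι // i ≠ i0}) (t - 1) hcard' (by omega) (fun i => p i.1)
    (fun i => (hp i.1).two_le) (p i0) 1 (hp i0).one_lt.le le_rfl (hp i0).one_lt.ne'
    (Nat.coprime_one_right _)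
    (fun i => (Nat.coprime_primes (hp i0) (hp i.1)).2 fun h => i.2 (hinj h).symm)
    (fun i => Nat.coprime_one_left _) (b i0) hbi0 (fun i => -b i.1) E Y Bb hE1 hY1 hBb1
    (fun i => hE i.1) (hb i0) (fun i => by
      rw [abs_neg]
      exact hb i.1) E (hE i0) (by
      rw [Nat.cast_one, Real.log_one]
      linarith) (by
      have h1 := Real.log_le_log (by linarith : (0 : ℝ) < 1 + E)
        (by linarith : (1 : ℝ) + E ≤ 1 + t * Cm * w)
      linarith)
  have hform : ∑ i, (c i : ℝ) * (n i * log (p i) - log (W i)) =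
      (b i0 : ℝ) * (log (p i0 : ℝ) - log ((1 : ℕ) : ℝ)) -
        ∑ i : {i : ι // i ≠ i0}, ((-b i.1 : ℤ) : ℝ) * log (p i.1 : ℝ) := by
    have h1 : ∑ i, (c i : ℝ) * (n i * log (p i) - log (W i)) =
        ∑ i, (c i : ℝ) * n i * log (p i) - ∑ i, (c i : ℝ) * log (W i) := by
      rw [← Finset.sum_sub_distrib]
      exact Finset.sum_congr rfl fun i _ => by ring
    have h2 : ∑ i, (b i : ℝ) * log (p i) =
        ∑ i, (c i : ℝ) * n i * log (p i) - ∑ i, (β i : ℝ) * log (p i) := by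
      rw [← Finset.sum_sub_distrib]
      refine Finset.sum_congr rfl fun i _ => ?_
      rw [hbeq]
      ring
    have h3 : ∑ i, (b i : ℝ) * log (p i) = (b i0 : ℝ) * log (p i0) +
        ∑ i : {i : ι // i ≠ i0}, (b i.1 : ℝ) * log (p i.1 : ℝ) := by
      rw [← Finset.add_sum_erase _ _ (Finset.mem_univ i0)]
      congr 1
      rw [← Finset.sum_subtype (Finset.univ.erase i0) (fun x => by simp)
        (fun i => (b i : ℝ) * log (p i : ℝ))]
    rw [h1, hsum, ← h2, h3]
    push_cast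
    simp only [neg_mul, Finset.sum_neg_distrib, Real.log_one]
    ring
  rw [hform]
  refine le_trans (exp_le_exp.2 ?_) key
  refine neg_le_neg ?_
  have hR1 : (1 : ℝ) ≤ pR t E Y := by
    have h1 := (pR_ge t E Y (by omega) hE1 hY1).1
    have : 1 ≤ pR t E Y := by omega
    exact_mod_cast this
  have hRR : (pR (t - 1) E Y : ℝ) ≤ pR t E Y := by
    have : pR (t - 1) E Y ≤ pR t E Y := by
      unfold pR
      exact Nat.mul_le_mul_right _ (Nat.mul_le_mul_right _ (Nat.mul_le_mul_left _ (by omega)))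
    exact_mod_cast this
  have hpow : (pR (t - 1) E Y : ℝ) ^ (32 * (t - 1) + 64) ≤ (pR t E Y : ℝ) ^ (32 * t + 64) := by
    refine (pow_le_pow_left₀ (Nat.cast_nonneg _) hRR _).trans ?_
    exact pow_le_pow_right₀ hR1 (by omega)
  have hEX0 : (0 : ℝ) ≤ t * Cm * w := by linarith
  exact mul_le_mul hEX hpow (pow_nonneg (Nat.cast_nonneg _) _) hEX0
-- END D5

-- BEGIN D6
/-- D6. ELIMINATION.  Suppose `Z` were larger than the bound: then `n_i ≥ Z/E > 2 t w` (`2 E t w ≤ bound`, as `R ≥ 100 E`),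
D1 gives `c`, D2 `|Λ| ≤ 2 t Cm e^(-Z)`, D3 gives `A, B`, D4 or D5 (`A = B` coprime, so both are `1`) give
`|Λ| ≥ exp (-t Cm w R^(32t+64))`; `log (2 t Cm) ≤ t Cm w R^(..)`, contradiction. -/
theorem elimination {ι κ : Type} [Fintype ι] [Fintype κ] [DecidableEq ι] (t M : ℕ)
    (hcard : Fintype.card ι = t) (hM : 1 ≤ M) (hk : (M + 1) * (Fintype.card κ + 1) ≤ t)
    (p n W : ι → ℕ) (hp : ∀ i, (p i).Prime) (hinj : Function.Injective p) (hn1 : ∀ i, 1 ≤ n i)
    (hW : ∀ i, 1 ≤ W i) (r : κ → ℕ) (hr : ∀ k, 1 ≤ r k) (v : κ → ι → ℕ)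
    (heq : ∀ i, p i ^ n i = 1 + W i * ∏ k, r k ^ v k i) (V Cm : ℕ) (hV1 : 1 ≤ V) (hCm1 : 1 ≤ Cm)
    (hv : ∀ k i, v k i ≤ V) (hn : ∀ i, n i ≤ V) (hCm : t * V ≤ Cm ^ M) (w : ℝ)
    (hw : ∀ i, log (W i) ≤ w) (E Y Bb : ℕ) (hE1 : 1 ≤ E) (hEw : (E : ℝ) ≤ w) (hY1 : 1 ≤ Y)
    (hBb : (Cm * V : ℝ) + 2 * (t * Cm * w) + 1 ≤ Bb) (hE : ∀ i, log (p i : ℝ) ≤ E)
    (hY : log (Bb : ℝ) + log (1 + t * Cm * w) ≤ Y) (Z : ℝ) (hZ : ∀ i, Z ≤ n i * log (p i)) :
    Z ≤ 2 * (t * Cm * w * (pR t E Y : ℝ) ^ (32 * t + 64)) := by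
  classical
  have ht2 : 2 ≤ t := by
    have h1 : 2 * 1 ≤ (M + 1) * (Fintype.card κ + 1) := Nat.mul_le_mul (by omega) (by omega)
    omega
  have ht1 : (1 : ℝ) ≤ t := by
    have : 1 ≤ t := by omega
    exact_mod_cast this
  have hCm1R : (1 : ℝ) ≤ Cm := by exact_mod_cast hCm1
  have hE1R : (1 : ℝ) ≤ E := by exact_mod_cast hE1
  have hw1 : 1 ≤ w := hE1R.trans hEw
  have hR100 : 100 * (E : ℝ) ≤ pR t E Y := by
    exact_mod_cast (pR_ge t E Y (by omega) hE1 hY1).2.2.1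
  have hR1 : (1 : ℝ) ≤ pR t E Y := by linarith
  have hRpow : 100 * (E : ℝ) ≤ (pR t E Y : ℝ) ^ (32 * t + 64) := by
    refine hR100.trans ?_
    calc (pR t E Y : ℝ) = (pR t E Y : ℝ) ^ 1 := (pow_one _).symm
      _ ≤ _ := pow_le_pow_right₀ hR1 (by omega)
  by_contra hcon
  rw [not_le] at hcon
  set P : ℝ := (pR t E Y : ℝ) ^ (32 * t + 64) with hP
  set X : ℝ := t * Cm * w * P with hX
  have htw : (t : ℝ) * w ≤ t * Cm * w := by
    have : 0 ≤ (t : ℝ) * w := by positivity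
    nlinarith
  have hXE : 100 * (t * w * E) ≤ X := by
    have h1 : (t : ℝ) * Cm * w * (100 * E) ≤ X :=
      mul_le_mul_of_nonneg_left hRpow (by positivity)
    have h2 : (t : ℝ) * w * E ≤ t * Cm * w * E := mul_le_mul_of_nonneg_right htw (by linarith)
    linarith
  have hXC : 100 * (t * Cm) ≤ X := by
    have h1 : (t : ℝ) * Cm * w * (100 * E) ≤ X :=
      mul_le_mul_of_nonneg_left hRpow (by positivity)
    have h2 : (t : ℝ) * Cm * 1 ≤ t * Cm * (w * E) :=
      mul_le_mul_of_nonneg_left (by nlinarith) (by positivity)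
    linarith
  have hnw : ∀ i, 2 * (t * w) < n i := by
    intro i
    have h1 := hZ i
    have h2 : (n i : ℝ) * log (p i) ≤ n i * E :=
      mul_le_mul_of_nonneg_left (hE i) (Nat.cast_nonneg _)
    have h3 : 2 * (100 * (t * w * E)) < (n i : ℝ) * E := by linarith
    have h4 : 0 ≤ (t : ℝ) * w := by positivity
    have h5 : 2 * (t * w) * E < (n i : ℝ) * E := by
      nlinarith
    exact lt_of_mul_lt_mul_right h5 (by linarith)
  obtain ⟨c, hc0, hck, hc⟩ := small_comb v V Cm M hM hV1 hCm1 (by rw [hcard]; exact hk) hv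
    (by rw [hcard]; exact hCm)
  have hup := comb_small p n W r v (fun i => (hp i).two_le) hn1 hW hr heq Z hZ c Cm hc hck
  rw [hcard] at hup
  have hlow : exp (-X) ≤ |∑ i, (c i : ℝ) * (n i * log (p i) - log (W i))| := by
    obtain ⟨A, B, hA, hB, hAB, hAp, hBp, hsum, hAw, hBw⟩ :=
      decompose p W hp hinj hW c Cm hc w hw
    rw [hcard] at hAw hBw
    by_cases hne : A = B
    · subst hne
      rw [sub_self, zero_add] at hsum
      exact lower_eq t hcard ht2 p n W hp hinj hW c hc0 Cm V hc hn w hw E Y Bb hE1 hEw hY1 hnw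
        hBb hE hY hsum
    · exact lower_ne t hcard ht2 p n W hp hinj hW c Cm V hc hn w hw E Y Bb hE1 hY1 hBb hE hY
        A B hA hB hAB hAp hBp hsum hAw hBw hne
  have h1 : exp (-X) ≤ 2 * t * Cm * exp (-Z) := hlow.trans hup
  have h2 : exp (-Z) ≤ exp (-(2 * X)) := exp_le_exp.2 (by linarith)
  have h3 : exp (-X) ≤ 2 * t * Cm * exp (-(2 * X)) :=
    h1.trans (mul_le_mul_of_nonneg_left h2 (by positivity))
  have h4 : exp X ≤ 2 * t * Cm := by
    have h5 := mul_le_mul_of_nonneg_right h3 (exp_pos (2 * X)).le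
    rw [← Real.exp_add, mul_assoc, ← Real.exp_add] at h5
    have e1 : -X + 2 * X = X := by ring
    have e2 : -(2 * X) + 2 * X = 0 := by ring
    rw [e1, e2, Real.exp_zero, mul_one] at h5
    exact h5
  have h6 := Real.add_one_le_exp X
  have h7 : 0 < (t : ℝ) * Cm := by positivity
  linarith
-- END D6

end Pool.Agent.Lib.MP_f02ea4_nt.Ml
end

section

/-! Elimination with bounded loss, part A: pigeonhole and decomposition. -/

set_option autoImplicit false

namespace Pool.Agent.Lib.MP_f02ea4_nt.AE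

open Finset Real

/-- pigeonhole: a small integer combination with small values -/
lemma small_comb2 {ι : Type} [Fintype ι] [DecidableEq ι] (L : Finset ℕ) (x : ℕ → ι → ℝ)
    (t Cm : ℕ) (Δ Xm : ℝ) (hcard : Fintype.card ι = t) (ht : 2 * L.card < t) (hCm1 : 1 ≤ Cm)
    (hΔ : 0 < Δ) (hx0 : ∀ Q ∈ L, ∀ i, 0 ≤ x Q i) (hx : ∀ Q ∈ L, ∀ i, x Q i ≤ Xm)
    (hbox : t * Cm * Xm ≤ (Cm : ℝ) ^ 2 * Δ) :
    ∃ c : ι → ℤ, c ≠ 0 ∧ (∀ i, |c i| ≤ Cm) ∧ ∀ Q ∈ L, |∑ i, (c i : ℝ) * x Q i| ≤ Δ := by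
  classical
  have hsum0 : ∀ (y : ι → Fin (Cm + 1)) (Q : L), 0 ≤ ∑ i, ((y i : ℕ) : ℝ) * x Q i := by
    intro y Q
    exact Finset.sum_nonneg fun i _ => mul_nonneg (Nat.cast_nonneg _) (hx0 Q.1 Q.2 i)
  have hlt : ∀ (y : ι → Fin (Cm + 1)) (Q : L),
      ⌊(∑ i, ((y i : ℕ) : ℝ) * x Q i) / Δ⌋₊ < Cm ^ 2 + 1 := by
    intro y Q
    have h1 : ∑ i, ((y i : ℕ) : ℝ) * x Q i ≤ t * Cm * Xm := by
      have h2 : ∀ i ∈ (Finset.univ : Finset ι), ((y i : ℕ) : ℝ) * x Q i ≤ Cm * Xm := by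
        intro i _
        have h3 : ((y i : ℕ) : ℝ) ≤ Cm := by
          have := (y i).2
          exact_mod_cast Nat.lt_succ_iff.1 this
        exact mul_le_mul h3 (hx Q.1 Q.2 i) (hx0 Q.1 Q.2 i) (Nat.cast_nonneg _)
      refine (Finset.sum_le_sum h2).trans (le_of_eq ?_)
      rw [Finset.sum_const, Finset.card_univ, hcard, nsmul_eq_mul]
      ring
    have h4 : (∑ i, ((y i : ℕ) : ℝ) * x Q i) / Δ ≤ (Cm : ℝ) ^ 2 := by
      rw [div_le_iff₀ hΔ]
      exact h1.trans hbox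
    have h5 : ⌊(∑ i, ((y i : ℕ) : ℝ) * x Q i) / Δ⌋₊ ≤ Cm ^ 2 := by
      apply Nat.floor_le_of_le
      push_cast
      exact h4
    omega
  let f : (ι → Fin (Cm + 1)) → (L → Fin (Cm ^ 2 + 1)) := fun y Q =>
    ⟨⌊(∑ i, ((y i : ℕ) : ℝ) * x Q i) / Δ⌋₊, hlt y Q⟩
  have hc : Fintype.card (L → Fin (Cm ^ 2 + 1)) < Fintype.card (ι → Fin (Cm + 1)) := by
    rw [Fintype.card_fun, Fintype.card_fun, Fintype.card_fin, Fintype.card_fin, hcard,
      Fintype.card_coe]
    calc (Cm ^ 2 + 1) ^ L.card ≤ ((Cm + 1) ^ 2) ^ L.card := by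
          apply Nat.pow_le_pow_left
          nlinarith
      _ = (Cm + 1) ^ (2 * L.card) := by rw [← pow_mul]
      _ < (Cm + 1) ^ t := Nat.pow_lt_pow_right (by omega) ht
  obtain ⟨y, y', hne, hff⟩ := Fintype.exists_ne_map_eq_of_card_lt f hc
  refine ⟨fun i => ((y i : ℕ) : ℤ) - ((y' i : ℕ) : ℤ), ?_, ?_, ?_⟩
  · intro h
    apply hne
    funext i
    have h1 := congrFun h i
    simp only [Pi.zero_apply] at h1
    apply Fin.ext
    have h2 : ((y i : ℕ) : ℤ) = ((y' i : ℕ) : ℤ) := by linarith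
    exact_mod_cast h2
  · intro i
    have h1 := (y i).2
    have h2 := (y' i).2
    change |((y i : ℕ) : ℤ) - ((y' i : ℕ) : ℤ)| ≤ (Cm : ℤ)
    rw [abs_le]
    constructor <;> omega
  · intro Q hQ
    have h1 := congrFun hff ⟨Q, hQ⟩
    have h2 : ⌊(∑ i, ((y i : ℕ) : ℝ) * x Q i) / Δ⌋₊ = ⌊(∑ i, ((y' i : ℕ) : ℝ) * x Q i) / Δ⌋₊ := by
      have := congrArg Fin.val h1
      exact this
    have ha0 : 0 ≤ (∑ i, ((y i : ℕ) : ℝ) * x Q i) / Δ :=
      div_nonneg (hsum0 y ⟨Q, hQ⟩) hΔ.le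
    have hb0 : 0 ≤ (∑ i, ((y' i : ℕ) : ℝ) * x Q i) / Δ :=
      div_nonneg (hsum0 y' ⟨Q, hQ⟩) hΔ.le
    have ha1 := Nat.floor_le ha0
    have ha2 := Nat.lt_floor_add_one ((∑ i, ((y i : ℕ) : ℝ) * x Q i) / Δ)
    have hb1 := Nat.floor_le hb0
    have hb2 := Nat.lt_floor_add_one ((∑ i, ((y' i : ℕ) : ℝ) * x Q i) / Δ)
    rw [h2] at ha1 ha2
    have hd : |(∑ i, ((y i : ℕ) : ℝ) * x Q i) / Δ - (∑ i, ((y' i : ℕ) : ℝ) * x Q i) / Δ| ≤ 1 := by
      rw [abs_le]
      constructor <;> linarith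
    rw [← sub_div, abs_div, abs_of_pos hΔ, div_le_one hΔ, ← Finset.sum_sub_distrib] at hd
    refine le_trans (le_of_eq ?_) hd
    congr 1
    refine Finset.sum_congr rfl fun i _ => ?_
    push_cast
    ring

/-- decomposition of `∏ M_i^(c_i)` into the part composed of the primes `a s` and a reduced fraction `A/B` -/
lemma decompose2 {ι τ : Type} [Fintype ι] [Fintype τ] [DecidableEq ι] (a : τ → ℕ)
    (ha : ∀ s, (a s).Prime) (hinj : Function.Injective a) (M : ι → ℕ) (c : ι → ℤ) (X : ℝ)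
    (hX : ∑ q ∈ (Finset.univ.biUnion fun j => (M j).primeFactors) \ Finset.univ.image a,
      |((∑ j, c j * ((M j).factorization q : ℤ) : ℤ) : ℝ)| * log q ≤ X) :
    ∃ (A B : ℕ), 1 ≤ A ∧ 1 ≤ B ∧ Nat.Coprime A B ∧ (∀ s, Nat.Coprime A (a s)) ∧
      (∀ s, Nat.Coprime B (a s)) ∧
      ∑ i, (c i : ℝ) * log (M i) = log A - log B +
        ∑ s, ((∑ j, c j * ((M j).factorization (a s) : ℤ) : ℤ) : ℝ) * log (a s) ∧
      log A ≤ X ∧ log B ≤ X := by
  classical
  set U : Finset ℕ := Finset.univ.biUnion fun j => (M j).primeFactors with hU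
  set S : Finset ℕ := U \ Finset.univ.image a with hS
  set G : ℕ → ℤ := fun q => ∑ j, c j * ((M j).factorization q : ℤ) with hG
  have hSprime : ∀ q ∈ S, q.Prime := by
    intro q hq
    rw [hS, Finset.mem_sdiff, hU, Finset.mem_biUnion] at hq
    obtain ⟨⟨j, _, hj⟩, _⟩ := hq
    exact Nat.prime_of_mem_primeFactors hj
  have hSp : ∀ q ∈ S, ∀ i, q ≠ a i := by
    intro q hq i h
    rw [hS, Finset.mem_sdiff] at hq
    exact hq.2 (Finset.mem_image.2 ⟨i, Finset.mem_univ _, h.symm⟩)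
  set A : ℕ := ∏ q ∈ S, q ^ (G q).toNat with hA
  set B : ℕ := ∏ q ∈ S, q ^ (-G q).toNat with hB
  have hlogpos : ∀ q ∈ S, 0 ≤ log (q : ℝ) := fun q hq =>
    Real.log_nonneg (by exact_mod_cast (hSprime q hq).one_lt.le)
  have hlogA : log (A : ℝ) = ∑ q ∈ S, ((G q).toNat : ℝ) * log q := by
    rw [hA]
    push_cast
    rw [Real.log_prod fun q hq => pow_ne_zero _ (by exact_mod_cast (hSprime q hq).ne_zero)]
    exact Finset.sum_congr rfl fun q _ => Real.log_pow _ _
  have hlogB : log (B : ℝ) = ∑ q ∈ S, ((-G q).toNat : ℝ) * log q := by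
    rw [hB]
    push_cast
    rw [Real.log_prod fun q hq => pow_ne_zero _ (by exact_mod_cast (hSprime q hq).ne_zero)]
    exact Finset.sum_congr rfl fun q _ => Real.log_pow _ _
  have hdisj : Disjoint S (Finset.univ.image a) := Finset.sdiff_disjoint
  have hlogW : ∀ j, log (M j : ℝ) = ∑ q ∈ S, ((M j).factorization q : ℝ) * log q +
      ∑ i, ((M j).factorization (a i) : ℝ) * log (a i) := by
    intro j
    have h1 : ∑ i, ((M j).factorization (a i) : ℝ) * log (a i) =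
        ∑ q ∈ Finset.univ.image a, ((M j).factorization q : ℝ) * log q := by
      rw [Finset.sum_image fun x _ y _ h => hinj h]
    rw [h1, ← Finset.sum_union hdisj, Real.log_nat_eq_sum_factorization, Finsupp.sum]
    refine Finset.sum_subset ?_ ?_
    · intro q hq
      rw [Nat.support_factorization] at hq
      by_cases h : q ∈ Finset.univ.image a
      · exact Finset.mem_union_right _ h
      · refine Finset.mem_union_left _ (Finset.mem_sdiff.2 ⟨?_, h⟩)
        exact Finset.mem_biUnion.2 ⟨j, Finset.mem_univ _, hq⟩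
    · intro q _ hq
      rw [Finsupp.notMem_support_iff] at hq
      rw [hq]
      simp
  have htoNat : ∀ z : ℤ, ((z.toNat : ℕ) : ℝ) ≤ |(z : ℝ)| := by
    intro z
    have h1 : ((z.toNat : ℕ) : ℤ) ≤ |z| := by
      rcases le_total 0 z with hz | hz
      · rw [Int.toNat_of_nonneg hz]
        exact le_abs_self z
      · rw [Int.toNat_of_nonpos hz]
        exact abs_nonneg z
    exact_mod_cast h1
  have habs : ∑ q ∈ S, |(G q : ℝ)| * log q ≤ X := hX
  refine ⟨A, B, ?_, ?_, ?_, ?_, ?_, ?_, ?_, ?_⟩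
  · exact Nat.pos_of_ne_zero (Finset.prod_ne_zero_iff.2 fun q hq =>
      pow_ne_zero _ (hSprime q hq).ne_zero)
  · exact Nat.pos_of_ne_zero (Finset.prod_ne_zero_iff.2 fun q hq =>
      pow_ne_zero _ (hSprime q hq).ne_zero)
  · refine Nat.Coprime.prod_left fun q hq => Nat.Coprime.prod_right fun q' hq' => ?_
    by_cases h : q = q'
    · subst h
      rcases le_total 0 (G q) with h1 | h1
      · have : (-G q).toNat = 0 := Int.toNat_of_nonpos (by linarith)
        rw [this, pow_zero]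
        exact Nat.coprime_one_right _
      · have : (G q).toNat = 0 := Int.toNat_of_nonpos h1
        rw [this, pow_zero]
        exact Nat.coprime_one_left _
    · exact Nat.Coprime.pow _ _ ((Nat.coprime_primes (hSprime q hq) (hSprime q' hq')).2 h)
  · intro i
    refine Nat.Coprime.prod_left fun q hq => Nat.Coprime.pow_left _ ?_
    exact (Nat.coprime_primes (hSprime q hq) (ha i)).2 (hSp q hq i)
  · intro i
    refine Nat.Coprime.prod_left fun q hq => Nat.Coprime.pow_left _ ?_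
    exact (Nat.coprime_primes (hSprime q hq) (ha i)).2 (hSp q hq i)
  · have h1 : ∑ i, (c i : ℝ) * log (M i) = ∑ q ∈ S, (G q : ℝ) * log q +
        ∑ i, (G (a i) : ℝ) * log (a i) := by
      have h2 : ∀ j ∈ (Finset.univ : Finset ι), (c j : ℝ) * log (M j) =
          ∑ q ∈ S, (c j : ℝ) * ((M j).factorization q : ℝ) * log q +
          ∑ i, (c j : ℝ) * ((M j).factorization (a i) : ℝ) * log (a i) := by
        intro j _
        rw [hlogW j, mul_add, Finset.mul_sum, Finset.mul_sum]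
        congr 1
        · exact Finset.sum_congr rfl fun q _ => by ring
        · exact Finset.sum_congr rfl fun q _ => by ring
      rw [Finset.sum_congr rfl h2, Finset.sum_add_distrib]
      congr 1
      · rw [Finset.sum_comm]
        refine Finset.sum_congr rfl fun q _ => ?_
        rw [hG, ← Finset.sum_mul]
        push_cast
        rfl
      · rw [Finset.sum_comm]
        refine Finset.sum_congr rfl fun q _ => ?_
        rw [hG, ← Finset.sum_mul]
        push_cast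
        rfl
    rw [h1, hlogA, hlogB, ← Finset.sum_sub_distrib]
    congr 1
    refine Finset.sum_congr rfl fun q _ => ?_
    rw [← sub_mul]
    congr 1
    have h3 : ((G q).toNat : ℤ) - ((-G q).toNat : ℤ) = G q := Int.toNat_sub_toNat_neg (G q)
    exact_mod_cast h3.symm
  · rw [hlogA]
    refine le_trans (Finset.sum_le_sum fun q hq => ?_) habs
    exact mul_le_mul_of_nonneg_right (htoNat _) (hlogpos q hq)
  · rw [hlogB]
    refine le_trans (Finset.sum_le_sum fun q hq => ?_) habs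
    have h1 := htoNat (-G q)
    push_cast at h1
    rw [abs_neg] at h1
    exact mul_le_mul_of_nonneg_right h1 (hlogpos q hq)

end Pool.Agent.Lib.MP_f02ea4_nt.AE
end
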