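import Mathlib
import Pool.Agent.Lib.MP_f02ea4_nt.SigmaBasics
import Pool.Agent.Lib.MP_f02ea4_nt.Mg.G018

section

/-! Many large primes, part E: the `y`-smooth part of `p^n - 1`, primitive prime divisors, number of small divisors of
`n` when `N` has few primes above `y`. -/

set_option autoImplicit false

namespace Pool.Agent.Lib.MP_f02ea4_nt.Ml

open Finset Real Sm

/-- the primes of `N` above `y` -/
abbrev Lg (N y : ℕ) : Finset ℕ := N.primeFactors.filter (y < ·)

-- BEGIN E1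
/-- E1. `r` odd prime, `r ∤ p`, `r ∣ p^n - 1`, `o` the order of `p` modulo `r`: `o ∣ n`, `o ∣ r - 1`, and LTE for
`(p^o)^(n/o) - 1`: `v_r(p^n - 1) = v_r(p^o - 1) + v_r(n/o)` (model `Sm.val_odd`). -/
lemma val_order (p n r : ℕ) (hp : 2 ≤ p) (hn : 1 ≤ n) (hr : r.Prime) (hr2 : r ≠ 2)
    (hrp : ¬ r ∣ p) (hd : r ∣ p ^ n - 1) :
    orderOf (p : ZMod r) ∣ n ∧ 1 ≤ orderOf (p : ZMod r) ∧ orderOf (p : ZMod r) < r ∧
      (p ^ n - 1).factorization r ≤
        (p ^ (orderOf (p : ZMod r)) - 1).factorization r + n.factorization r := by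
  have := Fact.mk hr
  have hr3 : 3 ≤ r := by have := hr.two_le; omega
  have hodd : Odd r := hr.odd_of_ne_two hr2
  have hp0 : (p : ZMod r) ≠ 0 := by
    rw [Ne, ZMod.natCast_eq_zero_iff]
    exact hrp
  have key : ∀ k : ℕ, r ∣ p ^ k - 1 ↔ (p : ZMod r) ^ k = 1 := by
    intro k
    have h1 : 1 ≤ p ^ k := Nat.one_le_pow _ _ (by omega)
    rw [← ZMod.natCast_eq_zero_iff, Nat.cast_sub h1, sub_eq_zero, Nat.cast_pow, Nat.cast_one]
  have h1 : orderOf (p : ZMod r) ∣ n := orderOf_dvd_of_pow_eq_one ((key n).1 hd)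
  have h2 : orderOf (p : ZMod r) ∣ r - 1 := ZMod.orderOf_dvd_card_sub_one hp0
  have ho1 : 1 ≤ orderOf (p : ZMod r) := Nat.pos_of_dvd_of_pos h2 (by omega)
  have ho2 : orderOf (p : ZMod r) ≤ r - 1 := Nat.le_of_dvd (by omega) h2
  refine ⟨h1, ho1, by omega, ?_⟩
  have hdvd : r ∣ p ^ orderOf (p : ZMod r) - 1 := (key _).2 (pow_orderOf_eq_one _)
  obtain ⟨m, hm⟩ := h1
  generalize orderOf (p : ZMod r) = o at *
  have hm0 : m ≠ 0 := by
    rintro rfl
    omega
  have hnd : ¬ r ∣ p ^ o := fun h => hrp (hr.dvd_of_dvd_pow h)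
  have h3 := padicValNat.pow_sub_pow (p := r) hodd (x := p ^ o) (y := 1)
    (Nat.one_lt_pow (by omega) (by omega)) hdvd hnd (n := m) hm0
  rw [one_pow, ← pow_mul, ← hm] at h3
  have h4 : n.factorization r = o.factorization r + m.factorization r := by
    rw [hm, Nat.factorization_mul (by omega) hm0, Finsupp.add_apply]
  rw [h4]
  rw [Nat.factorization_def _ hr, Nat.factorization_def _ hr, Nat.factorization_def m hr, h3]
  omega
-- END E1

-- BEGIN E2
private lemma e2_sum_le (n : ℕ) (S : Finset ℕ) :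
    ∑ r ∈ S, (n.factorization r : ℝ) * log r ≤ log n := by
  rw [Real.log_nat_eq_sum_factorization, Finsupp.sum]
  have h1 : ∑ r ∈ S, (n.factorization r : ℝ) * log r =
      ∑ r ∈ S.filter (· ∈ n.factorization.support), (n.factorization r : ℝ) * log r := by
    rw [Finset.sum_filter]
    refine Finset.sum_congr rfl fun r _ => ?_
    split_ifs with h
    · rfl
    · rw [Finsupp.notMem_support_iff.1 h]; simp
  rw [h1]
  refine Finset.sum_le_sum_of_subset_of_nonneg ?_ ?_
  · intro r hr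
    exact (Finset.mem_filter.1 hr).2
  · intro r _ _
    exact mul_nonneg (Nat.cast_nonneg _) (Real.log_natCast_nonneg r)

private lemma e2_single (n r : ℕ) : (n.factorization r : ℝ) * log r ≤ log n := by
  have h := e2_sum_le n {r}
  rwa [Finset.sum_singleton] at h

/-- E2. the `y`-smooth part of `p^n - 1`.  `r = 2`: `Sm.val_two`, `v_2(p^2-1) log 2 ≤ 2 log p`.  `r = p`: zero.
`r` odd, `r ∣ p^n - 1`: E1, `o_r < r ≤ y`; group the `r` by `d = o_r ∈ n.divisors.filter (· ≤ y)`:
`∑_{r : o_r = d} v_r(p^d - 1) log r ≤ log (p^d - 1) ≤ d log p ≤ y log p`.  `∑ v_r(n) log r ≤ log n`.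
(model `Sm.smooth_part_le`; its private lemma `c3_sum_le` may be copied) -/
lemma smooth_part_le' (p n y : ℕ) (hp : p.Prime) (hp2 : p ≠ 2) (hn : 1 ≤ n) (hy : 2 ≤ y) :
    ∑ r ∈ (range (y + 1)).filter Nat.Prime, ((p ^ n - 1).factorization r : ℝ) * log r ≤
      ((y : ℝ) * ((n.divisors.filter (· ≤ y)).card : ℝ) + 2) * log p + log n := by
  classical
  have hp3 : 3 ≤ p := by have := hp.two_le; omega
  have hlp : 0 ≤ log (p : ℝ) := Real.log_natCast_nonneg p
  have hpow : ∀ k : ℕ, log ((p ^ k - 1 : ℕ) : ℝ) ≤ k * log p := by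
    intro k
    rcases Nat.eq_zero_or_pos (p ^ k - 1) with h | h
    · rw [h, Nat.cast_zero, Real.log_zero]
      positivity
    · rw [← Real.log_pow]
      refine Real.log_le_log (by exact_mod_cast h) ?_
      have : ((p ^ k - 1 : ℕ) : ℝ) ≤ ((p ^ k : ℕ) : ℝ) := by
        exact_mod_cast Nat.sub_le _ _
      rwa [Nat.cast_pow] at this
  -- the sets
  set D : Finset ℕ := n.divisors.filter (· ≤ y) with hD
  set P : Finset ℕ := (range (y + 1)).filter Nat.Prime with hP
  -- the valuations at the primes of order `d`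
  have key : ∀ r ∈ P, ((p ^ n - 1).factorization r : ℝ) * log r ≤
      (∑ d ∈ D, if orderOf (p : ZMod r) = d then ((p ^ d - 1).factorization r : ℝ) * log r else 0) +
        (if r = 2 then 2 * log p else 0) + (n.factorization r : ℝ) * log r := by
    intro r hr
    have hrp := (Finset.mem_filter.1 hr).2
    have hry : r ≤ y := by
      have := Finset.mem_range.1 (Finset.mem_filter.1 hr).1
      omega
    have hlr : 0 ≤ log (r : ℝ) := Real.log_natCast_nonneg r
    have hnn : 0 ≤ (n.factorization r : ℝ) * log r := mul_nonneg (Nat.cast_nonneg _) hlr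
    have hs : 0 ≤ ∑ d ∈ D, (if orderOf (p : ZMod r) = d then
        ((p ^ d - 1).factorization r : ℝ) * log r else 0) := by
      refine Finset.sum_nonneg fun d _ => ?_
      split_ifs
      · exact mul_nonneg (Nat.cast_nonneg _) hlr
      · exact le_rfl
    by_cases hr2 : r = 2
    · subst hr2
      rw [if_pos rfl]
      have hodd : Odd p := hp.odd_of_ne_two hp2
      have h1 := val_two p n hodd hp3 hn
      have h1' : ((p ^ n - 1).factorization 2 : ℝ) ≤
          ((p ^ 2 - 1).factorization 2 : ℝ) + (n.factorization 2 : ℝ) := by exact_mod_cast h1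
      have h2 := (e2_single (p ^ 2 - 1) 2).trans (hpow 2)
      have h3 := mul_le_mul_of_nonneg_right h1' hlr
      push_cast at h2 h3 hs ⊢
      rw [add_mul] at h3
      linarith
    · rw [if_neg hr2, add_zero]
      by_cases hrep : r ∣ p ^ n - 1
      · have hnd : ¬ r ∣ p := by
          intro h
          have h2 : r ∣ p ^ n := h.trans (dvd_pow_self p (by omega))
          have h3 : r ∣ p ^ n - (p ^ n - 1) := Nat.dvd_sub h2 hrep
          have h4 : p ^ n - (p ^ n - 1) = 1 := by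
            have := Nat.one_le_pow n p (by omega)
            omega
          rw [h4] at h3
          exact hrp.one_lt.ne' (Nat.dvd_one.1 h3)
        obtain ⟨h1, h2, h3, h4⟩ := val_order p n r (by omega) hn hrp hr2 hnd hrep
        have hmem : orderOf (p : ZMod r) ∈ D := by
          rw [hD, Finset.mem_filter, Nat.mem_divisors]
          exact ⟨⟨h1, by omega⟩, by omega⟩
        rw [Finset.sum_ite_eq, if_pos hmem]
        have h4' : ((p ^ n - 1).factorization r : ℝ) ≤
            ((p ^ orderOf (p : ZMod r) - 1).factorization r : ℝ) + (n.factorization r : ℝ) := by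
          exact_mod_cast h4
        have h5 := mul_le_mul_of_nonneg_right h4' hlr
        linarith
      · rw [Nat.factorization_eq_zero_of_not_dvd hrep, Nat.cast_zero, zero_mul]
        linarith
  refine (Finset.sum_le_sum key).trans ?_
  rw [Finset.sum_add_distrib, Finset.sum_add_distrib, Finset.sum_comm]
  -- the three sums
  have h1 : ∑ d ∈ D, ∑ r ∈ P, (if orderOf (p : ZMod r) = d then
      ((p ^ d - 1).factorization r : ℝ) * log r else 0) ≤ (D.card : ℝ) * (y * log p) := by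
    rw [← nsmul_eq_mul]
    refine Finset.sum_le_card_nsmul _ _ _ fun d hd => ?_
    rw [← Finset.sum_filter]
    refine (e2_sum_le (p ^ d - 1) _).trans ((hpow d).trans ?_)
    refine mul_le_mul_of_nonneg_right ?_ hlp
    exact_mod_cast (Finset.mem_filter.1 hd).2
  have h2 : ∑ r ∈ P, (if r = 2 then 2 * log (p : ℝ) else 0) ≤ 2 * log p := by
    rw [Finset.sum_ite_eq']
    split_ifs
    · exact le_rfl
    · positivity
  have h3 := e2_sum_le n P
  have e : ((y : ℝ) * (D.card : ℝ) + 2) * log p = (D.card : ℝ) * (y * log p) + 2 * log p := by ring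
  rw [e]
  linarith
-- END E2

-- BEGIN E3
/-- E3. Euler: `m ∣ 2^φ(m) - 1`, and `2^φ(m) - 1 > 0`. -/
lemma odd_lt_two_pow_totient (m : ℕ) (hm : Odd m) : m < 2 ^ m.totient := by
  have hm0 : 0 < m := hm.pos
  have hcop : Nat.Coprime 2 m := by
    rw [Nat.coprime_two_left]
    exact hm
  have h1 : m ∣ 2 ^ m.totient - 1 :=
    (Nat.modEq_iff_dvd' Nat.one_le_two_pow).1 (Nat.ModEq.pow_totient hcop).symm
  have hphi : 0 < m.totient := Nat.totient_pos.2 hm0
  have h2 : 1 < 2 ^ m.totient := Nat.one_lt_two_pow hphi.ne'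
  have h3 : m ≤ 2 ^ m.totient - 1 := Nat.le_of_dvd (by omega) h1
  omega

/-- E3. `Polynomial.sub_one_pow_totient_lt_cyclotomic_eval` (`p - 1 ≥ 2`). -/
lemma cyc_gt (p d : ℕ) (hp : 3 ≤ p) (hd : 2 ≤ d) :
    (2 : ℤ) ^ d.totient < (Polynomial.cyclotomic d ℤ).eval (p : ℤ) := by
  have hp' : (3 : ℝ) ≤ p := by exact_mod_cast hp
  have h1 := Polynomial.sub_one_pow_totient_lt_cyclotomic_eval (n := d) (q := (p : ℝ)) hd
    (by linarith)
  have h2 : (2 : ℝ) ^ d.totient ≤ ((p : ℝ) - 1) ^ d.totient :=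
    pow_le_pow_left₀ (by norm_num) (by linarith) _
  have h3 : (Polynomial.cyclotomic d ℝ).eval (p : ℝ) =
      (((Polynomial.cyclotomic d ℤ).eval (p : ℤ) : ℤ) : ℝ) := by
    rw [← Polynomial.map_cyclotomic_int d ℝ, Polynomial.eval_map, Polynomial.eval₂_at_natCast]
    simp
  rw [h3] at h1
  have h4 : ((2 : ℤ) ^ d.totient : ℝ) < (((Polynomial.cyclotomic d ℤ).eval (p : ℤ) : ℤ) : ℝ) := by
    push_cast
    exact lt_of_le_of_lt h2 h1
  exact_mod_cast h4
-- END E3

-- BEGIN E4
/-- E4. `r` odd prime dividing `d` and `Φ_d(p)`: `v_r ≤ 1`.  `(X^(d/r) - 1) Φ_d ∣ X^d - 1`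
(`Polynomial.X_pow_sub_one_mul_cyclotomic_dvd_X_pow_sub_one_of_dvd`), and `r ∣ p^(d/r) - 1` (the order of `p` modulo `r`
divides `d` and `r - 1`, so it is prime to `r` and divides `d/r`), LTE: `v_r(p^d - 1) = v_r(p^(d/r) - 1) + 1`. -/
lemma cyc_odd_val (p d r : ℕ) (hp : 3 ≤ p) (hd : 2 ≤ d) (hr : r.Prime) (hr2 : r ≠ 2)
    (hrd : r ∣ d) : ¬ ((r : ℤ) ^ 2 ∣ (Polynomial.cyclotomic d ℤ).eval (p : ℤ)) := by
  intro h
  obtain ⟨k, rfl⟩ := hrd
  have := Fact.mk hr
  have hk : 0 < k := Nat.pos_of_ne_zero (by rintro rfl; omega)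
  have hodd : Odd r := hr.odd_of_ne_two hr2
  have hpd : k ∈ (r * k).properDivisors := by
    rw [Nat.mem_properDivisors]
    refine ⟨dvd_mul_left _ _, ?_⟩
    have := hr.two_le
    nlinarith
  have hdvd := Polynomial.X_pow_sub_one_mul_cyclotomic_dvd_X_pow_sub_one_of_dvd ℤ hpd
  have hev : ((p : ℤ) ^ k - 1) * (Polynomial.cyclotomic (r * k) ℤ).eval (p : ℤ) ∣
      (p : ℤ) ^ (r * k) - 1 := by
    obtain ⟨q, hq⟩ := hdvd
    refine ⟨q.eval (p : ℤ), ?_⟩
    have := congrArg (Polynomial.eval (p : ℤ)) hq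
    simpa using this
  have hr1 : (r : ℤ) ∣ (p : ℤ) ^ (r * k) - 1 :=
    ((dvd_pow_self (r : ℤ) two_ne_zero).trans h).trans ((dvd_mul_left _ _).trans hev)
  have hz : ((p : ZMod r)) ^ (r * k) = 1 := by
    have h1 := (ZMod.intCast_zmod_eq_zero_iff_dvd ((p : ℤ) ^ (r * k) - 1) r).2 hr1
    push_cast at h1
    exact sub_eq_zero.1 h1
  have hzk : ((p : ZMod r)) ^ k = 1 := by
    rw [mul_comm, pow_mul, ZMod.pow_card] at hz
    exact hz
  have hrk : (r : ℤ) ∣ (p : ℤ) ^ k - 1 := by
    rw [← ZMod.intCast_zmod_eq_zero_iff_dvd]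
    push_cast
    rw [hzk, sub_self]
  have hrp : ¬ (r : ℤ) ∣ (p : ℤ) ^ k := by
    intro hdp
    have h1 : (r : ℤ) ∣ 1 := by
      have := dvd_sub hdp hrk
      simpa using this
    have := Int.eq_one_of_dvd_one (by positivity) h1
    have h2 := hr.two_le
    omega
  have hlte := Int.emultiplicity_pow_sub_pow hr hodd (x := (p : ℤ) ^ k) (y := 1) hrk hrp r
  rw [one_pow, ← pow_mul, mul_comm k r] at hlte
  have hrr : emultiplicity r r = 1 := by
    have := (Nat.finiteMultiplicity_iff.2 ⟨hr.ne_one, hr.pos⟩ : FiniteMultiplicity r r)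
    exact_mod_cast this.emultiplicity_self
  rw [hrr] at hlte
  have ha : (p : ℤ) ^ k - 1 ≠ 0 := by
    have h1 : (1 : ℤ) < (p : ℤ) ^ k := one_lt_pow₀ (by exact_mod_cast (by omega : 1 < p)) hk.ne'
    omega
  have hfin : FiniteMultiplicity (r : ℤ) ((p : ℤ) ^ k - 1) :=
    Int.finiteMultiplicity_iff.2 ⟨by simpa using hr.ne_one, ha⟩
  have hm : (r : ℤ) ^ (multiplicity (r : ℤ) ((p : ℤ) ^ k - 1) + 2) ∣ (p : ℤ) ^ (r * k) - 1 := by
    rw [pow_add]
    exact (mul_dvd_mul (pow_multiplicity_dvd _ _) h).trans hev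
  have h3 := le_emultiplicity_of_pow_dvd hm
  rw [hlte, hfin.emultiplicity_eq_multiplicity] at h3
  have h4 : multiplicity (r : ℤ) ((p : ℤ) ^ k - 1) + 2 ≤
      multiplicity (r : ℤ) ((p : ℤ) ^ k - 1) + 1 := by exact_mod_cast h3
  omega
-- END E4

-- BEGIN E5
/-- E5. `p` odd, `d` not a power of `2`, `d` even: `Φ_d(p) ≡ Φ_d(1) (mod 2)` and `Φ_d(1)` is odd: `1` if `d` is not a
prime power (`Polynomial.eval_one_cyclotomic_not_prime_pow`), `q` odd if `d` is a power of the odd prime `q`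
(`Polynomial.eval_one_cyclotomic_prime_pow`). -/
lemma cyc_odd (p d : ℕ) (hp : Odd p) (hd : 2 ≤ d) (h2 : ∀ k, d ≠ 2 ^ k) :
    ¬ (2 ∣ (Polynomial.cyclotomic d ℤ).eval (p : ℤ)) := by
  intro hdiv
  have h1 : (2 : ℤ) ∣ (p : ℤ) - 1 := by
    obtain ⟨k, hk⟩ := hp
    exact ⟨k, by push_cast [hk]; ring⟩
  have h3 := h1.trans (Polynomial.sub_dvd_eval_sub (p : ℤ) 1 (Polynomial.cyclotomic d ℤ))
  have h4 : (2 : ℤ) ∣ (Polynomial.cyclotomic d ℤ).eval 1 := by
    have h5 := dvd_sub hdiv h3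
    rwa [sub_sub_cancel] at h5
  by_cases hq : ∃ q k : ℕ, q.Prime ∧ q ^ k = d
  · obtain ⟨q, k, hqp, hqk⟩ := hq
    have hk : k ≠ 0 := by
      rintro rfl
      rw [pow_zero] at hqk
      omega
    obtain ⟨k', rfl⟩ := Nat.exists_eq_succ_of_ne_zero hk
    have : Fact q.Prime := ⟨hqp⟩
    rw [← hqk, Nat.succ_eq_add_one, Polynomial.eval_one_cyclotomic_prime_pow] at h4
    have h5 : 2 ∣ q := by exact_mod_cast h4
    have h6 : q = 2 := ((Nat.prime_dvd_prime_iff_eq Nat.prime_two hqp).1 h5).symm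
    exact h2 (k' + 1) (by rw [← hqk, h6])
  · have h5 : (Polynomial.cyclotomic d ℤ).eval 1 = 1 := by
      apply Polynomial.eval_one_cyclotomic_not_prime_pow
      intro q hqp k hk
      exact hq ⟨q, k, hqp, hk⟩
    rw [h5] at h4
    norm_num at h4

/-- E5. `Φ_(2^(k+1)) = X^(2^k) + 1` (`Polynomial.cyclotomic_prime_pow_eq_geom_sum`), `k ≥ 1`, `p` odd: `≡ 2 (mod 4)`. -/
lemma cyc_two_pow (p k : ℕ) (hp : Odd p) (hk : 1 ≤ k) :
    ¬ (4 ∣ (Polynomial.cyclotomic (2 ^ (k + 1)) ℤ).eval (p : ℤ)) := by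
  intro hdiv
  rw [Polynomial.cyclotomic_prime_pow_eq_geom_sum Nat.prime_two] at hdiv
  have e : (∑ i ∈ range 2, ((Polynomial.X : Polynomial ℤ) ^ 2 ^ k) ^ i).eval (p : ℤ) =
      1 + (p : ℤ) ^ 2 ^ k := by
    rw [Finset.sum_range_succ, Finset.sum_range_one]
    simp
  rw [e] at hdiv
  obtain ⟨k', rfl⟩ : ∃ k', k = k' + 1 := ⟨k - 1, by omega⟩
  have h1 : (p : ℤ) ^ 2 ^ (k' + 1) = ((p : ℤ) ^ 2 ^ k') ^ 2 := by
    rw [← pow_mul, pow_succ]
  have h2 : Odd ((p : ℤ) ^ 2 ^ k') := by
    apply Odd.pow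
    exact_mod_cast hp
  rw [h1] at hdiv
  obtain ⟨c, hc⟩ := h2
  rw [hc] at hdiv
  obtain ⟨e', he'⟩ := hdiv
  have : 2 * (2 * e' - 2 * (c * c + c)) = 2 * 1 := by linarith [he', show (1 + (2 * c + 1) ^ 2 : ℤ) = 4 * (c * c + c) + 2 by ring]
  omega
-- END E5

-- BEGIN E6
/-- E6. some prime divisor of `Φ_d(p)` does not divide `d` (`p ≥ 3` odd, `d ≥ 3`).  Otherwise: `d = 2^(k+1)`, `k ≥ 1`:
`Φ_d(p)` is a power of `2` not divisible by `4`, so `≤ 2 < 2^φ(d)` (E3).  Else `Φ_d(p)` is odd (E5) and squarefree (E4)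
with all primes dividing the odd part `m` of `d`, so `Φ_d(p) ∣ m`, `Φ_d(p) ≤ m < 2^φ(m) ≤ 2^φ(d) < Φ_d(p)`. -/
lemma exists_prime_not_dvd (p d : ℕ) (hp : 3 ≤ p) (hpo : Odd p) (hd : 3 ≤ d) :
    ∃ r : ℕ, r.Prime ∧ (r : ℤ) ∣ (Polynomial.cyclotomic d ℤ).eval (p : ℤ) ∧ ¬ r ∣ d := by
  set Φ : ℤ := (Polynomial.cyclotomic d ℤ).eval (p : ℤ) with hΦ
  have hgt : (2 : ℤ) ^ d.totient < Φ := cyc_gt p d hp (by omega)
  have hΦ0 : 0 < Φ := lt_trans (by positivity) hgt
  obtain ⟨F, hF⟩ := Int.eq_ofNat_of_zero_le hΦ0.le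
  have hgtN : 2 ^ d.totient < F := by
    rw [hF] at hgt
    exact_mod_cast hgt
  have hd0 : d ≠ 0 := by omega
  have htot : 1 ≤ d.totient := Nat.totient_pos.2 (by omega)
  have hF0 : F ≠ 0 := by
    intro h0
    rw [h0] at hgtN
    omega
  by_contra hcon
  push Not at hcon
  have hall : ∀ r : ℕ, r.Prime → r ∣ F → r ∣ d := by
    intro r hr hrF
    refine hcon r hr ?_
    rw [hF]
    exact_mod_cast hrF
  by_cases h2 : ∃ k, d = 2 ^ k
  · obtain ⟨k, hk⟩ := h2
    have hk2 : 2 ≤ k := by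
      by_contra hlt
      have : k = 0 ∨ k = 1 := by omega
      rcases this with rfl | rfl <;> omega
    obtain ⟨j, rfl⟩ : ∃ j, k = j + 1 := ⟨k - 1, by omega⟩
    have h4 : ¬ (4 ∣ F) := by
      intro h4
      refine cyc_two_pow p j hpo (by omega) ?_
      rw [← hk, ← hΦ, hF]
      exact_mod_cast h4
    have hpow : ∀ r : ℕ, r.Prime → r ∣ F → r = 2 := by
      intro r hr hrF
      have h5 := hall r hr hrF
      rw [hk] at h5
      exact (Nat.prime_dvd_prime_iff_eq hr Nat.prime_two).1 (hr.dvd_of_dvd_pow h5)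
    obtain ⟨a, ha⟩ : ∃ a, F = 2 ^ a :=
      ⟨F.primeFactorsList.length, Nat.eq_prime_pow_of_unique_prime_dvd hF0 fun {r} hr hrF =>
        hpow r hr hrF⟩
    have ha1 : a ≤ 1 := by
      by_contra hlt
      refine h4 ?_
      rw [ha]
      exact pow_dvd_pow 2 (show 2 ≤ a by omega)
    have h6 : 2 ^ a ≤ 2 ^ d.totient := Nat.pow_le_pow_right (by norm_num) (ha1.trans htot)
    rw [ha] at hgtN
    omega
  · push Not at h2
    have hodd : ¬ 2 ∣ F := by
      intro h3
      refine cyc_odd p d hpo (by omega) h2 ?_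
      rw [← hΦ, hF]
      exact_mod_cast h3
    have hsq : Squarefree F := by
      rw [Nat.squarefree_iff_prime_squarefree]
      intro r hr hrr
      have hrF : r ∣ F := (Dvd.intro _ rfl).trans hrr
      have hr2 : r ≠ 2 := by
        rintro rfl
        exact hodd hrF
      refine cyc_odd_val p d r hp (by omega) hr hr2 (hall r hr hrF) ?_
      rw [← hΦ, hF, pow_two]
      exact_mod_cast hrr
    obtain ⟨a, m, hm, hdm⟩ := Nat.exists_eq_two_pow_mul_odd hd0
    have hm0 : m ≠ 0 := by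
      rintro rfl
      simp at hm
    have hsub : F.primeFactors ⊆ m.primeFactors := by
      intro r hr
      rw [Nat.mem_primeFactors] at hr ⊢
      refine ⟨hr.1, ?_, hm0⟩
      have h5 := hall r hr.1 hr.2.1
      rw [hdm] at h5
      rcases (Nat.Prime.dvd_mul hr.1).1 h5 with h6 | h6
      · have h7 := (Nat.prime_dvd_prime_iff_eq hr.1 Nat.prime_two).1 (hr.1.dvd_of_dvd_pow h6)
        exact absurd (h7 ▸ hr.2.1) hodd
      · exact h6
    have hFm : F ∣ m := by
      rw [← Nat.prod_primeFactors_of_squarefree hsq]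
      exact (Finset.prod_dvd_prod_of_subset _ _ _ hsub).trans (Nat.prod_primeFactors_dvd m)
    have h5 : F ≤ m := Nat.le_of_dvd (Nat.pos_of_ne_zero hm0) hFm
    have h6 := odd_lt_two_pow_totient m hm
    have h7 : m.totient ≤ d.totient := by
      refine Nat.le_of_dvd htot (Nat.totient_dvd_of_dvd ?_)
      rw [hdm]
      exact Dvd.intro_left _ rfl
    have h8 : 2 ^ m.totient ≤ 2 ^ d.totient := Nat.pow_le_pow_right (by norm_num) h7
    omega
-- END E6

-- BEGIN E7
/-- E7. ZSIGMONDY for odd `p`, `d ≥ 3`: `Polynomial.isRoot_cyclotomic_iff` in `ZMod r`, `r ∤ d`. -/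
theorem primitive (p d : ℕ) (hp : 3 ≤ p) (hpo : Odd p) (hd : 3 ≤ d) :
    ∃ r : ℕ, r.Prime ∧ orderOf (p : ZMod r) = d := by
  obtain ⟨r, hr, hrdvd, hrd⟩ := exists_prime_not_dvd p d hp hpo hd
  refine ⟨r, hr, ?_⟩
  have : Fact r.Prime := ⟨hr⟩
  have : NeZero (d : ZMod r) := by
    constructor
    intro h
    exact hrd ((ZMod.natCast_eq_zero_iff d r).1 h)
  have h1 : Polynomial.IsRoot (Polynomial.cyclotomic d (ZMod r)) ((p : ℕ) : ZMod r) := by
    have h2 : (((Polynomial.cyclotomic d ℤ).eval (p : ℤ) : ℤ) : ZMod r) = 0 :=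
      (ZMod.intCast_zmod_eq_zero_iff_dvd _ r).2 hrdvd
    rw [Polynomial.IsRoot.def, ← Polynomial.map_cyclotomic_int d (ZMod r), Polynomial.eval_map,
      Polynomial.eval₂_at_natCast]
    simpa using h2
  have h3 := Polynomial.isRoot_cyclotomic_iff.1 h1
  exact h3.eq_orderOf.symm
-- END E7

-- BEGIN E8
/-- E8. for each divisor `d ≥ y` of `n_p` the primitive prime `r_d` (E7) divides `p^n - 1 = (p - 1) Sq`, does not divide
`p - 1` (its order is `d > 1`), is `≡ 1 (mod d)`, so `r_d > d ≥ y` and `r_d ∈ Lg N y` (`Sm.mem_of_dvd_Sq`); `d ↦ r_d` is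
injective. -/
lemma large_divisors (N y : ℕ) (hodd : Odd N) (hN : Nat.Perfect N) (hy : 3 ≤ y) (p : ℕ)
    (hp : p ∈ N.primeFactors) : ((nn N p).divisors.filter (y ≤ ·)).card ≤ (Lg N y).card := by
  classical
  have hpp : p.Prime := Nat.prime_of_mem_primeFactors hp
  have hpd : p ∣ N := Nat.dvd_of_mem_primeFactors hp
  have hpo : Odd p := hodd.of_dvd_nat hpd
  have hp3 : 3 ≤ p := by
    have h1 := hpp.two_le
    rcases hpo with ⟨k, hk⟩
    omega
  have hex : ∀ d : ℕ, 3 ≤ d → ∃ r : ℕ, r.Prime ∧ orderOf (p : ZMod r) = d := fun d hd =>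
    primitive p d hp3 hpo hd
  let f : ℕ → ℕ := fun d => if h : 3 ≤ d then (hex d h).choose else 0
  have hf : ∀ d, 3 ≤ d → (f d).Prime ∧ orderOf (p : ZMod (f d)) = d := by
    intro d hd
    have h1 : f d = (hex d hd).choose := dif_pos hd
    rw [h1]
    exact (hex d hd).choose_spec
  refine Finset.card_le_card_of_injOn f ?_ ?_
  · intro d hd
    rw [Finset.mem_coe, Finset.mem_filter, Nat.mem_divisors] at hd
    obtain ⟨⟨hdn, _⟩, hyd⟩ := hd
    have hd3 : 3 ≤ d := hy.trans hyd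
    obtain ⟨hr, hord⟩ := hf d hd3
    set r := f d with hrdef
    have : Fact r.Prime := ⟨hr⟩
    have hp0 : (p : ZMod r) ≠ 0 := by
      intro h0
      rw [h0, orderOf_zero] at hord
      omega
    have hdr : d ∣ r - 1 := by
      rw [← hord]
      exact ZMod.orderOf_dvd_card_sub_one hp0
    have hr1 : 0 < r - 1 := by
      have := hr.two_le
      omega
    have hrd : d ≤ r - 1 := Nat.le_of_dvd hr1 hdr
    have hpow : (p : ZMod r) ^ nn N p = 1 := by
      rw [← orderOf_dvd_iff_pow_eq_one, hord]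
      exact hdn
    have hsg : (p - 1) * Sq N p + 1 = p ^ nn N p := Sb.sg_pow hpp (N.factorization p)
    have hmul : (((p - 1) * Sq N p : ℕ) : ZMod r) = 0 := by
      have h1 : (((p - 1) * Sq N p + 1 : ℕ) : ZMod r) = 1 := by
        rw [hsg]
        push_cast
        exact hpow
      rw [Nat.cast_add, Nat.cast_one] at h1
      exact add_eq_right.1 h1
    rw [ZMod.natCast_eq_zero_iff] at hmul
    have hnot : ¬ r ∣ p - 1 := by
      intro h1
      have h2 : (p : ZMod r) = 1 := by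
        have h3 : ((p - 1 : ℕ) : ZMod r) = 0 := (ZMod.natCast_eq_zero_iff _ _).2 h1
        rw [Nat.cast_sub hpp.one_lt.le, Nat.cast_one] at h3
        exact sub_eq_zero.1 h3
      rw [h2, orderOf_one] at hord
      omega
    have hrS : r ∣ Sq N p := ((Nat.Prime.dvd_mul hr).1 hmul).resolve_left hnot
    rw [Finset.mem_coe, Finset.mem_filter]
    exact ⟨mem_of_dvd_Sq N hN p r hp hr (by omega) hrS, by omega⟩
  · intro d hd d' hd' heq
    rw [Finset.mem_coe, Finset.mem_filter] at hd hd'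
    have h1 := (hf d (hy.trans hd.2)).2
    have h2 := (hf d' (hy.trans hd'.2)).2
    rw [heq] at h1
    exact h1.symm.trans h2
-- END E8

-- BEGIN E9
/-- E9. `n ≥ y^2`: `d ↦ n/d` maps the divisors `≤ y` injectively into the divisors `≥ y`, E8.  `n < y^2`:
`Sm.tau_bound` with exponent `η/2`. -/
lemma small_divisors (η : ℝ) (hη : 0 < η) : ∃ C : ℝ, 1 ≤ C ∧ ∀ N y : ℕ, Odd N → Nat.Perfect N →
    3 ≤ y → ∀ p ∈ N.primeFactors,
    (((nn N p).divisors.filter (· ≤ y)).card : ℝ) ≤ (Lg N y).card + C * (y : ℝ) ^ η := by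
  obtain ⟨C, hC1, hC⟩ := tau_bound (η / 2) (by positivity)
  refine ⟨C, hC1, ?_⟩
  intro N y hodd hN hy p hp
  have hn1 : 1 ≤ nn N p := Nat.le_add_left 1 _
  have hy0 : (0 : ℝ) ≤ y := Nat.cast_nonneg y
  have hyη : 0 ≤ C * (y : ℝ) ^ η := by positivity
  have hL0 : (0 : ℝ) ≤ ((Lg N y).card : ℝ) := Nat.cast_nonneg _
  rcases le_or_gt (y ^ 2) (nn N p) with h | h
  · have h1 : ((nn N p).divisors.filter (· ≤ y)).card ≤
        ((nn N p).divisors.filter (y ≤ ·)).card := by
      apply Finset.card_le_card_of_injOn (fun d => nn N p / d)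
      · intro d hd
        rw [Finset.mem_coe, Finset.mem_filter, Nat.mem_divisors] at hd
        obtain ⟨⟨hd1, hd2⟩, hd3⟩ := hd
        have hdpos : 0 < d := Nat.pos_of_dvd_of_pos hd1 hn1
        show nn N p / d ∈ (↑((nn N p).divisors.filter (y ≤ ·)) : Set ℕ)
        rw [Finset.mem_coe, Finset.mem_filter, Nat.mem_divisors]
        refine ⟨⟨Nat.div_dvd_of_dvd hd1, hd2⟩, ?_⟩
        rw [Nat.le_div_iff_mul_le hdpos]
        calc y * d ≤ y * y := Nat.mul_le_mul_left y hd3
          _ = y ^ 2 := (sq y).symm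
          _ ≤ nn N p := h
      · intro d hd d' hd' hdd'
        rw [Finset.mem_coe, Finset.mem_filter, Nat.mem_divisors] at hd hd'
        have e1 := Nat.div_mul_cancel hd.1.1
        have e2 := Nat.div_mul_cancel hd'.1.1
        have hdd : nn N p / d = nn N p / d' := hdd'
        rw [hdd] at e1
        have hpos : 0 < nn N p / d' := by
          rcases Nat.eq_zero_or_pos (nn N p / d') with h0 | h0
          · rw [h0, zero_mul] at e2
            omega
          · exact h0
        exact Nat.eq_of_mul_eq_mul_left hpos (e1.trans e2.symm)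
    have h2 := large_divisors N y hodd hN hy p hp
    have h3 : (((nn N p).divisors.filter (· ≤ y)).card : ℝ) ≤ ((Lg N y).card : ℝ) := by
      exact_mod_cast h1.trans h2
    linarith
  · have h1 : (((nn N p).divisors.filter (· ≤ y)).card : ℝ) ≤ ((nn N p).divisors.card : ℝ) := by
      exact_mod_cast Finset.card_filter_le _ _
    have h2 := hC (nn N p) hn1
    have h3 : ((nn N p : ℕ) : ℝ) ^ (η / 2) ≤ (y : ℝ) ^ η := by
      have h4 : ((nn N p : ℕ) : ℝ) ≤ (y : ℝ) ^ (2 : ℕ) := by exact_mod_cast h.le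
      calc ((nn N p : ℕ) : ℝ) ^ (η / 2) ≤ ((y : ℝ) ^ (2 : ℕ)) ^ (η / 2) :=
            Real.rpow_le_rpow (Nat.cast_nonneg _) h4 (by positivity)
        _ = (y : ℝ) ^ η := by
            rw [← Real.rpow_natCast, ← Real.rpow_mul hy0]
            congr 1
            push_cast
            ring
    have h5 : C * ((nn N p : ℕ) : ℝ) ^ (η / 2) ≤ C * (y : ℝ) ^ η :=
      mul_le_mul_of_nonneg_left h3 (by linarith)
    linarith
-- END E9

-- BEGIN E10
/-- E10. the cofactor.  `M = p^n - 1`, `W = ∏_{r ∈ M.primeFactors \ Lg N y} r^(v_r M)` (model `Sm.cofactor`).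
Primes `r > y` of `M` do not divide `p - 1 < y`, so they divide `Sq N p` and lie in `Lg N y`; so
`log W ≤ ∑_{r ≤ y} v_r(M) log r`, E2, E9.  For `r ∈ Lg N y`: `v_r(M) = v_r(Sq N p) ≤ v_r(N) ≤ Nat.log 2 N`
(`Sm.sum_val`). -/
lemma cof (η : ℝ) (hη : 0 < η) : ∃ C : ℝ, 1 ≤ C ∧ ∀ N y : ℕ, Odd N → Nat.Perfect N →
    3 ≤ y → ∀ p ∈ N.primeFactors, p ≤ y → ∃ W : ℕ, 1 ≤ W ∧
      p ^ nn N p = 1 + W * ∏ r ∈ Lg N y, r ^ (p ^ nn N p - 1).factorization r ∧
      (∀ r ∈ Lg N y, (p ^ nn N p - 1).factorization r ≤ Nat.log 2 N) ∧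
      log W ≤ ((y : ℝ) * ((Lg N y).card + C * (y : ℝ) ^ η) + 2) * log y + log (nn N p) := by
  classical
  obtain ⟨C, hC1, hC⟩ := small_divisors η hη
  refine ⟨C, hC1, fun N y hodd hN hy p hp hpy => ?_⟩
  have hpp : p.Prime := (Nat.mem_primeFactors.1 hp).1
  have hpN : p ∣ N := (Nat.mem_primeFactors.1 hp).2.1
  have hN0 : N ≠ 0 := (Nat.mem_primeFactors.1 hp).2.2
  have h2N : ¬ 2 ∣ N := fun h => (Nat.not_even_iff_odd.2 hodd) (even_iff_two_dvd.2 h)
  have hp2 : p ≠ 2 := fun h => h2N (h ▸ hpN)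
  have hp3 : 3 ≤ p := by have := hpp.two_le; omega
  have hn : 1 ≤ nn N p := Nat.succ_pos _
  have hpow : 1 < p ^ nn N p := Nat.one_lt_pow (by omega) hpp.one_lt
  set M : ℕ := p ^ nn N p - 1 with hM
  have hM0 : M ≠ 0 := by omega
  have hMfac : M = (p - 1) * Sq N p := by
    have h : (p - 1) * Sq N p + 1 = p ^ nn N p := Sb.sg_pow hpp (N.factorization p)
    omega
  have hS0 : Sq N p ≠ 0 := (Sb.sg_pos (pow_pos hpp.pos _)).ne'
  have hp10 : p - 1 ≠ 0 := by omega
  set s : Finset ℕ := Lg N y with hs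
  set W : ℕ := ∏ r ∈ M.primeFactors \ s, r ^ M.factorization r with hW
  have hsM : ∏ r ∈ s, r ^ M.factorization r = ∏ r ∈ M.primeFactors ∩ s, r ^ M.factorization r := by
    symm
    refine Finset.prod_subset Finset.inter_subset_right fun r hr hr' => ?_
    have h1 : r ∉ M.primeFactors := fun h => hr' (Finset.mem_inter.2 ⟨h, hr⟩)
    have h2 : M.factorization r = 0 := by
      rw [← Finsupp.notMem_support_iff, Nat.support_factorization]
      exact h1
    rw [h2, pow_zero]
  have hWM : W * ∏ P ∈ s, P ^ M.factorization P = M := by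
    rw [hsM, hW, mul_comm, Finset.prod_inter_mul_prod_sdiff]
    exact Nat.prod_factorization_pow_eq_self hM0
  have hnd : ∀ r : ℕ, r.Prime → y < r → ¬ r ∣ p - 1 := by
    intro r _ hyr h
    have := Nat.le_of_dvd (by omega) h
    omega
  have hlarge : ∀ r ∈ M.primeFactors, y < r → r ∈ s := by
    intro r hr hyr
    have hrp := (Nat.mem_primeFactors.1 hr).1
    have hrM := (Nat.mem_primeFactors.1 hr).2.1
    rw [hMfac] at hrM
    rcases (Nat.Prime.dvd_mul hrp).1 hrM with h1 | h1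
    · exact absurd h1 (hnd r hrp hyr)
    · exact Finset.mem_filter.2 ⟨mem_of_dvd_Sq N hN p r hp hrp (by omega) h1, hyr⟩
  have hWpos : 1 ≤ W := by
    rw [hW]
    refine Nat.one_le_iff_ne_zero.2 (Finset.prod_ne_zero_iff.2 fun r hr => ?_)
    exact pow_ne_zero _ (Nat.mem_primeFactors.1 (Finset.mem_sdiff.1 hr).1).1.ne_zero
  refine ⟨W, hWpos, ?_, ?_, ?_⟩
  · rw [hWM]; omega
  · intro r hr
    obtain ⟨hrN, hyr⟩ := Finset.mem_filter.1 hr
    have hrp := (Nat.mem_primeFactors.1 hrN).1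
    have h1 : M.factorization r = (Sq N p).factorization r := by
      rw [hMfac, Nat.factorization_mul hp10 hS0, Finsupp.add_apply,
        Nat.factorization_eq_zero_of_not_dvd (hnd r hrp hyr), zero_add]
    have h2 : (Sq N p).factorization r ≤ N.factorization r := by
      rw [← sum_val N hN r hrp (by omega)]
      exact Finset.single_le_sum (f := fun q => (Sq N q).factorization r)
        (fun _ _ => Nat.zero_le _) hp
    have h3 : 2 ^ N.factorization r ≤ N :=
      (Nat.pow_le_pow_left hrp.two_le _).trans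
        (Nat.le_of_dvd (Nat.pos_of_ne_zero hN0) (Nat.ordProj_dvd N r))
    rw [h1]
    exact h2.trans (Nat.le_log_of_pow_le (by norm_num) h3)
  · have hlog : log (W : ℝ) = ∑ r ∈ M.primeFactors \ s, (M.factorization r : ℝ) * log r := by
      rw [hW, Nat.cast_prod, Real.log_prod]
      · refine Finset.sum_congr rfl fun r _ => ?_
        rw [Nat.cast_pow, Real.log_pow]
      · intro r hr
        have h1 : r ≠ 0 := (Nat.mem_primeFactors.1 (Finset.mem_sdiff.1 hr).1).1.ne_zero
        positivity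
    have hA : log (W : ℝ) ≤ ((y : ℝ) * (((nn N p).divisors.filter (· ≤ y)).card : ℝ) + 2) * log p +
        log (nn N p) := by
      rw [hlog]
      refine le_trans ?_ (smooth_part_le' p (nn N p) y hpp hp2 hn (by omega))
      refine Finset.sum_le_sum_of_subset_of_nonneg ?_ ?_
      · intro r hr
        obtain ⟨h1, h2⟩ := Finset.mem_sdiff.1 hr
        refine Finset.mem_filter.2 ⟨Finset.mem_range.2 ?_, (Nat.mem_primeFactors.1 h1).1⟩
        by_contra h3
        exact h2 (hlarge r h1 (by omega))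
      · intro r _ _
        exact mul_nonneg (Nat.cast_nonneg _) (Real.log_natCast_nonneg r)
    refine hA.trans ?_
    have hcard := hC N y hodd hN hy p hp
    have hy0 : (0 : ℝ) ≤ y := Nat.cast_nonneg _
    have hpR : (0 : ℝ) < p := by exact_mod_cast hpp.pos
    have hlp : log (p : ℝ) ≤ log y := Real.log_le_log hpR (by exact_mod_cast hpy)
    have hlp0 : 0 ≤ log (p : ℝ) := Real.log_natCast_nonneg p
    have h1 : (y : ℝ) * (((nn N p).divisors.filter (· ≤ y)).card : ℝ) + 2 ≤
        (y : ℝ) * ((Lg N y).card + C * (y : ℝ) ^ η) + 2 := by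
      have := mul_le_mul_of_nonneg_left hcard hy0
      linarith
    have h2 : (0 : ℝ) ≤ (y : ℝ) * (((nn N p).divisors.filter (· ≤ y)).card : ℝ) + 2 := by positivity
    have h3 : ((y : ℝ) * (((nn N p).divisors.filter (· ≤ y)).card : ℝ) + 2) * log p ≤
        ((y : ℝ) * ((Lg N y).card + C * (y : ℝ) ^ η) + 2) * log y :=
      mul_le_mul h1 hlp hlp0 (h2.trans h1)
    linarith
-- END E10

end Pool.Agent.Lib.MP_f02ea4_nt.Ml
end

section

/-! Smoothness of odd perfect numbers, part F: the second largest prime factor, exponent `2 + ε`. -/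

set_option autoImplicit false

namespace Pool.Agent.Lib.MP_f02ea4_nt.Sm

open Finset Real

/-- the prime-to-`p` part of `σ(q^e_q)` -/
abbrev cc (N p q : ℕ) : ℕ := Sq N q / p ^ (Sq N q).factorization p

-- BEGIN E1
lemma e1_sum_le (T : Finset ℕ) (m : ℕ) (_hm : m ≠ 0) :
    ∑ r ∈ T, (m.factorization r : ℝ) * log r ≤ log (m : ℝ) := by
  have h1 : ∀ r ∈ T, (m.factorization r : ℝ) * log r ≠ 0 → r ∈ m.primeFactors := by
    intro r _ hne
    rw [← Nat.support_factorization, Finsupp.mem_support_iff]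
    intro h0
    apply hne
    rw [h0]
    simp
  have hnn : ∀ r : ℕ, 0 ≤ (m.factorization r : ℝ) * log r := fun r =>
    mul_nonneg (Nat.cast_nonneg _) (Real.log_natCast_nonneg r)
  rw [Real.log_nat_eq_sum_factorization m, Finsupp.sum, Nat.support_factorization]
  rw [← Finset.sum_filter_of_ne h1]
  apply Finset.sum_le_sum_of_subset_of_nonneg
  · intro r hr
    exact (Finset.mem_filter.1 hr).2
  · intro r _ _
    exact hnn r

lemma e1_lte (q n r : ℕ) (hr : r.Prime) (hr2 : r ≠ 2) (hq1 : 1 < q) (hn : n ≠ 0) (hrq : ¬ r ∣ q)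
    (hd : r ∣ q ^ n - 1) :
    orderOf (q : ZMod r) ∣ n ∧ orderOf (q : ZMod r) ≤ r - 1 ∧
    (q ^ n - 1).factorization r ≤
      (q ^ orderOf (q : ZMod r) - 1).factorization r + n.factorization r := by
  have : Fact r.Prime := ⟨hr⟩
  set o := orderOf (q : ZMod r) with ho
  have hqn : 1 ≤ q ^ n := Nat.one_le_pow _ _ (by omega)
  have h1 : (q : ZMod r) ^ n = 1 := by
    have : ((q ^ n - 1 : ℕ) : ZMod r) = 0 := (ZMod.natCast_eq_zero_iff _ _).2 hd
    rw [Nat.cast_sub hqn] at this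
    push_cast at this
    exact sub_eq_zero.1 this
  have hon : o ∣ n := orderOf_dvd_of_pow_eq_one h1
  have hq0 : (q : ZMod r) ≠ 0 := by
    intro h0
    exact hrq ((ZMod.natCast_eq_zero_iff _ _).1 h0)
  have hor : o ∣ r - 1 := ZMod.orderOf_dvd_card_sub_one hq0
  have hole : o ≤ r - 1 := Nat.le_of_dvd (by have := hr.two_le; omega) hor
  refine ⟨hon, hole, ?_⟩
  obtain ⟨k, hk⟩ := hon
  have ho0 : o ≠ 0 := by
    rintro h0
    rw [h0, zero_mul] at hk
    exact hn hk
  have hk0 : k ≠ 0 := by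
    rintro h0
    rw [h0, mul_zero] at hk
    exact hn hk
  have hod : r ∣ q ^ o - 1 := by
    rw [← ZMod.natCast_eq_zero_iff, Nat.cast_sub (Nat.one_le_pow _ _ (by omega))]
    push_cast
    rw [pow_orderOf_eq_one, sub_self]
  have hrqo : ¬ r ∣ q ^ o := fun h => hrq (hr.dvd_of_dvd_pow h)
  have h2 := padicValNat.pow_sub_pow (p := r) (x := q ^ o) (y := 1)
    (hr.odd_of_ne_two hr2) (Nat.one_lt_pow ho0 hq1) hod hrqo hk0
  rw [one_pow, ← pow_mul, ← hk] at h2
  rw [Nat.factorization_def _ hr, Nat.factorization_def _ hr, h2, Nat.factorization_def _ hr]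
  have h3 : padicValNat r k ≤ padicValNat r n := by
    rw [hk, padicValNat.mul ho0 hk0]
    exact Nat.le_add_left _ _
  omega

/-- E1. the `y`-smooth part of `σ(q^e)`, `n = e + 1`.  `r = 2`: `v_2(σ) ≤ v_2(q^n-1)`, `val_two`, `≤ 2 log q` plus
`v_2(n) log 2`.  `r` odd, `r ∣ q - 1`: `val_sg_of_dvd`.  `r = q`: zero.  Other `r ∣ σ(q^e)`: the order `o` of `q` mod `r`
divides `n`, `2 ≤ o ≤ r - 1 ≤ y`, and LTE for `q^o` gives `v_r(q^n - 1) = v_r(q^o - 1) + v_r(n/o)`; for fixed
`o`: `∑_{r : order o} v_r(q^o - 1) log r ≤ log (q^o - 1) ≤ y log q`; there are at most `n.divisors.card` values `o`;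
`∑ v_r(n) log r ≤ log n`. -/
lemma smooth_sg_le (q e y : ℕ) (hq : q.Prime) (hq2 : q ≠ 2) :
    ∑ r ∈ (range (y + 1)).filter Nat.Prime, ((Sb.sg (q ^ e)).factorization r : ℝ) * log r ≤
      (((e + 1).divisors.card : ℝ) * y + 2) * log q + log ((e + 1 : ℕ) : ℝ) := by
  classical
  have hq1 : 1 < q := hq.one_lt
  have hq3 : 3 ≤ q := by have := hq.two_le; omega
  have hqodd : Odd q := hq.odd_of_ne_two hq2
  have hlq : 0 < log (q : ℝ) := Real.log_pos (by exact_mod_cast hq1)
  have hqn : 1 < q ^ (e + 1) := Nat.one_lt_pow (by omega) hq1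
  have hsgpos : 0 < Sb.sg (q ^ e) := Sb.sg_pos (pow_pos hq.pos e)
  have hsg : (q - 1) * Sb.sg (q ^ e) = q ^ (e + 1) - 1 := by
    have := Sb.sg_pow hq e
    omega
  have hle : ∀ r : ℕ, (Sb.sg (q ^ e)).factorization r ≤ (q ^ (e + 1) - 1).factorization r := by
    intro r
    rw [← hsg, Nat.factorization_mul (by omega) hsgpos.ne']
    simp
  set S := (range (y + 1)).filter Nat.Prime with hS
  set S' := S.filter (fun r => r ≠ 2 ∧ ¬ r ∣ q - 1 ∧ r ≠ q ∧ r ∣ Sb.sg (q ^ e)) with hS'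
  set F : ℕ → ℝ := fun r => ((q ^ orderOf (q : ZMod r) - 1).factorization r : ℝ) * log r with hF
  have hlog : ∀ r : ℕ, 0 ≤ log (r : ℝ) := fun r => Real.log_natCast_nonneg r
  have hFnn : ∀ r, 0 ≤ F r := fun r => mul_nonneg (Nat.cast_nonneg _) (hlog r)
  have hrprime : ∀ r ∈ S, r.Prime := fun r hr => (Finset.mem_filter.1 hr).2
  have hry : ∀ r ∈ S, r ≤ y := fun r hr => by
    have := Finset.mem_range.1 (Finset.mem_filter.1 hr).1
    omega
  -- the pointwise bound
  have hpt : ∀ r ∈ S, ((Sb.sg (q ^ e)).factorization r : ℝ) * log r ≤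
      (if r = 2 then 2 * log (q : ℝ) else 0) + (if r ∈ S' then F r else 0) +
        ((e + 1).factorization r : ℝ) * log r := by
    intro r hr
    have hrp := hrprime r hr
    have hnn : 0 ≤ ((e + 1).factorization r : ℝ) * log r :=
      mul_nonneg (Nat.cast_nonneg _) (hlog r)
    by_cases h2 : r = 2
    · subst h2
      have h3 := val_two q (e + 1) hqodd hq3 (by omega)
      have h4 := hle 2
      have h5 : ((q ^ 2 - 1).factorization 2 : ℝ) * log (2 : ℕ) ≤ 2 * log q := by
        have hpos : q ^ 2 - 1 ≠ 0 := by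
          have : 1 < q ^ 2 := Nat.one_lt_pow (by omega) hq1
          omega
        have h6 := e1_sum_le {2} (q ^ 2 - 1) hpos
        rw [Finset.sum_singleton] at h6
        refine h6.trans ?_
        have h10 : log ((q ^ 2 - 1 : ℕ) : ℝ) ≤ log ((q : ℝ) ^ 2) := by
          apply Real.log_le_log
          · exact_mod_cast Nat.pos_of_ne_zero hpos
          · exact_mod_cast Nat.sub_le _ _
        rw [Real.log_pow] at h10
        exact_mod_cast h10
      have h7 : ((Sb.sg (q ^ e)).factorization 2 : ℝ) ≤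
          ((q ^ 2 - 1).factorization 2 : ℝ) + ((e + 1).factorization 2 : ℝ) := by
        exact_mod_cast h4.trans h3
      have h8 : 0 ≤ (if (2 : ℕ) ∈ S' then F 2 else 0) := by
        split_ifs
        · exact hFnn 2
        · exact le_rfl
      rw [if_pos rfl]
      have h9 := mul_le_mul_of_nonneg_right h7 (hlog 2)
      rw [add_mul] at h9
      linarith
    · rw [if_neg h2]
      by_cases h3 : r ∣ Sb.sg (q ^ e)
      · by_cases h4 : r ∣ q - 1
        · have h5 := val_sg_of_dvd q e r hq hrp h2 h4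
          have h6 : ((Sb.sg (q ^ e)).factorization r : ℝ) * log r ≤
              ((e + 1).factorization r : ℝ) * log r :=
            mul_le_mul_of_nonneg_right (by exact_mod_cast h5) (hlog r)
          have h7 : r ∉ S' := by
            intro h
            exact (Finset.mem_filter.1 h).2.2.1 h4
          rw [if_neg h7]
          linarith
        · have h5 : r ≠ q := by
            rintro rfl
            have h6 := Sb.coprime_sg_pow hq e
            rw [Nat.Prime.coprime_iff_not_dvd hq] at h6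
            exact h6 h3
          have h6 : r ∈ S' := Finset.mem_filter.2 ⟨hr, h2, h4, h5, h3⟩
          rw [if_pos h6]
          have hrq : ¬ r ∣ q := by
            intro h
            exact h5 ((Nat.prime_dvd_prime_iff_eq hrp hq).1 h)
          have hd : r ∣ q ^ (e + 1) - 1 := by
            rw [← hsg]
            exact Dvd.dvd.mul_left h3 _
          have h7 := (e1_lte q (e + 1) r hrp h2 hq1 (by omega) hrq hd).2.2
          have h8 := (hle r).trans h7
          have h9 : ((Sb.sg (q ^ e)).factorization r : ℝ) * log r ≤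
              (((q ^ orderOf (q : ZMod r) - 1).factorization r : ℝ) +
                ((e + 1).factorization r : ℝ)) * log r :=
            mul_le_mul_of_nonneg_right (by exact_mod_cast h8) (hlog r)
          rw [add_mul] at h9
          simp only [hF]
          linarith
      · have h4 : (Sb.sg (q ^ e)).factorization r = 0 :=
          Nat.factorization_eq_zero_of_not_dvd h3
        rw [h4]
        have h8 : 0 ≤ (if r ∈ S' then F r else 0) := by
          split_ifs
          · exact hFnn r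
          · exact le_rfl
        simp only [Nat.cast_zero, zero_mul]
        linarith
  refine (Finset.sum_le_sum hpt).trans ?_
  rw [Finset.sum_add_distrib, Finset.sum_add_distrib]
  have hA : ∑ r ∈ S, (if r = 2 then 2 * log (q : ℝ) else 0) ≤ 2 * log q := by
    rw [Finset.sum_ite_eq']
    split_ifs
    · exact le_rfl
    · positivity
  have hB : ∑ r ∈ S, (if r ∈ S' then F r else 0) ≤ ((e + 1).divisors.card : ℝ) * y * log q := by
    have h1 : ∑ r ∈ S, (if r ∈ S' then F r else 0) = ∑ r ∈ S', F r := by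
      rw [← Finset.sum_filter]
      congr 1
      ext r
      simp only [hS', Finset.mem_filter]
      tauto
    rw [h1]
    have hdata : ∀ r ∈ S', orderOf (q : ZMod r) ∣ e + 1 ∧ orderOf (q : ZMod r) ≤ r - 1 := by
      intro r hr
      obtain ⟨hrS, h2, h4, h5, h3⟩ := Finset.mem_filter.1 hr
      have hrp := hrprime r hrS
      have hrq : ¬ r ∣ q := by
        intro h
        exact h5 ((Nat.prime_dvd_prime_iff_eq hrp hq).1 h)
      have hd : r ∣ q ^ (e + 1) - 1 := by
        rw [← hsg]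
        exact Dvd.dvd.mul_left h3 _
      have h7 := e1_lte q (e + 1) r hrp h2 hq1 (by omega) hrq hd
      exact ⟨h7.1, h7.2.1⟩
    have hmaps : ∀ r ∈ S', orderOf (q : ZMod r) ∈ (e + 1).divisors := by
      intro r hr
      exact Nat.mem_divisors.2 ⟨(hdata r hr).1, by omega⟩
    rw [← Finset.sum_fiberwise_of_maps_to hmaps]
    have hin : ∀ o ∈ (e + 1).divisors,
        ∑ r ∈ S'.filter (fun r => orderOf (q : ZMod r) = o), F r ≤ (y : ℝ) * log q := by
      intro o ho
      have hodvd := (Nat.mem_divisors.1 ho).1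
      have ho0 : o ≠ 0 := by
        rintro rfl
        have := Nat.eq_zero_of_zero_dvd hodvd
        omega
      rcases (S'.filter (fun r => orderOf (q : ZMod r) = o)).eq_empty_or_nonempty with hE | ⟨r0, hr0⟩
      · rw [hE, Finset.sum_empty]
        positivity
      · obtain ⟨hr0', hr0o⟩ := Finset.mem_filter.1 hr0
        have hoy : o ≤ y := by
          have h1 := (hdata r0 hr0').2
          have h2 := hry r0 (Finset.mem_filter.1 hr0').1
          omega
        have hqo : 1 < q ^ o := Nat.one_lt_pow ho0 hq1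
        calc ∑ r ∈ S'.filter (fun r => orderOf (q : ZMod r) = o), F r
            = ∑ r ∈ S'.filter (fun r => orderOf (q : ZMod r) = o),
                ((q ^ o - 1).factorization r : ℝ) * log r := by
              apply Finset.sum_congr rfl
              intro r hr
              simp only [hF]
              rw [(Finset.mem_filter.1 hr).2]
          _ ≤ log ((q ^ o - 1 : ℕ) : ℝ) := e1_sum_le _ _ (by omega)
          _ ≤ log ((q : ℝ) ^ o) := by
              apply Real.log_le_log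
              · exact_mod_cast (by omega : 0 < q ^ o - 1)
              · exact_mod_cast Nat.sub_le _ _
          _ = o * log q := by rw [Real.log_pow]
          _ ≤ y * log q := mul_le_mul_of_nonneg_right (by exact_mod_cast hoy) hlq.le
    refine (Finset.sum_le_sum hin).trans ?_
    rw [Finset.sum_const, nsmul_eq_mul]
    exact le_of_eq (by ring)
  have hC : ∑ r ∈ S, ((e + 1).factorization r : ℝ) * log r ≤ log ((e + 1 : ℕ) : ℝ) :=
    e1_sum_le S (e + 1) (by omega)
  nlinarith [hA, hB, hC]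
-- END E1

-- BEGIN F1
/-- F1. `p > y`, all other primes of `N` are `≤ y`.  Prime factors `r` of `cc N p q` divide `Sq N q`, `r ≠ p`, so `r = 2`
or `r ∈ N.primeFactors` (`mem_of_dvd_Sq`), hence `r ≤ y`; `v_r(cc) = v_r(Sq N q)`; so
`log (cc) = ∑_{r ∣ cc} v_r log r ≤ ∑_{r ≤ y} v_r(Sq N q) log r` and E1. -/
lemma log_cc_le (N y p q : ℕ) (hodd : Odd N) (hN : Nat.Perfect N) (hy : 2 ≤ y)
    (hp : p ∈ N.primeFactors) (hyp : y < p) (hpy : ∀ r ∈ N.primeFactors, r ≠ p → r ≤ y)
    (hq : q ∈ N.primeFactors) :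
    log (cc N p q : ℝ) ≤
      (((nn N q).divisors.card : ℝ) * y + 2) * log q + log (nn N q : ℝ) := by
  classical
  have hqp : q.Prime := (Nat.mem_primeFactors.1 hq).1
  have hpp : p.Prime := (Nat.mem_primeFactors.1 hp).1
  have hqN : q ∣ N := (Nat.mem_primeFactors.1 hq).2.1
  have hq2 : q ≠ 2 := by
    rintro rfl
    exact (Nat.not_even_iff_odd.2 hodd) (even_iff_two_dvd.2 hqN)
  have hS0 : Sq N q ≠ 0 := (Sb.sg_pos (pow_pos hqp.pos _)).ne'
  refine le_trans ?_ (smooth_sg_le q (N.factorization q) y hqp hq2)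
  rw [Real.log_nat_eq_sum_factorization, Finsupp.sum]
  have hfac : (cc N p q).factorization = (Sq N q).factorization.erase p :=
    Nat.factorization_ordCompl (Sq N q) p
  have hle : ∀ r, (cc N p q).factorization r ≤ (Sq N q).factorization r := by
    intro r
    rw [hfac, Finsupp.erase_apply]
    split_ifs
    · exact Nat.zero_le _
    · exact le_rfl
  have h1 : ∑ r ∈ (cc N p q).factorization.support, ((cc N p q).factorization r : ℝ) * log r ≤
      ∑ r ∈ (cc N p q).factorization.support, ((Sq N q).factorization r : ℝ) * log r := by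
    refine Finset.sum_le_sum fun r _ => ?_
    exact mul_le_mul_of_nonneg_right (by exact_mod_cast hle r) (Real.log_natCast_nonneg r)
  refine h1.trans ?_
  refine Finset.sum_le_sum_of_subset_of_nonneg ?_ ?_
  · intro r hr
    rw [Finsupp.mem_support_iff, hfac, Finsupp.erase_apply] at hr
    split_ifs at hr with hrp
    · exact absurd rfl hr
    · have hrmem : r ∈ (Sq N q).primeFactors := by
        rw [← Nat.support_factorization, Finsupp.mem_support_iff]
        exact hr
      have hrprime := (Nat.mem_primeFactors.1 hrmem).1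
      have hrd := (Nat.mem_primeFactors.1 hrmem).2.1
      have hry : r ≤ y := by
        by_cases hr2 : r = 2
        · omega
        · exact hpy r (mem_of_dvd_Sq N hN q r hq hrprime hr2 hrd) hrp
      exact Finset.mem_filter.2 ⟨Finset.mem_range.2 (by omega), hrprime⟩
  · intro r _ _
    exact mul_nonneg (Nat.cast_nonneg _) (Real.log_natCast_nonneg r)
-- END F1

-- BEGIN F2
/-- F2. duality.  `w = v_r(Sq N p)`, `n = nn N p = k + 1`, `c = cc N p r`, `v = v_p(Sq N r)`, so
`r^(nn N r) - 1 = (r-1) c p^v` (`Sb.sg_pow`).  `r^w ∣ Sq N p ∣ 2 N` (`prod_Sq`), `r` odd, so `w ≤ v_r(N) < nn N r`.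
`r^w ∣ p^n - 1`.  Hence mod `r^w`: `((r-1) c)^n ≡ ((r-1) c)^n (p^v)^n = (r^(nn N r) - 1)^n ≡ (-1)^n`, and
`((r-1) c)^n ≠ (-1)^n` because `(r-1) c ≥ 2`.  So `r^w ≤ ((r-1) c)^n + 1 ≤ 2 (r c)^n`. -/
lemma duality (N p r : ℕ) (hodd : Odd N) (hN : Nat.Perfect N)
    (hp : p ∈ N.primeFactors) (hr : r ∈ N.primeFactors) (_hrp : r ≠ p) :
    ((Sq N p).factorization r : ℝ) * log r ≤
      (nn N p : ℝ) * (log r + log (cc N p r : ℝ)) + log 2 := by
  have hrP := Nat.prime_of_mem_primeFactors hr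
  have hpP := Nat.prime_of_mem_primeFactors hp
  have hr3 : (3 : ℝ) ≤ r := d15_three_le hodd hr
  have hr3' : 3 ≤ r := by exact_mod_cast hr3
  set w := (Sq N p).factorization r with hw
  set n := nn N p with hn
  set c := cc N p r with hc
  set v := (Sq N r).factorization p with hv
  have hSr0 : Sq N r ≠ 0 := (Sb.sg_pos (pow_pos hrP.pos _)).ne'
  have hSp0 : Sq N p ≠ 0 := (Sb.sg_pos (pow_pos hpP.pos _)).ne'
  have hpc : p ^ v * c = Sq N r := Nat.ordProj_mul_ordCompl_eq_self (Sq N r) p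
  have hc1 : 1 ≤ c := by
    rcases Nat.eq_zero_or_pos c with h | h
    · rw [h, mul_zero] at hpc; exact absurd hpc.symm hSr0
    · exact h
  have h1 : ((r : ℤ) - 1) * (Sq N r : ℤ) + 1 = (r : ℤ) ^ (nn N r) := Sb.sg_pow_int hrP _
  have h2 : ((p : ℤ) - 1) * (Sq N p : ℤ) + 1 = (p : ℤ) ^ n := Sb.sg_pow_int hpP _
  have hwS : r ^ w ∣ Sq N p := Nat.ordProj_dvd _ _
  have hwN : w ≤ N.factorization r := by
    have h3 : r ^ w ∣ 2 * N := by
      rw [← prod_Sq N hN]
      exact hwS.trans (dvd_prod_of_mem _ hp)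
    have h4 : Nat.Coprime (r ^ w) 2 := by
      apply Nat.Coprime.pow_left
      rw [Nat.coprime_primes hrP Nat.prime_two]
      omega
    have h5 := h4.dvd_of_dvd_mul_left h3
    exact (hrP.pow_dvd_iff_le_factorization hN.2.ne').1 h5
  -- congruences mod `r ^ w`
  have hA : ((r : ℤ) - 1) * c * (p : ℤ) ^ v ≡ -1 [ZMOD (r : ℤ) ^ w] := by
    have h3 : ((r : ℤ) - 1) * c * (p : ℤ) ^ v - (-1) = (r : ℤ) ^ (nn N r) := by
      rw [← h1, ← hpc]; push_cast; ring
    have h4 : (r : ℤ) ^ w ∣ ((r : ℤ) - 1) * c * (p : ℤ) ^ v - (-1) := by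
      rw [h3]
      exact pow_dvd_pow _ (hwN.trans (Nat.le_succ _))
    exact (Int.modEq_iff_dvd.2 h4).symm
  have hB : (p : ℤ) ^ n ≡ 1 [ZMOD (r : ℤ) ^ w] := by
    have h3 : (r : ℤ) ^ w ∣ (p : ℤ) ^ n - 1 := by
      have h4 : (p : ℤ) ^ n - 1 = ((p : ℤ) - 1) * (Sq N p : ℤ) := by rw [← h2]; ring
      rw [h4]
      exact Dvd.dvd.mul_left (by exact_mod_cast hwS) _
    exact (Int.modEq_iff_dvd.2 h3).symm
  have hC : (((r : ℤ) - 1) * c) ^ n ≡ (-1) ^ n [ZMOD (r : ℤ) ^ w] := by
    have h3 := hA.pow n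
    have h4 : (((r : ℤ) - 1) * c * (p : ℤ) ^ v) ^ n = (((r : ℤ) - 1) * c) ^ n * ((p : ℤ) ^ n) ^ v := by
      rw [mul_pow, ← pow_mul, ← pow_mul, mul_comm v n]
    rw [h4] at h3
    have h5 : (((r : ℤ) - 1) * c) ^ n * ((p : ℤ) ^ n) ^ v ≡
        (((r : ℤ) - 1) * c) ^ n * 1 ^ v [ZMOD (r : ℤ) ^ w] := (Int.ModEq.refl _).mul (hB.pow v)
    rw [one_pow, mul_one] at h5
    exact h5.symm.trans h3
  have hn1 : 1 ≤ n := Nat.succ_le_succ (Nat.zero_le _)
  have hX2 : (2 : ℤ) ≤ ((r : ℤ) - 1) * c := by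
    have h3 : (3 : ℤ) ≤ r := by exact_mod_cast hr3'
    have h4 : (1 : ℤ) ≤ c := by exact_mod_cast hc1
    nlinarith
  have hXn : (2 : ℤ) ≤ (((r : ℤ) - 1) * c) ^ n := by
    calc (2 : ℤ) ≤ ((r : ℤ) - 1) * c := hX2
      _ = (((r : ℤ) - 1) * c) ^ 1 := (pow_one _).symm
      _ ≤ (((r : ℤ) - 1) * c) ^ n := pow_le_pow_right₀ (by linarith) hn1
  have hm1 : ((-1 : ℤ)) ^ n = 1 ∨ ((-1 : ℤ)) ^ n = -1 := neg_one_pow_eq_or ℤ n
  have hle : (r : ℤ) ^ w ≤ 2 * (((r : ℤ) - 1) * c) ^ n := by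
    have h3 : (r : ℤ) ^ w ∣ (((r : ℤ) - 1) * c) ^ n - (-1) ^ n := Int.ModEq.dvd hC.symm
    have h4 : 0 < (((r : ℤ) - 1) * c) ^ n - (-1) ^ n := by
      rcases hm1 with h | h <;> rw [h] <;> linarith
    have h5 := Int.le_of_dvd h4 h3
    rcases hm1 with h | h <;> rw [h] at h5 <;> linarith
  have hle2 : (r : ℝ) ^ w ≤ 2 * ((r : ℝ) * c) ^ n := by
    have h3 : (r : ℝ) ^ w ≤ 2 * (((r : ℝ) - 1) * c) ^ n := by exact_mod_cast hle
    have h4 : (((r : ℝ) - 1) * c) ^ n ≤ ((r : ℝ) * c) ^ n := by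
      apply pow_le_pow_left₀
      · apply mul_nonneg (by linarith) (Nat.cast_nonneg _)
      · apply mul_le_mul_of_nonneg_right (by linarith) (Nat.cast_nonneg _)
    linarith
  have hr0 : (0 : ℝ) < r := by linarith
  have hc0 : (0 : ℝ) < c := by exact_mod_cast hc1
  have h6 := log_le_log (by positivity) hle2
  rw [log_pow, log_mul (by norm_num) (by positivity), log_pow, log_mul hr0.ne' hc0.ne'] at h6
  linarith
-- END F2

-- BEGIN F3
private lemma f3_fiber (y p o : ℕ) (ho : 0 < o) :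
    ((range (y + 1)).filter (fun r => r.Prime ∧ orderOf (p : ZMod r) = o)).card ≤ y / o := by
  classical
  have h1 : (range (y + 1)).filter (fun r => r.Prime ∧ orderOf (p : ZMod r) = o) ⊆
      (Finset.Icc 1 (y / o)).image (fun t => 1 + o * t) := by
    intro r hr
    obtain ⟨h1, hrp, hro⟩ := Finset.mem_filter.1 hr
    have hry : r ≤ y := by have := Finset.mem_range.1 h1; omega
    have : Fact r.Prime := ⟨hrp⟩
    have hp0 : (p : ZMod r) ≠ 0 := by
      intro h0
      rw [h0, orderOf_zero] at hro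
      omega
    have hd : o ∣ r - 1 := by
      rw [← hro]
      exact ZMod.orderOf_dvd_card_sub_one hp0
    obtain ⟨t, ht⟩ := hd
    have hr2 := hrp.two_le
    refine Finset.mem_image.2 ⟨t, Finset.mem_Icc.2 ⟨?_, ?_⟩, by omega⟩
    · rcases Nat.eq_zero_or_pos t with h0 | h0
      · rw [h0, mul_zero] at ht; omega
      · exact h0
    · rw [Nat.le_div_iff_mul_le ho]
      rw [mul_comm]
      omega
  refine (Finset.card_le_card h1).trans (Finset.card_image_le.trans ?_)
  rw [Nat.card_Icc, Nat.add_sub_cancel]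

/-- F3. primes `r ≤ y` for which `p` has a large order dividing `n`: for each divisor `o > θ` of `n` the primes with order
exactly `o` satisfy `r = 1 + o t`, `1 ≤ t ≤ y/o`, so there are at most `y/θ` of them. -/
lemma count_large_order (n y p : ℕ) (θ : ℝ) (hθ : 0 < θ) (hn : 1 ≤ n) :
    (((range (y + 1)).filter (fun r => r.Prime ∧ θ < (orderOf (p : ZMod r) : ℝ) ∧
      orderOf (p : ZMod r) ∣ n)).card : ℝ) ≤ (n.divisors.card : ℝ) * (y / θ) := by
  classical
  set S := (range (y + 1)).filter (fun r => r.Prime ∧ θ < (orderOf (p : ZMod r) : ℝ) ∧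
      orderOf (p : ZMod r) ∣ n) with hS
  have hmaps : ∀ r ∈ S, orderOf (p : ZMod r) ∈ n.divisors := by
    intro r hr
    exact Nat.mem_divisors.2 ⟨(Finset.mem_filter.1 hr).2.2.2, by omega⟩
  rw [Finset.card_eq_sum_card_fiberwise (f := fun r => orderOf (p : ZMod r)) hmaps]
  push_cast
  have hin : ∀ o ∈ n.divisors,
      ((S.filter (fun r => orderOf (p : ZMod r) = o)).card : ℝ) ≤ (y : ℝ) / θ := by
    intro o ho
    rcases (S.filter (fun r => orderOf (p : ZMod r) = o)).eq_empty_or_nonempty with hE | ⟨r0, hr0⟩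
    · rw [hE, Finset.card_empty]
      simp only [Nat.cast_zero]
      positivity
    · obtain ⟨hr0', hr0o⟩ := Finset.mem_filter.1 hr0
      have hθo : θ < (o : ℝ) := by
        rw [← hr0o]; exact (Finset.mem_filter.1 hr0').2.2.1
      have ho0 : 0 < o := by
        have : (0 : ℝ) < o := hθ.trans hθo
        exact_mod_cast this
      have h1 : (S.filter (fun r => orderOf (p : ZMod r) = o)).card ≤ y / o := by
        refine le_trans (Finset.card_le_card ?_) (f3_fiber y p o ho0)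
        intro r hr
        obtain ⟨h1, h2⟩ := Finset.mem_filter.1 hr
        obtain ⟨h3, h4, _⟩ := Finset.mem_filter.1 h1
        exact Finset.mem_filter.2 ⟨h3, h4, h2⟩
      calc ((S.filter (fun r => orderOf (p : ZMod r) = o)).card : ℝ) ≤ ((y / o : ℕ) : ℝ) := by
            exact_mod_cast h1
        _ ≤ (y : ℝ) / o := Nat.cast_div_le
        _ ≤ (y : ℝ) / θ := div_le_div_of_nonneg_left (Nat.cast_nonneg _) hθ hθo.le
  refine (Finset.sum_le_sum hin).trans ?_
  rw [Finset.sum_const, nsmul_eq_mul]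
-- END F3

-- BEGIN F4
/-- F4. small orders (as in E1), `n = e + 1`.  `r ∣ p - 1`: `v_r(σ) ≤ v_r(n)` (`val_sg_of_dvd`); `r ∤ p - 1`, `r ∣ σ(p^e)`,
order `o ≤ θ` (`o ∣ n`): `v_r(σ) = v_r(p^n - 1) = v_r(p^o - 1) + v_r(n/o) ≤ v_r(p^o - 1) + v_r(n)`, and
`∑_{r : order o} v_r(p^o - 1) log r ≤ o log p ≤ θ log p`; `∑ v_r(n) log r ≤ log n`.  (`r = p`: valuation `0`.) -/
lemma small_order_sum (p e y : ℕ) (θ : ℝ) (hp : p.Prime) (hp2 : p ≠ 2) (hθ : 0 ≤ θ) :
    ∑ r ∈ (range (y + 1)).filter (fun r => r.Prime ∧ r ≠ 2 ∧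
        ¬ (θ < (orderOf (p : ZMod r) : ℝ) ∧ ¬ r ∣ p - 1)),
      ((Sb.sg (p ^ e)).factorization r : ℝ) * log r ≤
      ((e + 1).divisors.card : ℝ) * θ * log p + log ((e + 1 : ℕ) : ℝ) := by
  classical
  have hq1 : 1 < p := hp.one_lt
  have hlq : 0 < log (p : ℝ) := Real.log_pos (by exact_mod_cast hq1)
  have hqn : 1 < p ^ (e + 1) := Nat.one_lt_pow (by omega) hq1
  have hsgpos : 0 < Sb.sg (p ^ e) := Sb.sg_pos (pow_pos hp.pos e)
  have hsg : (p - 1) * Sb.sg (p ^ e) = p ^ (e + 1) - 1 := by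
    have := Sb.sg_pow hp e
    omega
  have hle : ∀ r : ℕ, (Sb.sg (p ^ e)).factorization r ≤ (p ^ (e + 1) - 1).factorization r := by
    intro r
    rw [← hsg, Nat.factorization_mul (by omega) hsgpos.ne']
    simp
  set S := (range (y + 1)).filter (fun r => r.Prime ∧ r ≠ 2 ∧
        ¬ (θ < (orderOf (p : ZMod r) : ℝ) ∧ ¬ r ∣ p - 1)) with hS
  set S' := S.filter (fun r => ¬ r ∣ p - 1 ∧ r ≠ p ∧ r ∣ Sb.sg (p ^ e)) with hS'
  set F : ℕ → ℝ := fun r => ((p ^ orderOf (p : ZMod r) - 1).factorization r : ℝ) * log r with hF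
  have hlog : ∀ r : ℕ, 0 ≤ log (r : ℝ) := fun r => Real.log_natCast_nonneg r
  have hFnn : ∀ r, 0 ≤ F r := fun r => mul_nonneg (Nat.cast_nonneg _) (hlog r)
  have hrprime : ∀ r ∈ S, r.Prime := fun r hr => (Finset.mem_filter.1 hr).2.1
  have hr2 : ∀ r ∈ S, r ≠ 2 := fun r hr => (Finset.mem_filter.1 hr).2.2.1
  -- the pointwise bound
  have hpt : ∀ r ∈ S, ((Sb.sg (p ^ e)).factorization r : ℝ) * log r ≤
      (if r ∈ S' then F r else 0) + ((e + 1).factorization r : ℝ) * log r := by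
    intro r hr
    have hrp := hrprime r hr
    have h2 := hr2 r hr
    have hnn : 0 ≤ ((e + 1).factorization r : ℝ) * log r :=
      mul_nonneg (Nat.cast_nonneg _) (hlog r)
    by_cases h3 : r ∣ Sb.sg (p ^ e)
    · by_cases h4 : r ∣ p - 1
      · have h5 := val_sg_of_dvd p e r hp hrp h2 h4
        have h6 : ((Sb.sg (p ^ e)).factorization r : ℝ) * log r ≤
            ((e + 1).factorization r : ℝ) * log r :=
          mul_le_mul_of_nonneg_right (by exact_mod_cast h5) (hlog r)
        have h7 : r ∉ S' := by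
          intro h
          exact (Finset.mem_filter.1 h).2.1 h4
        rw [if_neg h7]
        linarith
      · have h5 : r ≠ p := by
          rintro rfl
          have h6 := Sb.coprime_sg_pow hp e
          rw [Nat.Prime.coprime_iff_not_dvd hp] at h6
          exact h6 h3
        have h6 : r ∈ S' := Finset.mem_filter.2 ⟨hr, h4, h5, h3⟩
        rw [if_pos h6]
        have hrq : ¬ r ∣ p := by
          intro h
          exact h5 ((Nat.prime_dvd_prime_iff_eq hrp hp).1 h)
        have hd : r ∣ p ^ (e + 1) - 1 := by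
          rw [← hsg]
          exact Dvd.dvd.mul_left h3 _
        have h7 := (e1_lte p (e + 1) r hrp h2 hq1 (by omega) hrq hd).2.2
        have h8 := (hle r).trans h7
        have h9 : ((Sb.sg (p ^ e)).factorization r : ℝ) * log r ≤
            (((p ^ orderOf (p : ZMod r) - 1).factorization r : ℝ) +
              ((e + 1).factorization r : ℝ)) * log r :=
          mul_le_mul_of_nonneg_right (by exact_mod_cast h8) (hlog r)
        rw [add_mul] at h9
        simp only [hF]
        linarith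
    · have h4 : (Sb.sg (p ^ e)).factorization r = 0 :=
        Nat.factorization_eq_zero_of_not_dvd h3
      rw [h4]
      have h8 : 0 ≤ (if r ∈ S' then F r else 0) := by
        split_ifs
        · exact hFnn r
        · exact le_rfl
      simp only [Nat.cast_zero, zero_mul]
      linarith
  refine (Finset.sum_le_sum hpt).trans ?_
  rw [Finset.sum_add_distrib]
  have hB : ∑ r ∈ S, (if r ∈ S' then F r else 0) ≤ ((e + 1).divisors.card : ℝ) * θ * log p := by
    have h1 : ∑ r ∈ S, (if r ∈ S' then F r else 0) = ∑ r ∈ S', F r := by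
      rw [← Finset.sum_filter]
      congr 1
      ext r
      simp only [hS', Finset.mem_filter]
      tauto
    rw [h1]
    have hdata : ∀ r ∈ S', orderOf (p : ZMod r) ∣ e + 1 := by
      intro r hr
      obtain ⟨hrS, h4, h5, h3⟩ := Finset.mem_filter.1 hr
      have hrp := hrprime r hrS
      have hrq : ¬ r ∣ p := by
        intro h
        exact h5 ((Nat.prime_dvd_prime_iff_eq hrp hp).1 h)
      have hd : r ∣ p ^ (e + 1) - 1 := by
        rw [← hsg]
        exact Dvd.dvd.mul_left h3 _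
      exact (e1_lte p (e + 1) r hrp (hr2 r hrS) hq1 (by omega) hrq hd).1
    have hmaps : ∀ r ∈ S', orderOf (p : ZMod r) ∈ (e + 1).divisors := by
      intro r hr
      exact Nat.mem_divisors.2 ⟨hdata r hr, by omega⟩
    rw [← Finset.sum_fiberwise_of_maps_to hmaps]
    have hin : ∀ o ∈ (e + 1).divisors,
        ∑ r ∈ S'.filter (fun r => orderOf (p : ZMod r) = o), F r ≤ θ * log p := by
      intro o ho
      have hodvd := (Nat.mem_divisors.1 ho).1
      have ho0 : o ≠ 0 := by
        rintro rfl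
        have := Nat.eq_zero_of_zero_dvd hodvd
        omega
      rcases (S'.filter (fun r => orderOf (p : ZMod r) = o)).eq_empty_or_nonempty with hE | ⟨r0, hr0⟩
      · rw [hE, Finset.sum_empty]
        positivity
      · obtain ⟨hr0', hr0o⟩ := Finset.mem_filter.1 hr0
        have hoθ : (o : ℝ) ≤ θ := by
          obtain ⟨hrS, h4, _⟩ := Finset.mem_filter.1 hr0'
          have h6 := (Finset.mem_filter.1 hrS).2.2.2
          by_contra hcon
          push Not at hcon
          exact h6 ⟨by rw [hr0o]; exact hcon, h4⟩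
        have hqo : 1 < p ^ o := Nat.one_lt_pow ho0 hq1
        calc ∑ r ∈ S'.filter (fun r => orderOf (p : ZMod r) = o), F r
            = ∑ r ∈ S'.filter (fun r => orderOf (p : ZMod r) = o),
                ((p ^ o - 1).factorization r : ℝ) * log r := by
              apply Finset.sum_congr rfl
              intro r hr
              simp only [hF]
              rw [(Finset.mem_filter.1 hr).2]
          _ ≤ log ((p ^ o - 1 : ℕ) : ℝ) := e1_sum_le _ _ (by omega)
          _ ≤ log ((p : ℝ) ^ o) := by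
              apply Real.log_le_log
              · exact_mod_cast (by omega : 0 < p ^ o - 1)
              · exact_mod_cast Nat.sub_le _ _
          _ = o * log p := by rw [Real.log_pow]
          _ ≤ θ * log p := mul_le_mul_of_nonneg_right hoθ hlq.le
    refine (Finset.sum_le_sum hin).trans ?_
    rw [Finset.sum_const, nsmul_eq_mul]
    exact le_of_eq (by ring)
  have hC : ∑ r ∈ S, ((e + 1).factorization r : ℝ) * log r ≤ log ((e + 1 : ℕ) : ℝ) :=
    e1_sum_le S (e + 1) (by omega)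
  linarith
-- END F4

-- BEGIN F5
/-- F5. the mass of the large prime.  `k = v_p(N) ≥ 1`, `n = k+1`, `D = τ(n)`, `θ = k/(2D)`.  All prime factors of `Sq N p`
are `2` or primes of `N` different from `p`, so `≤ y`: `k log p ≤ log (Sq N p) = ∑_{r ≤ y} v_r log r`.
`r = 2`: `v_2 ≤ 1` (`Sq N p ∣ 2 N`, `N` odd).  Small orders: F4, `≤ (k/2) log p + log n`.  The others with `r ∣ Sq N p`: their
order divides `n`, by F3 there are at most `D y/θ = 2 D^2 y / k` of them, each contributes by F2 at most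
`n (log y + B) + 1`; `n ≤ 2k`, so `≤ 4 D^2 y (log y + B + 1)` in total. -/
lemma large_mass (N y p : ℕ) (B : ℝ) (hodd : Odd N) (hN : Nat.Perfect N) (hy : 2 ≤ y)
    (hp : p ∈ N.primeFactors) (hyp : y < p) (hpy : ∀ r ∈ N.primeFactors, r ≠ p → r ≤ y)
    (hB0 : 0 ≤ B) (hB : ∀ r ∈ N.primeFactors, r ≠ p → log (cc N p r : ℝ) ≤ B) :
    mass N p ≤ 2 + 2 * log (nn N p : ℝ) +
      8 * ((nn N p).divisors.card : ℝ) ^ 2 * y * (log y + B + 1) := by
  classical
  have hpp : p.Prime := (Nat.mem_primeFactors.1 hp).1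
  have hpN : p ∣ N := (Nat.mem_primeFactors.1 hp).2.1
  have hN0 : N ≠ 0 := (Nat.mem_primeFactors.1 hp).2.2
  have h2N : ¬ 2 ∣ N := fun h => (Nat.not_even_iff_odd.2 hodd) (even_iff_two_dvd.2 h)
  have hp2 : p ≠ 2 := fun h => h2N (h ▸ hpN)
  have hq1 : 1 < p := hpp.one_lt
  set k := N.factorization p with hk
  have hk1 : 1 ≤ k := Nat.Prime.factorization_pos_of_dvd hpp hN0 hpN
  have hkR : (1 : ℝ) ≤ k := by exact_mod_cast hk1
  have hnn : nn N p = k + 1 := rfl
  set D : ℝ := ((k + 1).divisors.card : ℝ) with hD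
  have hD1 : 1 ≤ D := by
    have : 0 < (k + 1).divisors.card := Finset.card_pos.2 ⟨1, Nat.mem_divisors.2 ⟨one_dvd _, by omega⟩⟩
    rw [hD]
    exact_mod_cast this
  have hD0 : 0 < D := by linarith
  set θ : ℝ := (k : ℝ) / (2 * D) with hθ
  have hθ0 : 0 < θ := by positivity
  have hlog : ∀ r : ℕ, 0 ≤ log (r : ℝ) := fun r => Real.log_natCast_nonneg r
  have hly : 0 ≤ log (y : ℝ) := hlog y
  have hS0 : Sq N p ≠ 0 := (Sb.sg_pos (pow_pos hpp.pos _)).ne'
  have hSdvd : Sq N p ∣ 2 * N := by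
    rw [← prod_Sq N hN]
    exact Finset.dvd_prod_of_mem _ hp
  have hsg : (p - 1) * Sq N p = p ^ (k + 1) - 1 := by
    have h : (p - 1) * Sq N p + 1 = p ^ (k + 1) := Sb.sg_pow hpp k
    omega
  set c : ℝ := ((k : ℝ) + 1) * (log y + B) + 1 with hc
  have hc0 : 0 ≤ c := by positivity
  set T := (range (y + 1)).filter Nat.Prime with hT
  set A := (range (y + 1)).filter (fun r => r.Prime ∧ r ≠ 2 ∧
        ¬ (θ < (orderOf (p : ZMod r) : ℝ) ∧ ¬ r ∣ p - 1)) with hA
  set G := (range (y + 1)).filter (fun r => r.Prime ∧ θ < (orderOf (p : ZMod r) : ℝ) ∧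
      orderOf (p : ZMod r) ∣ k + 1) with hG
  have hprimeS : ∀ r ∈ (Sq N p).primeFactors, r ∈ T ∧ r ≠ p ∧ (r ≠ 2 → r ∈ N.primeFactors) := by
    intro r hr
    have hrprime := (Nat.mem_primeFactors.1 hr).1
    have hrd := (Nat.mem_primeFactors.1 hr).2.1
    have hrp : r ≠ p := by
      rintro rfl
      have h6 := Sb.coprime_sg_pow hpp k
      rw [Nat.Prime.coprime_iff_not_dvd hpp] at h6
      exact h6 hrd
    have h3 : r ≠ 2 → r ∈ N.primeFactors := fun h => mem_of_dvd_Sq N hN p r hp hrprime h hrd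
    have hry : r ≤ y := by
      by_cases hr2 : r = 2
      · omega
      · exact hpy r (h3 hr2) hrp
    exact ⟨Finset.mem_filter.2 ⟨Finset.mem_range.2 (by omega), hrprime⟩, hrp, h3⟩
  -- total
  have htot : (k : ℝ) * log p ≤ ∑ r ∈ T, ((Sq N p).factorization r : ℝ) * log r := by
    have h1 : (k : ℝ) * log p ≤ log (Sq N p : ℝ) := by
      rw [← Real.log_pow]
      refine Real.log_le_log (by positivity) ?_
      exact_mod_cast Sb.le_sg (pow_pos hpp.pos k)
    refine h1.trans ?_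
    rw [Real.log_nat_eq_sum_factorization, Finsupp.sum, Nat.support_factorization]
    refine Finset.sum_le_sum_of_subset_of_nonneg (fun r hr => (hprimeS r hr).1) ?_
    intro r _ _
    exact mul_nonneg (Nat.cast_nonneg _) (hlog r)
  -- pointwise
  have hpt : ∀ r ∈ T, ((Sq N p).factorization r : ℝ) * log r ≤
      (if r = 2 then (1 : ℝ) else 0) +
      (if r ∈ A then ((Sq N p).factorization r : ℝ) * log r else 0) +
      (if r ∈ G then c else 0) := by
    intro r hr
    obtain ⟨hrr, hrprime⟩ := Finset.mem_filter.1 hr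
    have hvnn : 0 ≤ ((Sq N p).factorization r : ℝ) * log r :=
      mul_nonneg (Nat.cast_nonneg _) (hlog r)
    have hA0 : 0 ≤ (if r ∈ A then ((Sq N p).factorization r : ℝ) * log r else 0) := by
      split_ifs
      · exact hvnn
      · exact le_rfl
    have hG0 : 0 ≤ (if r ∈ G then c else 0) := by
      split_ifs
      · exact hc0
      · exact le_rfl
    by_cases h2 : r = 2
    · rw [if_pos h2]
      have h3 : (Sq N p).factorization r ≤ 1 := by
        have h4 := (Nat.factorization_le_iff_dvd hS0 (by omega)).2 hSdvd r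
        rw [Nat.factorization_mul (by norm_num) hN0, Finsupp.add_apply, h2,
          Nat.Prime.factorization_self Nat.prime_two,
          Nat.factorization_eq_zero_of_not_dvd h2N] at h4
        rw [h2]
        omega
      have h5 : ((Sq N p).factorization r : ℝ) * log r ≤ 1 * log r :=
        mul_le_mul_of_nonneg_right (by exact_mod_cast h3) (hlog r)
      have h6 : log (r : ℝ) ≤ 1 := by
        rw [h2]
        have := Real.log_two_lt_d9
        push_cast
        linarith
      linarith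
    · rw [if_neg h2]
      by_cases hrA : r ∈ A
      · rw [if_pos hrA]; linarith
      · rw [if_neg hrA]
        by_cases h3 : r ∣ Sq N p
        · have hcond : θ < (orderOf (p : ZMod r) : ℝ) ∧ ¬ r ∣ p - 1 := by
            by_contra hcon
            exact hrA (Finset.mem_filter.2 ⟨hrr, hrprime, h2, hcon⟩)
          have hrmem : r ∈ (Sq N p).primeFactors := Nat.mem_primeFactors.2 ⟨hrprime, h3, hS0⟩
          obtain ⟨_, hrp, hrN'⟩ := hprimeS r hrmem
          have hrN := hrN' h2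
          have hrq : ¬ r ∣ p := by
            intro h
            exact hrp ((Nat.prime_dvd_prime_iff_eq hrprime hpp).1 h)
          have hd : r ∣ p ^ (k + 1) - 1 := by
            rw [← hsg]
            exact Dvd.dvd.mul_left h3 _
          have h7 := (e1_lte p (k + 1) r hrprime h2 hq1 (by omega) hrq hd).1
          have hrG : r ∈ G := Finset.mem_filter.2 ⟨hrr, hrprime, hcond.1, h7⟩
          rw [if_pos hrG]
          have h8 := duality N p r hodd hN hp hrN hrp
          have hry : r ≤ y := hpy r hrN hrp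
          have h9 : log (r : ℝ) ≤ log y :=
            Real.log_le_log (by exact_mod_cast hrprime.pos) (by exact_mod_cast hry)
          have h10 := hB r hrN hrp
          have h11 : (nn N p : ℝ) = (k : ℝ) + 1 := by push_cast [hnn]; ring
          rw [h11] at h8
          have h12 : ((k : ℝ) + 1) * (log r + log (cc N p r : ℝ)) ≤
              ((k : ℝ) + 1) * (log y + B) :=
            mul_le_mul_of_nonneg_left (by linarith) (by linarith)
          have h13 := Real.log_two_lt_d9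
          rw [hc]
          linarith
        · have h4 : (Sq N p).factorization r = 0 := Nat.factorization_eq_zero_of_not_dvd h3
          rw [h4]
          simp only [Nat.cast_zero, zero_mul]
          linarith
  have hsum := htot.trans (Finset.sum_le_sum hpt)
  rw [Finset.sum_add_distrib, Finset.sum_add_distrib] at hsum
  have h1 : ∑ r ∈ T, (if r = 2 then (1 : ℝ) else 0) ≤ 1 := by
    rw [Finset.sum_ite_eq']
    split_ifs
    · exact le_rfl
    · norm_num
  have h2 : ∑ r ∈ T, (if r ∈ A then ((Sq N p).factorization r : ℝ) * log r else 0) ≤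
      D * θ * log p + log ((k + 1 : ℕ) : ℝ) := by
    refine le_trans ?_ (small_order_sum p k y θ hpp hp2 hθ0.le)
    rw [← Finset.sum_filter]
    refine Finset.sum_le_sum_of_subset_of_nonneg ?_ ?_
    · intro r hr
      exact (Finset.mem_filter.1 hr).2
    · intro r _ _
      exact mul_nonneg (Nat.cast_nonneg _) (hlog r)
  have h3 : ∑ r ∈ T, (if r ∈ G then c else 0) ≤ D * (y / θ) * c := by
    rw [← Finset.sum_filter, Finset.sum_const, nsmul_eq_mul]
    refine mul_le_mul_of_nonneg_right ?_ hc0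
    refine le_trans ?_ (count_large_order (k + 1) y p θ hθ0 (by omega))
    have h4 : (T.filter (fun r => r ∈ G)).card ≤ G.card := by
      refine Finset.card_le_card ?_
      intro r hr
      exact (Finset.mem_filter.1 hr).2
    exact_mod_cast h4
  have h4 : D * θ = (k : ℝ) / 2 := by
    rw [hθ]
    field_simp
  have h5 : D * (y / θ) * c ≤ 4 * D ^ 2 * y * (log y + B + 1) := by
    have h6 : c ≤ 2 * k * (log y + B + 1) := by
      rw [hc]
      have : 0 ≤ log (y : ℝ) + B := by linarith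
      nlinarith
    have h7 : D * (y / θ) = 2 * D ^ 2 * y / k := by
      rw [hθ]
      field_simp
    rw [h7]
    have h8 : 0 ≤ 2 * D ^ 2 * y / k := by positivity
    calc 2 * D ^ 2 * y / k * c ≤ 2 * D ^ 2 * y / k * (2 * k * (log y + B + 1)) :=
          mul_le_mul_of_nonneg_left h6 h8
      _ = 4 * D ^ 2 * y * (log y + B + 1) := by
          have : (k : ℝ) ≠ 0 := by positivity
          field_simp
          ring
  have h9 : mass N p = (k : ℝ) * log p := rfl
  have h10 : (nn N p : ℝ) = ((k + 1 : ℕ) : ℝ) := rfl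
  rw [h4] at h2
  rw [h9, h10]
  linarith
-- END F5

-- BEGIN F6
/-- F6. `2 N = Sq N p ∏_{q ≠ p} Sq N q` (`prod_Sq`), `Sq N p ≤ 2 p^k`, `log (Sq N q) = v_p(Sq N q) log p + log (cc N p q)`,
`∑_q v_p(Sq N q) = k` (`sum_val`). -/
lemma log_N_le (N p : ℕ) (hodd : Odd N) (hN : Nat.Perfect N) (hp : p ∈ N.primeFactors) :
    log (N : ℝ) ≤ 2 * mass N p + 1 + ∑ q ∈ N.primeFactors.erase p, log (cc N p q : ℝ) := by
  have hpP := Nat.prime_of_mem_primeFactors hp
  have hp3 : (3 : ℝ) ≤ p := d15_three_le hodd hp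
  have hN0 : (0 : ℝ) < N := by exact_mod_cast hN.2
  have hS0 : ∀ q ∈ N.primeFactors, (Sq N q : ℝ) ≠ 0 := fun q hq => by
    have := Sb.sg_pos (pow_pos (Nat.prime_of_mem_primeFactors hq).pos (N.factorization q))
    exact_mod_cast this.ne'
  have h1 : log (2 * (N : ℝ)) = ∑ q ∈ N.primeFactors, log (Sq N q : ℝ) := by
    have h2 : (2 * (N : ℝ)) = ∏ q ∈ N.primeFactors, (Sq N q : ℝ) := by
      have := prod_Sq N hN
      exact_mod_cast this.symm
    rw [h2, log_prod hS0]
  rw [log_mul (by norm_num) hN0.ne', ← Finset.add_sum_erase _ _ hp] at h1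
  -- the term of `p`
  have h2 : log (Sq N p : ℝ) ≤ mass N p + log 2 := by
    have h3 : Sq N p ≤ 2 * p ^ N.factorization p := by
      have h4 := Sb.sg_pow hpP (N.factorization p)
      rw [pow_succ] at h4
      have h5 : 2 ≤ p := hpP.two_le
      obtain ⟨u, rfl⟩ : ∃ u, p = u + 2 := ⟨p - 2, by omega⟩
      have h6 : (u + 1) * Sb.sg ((u + 2) ^ N.factorization (u + 2)) ≤
          (u + 1) * (2 * (u + 2) ^ N.factorization (u + 2)) := by
        have h7 : u + 2 - 1 = u + 1 := by omega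
        rw [h7] at h4
        nlinarith [Nat.zero_le (u * (u + 2) ^ N.factorization (u + 2))]
      exact Nat.le_of_mul_le_mul_left h6 (by omega)
    have h4 : (Sq N p : ℝ) ≤ 2 * (p : ℝ) ^ N.factorization p := by exact_mod_cast h3
    have h5 : (0 : ℝ) < Sq N p := lt_of_le_of_ne (Nat.cast_nonneg _) (hS0 p hp).symm
    have h6 := log_le_log h5 h4
    rw [log_mul (by norm_num) (by positivity), log_pow] at h6
    linarith
  -- the other terms
  have h3 : ∑ q ∈ N.primeFactors.erase p, log (Sq N q : ℝ) =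
      ∑ q ∈ N.primeFactors.erase p, ((Sq N q).factorization p : ℝ) * log p +
        ∑ q ∈ N.primeFactors.erase p, log (cc N p q : ℝ) := by
    rw [← sum_add_distrib]
    apply sum_congr rfl
    intro q hq
    have hq' := mem_of_mem_erase hq
    have h4 : p ^ (Sq N q).factorization p * cc N p q = Sq N q :=
      Nat.ordProj_mul_ordCompl_eq_self (Sq N q) p
    have h5 : (Sq N q : ℝ) = (p : ℝ) ^ (Sq N q).factorization p * (cc N p q : ℝ) := by
      exact_mod_cast h4.symm
    have h6 : (cc N p q : ℝ) ≠ 0 := by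
      intro h0
      rw [h0, mul_zero] at h5
      exact hS0 q hq' h5
    rw [h5, log_mul (by positivity) h6, log_pow]
  have h4 : ∑ q ∈ N.primeFactors.erase p, ((Sq N q).factorization p : ℝ) * log p ≤ mass N p := by
    rw [← sum_mul]
    have h5 := sum_val N hN p hpP (by
      have : 3 ≤ p := by exact_mod_cast hp3
      omega)
    have h6 : ∑ q ∈ N.primeFactors.erase p, (Sq N q).factorization p ≤ N.factorization p := by
      rw [← h5]
      exact sum_le_sum_of_subset (erase_subset _ _)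
    have h7 : ∑ q ∈ N.primeFactors.erase p, ((Sq N q).factorization p : ℝ) ≤
        (N.factorization p : ℝ) := by exact_mod_cast h6
    exact mul_le_mul_of_nonneg_right h7 (log_nonneg (by linarith))
  linarith
-- END F6

-- BEGIN F7
private lemma f7_one (x z : ℝ) (hx : 1 ≤ x) (hz : 1 ≤ z) (a b : ℕ) : 1 ≤ x ^ a * z ^ b :=
  one_le_mul_of_one_le_of_one_le (one_le_pow₀ hx) (one_le_pow₀ hz)

private lemma f7_real1 (x z T G K : ℝ) (hx : 1 ≤ x) (hz : 1 ≤ z) (hG : 0 ≤ G)
    (hK : 0 ≤ K) : (T * z * x + 2) * (K * z) + G * z ≤ ((T + 2) * K + G) * (x * z ^ 2) := by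
  have h1 : z ≤ x * z ^ 2 := by
    have h2 := f7_one x z hx hz 1 1
    have h3 := mul_le_mul_of_nonneg_left h2 (by linarith : (0 : ℝ) ≤ z)
    have h4 : z * (x ^ 1 * z ^ 1) = x * z ^ 2 := by ring
    rw [h4, mul_one] at h3
    exact h3
  have h5 : 2 * K * z ≤ 2 * K * (x * z ^ 2) := mul_le_mul_of_nonneg_left h1 (by positivity)
  have h6 : G * z ≤ G * (x * z ^ 2) := mul_le_mul_of_nonneg_left h1 hG
  have h7 : (T * z * x + 2) * (K * z) + G * z = T * K * (x * z ^ 2) + 2 * K * z + G * z := by ring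
  have h8 : ((T + 2) * K + G) * (x * z ^ 2) =
      T * K * (x * z ^ 2) + 2 * K * (x * z ^ 2) + G * (x * z ^ 2) := by ring
  rw [h7, h8]
  linarith

private lemma f7_real2 (x z T G K B : ℝ) (hx : 1 ≤ x) (hz : 1 ≤ z) (hG : 0 ≤ G)
    (hK : 0 ≤ K) :
    2 + 2 * (G * z) + 8 * (T * z) ^ 2 * x * (K * z + B * (x * z ^ 2) + 1) ≤
      (2 + 2 * G + 8 * T ^ 2 * (K + B + 1)) * (x ^ 2 * z ^ 4) := by
  have hz0 : 0 ≤ z := by linarith
  have hx0 : 0 ≤ x := by linarith
  have m1 : 1 ≤ x ^ 2 * z ^ 4 := f7_one x z hx hz 2 4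
  have m2 : z ≤ x ^ 2 * z ^ 4 := by
    have h3 := mul_le_mul_of_nonneg_left (f7_one x z hx hz 2 3) hz0
    have h4 : z * (x ^ 2 * z ^ 3) = x ^ 2 * z ^ 4 := by ring
    rw [h4, mul_one] at h3
    exact h3
  have m3 : x * z ^ 3 ≤ x ^ 2 * z ^ 4 := by
    have h3 := mul_le_mul_of_nonneg_left (f7_one x z hx hz 1 1)
      (by positivity : (0 : ℝ) ≤ x * z ^ 3)
    have h4 : x * z ^ 3 * (x ^ 1 * z ^ 1) = x ^ 2 * z ^ 4 := by ring
    rw [h4, mul_one] at h3
    exact h3
  have m4 : x * z ^ 2 ≤ x ^ 2 * z ^ 4 := by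
    have h3 := mul_le_mul_of_nonneg_left (f7_one x z hx hz 1 2)
      (by positivity : (0 : ℝ) ≤ x * z ^ 2)
    have h4 : x * z ^ 2 * (x ^ 1 * z ^ 2) = x ^ 2 * z ^ 4 := by ring
    rw [h4, mul_one] at h3
    exact h3
  have n2 := mul_le_mul_of_nonneg_left m2 (by positivity : (0 : ℝ) ≤ 2 * G)
  have n3 := mul_le_mul_of_nonneg_left m3 (by positivity : (0 : ℝ) ≤ 8 * T ^ 2 * K)
  have n4 := mul_le_mul_of_nonneg_left m4 (by positivity : (0 : ℝ) ≤ 8 * T ^ 2)
  have e1 : 2 + 2 * (G * z) + 8 * (T * z) ^ 2 * x * (K * z + B * (x * z ^ 2) + 1) =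
      2 + 2 * G * z + 8 * T ^ 2 * K * (x * z ^ 3) + 8 * T ^ 2 * B * (x ^ 2 * z ^ 4) +
        8 * T ^ 2 * (x * z ^ 2) := by ring
  have e2 : (2 + 2 * G + 8 * T ^ 2 * (K + B + 1)) * (x ^ 2 * z ^ 4) =
      2 * (x ^ 2 * z ^ 4) + 2 * G * (x ^ 2 * z ^ 4) + 8 * T ^ 2 * K * (x ^ 2 * z ^ 4) +
        8 * T ^ 2 * B * (x ^ 2 * z ^ 4) + 8 * T ^ 2 * (x ^ 2 * z ^ 4) := by ring
  rw [e1, e2]
  linarith

private lemma f7_mass_le (N q : ℕ) (hodd : Odd N) (hN : Nat.Perfect N)
    (hq : q ∈ N.primeFactors) : (nn N q : ℝ) ≤ 1 + log (N : ℝ) := by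
  have h3 : ∀ r ∈ N.primeFactors, 1 ≤ log (r : ℝ) := fun r hr =>
    d15_log3 (d15_three_le hodd hr)
  have h4 : mass N q ≤ log (N : ℝ) := by
    rw [log_eq_sum N hN.2.ne']
    exact single_le_sum (f := fun r => mass N r)
      (fun r hr => mul_nonneg (Nat.cast_nonneg _) (by linarith [h3 r hr])) hq
  have h5 : (N.factorization q : ℝ) ≤ mass N q :=
    le_mul_of_one_le_right (Nat.cast_nonneg _) (h3 q hq)
  have h6 : (nn N q : ℝ) = (N.factorization q : ℝ) + 1 := by push_cast; ring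
  linarith

/-- F7. at most one prime exceeds `y`: `log N ≤ C y^(2+ε)`.  If none does: `part_a` with exponent `3/2 + ε`.  Otherwise
`p > y` and the others are `≤ y`.  `part_b 1`: `log N ≤ C1 y^C1`, so all `nn N q ≤ 1 + log N ≤ C2 y^C2`
(`e log q ≤ log N`, `log q ≥ 1`: `d15_log3`, `d15_three_le`), `tau_bound` with `η = ε/(8 C2)`: `τ(nn N q) ≤ C3 y^(ε/8)`;
`log (nn N q) ≤ C log y + C`; F1: `log (cc N p q) ≤ B := C y^(1+ε/4)` for `q ≠ p` (`log q ≤ log y`);
F5: `mass N p ≤ C y^(2+3ε/4)`; F6 with at most `y` primes `q ≠ p`. -/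
theorem part_c (ε : ℝ) (hε : 0 < ε) : ∃ C : ℝ, ∀ N y : ℕ, Odd N → Nat.Perfect N → 2 ≤ y →
    (N.primeFactors.filter (y < ·)).card ≤ 1 → log N ≤ C * (y : ℝ) ^ (2 + ε) := by
  obtain ⟨Ca, hCa⟩ := part_a ε hε
  obtain ⟨M, hM⟩ := part_b 1
  have hη : 0 < ε / (8 * ((M : ℝ) + 1)) := by positivity
  obtain ⟨T, hT1, hT⟩ := tau_bound (ε / (8 * ((M : ℝ) + 1))) hη
  set η : ℝ := ε / (8 * ((M : ℝ) + 1)) with hηd
  have hM0 : (0 : ℝ) ≤ M := Nat.cast_nonneg M
  obtain ⟨A, hA⟩ : ∃ A : ℝ, A = 1 + (M : ℝ) := ⟨_, rfl⟩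
  have hA1 : 1 ≤ A := by rw [hA]; linarith
  obtain ⟨T', hT'⟩ : ∃ T' : ℝ, T' = T * A ^ η := ⟨_, rfl⟩
  have hT'0 : 0 ≤ T' := by rw [hT']; positivity
  obtain ⟨K, hK⟩ : ∃ K : ℝ, K = 8 / ε := ⟨_, rfl⟩
  have hK0 : 0 ≤ K := by rw [hK]; positivity
  obtain ⟨G, hG⟩ : ∃ G : ℝ, G = log A + M * K := ⟨_, rfl⟩
  have hG0 : 0 ≤ G := by
    rw [hG]
    have := log_nonneg hA1
    positivity
  obtain ⟨B0, hB0⟩ : ∃ B0 : ℝ, B0 = (T' + 2) * K + G := ⟨_, rfl⟩
  have hB00 : 0 ≤ B0 := by rw [hB0]; positivity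
  obtain ⟨C2, hC2⟩ : ∃ C2 : ℝ, C2 = 2 + 2 * G + 8 * T' ^ 2 * (K + B0 + 1) := ⟨_, rfl⟩
  have hC20 : 0 ≤ C2 := by rw [hC2]; positivity
  refine ⟨|Ca| + (2 * C2 + 1 + B0), ?_⟩
  intro N y hodd hN hy hcard
  have hx2 : (2 : ℝ) ≤ y := by exact_mod_cast hy
  have hx1 : (1 : ℝ) ≤ y := by linarith
  have hx0 : (0 : ℝ) < y := by linarith
  have hxp : 0 ≤ (y : ℝ) ^ (2 + ε) := by positivity
  rcases Nat.eq_zero_or_pos (N.primeFactors.filter (y < ·)).card with h0 | h0
  · -- no prime exceeds `y`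
    have h1 : ∀ p ∈ N.primeFactors, p ≤ y := by
      intro p hp
      by_contra hlt
      push Not at hlt
      have h2 : p ∈ N.primeFactors.filter (y < ·) := mem_filter.2 ⟨hp, hlt⟩
      rw [Finset.card_eq_zero.mp h0] at h2
      simp at h2
    have h2 := hCa N y hodd hN h1
    have h3 : (y : ℝ) ^ (3 / 2 + ε) ≤ (y : ℝ) ^ (2 + ε) :=
      rpow_le_rpow_of_exponent_le hx1 (by linarith)
    have h4 : Ca * (y : ℝ) ^ (3 / 2 + ε) ≤ |Ca| * (y : ℝ) ^ (2 + ε) :=
      mul_le_mul (le_abs_self Ca) h3 (by positivity) (abs_nonneg Ca)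
    have h5 : 0 ≤ (2 * C2 + 1 + B0) * (y : ℝ) ^ (2 + ε) := by positivity
    have h6 : (|Ca| + (2 * C2 + 1 + B0)) * (y : ℝ) ^ (2 + ε) =
        |Ca| * (y : ℝ) ^ (2 + ε) + (2 * C2 + 1 + B0) * (y : ℝ) ^ (2 + ε) := by ring
    rw [h6]
    linarith
  · -- exactly one prime exceeds `y`
    obtain ⟨p, hp⟩ := Finset.card_eq_one.mp (le_antisymm hcard h0)
    have hpm : p ∈ N.primeFactors.filter (y < ·) := by rw [hp]; exact mem_singleton_self p
    have hpN : p ∈ N.primeFactors := (mem_filter.1 hpm).1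
    have hyp : y < p := (mem_filter.1 hpm).2
    have hpy : ∀ r ∈ N.primeFactors, r ≠ p → r ≤ y := by
      intro r hr hrp
      by_contra hlt
      push Not at hlt
      have h2 : r ∈ N.primeFactors.filter (y < ·) := mem_filter.2 ⟨hr, hlt⟩
      rw [hp, mem_singleton] at h2
      exact hrp h2
    have hb := hM N y hodd hN hy hcard
    -- the quantity `z = y^(ε/8)`
    obtain ⟨z, hz⟩ : ∃ z : ℝ, z = (y : ℝ) ^ (ε / 8) := ⟨_, rfl⟩
    have hz1 : 1 ≤ z := by rw [hz]; exact one_le_rpow hx1 (by positivity)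
    have hlogx : log (y : ℝ) ≤ K * z := by
      have h1 := log_le_rpow_div hx0.le (by positivity : 0 < ε / 8)
      rw [hK, hz]
      refine h1.trans (le_of_eq ?_)
      field_simp
    have hlogx0 : 0 ≤ log (y : ℝ) := log_nonneg hx1
    -- bounds for `nn`
    have hnn : ∀ q ∈ N.primeFactors, (nn N q : ℝ) ≤ A * (y : ℝ) ^ M := by
      intro q hq
      have h1 := f7_mass_le N q hodd hN hq
      have h2 : (1 : ℝ) ≤ (y : ℝ) ^ M := one_le_pow₀ hx1
      rw [hA]
      have h3 : (1 + (M : ℝ)) * (y : ℝ) ^ M = (y : ℝ) ^ M + M * (y : ℝ) ^ M := by ring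
      rw [h3]
      linarith
    have hnn1 : ∀ q, (1 : ℝ) ≤ (nn N q : ℝ) := fun q => by
      have h6 : (nn N q : ℝ) = (N.factorization q : ℝ) + 1 := by push_cast; ring
      rw [h6]
      have : (0 : ℝ) ≤ (N.factorization q : ℝ) := Nat.cast_nonneg _
      linarith
    have hlognn : ∀ q ∈ N.primeFactors, log (nn N q : ℝ) ≤ G * z := by
      intro q hq
      have h1 : log (nn N q : ℝ) ≤ log (A * (y : ℝ) ^ M) :=
        log_le_log (by linarith [hnn1 q]) (hnn q hq)
      rw [log_mul (by linarith) (by positivity), log_pow] at h1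
      have h2 : (M : ℝ) * log y ≤ M * (K * z) := mul_le_mul_of_nonneg_left hlogx hM0
      have h3 : log A ≤ log A * z := le_mul_of_one_le_right (log_nonneg hA1) hz1
      rw [hG]
      have h4 : (log A + M * K) * z = log A * z + M * (K * z) := by ring
      rw [h4]
      linarith
    have htau : ∀ q ∈ N.primeFactors, ((nn N q).divisors.card : ℝ) ≤ T' * z := by
      intro q hq
      have h1 := hT (nn N q) (Nat.succ_pos _)
      have h2 : (nn N q : ℝ) ^ η ≤ (A * (y : ℝ) ^ M) ^ η :=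
        rpow_le_rpow (by linarith [hnn1 q]) (hnn q hq) hη.le
      have h3 : (A * (y : ℝ) ^ M) ^ η = A ^ η * (y : ℝ) ^ (M * η) := by
        rw [mul_rpow (by linarith) (by positivity), ← rpow_natCast, ← rpow_mul hx0.le]
      have h4 : (y : ℝ) ^ (M * η) ≤ z := by
        rw [hz]
        refine rpow_le_rpow_of_exponent_le hx1 ?_
        rw [hηd, mul_div_assoc', div_le_div_iff₀ (by positivity) (by norm_num)]
        nlinarith
      calc ((nn N q).divisors.card : ℝ) ≤ T * (nn N q : ℝ) ^ η := h1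
        _ ≤ T * (A ^ η * z) := by
            refine mul_le_mul_of_nonneg_left ?_ (by linarith)
            rw [h3] at h2
            exact h2.trans (mul_le_mul_of_nonneg_left h4 (by positivity))
        _ = T' * z := by rw [hT']; ring
    -- F1
    have hcc : ∀ q ∈ N.primeFactors, q ≠ p → log (cc N p q : ℝ) ≤ B0 * (y * z ^ 2) := by
      intro q hq hqp
      have h1 := log_cc_le N y p q hodd hN hy hpN hyp hpy hq
      have hq3 := d15_three_le hodd hq
      have hlq0 : 0 ≤ log (q : ℝ) := log_nonneg (by linarith)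
      have hlq : log (q : ℝ) ≤ K * z :=
        (log_le_log (by linarith) (by exact_mod_cast hpy q hq hqp)).trans hlogx
      have h2 : ((nn N q).divisors.card : ℝ) * y + 2 ≤ T' * z * y + 2 := by
        have := mul_le_mul_of_nonneg_right (htau q hq) hx0.le
        linarith
      have h3 : (((nn N q).divisors.card : ℝ) * y + 2) * log q ≤ (T' * z * y + 2) * (K * z) :=
        mul_le_mul h2 hlq hlq0 (by positivity)
      have h4 := f7_real1 y z T' G K hx1 hz1 hG0 hK0
      rw [← hB0] at h4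
      have h5 := hlognn q hq
      linarith
    -- F5
    have hmass : mass N p ≤ C2 * ((y : ℝ) ^ 2 * z ^ 4) := by
      have h1 := large_mass N y p (B0 * (y * z ^ 2)) hodd hN hy hpN hyp hpy (by positivity) hcc
      have h2 := hlognn p hpN
      have h3 : ((nn N p).divisors.card : ℝ) ^ 2 ≤ (T' * z) ^ 2 :=
        pow_le_pow_left₀ (Nat.cast_nonneg _) (htau p hpN) 2
      have h4 : 8 * ((nn N p).divisors.card : ℝ) ^ 2 * y *
          (log y + B0 * (y * z ^ 2) + 1) ≤
          8 * (T' * z) ^ 2 * y * (K * z + B0 * (y * z ^ 2) + 1) := by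
        refine mul_le_mul ?_ (by linarith) (by positivity) (by positivity)
        exact mul_le_mul_of_nonneg_right (by linarith) hx0.le
      have h5 := f7_real2 y z T' G K B0 hx1 hz1 hG0 hK0
      rw [← hC2] at h5
      linarith
    -- F6
    have hfin := log_N_le N p hodd hN hpN
    have hcard2 : ((N.primeFactors.erase p).card : ℝ) ≤ y := by
      have h1 : N.primeFactors.erase p ⊆ Finset.Icc 1 y := by
        intro q hq
        rw [Finset.mem_Icc]
        have hq' := mem_erase.1 hq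
        exact ⟨(Nat.prime_of_mem_primeFactors hq'.2).one_lt.le, hpy q hq'.2 hq'.1⟩
      have h2 := Finset.card_le_card h1
      rw [Nat.card_Icc] at h2
      exact_mod_cast (by omega : (N.primeFactors.erase p).card ≤ y)
    have hsum : ∑ q ∈ N.primeFactors.erase p, log (cc N p q : ℝ) ≤
        y * (B0 * (y * z ^ 2)) := by
      have h1 : ∑ q ∈ N.primeFactors.erase p, log (cc N p q : ℝ) ≤
          ∑ _q ∈ N.primeFactors.erase p, B0 * (y * z ^ 2) :=
        sum_le_sum fun q hq => hcc q (mem_of_mem_erase hq) (ne_of_mem_erase hq)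
      rw [sum_const, nsmul_eq_mul] at h1
      exact h1.trans (mul_le_mul_of_nonneg_right hcard2 (by positivity))
    have hw : (y : ℝ) ^ 2 * z ^ 4 ≤ (y : ℝ) ^ (2 + ε) := by
      have h1 : z ^ 4 = (y : ℝ) ^ (ε / 2) := by
        rw [hz, ← rpow_natCast, ← rpow_mul hx0.le]
        congr 1
        push_cast
        ring
      have h2 : (y : ℝ) ^ 2 = (y : ℝ) ^ (2 : ℝ) := by
        rw [← rpow_natCast]
        norm_num
      rw [h1, h2, ← rpow_add hx0]
      exact rpow_le_rpow_of_exponent_le hx1 (by linarith)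
    have m1 := f7_one (y : ℝ) z hx1 hz1 2 4
    have m2 : (y : ℝ) * (B0 * (y * z ^ 2)) ≤ B0 * ((y : ℝ) ^ 2 * z ^ 4) := by
      have h3 := mul_le_mul_of_nonneg_left (f7_one (y : ℝ) z hx1 hz1 0 2)
        (by positivity : (0 : ℝ) ≤ B0 * ((y : ℝ) ^ 2 * z ^ 2))
      have h4 : B0 * ((y : ℝ) ^ 2 * z ^ 2) * ((y : ℝ) ^ 0 * z ^ 2) =
          B0 * ((y : ℝ) ^ 2 * z ^ 4) := by ring
      rw [h4, mul_one] at h3
      refine le_trans (le_of_eq ?_) h3
      ring
    have h7 : log (N : ℝ) ≤ (2 * C2 + 1 + B0) * ((y : ℝ) ^ 2 * z ^ 4) := by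
      have h8 : (2 * C2 + 1 + B0) * ((y : ℝ) ^ 2 * z ^ 4) =
          2 * (C2 * ((y : ℝ) ^ 2 * z ^ 4)) + (y : ℝ) ^ 2 * z ^ 4 +
            B0 * ((y : ℝ) ^ 2 * z ^ 4) := by ring
      rw [h8]
      linarith
    have h9 : (2 * C2 + 1 + B0) * ((y : ℝ) ^ 2 * z ^ 4) ≤ (2 * C2 + 1 + B0) * (y : ℝ) ^ (2 + ε) :=
      mul_le_mul_of_nonneg_left hw (by positivity)
    have h10 : 0 ≤ |Ca| * (y : ℝ) ^ (2 + ε) := by positivity
    have h6 : (|Ca| + (2 * C2 + 1 + B0)) * (y : ℝ) ^ (2 + ε) =
        |Ca| * (y : ℝ) ^ (2 + ε) + (2 * C2 + 1 + B0) * (y : ℝ) ^ (2 + ε) := by ring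
    rw [h6]
    linarith
-- END F7

/-- all parts together -/
theorem all_parts (j : ℕ) (ε : ℝ) (hε : 0 < ε) : ∃ C K : ℝ,
    (j = 0 → K = 3 / 2 + ε) ∧ (j = 1 → K = 2 + ε) ∧ (2 ≤ j → K = (8 * j + 10) ^ (j + 1)) ∧
    ∀ N y : ℕ, Odd N → Nat.Perfect N → 2 ≤ y → (N.primeFactors.filter (y < ·)).card ≤ j →
      log N ≤ C * (y : ℝ) ^ K := by
  rcases Nat.lt_or_ge j 1 with h0 | h1
  · have hj : j = 0 := by omega
    obtain ⟨C, hC⟩ := part_a ε hε
    refine ⟨C, 3 / 2 + ε, fun _ => rfl, fun h => absurd h (by omega),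
      fun h => absurd h (by omega), ?_⟩
    intro N y hodd hN hy hcard
    refine hC N y hodd hN ?_
    intro p hp
    by_contra hlt
    push Not at hlt
    have : p ∈ N.primeFactors.filter (y < ·) := mem_filter.2 ⟨hp, hlt⟩
    have := card_pos.2 ⟨p, this⟩
    omega
  · rcases Nat.lt_or_ge 1 j with h2 | h2
    · obtain ⟨C, hC⟩ := part_b_exp j
      refine ⟨C, (8 * j + 10) ^ (j + 1), fun h => absurd h (by omega),
        fun h => absurd h (by omega), fun _ => rfl, ?_⟩
      intro N y hodd hN hy hcard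
      have h3 := hC N y hodd hN hy hcard
      have h4 : ((8 : ℝ) * j + 10) ^ (j + 1) = (((8 * j + 10) ^ (j + 1) : ℕ) : ℝ) := by
        push_cast; ring
      rw [h4, rpow_natCast]
      exact h3
    · have hj : j = 1 := by omega
      subst hj
      obtain ⟨C, hC⟩ := part_c ε hε
      exact ⟨C, 2 + ε, fun h => absurd h (by omega), fun _ => rfl,
        fun h => absurd h (by omega), hC⟩

end Pool.Agent.Lib.MP_f02ea4_nt.Sm
end
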