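import Mathlib
import Pool.Agent.Lib.MP_f02ea4_nt.Mg.G019

section

/-! At most one large prime, part S: flows between the light small primes and the few other primes. -/

set_option autoImplicit false

namespace Pool.Agent.Lib.MP_f02ea4_nt.Ml

open Finset Real Sm

lemma s_prime {N q : ℕ} (hq : q ∈ N.primeFactors) : q.Prime := Nat.prime_of_mem_primeFactors hq

lemma s_ne_two {N q : ℕ} (hodd : Odd N) (hq : q ∈ N.primeFactors) : q ≠ 2 := by
  rintro rfl
  exact (Nat.not_even_iff_odd.2 hodd) (even_iff_two_dvd.2 (Nat.dvd_of_mem_primeFactors hq))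

lemma s_aa_nonneg (N q r : ℕ) : 0 ≤ aa N q r :=
  mul_nonneg (Nat.cast_nonneg _) (log_natCast_nonneg r)

lemma s_mass_nonneg (N q : ℕ) : 0 ≤ mass N q :=
  mul_nonneg (Nat.cast_nonneg _) (log_natCast_nonneg q)

lemma s_sg {N q : ℕ} (hq : q ∈ N.primeFactors) : q ^ nn N q - 1 = (q - 1) * Sq N q := by
  have := Sb.sg_pow (s_prime hq) (N.factorization q)
  unfold nn Sq
  omega

/-- a single flow is at most the mass of the receiving prime -/
lemma s_aa_le_mass (N q r : ℕ) (hodd : Odd N) (hN : Nat.Perfect N) (hq : q ∈ N.primeFactors)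
    (hr : r ∈ N.primeFactors) : aa N q r ≤ mass N r := by
  rw [← col_sum N r hodd hN hr]
  exact single_le_sum (f := fun q => aa N q r) (fun q _ => s_aa_nonneg N q r) hq

/-- a single flow is at most the mass of the sending prime plus one -/
lemma s_aa_le_mass' (N q r : ℕ) (hN : Nat.Perfect N) (hq : q ∈ N.primeFactors)
    (hr : r ∈ N.primeFactors) : aa N q r ≤ mass N q + 1 :=
  (single_le_sum (f := fun r => aa N q r) (fun r _ => s_aa_nonneg N q r) hr).trans
    (row_sum N q hN hq)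

-- S1
/-- the analytic part of the Baker step, `log n ≤ A l` -/
lemma s_d13_real (C0 A : ℕ) (hC0 : 1 ≤ C0) (n l W ms aav lq : ℝ) (hl : 1 ≤ l) (hn1 : 1 ≤ n)
    (hn : log n ≤ A * l)
    (hb : n ≤ C0 * (l * (1 + log n)) ^ C0 * (1 + log W)) (hW : 0 ≤ log W)
    (hms0 : 0 ≤ ms) (hms : ms ≤ n * l) (hnq : n * lq = ms + lq) (hlq : lq ≤ l)
    (haa : aav ≤ n * lq - log W) :
    aav ≤ (1 - 1 / (((C0 * (A + 1) ^ C0 + (2 * C0 + 1) : ℕ) : ℝ) *
        l ^ (C0 * (A + 1) ^ C0 + (2 * C0 + 1)))) * ms + (l + 1) := by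
  have hl0 : 0 < l := by linarith
  have hC0' : (1 : ℝ) ≤ C0 := by exact_mod_cast hC0
  have hlogn : 0 ≤ log n := log_nonneg hn1
  have hA0 : (0 : ℝ) ≤ A := Nat.cast_nonneg A
  set D : ℝ := C0 * ((A + 1) * l ^ 2) ^ C0 with hD
  have hDpos : 0 < D := by positivity
  have h1 : l * (1 + log n) ≤ (A + 1) * l ^ 2 := by nlinarith
  have h2 : (l * (1 + log n)) ^ C0 ≤ ((A + 1) * l ^ 2) ^ C0 := pow_le_pow_left₀ (by positivity) h1 _
  have h3 : n ≤ D * (1 + log W) := by
    refine hb.trans ?_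
    rw [hD]
    exact mul_le_mul_of_nonneg_right (mul_le_mul_of_nonneg_left h2 (by positivity))
      (by linarith)
  have h4 : n / D ≤ 1 + log W := by
    rw [div_le_iff₀ hDpos]
    linarith
  set E : ℕ := C0 * (A + 1) ^ C0 + (2 * C0 + 1) with hE
  have hE1 : (C0 : ℝ) * (A + 1) ^ C0 ≤ (E : ℝ) := by
    rw [hE]
    push_cast
    have : (0 : ℝ) ≤ 2 * C0 + 1 := by positivity
    linarith
  have hEpos : (0 : ℝ) < E := by
    have : (0 : ℝ) < (C0 : ℝ) * (A + 1) ^ C0 := by positivity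
    linarith
  have hpow : l ^ (2 * C0 + 1) ≤ l ^ E := pow_le_pow_right₀ hl (by omega)
  have h5 : D * l ≤ (E : ℝ) * l ^ E := by
    have e1 : D * l = (C0 * (A + 1) ^ C0) * l ^ (2 * C0 + 1) := by
      rw [hD, mul_pow, ← pow_mul, pow_succ]
      ring
    rw [e1]
    exact mul_le_mul hE1 hpow (by positivity) hEpos.le
  have h6 : ms / ((E : ℝ) * l ^ E) ≤ n / D := by
    calc ms / ((E : ℝ) * l ^ E) ≤ ms / (D * l) :=
          div_le_div_of_nonneg_left hms0 (by positivity) h5
      _ ≤ (n * l) / (D * l) := div_le_div_of_nonneg_right hms (by positivity)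
      _ = n / D := by field_simp
  have e2 : (1 - 1 / ((E : ℝ) * l ^ E)) * ms = ms - ms / ((E : ℝ) * l ^ E) := by ring
  rw [e2]
  linarith

/-- S1. one prime `r ≤ P` takes at most a proportion `1 - δ` of `σ(q^e)`, `q ≤ P`, `n_q ≤ P^A` -/
theorem s_baker_step (A : ℕ) : ∃ C : ℕ, 1 ≤ C ∧ ∀ (N P q r : ℕ), Odd N → Nat.Perfect N →
    q ∈ N.primeFactors → r ∈ N.primeFactors → q ≤ P → r ≤ P → nn N q ≤ P ^ A →
      aa N q r ≤ (1 - 1 / (C * (log P) ^ C)) * mass N q + (log P + 1) := by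
  obtain ⟨C0, hC0, hbaker⟩ := baker 1
  refine ⟨C0 * (A + 1) ^ C0 + (2 * C0 + 1), by omega, ?_⟩
  intro N P q r hodd hN hq hr hqP hrP hnA
  have hqp : q.Prime := Nat.prime_of_mem_primeFactors hq
  have hrp : r.Prime := Nat.prime_of_mem_primeFactors hr
  have hq2 : q ≠ 2 := s_ne_two hodd hq
  have hr2 : r ≠ 2 := s_ne_two hodd hr
  have hq3 : 3 ≤ q := by have := hqp.two_le; omega
  have hP3 : 3 ≤ P := hq3.trans hqP
  have hPpos : (0 : ℝ) < P := by exact_mod_cast (by omega : 0 < P)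
  have hl1 : 1 ≤ log (P : ℝ) := by
    rw [le_log_iff_exp_le hPpos]
    have h1 : exp 1 < 3 := by
      have := exp_one_lt_d9
      linarith
    have h2 : (3 : ℝ) ≤ P := by exact_mod_cast hP3
    linarith
  have hqpos : (0 : ℝ) < q := by exact_mod_cast hqp.pos
  have hrpos : (0 : ℝ) < r := by exact_mod_cast hrp.pos
  have hlqP : log (q : ℝ) ≤ log P := log_le_log hqpos (by exact_mod_cast hqP)
  have hlrP : log (r : ℝ) ≤ log P := log_le_log hrpos (by exact_mod_cast hrP)
  have hlq0 : 0 ≤ log (q : ℝ) := log_natCast_nonneg q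
  have hlr0 : 0 ≤ log (r : ℝ) := log_natCast_nonneg r
  set e : ℕ := N.factorization q with he
  have hnn : nn N q = e + 1 := rfl
  have hmass0 : 0 ≤ mass N q := by unfold mass; positivity
  have hSpos : 0 < Sq N q := Sb.sg_pos (pow_pos hqp.pos _)
  have hn1 : (1 : ℝ) ≤ ((e + 1 : ℕ) : ℝ) := by push_cast; linarith [(Nat.cast_nonneg e : (0:ℝ) ≤ e)]
  have hnP : log ((e + 1 : ℕ) : ℝ) ≤ A * log P := by
    rw [hnn] at hnA
    have h2 : ((e + 1 : ℕ) : ℝ) ≤ (P : ℝ) ^ A := by exact_mod_cast hnA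
    calc log ((e + 1 : ℕ) : ℝ) ≤ log ((P : ℝ) ^ A) := log_le_log (by linarith) h2
      _ = A * log P := by rw [log_pow]
  have hmsn : mass N q ≤ ((e + 1 : ℕ) : ℝ) * log P := by
    unfold mass
    rw [← he]
    push_cast
    have : (e : ℝ) * log q ≤ e * log P := mul_le_mul_of_nonneg_left hlqP (Nat.cast_nonneg _)
    linarith
  have hnq : ((e + 1 : ℕ) : ℝ) * log q = mass N q + log q := by
    unfold mass
    rw [← he]
    push_cast
    ring
  by_cases hqr : r = q
  · have h0 : aa N q r = 0 := by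
      unfold aa
      have h1 : ¬ q ∣ Sq N q := (Nat.Prime.coprime_iff_not_dvd hqp).mp (Sb.coprime_sg_pow hqp _)
      rw [hqr, Nat.factorization_eq_zero_of_not_dvd h1]
      simp
    rw [h0]
    have h1 : (1 : ℝ) ≤ ((C0 * (A + 1) ^ C0 + (2 * C0 + 1) : ℕ) : ℝ) *
        log (P : ℝ) ^ (C0 * (A + 1) ^ C0 + (2 * C0 + 1)) := by
      have a1 : (1 : ℝ) ≤ ((C0 * (A + 1) ^ C0 + (2 * C0 + 1) : ℕ) : ℝ) := by
        exact_mod_cast (by omega : 1 ≤ C0 * (A + 1) ^ C0 + (2 * C0 + 1))
      have a2 : (1 : ℝ) ≤ log (P : ℝ) ^ (C0 * (A + 1) ^ C0 + (2 * C0 + 1)) := one_le_pow₀ hl1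
      nlinarith
    have h2 : 0 ≤ 1 - 1 / (((C0 * (A + 1) ^ C0 + (2 * C0 + 1) : ℕ) : ℝ) *
        log (P : ℝ) ^ (C0 * (A + 1) ^ C0 + (2 * C0 + 1))) := by
      rw [sub_nonneg, div_le_one (by linarith)]
      exact h1
    have h3 := mul_nonneg h2 hmass0
    linarith
  · set T : ℕ := q ^ (e + 1) - 1 with hT
    have hqn : 1 < q ^ (e + 1) := Nat.one_lt_pow (by omega) hqp.one_lt
    have hTpos : 0 < T := by omega
    have hTq : q ^ (e + 1) = 1 + T := by omega
    have hTS : T = (q - 1) * Sq N q := by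
      have := Sb.sg_pow hqp e
      have h2 : Sq N q = Sb.sg (q ^ e) := rfl
      rw [h2]
      omega
    set a : ℕ := T.factorization r with ha
    set W : ℕ := T / r ^ a with hW
    have hdiv : r ^ a ∣ T := Nat.ordProj_dvd T r
    have hTW : T = W * r ^ a := by rw [hW, Nat.div_mul_cancel hdiv]
    have hWpos : 0 < W := Nat.pos_of_ne_zero fun h => by rw [h, zero_mul] at hTW; omega
    have hrW : ¬ r ∣ W := Nat.not_dvd_ordCompl hrp hTpos.ne'
    have hTeven : 2 ∣ T := by
      have hqodd : Odd q := hqp.odd_of_ne_two hq2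
      have h1 : Odd (q ^ (e + 1)) := hqodd.pow
      rw [hTq] at h1
      obtain ⟨k, hk⟩ := h1
      exact ⟨k, by omega⟩
    have hW2 : 2 ≤ W := by
      have h1 : 2 ∣ W * r ^ a := hTW ▸ hTeven
      rcases (Nat.Prime.dvd_mul Nat.prime_two).mp h1 with h2 | h2
      · exact Nat.le_of_dvd hWpos h2
      · exact absurd ((Nat.prime_dvd_prime_iff_eq Nat.prime_two hrp).mp
          (Nat.prime_two.dvd_of_dvd_pow h2)).symm hr2
    have hcop : Nat.Coprime q W := by
      rw [Nat.Prime.coprime_iff_not_dvd hqp]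
      intro h1
      have h2 : q ∣ T := hTW ▸ Dvd.dvd.mul_right h1 _
      have h3 : q ∣ 1 + T := hTq ▸ dvd_pow_self q (by omega)
      have h4 : q ∣ 1 := (Nat.dvd_add_left h2).mp h3
      exact hqp.one_lt.ne' (Nat.dvd_one.mp h4)
    have hb := hbaker q W (e + 1) {r} (fun _ => a) (log P) (by simp)
      (by simpa using hrp)
      (by
        intro x hx
        rw [mem_singleton] at hx
        rw [hx]
        exact fun h => hqr ((Nat.prime_dvd_prime_iff_eq hrp hqp).mp h))
      (by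
        intro x hx
        rw [mem_singleton] at hx
        rw [hx]
        exact hrW)
      (by omega) hW2 (by omega) hcop
      (by rw [prod_singleton, ← hTW, hTq]) hl1 hlqP
      (by
        intro x hx
        rw [mem_singleton] at hx
        rw [hx]
        exact hlrP)
    have hWr : (0 : ℝ) < W := by exact_mod_cast hWpos
    have hTr : (0 : ℝ) < T := by exact_mod_cast hTpos
    have haa : aa N q r ≤ ((e + 1 : ℕ) : ℝ) * log q - log W := by
      have h1 : (Sq N q).factorization r ≤ a := by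
        rw [ha, hTS]
        exact (Nat.factorization_le_iff_dvd hSpos.ne' (by rw [← hTS]; exact hTpos.ne')).mpr
          (Dvd.intro_left _ rfl) r
      have h2 : aa N q r ≤ (a : ℝ) * log r := by
        unfold aa
        exact mul_le_mul_of_nonneg_right (by exact_mod_cast h1) hlr0
      have h3 : log (T : ℝ) = log W + a * log r := by
        rw [hTW]
        push_cast
        rw [log_mul hWr.ne' (by positivity), log_pow]
      have h4 : log (T : ℝ) ≤ ((e + 1 : ℕ) : ℝ) * log q := by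
        rw [← log_pow]
        refine log_le_log hTr ?_
        have : T ≤ q ^ (e + 1) := by omega
        exact_mod_cast this
      linarith
    exact s_d13_real C0 A hC0 ((e + 1 : ℕ) : ℝ) (log P) W (mass N q) (aa N q r) (log q) hl1 hn1 hnP hb
      (log_natCast_nonneg W) hmass0 hmsn hnq hlqP haa

-- S2
/-- S2. one column: all but one of the senders `q ∈ V`, `q ≤ P`, send little to `r ≤ P` -/
lemma s_column (η : ℝ) (hη : 0 < η) : ∃ I : ℕ, ∀ (N P r : ℕ) (V : Finset ℕ), V.Nonempty →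
    V ⊆ N.primeFactors → (∀ p ∈ V, p ≤ P) → r.Prime → r ≤ P → ∃ f ∈ V,
      ∑ q ∈ V.erase f, bb N q r ≤
        ((V.filter (fun q => bb N q r ≠ 0)).card : ℝ) * ((P : ℝ) ^ η * log P) +
          I * (√(2 * P) * log P) := by
  classical
  obtain ⟨I, hI⟩ := heavy_count η hη
  refine ⟨I, ?_⟩
  intro N P r V hVne hVN hP hrp hrP
  obtain ⟨f, hf, hmax⟩ := exists_max_image V (fun q => bb N q r) hVne
  refine ⟨f, hf, ?_⟩
  have hlr : 0 < log (r : ℝ) := log_pos (by exact_mod_cast hrp.one_lt)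
  have hlP : 0 ≤ log (P : ℝ) := log_natCast_nonneg P
  set B1 : ℝ := (P : ℝ) ^ η * log P with hB1
  set B2 : ℝ := √(2 * P) * log P with hB2
  have hB1' : 0 ≤ B1 := by positivity
  have hB2' : 0 ≤ B2 := by positivity
  have hval : ∀ q, bb N q r ≠ 0 → bb N q r = ((q ^ (r - 1) - 1).factorization r : ℝ) * log r := by
    intro q hq
    unfold bb at hq ⊢
    split_ifs with h
    · rfl
    · rw [if_neg h] at hq
      exact absurd rfl hq
  set H : Finset ℕ := (V.erase f).filter (fun q => B1 < bb N q r) with hH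
  have hHI : H.card ≤ I := by
    refine hI P r H hrp hrP ?_ ?_
    · intro q hq
      have h1 : q ∈ V := mem_of_mem_erase (mem_filter.mp hq).1
      exact ⟨Nat.prime_of_mem_primeFactors (hVN h1), hP q h1⟩
    · intro q hq
      have h1 : B1 < bb N q r := (mem_filter.mp hq).2
      have h2 : bb N q r ≠ 0 := by
        intro h3
        rw [h3] at h1
        linarith
      rw [← hval q h2]
      exact h1
  have hpt : ∀ q ∈ V.erase f, bb N q r ≤
      (if bb N q r ≠ 0 then B1 else 0) + (if q ∈ H then B2 else 0) := by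
    intro q hq
    have hq1 : q ∈ V := mem_of_mem_erase hq
    have hqf : q ≠ f := ne_of_mem_erase hq
    by_cases h0 : bb N q r = 0
    · rw [h0, if_neg (by simp)]
      split_ifs <;> simp [hB2']
    · by_cases h1 : B1 < bb N q r
      · have hqH : q ∈ H := mem_filter.mpr ⟨hq, h1⟩
        rw [if_pos h0, if_pos hqH]
        have hfmax : bb N q r ≤ bb N f r := hmax q hq1
        have hf0 : bb N f r ≠ 0 := by
          intro h2
          linarith
        have e1 := hval q h0
        have e2 := hval f hf0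
        have hvle : (q ^ (r - 1) - 1).factorization r ≤ (f ^ (r - 1) - 1).factorization r := by
          rw [e1, e2] at hfmax
          exact_mod_cast le_of_mul_le_mul_right hfmax hlr
        have h3 := heavy_second r ((q ^ (r - 1) - 1).factorization r) P q f hrp hrP
          (Nat.prime_of_mem_primeFactors (hVN hq1)) (Nat.prime_of_mem_primeFactors (hVN hf)) hqf (hP q hq1)
          (hP f hf) (Nat.ordProj_dvd _ _)
          ((pow_dvd_pow r hvle).trans (Nat.ordProj_dvd _ _))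
        rw [← e1] at h3
        linarith
      · rw [if_pos h0]
        have : 0 ≤ (if q ∈ H then B2 else 0) := by split_ifs <;> simp [hB2']
        linarith
  refine (sum_le_sum hpt).trans ?_
  rw [sum_add_distrib]
  have s1 : ∑ q ∈ V.erase f, (if bb N q r ≠ 0 then B1 else 0) ≤
      ((V.filter (fun q => bb N q r ≠ 0)).card : ℝ) * B1 := by
    refine (sum_le_sum_of_subset_of_nonneg (erase_subset f _) ?_).trans ?_
    · intro i _ _
      split_ifs <;> simp [hB1']
    · rw [← sum_filter, sum_const, nsmul_eq_mul]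
  have s2 : ∑ q ∈ V.erase f, (if q ∈ H then B2 else 0) ≤ I * B2 := by
    rw [← sum_filter, sum_const, nsmul_eq_mul]
    refine mul_le_mul_of_nonneg_right ?_ hB2'
    have h4 : ((V.erase f).filter (fun q => q ∈ H)).card ≤ H.card :=
      card_le_card fun q hq => (mem_filter.mp hq).2
    exact_mod_cast h4.trans hHI
  exact add_le_add s1 s2

lemma s_logsum (n : ℕ) (V : Finset ℕ) :
    ∑ r ∈ V, (n.factorization r : ℝ) * log r ≤ log n := by
  classical
  rw [Real.log_nat_eq_sum_factorization, Finsupp.sum, Nat.support_factorization]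
  have h1 : ∑ r ∈ V, (n.factorization r : ℝ) * log r =
      ∑ r ∈ V.filter (· ∈ n.primeFactors), (n.factorization r : ℝ) * log r := by
    refine (Finset.sum_filter_of_ne fun r _ hr => ?_).symm
    rw [← Nat.support_factorization, Finsupp.mem_support_iff]
    intro h0
    apply hr
    rw [h0]
    simp
  rw [h1]
  refine Finset.sum_le_sum_of_subset_of_nonneg ?_ ?_
  · intro r hr
    exact (Finset.mem_filter.1 hr).2
  · intro r _ _
    exact mul_nonneg (Nat.cast_nonneg _) (log_natCast_nonneg r)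

lemma s_card (N P q : ℕ) (V : Finset ℕ) (hVN : V ⊆ N.primeFactors) (hP : ∀ p ∈ V, p ≤ P)
    (hq : q ∈ V) :
    ((V.filter (fun r => bb N q r ≠ 0)).card : ℝ) ≤
      ((nn N q).divisors.card : ℝ) * √(P * log P) := by
  classical
  have hqp : q.Prime := Nat.prime_of_mem_primeFactors (hVN hq)
  refine le_trans ?_ (count_order P q (nn N q) hqp.two_le (hP q hq) (by unfold nn; omega))
  refine Nat.cast_le.2 (Finset.card_le_card ?_)
  intro r hr
  obtain ⟨hr1, hr2⟩ := Finset.mem_filter.1 hr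
  have hb : r ∣ Sq N q ∧ ¬ r ∣ q - 1 := by
    by_contra hcon
    apply hr2
    unfold bb
    rw [if_neg hcon]
  refine Finset.mem_filter.2 ⟨Finset.mem_range.2 (by have := hP r hr1; omega),
    Nat.prime_of_mem_primeFactors (hVN hr1), hb.2, ?_⟩
  rw [s_sg (hVN hq)]
  exact Dvd.dvd.mul_left hb.1 _

lemma s_d12_real {η K T I x L : ℝ} (hη : 0 < η) (hK : 1 ≤ K) (hT : 0 ≤ T) (hI : 0 ≤ I)
    (hx : 1 ≤ x) (hL0 : 0 ≤ L) (hL : L ≤ K * x ^ η) :
    x * (T * (x ^ 3) ^ η * √(x * L)) * (x ^ η * L) + x * (I * (√(2 * x) * L)) +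
      x * (3 * L) ≤ (T * K ^ 2 + √2 * I * K + 3 * K) * x ^ (3 / 2 + 6 * η) := by
  have hx0 : 0 < x := by linarith
  set y : ℝ := x ^ η with hy
  have hy1 : 1 ≤ y := one_le_rpow hx hη.le
  set s : ℝ := √x with hs
  have hs1 : 1 ≤ s := Real.one_le_sqrt.2 hx
  have e1 : (x ^ 3) ^ η = y ^ 3 := by
    rw [hy, ← rpow_natCast x 3, ← rpow_natCast (x ^ η) 3, ← rpow_mul hx0.le, ← rpow_mul hx0.le,
      mul_comm]
  have hKy : 1 ≤ K * y := by nlinarith
  have e2 : √(x * L) ≤ s * (K * y) := by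
    rw [Real.sqrt_mul hx0.le]
    refine mul_le_mul_of_nonneg_left ?_ (by positivity)
    refine (Real.sqrt_le_sqrt hL).trans ?_
    rw [Real.sqrt_le_left (by linarith)]
    nlinarith
  have e3 : √(2 * x) = √2 * s := Real.sqrt_mul (by norm_num) x
  have e4 : x ^ (3 / 2 + 6 * η) = x * s * y ^ 6 := by
    rw [rpow_add hx0, hs, Real.sqrt_eq_rpow, hy, ← rpow_natCast (x ^ η) 6, ← rpow_mul hx0.le,
      show (3 / 2 : ℝ) = 1 + 1 / 2 by norm_num, rpow_add hx0, rpow_one]
    congr 2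
    push_cast
    ring
  have hy6 : 1 ≤ y ^ 6 := one_le_pow₀ hy1
  have hy5 : y ≤ y ^ 6 := by
    calc y = y ^ 1 := (pow_one y).symm
      _ ≤ y ^ 6 := pow_le_pow_right₀ hy1 (by norm_num)
  have hsq : 0 ≤ √(2 : ℝ) := Real.sqrt_nonneg 2
  rw [e1, e3, e4]
  have hK0 : 0 ≤ K := by linarith
  have hy0 : 0 ≤ y := by linarith
  have hs0 : 0 ≤ s := by linarith
  have t1 : x * (T * y ^ 3 * √(x * L)) * (y * L) ≤ T * K ^ 2 * (x * s * y ^ 6) := by
    calc x * (T * y ^ 3 * √(x * L)) * (y * L) ≤ x * (T * y ^ 3 * (s * (K * y))) * (y * (K * y)) := by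
          gcongr
      _ = T * K ^ 2 * (x * s * y ^ 6) := by ring
  have t2 : x * (I * (√2 * s * L)) ≤ √2 * I * K * (x * s * y ^ 6) := by
    calc x * (I * (√2 * s * L)) ≤ x * (I * (√2 * s * (K * y))) := by gcongr
      _ ≤ x * (I * (√2 * s * (K * y ^ 6))) := by gcongr
      _ = √2 * I * K * (x * s * y ^ 6) := by ring
  have t3 : x * (3 * L) ≤ 3 * K * (x * s * y ^ 6) := by
    calc x * (3 * L) ≤ x * (3 * (K * y)) := by gcongr
      _ ≤ x * (3 * (K * y ^ 6)) := by gcongr
      _ = 3 * K * (x * 1 * y ^ 6) := by ring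
      _ ≤ 3 * K * (x * s * y ^ 6) := by gcongr
  calc _ ≤ T * K ^ 2 * (x * s * y ^ 6) + √2 * I * K * (x * s * y ^ 6) +
        3 * K * (x * s * y ^ 6) := add_le_add (add_le_add t1 t2) t3
    _ = _ := by ring

-- S3
/-- S3. the inner flow between primes `≤ P` with `n_q ≤ P^A` -/
theorem s_inner (A : ℕ) (hA : 1 ≤ A) (ε : ℝ) (hε : 0 < ε) : ∃ C : ℝ, 0 ≤ C ∧ ∀ (N P : ℕ) (V : Finset ℕ),
    Odd N → Nat.Perfect N → V ⊆ N.primeFactors → (∀ p ∈ V, p ≤ P) → (∀ p ∈ V, nn N p ≤ P ^ A) →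
    ∃ f : ℕ → ℕ, (∀ r ∈ V, f r ∈ V) ∧
      ∑ r ∈ V, ∑ q ∈ V.erase (f r), aa N q r ≤ C * (P : ℝ) ^ (3 / 2 + ε) := by
  classical
  set η : ℝ := min (ε / 10) 1 with hηdef
  have hη : 0 < η := lt_min (by linarith) one_pos
  have hη1 : η ≤ 1 := min_le_right _ _
  have hηε : 6 * η ≤ ε := by
    have := min_le_left (ε / 10) 1
    linarith
  have hAR : (1 : ℝ) ≤ A := by exact_mod_cast hA
  obtain ⟨I, hI⟩ := s_column η hη
  obtain ⟨T, hT1, hT⟩ := tau_bound (3 * η / A) (by positivity)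
  set K : ℝ := 1 / η with hKdef
  have hK : 1 ≤ K := by
    rw [hKdef, le_div_iff₀ hη]
    linarith
  refine ⟨A * (T * K ^ 2 + √2 * I * K + 3 * K), by positivity, ?_⟩
  intro N P V hodd hN hVN hP hnA
  rcases V.eq_empty_or_nonempty with hV | hVne
  · refine ⟨id, by simp [hV], ?_⟩
    rw [hV, Finset.sum_empty]
    positivity
  obtain ⟨p0, hp0⟩ := id hVne
  have hP1 : 1 ≤ P := (Nat.prime_of_mem_primeFactors (hVN hp0)).one_lt.le.trans (hP p0 hp0)
  have hx : (1 : ℝ) ≤ P := by exact_mod_cast hP1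
  have hx0 : (0 : ℝ) < P := by linarith
  have hL0 : 0 ≤ log (P : ℝ) := log_nonneg hx
  have hL : log (P : ℝ) ≤ K * (P : ℝ) ^ η := by
    refine (Real.log_le_rpow_div (Nat.cast_nonneg P) hη).trans (le_of_eq ?_)
    rw [hKdef]
    ring
  have hcard : (V.card : ℝ) ≤ P := by
    have h1 : V ⊆ Finset.Icc 1 P := fun r hr =>
      Finset.mem_Icc.2 ⟨(Nat.prime_of_mem_primeFactors (hVN hr)).pos, hP r hr⟩
    have h2 := Finset.card_le_card h1
    rw [Nat.card_Icc] at h2
    exact_mod_cast (by omega : V.card ≤ P)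
  have hcol := fun r (hr : r ∈ V) => hI N P r V hVne hVN hP (Nat.prime_of_mem_primeFactors (hVN hr)) (hP r hr)
  choose! f hf hfb using hcol
  refine ⟨f, hf, ?_⟩
  have hbb0 : ∀ q r, 0 ≤ (((nn N q).factorization r : ℝ) * log r) := fun q r =>
    mul_nonneg (Nat.cast_nonneg _) (log_natCast_nonneg r)
  have hpairs : ∑ r ∈ V, ((V.filter (fun q => bb N q r ≠ 0)).card : ℝ) ≤
      P * (T * ((P : ℝ) ^ 3) ^ η * √(P * log P)) := by
    have h1 : ∑ r ∈ V, ((V.filter (fun q => bb N q r ≠ 0)).card : ℝ) =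
        ∑ q ∈ V, ((V.filter (fun r => bb N q r ≠ 0)).card : ℝ) := by
      simp only [Finset.card_filter, Nat.cast_sum]
      exact Finset.sum_comm
    rw [h1]
    have h2 : ∀ q ∈ V,
        ((V.filter (fun r => bb N q r ≠ 0)).card : ℝ) ≤
          T * ((P : ℝ) ^ 3) ^ η * √(P * log P) := by
      intro q hq
      refine (s_card N P q V hVN hP hq).trans ?_
      refine mul_le_mul_of_nonneg_right ?_ (Real.sqrt_nonneg _)
      refine (hT (nn N q) (by unfold nn; omega)).trans ?_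
      refine mul_le_mul_of_nonneg_left ?_ (by linarith)
      have h3 : ((nn N q : ℕ) : ℝ) ≤ (P : ℝ) ^ A := by exact_mod_cast hnA q hq
      have h4 : ((P : ℝ) ^ 3) ^ η = ((P : ℝ) ^ A) ^ (3 * η / A) := by
        rw [← rpow_natCast (P : ℝ) 3, ← rpow_natCast (P : ℝ) A, ← rpow_mul hx0.le, ← rpow_mul hx0.le]
        congr 1
        push_cast
        field_simp
      rw [h4]
      exact rpow_le_rpow (Nat.cast_nonneg _) h3 (by positivity)
    calc ∑ q ∈ V, ((V.filter (fun r => bb N q r ≠ 0)).card : ℝ)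
        ≤ ∑ _q ∈ V, T * ((P : ℝ) ^ 3) ^ η * √(P * log P) := Finset.sum_le_sum h2
      _ = (V.card : ℝ) * (T * ((P : ℝ) ^ 3) ^ η * √(P * log P)) := by
        rw [Finset.sum_const, nsmul_eq_mul]
      _ ≤ P * (T * ((P : ℝ) ^ 3) ^ η * √(P * log P)) :=
        mul_le_mul_of_nonneg_right hcard (by positivity)
  have hexp : ∑ r ∈ V, ∑ q ∈ V.erase (f r),
      ((nn N q).factorization r : ℝ) * log r ≤ P * (A * (3 * log P)) := by
    calc ∑ r ∈ V, ∑ q ∈ V.erase (f r),
          ((nn N q).factorization r : ℝ) * log r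
        ≤ ∑ r ∈ V, ∑ q ∈ V,
          ((nn N q).factorization r : ℝ) * log r := by
          refine Finset.sum_le_sum fun r _ => ?_
          exact Finset.sum_le_sum_of_subset_of_nonneg (Finset.erase_subset _ _)
            fun q _ _ => hbb0 q r
      _ = ∑ q ∈ V, ∑ r ∈ V,
          ((nn N q).factorization r : ℝ) * log r := Finset.sum_comm
      _ ≤ ∑ _q ∈ V, A * (3 * log P) := by
          refine Finset.sum_le_sum fun q hq => (s_logsum _ _).trans ?_
          have h1 : ((nn N q : ℕ) : ℝ) ≤ (P : ℝ) ^ A := by exact_mod_cast hnA q hq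
          have h2 : (0 : ℝ) < ((nn N q : ℕ) : ℝ) := by
            unfold nn
            positivity
          have h3 := Real.log_le_log h2 h1
          rw [Real.log_pow] at h3
          have h4 : 0 ≤ (A : ℝ) * log P := by positivity
          nlinarith
      _ = (V.card : ℝ) * (A * (3 * log P)) := by rw [Finset.sum_const, nsmul_eq_mul]
      _ ≤ P * (A * (3 * log P)) := mul_le_mul_of_nonneg_right hcard (by positivity)
  have hmain : ∑ r ∈ V, ∑ q ∈ V.erase (f r), bb N q r ≤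
      P * (T * ((P : ℝ) ^ 3) ^ η * √(P * log P)) * ((P : ℝ) ^ η * log P) +
        P * (I * (√(2 * P) * log P)) := by
    calc ∑ r ∈ V, ∑ q ∈ V.erase (f r), bb N q r
        ≤ ∑ r ∈ V,
          (((V.filter (fun q => bb N q r ≠ 0)).card : ℝ) *
            ((P : ℝ) ^ η * log P) + I * (√(2 * P) * log P)) :=
          Finset.sum_le_sum fun r hr => hfb r hr
      _ = (∑ r ∈ V, ((V.filter (fun q => bb N q r ≠ 0)).card : ℝ)) *
            ((P : ℝ) ^ η * log P) + (V.card : ℝ) * (I * (√(2 * P) * log P)) := by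
          rw [Finset.sum_add_distrib, Finset.sum_mul, Finset.sum_const, nsmul_eq_mul]
      _ ≤ _ := by
          refine add_le_add (mul_le_mul_of_nonneg_right hpairs (by positivity)) ?_
          exact mul_le_mul_of_nonneg_right hcard (by positivity)
  have hreal := s_d12_real hη hK (by linarith : (0 : ℝ) ≤ T) (Nat.cast_nonneg I) hx hL0 hL
  have hmain0 : 0 ≤ P * (T * ((P : ℝ) ^ 3) ^ η * √(P * log P)) * ((P : ℝ) ^ η * log P) +
        P * (I * (√(2 * P) * log P)) := by positivity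
  calc ∑ r ∈ V, ∑ q ∈ V.erase (f r), aa N q r
      ≤ ∑ r ∈ V, ∑ q ∈ V.erase (f r),
        (bb N q r + ((nn N q).factorization r : ℝ) * log r) := by
        refine Finset.sum_le_sum fun r hr => Finset.sum_le_sum fun q hq => ?_
        exact aa_le N q r hodd hN (hVN (Finset.mem_of_mem_erase hq)) (hVN hr)
    _ = (∑ r ∈ V, ∑ q ∈ V.erase (f r), bb N q r) +
        ∑ r ∈ V, ∑ q ∈ V.erase (f r),
          ((nn N q).factorization r : ℝ) * log r := by
        rw [← Finset.sum_add_distrib]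
        refine Finset.sum_congr rfl fun r _ => Finset.sum_add_distrib
    _ ≤ (P * (T * ((P : ℝ) ^ 3) ^ η * √(P * log P)) * ((P : ℝ) ^ η * log P) +
        P * (I * (√(2 * P) * log P))) + P * (A * (3 * log P)) := add_le_add hmain hexp
    _ ≤ A * (P * (T * ((P : ℝ) ^ 3) ^ η * √(P * log P)) * ((P : ℝ) ^ η * log P) +
        P * (I * (√(2 * P) * log P)) + P * (3 * log P)) := by
        have h5 : (P * (T * ((P : ℝ) ^ 3) ^ η * √(P * log P)) * ((P : ℝ) ^ η * log P) +
          P * (I * (√(2 * P) * log P))) ≤ A * (P * (T * ((P : ℝ) ^ 3) ^ η * √(P * log P)) * ((P : ℝ) ^ η * log P) +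
          P * (I * (√(2 * P) * log P))) := le_mul_of_one_le_left hmain0 hAR
        have h6 : A * (P * (T * ((P : ℝ) ^ 3) ^ η * √(P * log P)) * ((P : ℝ) ^ η * log P) +
          P * (I * (√(2 * P) * log P)) + P * (3 * log P)) =
          A * (P * (T * ((P : ℝ) ^ 3) ^ η * √(P * log P)) * ((P : ℝ) ^ η * log P) +
          P * (I * (√(2 * P) * log P))) + P * (A * (3 * log P)) := by ring
        rw [h6]
        linarith
    _ ≤ A * ((T * K ^ 2 + √2 * I * K + 3 * K) * (P : ℝ) ^ (3 / 2 + 6 * η)) :=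
        mul_le_mul_of_nonneg_left hreal (by linarith)
    _ ≤ A * ((T * K ^ 2 + √2 * I * K + 3 * K) * (P : ℝ) ^ (3 / 2 + ε)) := by
        refine mul_le_mul_of_nonneg_left (mul_le_mul_of_nonneg_left ?_ (by positivity)) (by linarith)
        exact rpow_le_rpow_of_exponent_le hx (by linarith)
    _ = A * (T * K ^ 2 + √2 * I * K + 3 * K) * (P : ℝ) ^ (3 / 2 + ε) := by ring

end Pool.Agent.Lib.MP_f02ea4_nt.Ml
end

section

/-! At most one large prime, part T: flows between the light small primes and the few other primes. -/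

set_option autoImplicit false

namespace Pool.Agent.Lib.MP_f02ea4_nt.Ml

open Finset Real Sm

-- S4
/-- S4. the flow of a prime `q` into primes `r ≤ y` of mass `≤ Z`: orders `≤ θ` and orders `> θ` -/
lemma t_out (N y q : ℕ) (V : Finset ℕ) (θ Z : ℝ) (hodd : Odd N) (hN : Nat.Perfect N)
    (hq : q ∈ N.primeFactors) (hVN : V ⊆ N.primeFactors) (hVy : ∀ r ∈ V, r ≤ y)
    (hZ : ∀ r ∈ V, mass N r ≤ Z) (hZ0 : 0 ≤ Z) (hθ : 0 < θ) :
    ∑ r ∈ V, aa N q r ≤ ((nn N q).divisors.card : ℝ) * θ * log q + log (nn N q : ℝ) +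
      ((nn N q).divisors.card : ℝ) * (y / θ) * Z := by
  classical
  have hqp := s_prime hq
  have hn1 : 1 ≤ nn N q := by unfold nn; omega
  set U := V.filter (fun r => θ < (orderOf (q : ZMod r) : ℝ) ∧ ¬ r ∣ q - 1) with hU
  have hsplit : ∑ r ∈ V, aa N q r = ∑ r ∈ V.filter (fun r => ¬ (θ < (orderOf (q : ZMod r) : ℝ) ∧ ¬ r ∣ q - 1)), aa N q r
      + ∑ r ∈ U, aa N q r := by
    rw [hU, add_comm]
    exact (sum_filter_add_sum_filter_not V _ _).symm
  have h1 : ∑ r ∈ V.filter (fun r => ¬ (θ < (orderOf (q : ZMod r) : ℝ) ∧ ¬ r ∣ q - 1)), aa N q r ≤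
      ((nn N q).divisors.card : ℝ) * θ * log q + log (nn N q : ℝ) := by
    refine le_trans ?_ (small_order_sum q (N.factorization q) y θ hqp (s_ne_two hodd hq) hθ.le)
    apply sum_le_sum_of_subset_of_nonneg
    · intro r hr
      rw [mem_filter] at hr
      rw [mem_filter, mem_range]
      exact ⟨by have := hVy r hr.1; omega, s_prime (hVN hr.1), s_ne_two hodd (hVN hr.1), hr.2⟩
    · intro r _ _
      exact s_aa_nonneg N q r
  have h2 : ∑ r ∈ U, aa N q r ≤ ((nn N q).divisors.card : ℝ) * (y / θ) * Z := by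
    have hz : ∑ r ∈ U, aa N q r = ∑ r ∈ U.filter (fun r => r ∣ Sq N q), aa N q r := by
      symm
      apply sum_filter_of_ne
      intro r _ hr
      by_contra hcon
      apply hr
      unfold aa
      rw [Nat.factorization_eq_zero_of_not_dvd hcon]
      simp
    rw [hz]
    have hcard : ((U.filter (fun r => r ∣ Sq N q)).card : ℝ) ≤ ((nn N q).divisors.card : ℝ) * (y / θ) := by
      refine le_trans ?_ (count_large_order (nn N q) y q θ hθ hn1)
      refine Nat.cast_le.2 (card_le_card ?_)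
      intro r hr
      rw [mem_filter, hU, mem_filter] at hr
      obtain ⟨⟨hrV, ho, hnd⟩, hd⟩ := hr
      have hrp := s_prime (hVN hrV)
      rw [mem_filter, mem_range]
      refine ⟨by have := hVy r hrV; omega, hrp, ho, ?_⟩
      have : Fact r.Prime := ⟨hrp⟩
      apply orderOf_dvd_of_pow_eq_one
      have h3 : r ∣ q ^ nn N q - 1 := by
        rw [s_sg hq]
        exact Dvd.dvd.mul_left hd _
      have h4 : ((q ^ nn N q - 1 : ℕ) : ZMod r) = 0 := (ZMod.natCast_eq_zero_iff _ _).2 h3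
      rw [Nat.cast_sub (Nat.one_le_pow _ _ hqp.pos)] at h4
      push_cast at h4
      exact sub_eq_zero.1 h4
    calc ∑ r ∈ U.filter (fun r => r ∣ Sq N q), aa N q r
        ≤ ∑ _r ∈ U.filter (fun r => r ∣ Sq N q), Z := by
          apply sum_le_sum
          intro r hr
          have hrV : r ∈ V := (mem_filter.1 (mem_filter.1 hr).1).1
          exact (s_aa_le_mass N q r hodd hN hq (hVN hrV)).trans (hZ r hrV)
      _ = ((U.filter (fun r => r ∣ Sq N q)).card : ℝ) * Z := by rw [sum_const, nsmul_eq_mul]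
      _ ≤ _ := mul_le_mul_of_nonneg_right hcard hZ0
  linarith

/-- S4'. the best `θ` -/
lemma t_out' (N y q : ℕ) (V : Finset ℕ) (Z : ℝ) (hodd : Odd N) (hN : Nat.Perfect N)
    (hq : q ∈ N.primeFactors) (hVN : V ⊆ N.primeFactors) (hVy : ∀ r ∈ V, r ≤ y)
    (hZ : ∀ r ∈ V, mass N r ≤ Z) (hZ0 : 1 ≤ Z) (hy : 1 ≤ y) :
    ∑ r ∈ V, aa N q r ≤ 2 * ((nn N q).divisors.card : ℝ) * √(y * Z * log q) + log (nn N q : ℝ) := by
  have hlq : 1 ≤ log (q : ℝ) := d15_log3 (d15_three_le hodd hq)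
  have hy1 : (1 : ℝ) ≤ y := by exact_mod_cast hy
  have hpos : 0 < (y : ℝ) * Z / log q := by positivity
  have h := t_out N y q V (√(y * Z / log q)) Z hodd hN hq hVN hVy hZ (by linarith) (Real.sqrt_pos.2 hpos)
  have e1 : √(y * Z / log q) * log q = √(y * Z * log q) := by
    have : (y : ℝ) * Z * log q = (y * Z / log q) * (log q) ^ 2 := by field_simp
    rw [this, Real.sqrt_mul hpos.le, Real.sqrt_sq (by linarith)]
  have e2 : (y : ℝ) / √(y * Z / log q) * Z = √(y * Z * log q) := by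
    have h2 : 0 < √(y * Z / log q) := Real.sqrt_pos.2 hpos
    rw [div_mul_eq_mul_div, div_eq_iff h2.ne', ← Real.sqrt_mul (by positivity)]
    have : (y : ℝ) * Z * log q * (y * Z / log q) = (y * Z) ^ 2 := by field_simp
    rw [this, Real.sqrt_sq (by positivity)]
  have e3 : ((nn N q).divisors.card : ℝ) * √(y * Z / log q) * log q =
      ((nn N q).divisors.card : ℝ) * √(y * Z * log q) := by rw [mul_assoc, e1]
  have e4 : ((nn N q).divisors.card : ℝ) * (y / √(y * Z / log q)) * Z =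
      ((nn N q).divisors.card : ℝ) * √(y * Z * log q) := by rw [mul_assoc, e2]
  rw [e3, e4] at h
  linarith

-- S5
/-- S5. the flow from `V` into one small prime -/
lemma t_in (A : ℕ) (ε : ℝ) (hε : 0 < ε) : ∃ C : ℝ, 0 ≤ C ∧ ∀ (N y r : ℕ) (V : Finset ℕ)
    (Z : ℝ), Odd N → Nat.Perfect N → 1 ≤ y → V ⊆ N.primeFactors → (∀ q ∈ V, q ≤ y) →
    (∀ q ∈ V, nn N q ≤ y ^ A) → (∀ q ∈ V, mass N q ≤ Z) → 0 ≤ Z → r ∈ N.primeFactors → r ≤ y →
    ∑ q ∈ V, aa N q r ≤ Z + C * (y : ℝ) ^ (1 + ε) := by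
  classical
  obtain ⟨I, hI⟩ := s_column (ε / 2) (by linarith)
  have hK0 : 0 ≤ 2 / ε := by positivity
  refine ⟨1 + 2 / ε + I * (2 * (2 / ε)) + A * (2 / ε), by positivity, ?_⟩
  intro N y r V Z hodd hN hy hVN hVy hnA hmZ hZ0 hr hry
  have hx : (1 : ℝ) ≤ y := by exact_mod_cast hy
  have hx0 : (0 : ℝ) < y := by linarith
  have hYp : 0 < (y : ℝ) ^ (1 + ε) := by positivity
  have hL0 : 0 ≤ log (y : ℝ) := log_nonneg hx
  have hL : log (y : ℝ) ≤ 2 / ε * (y : ℝ) ^ (ε / 2) := by
    refine (Real.log_le_rpow_div hx0.le (by linarith : 0 < ε / 2)).trans (le_of_eq ?_)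
    field_simp
  rcases V.eq_empty_or_nonempty with hV | hVne
  · rw [hV, sum_empty]
    positivity
  obtain ⟨f, hf, hfb⟩ := hI N y r V hVne hVN hVy (s_prime hr) hry
  have hcard : (V.card : ℝ) ≤ y := by
    have h1 : V ⊆ Finset.Icc 1 y := fun r hr =>
      Finset.mem_Icc.2 ⟨(s_prime (hVN hr)).pos, hVy r hr⟩
    have h2 := Finset.card_le_card h1
    rw [Nat.card_Icc] at h2
    exact_mod_cast (by omega : V.card ≤ y)
  have h1 : ∑ q ∈ V, aa N q r = aa N f r + ∑ q ∈ V.erase f, aa N q r :=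
    (add_sum_erase V (fun q => aa N q r) hf).symm
  have h2 : aa N f r ≤ Z + 1 := (s_aa_le_mass' N f r hN (hVN hf) hr).trans (by linarith [hmZ f hf])
  have h3 : ∑ q ∈ V.erase f, aa N q r ≤ ∑ q ∈ V.erase f, bb N q r +
      ∑ q ∈ V.erase f, ((nn N q).factorization r : ℝ) * log r := by
    rw [← sum_add_distrib]
    exact sum_le_sum fun q hq => aa_le N q r hodd hN (hVN (mem_of_mem_erase hq)) hr
  have h4 : ∑ q ∈ V.erase f, ((nn N q).factorization r : ℝ) * log r ≤ y * (A * log y) := by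
    calc ∑ q ∈ V.erase f, ((nn N q).factorization r : ℝ) * log r
        ≤ ∑ _q ∈ V.erase f, (A * log y : ℝ) := by
          apply sum_le_sum
          intro q hq
          have hqV := mem_of_mem_erase hq
          have e1 := s_logsum (nn N q) {r}
          rw [sum_singleton] at e1
          refine e1.trans ?_
          have e2 : ((nn N q : ℕ) : ℝ) ≤ (y : ℝ) ^ A := by exact_mod_cast hnA q hqV
          have e3 : (0 : ℝ) < ((nn N q : ℕ) : ℝ) := by unfold nn; positivity
          have e4 := log_le_log e3 e2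
          rw [log_pow] at e4
          exact e4
      _ = ((V.erase f).card : ℝ) * (A * log y) := by rw [sum_const, nsmul_eq_mul]
      _ ≤ y * (A * log y) := by
          apply mul_le_mul_of_nonneg_right _ (by positivity)
          refine le_trans ?_ hcard
          exact_mod_cast card_le_card (erase_subset f V)
  have h5 : ((V.filter (fun q => bb N q r ≠ 0)).card : ℝ) ≤ y := by
    refine le_trans ?_ hcard
    exact_mod_cast card_filter_le _ _
  -- the numbers
  have hye : (1 : ℝ) ≤ (y : ℝ) ^ (ε / 2) := one_le_rpow hx (by linarith)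
  have e0 : (y : ℝ) ^ (1 + ε) = y * ((y : ℝ) ^ (ε / 2) * (y : ℝ) ^ (ε / 2)) := by
    rw [← rpow_add hx0, ← add_halves ε, ← rpow_one_add' hx0.le (by linarith)]
    congr 1; ring
  have hsq : (y : ℝ) ^ (ε / 2) ≤ (y : ℝ) ^ (ε / 2) * (y : ℝ) ^ (ε / 2) :=
    le_mul_of_one_le_left (by positivity) hye
  have t1 : ((V.filter (fun q => bb N q r ≠ 0)).card : ℝ) * ((y : ℝ) ^ (ε / 2) * log y) ≤
      2 / ε * (y : ℝ) ^ (1 + ε) := by
    calc ((V.filter (fun q => bb N q r ≠ 0)).card : ℝ) * ((y : ℝ) ^ (ε / 2) * log y)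
        ≤ y * ((y : ℝ) ^ (ε / 2) * (2 / ε * (y : ℝ) ^ (ε / 2))) := by gcongr
      _ = 2 / ε * (y : ℝ) ^ (1 + ε) := by rw [e0]; ring
  have t2 : (I : ℝ) * (√(2 * y) * log y) ≤ I * (2 * (2 / ε)) * (y : ℝ) ^ (1 + ε) := by
    have e1 : √(2 * (y : ℝ)) ≤ 2 * y := by
      rw [Real.sqrt_le_left (by linarith)]
      nlinarith
    calc (I : ℝ) * (√(2 * y) * log y) ≤ I * ((2 * y) * (2 / ε * (y : ℝ) ^ (ε / 2))) := by gcongr
      _ = I * (2 * (2 / ε)) * (y * (y : ℝ) ^ (ε / 2)) := by ring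
      _ ≤ I * (2 * (2 / ε)) * (y : ℝ) ^ (1 + ε) := by
          rw [e0]
          apply mul_le_mul_of_nonneg_left _ (by positivity)
          exact mul_le_mul_of_nonneg_left hsq hx0.le
  have t3 : (y : ℝ) * (A * log y) ≤ A * (2 / ε) * (y : ℝ) ^ (1 + ε) := by
    calc (y : ℝ) * (A * log y) ≤ y * (A * (2 / ε * (y : ℝ) ^ (ε / 2))) := by gcongr
      _ = A * (2 / ε) * (y * (y : ℝ) ^ (ε / 2)) := by ring
      _ ≤ A * (2 / ε) * (y : ℝ) ^ (1 + ε) := by
          rw [e0]
          apply mul_le_mul_of_nonneg_left _ (by positivity)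
          exact mul_le_mul_of_nonneg_left hsq hx0.le
  have t4 : (1 : ℝ) ≤ (y : ℝ) ^ (1 + ε) := one_le_rpow hx (by linarith)
  rw [h1]
  have e5 : (1 + 2 / ε + I * (2 * (2 / ε)) + A * (2 / ε)) * (y : ℝ) ^ (1 + ε) =
      (y : ℝ) ^ (1 + ε) + 2 / ε * (y : ℝ) ^ (1 + ε) + I * (2 * (2 / ε)) * (y : ℝ) ^ (1 + ε) +
        A * (2 / ε) * (y : ℝ) ^ (1 + ε) := by ring
  rw [e5]
  linarith

-- S6
/-- S6. all the prime factors of `Sq N q` are `2` and primes of `N` -/
lemma t_log_Sq (N q : ℕ) (hodd : Odd N) (hN : Nat.Perfect N) (hq : q ∈ N.primeFactors) :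
    log (Sq N q : ℝ) = ((Sq N q).factorization 2 : ℝ) * log 2 + ∑ r ∈ N.primeFactors, aa N q r := by
  classical
  have hSpos : 0 < Sq N q := Sb.sg_pos (pow_pos (s_prime hq).pos _)
  have h2N : 2 ∉ N.primeFactors := fun h => s_ne_two hodd h rfl
  rw [Real.log_nat_eq_sum_factorization, Finsupp.sum, Nat.support_factorization]
  have h1 : ∑ r ∈ insert 2 N.primeFactors, ((Sq N q).factorization r : ℝ) * log r =
      ((Sq N q).factorization 2 : ℝ) * log 2 + ∑ r ∈ N.primeFactors, aa N q r := by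
    rw [sum_insert h2N]
    norm_num
  rw [← h1]
  apply sum_subset
  · intro r hr
    have hrp := Nat.prime_of_mem_primeFactors hr
    have hrd := Nat.dvd_of_mem_primeFactors hr
    by_cases hr2 : r = 2
    · rw [hr2]; exact mem_insert_self _ _
    · exact mem_insert_of_mem (mem_of_dvd_Sq N hN q r hq hrp hr2 hrd)
  · intro r _ hr
    have : (Sq N q).factorization r = 0 := by
      rw [← Finsupp.notMem_support_iff, Nat.support_factorization]
      exact hr
    rw [this]; simp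

/-- S6. the number of factors `2` in `σ(N) = 2 N` is one -/
lemma t_two (N : ℕ) (hodd : Odd N) (hN : Nat.Perfect N) :
    ∑ q ∈ N.primeFactors, (Sq N q).factorization 2 = 1 := by
  have h := prod_Sq N hN
  have hN0 : N ≠ 0 := hN.2.ne'
  have hne : ∀ q ∈ N.primeFactors, Sq N q ≠ 0 := fun q hq => c1_ne_zero N q (s_prime hq)
  have h1 : (∏ q ∈ N.primeFactors, Sq N q).factorization 2 = ∑ q ∈ N.primeFactors, (Sq N q).factorization 2 := by
    rw [Nat.factorization_prod hne]
    simp [Finsupp.finsetSum_apply]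
  rw [← h1, h, Nat.factorization_mul (by norm_num) hN0]
  have h2 : N.factorization 2 = 0 :=
    Nat.factorization_eq_zero_of_not_dvd fun h => (Nat.not_even_iff_odd.2 hodd) (even_iff_two_dvd.2 h)
  simp [h2, Nat.prime_two.factorization_self]

/-- S6. balance of the flows between `V` and the rest -/
lemma t_balance (N : ℕ) (V : Finset ℕ) (hodd : Odd N) (hN : Nat.Perfect N) (hVN : V ⊆ N.primeFactors) :
    ∑ r ∈ V, ∑ q ∈ N.primeFactors \ V, aa N q r ≤
      log 2 + ∑ q ∈ V, ∑ r ∈ N.primeFactors \ V, aa N q r := by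
  classical
  have hsplit : ∀ g : ℕ → ℝ, ∑ q ∈ N.primeFactors, g q = ∑ q ∈ V, g q + ∑ q ∈ N.primeFactors \ V, g q := by
    intro g
    rw [add_comm]
    exact (sum_sdiff hVN).symm
  -- column sums
  have h1 : ∑ r ∈ V, mass N r = ∑ r ∈ V, ∑ q ∈ V, aa N q r + ∑ r ∈ V, ∑ q ∈ N.primeFactors \ V, aa N q r := by
    rw [← sum_add_distrib]
    apply sum_congr rfl
    intro r hr
    rw [← col_sum N r hodd hN (hVN hr)]
    exact hsplit (fun q => aa N q r)
  -- row sums
  have h2 : ∑ q ∈ V, mass N q ≤ log 2 + ∑ q ∈ V, ∑ r ∈ V, aa N q r +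
      ∑ q ∈ V, ∑ r ∈ N.primeFactors \ V, aa N q r := by
    have e1 : ∀ q ∈ V, mass N q ≤ ((Sq N q).factorization 2 : ℝ) * log 2 + (∑ r ∈ V, aa N q r +
        ∑ r ∈ N.primeFactors \ V, aa N q r) := by
      intro q hq
      rw [← hsplit (fun r => aa N q r), ← t_log_Sq N q hodd hN (hVN hq)]
      unfold mass
      rw [← log_pow]
      apply log_le_log
      · have := (s_prime (hVN hq)).pos
        positivity
      · have h3 : q ^ N.factorization q ≤ Sq N q := Sb.le_sg (pow_pos (s_prime (hVN hq)).pos _)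
        exact_mod_cast h3
    have e2 := sum_le_sum e1
    rw [sum_add_distrib, sum_add_distrib, ← sum_mul] at e2
    have e3 : ∑ q ∈ V, ((Sq N q).factorization 2 : ℝ) ≤ 1 := by
      have h4 : ∑ q ∈ V, (Sq N q).factorization 2 ≤ ∑ q ∈ N.primeFactors, (Sq N q).factorization 2 :=
        sum_le_sum_of_subset hVN
      rw [t_two N hodd hN] at h4
      exact_mod_cast h4
    have e4 : (∑ q ∈ V, ((Sq N q).factorization 2 : ℝ)) * log 2 ≤ 1 * log 2 :=
      mul_le_mul_of_nonneg_right e3 (log_nonneg (by norm_num))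
    linarith
  have h3 : ∑ r ∈ V, ∑ q ∈ V, aa N q r = ∑ q ∈ V, ∑ r ∈ V, aa N q r := sum_comm
  linarith

-- S7
/-- S7. no flow from a light prime to a prime `p` with `log p > Z` -/
lemma t_zero (N q p : ℕ) (Z : ℝ) (hq : q ∈ N.primeFactors) (hp : p.Prime)
    (h1 : (nn N q : ℝ) * log q ≤ Z) (h2 : Z < log p) : aa N q p = 0 := by
  have hqp := s_prime hq
  have hSpos : 0 < Sq N q := Sb.sg_pos (pow_pos hqp.pos _)
  have h3 : Sq N q ≤ q ^ nn N q := by
    have h4 := Sb.sg_pow hqp (N.factorization q)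
    have h5 : Sq N q = Sb.sg (q ^ N.factorization q) := rfl
    have h6 : nn N q = N.factorization q + 1 := rfl
    rw [h5, h6, ← h4]
    have h7 : 1 ≤ q - 1 := by have := hqp.two_le; omega
    have := Nat.mul_le_mul_right (Sb.sg (q ^ N.factorization q)) h7
    omega
  have h4 : ¬ p ∣ Sq N q := by
    intro hd
    have h5 : p ≤ q ^ nn N q := (Nat.le_of_dvd hSpos hd).trans h3
    have h6 : log (p : ℝ) ≤ log ((q : ℝ) ^ nn N q) :=
      log_le_log (by exact_mod_cast hp.pos) (by exact_mod_cast h5)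
    rw [log_pow] at h6
    linarith
  unfold aa
  rw [Nat.factorization_eq_zero_of_not_dvd h4]
  simp

end Pool.Agent.Lib.MP_f02ea4_nt.Ml
end
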