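import Mathlib
import Pool.Agent.Lib.MP_f02ea4_nt.MlF
import Pool.Agent.Lib.MP_f02ea4_nt.Mg.G021
import Pool.Agent.Lib.MP_f02ea4_nt.AE.ElimB

section

/-! Many large primes, part H: final forms. -/

set_option autoImplicit false

namespace Pool.Agent.Lib.MP_f02ea4_nt.Ml

open Finset Real Sm

-- BEGIN H1
/-- H1. `log log N ≥ log log 3 ≥ 1/12` (`log 3 ≥ 1.09`, `log 1.09 ≥ 1/12`), so `1 + log log N ≤ 13 log log N`. -/
lemma loglog_ge (N : ℕ) (hodd : Odd N) (hN : Nat.Perfect N) :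
    1 + log (log (N : ℝ)) ≤ 13 * log (log N) := by
  have hN3 : 3 ≤ N := by
    have h0 : 0 < N := hN.2
    have h1 : N ≠ 1 := by
      intro h
      have h2 := hN.1
      rw [h] at h2
      simp at h2
    obtain ⟨k, hk⟩ := hodd
    omega
  have hN3R : (3 : ℝ) ≤ (N : ℝ) := by exact_mod_cast hN3
  have hlog3 : (1.095 : ℝ) ≤ log 3 := by
    have h1 : 2 * log 3 = 3 * log 2 + log (9 / 8) := by
      have h2 : log ((3 : ℝ) ^ 2) = 2 * log 3 := by rw [log_pow]; norm_num
      have h3 : log ((2 : ℝ) ^ 3) = 3 * log 2 := by rw [log_pow]; norm_num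
      rw [← h2, ← h3, ← log_mul (by norm_num) (by norm_num)]
      norm_num
    have h2 : (1 : ℝ) - (9 / 8 : ℝ)⁻¹ ≤ log (9 / 8) := one_sub_inv_le_log_of_pos (by norm_num)
    have h3 := log_two_gt_d9
    norm_num at h2
    linarith
  have hlogN : (1.095 : ℝ) ≤ log (N : ℝ) :=
    le_trans hlog3 (log_le_log (by norm_num) hN3R)
  have h1 : (1 : ℝ) - (log (N : ℝ))⁻¹ ≤ log (log (N : ℝ)) :=
    one_sub_inv_le_log_of_pos (by linarith)
  have h2 : (log (N : ℝ))⁻¹ ≤ (1.095 : ℝ)⁻¹ := inv_anti₀ (by norm_num) hlogN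
  have h3 : (1.095 : ℝ)⁻¹ ≤ 11 / 12 := by norm_num
  linarith

/-- H1. `main_form` with `log log N`: `C' = 13 C`. -/
theorem form2 (ε : ℝ) (hε : 0 < ε) : ∃ C : ℕ, 1 ≤ C ∧ ∀ N y : ℕ, Odd N → Nat.Perfect N →
    2 ≤ y → log N ≤ C * (y : ℝ) ^ (2 + ε) * (C * log (log N)) ^ (C * (Lg N y).card) := by
  obtain ⟨C, hC, hmain⟩ := main_form ε hε
  refine ⟨13 * C, by omega, ?_⟩
  intro N y hodd hN hy
  have h1 := hmain N y hodd hN hy
  have h2 := loglog_ge N hodd hN
  have hCR : (1 : ℝ) ≤ (C : ℝ) := by exact_mod_cast hC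
  have hll : (1 : ℝ) / 12 ≤ log (log (N : ℝ)) := by linarith
  have hyp : (0 : ℝ) ≤ (y : ℝ) ^ (2 + ε) := rpow_nonneg (Nat.cast_nonneg y) _
  have hb0 : (0 : ℝ) ≤ (C : ℝ) * (1 + log (log (N : ℝ))) := by
    apply mul_nonneg <;> linarith
  have hb1 : (C : ℝ) * (1 + log (log (N : ℝ))) ≤ ((13 * C : ℕ) : ℝ) * log (log (N : ℝ)) := by
    push_cast
    have := mul_le_mul_of_nonneg_left h2 (le_trans zero_le_one hCR)
    linarith
  have hb2 : (1 : ℝ) ≤ ((13 * C : ℕ) : ℝ) * log (log (N : ℝ)) := by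
    push_cast
    nlinarith
  have h3 : ((C : ℝ) * (1 + log (log (N : ℝ)))) ^ (C * (Lg N y).card)
      ≤ (((13 * C : ℕ) : ℝ) * log (log (N : ℝ))) ^ (13 * C * (Lg N y).card) := by
    refine le_trans (pow_le_pow_left₀ hb0 hb1 _) ?_
    apply pow_le_pow_right₀ hb2
    apply Nat.mul_le_mul_right
    omega
  refine le_trans h1 ?_
  apply mul_le_mul _ h3 (pow_nonneg hb0 _) (by positivity)
  apply mul_le_mul_of_nonneg_right _ hyp
  push_cast
  linarith
-- END H1

-- BEGIN H2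
/-- H2. `log x ≤ log x` growth facts: for every `a > 0`, `B` there is `X0` with `B ≤ a log X` and `B ≤ log log X` for
`X ≥ X0` (`Real.tendsto_log_atTop`). -/
lemma large_X (a B : ℝ) (ha : 0 < a) : ∃ X0 : ℝ, 1 ≤ X0 ∧ ∀ X : ℝ, X0 ≤ X →
    B ≤ a * log X ∧ B ≤ log (log X) ∧ B ≤ X ^ a := by
  have h1 : ∀ᶠ X : ℝ in Filter.atTop, B ≤ a * log X :=
    (Real.tendsto_log_atTop.const_mul_atTop ha).eventually_ge_atTop B
  have h2 : ∀ᶠ X : ℝ in Filter.atTop, B ≤ log (log X) :=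
    (Real.tendsto_log_atTop.comp Real.tendsto_log_atTop).eventually_ge_atTop B
  have h3 : ∀ᶠ X : ℝ in Filter.atTop, B ≤ X ^ a :=
    (tendsto_rpow_atTop ha).eventually_ge_atTop B
  obtain ⟨X1, hX1⟩ := Filter.eventually_atTop.1 (h1.and (h2.and h3))
  exact ⟨max 1 X1, le_max_left _ _, fun X hX => hX1 X ((le_max_right _ _).trans hX)⟩

/-- H2. number of primes `> X^(1/2-ε)`, real form (`X = log N`): from `X ≤ C y^(2+2ε) (C λ)^(C j)`, `y ≤ X^(1/2-ε)`,
`(1/2-ε)(2+2ε) ≤ 1 - ε`: `X^ε ≤ C (C λ)^(C j)`, `λ = 1 + log X ≤ 2 log X`, so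
`ε log X ≤ log C + C j (log C + log 2 + log log X)`; `log C ≤ (ε/2) log X`, `log C + log 2 ≤ log log X`. -/
lemma count_real (ε : ℝ) (hε : 0 < ε) (hε1 : ε < 1 / 2) (C : ℕ) (hC : 1 ≤ C) : ∃ c X0 : ℝ,
    0 < c ∧ 3 ≤ X0 ∧ ∀ (X : ℝ) (y j : ℕ), X0 ≤ X → (y : ℝ) ≤ X ^ (1 / 2 - ε) →
    X ≤ C * (y : ℝ) ^ (2 + 2 * ε) * (C * (1 + log X)) ^ (C * j) →
    c * log X ≤ j * log (log X) := by
  have hC' : (1 : ℝ) ≤ (C : ℝ) := by exact_mod_cast hC
  have hC0 : (0 : ℝ) < (C : ℝ) := by linarith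
  obtain ⟨X1, hX11, hX1⟩ := large_X (ε / 2) (log C + log 2 + 1) (by linarith)
  refine ⟨ε / (4 * C), max 3 X1, by positivity, le_max_left _ _, ?_⟩
  intro X y j hX hy hmain
  have hX3 : (3 : ℝ) ≤ X := (le_max_left _ _).trans hX
  have hX0 : (0 : ℝ) < X := by linarith
  obtain ⟨h1, h2, -⟩ := hX1 X ((le_max_right _ _).trans hX)
  have hlogC : 0 ≤ log (C : ℝ) := Real.log_nonneg hC'
  have hlog2 : 0 ≤ log (2 : ℝ) := Real.log_nonneg (by norm_num)
  have hlX1 : 1 ≤ log X := by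
    rw [Real.le_log_iff_exp_le hX0]
    have := Real.exp_one_lt_d9
    linarith
  have hlX0 : 0 < log X := by linarith
  -- the power of `y`
  have hy0 : (0 : ℝ) ≤ (y : ℝ) := Nat.cast_nonneg _
  have hyp : (y : ℝ) ^ (2 + 2 * ε) ≤ X ^ (1 - ε) := by
    have h3 : (y : ℝ) ^ (2 + 2 * ε) ≤ (X ^ (1 / 2 - ε)) ^ (2 + 2 * ε) :=
      Real.rpow_le_rpow hy0 hy (by linarith)
    rw [← Real.rpow_mul hX0.le] at h3
    refine h3.trans (Real.rpow_le_rpow_of_exponent_le (by linarith) ?_)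
    nlinarith
  set P : ℝ := ((C : ℝ) * (1 + log X)) ^ (C * j) with hP
  have hbase : 0 < (C : ℝ) * (1 + log X) := by positivity
  have hP0 : 0 < P := pow_pos hbase _
  have h4 : X ≤ C * X ^ (1 - ε) * P := by
    refine hmain.trans ?_
    apply mul_le_mul_of_nonneg_right _ hP0.le
    exact mul_le_mul_of_nonneg_left hyp hC0.le
  have hlogX : log X ≤ log C + (1 - ε) * log X + (C * j : ℕ) * (log C + log (1 + log X)) := by
    have h5 := Real.log_le_log hX0 h4
    have hpw : 0 < X ^ (1 - ε) := Real.rpow_pos_of_pos hX0 _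
    rw [Real.log_mul (by positivity) hP0.ne', Real.log_mul hC0.ne' hpw.ne',
      Real.log_rpow hX0, hP, Real.log_pow, Real.log_mul hC0.ne' (by positivity)] at h5
    exact h5
  have hlam : log (1 + log X) ≤ log 2 + log (log X) := by
    rw [← Real.log_mul (by norm_num) hlX0.ne']
    exact Real.log_le_log (by linarith) (by linarith)
  have hjC : (0 : ℝ) ≤ ((C * j : ℕ) : ℝ) := Nat.cast_nonneg _
  have h6 : log C + log (1 + log X) ≤ 2 * log (log X) := by linarith
  have h7 : ((C * j : ℕ) : ℝ) * (log C + log (1 + log X)) ≤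
      ((C * j : ℕ) : ℝ) * (2 * log (log X)) := mul_le_mul_of_nonneg_left h6 hjC
  have h8 : ε * log X ≤ log C + ((C * j : ℕ) : ℝ) * (2 * log (log X)) := by linarith
  have h9 : ε / 2 * log X ≤ ((C * j : ℕ) : ℝ) * (2 * log (log X)) := by linarith
  push_cast at h9
  have h10 : ε / (4 * C) * log X = (1 / (2 * C)) * (ε / 2 * log X) := by
    field_simp
    ring
  rw [h10]
  have h11 : (1 / (2 * (C : ℝ))) * (ε / 2 * log X) ≤
      (1 / (2 * (C : ℝ))) * ((C : ℝ) * j * (2 * log (log X))) :=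
    mul_le_mul_of_nonneg_left h9 (by positivity)
  refine h11.trans (le_of_eq ?_)
  field_simp
-- END H2

-- BEGIN H3
/-- The case `ε < 1/2`. -/
private lemma h3_aux (ε : ℝ) (hε : 0 < ε) (hε1 : ε < 1 / 2) : ∃ (c : ℝ) (N0 : ℕ), 0 < c ∧
    ∀ N : ℕ, N0 ≤ N → Odd N → Nat.Perfect N → c * log (log N) ≤
      ((N.primeFactors.filter (fun p : ℕ => (log (N : ℝ)) ^ (1 / 2 - ε) < p)).card : ℝ) *
        log (log (log N)) := by
  obtain ⟨C, hC, hmain⟩ := main_form (2 * ε) (by positivity)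
  obtain ⟨c, X0, hc, hX0, hcount⟩ := count_real ε hε hε1 C hC
  have hd : 0 < 1 / 2 - ε := by linarith
  refine ⟨c, ⌈exp (max X0 ((2 : ℝ) ^ (1 / 2 - ε)⁻¹))⌉₊, hc, ?_⟩
  intro N hN hodd hperf
  have h1 : exp (max X0 ((2 : ℝ) ^ (1 / 2 - ε)⁻¹)) ≤ (N : ℝ) := Nat.ceil_le.1 hN
  have hN0 : (0 : ℝ) < N := lt_of_lt_of_le (exp_pos _) h1
  have h2 : max X0 ((2 : ℝ) ^ (1 / 2 - ε)⁻¹) ≤ log (N : ℝ) := (le_log_iff_exp_le hN0).2 h1
  have h3 : X0 ≤ log (N : ℝ) := (le_max_left _ _).trans h2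
  have h4 : (2 : ℝ) ^ (1 / 2 - ε)⁻¹ ≤ log (N : ℝ) := (le_max_right _ _).trans h2
  have hX : 0 < log (N : ℝ) := by linarith
  have h5 : (2 : ℝ) ≤ (log (N : ℝ)) ^ (1 / 2 - ε) := by
    have h6 : ((2 : ℝ) ^ (1 / 2 - ε)⁻¹) ^ (1 / 2 - ε) ≤ (log (N : ℝ)) ^ (1 / 2 - ε) :=
      rpow_le_rpow (by positivity) h4 hd.le
    rwa [← rpow_mul (by norm_num), inv_mul_cancel₀ hd.ne', rpow_one] at h6
  have h0 : 0 ≤ (log (N : ℝ)) ^ (1 / 2 - ε) := by linarith
  have hy2 : 2 ≤ ⌊(log (N : ℝ)) ^ (1 / 2 - ε)⌋₊ := Nat.le_floor (by exact_mod_cast h5)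
  have hfl : (⌊(log (N : ℝ)) ^ (1 / 2 - ε)⌋₊ : ℝ) ≤ (log (N : ℝ)) ^ (1 / 2 - ε) := Nat.floor_le h0
  have h7 := hcount (log (N : ℝ)) ⌊(log (N : ℝ)) ^ (1 / 2 - ε)⌋₊
    (Lg N ⌊(log (N : ℝ)) ^ (1 / 2 - ε)⌋₊).card h3 hfl (hmain N _ hodd hperf hy2)
  have h8 : Lg N ⌊(log (N : ℝ)) ^ (1 / 2 - ε)⌋₊ =
      N.primeFactors.filter (fun p : ℕ => (log (N : ℝ)) ^ (1 / 2 - ε) < p) := by
    refine Finset.filter_congr fun p _ => ?_
    exact Nat.floor_lt h0
  rw [h8] at h7
  exact h7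

/-- H3. for `N ≥ N0`: at least `c loglog N / logloglog N` primes above `(log N)^(1/2-ε)`.
`ε < 1/2`: `y = ⌊X^(1/2-ε)⌋ ≥ 2`, a prime `p > y` iff `p > X^(1/2-ε)`; F9 and H2.  `ε ≥ 1/2`: the set for `ε = 1/4` is
contained in the set for `ε` (`X ≥ 1`). -/
theorem count_large (ε : ℝ) (hε : 0 < ε) : ∃ (c : ℝ) (N0 : ℕ), 0 < c ∧ ∀ N : ℕ, N0 ≤ N → Odd N →
    Nat.Perfect N → c * log (log N) ≤
      ((N.primeFactors.filter (fun p : ℕ => (log (N : ℝ)) ^ (1 / 2 - ε) < p)).card : ℝ) *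
        log (log (log N)) := by
  rcases lt_or_ge ε (1 / 2) with h | h
  · exact h3_aux ε hε h
  · obtain ⟨c, N0, hc, hN⟩ := h3_aux (1 / 4) (by norm_num) (by norm_num)
    refine ⟨c, max N0 ⌈exp 3⌉₊, hc, ?_⟩
    intro N hN1 hodd hperf
    have h1 : exp 3 ≤ (N : ℝ) := Nat.ceil_le.1 ((le_max_right _ _).trans hN1)
    have hN0 : (0 : ℝ) < N := lt_of_lt_of_le (exp_pos _) h1
    have h2 : 3 ≤ log (N : ℝ) := (le_log_iff_exp_le hN0).2 h1
    have h3 : 1 ≤ log (log (N : ℝ)) := by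
      rw [le_log_iff_exp_le (by linarith)]
      have := exp_one_lt_three
      linarith
    have h4 : 0 ≤ log (log (log (N : ℝ))) := log_nonneg h3
    refine (hN N ((le_max_left _ _).trans hN1) hodd hperf).trans ?_
    refine mul_le_mul_of_nonneg_right ?_ h4
    have h5 : N.primeFactors.filter (fun p : ℕ => (log (N : ℝ)) ^ ((1 : ℝ) / 2 - 1 / 4) < p) ⊆
        N.primeFactors.filter (fun p : ℕ => (log (N : ℝ)) ^ (1 / 2 - ε) < p) := by
      intro p hp
      rw [Finset.mem_filter] at hp ⊢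
      refine ⟨hp.1, lt_of_le_of_lt ?_ hp.2⟩
      exact rpow_le_rpow_of_exponent_le (by linarith) (by linarith)
    exact_mod_cast Finset.card_le_card h5
-- END H3

-- BEGIN H4
/-- H4. the radical: `log rad N ≥ ∑_{p > X^(1/4)} log p ≥ (1/4) log X * (number of them)`; H3 with `ε = 1/4`. -/
theorem radical_large : ∃ (c : ℝ) (N0 : ℕ), 0 < c ∧ ∀ N : ℕ, N0 ≤ N → Odd N → Nat.Perfect N →
    c * (log (log N)) ^ 2 ≤ log ((∏ p ∈ N.primeFactors, p : ℕ) : ℝ) * log (log (log N)) := by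
  obtain ⟨c, N0, hc, h⟩ := count_large (1 / 4) (by norm_num)
  refine ⟨c / 4, max N0 ⌈Real.exp (Real.exp (Real.exp 1))⌉₊, by positivity, fun N hN hodd hp => ?_⟩
  have h1 := h N ((le_max_left _ _).trans hN) hodd hp
  have hN' : Real.exp (Real.exp (Real.exp 1)) ≤ N :=
    (Nat.le_ceil _).trans (by exact_mod_cast (le_max_right _ _).trans hN)
  have hN0 : (0 : ℝ) < N := (Real.exp_pos _).trans_le hN'
  have l1 : Real.exp (Real.exp 1) ≤ log (N : ℝ) := (Real.le_log_iff_exp_le hN0).2 hN'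
  have p1 : 0 < log (N : ℝ) := (Real.exp_pos _).trans_le l1
  have l2 : Real.exp 1 ≤ log (log (N : ℝ)) := (Real.le_log_iff_exp_le p1).2 l1
  have p2 : 0 < log (log (N : ℝ)) := (Real.exp_pos _).trans_le l2
  have l3 : 1 ≤ log (log (log (N : ℝ))) := (Real.le_log_iff_exp_le p2).2 l2
  set S := N.primeFactors.filter (fun p : ℕ => (log (N : ℝ)) ^ ((1 : ℝ) / 2 - 1 / 4) < p) with hS
  have h2 : (S.card : ℝ) * (log (log (N : ℝ)) / 4) ≤ log ((∏ p ∈ N.primeFactors, p : ℕ) : ℝ) := by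
    rw [Nat.cast_prod, Real.log_prod (fun p hp => Nat.cast_ne_zero.2 (Nat.prime_of_mem_primeFactors hp).ne_zero)]
    have e1 : ∑ p ∈ S, log (p : ℝ) ≤ ∑ p ∈ N.primeFactors, log (p : ℝ) :=
      Finset.sum_le_sum_of_subset_of_nonneg (Finset.filter_subset _ _) (fun p _ _ => Real.log_natCast_nonneg p)
    refine le_trans ?_ e1
    rw [← nsmul_eq_mul, ← Finset.sum_const]
    apply Finset.sum_le_sum
    intro p hp
    rw [hS, Finset.mem_filter] at hp
    have e2 := Real.log_le_log (Real.rpow_pos_of_pos p1 _) hp.2.le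
    rw [Real.log_rpow p1] at e2
    linarith
  have h3 : c / 4 * (log (log (N : ℝ))) ^ 2 ≤
      ((S.card : ℝ) * (log (log (N : ℝ)) / 4)) * log (log (log (N : ℝ))) := by
    have e3 := mul_le_mul_of_nonneg_left h1 (show 0 ≤ log (log (N : ℝ)) / 4 by positivity)
    calc c / 4 * (log (log (N : ℝ))) ^ 2 = log (log (N : ℝ)) / 4 * (c * log (log (N : ℝ))) := by ring
      _ ≤ log (log (N : ℝ)) / 4 * ((S.card : ℝ) * log (log (log (N : ℝ)))) := e3
      _ = _ := by ring
  exact h3.trans (mul_le_mul_of_nonneg_right h2 (by linarith))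
-- END H4

end Pool.Agent.Lib.MP_f02ea4_nt.Ml
end

section

/-! Elimination with bounded loss applied to an odd perfect number. -/

set_option autoImplicit false

namespace Pool.Agent.Lib.MP_f02ea4_nt.AE

open Finset Real
open Pool.Agent.Lib.MP_f02ea4_nt.Sm
open Pool.Agent.Lib.MP_f02ea4_nt.Ml (Lg s_prime s_ne_two s_sg s_aa_nonneg t_two HH process basics)

/-- the small primes -/
abbrev Vs (N y : ℕ) : Finset ℕ := N.primeFactors.filter (· ≤ y)

/-- heavy pair -/
def hv (N : ℕ) (T : ℝ) (q r : ℕ) : Prop := T < bb N q r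

lemma nn_le_log (N p : ℕ) : nn N p ≤ Nat.log 2 N + 1 := by
  have h1 : N.factorization p ≤ Nat.log 2 N := by
    by_cases hp : p.Prime
    · rw [Nat.factorization_def N hp]
      exact (padicValNat_le_nat_log (p := p) N).trans
        (Nat.log_anti_left (by norm_num) hp.two_le)
    · rw [Nat.factorization_eq_zero_of_not_prime N hp]
      exact Nat.zero_le _
  unfold nn
  omega

lemma log_ge_one {N q : ℕ} (hodd : Odd N) (hq : q ∈ N.primeFactors) : 1 ≤ log (q : ℝ) :=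
  d15_log3 (d15_three_le hodd hq)

lemma fac_sum_le (n : ℕ) (S : Finset ℕ) :
    ∑ r ∈ S, (n.factorization r : ℝ) * log r ≤ log n := by
  have h1 : log (n : ℝ) = ∑ r ∈ n.primeFactors, (n.factorization r : ℝ) * log r := by
    rw [Real.log_nat_eq_sum_factorization n, Finsupp.sum, Nat.support_factorization]
  have h2 : ∑ r ∈ S, (n.factorization r : ℝ) * log r =
      ∑ r ∈ S.filter (· ∈ n.primeFactors), (n.factorization r : ℝ) * log r := by
    symm
    apply Finset.sum_subset (Finset.filter_subset _ _)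
    intro q hq hnot
    have h : ¬ q ∈ n.primeFactors := fun h => hnot (Finset.mem_filter.2 ⟨hq, h⟩)
    have h0 : n.factorization q = 0 := by
      rw [← Finsupp.notMem_support_iff, Nat.support_factorization]
      exact h
    rw [h0]
    simp
  rw [h1, h2]
  refine Finset.sum_le_sum_of_subset_of_nonneg (fun r hr => (Finset.mem_filter.1 hr).2) ?_
  intro r hr _
  exact mul_nonneg (Nat.cast_nonneg _) (log_natCast_nonneg r)

/-- a payment in a pair that is not heavy -/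
lemma aa_light (N q r : ℕ) (T : ℝ) (hodd : Odd N) (hN : Nat.Perfect N) (hq : q ∈ N.primeFactors)
    (hr : r ∈ N.primeFactors) (h : ¬ hv N T q r) :
    aa N q r ≤ T + ((nn N q).factorization r : ℝ) * log r := by
  have h1 := aa_le N q r hodd hN hq hr
  have h2 : bb N q r ≤ T := not_lt.1 h
  linarith

lemma col_le (N y r : ℕ) (hodd : Odd N) (hN : Nat.Perfect N) (hr : r ∈ N.primeFactors) :
    ∑ q ∈ Vs N y, aa N q r ≤ (nn N r : ℝ) * log r := by
  have h1 := col_sum N r hodd hN hr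
  have h2 : ∑ q ∈ Vs N y, aa N q r ≤ ∑ q ∈ N.primeFactors, aa N q r :=
    Finset.sum_le_sum_of_subset_of_nonneg (Finset.filter_subset _ _)
      fun q _ _ => s_aa_nonneg N q r
  have h3 : mass N r ≤ (nn N r : ℝ) * log r := by
    refine mul_le_mul_of_nonneg_right ?_ (log_natCast_nonneg r)
    have : N.factorization r ≤ nn N r := by unfold nn; omega
    exact_mod_cast this
  linarith

lemma fac_two_le (N q : ℕ) (hodd : Odd N) (hN : Nat.Perfect N) (hq : q ∈ N.primeFactors) :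
    (Sq N q).factorization 2 ≤ 1 := by
  rw [← t_two N hodd hN]
  exact Finset.single_le_sum (f := fun q => (Sq N q).factorization 2) (fun _ _ => Nat.zero_le _) hq

lemma pred_sum_le (y q : ℕ) (hq : q.Prime) (hqy : q ≤ y) (S : Finset ℕ) :
    ∑ r ∈ S, ((q - 1).factorization r : ℝ) * log r ≤ log y := by
  refine (fac_sum_le (q - 1) S).trans ?_
  have h1 := hq.two_le
  apply Real.log_le_log
  · have : 0 < q - 1 := by omega
    exact_mod_cast this
  · have : q - 1 ≤ y := by omega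
    exact_mod_cast this

open Classical in
/-- the light part of `q^n - 1` -/
lemma light_part (N y q : ℕ) (T : ℝ) (hodd : Odd N) (hN : Nat.Perfect N) (hq : q ∈ Vs N y)
    (U H : Finset ℕ) (hy0 : 0 ≤ T)
    (hH : U.filter (fun r => hv N T q r) ⊆ H) :
    ∑ r ∈ (q ^ nn N q - 1).primeFactors \ (H ∪ Lg N y),
      ((q ^ nn N q - 1).factorization r : ℝ) * log r ≤
      log y + log 2 + (Vs N y).card * T + log (nn N q : ℝ) +
        ∑ r ∈ Vs N y \ U, aa N q r := by
  have hqm := Finset.mem_filter.1 hq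
  have hqp := s_prime hqm.1
  have hq1 : q - 1 ≠ 0 := by have := hqp.two_le; omega
  have hS0 : Sq N q ≠ 0 := c1_ne_zero N q hqp
  have hfac : ∀ r, (((q ^ nn N q - 1).factorization r : ℕ) : ℝ) * log r =
      ((q - 1).factorization r : ℝ) * log r + aa N q r := by
    intro r
    rw [s_sg hqm.1, Nat.factorization_mul hq1 hS0]
    simp only [Finsupp.coe_add, Pi.add_apply, Nat.cast_add, aa]
    ring
  set S := (q ^ nn N q - 1).primeFactors \ (H ∪ Lg N y) with hSdef
  rw [Finset.sum_congr rfl fun r _ => hfac r, Finset.sum_add_distrib]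
  have h1 := pred_sum_le y q hqp hqm.2 S
  have hlog2 : 0 ≤ log (2 : ℝ) := Real.log_nonneg (by norm_num)
  have h2 : ∑ r ∈ S, aa N q r ≤ log 2 + ∑ r ∈ (Vs N y).filter (fun r => ¬ (r ∈ U ∧ hv N T q r)),
      aa N q r := by
    have h3 : ∑ r ∈ S, aa N q r = ∑ r ∈ S.filter (· = 2), aa N q r +
        ∑ r ∈ S.filter (fun r => ¬ r = 2), aa N q r :=
      (Finset.sum_filter_add_sum_filter_not _ _ _).symm
    have h4 : ∑ r ∈ S.filter (· = 2), aa N q r ≤ log 2 := by
      have h5 : ∑ r ∈ S.filter (· = 2), aa N q r ≤ ∑ r ∈ ({2} : Finset ℕ), aa N q r := by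
        apply Finset.sum_le_sum_of_subset_of_nonneg
        · intro r hr
          rw [Finset.mem_filter] at hr
          exact Finset.mem_singleton.2 hr.2
        · intro r _ _
          exact s_aa_nonneg N q r
      rw [Finset.sum_singleton] at h5
      refine h5.trans ?_
      have h6 : (((Sq N q).factorization 2 : ℕ) : ℝ) ≤ 1 := by
        exact_mod_cast fac_two_le N q hodd hN hqm.1
      have h7 : aa N q 2 = ((Sq N q).factorization 2 : ℝ) * log 2 := by
        simp only [aa]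
        norm_num
      rw [h7]
      nlinarith
    have h8 : ∑ r ∈ S.filter (fun r => ¬ r = 2), aa N q r ≤
        ∑ r ∈ (Vs N y).filter (fun r => ¬ (r ∈ U ∧ hv N T q r)), aa N q r := by
      have h9 : ∑ r ∈ S.filter (fun r => ¬ r = 2), aa N q r =
          ∑ r ∈ (S.filter (fun r => ¬ r = 2)).filter (fun r => r ∣ Sq N q), aa N q r := by
        symm
        apply Finset.sum_subset (Finset.filter_subset _ _)
        intro r hr hnot
        have h10 : ¬ r ∣ Sq N q := fun h => hnot (Finset.mem_filter.2 ⟨hr, h⟩)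
        have h11 : (Sq N q).factorization r = 0 := Nat.factorization_eq_zero_of_not_dvd h10
        simp only [aa, h11]
        simp
      rw [h9]
      apply Finset.sum_le_sum_of_subset_of_nonneg
      · intro r hr
        rw [Finset.mem_filter, Finset.mem_filter, hSdef, Finset.mem_sdiff] at hr
        obtain ⟨⟨⟨hr1, hr2⟩, hr3⟩, hr4⟩ := hr
        have hrp := Nat.prime_of_mem_primeFactors hr1
        have hrN := mem_of_dvd_Sq N hN q r hqm.1 hrp hr3 hr4
        have hrH : r ∉ H := fun h => hr2 (Finset.mem_union_left _ h)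
        have hrL : r ∉ Lg N y := fun h => hr2 (Finset.mem_union_right _ h)
        have hry : r ≤ y := by
          by_contra hc
          exact hrL (Finset.mem_filter.2 ⟨hrN, not_le.1 hc⟩)
        rw [Finset.mem_filter]
        exact ⟨Finset.mem_filter.2 ⟨hrN, hry⟩, fun h => hrH (hH (Finset.mem_filter.2 h))⟩
      · intro r _ _
        exact s_aa_nonneg N q r
    linarith
  have h12 : ∑ r ∈ (Vs N y).filter (fun r => ¬ (r ∈ U ∧ hv N T q r)), aa N q r ≤
      ∑ r ∈ (Vs N y).filter (fun r => ¬ hv N T q r), aa N q r + ∑ r ∈ Vs N y \ U, aa N q r := by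
    have h13 : (Vs N y).filter (fun r => ¬ (r ∈ U ∧ hv N T q r)) ⊆
        (Vs N y).filter (fun r => ¬ hv N T q r) ∪ (Vs N y \ U) := by
      intro r hr
      rw [Finset.mem_filter] at hr
      rw [Finset.mem_union, Finset.mem_filter, Finset.mem_sdiff]
      by_cases hh : hv N T q r
      · exact Or.inr ⟨hr.1, fun h => hr.2 ⟨h, hh⟩⟩
      · exact Or.inl ⟨hr.1, hh⟩
    refine (Finset.sum_le_sum_of_subset_of_nonneg h13 fun r _ _ => s_aa_nonneg N q r).trans ?_
    have h14 := Finset.sum_union_inter (s₁ := (Vs N y).filter (fun r => ¬ hv N T q r))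
      (s₂ := Vs N y \ U) (f := fun r => aa N q r)
    have h15 : 0 ≤ ∑ r ∈ (Vs N y).filter (fun r => ¬ hv N T q r) ∩ (Vs N y \ U), aa N q r :=
      Finset.sum_nonneg fun r _ => s_aa_nonneg N q r
    linarith
  have h16 : ∑ r ∈ (Vs N y).filter (fun r => ¬ hv N T q r), aa N q r ≤
      (Vs N y).card * T + log (nn N q : ℝ) := by
    have h17 : ∀ r ∈ (Vs N y).filter (fun r => ¬ hv N T q r), aa N q r ≤
        T + ((nn N q).factorization r : ℝ) * log r := by
      intro r hr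
      rw [Finset.mem_filter, Finset.mem_filter] at hr
      exact aa_light N q r T hodd hN hqm.1 hr.1.1 hr.2
    refine (Finset.sum_le_sum h17).trans ?_
    rw [Finset.sum_add_distrib, Finset.sum_const, nsmul_eq_mul]
    have h18 := fac_sum_le (nn N q) ((Vs N y).filter (fun r => ¬ hv N T q r))
    have h19 : (((Vs N y).filter (fun r => ¬ hv N T q r)).card : ℝ) ≤ (Vs N y).card := by
      exact_mod_cast Finset.card_filter_le _ _
    have h20 := mul_le_mul_of_nonneg_right h19 hy0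
    linarith
  linarith

open Classical in
/-- the hypothesis `hEL` of the level argument -/
theorem el_apply (N y : ℕ) (T : ℝ) (hT : 0 ≤ T) (hodd : Odd N) (hN : Nat.Perfect N) (hy : 3 ≤ y)
    (g t E Y Cm Bb V : ℕ) (ρ Ks l : ℝ) (hV : V = Nat.log 2 N + 1)
    (ht : t = 2 * ((Lg N y).card + 1)) (hE1 : 1 ≤ E) (hyE : log y ≤ E)
    (hE2 : (E : ℝ) ≤ log y + 1) (hY1 : 1 ≤ Y)
    (hKs1 : 1 ≤ Ks) (hCm : 2 * (t : ℝ) ^ 2 * DD (t * (g + 1)) E Y * ρ ≤ Cm)
    (hBb : 3 * (t * Cm * V * E : ℝ) + 1 ≤ Bb)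
    (hY : log (Bb : ℝ) + log (1 + (t * Cm * (V * E) + V * E)) ≤ Y)
    (hKs : 3 * (t * Cm * DD (t * (g + 1)) E Y) < Ks)
    (hl : ((Vs N y).card + 1) * T + 2 * log y + log V + 2 ≤ l) :
    ∀ (U B : Finset ℕ) (Z w : ℝ), U ⊆ Vs N y → B ⊆ U → B.card = t →
      (∀ q ∈ B, (U.filter (fun r => hv N T q r)).card ≤ g) →
      (∀ q ∈ B, ∀ r ∈ B, q ≠ r → ¬ hv N T q r) → 1 ≤ Z →
      (∀ q ∈ B, Z ≤ (nn N q : ℝ) * log q ∧ (nn N q : ℝ) * log q ≤ ρ * Z) →
      (∀ q ∈ B, l + ∑ r ∈ Vs N y \ U, aa N q r ≤ w) → Z < Ks * w := by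
  intro U B Z w hUV hBU hBt hdeg hind hZ1 hZ hw
  have hyR : (3 : ℝ) ≤ y := by exact_mod_cast hy
  have hlogy : 1 ≤ log (y : ℝ) := d15_log3 hyR
  have hVpos : 1 ≤ V := by omega
  have hV1 : (1 : ℝ) ≤ V := by exact_mod_cast hVpos
  have hlogV : 0 ≤ log (V : ℝ) := Real.log_nonneg hV1
  have hE1R : (1 : ℝ) ≤ E := by exact_mod_cast hE1
  have hBne : B.Nonempty := by
    rw [← Finset.card_pos, hBt, ht]
    omega
  obtain ⟨q0, hq0⟩ := hBne
  have hcard0 : (0 : ℝ) ≤ ((Vs N y).card : ℝ) * T :=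
    mul_nonneg (Nat.cast_nonneg _) hT
  have hsum0 : ∀ q, 0 ≤ ∑ r ∈ Vs N y \ U, aa N q r := fun q =>
    Finset.sum_nonneg fun r _ => s_aa_nonneg N q r
  have hlw : l ≤ w := by
    have h1 := hw q0 hq0
    have h2 := hsum0 q0
    linarith
  have hEw : (E : ℝ) ≤ w := by nlinarith
  have hw0 : 0 < w := by linarith
  have hBV : ∀ q ∈ B, q ∈ Vs N y := fun q hq => hUV (hBU hq)
  have hmem : ∀ q ∈ B, q ∈ N.primeFactors ∧ q ≤ y := fun q hq => Finset.mem_filter.1 (hBV q hq)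
  have hzV : ∀ q ∈ Vs N y, (nn N q : ℝ) * log q ≤ V * E := by
    intro q hq
    have hqm := Finset.mem_filter.1 hq
    have h1 : (nn N q : ℝ) ≤ V := by
      rw [hV]
      exact_mod_cast nn_le_log N q
    have h2 : log (q : ℝ) ≤ E := by
      refine le_trans ?_ hyE
      exact Real.log_le_log (by exact_mod_cast (s_prime hqm.1).pos) (by exact_mod_cast hqm.2)
    exact mul_le_mul h1 h2 (log_natCast_nonneg q) (by positivity)
  have hZVE : Z ≤ V * E := (hZ q0 hq0).1.trans (hzV q0 (hBV q0 hq0))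
  have ht1 : (1 : ℝ) ≤ t := by
    have : 1 ≤ t := by omega
    exact_mod_cast this
  by_cases hwV : (V : ℝ) * E ≤ w
  · -- trivial case
    have hD : 100 ≤ DD (t * (g + 1)) E Y := by
      refine DD_ge ?_ hE1 hY1
      have : 1 ≤ t := by omega
      exact Nat.mul_pos this (by omega)
    have hρ1 : 1 ≤ ρ := by
      have h1 := (hZ q0 hq0).1.trans (hZ q0 hq0).2
      by_contra hlt
      rw [not_le] at hlt
      nlinarith
    have hCm1 : (1 : ℝ) ≤ Cm := by
      refine le_trans ?_ hCm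
      have h1 : (1 : ℝ) ≤ (t : ℝ) ^ 2 := by nlinarith
      have h2 : (1 : ℝ) ≤ 2 * (t : ℝ) ^ 2 * DD (t * (g + 1)) E Y := by nlinarith
      nlinarith
    have h3 : (1 : ℝ) < Ks := by
      have h4 : (1 : ℝ) ≤ t * Cm := by nlinarith
      have h5 : (1 : ℝ) ≤ t * Cm * DD (t * (g + 1)) E Y := by nlinarith
      linarith
    have h6 : Z ≤ w := hZVE.trans hwV
    nlinarith
  rw [not_le] at hwV
  set H : Finset ℕ := B ∪ B.biUnion (fun q => U.filter (fun r => hv N T q r)) with hHdef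
  have hHV : ∀ r ∈ H, r ∈ Vs N y := by
    intro r hr
    rw [hHdef, Finset.mem_union, Finset.mem_biUnion] at hr
    rcases hr with hr | ⟨q, _, hr⟩
    · exact hBV r hr
    · exact hUV (Finset.mem_filter.1 hr).1
  have hHcard : H.card ≤ t * (g + 1) := by
    have h1 := Finset.card_union_le B (B.biUnion (fun q => U.filter (fun r => hv N T q r)))
    have h2 := Finset.card_biUnion_le_card_mul B (fun q => U.filter (fun r => hv N T q r)) g hdeg
    rw [hBt] at h2
    have h3 : t * (g + 1) = t + t * g := by ring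
    rw [h3]
    rw [← hHdef] at h1
    omega
  have key := elim2 (ι := B) (fun q => q.1) (fun q => nn N q.1)
    (fun q => s_prime (hmem q.1 q.2).1) Subtype.val_injective (fun q => by unfold nn; omega)
    (Lg N y) H (fun r hr => s_prime (Finset.mem_filter.1 (hHV r hr)).1)
    (fun q => Finset.mem_union_left _ q.2)
    (fun Q hQ => s_prime (Finset.mem_filter.1 hQ).1) t (t * (g + 1))
    (by rw [Fintype.card_coe]; exact hBt) (by omega) hHcard w Z ρ E Y V Cm Bb
    (fun q => by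
      refine (light_part N y q.1 T hodd hN (hBV q.1 q.2) U H hT ?_).trans ?_
      · intro r hr
        exact Finset.mem_union_right _ (Finset.mem_biUnion.2 ⟨q.1, q.2, hr⟩)
      · have h1 := hw q.1 q.2
        have h2 : log (nn N q.1 : ℝ) ≤ log (V : ℝ) := by
          apply Real.log_le_log
          · exact_mod_cast (by unfold nn; omega : 0 < nn N q.1)
          · rw [hV]
            exact_mod_cast nn_le_log N q.1
        have h3 := Real.log_two_lt_d9
        nlinarith)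
    (fun q r hqr => by
      have hne : r.1 ≠ q.1 := fun h => hqr (Subtype.ext h.symm)
      have hrp := s_prime (hmem r.1 r.2).1
      have hr1 : r.1 - 1 ≠ 0 := by have := hrp.two_le; omega
      have hS0 : Sq N r.1 ≠ 0 := c1_ne_zero N r.1 hrp
      have h1 : (((r.1 ^ nn N r.1 - 1).factorization q.1 : ℕ) : ℝ) * log (q.1 : ℝ) =
          ((r.1 - 1).factorization q.1 : ℝ) * log (q.1 : ℝ) + aa N r.1 q.1 := by
        rw [s_sg (hmem r.1 r.2).1, Nat.factorization_mul hr1 hS0]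
        simp only [Finsupp.coe_add, Pi.add_apply, Nat.cast_add, aa]
        ring
      have h2 := pred_sum_le y r.1 hrp (hmem r.1 r.2).2 {q.1}
      rw [Finset.sum_singleton] at h2
      have h3 := aa_light N r.1 q.1 T hodd hN (hmem r.1 r.2).1 (hmem q.1 q.2).1
        (hind r.1 r.2 q.1 q.2 hne)
      have h4 := fac_sum_le (nn N r.1) {q.1}
      rw [Finset.sum_singleton] at h4
      have h5 : log (nn N r.1 : ℝ) ≤ log (V : ℝ) := by
        apply Real.log_le_log
        · exact_mod_cast (by unfold nn; omega : 0 < nn N r.1)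
        · rw [hV]
          exact_mod_cast nn_le_log N r.1
      change (((r.1 ^ nn N r.1 - 1).factorization q.1 : ℕ) : ℝ) * log (q.1 : ℝ) ≤ w
      rw [h1]
      nlinarith)
    (by linarith) (fun q => (hZ q.1 q.2).1) (fun q => (hZ q.1 q.2).2) hE1
    (fun r hr => by
      have hrm := Finset.mem_filter.1 (hHV r hr)
      refine le_trans ?_ hyE
      exact Real.log_le_log (by exact_mod_cast (s_prime hrm.1).pos) (by exact_mod_cast hrm.2))
    hEw (fun q => by rw [hV]; exact nn_le_log N q.1) hY1 hCm hBb (by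
      refine le_trans ?_ hY
      have h1 : 1 + (t * Cm * w + Z) ≤ 1 + (t * Cm * ((V : ℝ) * E) + V * E) := by
        have h2 : (t : ℝ) * Cm * w ≤ t * Cm * (V * E) :=
          mul_le_mul_of_nonneg_left hwV.le (by positivity)
        linarith
      have h2 : 0 < 1 + (t * Cm * w + Z) := by
        have : (0 : ℝ) ≤ t * Cm * w := by positivity
        linarith
      have h3 := Real.log_le_log h2 h1
      linarith)
  refine key.trans_lt ?_
  have h1 : 3 * (t * Cm * w * DD (t * (g + 1)) E Y) = 3 * (t * Cm * DD (t * (g + 1)) E Y) * w := by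
    ring
  rw [h1]
  exact mul_lt_mul_of_pos_right hKs hw0

end Pool.Agent.Lib.MP_f02ea4_nt.AE
end
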