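import Mathlib

section

/-! Abstract level argument (MP_f02ea4 candidate 22, page 706, LEVELS). -/

set_option autoImplicit false

namespace Pool.Agent.Lib.MP_f02ea4_nt.AE

open Finset Real

open Classical in
/-- independent set in a digraph with out-degrees `≤ g` and in-degrees `≤ I` -/
lemma indep (hv : ℕ → ℕ → Prop) (g I : ℕ) (t : ℕ) (S : Finset ℕ)
    (hout : ∀ q ∈ S, (S.filter (fun r => hv q r)).card ≤ g)
    (hin : ∀ r ∈ S, (S.filter (fun q => hv q r)).card ≤ I)
    (hS : t * (g + I + 1) ≤ S.card) :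
    ∃ B ⊆ S, B.card = t ∧ ∀ q ∈ B, ∀ r ∈ B, q ≠ r → ¬ hv q r := by
  induction t generalizing S with
  | zero =>
    exact ⟨∅, empty_subset _, card_empty, fun q hq => absurd hq (notMem_empty q)⟩
  | succ t ih =>
    have hS1 : 0 < S.card := lt_of_lt_of_le (by positivity) hS
    obtain ⟨q, hq⟩ := card_pos.1 hS1
    obtain ⟨N, hN⟩ : ∃ N : Finset ℕ,
        N = insert q ((S.filter fun r => hv q r) ∪ (S.filter fun r => hv r q)) := ⟨_, rfl⟩
    have hNcard : N.card ≤ g + I + 1 := by
      rw [hN]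
      refine (card_insert_le _ _).trans ?_
      have h1 := card_union_le (S.filter fun r => hv q r) (S.filter fun r => hv r q)
      have h2 := hout q hq
      have h3 := hin q hq
      omega
    have hsub : S \ N ⊆ S := sdiff_subset
    have hcard : t * (g + I + 1) ≤ (S \ N).card := by
      have h1 := le_card_sdiff N S
      have h2 : (t + 1) * (g + I + 1) = t * (g + I + 1) + (g + I + 1) := by ring
      omega
    obtain ⟨B, hB, hBt, hBind⟩ := ih (S \ N)
      (fun a ha => (card_le_card (filter_subset_filter _ hsub)).trans (hout a (hsub ha)))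
      (fun a ha => (card_le_card (filter_subset_filter _ hsub)).trans (hin a (hsub ha))) hcard
    have hqB : q ∉ B := by
      intro h
      have h1 := (mem_sdiff.1 (hB h)).2
      rw [hN] at h1
      exact h1 (mem_insert_self _ _)
    have hBN : ∀ r ∈ B, ¬ hv q r ∧ ¬ hv r q := by
      intro r hr
      have h1 := mem_sdiff.1 (hB hr)
      rw [hN] at h1
      constructor
      · intro h
        exact h1.2 (mem_insert_of_mem (mem_union_left _ (mem_filter.2 ⟨h1.1, h⟩)))
      · intro h
        exact h1.2 (mem_insert_of_mem (mem_union_right _ (mem_filter.2 ⟨h1.1, h⟩)))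
    refine ⟨insert q B, insert_subset hq (hB.trans hsub), ?_, ?_⟩
    · rw [card_insert_of_notMem hqB, hBt]
    · intro a ha b hb hab
      rcases mem_insert.1 ha with ha' | ha'
      · rcases mem_insert.1 hb with hb' | hb'
        · exact absurd (ha'.trans hb'.symm) hab
        · rw [ha']
          exact (hBN b hb').1
      · rcases mem_insert.1 hb with hb' | hb'
        · rw [hb']
          exact (hBN a ha').2
        · exact hBind a ha' b hb' hab

/-- few elements on each scale `[ρ^s, ρ^(s+1))` -/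
lemma card_scales (X : Finset ℕ) (z : ℕ → ℝ) (ρ Zm : ℝ) (m : ℕ) (hρ : 1 < ρ)
    (hz1 : ∀ q ∈ X, 1 ≤ z q) (hzm : ∀ q ∈ X, z q ≤ Zm)
    (hfib : ∀ s : ℕ, (X.filter (fun q => ρ ^ s ≤ z q ∧ z q < ρ ^ (s + 1))).card ≤ m) (hZm : 1 ≤ Zm) :
    (X.card : ℝ) ≤ m * (1 + log Zm / log ρ) := by
  have hlρ : 0 < log ρ := log_pos hρ
  have hρ0 : 0 < ρ := by linarith
  have hlZ : 0 ≤ log Zm / log ρ := div_nonneg (log_nonneg hZm) hlρ.le
  obtain ⟨sc, hsc⟩ : ∃ sc : ℕ → ℕ, sc = fun q => ⌊log (z q) / log ρ⌋₊ := ⟨_, rfl⟩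
  obtain ⟨n, hn⟩ : ∃ n : ℕ, n = ⌊log Zm / log ρ⌋₊ := ⟨_, rfl⟩
  have hmaps : ∀ q ∈ X, sc q ∈ range (n + 1) := by
    intro q hq
    rw [mem_range, Nat.lt_succ_iff, hn, hsc]
    apply Nat.floor_mono
    apply div_le_div_of_nonneg_right _ hlρ.le
    exact log_le_log (by linarith [hz1 q hq]) (hzm q hq)
  have hfib2 : ∀ s ∈ range (n + 1), (X.filter fun q => sc q = s).card ≤ m := by
    intro s _
    refine le_trans (card_le_card ?_) (hfib s)
    intro q hq
    have h1 := mem_filter.1 hq
    refine mem_filter.2 ⟨h1.1, ?_⟩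
    have hz := hz1 q h1.1
    have hlz : 0 ≤ log (z q) / log ρ := div_nonneg (log_nonneg hz) hlρ.le
    have h3 : ⌊log (z q) / log ρ⌋₊ = s := by
      have := h1.2
      rw [hsc] at this
      exact this
    have h2 := Nat.floor_le hlz
    have h2' := Nat.lt_floor_add_one (log (z q) / log ρ)
    rw [h3] at h2 h2'
    rw [le_div_iff₀ hlρ] at h2
    rw [div_lt_iff₀ hlρ] at h2'
    constructor
    · rw [← Real.log_le_log_iff (by positivity) (by linarith), Real.log_pow]
      exact h2
    · rw [← Real.log_lt_log_iff (by linarith) (by positivity), Real.log_pow]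
      push_cast
      exact h2'
  have h1 := card_le_mul_card_image_of_maps_to hmaps m hfib2
  rw [card_range] at h1
  have h2 : (X.card : ℝ) ≤ ((m * (n + 1) : ℕ) : ℝ) := by exact_mod_cast h1
  have h3 : (n : ℝ) ≤ log Zm / log ρ := by
    rw [hn]
    exact Nat.floor_le hlZ
  refine h2.trans ?_
  push_cast
  apply mul_le_mul_of_nonneg_left _ (by positivity)
  linarith

open Classical in
/-- at most half of the elements have more than `g ≥ 2 I` targets -/
private lemma levels_half (hv : ℕ → ℕ → Prop) (I g : ℕ) (hg : 2 * I ≤ g) (U : Finset ℕ)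
    (hin : ∀ r ∈ U, (U.filter fun q => hv q r).card ≤ I) :
    2 * (U.filter fun q => ¬ (U.filter fun r => hv q r).card ≤ g).card ≤ U.card := by
  obtain ⟨A, hA⟩ : ∃ A : Finset ℕ, A = U.filter fun q => ¬ (U.filter fun r => hv q r).card ≤ g :=
    ⟨_, rfl⟩
  rw [← hA]
  have h1 : ∑ q ∈ U, (U.filter fun r => hv q r).card = ∑ r ∈ U, (U.filter fun q => hv q r).card :=
    sum_card_bipartiteAbove_eq_sum_card_bipartiteBelow hv
  have h2 : ∑ r ∈ U, (U.filter fun q => hv q r).card ≤ U.card * I := by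
    calc ∑ r ∈ U, (U.filter fun q => hv q r).card ≤ ∑ _r ∈ U, I := sum_le_sum hin
      _ = U.card * I := by rw [sum_const, smul_eq_mul]
  have h3 : A.card * (2 * I + 1) ≤ ∑ q ∈ U, (U.filter fun r => hv q r).card := by
    calc A.card * (2 * I + 1) = ∑ _q ∈ A, (2 * I + 1) := by rw [sum_const, smul_eq_mul]
      _ ≤ ∑ q ∈ A, (U.filter fun r => hv q r).card := by
          refine sum_le_sum fun q hq => ?_
          rw [hA] at hq
          have := (mem_filter.1 hq).2
          omega
      _ ≤ ∑ q ∈ U, (U.filter fun r => hv q r).card := by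
          rw [hA]
          exact sum_le_sum_of_subset (filter_subset _ _)
  have h4 : A.card ≤ U.card := by
    rw [hA]
    exact card_le_card (filter_subset _ _)
  rcases Nat.eq_zero_or_pos I with hI | hI
  · subst hI
    omega
  · have h5 : A.card * (2 * I + 1) ≤ U.card * I := by omega
    have h6 : A.card * (2 * I) ≤ U.card * I := by
      have : A.card * (2 * I) ≤ A.card * (2 * I + 1) := Nat.mul_le_mul_left _ (by omega)
      omega
    have h7 : 2 * A.card * I ≤ U.card * I := by
      calc 2 * A.card * I = A.card * (2 * I) := by ring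
        _ ≤ U.card * I := h6
    exact Nat.le_of_mul_le_mul_right h7 hI

open Classical in
/-- LEVELS.  `U' = {q ∈ U : more than g heavy targets in U} ∪ {q ∈ U : at most g heavy targets in U and
`z q > ρ Ks (l + ∑_{r ∈ V \ U} a q r)`}`. -/
theorem levels (V : Finset ℕ) (hv : ℕ → ℕ → Prop) (a : ℕ → ℕ → ℝ) (z : ℕ → ℝ) (I g t : ℕ)
    (l ρ Ks Zm : ℝ) (ha : ∀ q ∈ V, ∀ r ∈ V, 0 ≤ a q r) (hz1 : ∀ q ∈ V, 1 ≤ z q)
    (hzm : ∀ q ∈ V, z q ≤ Zm) (hcol : ∀ r ∈ V, ∑ q ∈ V, a q r ≤ z r)
    (hI : ∀ r ∈ V, (V.filter (fun q => hv q r)).card ≤ I) (hg : 2 * I ≤ g) (hg1 : 1 ≤ g)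
    (hl : 0 < l) (hρ : 1 < ρ) (hKs : 0 < Ks) (hZm : 1 ≤ Zm)
    (hEL : ∀ (U B : Finset ℕ) (Z w : ℝ), U ⊆ V → B ⊆ U → B.card = t →
      (∀ q ∈ B, (U.filter (fun r => hv q r)).card ≤ g) →
      (∀ q ∈ B, ∀ r ∈ B, q ≠ r → ¬ hv q r) → 1 ≤ Z → (∀ q ∈ B, Z ≤ z q ∧ z q ≤ ρ * Z) →
      (∀ q ∈ B, l + ∑ r ∈ V \ U, a q r ≤ w) → Z < Ks * w) (i : ℕ) :
    ∃ U ⊆ V, (U.card : ℝ) ≤ V.card / 2 ^ i + 2 * (t * (g + I + 1) * (1 + log Zm / log ρ)) ∧
      ∑ q ∈ V \ U, z q + V.card * l ≤ (2 + ρ * Ks) ^ i * (V.card * l) := by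
  have hlρ : 0 < log ρ := log_pos hρ
  have hρ0 : 0 < ρ := by linarith
  have hlZ : 0 ≤ log Zm / log ρ := div_nonneg (log_nonneg hZm) hlρ.le
  obtain ⟨E0, hE0⟩ : ∃ E0 : ℝ, E0 = t * (g + I + 1) * (1 + log Zm / log ρ) := ⟨_, rfl⟩
  have hE00 : 0 ≤ E0 := by
    rw [hE0]
    positivity
  rw [← hE0]
  induction i with
  | zero =>
    refine ⟨V, Subset.refl _, ?_, ?_⟩
    · simp only [pow_zero, div_one]
      linarith
    · simp
  | succ i ih =>
    obtain ⟨U, hUV, hUcard, hUmass⟩ := ih
    obtain ⟨A, hA⟩ : ∃ A : Finset ℕ, A = U.filter fun q => (U.filter fun r => hv q r).card ≤ g :=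
      ⟨_, rfl⟩
    obtain ⟨A', hA'⟩ : ∃ A' : Finset ℕ,
        A' = U.filter fun q => ¬ (U.filter fun r => hv q r).card ≤ g := ⟨_, rfl⟩
    obtain ⟨w, hw⟩ : ∃ w : ℕ → ℝ, w = fun q => l + ∑ r ∈ V \ U, a q r := ⟨_, rfl⟩
    obtain ⟨X, hX⟩ : ∃ X : Finset ℕ, X = A.filter fun q => ρ * Ks * w q < z q := ⟨_, rfl⟩
    have hAU : A ⊆ U := by
      rw [hA]
      exact filter_subset _ _
    have hA'U : A' ⊆ U := by
      rw [hA']
      exact filter_subset _ _
    have hXA : X ⊆ A := by
      rw [hX]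
      exact filter_subset _ _
    have hin : ∀ S ⊆ V, ∀ r ∈ S, (S.filter fun q => hv q r).card ≤ I := by
      intro S hS r hr
      exact (card_le_card (filter_subset_filter _ hS)).trans (hI r (hS hr))
    have hhalf : 2 * A'.card ≤ U.card := by
      rw [hA']
      exact levels_half hv I g hg U (hin U hUV)
    have hXV : X ⊆ V := (hXA.trans hAU).trans hUV
    have hXcard : (X.card : ℝ) ≤ E0 := by
      have h1 := card_scales X z ρ Zm (t * (g + I + 1)) hρ (fun q hq => hz1 q (hXV hq))
        (fun q hq => hzm q (hXV hq)) ?_ hZm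
      · rw [hE0]
        push_cast at h1
        exact h1
      · intro s
        by_contra hcon
        rw [not_le] at hcon
        obtain ⟨F, hF⟩ : ∃ F : Finset ℕ,
            F = X.filter (fun q => ρ ^ s ≤ z q ∧ z q < ρ ^ (s + 1)) := ⟨_, rfl⟩
        rw [← hF] at hcon
        have hFX : F ⊆ X := by
          rw [hF]
          exact filter_subset _ _
        have hFU : F ⊆ U := (hFX.trans hXA).trans hAU
        have houtA : ∀ q ∈ A, (U.filter fun r => hv q r).card ≤ g := by
          intro q hq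
          rw [hA] at hq
          exact (mem_filter.1 hq).2
        obtain ⟨B, hB, hBt, hBind⟩ := indep hv g I t F
          (fun q hq => (card_le_card (filter_subset_filter _ hFU)).trans
            (houtA q (hXA (hFX hq))))
          (fun r hr => hin F (hFU.trans hUV) r hr) hcon.le
        have h2 := hEL U B (ρ ^ s) (ρ ^ s / Ks) hUV (hB.trans hFU) hBt
          (fun q hq => houtA q (hXA (hFX (hB hq)))) hBind (one_le_pow₀ hρ.le)
          (fun q hq => by
            have h3 := hB hq
            rw [hF] at h3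
            have h4 := (mem_filter.1 h3).2
            refine ⟨h4.1, ?_⟩
            have h5 := h4.2
            rw [pow_succ] at h5
            linarith)
          (fun q hq => by
            have h3 := hB hq
            rw [hF] at h3
            have h4 := (mem_filter.1 h3).2.2
            have h5 := hFX (hB hq)
            rw [hX] at h5
            have h6 := (mem_filter.1 h5).2
            have h7 : ρ * Ks * w q < ρ ^ (s + 1) := h6.trans h4
            rw [le_div_iff₀ hKs]
            have h8 : ρ * (w q * Ks) < ρ * ρ ^ s := by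
              calc ρ * (w q * Ks) = ρ * Ks * w q := by ring
                _ < ρ ^ (s + 1) := h7
                _ = ρ * ρ ^ s := by ring
            have h9 : w q * Ks < ρ ^ s := lt_of_mul_lt_mul_left h8 hρ0.le
            rw [hw] at h9
            exact h9.le)
        rw [mul_div_cancel₀ _ hKs.ne'] at h2
        exact lt_irrefl _ h2
    refine ⟨A' ∪ X, union_subset (hA'U.trans hUV) hXV, ?_, ?_⟩
    · have h1 : ((A' ∪ X).card : ℝ) ≤ A'.card + X.card := by exact_mod_cast card_union_le A' X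
      have h2 : (2 : ℝ) * A'.card ≤ U.card := by exact_mod_cast hhalf
      have h3 : (V.card : ℝ) / 2 ^ (i + 1) = V.card / 2 ^ i / 2 := by
        rw [pow_succ, div_mul_eq_div_div]
      rw [h3]
      linarith
    · have hsplit : V \ (A' ∪ X) = (V \ U) ∪ (A \ X) := by
        ext q
        simp only [mem_sdiff, mem_union, not_or]
        constructor
        · rintro ⟨hqV, hqA', hqX⟩
          by_cases hqU : q ∈ U
          · right
            refine ⟨?_, hqX⟩
            rw [hA, mem_filter]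
            refine ⟨hqU, ?_⟩
            by_contra hcon
            exact hqA' (by rw [hA', mem_filter]; exact ⟨hqU, hcon⟩)
          · left
            exact ⟨hqV, hqU⟩
        · rintro (⟨hqV, hqU⟩ | ⟨hqA, hqX⟩)
          · exact ⟨hqV, fun h => hqU (hA'U h), fun h => hqU (hAU (hXA h))⟩
          · refine ⟨hUV (hAU hqA), ?_, hqX⟩
            intro h
            rw [hA', mem_filter] at h
            rw [hA, mem_filter] at hqA
            exact h.2 hqA.2
      have hdisj : Disjoint (V \ U) (A \ X) := by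
        rw [disjoint_left]
        intro q hq hq'
        exact (mem_sdiff.1 hq).2 (hAU (mem_sdiff.1 hq').1)
      rw [hsplit, sum_union hdisj]
      have hAX : ∑ q ∈ A \ X, z q ≤ ρ * Ks * (V.card * l + ∑ r ∈ V \ U, z r) := by
        have h1 : ∑ q ∈ A \ X, z q ≤ ∑ q ∈ A \ X, ρ * Ks * w q := by
          refine sum_le_sum fun q hq => ?_
          have h2 := mem_sdiff.1 hq
          by_contra hcon
          rw [not_le] at hcon
          exact h2.2 (by rw [hX, mem_filter]; exact ⟨h2.1, hcon⟩)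
        have hAXV : A \ X ⊆ V := (sdiff_subset.trans hAU).trans hUV
        have hw0 : ∀ q ∈ V, 0 ≤ ∑ r ∈ V \ U, a q r := fun q hq =>
          sum_nonneg fun r hr => ha q hq r (mem_sdiff.1 hr).1
        have h3 : ∑ q ∈ A \ X, w q ≤ V.card * l + ∑ r ∈ V \ U, z r := by
          calc ∑ q ∈ A \ X, w q ≤ ∑ q ∈ V, w q := by
                refine sum_le_sum_of_subset_of_nonneg hAXV fun q hq _ => ?_
                rw [hw]
                have := hw0 q hq
                beta_reduce
                linarith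
            _ = V.card * l + ∑ q ∈ V, ∑ r ∈ V \ U, a q r := by
                rw [hw, sum_add_distrib, sum_const, nsmul_eq_mul]
            _ = V.card * l + ∑ r ∈ V \ U, ∑ q ∈ V, a q r := by rw [sum_comm]
            _ ≤ V.card * l + ∑ r ∈ V \ U, z r := by
                have := sum_le_sum fun r (hr : r ∈ V \ U) => hcol r (mem_sdiff.1 hr).1
                linarith
        rw [← mul_sum] at h1
        exact h1.trans (mul_le_mul_of_nonneg_left h3 (by positivity))
      have hS0 : 0 ≤ ∑ q ∈ V \ U, z q :=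
        sum_nonneg fun q hq => zero_le_one.trans (hz1 q (mem_sdiff.1 hq).1)
      have hVl : 0 ≤ (V.card : ℝ) * l := by positivity
      obtain ⟨S, hS⟩ : ∃ S : ℝ, S = ∑ q ∈ V \ U, z q := ⟨_, rfl⟩
      rw [← hS] at hUmass hAX hS0 ⊢
      have hρK : 0 ≤ ρ * Ks := by positivity
      calc S + ∑ q ∈ A \ X, z q + V.card * l ≤ S + ρ * Ks * (V.card * l + S) + V.card * l := by
            linarith
        _ ≤ (2 + ρ * Ks) * (S + V.card * l) := by nlinarith
        _ ≤ (2 + ρ * Ks) * ((2 + ρ * Ks) ^ i * (V.card * l)) :=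
            mul_le_mul_of_nonneg_left hUmass (by linarith)
        _ = (2 + ρ * Ks) ^ (i + 1) * (V.card * l) := by ring

end Pool.Agent.Lib.MP_f02ea4_nt.AE
end

section

/-! One step of the level argument with weighted in-degrees (MP_f02ea4, radical bound). -/

set_option autoImplicit false

namespace Pool.Agent.Lib.MP_f02ea4_nt.AG

open Finset Real

open Classical in
/-- in a digraph with out-degrees `≤ g` some vertex has in-degree `≤ g` -/
lemma exists_indeg_le (hv : ℕ → ℕ → Prop) (g : ℕ) (S : Finset ℕ) (hS : S.Nonempty)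
    (hout : ∀ q ∈ S, (S.filter (fun r => hv q r)).card ≤ g) :
    ∃ r ∈ S, (S.filter (fun q => hv q r)).card ≤ g := by
  by_contra hcon
  push Not at hcon
  have h1 : ∑ q ∈ S, (S.filter fun r => hv q r).card = ∑ r ∈ S, (S.filter fun q => hv q r).card :=
    sum_card_bipartiteAbove_eq_sum_card_bipartiteBelow hv
  have h2 : ∑ q ∈ S, (S.filter fun r => hv q r).card ≤ ∑ _q ∈ S, g := sum_le_sum hout
  have h3 : ∑ _r ∈ S, g < ∑ r ∈ S, (S.filter fun q => hv q r).card :=
    sum_lt_sum_of_nonempty hS hcon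
  omega

open Classical in
/-- independent set in a digraph with out-degrees `≤ g` -/
lemma indep_out (hv : ℕ → ℕ → Prop) (g : ℕ) (t : ℕ) (S : Finset ℕ)
    (hout : ∀ q ∈ S, (S.filter (fun r => hv q r)).card ≤ g)
    (hS : t * (2 * g + 1) ≤ S.card) :
    ∃ B ⊆ S, B.card = t ∧ ∀ q ∈ B, ∀ r ∈ B, q ≠ r → ¬ hv q r := by
  induction t generalizing S with
  | zero =>
    exact ⟨∅, empty_subset _, card_empty, fun q hq => absurd hq (notMem_empty q)⟩
  | succ t ih =>
    have hS1 : 0 < S.card := lt_of_lt_of_le (by positivity) hS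
    obtain ⟨q, hq, hin⟩ := exists_indeg_le hv g S (card_pos.1 hS1) hout
    obtain ⟨N, hN⟩ : ∃ N : Finset ℕ,
        N = insert q ((S.filter fun r => hv q r) ∪ (S.filter fun r => hv r q)) := ⟨_, rfl⟩
    have hNcard : N.card ≤ 2 * g + 1 := by
      rw [hN]
      refine (card_insert_le _ _).trans ?_
      have h1 := card_union_le (S.filter fun r => hv q r) (S.filter fun r => hv r q)
      have h2 := hout q hq
      omega
    have hsub : S \ N ⊆ S := sdiff_subset
    have hcard : t * (2 * g + 1) ≤ (S \ N).card := by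
      have h1 := le_card_sdiff N S
      have h2 : (t + 1) * (2 * g + 1) = t * (2 * g + 1) + (2 * g + 1) := by ring
      omega
    obtain ⟨B, hB, hBt, hBind⟩ := ih (S \ N)
      (fun a ha => (card_le_card (filter_subset_filter _ hsub)).trans (hout a (hsub ha))) hcard
    have hqB : q ∉ B := by
      intro h
      have h1 := (mem_sdiff.1 (hB h)).2
      rw [hN] at h1
      exact h1 (mem_insert_self _ _)
    have hBN : ∀ r ∈ B, ¬ hv q r ∧ ¬ hv r q := by
      intro r hr
      have h1 := mem_sdiff.1 (hB hr)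
      rw [hN] at h1
      constructor
      · intro h
        exact h1.2 (mem_insert_of_mem (mem_union_left _ (mem_filter.2 ⟨h1.1, h⟩)))
      · intro h
        exact h1.2 (mem_insert_of_mem (mem_union_right _ (mem_filter.2 ⟨h1.1, h⟩)))
    refine ⟨insert q B, insert_subset hq (hB.trans hsub), ?_, ?_⟩
    · rw [card_insert_of_notMem hqB, hBt]
    · intro a ha b hb hab
      rcases mem_insert.1 ha with ha' | ha'
      · rcases mem_insert.1 hb with hb' | hb'
        · exact absurd (ha'.trans hb'.symm) hab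
        · rw [ha']
          exact (hBN b hb').1
      · rcases mem_insert.1 hb with hb' | hb'
        · rw [hb']
          exact (hBN a ha').2
        · exact hBind a ha' b hb' hab

open Classical in
/-- few elements have more than `g` targets in `U` -/
private lemma step_half (hv : ℕ → ℕ → Prop) (g : ℕ) (V U : Finset ℕ) (hUV : U ⊆ V) (Iw : ℕ → ℝ)
    (m : ℝ) (hI : ∀ r ∈ V, ((V.filter (fun q => hv q r)).card : ℝ) ≤ Iw r) (hm : 0 ≤ m)
    (hUI : ∑ r ∈ U, Iw r ≤ g * m / 2) :
    ((U.filter fun q => ¬ (U.filter fun r => hv q r).card ≤ g).card : ℝ) ≤ m / 2 := by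
  obtain ⟨A, hA⟩ : ∃ A : Finset ℕ, A = U.filter fun q => ¬ (U.filter fun r => hv q r).card ≤ g :=
    ⟨_, rfl⟩
  rw [← hA]
  have h1 : ∑ q ∈ U, (U.filter fun r => hv q r).card = ∑ r ∈ U, (U.filter fun q => hv q r).card :=
    sum_card_bipartiteAbove_eq_sum_card_bipartiteBelow hv
  have h2 : ∑ r ∈ U, ((U.filter fun q => hv q r).card : ℝ) ≤ g * m / 2 := by
    refine le_trans (sum_le_sum fun r hr => ?_) hUI
    refine le_trans ?_ (hI r (hUV hr))
    exact_mod_cast card_le_card (filter_subset_filter _ hUV)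
  have h3 : A.card * (g + 1) ≤ ∑ q ∈ U, (U.filter fun r => hv q r).card := by
    calc A.card * (g + 1) = ∑ _q ∈ A, (g + 1) := by rw [sum_const, smul_eq_mul]
      _ ≤ ∑ q ∈ A, (U.filter fun r => hv q r).card := by
          refine sum_le_sum fun q hq => ?_
          rw [hA] at hq
          have := (mem_filter.1 hq).2
          omega
      _ ≤ ∑ q ∈ U, (U.filter fun r => hv q r).card := by
          rw [hA]
          exact sum_le_sum_of_subset (filter_subset _ _)
  rw [h1] at h3
  have h4 : (A.card : ℝ) * (g + 1) ≤ g * m / 2 := by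
    refine le_trans ?_ h2
    exact_mod_cast h3
  have hg : (0 : ℝ) ≤ g := Nat.cast_nonneg g
  have h5 : (A.card : ℝ) * (g + 1) ≤ m / 2 * (g + 1) := by nlinarith
  exact le_of_mul_le_mul_right h5 (by linarith)

open Classical in
/-- ONE LEVEL.  `A = {q ∈ U : at most g heavy targets in U}`, `A' = U \ A` has at most `m / 2` elements
(count the heavy pairs in `U` by their targets), `X = {q ∈ A : z q > ρ Ks (l + ∑_{r ∈ V \ U} a q r)}`,
`U' = A' ∪ X`.  On each scale `[ρ^s, ρ^(s+1))` there are fewer than `t (2 g + 1)` elements of `X`, as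
otherwise there is an independent set of `t` of them (greedy: in a digraph with out-degrees `≤ g` some vertex
has total degree `≤ 2 g`). -/
theorem level_step (V : Finset ℕ) (hv : ℕ → ℕ → Prop) (a : ℕ → ℕ → ℝ) (z Iw : ℕ → ℝ) (g t : ℕ)
    (l ρ Ks Zm m : ℝ) (ha : ∀ q ∈ V, ∀ r ∈ V, 0 ≤ a q r) (hz1 : ∀ q ∈ V, 1 ≤ z q)
    (hzm : ∀ q ∈ V, z q ≤ Zm) (hcol : ∀ r ∈ V, ∑ q ∈ V, a q r ≤ z r)
    (hI : ∀ r ∈ V, ((V.filter (fun q => hv q r)).card : ℝ) ≤ Iw r) (hm : 0 ≤ m)
    (hl : 0 < l) (hρ : 1 < ρ) (hKs : 0 < Ks) (hZm : 1 ≤ Zm)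
    (hEL : ∀ (U B : Finset ℕ) (Z w : ℝ), U ⊆ V → B ⊆ U → B.card = t →
      (∀ q ∈ B, (U.filter (fun r => hv q r)).card ≤ g) →
      (∀ q ∈ B, ∀ r ∈ B, q ≠ r → ¬ hv q r) → 1 ≤ Z → (∀ q ∈ B, Z ≤ z q ∧ z q ≤ ρ * Z) →
      (∀ q ∈ B, l + ∑ r ∈ V \ U, a q r ≤ w) → Z < Ks * w)
    (U : Finset ℕ) (hUV : U ⊆ V) (hUI : ∑ r ∈ U, Iw r ≤ g * m / 2) :
    ∃ U' ⊆ U, (U'.card : ℝ) ≤ m / 2 + t * (2 * g + 1) * (1 + log Zm / log ρ) ∧
      ∑ q ∈ V \ U', z q + V.card * l ≤ (2 + ρ * Ks) * (∑ q ∈ V \ U, z q + V.card * l) := by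
  have hlρ : 0 < log ρ := log_pos hρ
  have hρ0 : 0 < ρ := by linarith
  obtain ⟨A, hA⟩ : ∃ A : Finset ℕ, A = U.filter fun q => (U.filter fun r => hv q r).card ≤ g :=
    ⟨_, rfl⟩
  obtain ⟨A', hA'⟩ : ∃ A' : Finset ℕ,
      A' = U.filter fun q => ¬ (U.filter fun r => hv q r).card ≤ g := ⟨_, rfl⟩
  obtain ⟨w, hw⟩ : ∃ w : ℕ → ℝ, w = fun q => l + ∑ r ∈ V \ U, a q r := ⟨_, rfl⟩
  obtain ⟨X, hX⟩ : ∃ X : Finset ℕ, X = A.filter fun q => ρ * Ks * w q < z q := ⟨_, rfl⟩
  have hAU : A ⊆ U := by
    rw [hA]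
    exact filter_subset _ _
  have hA'U : A' ⊆ U := by
    rw [hA']
    exact filter_subset _ _
  have hXA : X ⊆ A := by
    rw [hX]
    exact filter_subset _ _
  have hhalf : (A'.card : ℝ) ≤ m / 2 := by
    rw [hA']
    exact step_half hv g V U hUV Iw m hI hm hUI
  have hXV : X ⊆ V := (hXA.trans hAU).trans hUV
  have hXcard : (X.card : ℝ) ≤ t * (2 * g + 1) * (1 + log Zm / log ρ) := by
    have h1 := AE.card_scales X z ρ Zm (t * (2 * g + 1)) hρ (fun q hq => hz1 q (hXV hq))
      (fun q hq => hzm q (hXV hq)) ?_ hZm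
    · push_cast at h1
      exact h1
    · intro s
      by_contra hcon
      rw [not_le] at hcon
      obtain ⟨F, hF⟩ : ∃ F : Finset ℕ,
          F = X.filter (fun q => ρ ^ s ≤ z q ∧ z q < ρ ^ (s + 1)) := ⟨_, rfl⟩
      rw [← hF] at hcon
      have hFX : F ⊆ X := by
        rw [hF]
        exact filter_subset _ _
      have hFU : F ⊆ U := (hFX.trans hXA).trans hAU
      have houtA : ∀ q ∈ A, (U.filter fun r => hv q r).card ≤ g := by
        intro q hq
        rw [hA] at hq
        exact (mem_filter.1 hq).2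
      obtain ⟨B, hB, hBt, hBind⟩ := indep_out hv g t F
        (fun q hq => (card_le_card (filter_subset_filter _ hFU)).trans
          (houtA q (hXA (hFX hq)))) hcon.le
      have h2 := hEL U B (ρ ^ s) (ρ ^ s / Ks) hUV (hB.trans hFU) hBt
        (fun q hq => houtA q (hXA (hFX (hB hq)))) hBind (one_le_pow₀ hρ.le)
        (fun q hq => by
          have h3 := hB hq
          rw [hF] at h3
          have h4 := (mem_filter.1 h3).2
          refine ⟨h4.1, ?_⟩
          have h5 := h4.2
          rw [pow_succ] at h5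
          linarith)
        (fun q hq => by
          have h3 := hB hq
          rw [hF] at h3
          have h4 := (mem_filter.1 h3).2.2
          have h5 := hFX (hB hq)
          rw [hX] at h5
          have h6 := (mem_filter.1 h5).2
          have h7 : ρ * Ks * w q < ρ ^ (s + 1) := h6.trans h4
          rw [le_div_iff₀ hKs]
          have h8 : ρ * (w q * Ks) < ρ * ρ ^ s := by
            calc ρ * (w q * Ks) = ρ * Ks * w q := by ring
              _ < ρ ^ (s + 1) := h7
              _ = ρ * ρ ^ s := by ring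
          have h9 : w q * Ks < ρ ^ s := lt_of_mul_lt_mul_left h8 hρ0.le
          rw [hw] at h9
          exact h9.le)
      rw [mul_div_cancel₀ _ hKs.ne'] at h2
      exact lt_irrefl _ h2
  refine ⟨A' ∪ X, union_subset hA'U (hXA.trans hAU), ?_, ?_⟩
  · have h1 : ((A' ∪ X).card : ℝ) ≤ A'.card + X.card := by exact_mod_cast card_union_le A' X
    linarith
  · have hsplit : V \ (A' ∪ X) = (V \ U) ∪ (A \ X) := by
      ext q
      simp only [mem_sdiff, mem_union, not_or]
      constructor
      · rintro ⟨hqV, hqA', hqX⟩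
        by_cases hqU : q ∈ U
        · right
          refine ⟨?_, hqX⟩
          rw [hA, mem_filter]
          refine ⟨hqU, ?_⟩
          by_contra hcon
          exact hqA' (by rw [hA', mem_filter]; exact ⟨hqU, hcon⟩)
        · left
          exact ⟨hqV, hqU⟩
      · rintro (⟨hqV, hqU⟩ | ⟨hqA, hqX⟩)
        · exact ⟨hqV, fun h => hqU (hA'U h), fun h => hqU (hAU (hXA h))⟩
        · refine ⟨hUV (hAU hqA), ?_, hqX⟩
          intro h
          rw [hA', mem_filter] at h
          rw [hA, mem_filter] at hqA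
          exact h.2 hqA.2
    have hdisj : Disjoint (V \ U) (A \ X) := by
      rw [disjoint_left]
      intro q hq hq'
      exact (mem_sdiff.1 hq).2 (hAU (mem_sdiff.1 hq').1)
    rw [hsplit, sum_union hdisj]
    have hAX : ∑ q ∈ A \ X, z q ≤ ρ * Ks * (V.card * l + ∑ r ∈ V \ U, z r) := by
      have h1 : ∑ q ∈ A \ X, z q ≤ ∑ q ∈ A \ X, ρ * Ks * w q := by
        refine sum_le_sum fun q hq => ?_
        have h2 := mem_sdiff.1 hq
        by_contra hcon
        rw [not_le] at hcon
        exact h2.2 (by rw [hX, mem_filter]; exact ⟨h2.1, hcon⟩)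
      have hAXV : A \ X ⊆ V := (sdiff_subset.trans hAU).trans hUV
      have hw0 : ∀ q ∈ V, 0 ≤ ∑ r ∈ V \ U, a q r := fun q hq =>
        sum_nonneg fun r hr => ha q hq r (mem_sdiff.1 hr).1
      have h3 : ∑ q ∈ A \ X, w q ≤ V.card * l + ∑ r ∈ V \ U, z r := by
        calc ∑ q ∈ A \ X, w q ≤ ∑ q ∈ V, w q := by
              refine sum_le_sum_of_subset_of_nonneg hAXV fun q hq _ => ?_
              rw [hw]
              have := hw0 q hq
              beta_reduce
              linarith
          _ = V.card * l + ∑ q ∈ V, ∑ r ∈ V \ U, a q r := by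
              rw [hw, sum_add_distrib, sum_const, nsmul_eq_mul]
          _ = V.card * l + ∑ r ∈ V \ U, ∑ q ∈ V, a q r := by rw [sum_comm]
          _ ≤ V.card * l + ∑ r ∈ V \ U, z r := by
              have := sum_le_sum fun r (hr : r ∈ V \ U) => hcol r (mem_sdiff.1 hr).1
              linarith
      rw [← mul_sum] at h1
      exact h1.trans (mul_le_mul_of_nonneg_left h3 (by positivity))
    have hS0 : 0 ≤ ∑ q ∈ V \ U, z q :=
      sum_nonneg fun q hq => zero_le_one.trans (hz1 q (mem_sdiff.1 hq).1)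
    have hVl : 0 ≤ (V.card : ℝ) * l := by positivity
    obtain ⟨S, hS⟩ : ∃ S : ℝ, S = ∑ q ∈ V \ U, z q := ⟨_, rfl⟩
    rw [← hS] at hAX hS0 ⊢
    have hρK : 0 ≤ ρ * Ks := by positivity
    calc S + ∑ q ∈ A \ X, z q + V.card * l ≤ S + ρ * Ks * (V.card * l + S) + V.card * l := by
          linarith
      _ ≤ (2 + ρ * Ks) * (S + V.card * l) := by nlinarith

end Pool.Agent.Lib.MP_f02ea4_nt.AG
end
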