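import Mathlib
import Pool.Agent.Lib.MP_f02ea4_nt.MlF
import Pool.Agent.Lib.MP_f02ea4_nt.Mg.G018

section

/-! Few heavy payers, threshold `X^(1/4) log y`, uniform in `y`. -/

set_option autoImplicit false

namespace Pool.Agent.Lib.MP_f02ea4_nt.AE

open Finset Real
open Pool.Agent.Lib.MP_f02ea4_nt.Sm
open Pool.Agent.Lib.MP_f02ea4_nt.Ml (absorb_log)

lemma large_pow : ∃ X0 : ℝ, 3 ≤ X0 ∧ ∀ X : ℝ, X0 ≤ X →
    log (17 * (1 + log X)) ≤ 1 / 8 * log X := by
  obtain ⟨C, hC1, hC⟩ := absorb_log 17 (by norm_num) (1 / 16) (by norm_num)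
  refine ⟨max 3 (C ^ 16), le_max_left _ _, ?_⟩
  intro X hX
  have h3 : 3 ≤ X := (le_max_left _ _).trans hX
  have h4 : C ^ 16 ≤ X := (le_max_right _ _).trans hX
  have hX1 : 1 ≤ X := by linarith
  have hlX : 0 ≤ log X := Real.log_nonneg hX1
  have h5 : C ≤ X ^ (1 / 16 : ℝ) := by
    have h6 : (C ^ 16) ^ (1 / 16 : ℝ) ≤ X ^ (1 / 16 : ℝ) :=
      Real.rpow_le_rpow (by positivity) h4 (by norm_num)
    rw [← Real.rpow_natCast C 16, ← Real.rpow_mul (by linarith)] at h6
    norm_num at h6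
    norm_num
    exact h6
  have h6 : (17 : ℝ) * (1 + log X) ≤ (((17 : ℕ) : ℝ) * (1 + log X)) ^ 17 := by
    have h7 : (1 : ℝ) ≤ ((17 : ℕ) : ℝ) * (1 + log X) := by push_cast; nlinarith
    have h8 := pow_le_pow_right₀ h7 (by norm_num : 1 ≤ 17)
    rw [pow_one] at h8
    push_cast at h8 ⊢
    exact h8
  have h9 := hC X hX1
  have h10 : (17 : ℝ) * (1 + log X) ≤ X ^ (1 / 8 : ℝ) := by
    calc (17 : ℝ) * (1 + log X) ≤ C * X ^ (1 / 16 : ℝ) := h6.trans h9
      _ ≤ X ^ (1 / 16 : ℝ) * X ^ (1 / 16 : ℝ) := mul_le_mul_of_nonneg_right h5 (by positivity)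
      _ = X ^ (1 / 8 : ℝ) := by
        rw [← Real.rpow_add (by linarith)]
        norm_num
  have h11 := Real.log_le_log (by positivity) h10
  rw [Real.log_rpow (by linarith)] at h11
  exact h11

lemma heavy_count2 : ∃ X0 : ℝ, 3 ≤ X0 ∧ ∀ (X A : ℝ) (y r : ℕ) (H : Finset ℕ), X0 ≤ X → 1 ≤ A →
    A ≤ 1 + log X → log y ≤ A * (1 + log X) → r.Prime → r ≤ y →
    (∀ q ∈ H, q.Prime ∧ q ≤ y) →
    (∀ q ∈ H, X ^ (1 / 4 : ℝ) * log y < ((q ^ (r - 1) - 1).factorization r : ℝ) * log r) →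
    (H.card : ℝ) ≤ 17 * A := by
  obtain ⟨X0, hX03, hX0⟩ := large_pow
  refine ⟨X0, hX03, ?_⟩
  intro X A y r H hX hA hA2 hyA hr hry hH hheavy
  have hX3 : 3 ≤ X := hX03.trans hX
  have hX1 : 1 ≤ X := by linarith
  have hlX1 : 1 ≤ log X := d15_log3 hX3
  by_contra hcon
  rw [not_le] at hcon
  set i := ⌊16 * A⌋₊ + 1 with hi
  have hi0 : 0 < i := by omega
  have hi1 : 16 * A < i := by
    rw [hi]
    push_cast
    exact Nat.lt_floor_add_one _
  have hi2 : (i : ℝ) ≤ 17 * A := by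
    rw [hi]
    push_cast
    have := Nat.floor_le (by linarith : 0 ≤ 16 * A)
    linarith
  have hr2 := hr.two_le
  have hy1 : (1 : ℝ) ≤ y := by exact_mod_cast (by omega : 1 ≤ y)
  have hcard : i ≤ H.card := by
    have : (i : ℝ) ≤ H.card := hi2.trans hcon.le
    exact_mod_cast this
  obtain ⟨H', hH', hH'c⟩ := Finset.exists_subset_card_eq hcard
  let q : Fin i → ℕ := fun j => ((Finset.equivFin H').symm (Fin.cast hH'c.symm j) : ℕ)
  have hqmem : ∀ j, q j ∈ H := fun j => hH' ((Finset.equivFin H').symm (Fin.cast hH'c.symm j)).2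
  have hqinj : Function.Injective q := by
    intro a b hab
    have h1 : (Finset.equivFin H').symm (Fin.cast hH'c.symm a) =
        (Finset.equivFin H').symm (Fin.cast hH'c.symm b) := Subtype.ext hab
    have h2 := (Finset.equivFin H').symm.injective h1
    exact Fin.cast_injective _ h2
  obtain ⟨j0, -, hj0⟩ := Finset.exists_min_image (Finset.univ : Finset (Fin i))
    (fun j => ((q j) ^ (r - 1) - 1).factorization r) ⟨⟨0, hi0⟩, mem_univ _⟩
  set v := ((q j0) ^ (r - 1) - 1).factorization r with hv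
  have hv0 := hheavy (q j0) (hqmem j0)
  rw [← hv] at hv0
  set T := X ^ (1 / 4 : ℝ) with hT
  have hT1 : 1 ≤ T := Real.one_le_rpow hX1 (by norm_num)
  set u := ⌊T⌋₊ with hu
  have huT : (u : ℝ) ≤ T := Nat.floor_le (by linarith)
  have hTu : T ≤ u + 1 := (Nat.lt_floor_add_one T).le
  have hlogy : 0 ≤ log (y : ℝ) := log_nonneg hy1
  have hPu : y ^ u < r ^ v := by
    have h1 : (y : ℝ) ^ u < (r : ℝ) ^ v := by
      have hr0 : (0 : ℝ) < r := by exact_mod_cast (by omega : 0 < r)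
      have hy0 : (0 : ℝ) < y := by linarith
      rw [← Real.log_lt_log_iff (by positivity) (by positivity), Real.log_pow, Real.log_pow]
      calc (u : ℝ) * log y ≤ T * log y := mul_le_mul_of_nonneg_right huT hlogy
        _ < v * log r := hv0
    exact_mod_cast h1
  have hg := gap_principle r v y u i hr q (fun j => (hH _ (hqmem j)).1) hqinj
    (fun j => (hH _ (hqmem j)).2) (by
      intro j
      have h1 : v ≤ ((q j) ^ (r - 1) - 1).factorization r := hj0 j (mem_univ _)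
      exact (Nat.pow_dvd_pow r h1).trans (Nat.ordProj_dvd _ _)) hPu
  have hpc : ((u : ℝ) + 1) ^ i ≤ (i.factorial : ℝ) * ((i + u).choose i : ℝ) := by
    have h1 := Nat.pow_le_choose (α := ℝ) i (i + u)
    have h2 : i + u + 1 - i = u + 1 := by omega
    rw [h2] at h1
    push_cast at h1
    rw [div_le_iff₀ (by positivity)] at h1
    linarith
  have hch : ((i + u).choose i : ℝ) ≤ y := by
    exact_mod_cast (hg.trans (by omega) : (i + u).choose i ≤ y)
  have hfac : (i.factorial : ℝ) ≤ (i : ℝ) ^ i := by exact_mod_cast Nat.factorial_le_pow i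
  have hmain : T ^ i ≤ (i : ℝ) ^ i * y := by
    calc T ^ i ≤ ((u : ℝ) + 1) ^ i := pow_le_pow_left₀ (by linarith) hTu _
      _ ≤ (i.factorial : ℝ) * ((i + u).choose i : ℝ) := hpc
      _ ≤ (i : ℝ) ^ i * y := by
        apply mul_le_mul hfac hch (by positivity) (by positivity)
  have hi0R : (0 : ℝ) < i := by exact_mod_cast hi0
  have hlog : (i : ℝ) * (1 / 4 * log X) ≤ i * log i + log y := by
    have h1 := Real.log_le_log (by positivity) hmain
    rw [Real.log_pow, Real.log_mul (by positivity) (by positivity), Real.log_pow, hT,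
      Real.log_rpow (by linarith)] at h1
    exact h1
  have hlogi : log (i : ℝ) ≤ 1 / 8 * log X := by
    refine le_trans (Real.log_le_log hi0R ?_) (hX0 X hX)
    linarith
  have h1 : (i : ℝ) * (1 / 8 * log X) ≤ log y := by
    have h2 : (i : ℝ) * log i ≤ i * (1 / 8 * log X) := mul_le_mul_of_nonneg_left hlogi hi0R.le
    linarith
  have h2 : (i : ℝ) * (1 / 8 * log X) ≤ A * (2 * log X) := by
    refine (h1.trans hyA).trans ?_
    apply mul_le_mul_of_nonneg_left _ (by linarith)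
    linarith
  nlinarith

end Pool.Agent.Lib.MP_f02ea4_nt.AE
end

section

/-! Few heavy payers, count depends on `log r`. -/

set_option autoImplicit false

namespace Pool.Agent.Lib.MP_f02ea4_nt.AG

open Finset Real
open Pool.Agent.Lib.MP_f02ea4_nt.Sm
open Pool.Agent.Lib.MP_f02ea4_nt.Ml (absorb_log)

lemma large_pow2 : ∃ X0 : ℝ, 3 ≤ X0 ∧ ∀ X : ℝ, X0 ≤ X →
    log (17 * (1 + log X) ^ 2) ≤ 1 / 8 * log X := by
  obtain ⟨C, hC1, hC⟩ := absorb_log 17 (by norm_num) (1 / 16) (by norm_num)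
  refine ⟨max 3 (C ^ 16), le_max_left _ _, ?_⟩
  intro X hX
  have h3 : 3 ≤ X := (le_max_left _ _).trans hX
  have h4 : C ^ 16 ≤ X := (le_max_right _ _).trans hX
  have hX1 : 1 ≤ X := by linarith
  have hlX : 0 ≤ log X := Real.log_nonneg hX1
  have h5 : C ≤ X ^ (1 / 16 : ℝ) := by
    have h6 : (C ^ 16) ^ (1 / 16 : ℝ) ≤ X ^ (1 / 16 : ℝ) :=
      Real.rpow_le_rpow (by positivity) h4 (by norm_num)
    rw [← Real.rpow_natCast C 16, ← Real.rpow_mul (by linarith)] at h6
    norm_num at h6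
    norm_num
    exact h6
  have h6 : (17 : ℝ) * (1 + log X) ^ 2 ≤ (((17 : ℕ) : ℝ) * (1 + log X)) ^ 17 := by
    have h7 : (1 : ℝ) ≤ ((17 : ℕ) : ℝ) * (1 + log X) := by push_cast; nlinarith
    have h8 := pow_le_pow_right₀ h7 (by norm_num : 2 ≤ 17)
    refine le_trans ?_ h8
    push_cast
    rw [mul_pow]
    have h9 : (0 : ℝ) ≤ (1 + log X) ^ 2 := by positivity
    nlinarith
  have h9 := hC X hX1
  have h10 : (17 : ℝ) * (1 + log X) ^ 2 ≤ X ^ (1 / 8 : ℝ) := by
    calc (17 : ℝ) * (1 + log X) ^ 2 ≤ C * X ^ (1 / 16 : ℝ) := h6.trans h9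
      _ ≤ X ^ (1 / 16 : ℝ) * X ^ (1 / 16 : ℝ) := mul_le_mul_of_nonneg_right h5 (by positivity)
      _ = X ^ (1 / 8 : ℝ) := by
        rw [← Real.rpow_add (by linarith)]
        norm_num
  have h11 := Real.log_le_log (by positivity) h10
  rw [Real.log_rpow (by linarith)] at h11
  exact h11

lemma heavy_count3 : ∃ X0 : ℝ, 3 ≤ X0 ∧ ∀ (X : ℝ) (y r : ℕ) (H : Finset ℕ), X0 ≤ X →
    log y ≤ (1 + log X) ^ 3 → r.Prime → r ≤ y →
    (∀ q ∈ H, q.Prime ∧ q ≤ y) →
    (∀ q ∈ H, X ^ (1 / 4 : ℝ) * log y < ((q ^ (r - 1) - 1).factorization r : ℝ) * log r) →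
    (H.card : ℝ) ≤ 1 + 16 * (log r / (1 + log X)) := by
  obtain ⟨X0, hX03, hX0⟩ := large_pow2
  refine ⟨X0, hX03, ?_⟩
  intro X y r H hX hyA hr hry hH hheavy
  have hX3 : 3 ≤ X := hX03.trans hX
  have hX1 : 1 ≤ X := by linarith
  have hlX1 : 1 ≤ log X := d15_log3 hX3
  have hr2 := hr.two_le
  have hr1R : (1 : ℝ) ≤ r := by exact_mod_cast (by omega : 1 ≤ r)
  have hy1 : (1 : ℝ) ≤ y := by exact_mod_cast (by omega : 1 ≤ y)
  have hlogr : 0 ≤ log (r : ℝ) := log_nonneg hr1R
  have hlogry : log (r : ℝ) ≤ log y :=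
    Real.log_le_log (by linarith) (by exact_mod_cast hry)
  have hL : 0 < 1 + log X := by linarith
  have hA0 : 0 ≤ log (r : ℝ) / (1 + log X) := div_nonneg hlogr hL.le
  have hA1 : log (r : ℝ) / (1 + log X) ≤ (1 + log X) ^ 2 := by
    rw [div_le_iff₀ hL]
    calc log (r : ℝ) ≤ log y := hlogry
      _ ≤ (1 + log X) ^ 3 := hyA
      _ = (1 + log X) ^ 2 * (1 + log X) := by ring
  by_contra hcon
  rw [not_le] at hcon
  set i := ⌊16 * (log (r : ℝ) / (1 + log X))⌋₊ + 1 with hi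
  have hi0 : 0 < i := by omega
  have hi1 : 16 * (log (r : ℝ) / (1 + log X)) < i := by
    rw [hi]
    push_cast
    exact Nat.lt_floor_add_one _
  have hi2 : (i : ℝ) ≤ 1 + 16 * (log (r : ℝ) / (1 + log X)) := by
    rw [hi]
    push_cast
    have := Nat.floor_le (by linarith : 0 ≤ 16 * (log (r : ℝ) / (1 + log X)))
    linarith
  have hcard : i ≤ H.card := by
    have : (i : ℝ) ≤ H.card := hi2.trans hcon.le
    exact_mod_cast this
  obtain ⟨H', hH', hH'c⟩ := Finset.exists_subset_card_eq hcard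
  let q : Fin i → ℕ := fun j => ((Finset.equivFin H').symm (Fin.cast hH'c.symm j) : ℕ)
  have hqmem : ∀ j, q j ∈ H := fun j => hH' ((Finset.equivFin H').symm (Fin.cast hH'c.symm j)).2
  have hqinj : Function.Injective q := by
    intro a b hab
    have h1 : (Finset.equivFin H').symm (Fin.cast hH'c.symm a) =
        (Finset.equivFin H').symm (Fin.cast hH'c.symm b) := Subtype.ext hab
    have h2 := (Finset.equivFin H').symm.injective h1
    exact Fin.cast_injective _ h2
  obtain ⟨j0, -, hj0⟩ := Finset.exists_min_image (Finset.univ : Finset (Fin i))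
    (fun j => ((q j) ^ (r - 1) - 1).factorization r) ⟨⟨0, hi0⟩, mem_univ _⟩
  set v := ((q j0) ^ (r - 1) - 1).factorization r with hv
  have hv0 := hheavy (q j0) (hqmem j0)
  rw [← hv] at hv0
  set T := X ^ (1 / 4 : ℝ) with hT
  have hT1 : 1 ≤ T := Real.one_le_rpow hX1 (by norm_num)
  set u := ⌊T⌋₊ with hu
  have huT : (u : ℝ) ≤ T := Nat.floor_le (by linarith)
  have hTu : T ≤ u + 1 := (Nat.lt_floor_add_one T).le
  have hlogy : 0 ≤ log (y : ℝ) := log_nonneg hy1
  have hPu : y ^ u < r ^ v := by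
    have h1 : (y : ℝ) ^ u < (r : ℝ) ^ v := by
      have hr0 : (0 : ℝ) < r := by linarith
      have hy0 : (0 : ℝ) < y := by linarith
      rw [← Real.log_lt_log_iff (by positivity) (by positivity), Real.log_pow, Real.log_pow]
      calc (u : ℝ) * log y ≤ T * log y := mul_le_mul_of_nonneg_right huT hlogy
        _ < v * log r := hv0
    exact_mod_cast h1
  have hg := gap_principle r v y u i hr q (fun j => (hH _ (hqmem j)).1) hqinj
    (fun j => (hH _ (hqmem j)).2) (by
      intro j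
      have h1 : v ≤ ((q j) ^ (r - 1) - 1).factorization r := hj0 j (mem_univ _)
      exact (Nat.pow_dvd_pow r h1).trans (Nat.ordProj_dvd _ _)) hPu
  have hpc : ((u : ℝ) + 1) ^ i ≤ (i.factorial : ℝ) * ((i + u).choose i : ℝ) := by
    have h1 := Nat.pow_le_choose (α := ℝ) i (i + u)
    have h2 : i + u + 1 - i = u + 1 := by omega
    rw [h2] at h1
    push_cast at h1
    rw [div_le_iff₀ (by positivity)] at h1
    linarith
  have hch : ((i + u).choose i : ℝ) ≤ r := by
    exact_mod_cast (hg.trans (by omega) : (i + u).choose i ≤ r)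
  have hfac : (i.factorial : ℝ) ≤ (i : ℝ) ^ i := by exact_mod_cast Nat.factorial_le_pow i
  have hmain : T ^ i ≤ (i : ℝ) ^ i * r := by
    calc T ^ i ≤ ((u : ℝ) + 1) ^ i := pow_le_pow_left₀ (by linarith) hTu _
      _ ≤ (i.factorial : ℝ) * ((i + u).choose i : ℝ) := hpc
      _ ≤ (i : ℝ) ^ i * r := by
        apply mul_le_mul hfac hch (by positivity) (by positivity)
  have hi0R : (0 : ℝ) < i := by exact_mod_cast hi0
  have hlog : (i : ℝ) * (1 / 4 * log X) ≤ i * log i + log r := by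
    have h1 := Real.log_le_log (by positivity) hmain
    rw [Real.log_pow, Real.log_mul (by positivity) (by positivity), Real.log_pow, hT,
      Real.log_rpow (by linarith)] at h1
    exact h1
  have hlogi : log (i : ℝ) ≤ 1 / 8 * log X := by
    refine le_trans (Real.log_le_log hi0R ?_) (hX0 X hX)
    have h1 : (1 : ℝ) ≤ (1 + log X) ^ 2 := by nlinarith
    linarith
  have h1 : (i : ℝ) * (1 / 8 * log X) ≤ log r := by
    have h2 : (i : ℝ) * log i ≤ i * (1 / 8 * log X) := mul_le_mul_of_nonneg_left hlogi hi0R.le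
    linarith
  have h3 : 16 * log (r : ℝ) < i * (1 + log X) := by
    have h4 : 16 * (log (r : ℝ) / (1 + log X)) * (1 + log X) < i * (1 + log X) :=
      mul_lt_mul_of_pos_right hi1 hL
    have h5 : 16 * (log (r : ℝ) / (1 + log X)) * (1 + log X) = 16 * log r := by
      field_simp
    linarith
  have h6 : (i : ℝ) * (1 + log X) ≤ i * (2 * log X) :=
    mul_le_mul_of_nonneg_left (by linarith) hi0R.le
  nlinarith

end Pool.Agent.Lib.MP_f02ea4_nt.AG
end
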