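import Mathlib
import Pool.Agent.Lib.MP_f02ea4_nt.Mg.G021
import Pool.Agent.Lib.MP_f02ea4_nt.MlF
import Pool.Agent.Lib.MP_f02ea4_nt.MlI

section

/-! At most one large prime, part U: assembly, exponent `3/2 + ε`. -/

set_option autoImplicit false

namespace Pool.Agent.Lib.MP_f02ea4_nt.Ml

open Finset Real Sm

lemma u_log_pos {N q : ℕ} (hodd : Odd N) (hq : q ∈ N.primeFactors) : 1 ≤ log (q : ℝ) :=
  d15_log3 (d15_three_le hodd hq)

lemma u_nn_ge (N q : ℕ) : (1 : ℝ) ≤ (nn N q : ℝ) := by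
  have h6 : (nn N q : ℝ) = (N.factorization q : ℝ) + 1 := by push_cast; ring
  rw [h6]
  have : (0 : ℝ) ≤ (N.factorization q : ℝ) := Nat.cast_nonneg _
  linarith

lemma u_nn_le (N q : ℕ) (hodd : Odd N) (hN : Nat.Perfect N) (hq : q ∈ N.primeFactors) :
    (nn N q : ℝ) ≤ 2 * log (N : ℝ) := by
  have h1 := (basics N hodd hN).1
  have h4 : mass N q ≤ log (N : ℝ) := by
    rw [log_eq_sum N hN.2.ne']
    exact single_le_sum (f := fun r => mass N r) (fun r _ => s_mass_nonneg N r) hq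
  have h5 : (N.factorization q : ℝ) ≤ mass N q :=
    le_mul_of_one_le_right (Nat.cast_nonneg _) (u_log_pos hodd hq)
  have h6 : (nn N q : ℝ) = (N.factorization q : ℝ) + 1 := by push_cast; ring
  linarith

/-- bounds for the number of divisors and the logarithm of `n_q` -/
lemma u_tau (ε : ℝ) (hε : 0 < ε) : ∃ D : ℝ, 1 ≤ D ∧ ∀ N y : ℕ, Odd N → Nat.Perfect N → 2 ≤ y →
    (N.primeFactors.filter (y < ·)).card ≤ 1 → ∀ q ∈ N.primeFactors,
    ((nn N q).divisors.card : ℝ) ≤ D * (y : ℝ) ^ ε ∧ log (nn N q : ℝ) ≤ D * (y : ℝ) ^ ε := by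
  obtain ⟨M, hM⟩ := part_b 1
  have hM0 : (0 : ℝ) ≤ M := Nat.cast_nonneg M
  obtain ⟨η, hη⟩ : ∃ η : ℝ, η = ε / (M + 1) := ⟨_, rfl⟩
  have hη0 : 0 < η := by rw [hη]; positivity
  have hηε : M * η ≤ ε := by
    rw [hη, mul_div_assoc', div_le_iff₀ (by positivity)]
    nlinarith
  obtain ⟨T, hT1, hT⟩ := tau_bound η hη0
  obtain ⟨G, hG⟩ : ∃ G : ℝ, G = (2 * M + 1) ^ η := ⟨_, rfl⟩
  have hG1 : 1 ≤ G := by rw [hG]; exact one_le_rpow (by linarith) hη0.le
  refine ⟨T * G + G / η, ?_, ?_⟩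
  · have h1 : 1 ≤ T * G := one_le_mul_of_one_le_of_one_le hT1 hG1
    have h2 : 0 ≤ G / η := by positivity
    linarith
  intro N y hodd hN hy hcard q hq
  have hx1 : (1 : ℝ) ≤ y := by exact_mod_cast (by omega : 1 ≤ y)
  have hx0 : (0 : ℝ) < y := by linarith
  have hn1 := u_nn_ge N q
  have hn2 : (nn N q : ℝ) ≤ (2 * M + 1) * (y : ℝ) ^ M := by
    refine (u_nn_le N q hodd hN hq).trans ?_
    have h1 := hM N y hodd hN hy hcard
    have h2 : 0 ≤ (y : ℝ) ^ M := by positivity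
    nlinarith
  have hpow : (nn N q : ℝ) ^ η ≤ G * (y : ℝ) ^ ε := by
    have h1 : (nn N q : ℝ) ^ η ≤ ((2 * M + 1) * (y : ℝ) ^ M) ^ η :=
      rpow_le_rpow (by linarith) hn2 hη0.le
    refine h1.trans ?_
    rw [mul_rpow (by positivity) (by positivity), ← hG, ← rpow_natCast, ← rpow_mul hx0.le]
    refine mul_le_mul_of_nonneg_left ?_ (by linarith)
    exact rpow_le_rpow_of_exponent_le hx1 hηε
  have hye : 0 ≤ (y : ℝ) ^ ε := by positivity
  have hGη : 0 ≤ G / η := by positivity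
  constructor
  · have h1 := hT (nn N q) (Nat.succ_pos _)
    calc ((nn N q).divisors.card : ℝ) ≤ T * (nn N q : ℝ) ^ η := h1
      _ ≤ T * (G * (y : ℝ) ^ ε) := mul_le_mul_of_nonneg_left hpow (by linarith)
      _ = T * G * (y : ℝ) ^ ε := by ring
      _ ≤ (T * G + G / η) * (y : ℝ) ^ ε := mul_le_mul_of_nonneg_right (by linarith) hye
  · have h1 : log (nn N q : ℝ) ≤ (nn N q : ℝ) ^ η / η := log_le_rpow_div (by linarith) hη0
    calc log (nn N q : ℝ) ≤ (nn N q : ℝ) ^ η / η := h1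
      _ ≤ (G * (y : ℝ) ^ ε) / η := div_le_div_of_nonneg_right hpow hη0.le
      _ = G / η * (y : ℝ) ^ ε := by ring
      _ ≤ (T * G + G / η) * (y : ℝ) ^ ε := by
          refine mul_le_mul_of_nonneg_right ?_ hye
          have : 0 ≤ T * G := by positivity
          linarith

/-- few heavy small primes -/
lemma u_light (ε : ℝ) (hε : 0 < ε) (hε1 : ε ≤ 1) : ∃ (t : ℕ) (C : ℝ), 1 ≤ C ∧
    ∀ N y : ℕ, Odd N → Nat.Perfect N → 3 ≤ y → (y : ℝ) ≤ log N → (Lg N y).card = 1 →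
    ∃ Z : ℝ, (y : ℝ) ≤ Z ∧ Z ≤ C * (y : ℝ) ^ (1 + ε) ∧
      (N.primeFactors.filter (fun p => p ≤ y ∧ Z < nn N p * log (p : ℝ))).card ≤ t := by
  obtain ⟨B, hB⟩ := part_b 1
  have hB0 : (0 : ℝ) ≤ B := Nat.cast_nonneg B
  obtain ⟨η, hη⟩ : ∃ η : ℝ, η = ε / 8 := ⟨_, rfl⟩
  have hη0 : 0 < η := by rw [hη]; positivity
  have hη1 : η ≤ 1 / 2 := by rw [hη]; linarith
  obtain ⟨M, hM⟩ := exists_nat_ge (4 * B / ε + 1)
  have hM1 : (1 : ℝ) ≤ M := by
    have : 0 ≤ 4 * B / ε := by positivity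
    linarith
  have hM1' : 1 ≤ M := by exact_mod_cast hM1
  have hBM : B * (1 / (M : ℝ)) ≤ ε / 4 := by
    have h1 : 4 * B / ε ≤ M := by linarith
    rw [div_le_iff₀ hε] at h1
    rw [mul_one_div, div_le_iff₀ (by linarith)]
    linarith
  obtain ⟨C1, hC1, hF1⟩ := heavy_card η hη0
  obtain ⟨K1, hK1, hF4⟩ := w_bound η hη0 C1 hC1
  obtain ⟨K2, hK2, hF5⟩ := Y_bound η hη0 hη1 M hM1' K1 hK1
  obtain ⟨K, hK, hF6⟩ := size_bound η hη0 M hM1' K1 K2 hK1 hK2
  obtain ⟨δ, hδ⟩ : ∃ δ : ℝ, δ = ε / (4 * (B + 1)) := ⟨_, rfl⟩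
  have hδ0 : 0 < δ := by rw [hδ]; positivity
  have hBδ : B * δ ≤ ε / 4 := by
    rw [hδ, mul_div_assoc', div_le_div_iff₀ (by positivity) (by norm_num)]
    nlinarith
  obtain ⟨C2, hC2, habs⟩ := absorb_log (2 * K) (by omega) δ hδ0
  obtain ⟨G, hG⟩ : ∃ G : ℝ, G = (B + 1) ^ (1 / (M : ℝ)) * (C2 * (B + 1) ^ δ) := ⟨_, rfl⟩
  have hG1 : 1 ≤ G := by
    rw [hG]
    refine one_le_mul_of_one_le_of_one_le (one_le_rpow (by linarith) (by positivity)) ?_
    exact one_le_mul_of_one_le_of_one_le hC2 (one_le_rpow (by linarith) hδ0.le)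
  refine ⟨(M + 1) * (1 + 1), G, hG1, fun N y hodd hN hy hyX hj1 => ?_⟩
  obtain ⟨hX1, hV3, hom, hom1⟩ := basics N hodd hN
  obtain ⟨X, hX⟩ : ∃ X : ℝ, X = log (N : ℝ) := ⟨_, rfl⟩
  rw [← hX] at hX1 hV3 hom hyX
  obtain ⟨V, hV⟩ : ∃ V : ℕ, V = Nat.log 2 N + 1 := ⟨_, rfl⟩
  rw [← hV] at hV3
  obtain ⟨t, ht⟩ : ∃ t : ℕ, t = (M + 1) * (1 + 1) := ⟨_, rfl⟩
  rw [← ht]
  have hV1 : 1 ≤ V := by omega
  have ht1 : 1 ≤ t := by rw [ht]; omega
  have htV : 1 ≤ t * V := Nat.mul_pos ht1 hV1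
  obtain ⟨Cm, hCm1, hCmM, hCm2⟩ := exists_root (t * V) M htV hM1'
  obtain ⟨w, hw⟩ : ∃ w : ℝ, w = K1 * (y : ℝ) ^ (1 + 2 * η) * (1 + log X) := ⟨_, rfl⟩
  have hlogX : 0 ≤ log X := Real.log_nonneg hX1
  have hy3 : (3 : ℝ) ≤ y := by exact_mod_cast hy
  have hy1 : (1 : ℝ) ≤ y := by linarith
  have hy0 : (0 : ℝ) < y := by linarith
  have hypow : (1 : ℝ) ≤ (y : ℝ) ^ (1 + 2 * η) := Real.one_le_rpow hy1 (by linarith)
  have hcoef : (1 : ℝ) ≤ K1 * (y : ℝ) ^ (1 + 2 * η) := by nlinarith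
  have hw1 : 1 + log X ≤ w := by
    rw [hw]
    nlinarith
  have hlogy : 1 ≤ log (y : ℝ) := d15_log3 hy3
  have hlogyX : log (y : ℝ) ≤ log X := Real.log_le_log hy0 hyX
  obtain ⟨E, hE⟩ : ∃ E : ℕ, E = ⌈log (y : ℝ)⌉₊ := ⟨_, rfl⟩
  have hE1 : log (y : ℝ) ≤ E := by rw [hE]; exact Nat.le_ceil _
  have hE2 : (E : ℝ) < log (y : ℝ) + 1 := by rw [hE]; exact Nat.ceil_lt_add_one (by linarith)
  have hE3 : (E : ℝ) ≤ 1 + log X := by linarith
  have hE4 : (E : ℝ) ≤ w := hE3.trans hw1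
  have hE5 : 1 ≤ E := by
    have h1 : (1 : ℝ) ≤ E := hlogy.trans hE1
    exact_mod_cast h1
  have hjr : (((1 : ℕ) : ℝ) + 1) ≤ 1 + log X := by push_cast; linarith
  have h4 := hF4 X y 1 V hX1 hy hyX hjr hV1 hV3
  obtain ⟨Bb, Y, hY1, hBb, hYl, hY2⟩ := hF5 X y 1 t V Cm w hX1 hy hyX hjr ht hV1 hV3 hCm1 hCm2 hw
  have h1 := hF1 N y M t V Cm E Y Bb w hodd hN hy hM1' (by rw [hj1]; exact ht) hV hCm1 hCmM
    (by rw [hj1, hw]; exact h4) hE1 hE4 hE5 hY1 hBb hYl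
  have h6 := hF6 X y 1 t V Cm E Y w hX1 hy hyX hjr ht hV1 hV3 hCm1 hCm2 hw hE3 hY2
  have hw0 : 0 ≤ w := by linarith
  have hZ0 : 0 ≤ ZZ t Cm E Y w := by
    unfold ZZ
    positivity
  -- the size of `ZZ`
  have hcard : (N.primeFactors.filter (y < ·)).card ≤ 1 := le_of_eq hj1
  have hXB : X ≤ (B + 1) * (y : ℝ) ^ B := by
    have h2 := hB N y hodd hN (by omega) hcard
    have h3 : 0 ≤ (y : ℝ) ^ B := by positivity
    rw [hX]
    nlinarith
  have hX0 : 0 < X := by linarith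
  have e1 : X ^ (1 / (M : ℝ)) ≤ (B + 1) ^ (1 / (M : ℝ)) * (y : ℝ) ^ (ε / 4) := by
    refine (rpow_le_rpow hX0.le hXB (by positivity)).trans ?_
    rw [mul_rpow (by positivity) (by positivity), ← rpow_natCast, ← rpow_mul hy0.le]
    refine mul_le_mul_of_nonneg_left ?_ (by positivity)
    exact rpow_le_rpow_of_exponent_le hy1 hBM
  have e2 : (K * (1 + log X)) ^ (K * (1 + 1)) ≤ C2 * (B + 1) ^ δ * (y : ℝ) ^ (ε / 4) := by
    have hK1' : (1 : ℝ) ≤ K := by exact_mod_cast hK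
    have h2 : (K * (1 + log X)) ^ (K * (1 + 1)) ≤ (((2 * K : ℕ) : ℝ) * (1 + log X)) ^ (2 * K) := by
      have h3 : K * (1 + 1) = 2 * K := by ring
      rw [h3]
      apply pow_le_pow_left₀ (by positivity)
      apply mul_le_mul_of_nonneg_right _ (by linarith)
      push_cast
      linarith
    refine h2.trans ((habs X hX1).trans ?_)
    have h3 : X ^ δ ≤ (B + 1) ^ δ * (y : ℝ) ^ (ε / 4) := by
      refine (rpow_le_rpow hX0.le hXB hδ0.le).trans ?_
      rw [mul_rpow (by positivity) (by positivity), ← rpow_natCast, ← rpow_mul hy0.le]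
      refine mul_le_mul_of_nonneg_left ?_ (by positivity)
      exact rpow_le_rpow_of_exponent_le hy1 hBδ
    calc C2 * X ^ δ ≤ C2 * ((B + 1) ^ δ * (y : ℝ) ^ (ε / 4)) :=
          mul_le_mul_of_nonneg_left h3 (by linarith)
      _ = _ := by ring
  have e3 : y * ZZ t Cm E Y w ≤ 2 ^ (2 * 1 + t) * (y * log y + y * ZZ t Cm E Y w + log (4 * X)) := by
    have h2 : (1 : ℝ) ≤ 2 ^ (2 * 1 + t) := one_le_pow₀ (by norm_num)
    have h3 : 0 ≤ log (4 * X) := log_nonneg (by linarith)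
    have h5 : 0 ≤ y * log (y : ℝ) := by positivity
    have h7 : 0 ≤ y * ZZ t Cm E Y w := by positivity
    have h8 : y * ZZ t Cm E Y w ≤ y * log y + y * ZZ t Cm E Y w + log (4 * X) := by linarith
    refine h8.trans (le_mul_of_one_le_left (by linarith) h2)
  have e4 : X ^ (1 / (M : ℝ)) * (y : ℝ) ^ (2 + 2 * η) * (K * (1 + log X)) ^ (K * (1 + 1)) ≤
      y * (G * (y : ℝ) ^ (1 + ε)) := by
    have h2 : 0 ≤ (K * (1 + log X)) ^ (K * (1 + 1)) := by positivity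
    calc X ^ (1 / (M : ℝ)) * (y : ℝ) ^ (2 + 2 * η) * (K * (1 + log X)) ^ (K * (1 + 1))
        ≤ ((B + 1) ^ (1 / (M : ℝ)) * (y : ℝ) ^ (ε / 4)) * (y : ℝ) ^ (2 + 2 * η) *
          (C2 * (B + 1) ^ δ * (y : ℝ) ^ (ε / 4)) := by gcongr
      _ = G * ((y : ℝ) ^ (ε / 4) * (y : ℝ) ^ (2 + 2 * η) * (y : ℝ) ^ (ε / 4)) := by rw [hG]; ring
      _ ≤ G * ((y : ℝ) ^ (1 : ℝ) * (y : ℝ) ^ (1 + ε)) := by
          refine mul_le_mul_of_nonneg_left ?_ (by linarith)
          rw [← rpow_add hy0, ← rpow_add hy0, ← rpow_add hy0]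
          apply rpow_le_rpow_of_exponent_le hy1
          rw [hη]
          linarith
      _ = y * (G * (y : ℝ) ^ (1 + ε)) := by rw [rpow_one]; ring
  have e5 : ZZ t Cm E Y w ≤ G * (y : ℝ) ^ (1 + ε) :=
    le_of_mul_le_mul_left (e3.trans (h6.trans e4)) hy0
  refine ⟨max (y : ℝ) (ZZ t Cm E Y w), le_max_left _ _, max_le ?_ e5, ?_⟩
  · have h2 : (y : ℝ) ≤ (y : ℝ) ^ (1 + ε) := by
      conv_lhs => rw [← rpow_one (y : ℝ)]
      exact rpow_le_rpow_of_exponent_le hy1 (by linarith)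
    exact h2.trans (le_mul_of_one_le_left (by positivity) hG1)
  · refine le_trans (card_le_card ?_) h1.le
    intro q hq
    rw [mem_filter] at hq ⊢
    exact ⟨hq.1, hq.2.1, lt_of_le_of_lt (le_max_right _ _) hq.2.2⟩

end Pool.Agent.Lib.MP_f02ea4_nt.Ml
end

section

/-! At most one large prime, part V: the inflow and the theorem, exponent `3/2 + ε`. -/

set_option autoImplicit false

namespace Pool.Agent.Lib.MP_f02ea4_nt.Ml

open Finset Real Sm

/-- the flow from the exceptional primes (the large prime `p` and at most `t` heavy small primes) into `V` -/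
lemma v_inflow (A : ℕ) (ε C1 : ℝ) (hε : 0 < ε) (hC1 : 1 ≤ C1) : ∃ C : ℝ, 0 ≤ C ∧
    ∀ (N y p t : ℕ) (V S : Finset ℕ) (Z : ℝ), Odd N → Nat.Perfect N → 3 ≤ y →
    (N.primeFactors.filter (y < ·)).card ≤ 1 → p ∈ N.primeFactors → V ⊆ N.primeFactors →
    (∀ q ∈ V, q ≤ y) → (∀ q ∈ V, (nn N q : ℝ) * log q ≤ Z) → (∀ q ∈ V, nn N q ≤ y ^ A) →
    S ⊆ N.primeFactors → (∀ q ∈ S, q ≤ y) → N.primeFactors \ V = insert p S → p ∉ S → S.card ≤ t →
    (y : ℝ) ≤ Z → Z ≤ C1 * (y : ℝ) ^ (1 + ε) →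
    ∑ r ∈ V, ∑ q ∈ N.primeFactors \ V, aa N q r ≤ C * (t + 1) * (y : ℝ) ^ (3 / 2 + 2 * ε) := by
  classical
  obtain ⟨D, hD1, hD⟩ := u_tau ε hε
  obtain ⟨C3, hC3, hin⟩ := t_in A ε hε
  refine ⟨2 * D * C1 + D + (C1 + C3) + 1, by positivity, ?_⟩
  intro N y p t V S Z hodd hN hy hcard hp hVN hVy hVZ hVA hSN hSy hEx hpS hSt hyZ hZC
  have hy3 : (3 : ℝ) ≤ y := by exact_mod_cast hy
  have hy1 : (1 : ℝ) ≤ y := by linarith
  have hy0 : (0 : ℝ) < y := by linarith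
  have hZ1 : 1 ≤ Z := by linarith
  have hmZ : ∀ q ∈ V, mass N q ≤ Z := by
    intro q hq
    refine le_trans ?_ (hVZ q hq)
    unfold mass
    apply mul_le_mul_of_nonneg_right _ (log_natCast_nonneg q)
    unfold nn
    push_cast
    linarith
  obtain ⟨U, hU⟩ : ∃ U : ℝ, U = (y : ℝ) ^ (3 / 2 + 2 * ε) := ⟨_, rfl⟩
  have hU1 : 1 ≤ U := by rw [hU]; exact one_le_rpow hy1 (by linarith)
  rw [← hU]
  have hyU : (y : ℝ) ^ (1 + ε) ≤ U := by
    rw [hU]; exact rpow_le_rpow_of_exponent_le hy1 (by linarith)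
  have hyU' : (y : ℝ) ^ ε ≤ U := by
    rw [hU]; exact rpow_le_rpow_of_exponent_le hy1 (by linarith)
  have ht0 : (0 : ℝ) ≤ t := Nat.cast_nonneg t
  have hStR : (S.card : ℝ) ≤ t := by exact_mod_cast hSt
  rcases le_or_gt (log (p : ℝ)) Z with hpZ | hpZ
  · -- all the exceptional primes have `log q ≤ Z`
    have hone : ∀ q ∈ insert p S, ∑ r ∈ V, aa N q r ≤ (2 * D * C1 + D) * U := by
      intro q hq
      have hqN : q ∈ N.primeFactors := by
        rcases mem_insert.1 hq with h | h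
        · rw [h]; exact hp
        · exact hSN h
      have hlq : log (q : ℝ) ≤ Z := by
        rcases mem_insert.1 hq with h | h
        · rw [h]; exact hpZ
        · have h1 : log (q : ℝ) ≤ log y :=
            log_le_log (by exact_mod_cast (s_prime hqN).pos) (by exact_mod_cast hSy q h)
          have h2 := log_le_sub_one_of_pos hy0
          linarith
      have h1 := t_out' N y q V Z hodd hN hqN hVN hVy hmZ hZ1 (by omega)
      obtain ⟨h2, h3⟩ := hD N y hodd hN (by omega) hcard q hqN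
      have h4 : √(y * Z * log q) ≤ √y * Z := by
        have e1 : (y : ℝ) * Z * log q ≤ y * Z ^ 2 := by
          rw [sq, ← mul_assoc]
          exact mul_le_mul_of_nonneg_left hlq (by positivity)
        calc √(y * Z * log q) ≤ √(y * Z ^ 2) := Real.sqrt_le_sqrt e1
          _ = √y * Z := by rw [Real.sqrt_mul hy0.le, Real.sqrt_sq (by linarith)]
      have h5 : √(y : ℝ) * Z ≤ C1 * (y : ℝ) ^ (3 / 2 + ε) := by
        calc √(y : ℝ) * Z ≤ √y * (C1 * (y : ℝ) ^ (1 + ε)) :=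
              mul_le_mul_of_nonneg_left hZC (Real.sqrt_nonneg _)
          _ = C1 * ((y : ℝ) ^ (1 / 2 : ℝ) * (y : ℝ) ^ (1 + ε)) := by rw [Real.sqrt_eq_rpow]; ring
          _ = C1 * (y : ℝ) ^ (3 / 2 + ε) := by
              rw [← rpow_add hy0]
              congr 2
              ring
      have h6 : (D * (y : ℝ) ^ ε) * (C1 * (y : ℝ) ^ (3 / 2 + ε)) = D * C1 * U := by
        rw [hU]
        have : (y : ℝ) ^ (3 / 2 + 2 * ε) = (y : ℝ) ^ ε * (y : ℝ) ^ (3 / 2 + ε) := by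
          rw [← rpow_add hy0]
          congr 1
          ring
        rw [this]
        ring
      have h7 : ((nn N q).divisors.card : ℝ) * √(y * Z * log q) ≤ D * C1 * U := by
        rw [← h6]
        exact mul_le_mul h2 (h4.trans h5) (Real.sqrt_nonneg _) (by positivity)
      have h8 : D * (y : ℝ) ^ ε ≤ D * U := mul_le_mul_of_nonneg_left hyU' (by linarith)
      have e : (2 * D * C1 + D) * U = 2 * (D * C1 * U) + D * U := by ring
      rw [e]
      linarith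
    rw [hEx, sum_comm]
    calc ∑ q ∈ insert p S, ∑ r ∈ V, aa N q r ≤ ∑ _q ∈ insert p S, (2 * D * C1 + D) * U :=
          sum_le_sum hone
      _ = ((insert p S).card : ℝ) * ((2 * D * C1 + D) * U) := by rw [sum_const, nsmul_eq_mul]
      _ ≤ (t + 1) * ((2 * D * C1 + D) * U) := by
          apply mul_le_mul_of_nonneg_right _ (by positivity)
          rw [card_insert_of_notMem hpS]
          push_cast
          linarith
      _ = (2 * D * C1 + D) * ((t + 1) * U) := by ring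
      _ ≤ (2 * D * C1 + D + (C1 + C3) + 1) * ((t + 1) * U) := by
          apply mul_le_mul_of_nonneg_right _ (by positivity)
          linarith
      _ = _ := by ring
  · -- the large prime receives nothing from `V`
    have h1 := t_balance N V hodd hN hVN
    refine h1.trans ?_
    rw [hEx]
    have h2 : ∑ q ∈ V, ∑ r ∈ insert p S, aa N q r = ∑ r ∈ S, ∑ q ∈ V, aa N q r := by
      rw [sum_comm, sum_insert hpS]
      have h3 : ∑ q ∈ V, aa N q p = 0 := by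
        apply sum_eq_zero
        intro q hq
        exact t_zero N q p Z (hVN hq) (s_prime hp) (hVZ q hq) hpZ
      rw [h3, zero_add]
    rw [h2]
    have h3 : ∑ r ∈ S, ∑ q ∈ V, aa N q r ≤ t * ((C1 + C3) * U) := by
      calc ∑ r ∈ S, ∑ q ∈ V, aa N q r ≤ ∑ _r ∈ S, (C1 + C3) * U := by
            apply sum_le_sum
            intro r hr
            have h4 := hin N y r V Z hodd hN (by omega) hVN hVy hVA hmZ (by linarith) (hSN hr) (hSy r hr)
            have h5 : (C1 + C3) * (y : ℝ) ^ (1 + ε) ≤ (C1 + C3) * U :=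
              mul_le_mul_of_nonneg_left hyU (by linarith)
            linarith [add_mul C1 C3 ((y : ℝ) ^ (1 + ε))]
        _ = (S.card : ℝ) * ((C1 + C3) * U) := by rw [sum_const, nsmul_eq_mul]
        _ ≤ t * ((C1 + C3) * U) := mul_le_mul_of_nonneg_right hStR (by positivity)
    have h4 : log (2 : ℝ) ≤ 1 := by
      have := Real.log_two_lt_d9
      linarith
    have e : (2 * D * C1 + D + (C1 + C3) + 1) * (t + 1) * U =
        t * ((C1 + C3) * U) + U + ((2 * D * C1 + D) * ((t + 1) * U) + (C1 + C3) * U + t * U) := by ring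
    rw [e]
    have h5 : 0 ≤ (2 * D * C1 + D) * ((t + 1) * U) + (C1 + C3) * U + t * U := by positivity
    linarith

/-- the mass of the light small primes -/
lemma v_mass (A : ℕ) (hA : 1 ≤ A) (ε C1 : ℝ) (hε : 0 < ε) (hε1 : ε ≤ 1) (hC1 : 1 ≤ C1) (t : ℕ) :
    ∃ C : ℝ, 0 ≤ C ∧
    ∀ (N y p : ℕ) (V S : Finset ℕ) (Z : ℝ), Odd N → Nat.Perfect N → 3 ≤ y →
    (N.primeFactors.filter (y < ·)).card ≤ 1 → p ∈ N.primeFactors → V ⊆ N.primeFactors →
    (∀ q ∈ V, q ≤ y) → (∀ q ∈ V, (nn N q : ℝ) * log q ≤ Z) → (∀ q ∈ V, nn N q ≤ y ^ A) →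
    S ⊆ N.primeFactors → (∀ q ∈ S, q ≤ y) → N.primeFactors \ V = insert p S → p ∉ S → S.card ≤ t →
    (y : ℝ) ≤ Z → Z ≤ C1 * (y : ℝ) ^ (1 + ε) →
    ∑ q ∈ V, mass N q ≤ C * (y : ℝ) ^ (3 / 2 + 3 * ε) := by
  classical
  obtain ⟨C2, hC2, hinner⟩ := s_inner A hA ε hε
  obtain ⟨C4, hC4, hflow⟩ := v_inflow A ε C1 hε hC1
  obtain ⟨Cb, hCb1, hCb⟩ := s_baker_step A
  obtain ⟨K', hK'⟩ : ∃ K' : ℕ, K' = 2 * Cb + 2 := ⟨_, rfl⟩
  have hK'0 : (0 : ℝ) < K' := by rw [hK']; positivity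
  obtain ⟨η, hη⟩ : ∃ η : ℝ, η = ε / K' := ⟨_, rfl⟩
  have hη0 : 0 < η := by rw [hη]; positivity
  have hlC1 : 0 ≤ log C1 := log_nonneg hC1
  refine ⟨10 * Cb ^ 2 * (3 + log C1) * (C2 + C4 * (t + 1) + 3) * (1 / η) ^ K', by positivity, ?_⟩
  intro N y p V S Z hodd hN hy hcard hp hVN hVy hVZ hVA hSN hSy hEx hpS hSt hyZ hZC
  have hy3 : (3 : ℝ) ≤ y := by exact_mod_cast hy
  have hy1 : (1 : ℝ) ≤ y := by linarith
  have hy0 : (0 : ℝ) < y := by linarith
  have hZ1 : 1 ≤ Z := by linarith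
  have hmZ : ∀ q ∈ V, mass N q ≤ Z := by
    intro q hq
    refine le_trans ?_ (hVZ q hq)
    unfold mass
    apply mul_le_mul_of_nonneg_right _ (log_natCast_nonneg q)
    unfold nn
    push_cast
    linarith
  obtain ⟨f, hf, hfE⟩ := hinner N y V hodd hN hVN hVy hVA
  have hI := hflow N y p t V S Z hodd hN hy hcard hp hVN hVy hVZ hVA hSN hSy hEx hpS hSt hyZ hZC
  obtain ⟨l, hl⟩ : ∃ l : ℝ, l = log (y : ℝ) := ⟨_, rfl⟩
  have hl1 : 1 ≤ l := by rw [hl]; exact d15_log3 hy3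
  have hl0 : 0 < l := by linarith
  have hCb1' : (1 : ℝ) ≤ Cb := by exact_mod_cast hCb1
  have hden : (1 : ℝ) ≤ Cb * l ^ Cb := one_le_mul_of_one_le_of_one_le hCb1' (one_le_pow₀ hl1)
  have hden0 : (0 : ℝ) < Cb * l ^ Cb := by linarith
  have hcardV : (V.card : ℝ) ≤ y := by
    have h1 : V ⊆ Finset.Icc 1 y := fun r hr =>
      Finset.mem_Icc.2 ⟨(s_prime (hVN hr)).pos, hVy r hr⟩
    have h2 := Finset.card_le_card h1
    rw [Nat.card_Icc] at h2
    exact_mod_cast (by omega : V.card ≤ y)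
  obtain ⟨U, hU⟩ : ∃ U : ℝ, U = (y : ℝ) ^ (3 / 2 + 2 * ε) := ⟨_, rfl⟩
  rw [← hU] at hI
  have hU0 : 0 < U := by rw [hU]; positivity
  have hyU : (y : ℝ) ≤ U := by
    rw [hU]
    conv_lhs => rw [← rpow_one (y : ℝ)]
    exact rpow_le_rpow_of_exponent_le hy1 (by linarith)
  have hyU2 : (y : ℝ) ^ (3 / 2 + ε) ≤ U := by
    rw [hU]; exact rpow_le_rpow_of_exponent_le hy1 (by linarith)
  obtain ⟨E, hE⟩ : ∃ E : ℝ, E = (C2 + C4 * (t + 1)) * U := ⟨_, rfl⟩
  have hE0 : 0 ≤ E := by rw [hE]; positivity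
  have hEle : ∑ r ∈ V, (∑ q ∈ V.erase (f r), aa N q r + ∑ q ∈ N.primeFactors \ V, aa N q r) ≤ E := by
    rw [sum_add_distrib, hE]
    have h1 : C2 * (y : ℝ) ^ (3 / 2 + ε) ≤ C2 * U := mul_le_mul_of_nonneg_left hyU2 hC2
    linarith [add_mul C2 (C4 * (t + 1)) U]
  have hpot := potential V (mass N)
    (fun r => ∑ q ∈ V.erase (f r), aa N q r + ∑ q ∈ N.primeFactors \ V, aa N q r) (aa N) f hf
    (1 / (Cb * l ^ Cb)) (l + 1) E Z (by positivity)
    (by rw [div_le_one hden0]; exact hden) (by linarith) hE0 hZ1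
    (fun q _ r _ => s_aa_nonneg N q r)
    (fun r _ => add_nonneg (sum_nonneg fun q _ => s_aa_nonneg N q r)
      (sum_nonneg fun q _ => s_aa_nonneg N q r))
    (fun q hq => (sum_le_sum_of_subset_of_nonneg hVN fun r _ _ => s_aa_nonneg N q r).trans
      (row_sum N q hN (hVN hq)))
    (fun r hr => by
      rw [← col_sum N r hodd hN (hVN hr), ← sum_sdiff hVN,
        ← Finset.add_sum_erase V (fun q => aa N q r) (hf r hr)]
      linarith)
    (fun r hr => by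
      have h1 := hCb N y (f r) r hodd hN (hVN (hf r hr)) (hVN hr) (hVy _ (hf r hr)) (hVy r hr)
        (hVA _ (hf r hr))
      rw [← hl] at h1
      exact h1)
    (fun q hq => by
      have h1 : (1 : ℝ) ≤ (N.factorization q : ℝ) := by
        have hq' := Nat.mem_primeFactors.1 (hVN hq)
        have := (hq'.1.dvd_iff_one_le_factorization hq'.2.2).1 hq'.2.1
        exact_mod_cast this
      have h2 := u_log_pos hodd (hVN hq)
      calc (1 : ℝ) = 1 * 1 := by ring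
        _ ≤ mass N q := mul_le_mul h1 h2 (by norm_num) (by linarith))
    hmZ hEle
  refine hpot.trans ?_
  have hlZ : log Z ≤ (2 + log C1) * l := by
    have h1 : log Z ≤ log (C1 * (y : ℝ) ^ (1 + ε)) := log_le_log (by linarith) hZC
    rw [log_mul (by linarith) (by positivity), log_rpow hy0, ← hl] at h1
    have h2 : (1 + ε) * l ≤ 2 * l := mul_le_mul_of_nonneg_right (by linarith) hl0.le
    have h3 : log C1 ≤ log C1 * l := le_mul_of_one_le_right hlC1 hl1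
    linarith [add_mul 2 (log C1) l]
  have hδ : 10 / (1 / (Cb * l ^ Cb)) ^ 2 = 10 * (Cb : ℝ) ^ 2 * l ^ (2 * Cb) := by
    field_simp
    ring
  rw [hδ]
  have hS : E + V.card * (1 + (l + 1)) ≤ (C2 + C4 * (t + 1) + 3) * U * l := by
    have h1 : E ≤ E * l := le_mul_of_one_le_right hE0 hl1
    have h2 : (V.card : ℝ) * (1 + (l + 1)) ≤ U * (3 * l) :=
      mul_le_mul (hcardV.trans hyU) (by linarith) (by linarith) hU0.le
    have e : (C2 + C4 * (t + 1) + 3) * U * l = E * l + U * (3 * l) := by rw [hE]; ring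
    rw [e]
    linarith
  have h1Z : 1 + log Z ≤ (3 + log C1) * l := by
    have e : (3 + log C1) * l = l + (2 + log C1) * l := by ring
    rw [e]
    linarith
  have hlK : l ^ K' ≤ (1 / η) ^ K' * (y : ℝ) ^ ε := by
    have h1 : l ≤ (y : ℝ) ^ η / η := by rw [hl]; exact log_le_rpow_div hy0.le hη0
    have h2 : l ^ K' ≤ ((y : ℝ) ^ η / η) ^ K' := pow_le_pow_left₀ hl0.le h1 K'
    have h3 : ((y : ℝ) ^ η / η) ^ K' = (1 / η) ^ K' * (y : ℝ) ^ ε := by
      rw [div_eq_mul_one_div, mul_pow, mul_comm, ← rpow_natCast ((y : ℝ) ^ η) K', ← rpow_mul hy0.le]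
      congr 2
      rw [hη]
      field_simp
    linarith
  have hS0 : 0 ≤ E + V.card * (1 + (l + 1)) := by positivity
  have hC40 : 0 ≤ C2 + C4 * (t + 1) + 3 := by positivity
  calc 10 * (Cb : ℝ) ^ 2 * l ^ (2 * Cb) * (1 + log Z) * (E + V.card * (1 + (l + 1)))
      ≤ 10 * (Cb : ℝ) ^ 2 * l ^ (2 * Cb) * ((3 + log C1) * l) * ((C2 + C4 * (t + 1) + 3) * U * l) := by
        gcongr
    _ = 10 * (Cb : ℝ) ^ 2 * (3 + log C1) * (C2 + C4 * (t + 1) + 3) * U * l ^ K' := by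
        rw [hK', pow_add]; ring
    _ ≤ 10 * (Cb : ℝ) ^ 2 * (3 + log C1) * (C2 + C4 * (t + 1) + 3) * U * ((1 / η) ^ K' * (y : ℝ) ^ ε) := by
        gcongr
    _ = 10 * (Cb : ℝ) ^ 2 * (3 + log C1) * (C2 + C4 * (t + 1) + 3) * (1 / η) ^ K' * (U * (y : ℝ) ^ ε) := by ring
    _ = _ := by
        rw [hU, ← rpow_add hy0]
        congr 2
        ring

/-- the core case: exactly one prime exceeds `y`, `3 ≤ y ≤ log N` -/
lemma v_core (ε : ℝ) (hε : 0 < ε) (hε1 : ε ≤ 1) : ∃ C : ℝ, 0 ≤ C ∧ ∀ N y : ℕ, Odd N → Nat.Perfect N →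
    3 ≤ y → (y : ℝ) ≤ log N → (N.primeFactors.filter (y < ·)).card = 1 →
    log N ≤ C * (y : ℝ) ^ (3 / 2 + 3 * ε) := by
  classical
  obtain ⟨t, C1, hC1, hlight⟩ := u_light ε hε hε1
  obtain ⟨B, hB⟩ := exists_nat_ge C1
  obtain ⟨A, hA⟩ : ∃ A : ℕ, A = 2 + B := ⟨_, rfl⟩
  obtain ⟨C5, hC5, hmass⟩ := v_mass A (by omega) ε C1 hε hε1 hC1 t
  refine ⟨2 ^ (t + 2) * (C5 + 2 / ε + 8), by positivity, ?_⟩
  intro N y hodd hN hy hyX hj
  obtain ⟨Z, hyZ, hZC, hSt⟩ := hlight N y hodd hN hy hyX hj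
  have hy3 : (3 : ℝ) ≤ y := by exact_mod_cast hy
  have hy1 : (1 : ℝ) ≤ y := by linarith
  have hy0 : (0 : ℝ) < y := by linarith
  obtain ⟨p, hp⟩ := card_eq_one.1 hj
  have hpm : p ∈ N.primeFactors.filter (y < ·) := by rw [hp]; exact mem_singleton_self p
  have hpN : p ∈ N.primeFactors := (mem_filter.1 hpm).1
  have hyp : y < p := (mem_filter.1 hpm).2
  obtain ⟨S, hS⟩ : ∃ S : Finset ℕ, S = N.primeFactors.filter (fun p => p ≤ y ∧ Z < nn N p * log (p : ℝ)) :=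
    ⟨_, rfl⟩
  obtain ⟨V, hV⟩ : ∃ V : Finset ℕ, V = N.primeFactors.filter (fun p => p ≤ y ∧ ¬ Z < nn N p * log (p : ℝ)) :=
    ⟨_, rfl⟩
  obtain ⟨LL, hLL⟩ : ∃ LL : Finset ℕ, LL = N.primeFactors.filter (fun p => p ≤ y) := ⟨_, rfl⟩
  rw [← hS] at hSt
  have hVN : V ⊆ N.primeFactors := by rw [hV]; exact filter_subset _ _
  have hSN : S ⊆ N.primeFactors := by rw [hS]; exact filter_subset _ _
  have hLN : LL ⊆ N.primeFactors := by rw [hLL]; exact filter_subset _ _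
  have hVL : V ⊆ LL := by
    intro q hq
    rw [hV, mem_filter] at hq
    rw [hLL, mem_filter]
    exact ⟨hq.1, hq.2.1⟩
  have hVy : ∀ q ∈ V, q ≤ y := fun q hq => by
    rw [hV, mem_filter] at hq
    exact hq.2.1
  have hSy : ∀ q ∈ S, q ≤ y := fun q hq => by
    rw [hS, mem_filter] at hq
    exact hq.2.1
  have hVZ : ∀ q ∈ V, (nn N q : ℝ) * log q ≤ Z := fun q hq => by
    rw [hV, mem_filter] at hq
    exact not_lt.1 hq.2.2
  have hpS : p ∉ S := fun h => by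
    have := hSy p h
    omega
  have hEx : N.primeFactors \ V = insert p S := by
    ext q
    rw [mem_sdiff, mem_insert, hV, hS, mem_filter, mem_filter]
    constructor
    · rintro ⟨h1, h2⟩
      by_cases h3 : q ≤ y
      · right
        refine ⟨h1, h3, ?_⟩
        by_contra h4
        exact h2 ⟨h1, h3, h4⟩
      · left
        have h4 : q ∈ N.primeFactors.filter (y < ·) := mem_filter.2 ⟨h1, not_le.1 h3⟩
        rw [hp, mem_singleton] at h4
        exact h4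
    · rintro (h1 | h1)
      · rw [h1]
        refine ⟨hpN, fun h2 => ?_⟩
        have := h2.2.1
        omega
      · exact ⟨h1.1, fun h2 => h2.2.2 h1.2.2⟩
  have hVA : ∀ q ∈ V, nn N q ≤ y ^ A := by
    intro q hq
    have h1 : (nn N q : ℝ) ≤ Z := by
      refine le_trans ?_ (hVZ q hq)
      exact le_mul_of_one_le_right (by linarith [u_nn_ge N q]) (u_log_pos hodd (hVN hq))
    have h2 : Z ≤ (y : ℝ) ^ A := by
      refine hZC.trans ?_
      have h3 : (y : ℝ) ^ (1 + ε) ≤ (y : ℝ) ^ (2 : ℝ) := rpow_le_rpow_of_exponent_le hy1 (by linarith)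
      have h4 : (y : ℝ) ^ (2 : ℝ) = (y : ℝ) ^ 2 := by norm_cast
      have h5 : C1 ≤ (y : ℝ) ^ B := by
        refine hB.trans ?_
        have h6 : B < 3 ^ B := Nat.lt_pow_self (by norm_num)
        have h7 : (B : ℝ) ≤ 3 ^ B := by exact_mod_cast h6.le
        exact h7.trans (pow_le_pow_left₀ (by norm_num) hy3 B)
      rw [hA, pow_add, mul_comm ((y : ℝ) ^ 2)]
      rw [h4] at h3
      exact mul_le_mul h5 h3 (by positivity) (by positivity)
    exact_mod_cast h1.trans h2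
  have hT := hmass N y p V S Z hodd hN hy hj.le hpN hVN hVy hVZ hVA hSN hSy hEx hpS hSt hyZ hZC
  -- the process
  have hc1 : N.primeFactors.card = LL.card + 1 := by
    have h1 := card_filter_add_card_filter_not (s := N.primeFactors) (fun p => y < p)
    have h2 : N.primeFactors.filter (fun p => ¬ y < p) = LL := by
      rw [hLL]
      apply filter_congr
      intro q _
      exact not_lt
    rw [h2, hj] at h1
    omega
  have hc2 : N.primeFactors.card ≤ V.card + 1 + t := by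
    have h1 := card_sdiff_add_card_eq_card hVN
    rw [hEx, card_insert_of_notMem hpS] at h1
    omega
  have hproc := process N hodd hN LL V hLN hVL (t + 2) (by omega)
  refine hproc.trans ?_
  rw [mul_assoc]
  apply mul_le_mul_of_nonneg_left _ (by positivity)
  -- the numbers
  obtain ⟨l, hl⟩ : ∃ l : ℝ, l = log (y : ℝ) := ⟨_, rfl⟩
  have hl1 : 1 ≤ l := by rw [hl]; exact d15_log3 hy3
  have hLcard : (LL.card : ℝ) ≤ y := by
    have h1 : LL ⊆ Finset.Icc 1 y := fun r hr => by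
      rw [hLL, mem_filter] at hr
      exact Finset.mem_Icc.2 ⟨(s_prime hr.1).pos, hr.2⟩
    have h2 := Finset.card_le_card h1
    rw [Nat.card_Icc] at h2
    exact_mod_cast (by omega : LL.card ≤ y)
  have hlog : ∀ q ∈ LL, log (q : ℝ) ≤ l := by
    intro q hq
    rw [hLL, mem_filter] at hq
    rw [hl]
    exact log_le_log (by exact_mod_cast (s_prime hq.1).pos) (by exact_mod_cast hq.2)
  have h1 : ∑ q ∈ LL, log (q : ℝ) ≤ y * l := by
    calc ∑ q ∈ LL, log (q : ℝ) ≤ ∑ _q ∈ LL, l := sum_le_sum hlog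
      _ = (LL.card : ℝ) * l := by rw [sum_const, nsmul_eq_mul]
      _ ≤ y * l := mul_le_mul_of_nonneg_right hLcard (by linarith)
  have h2 : ∑ q ∈ V, (nn N q : ℝ) * log q ≤ C5 * (y : ℝ) ^ (3 / 2 + 3 * ε) + y * l := by
    have e1 : ∑ q ∈ V, (nn N q : ℝ) * log q = ∑ q ∈ V, mass N q + ∑ q ∈ V, log (q : ℝ) := by
      rw [← sum_add_distrib]
      apply sum_congr rfl
      intro q _
      unfold mass nn
      push_cast
      ring
    have e2 : ∑ q ∈ V, log (q : ℝ) ≤ ∑ q ∈ LL, log (q : ℝ) :=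
      sum_le_sum_of_subset_of_nonneg hVL fun q _ _ => log_natCast_nonneg q
    rw [e1]
    linarith
  have h3 : log (4 * (N.primeFactors.card : ℝ)) ≤ 8 * y := by
    have e1 : (0 : ℝ) < N.primeFactors.card := by
      have : 0 < N.primeFactors.card := by omega
      exact_mod_cast this
    have e2 := log_le_sub_one_of_pos (by positivity : 0 < 4 * (N.primeFactors.card : ℝ))
    have e3 : (N.primeFactors.card : ℝ) = LL.card + 1 := by rw [hc1]; push_cast; ring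
    rw [e3] at e2 ⊢
    linarith
  have hU1 : (y : ℝ) ≤ (y : ℝ) ^ (3 / 2 + 3 * ε) := by
    conv_lhs => rw [← rpow_one (y : ℝ)]
    exact rpow_le_rpow_of_exponent_le hy1 (by linarith)
  have h4 : (y : ℝ) * l ≤ 1 / ε * (y : ℝ) ^ (3 / 2 + 3 * ε) := by
    have e1 : l ≤ (y : ℝ) ^ ε / ε := by rw [hl]; exact log_le_rpow_div hy0.le hε
    calc (y : ℝ) * l ≤ y * ((y : ℝ) ^ ε / ε) := mul_le_mul_of_nonneg_left e1 hy0.le
      _ = 1 / ε * ((y : ℝ) ^ (1 : ℝ) * (y : ℝ) ^ ε) := by rw [rpow_one]; ring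
      _ ≤ 1 / ε * (y : ℝ) ^ (3 / 2 + 3 * ε) := by
          rw [← rpow_add hy0]
          apply mul_le_mul_of_nonneg_left _ (by positivity)
          exact rpow_le_rpow_of_exponent_le hy1 (by linarith)
  unfold HH
  have e : (C5 + 2 / ε + 8) * (y : ℝ) ^ (3 / 2 + 3 * ε) = C5 * (y : ℝ) ^ (3 / 2 + 3 * ε) +
      2 * (1 / ε * (y : ℝ) ^ (3 / 2 + 3 * ε)) + 8 * (y : ℝ) ^ (3 / 2 + 3 * ε) := by ring
  rw [e]
  linarith

/-- at most one prime exceeds `y`: `log N ≤ C y^(3/2+ε)` -/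
theorem one_large (ε : ℝ) (hε : 0 < ε) : ∃ C : ℝ, 0 ≤ C ∧ ∀ N y : ℕ, Odd N → Nat.Perfect N → 2 ≤ y →
    (N.primeFactors.filter (y < ·)).card ≤ 1 → log N ≤ C * (y : ℝ) ^ (3 / 2 + ε) := by
  obtain ⟨ε', hε'⟩ : ∃ ε' : ℝ, ε' = min (ε / 3) 1 := ⟨_, rfl⟩
  have hε'0 : 0 < ε' := by rw [hε']; exact lt_min (by linarith) one_pos
  have hε'1 : ε' ≤ 1 := by rw [hε']; exact min_le_right _ _
  have hε'2 : 3 * ε' ≤ ε := by
    have : ε' ≤ ε / 3 := by rw [hε']; exact min_le_left _ _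
    linarith
  obtain ⟨Ca, hCa⟩ := part_a ε hε
  obtain ⟨C, hC0, hC⟩ := v_core ε' hε'0 hε'1
  -- the case `y ≥ 3`
  have hmain : ∀ N y : ℕ, Odd N → Nat.Perfect N → 3 ≤ y →
      (N.primeFactors.filter (y < ·)).card ≤ 1 → log N ≤ (|Ca| + C + 1) * (y : ℝ) ^ (3 / 2 + ε) := by
    intro N y hodd hN hy hcard
    have hy3 : (3 : ℝ) ≤ y := by exact_mod_cast hy
    have hy1 : (1 : ℝ) ≤ y := by linarith
    have hp : (0 : ℝ) < (y : ℝ) ^ (3 / 2 + ε) := by positivity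
    have hyp : (y : ℝ) ≤ (y : ℝ) ^ (3 / 2 + ε) := by
      conv_lhs => rw [← rpow_one (y : ℝ)]
      exact rpow_le_rpow_of_exponent_le hy1 (by linarith)
    have hnn : 0 ≤ |Ca| * (y : ℝ) ^ (3 / 2 + ε) := by positivity
    have hnn2 : 0 ≤ C * (y : ℝ) ^ (3 / 2 + ε) := by positivity
    have e : (|Ca| + C + 1) * (y : ℝ) ^ (3 / 2 + ε) =
      |Ca| * (y : ℝ) ^ (3 / 2 + ε) + C * (y : ℝ) ^ (3 / 2 + ε) + (y : ℝ) ^ (3 / 2 + ε) := by ring
    rw [e]
    rcases Nat.eq_zero_or_pos (N.primeFactors.filter (y < ·)).card with h0 | h0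
    · have h1 : ∀ p ∈ N.primeFactors, p ≤ y := by
        intro p hp
        by_contra hlt
        push Not at hlt
        have h2 : p ∈ N.primeFactors.filter (y < ·) := mem_filter.2 ⟨hp, hlt⟩
        rw [Finset.card_eq_zero.mp h0] at h2
        simp at h2
      have h2 := hCa N y hodd hN h1
      have h3 : Ca * (y : ℝ) ^ (3 / 2 + ε) ≤ |Ca| * (y : ℝ) ^ (3 / 2 + ε) :=
        mul_le_mul_of_nonneg_right (le_abs_self Ca) hp.le
      linarith
    · rcases le_or_gt (y : ℝ) (log N) with h1 | h1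
      · have h2 := hC N y hodd hN hy h1 (le_antisymm hcard h0)
        have h3 : (y : ℝ) ^ (3 / 2 + 3 * ε') ≤ (y : ℝ) ^ (3 / 2 + ε) :=
          rpow_le_rpow_of_exponent_le hy1 (by linarith)
        have h4 : C * (y : ℝ) ^ (3 / 2 + 3 * ε') ≤ C * (y : ℝ) ^ (3 / 2 + ε) :=
          mul_le_mul_of_nonneg_left h3 hC0
        linarith
      · linarith
  have hD0 : 0 ≤ |Ca| + C + 1 := by positivity
  refine ⟨(|Ca| + C + 1) * (3 : ℝ) ^ (3 / 2 + ε), by positivity, ?_⟩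
  intro N y hodd hN hy hcard
  have hy1 : (1 : ℝ) ≤ y := by exact_mod_cast (by omega : 1 ≤ y)
  have h31 : (1 : ℝ) ≤ (3 : ℝ) ^ (3 / 2 + ε) := one_le_rpow (by norm_num) (by linarith)
  have hyp1 : (1 : ℝ) ≤ (y : ℝ) ^ (3 / 2 + ε) := one_le_rpow hy1 (by linarith)
  rcases Nat.lt_or_ge 2 y with h | h
  · have h1 := hmain N y hodd hN h hcard
    calc log N ≤ (|Ca| + C + 1) * (y : ℝ) ^ (3 / 2 + ε) := h1
      _ ≤ (|Ca| + C + 1) * (3 : ℝ) ^ (3 / 2 + ε) * (y : ℝ) ^ (3 / 2 + ε) := by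
          apply mul_le_mul_of_nonneg_right _ (by positivity)
          exact le_mul_of_one_le_right hD0 h31
  · have hy2 : y = 2 := by omega
    have hc3 : (N.primeFactors.filter (3 < ·)).card ≤ 1 := by
      refine le_trans (card_le_card ?_) hcard
      intro q hq
      rw [mem_filter] at hq ⊢
      exact ⟨hq.1, by omega⟩
    have h1 := hmain N 3 hodd hN le_rfl hc3
    push_cast at h1
    calc log N ≤ (|Ca| + C + 1) * (3 : ℝ) ^ (3 / 2 + ε) := h1
      _ ≤ (|Ca| + C + 1) * (3 : ℝ) ^ (3 / 2 + ε) * (y : ℝ) ^ (3 / 2 + ε) :=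
          le_mul_of_one_le_right (by positivity) hyp1

end Pool.Agent.Lib.MP_f02ea4_nt.Ml
end

section

/-! Many large primes, final theorem with exponent `3/2 + ε` for at most one large prime. -/

set_option autoImplicit false

namespace Pool.Agent.Lib.MP_f02ea4_nt.Ml

open Finset Real Sm

/-- all parts with one constant; `K = 3/2` for `j ≤ 1` -/
theorem final2 (ε : ℝ) (hε : 0 < ε) : ∃ C : ℕ, 1 ≤ C ∧ ∀ N : ℕ, Odd N → Nat.Perfect N →
    (∀ y : ℕ, 2 ≤ y →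
      log N ≤ C * (y : ℝ) ^ ((if (N.primeFactors.filter (y < ·)).card ≤ 1 then 3 / 2 else 2) + ε) *
        (C * log (log N)) ^ (C * (N.primeFactors.filter (y < ·)).card)) ∧
    (C ≤ N → log (log N) ≤
      C * (N.primeFactors.filter (fun p : ℕ => log (N : ℝ) ^ (1 / 2 - ε) < p)).card *
        log (log (log N))) ∧
    (C ≤ N → log (log N) ^ 2 ≤ C * log ((∏ p ∈ N.primeFactors, p : ℕ) : ℝ) *
        log (log (log N))) := by
  obtain ⟨C1, hC10, h1⟩ := one_large ε hε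
  obtain ⟨C2, hC21, h2⟩ := final ε hε
  obtain ⟨C3, hC3⟩ := exists_nat_ge C1
  obtain ⟨C, hC⟩ : ∃ C : ℕ, C = C2 + C3 + 12 := ⟨_, rfl⟩
  have hC2C : C2 ≤ C := by omega
  have hC12 : 12 ≤ C := by omega
  have hCR : (12 : ℝ) ≤ C := by exact_mod_cast hC12
  have hC2R : (C2 : ℝ) ≤ C := by exact_mod_cast hC2C
  have hC20 : (0 : ℝ) < C2 := by exact_mod_cast hC21
  refine ⟨C, by omega, ?_⟩
  intro N hodd hN
  have hll := i_loglog_pos N hodd hN
  obtain ⟨g1, g2, g3⟩ := h2 N hodd hN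
  have hb3 : (1 : ℝ) ≤ (C : ℝ) * log (log (N : ℝ)) := by nlinarith
  refine ⟨?_, ?_, ?_⟩
  · intro y hy
    have hy0 : (0 : ℝ) ≤ (y : ℝ) := Nat.cast_nonneg y
    by_cases hcard : (N.primeFactors.filter (y < ·)).card ≤ 1
    · rw [if_pos hcard]
      refine (h1 N y hodd hN hy hcard).trans ?_
      have e1 : C1 * (y : ℝ) ^ (3 / 2 + ε) ≤ C * (y : ℝ) ^ (3 / 2 + ε) := by
        refine mul_le_mul_of_nonneg_right (hC3.trans ?_) (rpow_nonneg hy0 _)
        exact_mod_cast (by omega : C3 ≤ C)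
      refine e1.trans (le_mul_of_one_le_right (by positivity) (one_le_pow₀ hb3))
    · rw [if_neg hcard]
      have h3 := g1 y hy
      rw [if_neg (by omega)] at h3
      refine h3.trans ?_
      have hb0 : (0 : ℝ) ≤ (C2 : ℝ) * log (log (N : ℝ)) :=
        mul_nonneg (Nat.cast_nonneg _) (by linarith)
      have hb2 : (C2 : ℝ) * log (log (N : ℝ)) ≤ (C : ℝ) * log (log (N : ℝ)) :=
        mul_le_mul_of_nonneg_right hC2R (by linarith)
      have h4 : ((C2 : ℝ) * log (log (N : ℝ))) ^ (C2 * (N.primeFactors.filter (y < ·)).card) ≤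
          ((C : ℝ) * log (log (N : ℝ))) ^ (C * (N.primeFactors.filter (y < ·)).card) :=
        (pow_le_pow_left₀ hb0 hb2 _).trans
          (pow_le_pow_right₀ hb3 (Nat.mul_le_mul_right _ hC2C))
      refine mul_le_mul ?_ h4 (pow_nonneg hb0 _) (by positivity)
      exact mul_le_mul_of_nonneg_right hC2R (rpow_nonneg hy0 _)
  · intro hCN
    have h3 := g2 (by omega)
    have h4 : 0 < (C2 : ℝ) * (N.primeFactors.filter (fun p : ℕ => log (N : ℝ) ^ (1 / 2 - ε) < p)).card *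
        log (log (log (N : ℝ))) := by linarith
    have h5 : 0 ≤ ((N.primeFactors.filter (fun p : ℕ => log (N : ℝ) ^ (1 / 2 - ε) < p)).card : ℝ) *
        log (log (log (N : ℝ))) := by
      rw [mul_assoc] at h4
      exact ((mul_pos_iff_of_pos_left hC20).1 h4).le
    rw [mul_assoc] at h3 ⊢
    exact h3.trans (mul_le_mul_of_nonneg_right hC2R h5)
  · intro hCN
    have h3 := g3 (by omega)
    have h6 : 0 < log (log (N : ℝ)) ^ 2 := by positivity
    have h4 : 0 < (C2 : ℝ) * log ((∏ p ∈ N.primeFactors, p : ℕ) : ℝ) * log (log (log (N : ℝ))) := by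
      linarith
    have h5 : 0 ≤ log ((∏ p ∈ N.primeFactors, p : ℕ) : ℝ) * log (log (log (N : ℝ))) := by
      rw [mul_assoc] at h4
      exact ((mul_pos_iff_of_pos_left hC20).1 h4).le
    rw [mul_assoc] at h3 ⊢
    exact h3.trans (mul_le_mul_of_nonneg_right hC2R h5)

end Pool.Agent.Lib.MP_f02ea4_nt.Ml
end
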