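import Mathlib

section

/-!
Pade approximants to `(1 - x) ^ m` in homogeneous form, with integer coefficients.
-/

set_option autoImplicit false

namespace Pool.Agent.Lib.MP_f02ea4_nt.Fin

open Finset

/-- The integers `∑_k (-1)^k C(j,k) C(2r-k,r)`. -/
def g (r j : ℕ) : ℤ :=
  ∑ k ∈ range (r + 1), (-1) ^ k * (j.choose k : ℤ) * ((2 * r - k).choose r : ℤ)

lemma coeff_one_sub (j k : ℕ) :
    PowerSeries.coeff k ((1 - PowerSeries.X : PowerSeries ℤ) ^ j) = (-1) ^ k * (j.choose k : ℤ) := by
  rw [sub_eq_add_neg, add_comm, add_pow, map_sum]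
  simp only [one_pow, mul_one]
  have h : ∀ x : ℕ, PowerSeries.coeff k (((-PowerSeries.X : PowerSeries ℤ)) ^ x * (j.choose x : PowerSeries ℤ))
      = if x = k then (-1) ^ k * (j.choose k : ℤ) else 0 := by
    intro x
    rw [neg_pow, mul_assoc, mul_comm (PowerSeries.X ^ x), ← mul_assoc]
    have : ((-1 : PowerSeries ℤ) ^ x * (j.choose x : PowerSeries ℤ)) =
        PowerSeries.C ((-1) ^ x * (j.choose x : ℤ)) := by
      simp
    rw [this, PowerSeries.coeff_C_mul, PowerSeries.coeff_X_pow]
    by_cases h : x = k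
    · subst h; simp
    · rw [if_neg h, if_neg (Ne.symm h)]; simp
  simp only [h]
  rw [Finset.sum_ite_eq']
  split_ifs with h1
  · rfl
  · rw [Finset.mem_range, not_lt] at h1
    rw [Nat.choose_eq_zero_of_lt (by omega)]
    simp

lemma g_eq_coeff (r j : ℕ) :
    g r j = PowerSeries.coeff r
      ((1 - PowerSeries.X : PowerSeries ℤ) ^ j *
        (PowerSeries.mk fun n => ((r + n).choose r : ℤ))) := by
  rw [PowerSeries.coeff_mul, Finset.Nat.sum_antidiagonal_eq_sum_range_succ_mk]
  unfold g
  apply Finset.sum_congr rfl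
  intro k hk
  rw [Finset.mem_range] at hk
  simp only
  rw [coeff_one_sub, PowerSeries.coeff_mk]
  congr 3
  omega

lemma g_big (r i : ℕ) : g r (r + 1 + i) = (-1) ^ r * (i.choose r : ℤ) := by
  rw [g_eq_coeff, add_comm (r + 1) i, pow_add, mul_assoc, mul_comm (_ ^ (r + 1))]
  have h := PowerSeries.mk_add_choose_mul_one_sub_pow_eq_one ℤ r
  rw [h, mul_one, coeff_one_sub]

lemma g_mid {r j : ℕ} (h1 : r < j) (h2 : j ≤ 2 * r) : g r j = 0 := by
  obtain ⟨i, rfl⟩ : ∃ i, j = r + 1 + i := ⟨j - (r + 1), by omega⟩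
  rw [g_big, Nat.choose_eq_zero_of_lt (by omega)]
  simp

lemma g_zero (r : ℕ) : g r 0 = ((2 * r).choose r : ℤ) := by
  unfold g
  rw [Finset.sum_eq_single 0]
  · simp
  · intro k _ hk
    rw [Nat.choose_eq_zero_of_lt (by omega)]
    simp
  · simp

lemma g_top (r : ℕ) : g r (2 * r + 1) = (-1) ^ r := by
  rw [show 2 * r + 1 = r + 1 + r by ring, g_big]
  simp

/-- Crude bound. -/
lemma g_abs_le (r j : ℕ) : |g r j| ≤ 4 ^ r * 2 ^ j := by
  unfold g
  calc |∑ k ∈ range (r + 1), (-1) ^ k * (j.choose k : ℤ) * ((2 * r - k).choose r : ℤ)|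
      ≤ ∑ k ∈ range (r + 1), |(-1) ^ k * (j.choose k : ℤ) * ((2 * r - k).choose r : ℤ)| :=
        Finset.abs_sum_le_sum_abs _ _
    _ ≤ ∑ k ∈ range (r + 1), (j.choose k : ℤ) * 4 ^ r := by
        apply Finset.sum_le_sum
        intro k _
        rw [abs_mul, abs_mul, abs_pow, abs_neg, abs_one, one_pow, one_mul, Nat.abs_cast,
          Nat.abs_cast]
        apply mul_le_mul_of_nonneg_left _ (by positivity)
        have h1 : (2 * r - k).choose r ≤ 2 ^ (2 * r - k) := Nat.choose_le_two_pow _ _
        have h2 : 2 ^ (2 * r - k) ≤ 2 ^ (2 * r) := Nat.pow_le_pow_right (by norm_num) (by omega)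
        have h3 : (2 : ℕ) ^ (2 * r) = 4 ^ r := by rw [pow_mul]; norm_num
        have h4 : (2 * r - k).choose r ≤ 4 ^ r := by omega
        exact_mod_cast h4
    _ = (∑ k ∈ range (r + 1), (j.choose k : ℤ)) * 4 ^ r := by rw [Finset.sum_mul]
    _ ≤ 2 ^ j * 4 ^ r := by
        apply mul_le_mul_of_nonneg_right _ (by positivity)
        have h1 : ∑ k ∈ range (r + 1), j.choose k ≤ 2 ^ j := by
          rw [← Nat.sum_range_choose]
          rcases le_total r j with h | h
          · apply Finset.sum_le_sum_of_subset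
            intro x hx
            rw [Finset.mem_range] at *
            omega
          · have : ∑ k ∈ range (r + 1), j.choose k = ∑ k ∈ range (j + 1), j.choose k := by
              symm
              apply Finset.sum_subset
              · intro x hx
                rw [Finset.mem_range] at *
                omega
              · intro x _ hx
                rw [Finset.mem_range] at hx
                exact Nat.choose_eq_zero_of_lt (by omega)
            exact this.le
        exact_mod_cast h1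
    _ = 4 ^ r * 2 ^ j := mul_comm _ _

/-- Better bound for `j > r`. -/
lemma g_abs_le' {r j : ℕ} (h : r < j) : |g r j| ≤ 2 ^ j := by
  obtain ⟨i, rfl⟩ : ∃ i, j = r + 1 + i := ⟨j - (r + 1), by omega⟩
  rw [g_big, abs_mul, abs_pow, abs_neg, abs_one, one_pow, one_mul, Nat.abs_cast]
  have h1 : i.choose r ≤ 2 ^ i := Nat.choose_le_two_pow _ _
  have h2 : 2 ^ i ≤ 2 ^ (r + 1 + i) := Nat.pow_le_pow_right (by norm_num) (by omega)
  exact_mod_cast h1.trans h2

section ring

variable {R : Type*} [CommRing R]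

/-- The polynomial multiplying `β ^ m`. -/
def Qs (r m : ℕ) (b d : R) : R :=
  ∑ k ∈ range (r + 1), ((2 * r - k).choose r : R) * ((m + r).choose k : R) * d ^ k * b ^ (r - k)

/-- The polynomial multiplying `α ^ m`. -/
def Ps (r m : ℕ) (a d : R) : R :=
  ∑ j ∈ range (r + 1), ((m + r).choose j : R) * (g r j : R) * (-d) ^ j * a ^ (r - j)

/-- The remainder. -/
def Rem (r m : ℕ) (a d : R) : R :=
  ∑ j ∈ Ico (2 * r + 1) (m + r + 1), ((m + r).choose j : R) * (g r j : R) * (-d) ^ j *
    a ^ (m + r - j)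

lemma full_sum (r m : ℕ) (a d : R) :
    (a - d) ^ m * Qs r m (a - d) d =
      ∑ j ∈ range (m + r + 1), ((m + r).choose j : R) * (g r j : R) * (-d) ^ j *
        a ^ (m + r - j) := by
  have h1 : (a - d) ^ m * Qs r m (a - d) d = ∑ k ∈ range (r + 1), ∑ j ∈ range (m + r + 1),
      ((m + r).choose j : R) * ((-1) ^ k * (j.choose k : R) * ((2 * r - k).choose r : R)) *
        (-d) ^ j * a ^ (m + r - j) := by
    unfold Qs
    rw [Finset.mul_sum]
    apply Finset.sum_congr rfl
    intro k hk
    rw [Finset.mem_range] at hk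
    have e1 : (a - d) ^ m * (((2 * r - k).choose r : R) * ((m + r).choose k : R) * d ^ k *
        (a - d) ^ (r - k)) = ((2 * r - k).choose r : R) * ((m + r).choose k : R) * d ^ k *
        (a - d) ^ (m + r - k) := by
      rw [show m + r - k = m + (r - k) by omega, pow_add]
      ring
    rw [e1, show (a - d) = (-d) + a by ring, add_pow, Finset.mul_sum]
    have e2 : ∑ j ∈ range (m + r + 1),
      ((m + r).choose j : R) * ((-1) ^ k * (j.choose k : R) * ((2 * r - k).choose r : R)) *
        (-d) ^ j * a ^ (m + r - j) = ∑ j ∈ Ico k (m + r + 1),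
      ((m + r).choose j : R) * ((-1) ^ k * (j.choose k : R) * ((2 * r - k).choose r : R)) *
        (-d) ^ j * a ^ (m + r - j) := by
      symm
      apply Finset.sum_subset
      · intro x hx
        rw [Finset.mem_Ico] at hx
        rw [Finset.mem_range]
        omega
      · intro x hx hx2
        rw [Finset.mem_range] at hx
        rw [Finset.mem_Ico] at hx2
        rw [Nat.choose_eq_zero_of_lt (show x < k by omega)]
        simp
    rw [e2, Finset.sum_Ico_eq_sum_range]
    rw [show m + r + 1 - k = m + r - k + 1 by omega]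
    apply Finset.sum_congr rfl
    intro i hi
    rw [Finset.mem_range] at hi
    have e3 : ((m + r).choose (k + i) : R) * ((k + i).choose k : R) =
        ((m + r).choose k : R) * ((m + r - k).choose i : R) := by
      have := Nat.choose_mul (n := m + r) (k := k + i) (s := k) (by omega)
      rw [show k + i - k = i by omega] at this
      have h5 := congrArg (Nat.cast : ℕ → R) this
      push_cast at h5
      exact h5
    have e4 : (-1 : R) ^ k * (-d) ^ (k + i) = d ^ k * (-d) ^ i := by
      rw [pow_add, ← mul_assoc, ← mul_pow]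
      simp
    calc ((2 * r - k).choose r : R) * ((m + r).choose k : R) * d ^ k *
          ((-d) ^ i * a ^ (m + r - k - i) * ((m + r - k).choose i : R))
        = ((2 * r - k).choose r : R) * (((m + r).choose k : R) * ((m + r - k).choose i : R)) *
            (d ^ k * (-d) ^ i) * a ^ (m + r - k - i) := by ring
      _ = ((2 * r - k).choose r : R) * (((m + r).choose (k + i) : R) * ((k + i).choose k : R)) *
            ((-1 : R) ^ k * (-d) ^ (k + i)) * a ^ (m + r - (k + i)) := by
          rw [e3, e4, show m + r - k - i = m + r - (k + i) by omega]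
      _ = _ := by ring
  rw [h1, Finset.sum_comm]
  apply Finset.sum_congr rfl
  intro j _
  unfold g
  push_cast
  rw [Finset.mul_sum, Finset.sum_mul, Finset.sum_mul]

/-- The Pade identity. -/
lemma pade (r m : ℕ) (hm : r ≤ m) (a d : R) :
    (a - d) ^ m * Qs r m (a - d) d = a ^ m * Ps r m a d + Rem r m a d := by
  rw [full_sum]
  have h1 : a ^ m * Ps r m a d = ∑ j ∈ range (r + 1),
      ((m + r).choose j : R) * (g r j : R) * (-d) ^ j * a ^ (m + r - j) := by
    unfold Ps
    rw [Finset.mul_sum]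
    apply Finset.sum_congr rfl
    intro j hj
    rw [Finset.mem_range] at hj
    rw [show m + r - j = m + (r - j) by omega, pow_add]
    ring
  rw [h1]
  unfold Rem
  have h2 : ∑ j ∈ Ico (2 * r + 1) (m + r + 1), ((m + r).choose j : R) * (g r j : R) * (-d) ^ j *
      a ^ (m + r - j) = ∑ j ∈ Ico (r + 1) (m + r + 1), ((m + r).choose j : R) * (g r j : R) *
      (-d) ^ j * a ^ (m + r - j) := by
    apply Finset.sum_subset
    · intro x hx
      rw [Finset.mem_Ico] at *
      omega
    · intro x hx hx2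
      rw [Finset.mem_Ico] at *
      rw [g_mid (by omega) (by omega)]
      simp
  rw [h2, Finset.range_eq_Ico, Finset.range_eq_Ico]
  exact (Finset.sum_Ico_consecutive _ (by omega) (by omega)).symm

end ring

end Pool.Agent.Lib.MP_f02ea4_nt.Fin
end

section

/-! Index of odd perfect numbers: components with `σ(r ^ e) = p ^ f`. -/

set_option autoImplicit false

namespace Pool.Agent.Lib.MP_f02ea4_nt.Idx

theorem comp_one {p r e f n : ℕ} (hp : p.Prime) (hr : r.Prime) (hr3 : 3 ≤ r) (he : 1 ≤ e)
    (hf : 1 ≤ f) (hn : 1 ≤ n) (hσ : (r - 1) * p ^ f + 1 = r ^ (e + 1)) :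
    (p ^ n - 1).factorization r ≤ 1 + n.factorization r := by
  have : Fact r.Prime := ⟨hr⟩
  have hr2 : Odd r := hr.odd_of_ne_two (by omega)
  have hp1 : 1 < p := hp.one_lt
  have hpf : 1 < p ^ f := Nat.one_lt_pow (by omega) hp1
  have hpn : 1 < p ^ n := Nat.one_lt_pow (by omega) hp1
  have hrp : ¬ r ∣ p ^ f := by
    intro hd
    have h1 : r ∣ (r - 1) * p ^ f := Dvd.dvd.mul_left hd _
    have h2 : r ∣ r ^ (e + 1) := dvd_pow_self _ (by omega)
    rw [← hσ] at h2
    have h3 : r ∣ 1 := (Nat.dvd_add_right h1).mp h2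
    have := Nat.dvd_one.mp h3
    omega
  have key : (r - 1) * (p ^ f - 1) = r * (r ^ e - 1) := by
    have h1 : r ^ (e + 1) = r * r ^ e := by rw [pow_succ']
    rw [h1] at hσ
    obtain ⟨a, ha⟩ : ∃ a, p ^ f = a + 1 := ⟨p ^ f - 1, by omega⟩
    obtain ⟨b, hb⟩ : ∃ b, r = b + 1 := ⟨r - 1, by omega⟩
    have hc1 : 1 ≤ r ^ e := Nat.one_le_pow _ _ hr.pos
    obtain ⟨c, hc⟩ : ∃ c, r ^ e = c + 1 := ⟨r ^ e - 1, by omega⟩
    rw [ha, hc, hb] at hσ
    rw [ha, hc, hb]
    simp only [Nat.add_sub_cancel] at hσ ⊢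
    nlinarith
  have hv1 : padicValNat r (p ^ f - 1) = 1 := by
    have h1 : padicValNat r ((r - 1) * (p ^ f - 1)) = padicValNat r (r - 1)
        + padicValNat r (p ^ f - 1) := padicValNat.mul (by omega) (by omega)
    have hre : 1 < r ^ e := Nat.one_lt_pow (by omega) hr.one_lt
    have h2 : padicValNat r (r * (r ^ e - 1)) = padicValNat r r + padicValNat r (r ^ e - 1) :=
      padicValNat.mul (by omega) (by omega)
    have h3 : padicValNat r (r - 1) = 0 := by
      apply padicValNat.eq_zero_of_not_dvd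
      intro hd
      have := Nat.le_of_dvd (by omega) hd
      omega
    have h4 : padicValNat r (r ^ e - 1) = 0 := by
      apply padicValNat.eq_zero_of_not_dvd
      intro hd
      have h5 : r ∣ r ^ e := dvd_pow_self _ (by omega)
      have h6 : r ∣ r ^ e - (r ^ e - 1) := Nat.dvd_sub h5 hd
      have h7 : r ^ e - (r ^ e - 1) = 1 := by omega
      rw [h7] at h6
      have := Nat.dvd_one.mp h6
      omega
    rw [key, h2, h3, h4, padicValNat.self hr.one_lt] at h1
    omega
  have hrd : r ∣ p ^ f - 1 := by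
    have := pow_padicValNat_dvd (p := r) (n := p ^ f - 1)
    rwa [hv1, pow_one] at this
  have hv2 : padicValNat r ((p ^ f) ^ n - 1 ^ n) = padicValNat r (p ^ f - 1) + padicValNat r n :=
    padicValNat.pow_sub_pow hr2 hpf hrd hrp (by omega)
  rw [one_pow, hv1] at hv2
  rw [Nat.factorization_def _ hr, Nat.factorization_def _ hr, ← hv2]
  have hne : (p ^ f) ^ n - 1 ≠ 0 := by
    have : 1 < (p ^ f) ^ n := Nat.one_lt_pow (by omega) hpf
    omega
  rw [← padicValNat_dvd_iff_le hne]
  refine pow_padicValNat_dvd.trans ?_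
  have h1 : (p ^ f) ^ n = (p ^ n) ^ f := by rw [← pow_mul, ← pow_mul, mul_comm]
  rw [h1]
  simpa using Nat.sub_dvd_pow_sub_pow (p ^ n) 1 f

lemma three_pow_gt (k : ℕ) (hk : 4 ≤ k) : 2 * (k + 1) ^ 2 < 3 ^ k := by
  induction k, hk using Nat.le_induction with
  | base => norm_num
  | succ k hk ih =>
    have h3 : 3 ^ (k + 1) = 3 * 3 ^ k := by rw [pow_succ']
    rw [h3]
    nlinarith

/-- index one does not occur -/
theorem small_case {p k M : ℕ} (hp3 : 3 ≤ p) (hk : 1 ≤ k) (hM : Odd M)
    (hX : ∑ j ∈ Finset.range (k + 1), p ^ j = 2 * M)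
    (hle : ∑ j ∈ Finset.range (k + 1), p ^ j ≤ 2 * (k + 1) ^ 2)
    (hM2 : ArithmeticFunction.sigma 1 M = p ^ k) : False := by
  have h1 : p ^ k ≤ ∑ j ∈ Finset.range (k + 1), p ^ j := by
    rw [Finset.sum_range_succ]; omega
  have h2 : 3 ^ k ≤ p ^ k := Nat.pow_le_pow_left hp3 k
  have hk4 : k < 4 := by
    by_contra hc
    have := three_pow_gt k (by omega)
    omega
  obtain ⟨c, hc⟩ := hM
  interval_cases k
  · -- `k = 1`
    simp [Finset.sum_range_succ] at hX hle
    have hp8 : p < 8 := by omega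
    interval_cases p <;> first | omega | skip
    have : M = 3 := by omega
    subst this
    revert hM2
    decide
  · -- `k = 2`
    simp [Finset.sum_range_succ] at hX hle
    have hp8 : p < 5 := by nlinarith
    interval_cases p <;> omega
  · -- `k = 3`
    simp [Finset.sum_range_succ] at hX hle
    have hp8 : p < 4 := by
      by_contra hc2
      have : 4 ^ 3 ≤ p ^ 3 := Nat.pow_le_pow_left (by omega) 3
      omega
    interval_cases p
    omega

end Pool.Agent.Lib.MP_f02ea4_nt.Idx
end

section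

/-! Index of odd perfect numbers: the final real inequality. -/

set_option autoImplicit false

namespace Pool.Agent.Lib.MP_f02ea4_nt.Idx

open Finset Real

lemma sqrt_le_lin (C : ℝ) (hC : log 2 ≤ C) : sqrt C ≤ (12012 / 10000) * C := by
  have h2 : (0.6931471803 : ℝ) < log 2 := log_two_gt_d9
  have hC0 : 0 ≤ C := by linarith
  rw [sqrt_le_left (by positivity)]
  nlinarith

lemma log_le_sqrt (x : ℝ) (hx : 1 ≤ x) : 2 * log x ≤ (1472 / 1000) * sqrt x := by
  have he : (2.7182818283 : ℝ) < exp 1 := exp_one_gt_d9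
  have hs : 0 < sqrt x := sqrt_pos.mpr (by linarith)
  have h1 : log (sqrt x / exp 1) ≤ sqrt x / exp 1 - 1 :=
    log_le_sub_one_of_pos (by positivity)
  rw [log_div hs.ne' (exp_pos 1).ne', log_exp, log_sqrt (by linarith)] at h1
  have h2 : sqrt x / exp 1 ≤ (368 / 1000) * sqrt x := by
    rw [div_le_iff₀ (exp_pos 1)]
    nlinarith
  linarith

lemma log_three_ge_one : (1 : ℝ) ≤ log 3 := by
  have he : exp 1 < (2.7182818286 : ℝ) := exp_one_lt_d9
  rw [le_log_iff_exp_le (by norm_num)]
  linarith

/-- the final inequality -/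
lemma final_ineq (k P I D s J : ℝ) (hk : 1 ≤ k) (hP : 1 ≤ P) (hI : log 2 ≤ I)
    (hD : D = (k + 1) * P) (hs : s = sqrt D) (hJ : J ≤ (12012 / 10000) * I)
    (h : k * P ≤ log 2 + I + 2 * log (k + 1) + 12 * s * J) :
    I + 2 * (k * P) ≤ 1300 * I ^ 2 := by
  have h2 : (0.6931471803 : ℝ) < log 2 := log_two_gt_d9
  have hI0 : 0 < I := by linarith
  have hD2 : 2 ≤ D := by rw [hD]; nlinarith
  have hs0 : 0 ≤ s := by rw [hs]; exact sqrt_nonneg _
  have hss : s * s = D := by rw [hs]; exact mul_self_sqrt (by linarith)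
  have hs1 : (1414 / 1000 : ℝ) ≤ s := by
    by_contra hc
    push Not at hc
    nlinarith
  have hlog : 2 * log (k + 1) ≤ (1472 / 1000) * s := by
    refine (log_le_sqrt (k + 1) (by linarith)).trans ?_
    apply mul_le_mul_of_nonneg_left _ (by norm_num)
    rw [hs]
    apply sqrt_le_sqrt
    rw [hD]
    nlinarith
  have h3 : 2 * log (k + 1) ≤ (2124 / 1000) * (s * I) := by
    refine hlog.trans ?_
    nlinarith
  have h4 : log 2 + I ≤ (1415 / 1000) * (s * I) := by
    nlinarith
  have h5 : 12 * s * J ≤ (144144 / 10000) * (s * I) := by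
    have : s * J ≤ s * ((12012 / 10000) * I) := mul_le_mul_of_nonneg_left hJ hs0
    linarith
  have h6 : k * P ≤ (17954 / 1000) * (s * I) := by linarith
  have h7 : D ≤ 2 * (k * P) := by rw [hD]; nlinarith
  have h8 : s ≤ (35908 / 1000) * I := by
    by_contra hc
    push Not at hc
    nlinarith
  have h9 : k * P ≤ (17954 / 1000) * ((35908 / 1000) * I * I) := by
    refine h6.trans ?_
    apply mul_le_mul_of_nonneg_left _ (by norm_num)
    exact mul_le_mul_of_nonneg_right h8 hI0.le
  nlinarith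

end Pool.Agent.Lib.MP_f02ea4_nt.Idx
end

section

set_option autoImplicit false

namespace Pool.Agent.Lib.MP_f02ea4_nt.Rad

open Finset

/-- divisor sum of a prime power -/
def sg (p e : ℕ) : ℕ := ∑ i ∈ range (e + 1), p ^ i

lemma sg_pos (p e : ℕ) : 0 < sg p e := by
  unfold sg
  rw [Finset.sum_range_succ']
  simp

lemma pow_le_sg (p e : ℕ) : p ^ e ≤ sg p e := by
  unfold sg
  rw [Finset.sum_range_succ]
  exact Nat.le_add_left _ _

lemma sum_mod2 {p : ℕ} (hp : p % 2 = 1) (n : ℕ) : (∑ i ∈ range n, p ^ i) % 2 = n % 2 := by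
  induction n with
  | zero => simp
  | succ n ih =>
    rw [Finset.sum_range_succ, Nat.add_mod, ih, Nat.pow_mod, hp]
    simp

lemma sum_mod4_one {p : ℕ} (hp : p % 4 = 1) (n : ℕ) : (∑ i ∈ range n, p ^ i) % 4 = n % 4 := by
  induction n with
  | zero => simp
  | succ n ih =>
    rw [Finset.sum_range_succ, Nat.add_mod, ih, Nat.pow_mod, hp]
    simp

lemma sum_mod4_three {p : ℕ} (hp : p % 4 = 3) (n : ℕ) :
    (∑ i ∈ range n, p ^ i) % 4 = n % 2 := by
  have hpow : ∀ k : ℕ, p ^ (2 * k) % 4 = 1 := by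
    intro k
    rw [pow_mul, Nat.pow_mod]
    have : p ^ 2 % 4 = 1 := by rw [Nat.pow_mod, hp]
    rw [this]; simp
  induction n with
  | zero => simp
  | succ n ih =>
    rw [Finset.sum_range_succ, Nat.add_mod, ih]
    rcases Nat.even_or_odd' n with ⟨k, rfl | rfl⟩
    · rw [hpow]; omega
    · have : p ^ (2 * k + 1) % 4 = 3 := by
        rw [pow_succ, Nat.mul_mod, hpow, hp]
      rw [this]; omega

/-- The sigma equation of a perfect number. -/
lemma perfect_eq {N : ℕ} (hN : N.Perfect) :
    ∏ p ∈ N.primeFactors, sg p (N.factorization p) = 2 * N := by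
  have h1 := (Nat.perfect_iff_sum_divisors_eq_two_mul hN.2).1 hN
  rw [Nat.sum_divisors hN.2.ne'] at h1
  exact h1

/-- Euler: structure of odd perfect numbers. -/
lemma euler {N : ℕ} (ho : Odd N) (hN : N.Perfect) :
    ∃ q ∈ N.primeFactors, q % 4 = 1 ∧ N.factorization q % 4 = 1 ∧
      ∀ p ∈ N.primeFactors, p ≠ q → N.factorization p % 2 = 0 := by
  have heq := perfect_eq hN
  have hNo : N % 2 = 1 := Nat.odd_iff.1 ho
  have hodd : ∀ p ∈ N.primeFactors, p % 2 = 1 := by
    intro p hp
    have h1 := Nat.dvd_of_mem_primeFactors hp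
    rcases (Nat.prime_of_mem_primeFactors hp).eq_two_or_odd with h | h
    · rw [h] at h1; omega
    · exact h
  have h2 : 2 ∣ ∏ p ∈ N.primeFactors, sg p (N.factorization p) := by rw [heq]; exact Dvd.intro _ rfl
  obtain ⟨q, hq, hq2⟩ := (Prime.dvd_finsetProd_iff Nat.prime_two.prime _).1 h2
  have hsplit := Finset.mul_prod_erase N.primeFactors (fun p => sg p (N.factorization p)) hq
  have hrest : ¬ 2 ∣ ∏ p ∈ N.primeFactors.erase q, sg p (N.factorization p) := by
    rintro ⟨a, ha⟩
    obtain ⟨b, hb⟩ := hq2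
    rw [heq, ha, hb] at hsplit
    have : 4 * (b * a) = 2 * N := by rw [← hsplit]; ring
    omega
  have hq4 : sg q (N.factorization q) % 4 = 2 := by
    by_contra h
    obtain ⟨b, hb⟩ := hq2
    have hb2 : 2 ∣ b := by omega
    obtain ⟨c, rfl⟩ := hb2
    rw [heq, hb] at hsplit
    have : 4 * (c * ∏ p ∈ N.primeFactors.erase q, sg p (N.factorization p)) = 2 * N := by
      rw [← hsplit]; ring
    omega
  refine ⟨q, hq, ?_, ?_, ?_⟩
  · have h3 := hodd q hq
    by_contra h4
    have h5 : q % 4 = 3 := by omega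
    have h6 := sum_mod4_three h5 (N.factorization q + 1)
    unfold sg at hq4
    omega
  · have h3 := hodd q hq
    rcases (by omega : q % 4 = 1 ∨ q % 4 = 3) with h5 | h5
    · have h6 := sum_mod4_one h5 (N.factorization q + 1)
      unfold sg at hq4
      omega
    · have h6 := sum_mod4_three h5 (N.factorization q + 1)
      unfold sg at hq4
      omega
  · intro p hp hpq
    by_contra h
    apply hrest
    have h3 := sum_mod2 (hodd p hp) (N.factorization p + 1)
    have h4 : 2 ∣ sg p (N.factorization p) := by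
      unfold sg; omega
    exact dvd_trans h4 (Finset.dvd_prod_of_mem (fun p => sg p (N.factorization p))
      (Finset.mem_erase.2 ⟨hpq, hp⟩))

/-- abundancy of a unitary divisor -/
lemma abund {N : ℕ} (hN : N.Perfect) {T : Finset ℕ} (hT : T ⊆ N.primeFactors) :
    ∏ p ∈ T, sg p (N.factorization p) ≤ 2 * ∏ p ∈ T, p ^ (N.factorization p) := by
  have heq := perfect_eq hN
  have hprod : ∏ p ∈ N.primeFactors, p ^ (N.factorization p) = N :=
    Nat.prod_factorization_pow_eq_self hN.2.ne'
  rw [← Finset.prod_sdiff hT] at heq hprod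
  have h1 : ∏ p ∈ N.primeFactors \ T, p ^ (N.factorization p)
      ≤ ∏ p ∈ N.primeFactors \ T, sg p (N.factorization p) :=
    Finset.prod_le_prod' (fun p _ => pow_le_sg _ _)
  have h2 : 0 < ∏ p ∈ N.primeFactors \ T, p ^ (N.factorization p) := by
    apply Finset.prod_pos
    intro p hp
    exact pow_pos (Nat.prime_of_mem_primeFactors (Finset.mem_sdiff.1 hp).1).pos _
  have h3 : (∏ p ∈ N.primeFactors \ T, p ^ (N.factorization p)) *
      ∏ p ∈ T, sg p (N.factorization p) ≤
      (∏ p ∈ N.primeFactors \ T, p ^ (N.factorization p)) *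
        (2 * ∏ p ∈ T, p ^ (N.factorization p)) := by
    calc _ ≤ (∏ p ∈ N.primeFactors \ T, sg p (N.factorization p)) *
          ∏ p ∈ T, sg p (N.factorization p) := Nat.mul_le_mul_right _ h1
      _ = 2 * N := heq
      _ = _ := by
        conv_lhs => rw [← hprod]
        ring
  exact Nat.le_of_mul_le_mul_left h3 h2

end Pool.Agent.Lib.MP_f02ea4_nt.Rad
end
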