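import Mathlib
import Pool.Agent.Lib.MP_f02ea4_nt.HBProc
import Pool.Agent.Lib.MP_f02ea4_nt.Mg.G002

section

set_option autoImplicit false

/-!
# Two components of an odd perfect number
-/

namespace Pool.Agent.Lib.MP_f02ea4_nt.HB

lemma pow_eq {q a b m n : ℕ} (hq : q.Prime) (hm : ¬ q ∣ m) (hn : ¬ q ∣ n)
    (h : q ^ a * m = q ^ b * n) : a = b := by
  rcases lt_trichotomy a b with h1 | h1 | h1
  · exfalso
    obtain ⟨c, rfl⟩ : ∃ c, b = a + (c + 1) := ⟨b - a - 1, by omega⟩
    rw [pow_add, mul_assoc] at h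
    have h2 := Nat.eq_of_mul_eq_mul_left (pow_pos hq.pos a) h
    exact hm (by rw [h2, pow_succ]; exact ⟨q ^ c * n, by ring⟩)
  · exact h1
  · exfalso
    obtain ⟨c, rfl⟩ : ∃ c, a = b + (c + 1) := ⟨a - b - 1, by omega⟩
    rw [pow_add, mul_assoc] at h
    have h2 := Nat.eq_of_mul_eq_mul_left (pow_pos hq.pos b) h
    exact hn (by rw [← h2, pow_succ]; exact ⟨q ^ c * m, by ring⟩)

/-- no prime divides the divisor sum of its own power -/
lemma not_dvd_sg {q e s : ℕ} (hq : q.Prime) (h : (q - 1) * s + 1 = q ^ (e + 1)) : ¬ q ∣ s := by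
  intro h1
  have h2 : q ∣ (q - 1) * s + 1 := by rw [h]; exact dvd_pow_self q (by omega)
  have h3 : q ∣ 1 := (Nat.dvd_add_right (Dvd.dvd.mul_left h1 (q - 1))).1 h2
  exact hq.one_lt.ne' (Nat.dvd_one.1 h3)

/-- The two largest components. -/
theorem arith {q l e f U sU sX sY : ℕ} (hq : q.Prime) (hl : l.Prime) (hql : q ≠ l)
    (hq3 : 3 ≤ q) (hl3 : 3 ≤ l)
    (hsX : (q - 1) * sX + 1 = q ^ (e + 1)) (hsY : (l - 1) * sY + 1 = l ^ (f + 1))
    (hprod : sU * sY * sX = 2 * (U * l ^ f * q ^ e)) (hqU : ¬ q ∣ U) (hlU : ¬ l ∣ U)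
    (hlt : l ^ (f + 1) < q ^ (e + 1)) :
    2592 * (U * l ^ f * q ^ e) ^ 2 < (sU * l * q) ^ 7 := by
  have hU : 0 < U := by
    rcases Nat.eq_zero_or_pos U with h | h
    · exact absurd (h ▸ dvd_zero q) hqU
    · exact h
  have hqodd : q % 2 = 1 := by
    rcases hq.eq_two_or_odd with h | h
    · omega
    · exact h
  have hlodd : l % 2 = 1 := by
    rcases hl.eq_two_or_odd with h | h
    · omega
    · exact h
  have hqX := not_dvd_sg hq hsX
  have hlY := not_dvd_sg hl hsY
  have hNpos : 0 < sU * sY * sX := by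
    rw [hprod]; have := hq.pos; have := hl.pos; positivity
  have hsU0 : sU ≠ 0 := by rintro rfl; simp at hNpos
  have hsY0 : sY ≠ 0 := by rintro rfl; simp at hNpos
  have hsX0 : sX ≠ 0 := by rintro rfl; simp at hNpos
  obtain ⟨b, h, hh, hbh⟩ := Nat.exists_eq_pow_mul_and_not_dvd hsY0 q hq.ne_one
  obtain ⟨c, t, ht, hct⟩ := Nat.exists_eq_pow_mul_and_not_dvd hsU0 q hq.ne_one
  have hlh : ¬ l ∣ h := fun h1 => hlY (by rw [hbh]; exact Dvd.dvd.mul_left h1 _)
  have hql' : ¬ q ∣ l := fun h1 => hql ((Nat.prime_dvd_prime_iff_eq hq hl).1 h1)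
  have hlq' : ¬ l ∣ q := fun h1 => hql ((Nat.prime_dvd_prime_iff_eq hl hq).1 h1).symm
  have hq2 : ¬ q ∣ 2 := fun h1 => by have := Nat.le_of_dvd (by norm_num) h1; omega
  have hl2 : ¬ l ∣ 2 := fun h1 => by have := Nat.le_of_dvd (by norm_num) h1; omega
  have hcb : c + b = e := by
    apply pow_eq hq (m := t * h * sX) (n := 2 * U * l ^ f)
    · rw [hq.dvd_mul, hq.dvd_mul]; tauto
    · rw [hq.dvd_mul, hq.dvd_mul]
      rintro ((h1 | h1) | h1)
      · exact hq2 h1
      · exact hqU h1
      · exact hql' (hq.dvd_of_dvd_pow h1)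
    · rw [hct, hbh] at hprod
      rw [pow_add]
      calc _ = q ^ c * t * (q ^ b * h) * sX := by ring
        _ = _ := by rw [hprod]; ring
  have hth : t * h * sX = 2 * U * l ^ f := by
    have h1 : q ^ e * (t * h * sX) = q ^ e * (2 * U * l ^ f) := by
      rw [hct, hbh] at hprod
      calc _ = q ^ c * t * (q ^ b * h) * sX := by rw [← hcb, pow_add]; ring
        _ = _ := by rw [hprod]; ring
    exact Nat.eq_of_mul_eq_mul_left (pow_pos hq.pos e) h1
  have ht0 : t ≠ 0 := by rintro rfl; simp at ht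
  have hh0 : h ≠ 0 := by rintro rfl; simp at hh
  obtain ⟨g, t', ht', hgt⟩ := Nat.exists_eq_pow_mul_and_not_dvd ht0 l hl.ne_one
  obtain ⟨v, w, hw, hvw⟩ := Nat.exists_eq_pow_mul_and_not_dvd hsX0 l hl.ne_one
  have hgv : g + v = f := by
    apply pow_eq hl (m := t' * h * w) (n := 2 * U)
    · rw [hl.dvd_mul, hl.dvd_mul]; tauto
    · rw [hl.dvd_mul]; tauto
    · rw [pow_add]
      calc _ = (l ^ g * t') * h * (l ^ v * w) := by ring
        _ = 2 * U * l ^ f := by rw [← hgt, ← hvw, hth]
        _ = _ := by ring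
  -- abbreviations
  obtain ⟨x, hx⟩ : ∃ x, x = q ^ (e + 1) := ⟨_, rfl⟩
  obtain ⟨y, hy⟩ : ∃ y, y = l ^ (f + 1) := ⟨_, rfl⟩
  obtain ⟨D, hD⟩ : ∃ D, D = sU * l * q := ⟨_, rfl⟩
  obtain ⟨L, hL⟩ : ∃ L, l = L + 1 := ⟨l - 1, by omega⟩
  obtain ⟨R, hR⟩ : ∃ R, q = R + 1 := ⟨q - 1, by omega⟩
  have hL2 : 2 ≤ L := by omega
  have hR2 : 2 ≤ R := by omega
  have hRs : R * sX + 1 = x := by
    rw [hx, ← hsX]
    have : q - 1 = R := by omega
    rw [this]
  have hLs : L * sY + 1 = y := by
    rw [hy, ← hsY]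
    have : l - 1 = L := by omega
    rw [this]
  have hyx : y < x := by rw [hx, hy]; exact hlt
  -- u = (l-1) h
  obtain ⟨u, hu⟩ : ∃ u, u = L * h := ⟨_, rfl⟩
  have hqu : q ^ b * u + 1 = y := by
    rw [← hLs, hu, hbh]; ring
  -- K1 : l (l-1) h t x = D (y-1)
  have K0 : l * L * h * t * x = D * (L * sY) := by
    rw [hD, hx, hbh, hct, ← hcb]
    rw [show q ^ (c + b + 1) = q ^ c * q ^ b * q by rw [pow_succ, pow_add]]
    ring
  have hltg : l ^ g ≤ t := by
    rw [hgt]
    have : t' ≠ 0 := by rintro rfl; simp at ht'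
    exact Nat.le_mul_of_pos_right _ (Nat.pos_of_ne_zero this)
  have K1 : l * L * h * l ^ g * x ≤ D * (L * sY) := by
    rw [← K0]
    have := Nat.mul_le_mul_left (l * L * h * x) hltg
    calc _ = l * L * h * x * l ^ g := by ring
      _ ≤ _ := this
      _ = _ := by ring
  have hDpos : 0 < D := by
    rw [hD]; have := hq.pos; have := hl.pos
    have := Nat.pos_of_ne_zero hsU0
    positivity
  have hsYpos : 0 < sY := Nat.pos_of_ne_zero hsY0
  have hsXpos : 0 < sX := Nat.pos_of_ne_zero hsX0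
  -- 144 N < D x y
  have hN : 2 * (U * l ^ f * q ^ e) * (l * L * q * R) = D * (R * sX) * (L * sY) := by
    rw [← hprod, hD]; ring
  have h72 : 72 ≤ l * L * q * R := by
    rcases Nat.lt_or_gt_of_ne hql with h1 | h1
    · calc 72 = 4 * 3 * 3 * 2 := by norm_num
        _ ≤ l * L * q * R := by
          apply Nat.mul_le_mul (Nat.mul_le_mul (Nat.mul_le_mul _ _) _) <;> omega
    · calc 72 = 3 * 2 * 4 * 3 := by norm_num
        _ ≤ l * L * q * R := by
          apply Nat.mul_le_mul (Nat.mul_le_mul (Nat.mul_le_mul _ _) _) <;> omega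
  have hN2 : 144 * (U * l ^ f * q ^ e) < D * x * y := by
    have h1 : D * (R * sX) * (L * sY) < D * x * y := by
      have h2 : D * (R * sX) < D * x := Nat.mul_lt_mul_of_pos_left (by omega) hDpos
      have h3 : L * sY < y := by omega
      exact Nat.mul_lt_mul_of_lt_of_lt h2 h3
    calc 144 * (U * l ^ f * q ^ e) = 2 * (U * l ^ f * q ^ e) * 72 := by ring
      _ ≤ 2 * (U * l ^ f * q ^ e) * (l * L * q * R) := Nat.mul_le_mul_left _ h72
      _ = _ := hN
      _ < _ := h1
  -- y < 2 D
  have hy2D : y < 2 * D := by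
    have h1 : (2 * U * L * R) * (x * y) = D * ((R * sX) * (L * sY)) := by
      have h2 : D * ((R * sX) * (L * sY)) = 2 * (U * l ^ f * q ^ e) * (l * L * q * R) := by
        rw [hN]; ring
      rw [h2, hx, hy]; ring
    have h3 : (R * sX) * (L * sY) < x * y :=
      Nat.mul_lt_mul_of_lt_of_lt (by omega) (by omega)
    have hxy : 0 < x * y := by
      have : 0 < x := by omega
      have : 0 < y := by omega
      positivity
    have h4 : 2 * U * L * R < D := by
      by_contra hcon
      push Not at hcon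
      have h5 : D * (x * y) ≤ (2 * U * L * R) * (x * y) := Nat.mul_le_mul_right _ hcon
      have h6 : D * ((R * sX) * (L * sY)) < D * (x * y) := Nat.mul_lt_mul_of_pos_left h3 hDpos
      omega
    have h7 : (2 * U * L * R + 1) * (x * y) ≤ D * (x * y) := Nat.mul_le_mul_right _ h4
    have h8 : x * y = (R * sX) * (L * sY) + (R * sX) + (L * sY) + 1 := by
      rw [← hRs, ← hLs]; ring
    have h9 : x * y ≤ D * (R * sX + L * sY + 1) := by
      have h10 : (2 * U * L * R + 1) * (x * y) = D * ((R * sX) * (L * sY)) + x * y := by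
        rw [← h1]; ring
      have h11 : D * (x * y) = D * ((R * sX) * (L * sY)) + D * (R * sX + L * sY + 1) := by
        rw [h8]; ring
      omega
    have h12 : D * (R * sX + L * sY + 1) < D * (2 * x) :=
      Nat.mul_lt_mul_of_pos_left (by omega) hDpos
    have h13 : x * y < x * (2 * D) := by
      calc x * y ≤ _ := h9
        _ < _ := h12
        _ = _ := by ring
    exact Nat.lt_of_mul_lt_mul_left h13
  -- congruences
  have hc1 : ((l : ℤ) ^ v) ∣ (x : ℤ) - 1 := by
    have h1 : (x : ℤ) - 1 = R * sX := by rw [← hRs]; push_cast; ring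
    rw [h1, hvw]
    exact ⟨R * w, by push_cast; ring⟩
  have hc2 : ((l : ℤ) ^ v) ∣ (q : ℤ) ^ b * u + 1 := by
    have h1 : (q : ℤ) ^ b * u + 1 = (l : ℤ) ^ (f + 1) := by
      have : q ^ b * u + 1 = l ^ (f + 1) := by rw [hqu, hy]
      exact_mod_cast this
    rw [h1, ← hgv]
    exact pow_dvd_pow _ (by omega)
  have hc3 : ((l : ℤ) ^ v) ∣ ((q : ℤ) ^ b * u) ^ 2 - 1 := by
    have : ((q : ℤ) ^ b * u) ^ 2 - 1 = ((q : ℤ) ^ b * u + 1) * ((q : ℤ) ^ b * u - 1) := by ring
    rw [this]; exact Dvd.dvd.mul_right hc2 _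
  have hcop : IsCoprime ((l : ℤ) ^ v) ((q : ℤ)) := by
    apply IsCoprime.pow_left
    rw [Nat.isCoprime_iff_coprime]
    exact (Nat.coprime_primes hl hq).2 hql.symm
  have hueven : u % 2 = 0 := by
    rw [hu, Nat.mul_mod]
    have : L % 2 = 0 := by omega
    rw [this]; simp
  have hqpow : ∀ n : ℕ, q ^ n % 2 = 1 := by
    intro n
    rw [Nat.pow_mod, hqodd]; simp
  have hlv0 : (0 : ℤ) < (l : ℤ) ^ v := by have := hl.pos; positivity
  have hl1pos : 0 < l ^ (g + 1) := pow_pos hl.pos _
  have hylv : y = l ^ v * l ^ (g + 1) := by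
    rw [hy, ← pow_add]; congr 1; omega
  have hupos : 0 < u := by
    rw [hu]; have := Nat.pos_of_ne_zero hh0; positivity
  -- K1 again, with u : l * u * l^g * x ≤ D * (y - 1)
  have K2 : l ^ (g + 1) * u * x ≤ D * (q ^ b * u) := by
    have e1 : L * sY = q ^ b * u := by omega
    rw [e1] at K1
    calc _ = l * L * h * l ^ g * x := by rw [hu, pow_succ]; ring
      _ ≤ _ := K1
  have K3 : l ^ (g + 1) * x ≤ D * q ^ b := by
    apply Nat.le_of_mul_le_mul_left _ hupos
    calc _ = l ^ (g + 1) * u * x := by ring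
      _ ≤ _ := K2
      _ = _ := by ring
  have hqby : q ^ b * u < y := by omega
  have hxpos : 0 < x := by omega
  have hypos : 0 < y := by omega
  -- three alternatives
  have alt : x * y < D ^ 2 ∨ 3 * x ^ 2 < D ^ 2 * y ∨ 2 * x ^ 2 < D * y ^ 2 := by
    rcases Nat.lt_or_ge (e + 1) (2 * b) with hK | hK
    · -- K < 2b
      right; right
      obtain ⟨r, hr⟩ : ∃ r, 2 * b = e + 1 + r := ⟨2 * b - (e + 1), by omega⟩
      have h1 : ((l : ℤ) ^ v) ∣ (q : ℤ) ^ r * (u : ℤ) ^ 2 - 1 := by
        have h2 : ((q : ℤ) ^ b * u) ^ 2 - 1 =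
            ((x : ℤ) - 1) * ((q : ℤ) ^ r * (u : ℤ) ^ 2) + ((q : ℤ) ^ r * (u : ℤ) ^ 2 - 1) := by
          have h3 : (q : ℤ) ^ b * (q : ℤ) ^ b = (x : ℤ) * (q : ℤ) ^ r := by
            rw [← pow_add, hx]
            push_cast
            rw [← pow_add]; congr 1; omega
          have h4 : ((q : ℤ) ^ b * u) ^ 2 = ((q : ℤ) ^ b * (q : ℤ) ^ b) * (u : ℤ) ^ 2 := by ring
          rw [h4, h3]; ring
        rw [h2] at hc3
        exact (dvd_add_right (Dvd.dvd.mul_right hc1 _)).1 hc3
      have h2 : 0 < (q : ℤ) ^ r * (u : ℤ) ^ 2 - 1 := by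
        have h3 : (q ^ r * u ^ 2) % 2 = 0 := by
          rw [Nat.mul_mod, Nat.pow_mod u, hueven]; simp
        have h4 : 0 < q ^ r * u ^ 2 := by have := hq.pos; positivity
        have h5 : 1 < q ^ r * u ^ 2 := by omega
        have : (1 : ℤ) < (q : ℤ) ^ r * (u : ℤ) ^ 2 := by exact_mod_cast h5
        linarith
      have h3 := Int.le_of_dvd h2 h1
      have h4 : l ^ v < q ^ r * u ^ 2 := by
        have : (l : ℤ) ^ v < (q : ℤ) ^ r * (u : ℤ) ^ 2 := by linarith
        exact_mod_cast this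
      -- x * l^v < (q^b u)^2
      have h5 : x * l ^ v < (q ^ b * u) ^ 2 := by
        calc x * l ^ v < x * (q ^ r * u ^ 2) := Nat.mul_lt_mul_of_pos_left h4 hxpos
          _ = (q ^ b * u) ^ 2 := by
            have : x * q ^ r = q ^ b * q ^ b := by
              rw [hx, ← pow_add, ← pow_add]; congr 1; omega
            calc _ = (x * q ^ r) * u ^ 2 := by ring
              _ = _ := by rw [this]; ring
      -- multiply by l^(g+1)
      have h6 : x * y < l ^ (g + 1) * y ^ 2 := by
        calc x * y = (x * l ^ v) * l ^ (g + 1) := by rw [hylv]; ring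
          _ < (q ^ b * u) ^ 2 * l ^ (g + 1) := Nat.mul_lt_mul_of_pos_right h5 hl1pos
          _ ≤ y ^ 2 * l ^ (g + 1) :=
              Nat.mul_le_mul_right _ (Nat.pow_le_pow_left hqby.le 2)
          _ = _ := by ring
      have h7 : x < l ^ (g + 1) * y := by
        have : x * y < (l ^ (g + 1) * y) * y := by
          calc x * y < _ := h6
            _ = _ := by ring
        exact Nat.lt_of_mul_lt_mul_right this
      -- K2 with u ≥ 2
      have hu2 : 2 ≤ u := by omega
      have h8 : 2 * (l ^ (g + 1) * x) ≤ D * y := by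
        calc 2 * (l ^ (g + 1) * x) ≤ u * (l ^ (g + 1) * x) := Nat.mul_le_mul_right _ hu2
          _ = l ^ (g + 1) * u * x := by ring
          _ ≤ D * (q ^ b * u) := K2
          _ ≤ D * y := Nat.mul_le_mul_left _ hqby.le
      calc 2 * x ^ 2 = 2 * x * x := by ring
        _ < 2 * x * (l ^ (g + 1) * y) := Nat.mul_lt_mul_of_pos_left h7 (by omega)
        _ = 2 * (l ^ (g + 1) * x) * y := by ring
        _ ≤ D * y * y := Nat.mul_le_mul_right _ h8
        _ = _ := by ring
    · -- 2b ≤ K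
      obtain ⟨r, hr⟩ : ∃ r, e + 1 = 2 * b + r := ⟨e + 1 - 2 * b, by omega⟩
      have hxr : x = q ^ b * q ^ b * q ^ r := by
        rw [hx, hr, pow_add, two_mul, pow_add]
      have h1 : ((l : ℤ) ^ v) ∣ (q : ℤ) ^ r - (u : ℤ) ^ 2 := by
        have h2 : ((l : ℤ) ^ v) ∣ ((q : ℤ) ^ b * (q : ℤ) ^ b) * ((q : ℤ) ^ r - (u : ℤ) ^ 2) := by
          have h3 : ((q : ℤ) ^ b * (q : ℤ) ^ b) * ((q : ℤ) ^ r - (u : ℤ) ^ 2) =
              ((x : ℤ) - 1) - (((q : ℤ) ^ b * u) ^ 2 - 1) := by
            rw [hxr]; push_cast; ring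
          rw [h3]; exact dvd_sub hc1 hc3
        have h4 : IsCoprime ((l : ℤ) ^ v) ((q : ℤ) ^ b * (q : ℤ) ^ b) :=
          IsCoprime.mul_right hcop.pow_right hcop.pow_right
        exact h4.dvd_of_dvd_mul_left h2
      rcases Nat.lt_or_ge (u ^ 2) (q ^ r) with h2 | h2
      · -- l^v < q^r
        left
        have h3 : (0 : ℤ) < (q : ℤ) ^ r - (u : ℤ) ^ 2 := by
          have : ((u : ℤ)) ^ 2 < (q : ℤ) ^ r := by exact_mod_cast h2
          linarith
        have h4 := Int.le_of_dvd h3 h1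
        have h5 : l ^ v < q ^ r := by
          have : (0 : ℤ) < (u : ℤ) ^ 2 := by positivity
          have : (l : ℤ) ^ v < (q : ℤ) ^ r := by linarith
          exact_mod_cast this
        -- y * q^(2b) < x * l^(g+1)
        have h6 : y * (q ^ b * q ^ b) < x * l ^ (g + 1) := by
          calc y * (q ^ b * q ^ b) = l ^ v * (l ^ (g + 1) * (q ^ b * q ^ b)) := by rw [hylv]; ring
            _ < q ^ r * (l ^ (g + 1) * (q ^ b * q ^ b)) := by
              apply Nat.mul_lt_mul_of_pos_right h5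
              have := hq.pos; positivity
            _ = _ := by rw [hxr]; ring
        -- K3 squared
        have h7 : (l ^ (g + 1) * x) * (l ^ (g + 1) * x) ≤ (D * q ^ b) * (D * q ^ b) :=
          Nat.mul_le_mul K3 K3
        have h8 : (l ^ (g + 1) * x) * (l ^ (g + 1) * x) * y < D ^ 2 * (x * l ^ (g + 1)) := by
          calc (l ^ (g + 1) * x) * (l ^ (g + 1) * x) * y
              ≤ (D * q ^ b) * (D * q ^ b) * y := Nat.mul_le_mul_right _ h7
            _ = D ^ 2 * (y * (q ^ b * q ^ b)) := by ring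
            _ < _ := Nat.mul_lt_mul_of_pos_left h6 (by positivity)
        have h9 : (l ^ (g + 1) * x) * (x * y * l ^ (g + 1)) < (l ^ (g + 1) * x) * D ^ 2 := by
          calc _ = (l ^ (g + 1) * x) * (l ^ (g + 1) * x) * y := by ring
            _ < _ := h8
            _ = _ := by ring
        have h10 := Nat.lt_of_mul_lt_mul_left h9
        exact lt_of_le_of_lt (Nat.le_mul_of_pos_right _ hl1pos) h10
      · -- l^v < u^2
        right; left
        have hne : q ^ r ≠ u ^ 2 := by
          intro h3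
          have h4 := hqpow r
          rw [h3, Nat.pow_mod, hueven] at h4
          simp at h4
        have h3 : (0 : ℤ) < (u : ℤ) ^ 2 - (q : ℤ) ^ r := by
          have h4 : q ^ r < u ^ 2 := lt_of_le_of_ne h2 hne
          have : (q : ℤ) ^ r < (u : ℤ) ^ 2 := by exact_mod_cast h4
          linarith
        have h1' : ((l : ℤ) ^ v) ∣ (u : ℤ) ^ 2 - (q : ℤ) ^ r := by
          have := (dvd_neg (a := (l : ℤ) ^ v)).2 h1
          simpa using this
        have h4 := Int.le_of_dvd h3 h1'
        have h5 : l ^ v < u ^ 2 := by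
          have : (0 : ℤ) < (q : ℤ) ^ r := by have := hq.pos; positivity
          have : (l : ℤ) ^ v < (u : ℤ) ^ 2 := by linarith
          exact_mod_cast this
        -- y < l^(g+1) u^2
        have h6 : y < l ^ (g + 1) * u ^ 2 := by
          calc y = l ^ v * l ^ (g + 1) := hylv
            _ < u ^ 2 * l ^ (g + 1) := Nat.mul_lt_mul_of_pos_right h5 hl1pos
            _ = _ := by ring
        have h7 : (l ^ (g + 1) * u * x) * (l ^ (g + 1) * u * x) ≤ (D * y) * (D * y) := by
          have : l ^ (g + 1) * u * x ≤ D * y := le_trans K2 (Nat.mul_le_mul_left _ hqby.le)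
          exact Nat.mul_le_mul this this
        have h8 : y * (l ^ (g + 1) * x ^ 2) < y * (D ^ 2 * y) := by
          calc y * (l ^ (g + 1) * x ^ 2) < (l ^ (g + 1) * u ^ 2) * (l ^ (g + 1) * x ^ 2) := by
                apply Nat.mul_lt_mul_of_pos_right h6
                positivity
            _ = (l ^ (g + 1) * u * x) * (l ^ (g + 1) * u * x) := by ring
            _ ≤ (D * y) * (D * y) := h7
            _ = _ := by ring
        have h9 := Nat.lt_of_mul_lt_mul_left h8
        have h10 : 3 ≤ l ^ (g + 1) := by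
          calc 3 ≤ l := hl3
            _ = l ^ 1 := (pow_one l).symm
            _ ≤ l ^ (g + 1) := Nat.pow_le_pow_right hl.pos (by omega)
        calc 3 * x ^ 2 ≤ l ^ (g + 1) * x ^ 2 := Nat.mul_le_mul_right _ h10
          _ < _ := h9
  -- conclusion
  rw [← hD]
  have hfin : (144 * (U * l ^ f * q ^ e)) ^ 2 < (D * x * y) ^ 2 := by
    have := Nat.mul_lt_mul_of_lt_of_lt hN2 hN2
    calc _ = 144 * (U * l ^ f * q ^ e) * (144 * (U * l ^ f * q ^ e)) := by ring
      _ < _ := this
      _ = _ := by ring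
  have hxy2 : (D * x * y) ^ 2 ≤ 8 * D ^ 7 := by
    rcases alt with h1 | h1 | h1
    · calc (D * x * y) ^ 2 = D ^ 2 * (x * y) ^ 2 := by ring
        _ ≤ D ^ 2 * (D ^ 2) ^ 2 := Nat.mul_le_mul_left _ (Nat.pow_le_pow_left h1.le 2)
        _ = D ^ 6 * 1 := by ring
        _ ≤ D ^ 6 * (8 * D) := Nat.mul_le_mul_left _ (by omega)
        _ = _ := by ring
    · have h2 : 3 * (D * x * y) ^ 2 ≤ 8 * D ^ 7 := by
        calc 3 * (D * x * y) ^ 2 = D ^ 2 * y ^ 2 * (3 * x ^ 2) := by ring
          _ ≤ D ^ 2 * y ^ 2 * (D ^ 2 * y) := Nat.mul_le_mul_left _ h1.le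
          _ = D ^ 4 * y ^ 3 := by ring
          _ ≤ D ^ 4 * (2 * D) ^ 3 := Nat.mul_le_mul_left _ (Nat.pow_le_pow_left hy2D.le 3)
          _ = _ := by ring
      omega
    · have h2 : 2 * (D * x * y) ^ 2 ≤ 2 * (8 * D ^ 7) := by
        calc 2 * (D * x * y) ^ 2 = D ^ 2 * y ^ 2 * (2 * x ^ 2) := by ring
          _ ≤ D ^ 2 * y ^ 2 * (D * y ^ 2) := Nat.mul_le_mul_left _ h1.le
          _ = D ^ 3 * y ^ 4 := by ring
          _ ≤ D ^ 3 * (2 * D) ^ 4 := Nat.mul_le_mul_left _ (Nat.pow_le_pow_left hy2D.le 4)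
          _ = _ := by ring
      omega
  have hfin2 : 8 * (2592 * (U * l ^ f * q ^ e) ^ 2) < 8 * D ^ 7 := by
    calc 8 * (2592 * (U * l ^ f * q ^ e) ^ 2) = (144 * (U * l ^ f * q ^ e)) ^ 2 := by ring
      _ < _ := hfin
      _ ≤ _ := hxy2
  omega

end Pool.Agent.Lib.MP_f02ea4_nt.HB
end

section

set_option autoImplicit false

/-!
# An upper bound for an odd perfect number with `k` prime factors

If `N` is an odd perfect number with exactly `k` distinct prime factors then
`N < 2 ^ ((7/8) * 4 ^ k)`.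
-/

namespace Pool.Agent.Lib.MP_f02ea4_nt.EqUpper

open Finset Pool.Agent.Lib.MP_f02ea4_nt.HB Pool.Agent.Lib.MP_f02ea4_nt.Rad

variable {S : Finset ℕ} {X s : ℕ → ℕ}

lemma card_ge (h : Cfg S X s) : 2 ≤ S.card := by
  by_contra hcon
  push Not at hcon
  have hp := h.prod
  rcases (by omega : S.card = 0 ∨ S.card = 1) with h0 | h1
  · rw [Finset.card_eq_zero.1 h0] at hp
    simp at hp
  · obtain ⟨q, hq⟩ := Finset.card_eq_one.1 h1
    rw [hq] at hp
    simp only [Finset.prod_singleton] at hp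
    have hqS : q ∈ S := by rw [hq]; simp
    have h2 := h.sX q hqS
    have h3 := h.ge3 q hqS
    have h4 := h.X_pos hqS
    rw [hp] at h2
    obtain ⟨u, hu⟩ : ∃ u, q = u + 3 := ⟨q - 3, by omega⟩
    have h5 : (q - 1) * (2 * X q) = u * (2 * X q) + 4 * X q := by
      have : q - 1 = u + 2 := by omega
      rw [this]; ring
    have h6 : q * X q = u * X q + 3 * X q := by
      have : q * X q = (u + 3) * X q := by rw [← hu]
      rw [this]; ring
    rw [h5, h6] at h2
    have h7 : u * X q ≤ u * (2 * X q) := Nat.mul_le_mul_left _ (by omega)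
    omega

/-- If two primes are left, with both of them known, then the denominator is small. -/
lemma two_left (h : Cfg S X s) {A B C : Finset ℕ} {q l : ℕ} (g : Good S X s A B)
    (hql : q ≠ l) (hqA : q ∈ S \ A) (hlA : l ∈ S \ A)
    (hB : B = S \ A) (hC1 : C ⊆ S \ A) (hR : (S \ A) \ C ⊆ {q})
    (hmax : ∀ p ∈ S, p ≠ q → p ≠ l → p * X p ≤ l * X l ∧ p * X p ≤ q * X q)
    (hC5 : ∀ C' ⊆ C, (∀ p ∈ C', ∀ q ∈ C \ C', p * X p ≤ q * X q) →
        2 * (D s A B : ℝ) * ∏ p ∈ C', ((p * X p : ℕ) : ℝ) <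
          3 * (Real.exp ((C \ C').card : ℝ) * (D s A B : ℝ) ^ (2 ^ C'.card))) :
    (∏ p ∈ S \ {q, l}, s p) * l * q < 2 * 2 ^ 2 ^ (2 * S.card - 2) := by
  have hqS := (Finset.mem_sdiff.1 hqA).1
  have hlS := (Finset.mem_sdiff.1 hlA).1
  obtain ⟨C', hC'⟩ : ∃ C', C' = C \ {q, l} := ⟨_, rfl⟩
  have hC'C : C' ⊆ C := by rw [hC']; exact Finset.sdiff_subset
  have hC'A : C' ⊆ S \ A := fun p hp => hC1 (hC'C hp)
  have hdis : Disjoint A C' := by
    rw [Finset.disjoint_left]
    intro p hp hp2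
    exact (Finset.mem_sdiff.1 (hC'A hp2)).2 hp
  have hU : S \ {q, l} = A ∪ C' := by
    ext p
    simp only [Finset.mem_sdiff, Finset.mem_union, Finset.mem_insert, Finset.mem_singleton, hC']
    constructor
    · rintro ⟨h1, h2⟩
      by_cases hpA : p ∈ A
      · exact Or.inl hpA
      · right
        refine ⟨?_, h2⟩
        by_contra hpC
        have h3 := hR (Finset.mem_sdiff.2 ⟨Finset.mem_sdiff.2 ⟨h1, hpA⟩, hpC⟩)
        exact h2 (Or.inl (Finset.mem_singleton.1 h3))
    · rintro (h1 | ⟨h1, h2⟩)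
      · refine ⟨g.hA h1, ?_⟩
        rintro (rfl | rfl)
        · exact (Finset.mem_sdiff.1 hqA).2 h1
        · exact (Finset.mem_sdiff.1 hlA).2 h1
      · exact ⟨(Finset.mem_sdiff.1 (hC1 h1)).1, h2⟩
  have hBC : B = C' ∪ {q, l} := by
    rw [hB]
    ext p
    simp only [Finset.mem_sdiff, Finset.mem_union, Finset.mem_insert, Finset.mem_singleton, hC']
    constructor
    · rintro ⟨h1, h2⟩
      by_cases hp : p = q ∨ p = l
      · exact Or.inr hp
      · left
        refine ⟨?_, hp⟩
        by_contra hpC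
        have h3 := hR (Finset.mem_sdiff.2 ⟨Finset.mem_sdiff.2 ⟨h1, h2⟩, hpC⟩)
        exact hp (Or.inl (Finset.mem_singleton.1 h3))
    · rintro (⟨h1, -⟩ | rfl | rfl)
      · exact Finset.mem_sdiff.1 (hC1 h1)
      · exact Finset.mem_sdiff.1 hqA
      · exact Finset.mem_sdiff.1 hlA
  have hdis2 : Disjoint C' ({q, l} : Finset ℕ) := by
    rw [hC']; exact Finset.sdiff_disjoint
  have hcardS : S.card = A.card + C'.card + 2 := by
    have h1 : A.card + (S \ A).card = S.card := by
      rw [Finset.card_sdiff_of_subset g.hA]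
      have := Finset.card_le_card g.hA
      omega
    rw [← hB, hBC, Finset.card_union_of_disjoint hdis2, Finset.card_pair hql] at h1
    omega
  have hcardB : B.card = C'.card + 2 := by
    rw [hBC, Finset.card_union_of_disjoint hdis2, Finset.card_pair hql]
  -- D
  have hDval : D s A B = (∏ p ∈ A, s p) * (∏ p ∈ C', p) * (q * l) := by
    unfold D
    rw [hBC, Finset.prod_union hdis2, Finset.prod_pair hql]; ring
  have hD0 := h.D_pos g.hA g.hB
  obtain ⟨d, hd⟩ : ∃ d, d = D s A B := ⟨_, rfl⟩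
  have hkey : (∏ p ∈ S \ {q, l}, s p) * l * q * ∏ p ∈ C', p = d * ∏ p ∈ C', s p := by
    rw [hU, Finset.prod_union hdis, hd, hDval]; ring
  have hexpo : 2 ^ 2 ^ (2 * S.card - 2) =
      (2 ^ 2 ^ (2 * A.card + B.card)) ^ 2 ^ C'.card := by
    rw [← pow_mul, ← pow_add]
    congr 2
    omega
  have hdb : d < 2 ^ 2 ^ (2 * A.card + B.card) := by
    have := g.bound
    omega
  rcases Nat.eq_zero_or_pos C'.card with hj | hj
  · have hC'0 : C' = ∅ := Finset.card_eq_zero.1 hj
    rw [hC'0] at hkey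
    simp only [Finset.prod_empty, mul_one] at hkey
    rw [hexpo, hj, hkey]
    simp only [pow_zero, pow_one]
    omega
  · -- compare
    have h6 : 6 ^ C'.card * ((∏ p ∈ S \ {q, l}, s p) * l * q) ≤
        d * ∏ p ∈ C', p * X p := by
      have e1 : 6 ^ C'.card ≤ ∏ p ∈ C', (p * (p - 1)) := by
        rw [← Finset.prod_const]
        apply Finset.prod_le_prod'
        intro p hp
        have := h.ge3 p (Finset.mem_sdiff.1 (hC'A hp)).1
        calc 6 = 3 * 2 := by norm_num
          _ ≤ p * (p - 1) := Nat.mul_le_mul this (by omega)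
      calc 6 ^ C'.card * ((∏ p ∈ S \ {q, l}, s p) * l * q)
          ≤ (∏ p ∈ C', (p * (p - 1))) * ((∏ p ∈ S \ {q, l}, s p) * l * q) :=
            Nat.mul_le_mul_right _ e1
        _ = ((∏ p ∈ S \ {q, l}, s p) * l * q * ∏ p ∈ C', p) * ∏ p ∈ C', (p - 1) := by
            rw [Finset.prod_mul_distrib]; ring
        _ = d * ∏ p ∈ C', ((p - 1) * s p) := by
            rw [hkey, Finset.prod_mul_distrib]; ring
        _ ≤ d * ∏ p ∈ C', p * X p := by
            apply Nat.mul_le_mul_left
            apply Finset.prod_le_prod'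
            intro p hp
            have := h.sX p (Finset.mem_sdiff.1 (hC'A hp)).1
            omega
    have h7 := hC5 C' hC'C (by
      intro p hp r hr
      have hpS := (Finset.mem_sdiff.1 (hC'A hp)).1
      have hp2 : p ≠ q ∧ p ≠ l := by
        rw [hC'] at hp
        have := (Finset.mem_sdiff.1 hp).2
        simp only [Finset.mem_insert, Finset.mem_singleton] at this
        tauto
      have hr2 : r = q ∨ r = l := by
        obtain ⟨hr1, hr3⟩ := Finset.mem_sdiff.1 hr
        rw [hC'] at hr3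
        by_contra hcon
        apply hr3
        refine Finset.mem_sdiff.2 ⟨hr1, ?_⟩
        simpa only [Finset.mem_insert, Finset.mem_singleton] using hcon
      rcases hr2 with rfl | rfl
      · exact (hmax p hpS hp2.1 hp2.2).2
      · exact (hmax p hpS hp2.1 hp2.2).1)
    rw [← hd] at h7
    have hcc : (C \ C').card ≤ 2 := by
      have h8 : C \ C' ⊆ {q, l} := by
        intro p hp
        obtain ⟨hp1, hp2⟩ := Finset.mem_sdiff.1 hp
        rw [hC'] at hp2
        by_contra hcon
        exact hp2 (Finset.mem_sdiff.2 ⟨hp1, hcon⟩)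
      exact le_trans (Finset.card_le_card h8) (Finset.card_le_two)
    have hexp : Real.exp ((C \ C').card : ℝ) ≤ 7.4 := by
      have h9 : Real.exp ((C \ C').card : ℝ) ≤ Real.exp 2 := by
        apply Real.exp_le_exp.2
        exact_mod_cast hcc
      have h10 : Real.exp 2 = Real.exp 1 * Real.exp 1 := by
        rw [← Real.exp_add]; norm_num
      have h11 := Real.exp_one_lt_d9
      have h12 := Real.exp_pos 1
      nlinarith
    have h13 : (6 : ℝ) * (((∏ p ∈ S \ {q, l}, s p) * l * q : ℕ) : ℝ) ≤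
        (d : ℝ) * ∏ p ∈ C', ((p * X p : ℕ) : ℝ) := by
      have h14 : 6 * ((∏ p ∈ S \ {q, l}, s p) * l * q) ≤ d * ∏ p ∈ C', p * X p := by
        refine le_trans (Nat.mul_le_mul_right _ ?_) h6
        calc 6 = 6 ^ 1 := by norm_num
          _ ≤ 6 ^ C'.card := Nat.pow_le_pow_right (by norm_num) hj
      exact_mod_cast h14
    have h15 : (((∏ p ∈ S \ {q, l}, s p) * l * q : ℕ) : ℝ) < 2 * (d : ℝ) ^ (2 ^ C'.card) := by
      have hdpos : (0 : ℝ) < (d : ℝ) ^ (2 ^ C'.card) := by
        have : (0 : ℝ) < d := by rw [hd]; exact_mod_cast hD0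
        positivity
      have h16 := mul_le_mul_of_nonneg_right hexp hdpos.le
      nlinarith
    have h17 : (∏ p ∈ S \ {q, l}, s p) * l * q < 2 * d ^ 2 ^ C'.card := by exact_mod_cast h15
    have h18 : d ^ 2 ^ C'.card ≤ (2 ^ 2 ^ (2 * A.card + B.card)) ^ 2 ^ C'.card :=
      Nat.pow_le_pow_left hdb.le _
    rw [hexpo]
    omega

theorem main (h : Cfg S X s) (e : ℕ → ℕ) (hX : ∀ p ∈ S, X p = p ^ e p)
    (hprime : ∀ p ∈ S, p.Prime) :
    (∏ p ∈ S, X p) ^ 8 < 2 ^ (7 * 4 ^ S.card) := by
  have hk := card_ge h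
  obtain ⟨A, B, g, hA2, hMD, C, hC1, hC2, hcard, hC3, hC4, hC5⟩ := h.critical hk
  -- the two largest components
  obtain ⟨q, hqS, hqmax⟩ := Finset.exists_max_image S (fun p => p * X p)
    (Finset.card_pos.1 (by omega))
  obtain ⟨l, hlS', hlmax⟩ := Finset.exists_max_image (S.erase q) (fun p => p * X p)
    (Finset.card_pos.1 (by rw [Finset.card_erase_of_mem hqS]; omega))
  obtain ⟨hlq, hlS⟩ := Finset.mem_erase.1 hlS'
  have hql : q ≠ l := hlq.symm
  have hcSA : (S \ A).card = S.card - A.card := Finset.card_sdiff_of_subset g.hA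
  -- q, l are not in A
  have hqA : q ∉ A := by
    intro hq
    obtain ⟨r, hr⟩ : (S \ A).Nonempty := Finset.card_pos.1 (by omega)
    have hr' := Finset.mem_sdiff.1 hr
    have h1 := g.init q hq r hr
    have h2 := hqmax r hr'.1
    have h3 := h.inj q hqS r hr'.1 (le_antisymm h1 h2)
    rw [h3] at hq
    exact hr'.2 hq
  have hlA : l ∉ A := by
    intro hl
    obtain ⟨r, hr⟩ : ((S \ A).erase q).Nonempty := by
      apply Finset.card_pos.1
      have := Finset.pred_card_le_card_erase (s := S \ A) (a := q)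
      omega
    obtain ⟨hr1, hr2⟩ := Finset.mem_erase.1 hr
    have hr' := Finset.mem_sdiff.1 hr2
    have h1 := g.init l hl r hr2
    have h2 := hlmax r (Finset.mem_erase.2 ⟨hr1, hr'.1⟩)
    have h3 := h.inj l hlS r hr'.1 (le_antisymm h1 h2)
    rw [h3] at hl
    exact hr'.2 hl
  have hqSA : q ∈ S \ A := Finset.mem_sdiff.2 ⟨hqS, hqA⟩
  have hlSA : l ∈ S \ A := Finset.mem_sdiff.2 ⟨hlS, hlA⟩
  have hRcard : ((S \ A) \ C).card = S.card - A.card - C.card := by
    rw [Finset.card_sdiff_of_subset hC1, hcSA]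
  have hR : (S \ A) \ C ⊆ {q} := by
    intro r hr
    rw [Finset.mem_singleton]
    by_contra hrq
    have hrS := (Finset.mem_sdiff.1 (Finset.mem_sdiff.1 hr).1).1
    have hqC : q ∈ C := by
      by_contra hqC
      have h1 : ({r, q} : Finset ℕ) ⊆ (S \ A) \ C := by
        intro t ht
        simp only [Finset.mem_insert, Finset.mem_singleton] at ht
        rcases ht with rfl | rfl
        · exact hr
        · exact Finset.mem_sdiff.2 ⟨hqSA, hqC⟩
      have h2 := Finset.card_le_card h1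
      rw [Finset.card_pair hrq] at h2
      omega
    have h1 := hC3 q hqC r hr
    have h2 := hqmax r hrS
    exact hrq (h.inj q hqS r hrS (le_antisymm h1 h2)).symm
  have hmax : ∀ p ∈ S, p ≠ q → p ≠ l → p * X p ≤ l * X l ∧ p * X p ≤ q * X q := by
    intro p hp hpq _
    exact ⟨hlmax p (Finset.mem_erase.2 ⟨hpq, hp⟩), hqmax p hp⟩
  have hcle : A.card + C.card ≤ S.card := by
    have := Finset.card_le_card hC1
    omega
  -- weak bound, used when a prime was not known
  have hAC : Disjoint A C := by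
    rw [Finset.disjoint_left]
    intro p hp hp2
    exact (Finset.mem_sdiff.1 (hC1 hp2)).2 hp
  have hweak : ∏ p ∈ A ∪ C, s p < 2 ^ 2 ^ (2 * A.card + B.card + C.card) := by
    have h1 : ∏ p ∈ A, s p ≤ D s A B := by
      unfold D
      apply Nat.le_mul_of_pos_right
      exact Finset.prod_pos (fun p hp => by have := h.ge3 p (g.hB hp); omega)
    calc ∏ p ∈ A ∪ C, s p = (∏ p ∈ A, s p) * ∏ p ∈ C, s p := Finset.prod_union hAC
      _ ≤ D s A B * ∏ p ∈ C, s p := Nat.mul_le_mul_right _ h1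
      _ < D s A B ^ 2 ^ C.card := hC4
      _ ≤ (2 ^ 2 ^ (2 * A.card + B.card)) ^ 2 ^ C.card :=
          Nat.pow_le_pow_left (by have := g.bound; omega) _
      _ = _ := by rw [← pow_mul, ← pow_add]
  have h4k : (4 : ℕ) ^ S.card = 2 ^ (2 * S.card) := by
    rw [pow_mul]; norm_num
  by_cases hB : B = S \ A
  · -- all primes known
    have h1 := two_left h g hql hqSA hlSA hB hC1 hR hmax hC5
    -- apply the arithmetic lemma
    have hqq := hprime q hqS
    have hll := hprime l hlS
    have hsplit : ∀ f : ℕ → ℕ, ∏ p ∈ S, f p = (∏ p ∈ S \ {q, l}, f p) * f l * f q := by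
      intro f
      have h2 : ({q, l} : Finset ℕ) ⊆ S := by
        intro t ht
        simp only [Finset.mem_insert, Finset.mem_singleton] at ht
        rcases ht with rfl | rfl
        · exact hqS
        · exact hlS
      rw [← Finset.prod_sdiff h2, Finset.prod_pair hql]; ring
    have hndvd : ∀ r, r.Prime → (r = q ∨ r = l) → ¬ r ∣ ∏ p ∈ S \ {q, l}, X p := by
      intro r hr hrq hdvd
      obtain ⟨p, hp, hp2⟩ := (Prime.dvd_finsetProd_iff hr.prime _).1 hdvd
      obtain ⟨hp3, hp4⟩ := Finset.mem_sdiff.1 hp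
      rw [hX p hp3] at hp2
      have h3 := (Nat.prime_dvd_prime_iff_eq hr (hprime p hp3)).1 (hr.dvd_of_dvd_pow hp2)
      apply hp4
      simp only [Finset.mem_insert, Finset.mem_singleton]
      rw [← h3]; exact hrq
    have h2 := arith (q := q) (l := l) (e := e q) (f := e l) (U := ∏ p ∈ S \ {q, l}, X p)
      (sU := ∏ p ∈ S \ {q, l}, s p) (sX := s q) (sY := s l) hqq hll hql (h.ge3 q hqS)
      (h.ge3 l hlS)
      (by rw [h.sX q hqS, hX q hqS, pow_succ]; ring)
      (by rw [h.sX l hlS, hX l hlS, pow_succ]; ring)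
      (by rw [← hX q hqS, ← hX l hlS, ← hsplit, ← hsplit]; exact h.prod)
      (hndvd q hqq (Or.inl rfl)) (hndvd l hll (Or.inr rfl))
      (by
        have h3 := hqmax l hlS
        have h4 : l * X l ≠ q * X q := fun h5 => hlq (h.inj l hlS q hqS h5)
        have h5 : l ^ (e l + 1) = l * X l := by rw [hX l hlS, pow_succ]; ring
        have h6 : q ^ (e q + 1) = q * X q := by rw [hX q hqS, pow_succ]; ring
        rw [h5, h6]
        exact lt_of_le_of_ne h3 h4)
    have h3 : (∏ p ∈ S \ {q, l}, X p) * l ^ e l * q ^ e q = ∏ p ∈ S, X p := by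
      rw [← hX q hqS, ← hX l hlS, ← hsplit]
    rw [h3] at h2
    have h4 : ((∏ p ∈ S \ {q, l}, s p) * l * q) ^ 7 ≤ (2 * 2 ^ 2 ^ (2 * S.card - 2)) ^ 7 :=
      Nat.pow_le_pow_left h1.le _
    have h5 : (2 * 2 ^ 2 ^ (2 * S.card - 2)) ^ 7 = 128 * 2 ^ (7 * 2 ^ (2 * S.card - 2)) := by
      rw [mul_pow, ← pow_mul, mul_comm (2 ^ (2 * S.card - 2)) 7]; norm_num
    have h6 : (∏ p ∈ S, X p) ^ 2 < 2 ^ (7 * 2 ^ (2 * S.card - 2)) := by omega
    calc (∏ p ∈ S, X p) ^ 8 = ((∏ p ∈ S, X p) ^ 2) ^ 4 := by rw [← pow_mul]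
      _ < (2 ^ (7 * 2 ^ (2 * S.card - 2))) ^ 4 := Nat.pow_lt_pow_left h6 (by norm_num)
      _ = _ := by
        rw [← pow_mul, h4k]
        congr 1
        have : 2 * S.card = (2 * S.card - 2) + 2 := by omega
        conv_rhs => rw [this]
        rw [pow_add]; ring
  · -- some prime is not known
    have hBsub : B ⊆ S \ A := fun p hp =>
      Finset.mem_sdiff.2 ⟨g.hB hp, fun h1 => Finset.disjoint_left.1 g.disj h1 hp⟩
    have hBcard : B.card < (S \ A).card :=
      Finset.card_lt_card (Finset.ssubset_iff_subset_ne.2 ⟨hBsub, hB⟩)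
    rcases (by omega : S.card = A.card + C.card ∨ S.card = A.card + C.card + 1) with h0 | h0
    · have hACS : A ∪ C = S := by
        apply Finset.eq_of_subset_of_card_le
        · intro p hp
          rcases Finset.mem_union.1 hp with h1 | h1
          · exact g.hA h1
          · exact (Finset.mem_sdiff.1 (hC1 h1)).1
        · rw [Finset.card_union_of_disjoint hAC]; omega
      rw [hACS, h.prod] at hweak
      have h1 : 2 ^ 2 ^ (2 * A.card + B.card + C.card) ≤ 2 ^ 2 ^ (2 * S.card - 1) :=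
        Nat.pow_le_pow_right (by norm_num) (Nat.pow_le_pow_right (by norm_num) (by omega))
      have h2 : ∏ p ∈ S, X p < 2 ^ 2 ^ (2 * S.card - 1) := by omega
      calc (∏ p ∈ S, X p) ^ 8 < (2 ^ 2 ^ (2 * S.card - 1)) ^ 8 :=
            Nat.pow_lt_pow_left h2 (by norm_num)
        _ = 2 ^ (4 * 4 ^ S.card) := by
            rw [← pow_mul, h4k]
            congr 1
            have : 2 * S.card = (2 * S.card - 1) + 1 := by omega
            conv_rhs => rw [this]
            rw [pow_add]; ring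
        _ ≤ _ := Nat.pow_le_pow_right (by norm_num) (Nat.mul_le_mul_right _ (by norm_num))
    · have hACS : A ∪ C = S.erase q := by
        apply Finset.eq_of_subset_of_card_le
        · intro p hp
          have hqC : q ∉ C := by
            have h1 : ((S \ A) \ C).Nonempty := Finset.card_pos.1 (by omega)
            obtain ⟨r, hr⟩ := h1
            have h2 := Finset.mem_singleton.1 (hR hr)
            rw [h2] at hr
            exact (Finset.mem_sdiff.1 hr).2
          rcases Finset.mem_union.1 hp with h1 | h1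
          · exact Finset.mem_erase.2 ⟨fun h2 => hqA (h2 ▸ h1), g.hA h1⟩
          · exact Finset.mem_erase.2 ⟨fun h2 => hqC (h2 ▸ h1), (Finset.mem_sdiff.1 (hC1 h1)).1⟩
        · rw [Finset.card_union_of_disjoint hAC, Finset.card_erase_of_mem hqS]; omega
      rw [hACS] at hweak
      have h1 : 2 ^ 2 ^ (2 * A.card + B.card + C.card) ≤ 2 ^ 2 ^ (2 * S.card - 2) :=
        Nat.pow_le_pow_right (by norm_num) (Nat.pow_le_pow_right (by norm_num) (by omega))
      obtain ⟨P, hP⟩ : ∃ P, P = ∏ p ∈ S.erase q, s p := ⟨_, rfl⟩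
      rw [← hP] at hweak
      have h2 : P < 2 ^ 2 ^ (2 * S.card - 2) := by omega
      -- X q divides P
      have hprod := h.prod
      rw [← Finset.mul_prod_erase S s hqS, ← hP] at hprod
      have hXP : X q ∣ P := by
        have h3 : X q ∣ s q * P := by
          rw [hprod]
          exact Dvd.dvd.mul_left (Finset.dvd_prod_of_mem X hqS) 2
        have h4 : Nat.Coprime (X q) (s q) := by
          rw [hX q hqS]
          apply Nat.Coprime.pow_left
          rw [(hprime q hqS).coprime_iff_not_dvd]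
          apply not_dvd_sg (hprime q hqS) (e := e q)
          rw [h.sX q hqS, hX q hqS, pow_succ]; ring
        exact h4.dvd_of_dvd_mul_left h3
      have hP0 : 0 < P := by
        rw [hP]; exact Finset.prod_pos (fun p hp => h.s_pos (Finset.mem_erase.1 hp).2)
      have hXle := Nat.le_of_dvd hP0 hXP
      -- s q ≤ 2 X q
      have hs2 : s q ≤ 2 * X q := by
        have h3 := h.sX q hqS
        have h4 := h.ge3 q hqS
        obtain ⟨u, hu⟩ : ∃ u, q = u + 3 := ⟨q - 3, by omega⟩
        have h5 : (q - 1) * s q = u * s q + 2 * s q := by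
          have : q - 1 = u + 2 := by omega
          rw [this]; ring
        have h6 : q * X q = u * X q + 3 * X q := by
          have : q * X q = (u + 3) * X q := by rw [← hu]
          rw [this]; ring
        have h7 : u * X q ≤ u * s q := Nat.mul_le_mul_left _ (h.lt_s hqS).le
        omega
      have h3 : ∏ p ∈ S, X p ≤ P ^ 2 := by
        have h4 : 2 * ∏ p ∈ S, X p ≤ 2 * P ^ 2 := by
          rw [← hprod]
          calc s q * P ≤ (2 * P) * P := Nat.mul_le_mul_right _ (by omega)
            _ = _ := by ring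
        omega
      calc (∏ p ∈ S, X p) ^ 8 ≤ (P ^ 2) ^ 8 := Nat.pow_le_pow_left h3 _
        _ = P ^ 16 := by rw [← pow_mul]
        _ < (2 ^ 2 ^ (2 * S.card - 2)) ^ 16 := Nat.pow_lt_pow_left h2 (by norm_num)
        _ = 2 ^ (4 * 4 ^ S.card) := by
            rw [← pow_mul, h4k]
            congr 1
            have : 2 * S.card = (2 * S.card - 2) + 2 := by omega
            conv_rhs => rw [this]
            rw [pow_add]; ring
        _ ≤ _ := Nat.pow_le_pow_right (by norm_num) (Nat.mul_le_mul_right _ (by norm_num))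

lemma sg_eq (p e : ℕ) (hp : 1 ≤ p) : (p - 1) * sg p e + 1 = p * p ^ e := by
  unfold sg
  obtain ⟨u, rfl⟩ : ∃ u, p = u + 1 := ⟨p - 1, by omega⟩
  simp only [Nat.add_sub_cancel]
  rw [← pow_succ']
  generalize e + 1 = n
  induction n with
  | zero => simp
  | succ n ih =>
    rw [Finset.sum_range_succ, mul_add, pow_succ, ← ih]
    have := ih
    nlinarith

/-- An odd perfect number with `k` distinct prime factors is less than `2 ^ ((7/8) * 4 ^ k)`. -/
theorem upper (N : ℕ) (hodd : Odd N) (hperf : N.Perfect) :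
    N ^ 8 < 2 ^ (7 * 4 ^ N.primeFactors.card) := by
  have hN0 : N ≠ 0 := hperf.2.ne'
  have hprodN : ∏ p ∈ N.primeFactors, p ^ (N.factorization p) = N :=
    Nat.prod_factorization_pow_eq_self hN0
  have hprime : ∀ p ∈ N.primeFactors, p.Prime := fun p hp => Nat.prime_of_mem_primeFactors hp
  have hp2 : ∀ p ∈ N.primeFactors, p % 2 = 1 := by
    intro p hp
    rcases (hprime p hp).eq_two_or_odd with h | h
    · have h1 := Nat.dvd_of_mem_primeFactors hp
      rw [h] at h1
      have := Nat.odd_iff.1 hodd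
      omega
    · exact h
  have hcfg : Cfg N.primeFactors (fun p => p ^ (N.factorization p))
      (fun p => sg p (N.factorization p)) := by
    refine ⟨?_, hp2, ?_, ?_, ?_, ?_, ?_⟩
    · intro p hp
      have h1 := hp2 p hp
      have h2 := (hprime p hp).two_le
      omega
    · intro p hp
      have h1 : 1 ≤ N.factorization p := by
        have := (hprime p hp).factorization_pos_of_dvd hN0 (Nat.dvd_of_mem_primeFactors hp)
        omega
      calc p = p ^ 1 := (pow_one p).symm
        _ ≤ p ^ (N.factorization p) := Nat.pow_le_pow_right (hprime p hp).pos h1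
    · intro p hp
      exact sg_eq p _ (hprime p hp).pos
    · rw [perfect_eq hperf, hprodN]
    · rw [hprodN]; exact Nat.odd_iff.1 hodd
    · intro p hp q hq h1
      rw [← pow_succ', ← pow_succ'] at h1
      have h2 : p ∣ q ^ (N.factorization q + 1) := by
        rw [← h1]; exact dvd_pow_self p (by omega)
      exact (Nat.prime_dvd_prime_iff_eq (hprime p hp) (hprime q hq)).1
        ((hprime p hp).dvd_of_dvd_pow h2)
  have h := main hcfg (fun p => N.factorization p) (fun p _ => rfl) hprime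
  rw [hprodN] at h
  exact h

end Pool.Agent.Lib.MP_f02ea4_nt.EqUpper
end
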