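import Mathlib
import Pool.Agent.Lib.MP_f02ea4_nt.IdxGood
import Pool.Agent.Lib.MP_f02ea4_nt.SigmaBasics
import Pool.Agent.Lib.MP_f02ea4_nt.Mg.G005

section

/-!
The gap principle for two good primes whose orders are not coprime.
-/

set_option autoImplicit false

namespace Pool.Agent.Lib.MP_f02ea4_nt.IP

open Finset
open Pool.Agent.Lib.MP_f02ea4_nt.IdxK

/-- (GAP) a good prime `q` and a root of unity `y` of order dividing `a + 1`. -/
theorem gapY {p q a c κ y : ℕ} (hp : p.Prime) (hp2 : p ≠ 2) (hq : q.Prime) (hq2 : q ≠ 2)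
    (ha : 2 ≤ a) (hc : 2 ≤ c) (hsig : (q - 1) * (c * p ^ κ) + 1 = q ^ (a + 1))
    (hgood : c ^ 10 < p ^ κ) (hy3 : 3 ≤ y) (hqy : ¬ q ∣ y)
    (hy1 : (y : ZMod p) ^ (a + 1) = 1) (hyne : (y : ZMod p) ≠ 1)
    (hrooty : y ^ (p - 1) ≡ 1 [MOD p ^ κ]) : p ^ κ ≤ c ^ 2 * y := by
  have hFp : Fact p.Prime := ⟨hp⟩
  have hκ1 : 1 ≤ κ := kappa_pos (by omega) hgood
  have hord := ord hp hp2 hq hq2 (by omega) (by omega) hsig hgood
  have hpq := not_dvd hp hκ1 hsig
  have hq3 : 3 ≤ q := by have := hq.two_le; omega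
  have hprim : IsPrimitiveRoot (q : ZMod p) (a + 1) := by
    rw [← hord]; exact IsPrimitiveRoot.orderOf _
  obtain ⟨m, hm, hqm⟩ := hprim.eq_pow_of_pow_eq_one hy1
  have hm1 : 1 ≤ m := by
    rcases Nat.eq_zero_or_pos m with h | h
    · rw [h, pow_zero] at hqm
      exact absurd hqm.symm hyne
    · exact h
  have hmodp : q ^ m ≡ y [MOD p] := by
    rw [← ZMod.natCast_eq_natCast_iff]
    push_cast
    exact hqm
  have hroot := root hp hp2 hq hq2 (by omega) (by omega) hsig hgood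
  have hrootm : (q ^ m) ^ (p - 1) ≡ 1 [MOD p ^ κ] := by
    rw [← pow_mul, mul_comm, pow_mul]
    have := hroot.pow m
    rwa [one_pow] at this
  have hmod : q ^ m ≡ y [MOD p ^ κ] :=
    lift hp hp2 (fun h => hpq (hp.dvd_of_dvd_pow h)) hmodp hrootm hrooty
  have hc4 : 4 ≤ c ^ 2 := by nlinarith
  have hq'c : y ≤ c ^ 2 * y := Nat.le_mul_of_pos_left _ (by omega)
  rcases Nat.lt_or_ge (q ^ m) (p ^ κ) with hlt | hge
  · -- case A
    rcases Nat.lt_or_ge y (p ^ κ) with hlt' | hge'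
    · exfalso
      have h1 : q ^ m = y := Nat.ModEq.eq_of_lt_of_lt hmod hlt hlt'
      have h2 : q ∣ y := by rw [← h1]; exact dvd_pow_self q (by omega)
      exact hqy h2
    · omega
  · -- case B
    obtain ⟨u, hu⟩ : ∃ u, a + 1 = m + u := ⟨a + 1 - m, by omega⟩
    have hu1 : 1 ≤ u := by omega
    have hqa := le_of_sig (by omega) hsig
    have hprod : y * q ^ u ≡ 1 [MOD p ^ κ] := by
      have h1 : q ^ m * q ^ u ≡ y * q ^ u [MOD p ^ κ] := hmod.mul_right _
      rw [← pow_add, ← hu] at h1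
      exact h1.symm.trans (pow_modEq hsig)
    have hprodle : p ^ κ ≤ y * q ^ u := by
      have h1 : 1 ≤ q ^ u := Nat.one_le_pow _ _ (by omega)
      have h2 : 3 ≤ y * q ^ u := by nlinarith
      have h3 : p ^ κ ∣ y * q ^ u - 1 := (Nat.modEq_iff_dvd' (by omega)).1 hprod.symm
      have h4 := Nat.le_of_dvd (by omega) h3
      omega
    rcases Nat.lt_or_ge u 2 with hu2 | hu2
    · -- `u = 1`, `m = a`
      have hu' : u = 1 := by omega
      subst hu'
      have hma : m = a := by omega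
      subst hma
      rw [pow_one] at hprodle
      rcases Nat.lt_or_ge (c ^ 2) q with hcq | hcq
      · -- `q > c ^ 2`
        obtain ⟨s', hs'⟩ : ∃ s', (q - 1) * s' + 1 = q ^ m := by
          refine ⟨∑ j ∈ range m, q ^ j, ?_⟩
          have := Nat.geomSum_eq (m := q) (by omega) m
          have h5 : (q - 1) ∣ q ^ m - 1 := by
            have := Nat.sub_dvd_pow_sub_pow q 1 m
            rwa [one_pow] at this
          rw [this, Nat.mul_div_cancel' h5]
          have : 1 ≤ q ^ m := Nat.one_le_pow _ _ (by omega)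
          omega
        have h6 : c * p ^ κ = s' + q ^ m := by
          have h7 : (q - 1) * (c * p ^ κ) = (q - 1) * (s' + q ^ m) := by
            have h8 : (q - 1) * (c * p ^ κ) + 1 = q * q ^ m := by rw [hsig]; ring
            have h9 : q * q ^ m = (q - 1) * q ^ m + q ^ m := by
              obtain ⟨w, hw⟩ : ∃ w, q = w + 1 := ⟨q - 1, by omega⟩
              rw [hw]; simp only [Nat.add_sub_cancel]; ring
            rw [mul_add]
            omega
          exact Nat.eq_of_mul_eq_mul_left (by omega) h7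
        have h7 : q * s' + 1 = c * p ^ κ := by
          have h8 : q * s' = (q - 1) * s' + s' := by
            obtain ⟨w, hw⟩ : ∃ w, q = w + 1 := ⟨q - 1, by omega⟩
            rw [hw]; simp only [Nat.add_sub_cancel]; ring
          omega
        have h8 : p ^ κ ∣ y + s' := by
          rw [← Nat.modEq_zero_iff_dvd]
          have h9 : y + s' ≡ q ^ m + s' [MOD p ^ κ] := hmod.symm.add_right s'
          refine h9.trans ?_
          rw [add_comm, ← h6, Nat.modEq_zero_iff_dvd]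
          exact Dvd.intro_left c rfl
        have h9 : p ^ κ ≤ y + s' := Nat.le_of_dvd (by omega) h8
        have h10 : 2 * s' ≤ p ^ κ := by
          by_contra hcon
          push Not at hcon
          have h11 : c * p ^ κ < c * (2 * s') := Nat.mul_lt_mul_of_pos_left hcon (by omega)
          have h12 : c * (2 * s') ≤ c ^ 2 * s' := by nlinarith
          have h13 : c ^ 2 * s' ≤ q * s' := Nat.mul_le_mul_right _ hcq.le
          omega
        have h14 : 2 * y ≤ c ^ 2 * y := Nat.mul_le_mul_right _ (by omega)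
        omega
      · calc p ^ κ ≤ y * q := hprodle
          _ ≤ y * c ^ 2 := Nat.mul_le_mul_left _ hcq
          _ = c ^ 2 * y := mul_comm _ _
    · -- `u ≥ 2`
      have h1 : q ^ (u - 1) ≤ c := by
        have h2 : q ^ m * q ^ (u - 1) ≤ q ^ m * c := by
          calc q ^ m * q ^ (u - 1) = q ^ a := by rw [← pow_add]; congr 1; omega
            _ ≤ c * p ^ κ := hqa
            _ ≤ c * q ^ m := Nat.mul_le_mul_left _ hge
            _ = q ^ m * c := mul_comm _ _
        exact Nat.le_of_mul_le_mul_left h2 (by positivity)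
      have h2 : q ≤ c := (Nat.le_self_pow (by omega) q).trans h1
      have h3 : q ^ u ≤ c ^ 2 := by
        calc q ^ u = q ^ (u - 1) * q := by rw [← pow_succ]; congr 1; omega
          _ ≤ c * c := Nat.mul_le_mul h1 h2
          _ = c ^ 2 := (sq c).symm
      calc p ^ κ ≤ y * q ^ u := hprodle
        _ ≤ y * c ^ 2 := Nat.mul_le_mul_left _ h3
        _ = c ^ 2 * y := mul_comm _ _

/-- Two good primes `q ≠ q'` such that some `g > 1` divides both orders `a + 1`, `a' + 1`. -/
theorem gap_gcd {p q q' a a' c c' κ κ' g : ℕ} (hp : p.Prime) (hp2 : p ≠ 2) (hq : q.Prime)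
    (hq2 : q ≠ 2) (hq' : q'.Prime) (hq'2 : q' ≠ 2) (hne : q ≠ q')
    (ha : 2 ≤ a) (ha' : 2 ≤ a') (hc : 2 ≤ c) (hc' : 1 ≤ c')
    (hsig : (q - 1) * (c * p ^ κ) + 1 = q ^ (a + 1))
    (hsig' : (q' - 1) * (c' * p ^ κ') + 1 = q' ^ (a' + 1))
    (hgood : c ^ 10 < p ^ κ) (hgood' : c' ^ 10 < p ^ κ') (hκ : κ ≤ κ')
    (hg : 1 < g) (hga : g ∣ a + 1) (hga' : g ∣ a' + 1) :
    p ^ κ ≤ c ^ 2 * q' ^ ((a' + 1) / g) := by
  have hFp : Fact p.Prime := ⟨hp⟩
  have hord' := ord hp hp2 hq' hq'2 (by omega) hc' hsig' hgood'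
  have hq'3 : 3 ≤ q' := by have := hq'.two_le; omega
  obtain ⟨n, hn⟩ := hga'
  obtain ⟨n₀, hn₀⟩ := hga
  have hn1 : 1 ≤ n := by
    rcases Nat.eq_zero_or_pos n with h | h
    · rw [h, mul_zero] at hn; omega
    · exact h
  have hdiv : (a' + 1) / g = n := by rw [hn, Nat.mul_div_cancel_left _ (by omega)]
  rw [hdiv]
  refine gapY hp hp2 hq hq2 ha hc hsig hgood ?_ ?_ ?_ ?_ ?_
  · exact hq'3.trans (Nat.le_self_pow (by omega) q')
  · intro h
    exact hne ((Nat.prime_dvd_prime_iff_eq hq hq').1 (hq.dvd_of_dvd_pow h))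
  · push_cast
    have h1 : (q' : ZMod p) ^ (a' + 1) = 1 := by rw [← hord']; exact pow_orderOf_eq_one _
    rw [hn₀, ← pow_mul, show n * (g * n₀) = (a' + 1) * n₀ by rw [hn]; ring, pow_mul, h1, one_pow]
  · push_cast
    intro h
    have h1 := orderOf_dvd_of_pow_eq_one h
    rw [hord', hn] at h1
    have h2 := Nat.le_of_dvd hn1 h1
    nlinarith
  · have h1 := root hp hp2 hq' hq'2 (by omega) hc' hsig' hgood'
    have h2 : q' ^ (p - 1) ≡ 1 [MOD p ^ κ] := h1.of_dvd (pow_dvd_pow p hκ)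
    have h3 := h2.pow n
    rw [one_pow, ← pow_mul, mul_comm, pow_mul] at h3
    exact h3

/-- consequence of the gap principle -/
theorem ratio_gcd {p q q' a a' c c' κ κ' g : ℕ} (hp : p.Prime) (hp2 : p ≠ 2) (hq : q.Prime)
    (hq2 : q ≠ 2) (hq' : q'.Prime) (hq'2 : q' ≠ 2) (hne : q ≠ q')
    (ha : 2 ≤ a) (ha' : 2 ≤ a') (hc : 2 ≤ c) (hc' : 1 ≤ c')
    (hsig : (q - 1) * (c * p ^ κ) + 1 = q ^ (a + 1))
    (hsig' : (q' - 1) * (c' * p ^ κ') + 1 = q' ^ (a' + 1))
    (hgood : c ^ 10 < p ^ κ) (hgood' : c' ^ 10 < p ^ κ') (hκ : κ ≤ κ')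
    (hg : 3 ≤ g) (hga : g ∣ a + 1) (hga' : g ∣ a' + 1) : 16 * κ ≤ 11 * κ' := by
  have h1 := gap_gcd hp hp2 hq hq2 hq' hq'2 hne ha ha' hc hc' hsig hsig' hgood hgood' hκ
    (by omega) hga hga'
  have h2 := le_of_sig (by have := hq'.one_lt; omega) hsig'
  obtain ⟨n, hn⟩ := hga'
  have hn1 : 1 ≤ n := by
    rcases Nat.eq_zero_or_pos n with h | h
    · rw [h, mul_zero] at hn; omega
    · exact h
  have hdiv : (a' + 1) / g = n := by rw [hn, Nat.mul_div_cancel_left _ (by omega)]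
  rw [hdiv] at h1
  have h3 : p ^ (10 * a' * κ) ≤ p ^ (2 * a' * κ + 11 * κ' * n) := by
    calc p ^ (10 * a' * κ) = (p ^ κ) ^ (10 * a') := by rw [← pow_mul]; congr 1; ring
      _ ≤ (c ^ 2 * q' ^ n) ^ (10 * a') := Nat.pow_le_pow_left h1 _
      _ = (c ^ 10) ^ (2 * a') * ((q' ^ a') ^ 10) ^ n := by
          rw [mul_pow, ← pow_mul, ← pow_mul, ← pow_mul, ← pow_mul, ← pow_mul]
          congr 2 <;> ring
      _ ≤ (p ^ κ) ^ (2 * a') * ((c' * p ^ κ') ^ 10) ^ n :=
          Nat.mul_le_mul (Nat.pow_le_pow_left hgood.le _)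
            (Nat.pow_le_pow_left (Nat.pow_le_pow_left h2 _) _)
      _ = (p ^ κ) ^ (2 * a') * (c' ^ 10 * (p ^ κ') ^ 10) ^ n := by rw [mul_pow]
      _ ≤ (p ^ κ) ^ (2 * a') * (p ^ κ' * (p ^ κ') ^ 10) ^ n :=
          Nat.mul_le_mul_left _ (Nat.pow_le_pow_left (Nat.mul_le_mul_right _ hgood'.le) _)
      _ = p ^ (2 * a' * κ + 11 * κ' * n) := by
          rw [pow_add, ← pow_mul, ← pow_succ', ← pow_mul, ← pow_mul]
          congr 2 <;> ring
  have h4 := (Nat.pow_le_pow_iff_right hp.one_lt).1 h3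
  have h5 : 8 * a' * κ ≤ 11 * κ' * n := by
    have : 10 * a' * κ = 2 * a' * κ + 8 * a' * κ := by ring
    omega
  have h6 : 2 * n ≤ a' := by nlinarith
  have h7 : n * (16 * κ) ≤ n * (11 * κ') := by
    calc n * (16 * κ) = 8 * (2 * n) * κ := by ring
      _ ≤ 8 * a' * κ := Nat.mul_le_mul_right _ (Nat.mul_le_mul_left _ h6)
      _ ≤ 11 * κ' * n := h5
      _ = n * (11 * κ') := by ring
  exact Nat.le_of_mul_le_mul_left h7 hn1

/-- a geometric family -/
theorem geom_family (S : Finset ℕ) (κ : ℕ → ℕ)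
    (h : ∀ q ∈ S, ∀ q' ∈ S, q ≠ q' → κ q ≤ κ q' → 16 * κ q ≤ 11 * κ q') :
    ∀ X : ℕ, (∀ q ∈ S, κ q ≤ X) → 5 * ∑ q ∈ S, κ q ≤ 16 * X := by
  classical
  induction hn : S.card generalizing S with
  | zero =>
    intro X _
    rw [Finset.card_eq_zero.1 hn, Finset.sum_empty]
    omega
  | succ n ih =>
    intro X hX
    have hne : S.Nonempty := Finset.card_pos.1 (by omega)
    obtain ⟨m, hm, hmax⟩ := Finset.exists_max_image S κ hne
    have h1 := ih (S.erase m) (fun q hq q' hq' => h q (Finset.mem_of_mem_erase hq) q'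
      (Finset.mem_of_mem_erase hq')) (by rw [Finset.card_erase_of_mem hm]; omega)
      (11 * κ m / 16) (by
        intro q hq
        have h2 := h q (Finset.mem_of_mem_erase hq) m hm (Finset.ne_of_mem_erase hq)
          (hmax q (Finset.mem_of_mem_erase hq))
        omega)
    have h2 := Finset.add_sum_erase S κ hm
    have h3 := hX m hm
    omega

/-- The sum of the exponents of `p` over good primes, if each order `a q + 1` is divisible by one
of the numbers `≥ 3` in the set `T`. -/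
theorem sum_kappa_T {p : ℕ} {S T : Finset ℕ} {a c κ : ℕ → ℕ} (hp : p.Prime) (hp2 : p ≠ 2)
    (F : Fam p S a c κ) (hT3 : ∀ l ∈ T, 3 ≤ l) (hT : ∀ q ∈ S, ∃ l ∈ T, l ∣ a q + 1)
    (X : ℕ) (hX : ∀ q ∈ S, κ q ≤ X) : 5 * ∑ q ∈ S, κ q ≤ 16 * (T.card * X) := by
  classical
  have h1 : ∀ l ∈ T, 5 * ∑ q ∈ S.filter (fun q => l ∣ a q + 1), κ q ≤ 16 * X := by
    intro l hl
    apply geom_family
    · intro q hq q' hq' hne hle
      rw [Finset.mem_filter] at hq hq'
      have hc' := F.c2 q' hq'.1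
      exact ratio_gcd hp hp2 (F.prime q hq.1) (F.ne2 q hq.1) (F.prime q' hq'.1) (F.ne2 q' hq'.1)
        hne (F.two_le hq.1) (F.two_le hq'.1) (F.c2 q hq.1) (by omega) (F.sig q hq.1)
        (F.sig q' hq'.1) (F.good q hq.1) (F.good q' hq'.1) hle (hT3 l hl) hq.2 hq'.2
    · intro q hq
      exact hX q (Finset.mem_filter.1 hq).1
  have h2 : ∑ q ∈ S, κ q ≤ ∑ l ∈ T, ∑ q ∈ S.filter (fun q => l ∣ a q + 1), κ q := by
    have h3 : ∑ l ∈ T, ∑ q ∈ S.filter (fun q => l ∣ a q + 1), κ q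
        = ∑ q ∈ S, ∑ l ∈ T, if l ∣ a q + 1 then κ q else 0 := by
      rw [Finset.sum_comm]
      exact Finset.sum_congr rfl fun l _ => Finset.sum_filter _ _
    rw [h3]
    apply Finset.sum_le_sum
    intro q hq
    obtain ⟨l, hl, hlq⟩ := hT q hq
    calc κ q = if l ∣ a q + 1 then κ q else 0 := (if_pos hlq).symm
      _ ≤ ∑ l ∈ T, if l ∣ a q + 1 then κ q else 0 :=
        Finset.single_le_sum (f := fun l => if l ∣ a q + 1 then κ q else 0)
          (fun _ _ => Nat.zero_le _) hl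
  calc 5 * ∑ q ∈ S, κ q ≤ 5 * ∑ l ∈ T, ∑ q ∈ S.filter (fun q => l ∣ a q + 1), κ q :=
        Nat.mul_le_mul_left _ h2
    _ = ∑ l ∈ T, 5 * ∑ q ∈ S.filter (fun q => l ∣ a q + 1), κ q := Finset.mul_sum _ _ _
    _ ≤ ∑ _l ∈ T, 16 * X := Finset.sum_le_sum h1
    _ = 16 * (T.card * X) := by rw [Finset.sum_const, smul_eq_mul]; ring

end Pool.Agent.Lib.MP_f02ea4_nt.IP
end

section

/-!
# The number of prime factors of the index of an odd perfect number

`N = p ^ k * M` odd perfect, `p` prime, `p ∤ M`, `i = σ(M) / p ^ k`.  Then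
`ω(N) ≤ 4 Ω(i) + 4`; in particular `N < 2 ^ (4 ^ (4 Ω(i) + 4))`.
-/

set_option autoImplicit false

namespace Pool.Agent.Lib.MP_f02ea4_nt.IdxOmega

open Pool.Agent.Lib.MP_f02ea4_nt.Sb Finset

theorem compl_prod (p : ℕ) (S : Finset ℕ) (g : ℕ → ℕ) :
    (∏ q ∈ S, g q) / p ^ (∏ q ∈ S, g q).factorization p
      = ∏ q ∈ S, (g q / p ^ (g q).factorization p) := by
  induction S using Finset.induction_on with
  | empty => simp
  | insert a S ha ih => rw [prod_insert ha, prod_insert ha, Nat.ordCompl_mul, ih]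

theorem sg_eq_prod {M : ℕ} (hM : M ≠ 0) :
    sg M = ∏ q ∈ M.primeFactors, sg (q ^ M.factorization q) := by
  rw [sg, ArithmeticFunction.IsMultiplicative.multiplicative_factorization _
    ArithmeticFunction.isMultiplicative_sigma hM, Finsupp.prod, Nat.support_factorization]

/-! ### the case `c = 1` -/

theorem J0 {p q κ a f k : ℕ} (hq : q.Prime) (hq2 : q ≠ 2) (hp1 : 1 ≤ p)
    (hsig : (q - 1) * p ^ κ + 1 = q ^ (a + 1)) (hf : f ≤ a + 1)
    (hpk : q ^ f ∣ p ^ (k + 1) - 1) :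
    f ≤ 1 + (k + 1).factorization q := by
  have hZ : ((q : ℤ) - 1) * (p : ℤ) ^ κ + 1 = (q : ℤ) ^ (a + 1) := by
    have h1 : ((q - 1 : ℕ) : ℤ) = (q : ℤ) - 1 := by
      have := hq.pos
      push_cast [Nat.cast_sub (show 1 ≤ q by omega)]
      ring
    rw [← h1]
    exact_mod_cast hsig
  have h1 : (1 - (q : ℤ)) * (p : ℤ) ^ κ ≡ 1 [ZMOD (q : ℤ) ^ f] := by
    rw [Int.modEq_iff_dvd]
    have h2 : (1 : ℤ) - (1 - (q : ℤ)) * (p : ℤ) ^ κ = (q : ℤ) ^ (a + 1) := by linarith
    rw [h2]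
    exact pow_dvd_pow _ hf
  have h2 : (p : ℤ) ^ (k + 1) ≡ 1 [ZMOD (q : ℤ) ^ f] := by
    apply Int.ModEq.symm
    rw [Int.modEq_iff_dvd]
    have h3 : ((p ^ (k + 1) - 1 : ℕ) : ℤ) = (p : ℤ) ^ (k + 1) - 1 := by
      have : 1 ≤ p ^ (k + 1) := Nat.one_le_pow _ _ hp1
      push_cast [Nat.cast_sub this]
      ring
    rw [← h3]
    exact_mod_cast hpk
  have h3 := h1.pow (k + 1)
  rw [mul_pow, one_pow] at h3
  have h4 : ((p : ℤ) ^ κ) ^ (k + 1) ≡ 1 [ZMOD (q : ℤ) ^ f] := by
    have := h2.pow κ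
    rw [one_pow, ← pow_mul, mul_comm, pow_mul] at this
    exact this
  have h5 : (1 - (q : ℤ)) ^ (k + 1) ≡ 1 [ZMOD (q : ℤ) ^ f] := by
    have h6 := (h4.mul_left ((1 - (q : ℤ)) ^ (k + 1))).symm.trans h3
    rwa [mul_one] at h6
  have h6 : (q : ℤ) ^ f ∣ (1 - (q : ℤ)) ^ (k + 1) - 1 ^ (k + 1) := by
    rw [one_pow]
    exact (Int.modEq_iff_dvd.1 h5.symm)
  have hodd : Odd q := hq.odd_of_ne_two hq2
  have h7 : (q : ℤ) ∣ (1 - (q : ℤ)) - 1 := ⟨-1, by ring⟩
  have h8 : ¬ (q : ℤ) ∣ 1 - (q : ℤ) := by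
    intro h
    have h9 : (q : ℤ) ∣ 1 := by
      have := dvd_add h (dvd_refl (q : ℤ))
      simpa using this
    have : q ∣ 1 := by exact_mod_cast h9
    exact hq.one_lt.ne' (Nat.dvd_one.1 this)
  have h9 := Int.emultiplicity_pow_sub_pow hq hodd h7 h8 (k + 1)
  have h10 : emultiplicity (q : ℤ) ((1 - (q : ℤ)) - 1) = 1 := by
    have : (1 - (q : ℤ)) - 1 = - (q : ℤ) := by ring
    rw [this, emultiplicity_neg, Int.natCast_emultiplicity]
    exact Nat.Prime.emultiplicity_self hq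
  have h11 : emultiplicity q (k + 1) = ((k + 1).factorization q : ℕ∞) := by
    have := Fact.mk hq
    rw [← padicValNat_eq_emultiplicity (by omega), Nat.factorization_def _ hq]
  rw [h10, h11] at h9
  have h12 := pow_dvd_iff_le_emultiplicity.1 h6
  rw [h9] at h12
  exact_mod_cast h12

theorem a_ge_two {p q κ a : ℕ} (hp : p.Prime) (hp2 : p ≠ 2) (hq : q.Prime) (hq2 : q ≠ 2)
    (ha : a ≠ 0) (hsig : sg (q ^ a) = p ^ κ) : 2 ≤ a := by
  by_contra h
  have ha1 : a = 1 := by omega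
  subst ha1
  rw [sg_prime hq] at hsig
  have h1 : Odd (p ^ κ) := (hp.odd_of_ne_two hp2).pow
  have h2 : Even (q + 1) := (hq.odd_of_ne_two hq2).add_one
  rw [hsig] at h2
  exact (Nat.not_even_iff_odd.2 h1) h2

theorem sg_perfect {N : ℕ} (hperf : Nat.Perfect N) : sg N = 2 * N := by
  rw [sg, ArithmeticFunction.sigma_one_apply]
  exact (Nat.perfect_iff_sum_divisors_eq_two_mul hperf.2).1 hperf

/-! ### many prime factors make a number large -/

theorem small_primes : ∀ U ∈ ({3, 5, 7, 11, 13} : Finset ℕ).powerset,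
    16 ^ U.card ≤ 70 * ∏ q ∈ U, q := by
  decide

theorem pow_le_prod (T : Finset ℕ) (hT : ∀ q ∈ T, q.Prime ∧ q ≠ 2) :
    16 ^ T.card ≤ 70 * ∏ q ∈ T, q := by
  classical
  have h1 : T.filter (fun q => q < 16) ∈ ({3, 5, 7, 11, 13} : Finset ℕ).powerset := by
    rw [Finset.mem_powerset]
    intro q hq
    obtain ⟨hqT, hq16⟩ := Finset.mem_filter.1 hq
    obtain ⟨hqp, hq2⟩ := hT q hqT
    interval_cases q <;> first | (simp; done) | (exfalso; revert hqp; norm_num; done) | omega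
  have h2 := small_primes _ h1
  have h3 : 16 ^ (T.filter (fun q => ¬ q < 16)).card ≤ ∏ q ∈ T.filter (fun q => ¬ q < 16), q := by
    rw [← Finset.prod_const]
    exact Finset.prod_le_prod' (fun q hq => not_lt.1 (Finset.mem_filter.1 hq).2)
  rw [← Finset.card_filter_add_card_filter_not (s := T) (fun q => q < 16), pow_add,
    ← Finset.prod_filter_mul_prod_filter_not T (fun q => q < 16) (fun q => q)]
  calc _ ≤ (70 * ∏ q ∈ T.filter (fun q => q < 16), q) *
        ∏ q ∈ T.filter (fun q => ¬ q < 16), q := Nat.mul_le_mul h2 h3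
    _ = _ := by ring

theorem card_primes_bound {n ω : ℕ} (hω : 2 ≤ ω) (T : Finset ℕ) (hT : ∀ q ∈ T, q.Prime ∧ q ≠ 2)
    (hTn : ∀ q ∈ T, q ∣ n + 1) (hn : 12 * n < 7 * 4 ^ ω) : 2 * T.card ≤ ω + 2 := by
  have h1 : (∏ q ∈ T, q) ∣ n + 1 :=
    Finset.prod_primes_dvd _ (fun q hq => (hT q hq).1.prime) hTn
  have h2 : ∏ q ∈ T, q ≤ n + 1 := Nat.le_of_dvd (by omega) h1
  have h3 := pow_le_prod T hT
  have h4 : (16 : ℕ) ^ T.card = 4 ^ (2 * T.card) := by rw [pow_mul]; norm_num
  have h5 : (16 : ℕ) ≤ 4 ^ ω := by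
    calc (16 : ℕ) = 4 ^ 2 := by norm_num
      _ ≤ 4 ^ ω := Nat.pow_le_pow_right (by norm_num) hω
  have h6 : 4 ^ (2 * T.card) < 4 ^ (ω + 3) := by
    have h7 : (4 : ℕ) ^ (ω + 3) = 64 * 4 ^ ω := by rw [pow_add]; ring
    rw [← h4, h7]
    omega
  have := (Nat.pow_lt_pow_iff_right (by norm_num : 1 < 4)).1 h6
  omega

theorem cardFactors_prod (S : Finset ℕ) (c : ℕ → ℕ) (hc : ∀ q ∈ S, c q ≠ 0) :
    ArithmeticFunction.cardFactors (∏ q ∈ S, c q) =
      ∑ q ∈ S, ArithmeticFunction.cardFactors (c q) := by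
  classical
  induction S using Finset.induction_on with
  | empty => simp
  | insert a S ha ih =>
    rw [Finset.prod_insert ha, Finset.sum_insert ha,
      ArithmeticFunction.cardFactors_mul (hc a (Finset.mem_insert_self _ _))
        (Finset.prod_ne_zero_iff.2 (fun q hq => hc q (Finset.mem_insert_of_mem hq))),
      ih (fun q hq => hc q (Finset.mem_insert_of_mem hq))]

theorem card_primeFactors_le (n : ℕ) (_hn : n ≠ 0) :
    n.primeFactors.card ≤ ArithmeticFunction.cardFactors n := by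
  rw [ArithmeticFunction.cardFactors_apply, Nat.primeFactors]
  exact List.toFinset_card_le _

theorem omega_le {N p k M : ℕ} (hN : Odd N) (hperf : Nat.Perfect N)
    (hp : p.Prime) (hpM : ¬ p ∣ M) (hNM : N = p ^ k * M) :
    N.primeFactors.card ≤
      4 * ArithmeticFunction.cardFactors (ArithmeticFunction.sigma 1 M / p ^ k) + 4 := by
  classical
  have hup := Pool.Agent.Lib.MP_f02ea4_nt.EqUpper.upper N hN hperf
  have hs := sg_perfect hperf
  have hM0 : M ≠ 0 := by rintro rfl; exact hpM (dvd_zero p)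
  have hcop : Nat.Coprime (p ^ k) M :=
    Nat.Coprime.pow_left k ((Nat.Prime.coprime_iff_not_dvd hp).2 hpM)
  have hs' := hs
  rw [hNM, sg_mul hcop] at hs
  have hdvd : p ^ k ∣ sg M := by
    have h1 : p ^ k ∣ sg (p ^ k) * sg M := by rw [hs]; exact ⟨2 * M, by ring⟩
    exact (Nat.Coprime.pow_left k (coprime_sg_pow hp k)).dvd_of_dvd_mul_left h1
  obtain ⟨i, hi⟩ := hdvd
  have hpk0 : 0 < p ^ k := pow_pos hp.pos k
  have hdiv : ArithmeticFunction.sigma 1 M / p ^ k = i := by
    have : ArithmeticFunction.sigma 1 M = p ^ k * i := hi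
    rw [this, Nat.mul_div_cancel_left _ hpk0]
  rw [hdiv]
  have hsi : i * sg (p ^ k) = 2 * M := by
    rw [hi] at hs
    have : p ^ k * (i * sg (p ^ k)) = p ^ k * (2 * M) := by
      calc p ^ k * (i * sg (p ^ k)) = sg (p ^ k) * (p ^ k * i) := by ring
        _ = 2 * (p ^ k * M) := hs
        _ = _ := by ring
    exact Nat.eq_of_mul_eq_mul_left hpk0 this
  have hNpos : 0 < N := hN.pos
  have hMo : Odd M := by
    rw [hNM] at hN
    exact (Nat.odd_mul.1 hN).2
  have hi0 : i ≠ 0 := by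
    rintro rfl
    simp only [zero_mul] at hsi
    omega
  rcases Nat.eq_zero_or_pos k with hk0 | hkpos
  · -- `k = 0`
    subst hk0
    have h1 : i = 2 * N := by
      rw [pow_zero, sg_one, mul_one] at hsi
      rw [hNM, pow_zero, one_mul, hsi]
    rw [h1, ArithmeticFunction.cardFactors_mul (by norm_num) hNpos.ne']
    have := card_primeFactors_le N hNpos.ne'
    omega
  -- `k ≥ 1`
  have hp2 : p ≠ 2 := by
    rintro rfl
    rw [hNM] at hN
    have h1 := (Nat.odd_mul.1 hN).1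
    have h2 : Even (2 ^ k) := (Nat.even_pow.2 ⟨even_two, by omega⟩)
    exact (Nat.not_even_iff_odd.2 h1) h2
  have hp3 : 3 ≤ p := by
    have := hp.two_le
    omega
  have hpi : ¬ p ∣ i := by
    intro h
    have h1 : p ∣ 2 * M := by rw [← hsi]; exact Dvd.dvd.mul_right h _
    rcases (Nat.Prime.dvd_mul hp).1 h1 with h2 | h2
    · exact hp2 ((Nat.prime_dvd_prime_iff_eq hp Nat.prime_two).1 h2)
    · exact hpM h2
  have hfk : (sg M).factorization p = k := by
    rw [hi, Nat.factorization_mul hpk0.ne' hi0]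
    simp [hp.factorization_pow, Nat.factorization_eq_zero_of_not_dvd hpi]
  -- the local factors
  set a : ℕ → ℕ := fun q => M.factorization q with ha
  set c : ℕ → ℕ := fun q => sg (q ^ a q) / p ^ (sg (q ^ a q)).factorization p with hc
  set κ : ℕ → ℕ := fun q => (sg (q ^ a q)).factorization p with hκ
  have hic : i = ∏ q ∈ M.primeFactors, c q := by
    have h1 := compl_prod p M.primeFactors (fun q => sg (q ^ a q))
    rw [← sg_eq_prod hM0, hfk] at h1
    rw [← hdiv]
    exact h1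
  have hcκ : ∀ q, sg (q ^ a q) = c q * p ^ κ q := by
    intro q
    have := Nat.ordProj_mul_ordCompl_eq_self (sg (q ^ a q)) p
    simp only [hc, hκ]
    rw [mul_comm]
    exact this.symm
  have hqprime : ∀ q ∈ M.primeFactors, q.Prime := fun q hq => Nat.prime_of_mem_primeFactors hq
  have hqodd : ∀ q ∈ M.primeFactors, q ≠ 2 := by
    intro q hq h2
    have h1 := Nat.dvd_of_mem_primeFactors hq
    rw [h2] at h1
    exact (Nat.not_even_iff_odd.2 hMo) (even_iff_two_dvd.2 h1)
  have hcpos : ∀ q ∈ M.primeFactors, 1 ≤ c q := by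
    intro q hq
    rcases Nat.eq_zero_or_pos (c q) with h | h
    · exact absurd (hic.trans (Finset.prod_eq_zero hq h)) hi0
    · exact h
  have hapos : ∀ q ∈ M.primeFactors, a q ≠ 0 := by
    intro q hq
    have := (hqprime q hq).factorization_pos_of_dvd hM0 (Nat.dvd_of_mem_primeFactors hq)
    simp only [ha]
    omega
  have hsig : ∀ q ∈ M.primeFactors, (q - 1) * (c q * p ^ κ q) + 1 = q ^ (a q + 1) := by
    intro q hq
    rw [← hcκ q]
    exact sg_pow (hqprime q hq) _
  set s := sg (p ^ k) with hsdef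
  have hs0 : s ≠ 0 := (sg_pos hpk0).ne'
  have hsp : (p - 1) * s + 1 = p ^ (k + 1) := sg_pow hp k
  have hval : ∀ q ∈ M.primeFactors, i.factorization q + s.factorization q = a q := by
    intro q hq
    have h1 : (i * s).factorization q = (2 * M).factorization q := by rw [hsi]
    rw [Nat.factorization_mul hi0 hs0, Nat.factorization_mul (by norm_num) hM0] at h1
    have h2 : (2 : ℕ).factorization q = 0 := by
      rw [Nat.Prime.factorization Nat.prime_two]
      exact Finsupp.single_eq_of_ne (hqodd q hq)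
    simp only [Finsupp.add_apply, h2] at h1
    simp only [ha]
    omega
  have hqf : ∀ q ∈ M.primeFactors, q ^ s.factorization q ∣ p ^ (k + 1) - 1 := by
    intro q _
    have h1 : p ^ (k + 1) - 1 = (p - 1) * s := by omega
    rw [h1]
    exact Dvd.dvd.mul_left (Nat.ordProj_dvd s q) _
  -- the case `c q = 1`, `q ∤ i`
  have hJ0 : ∀ q ∈ M.primeFactors, c q = 1 → ¬ q ∣ i → q ∣ k + 1 := by
    intro q hq hc1 hqi
    have h1 := hsig q hq
    rw [hc1, one_mul] at h1
    have h2 := J0 (hqprime q hq) (hqodd q hq) (by omega) h1 (by have := hval q hq; omega)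
      (hqf q hq)
    have h3 : 2 ≤ a q := by
      apply a_ge_two hp hp2 (hqprime q hq) (hqodd q hq) (hapos q hq) (κ := κ q)
      rw [hcκ q, hc1, one_mul]
    have h4 := hval q hq
    rw [Nat.factorization_eq_zero_of_not_dvd hqi] at h4
    exact Nat.dvd_of_factorization_pos (by omega)
  -- the three classes
  set T := M.primeFactors.filter (fun q => c q = 1 ∧ ¬ q ∣ i) with hT
  have hcover : M.primeFactors ⊆
      M.primeFactors.filter (fun q => 2 ≤ c q) ∪ (i.primeFactors ∪ T) := by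
    intro q hq
    rw [Finset.mem_union, Finset.mem_union, Finset.mem_filter]
    by_cases h1 : 2 ≤ c q
    · exact Or.inl ⟨hq, h1⟩
    · right
      by_cases h2 : q ∣ i
      · exact Or.inl (Nat.mem_primeFactors.2 ⟨hqprime q hq, h2, hi0⟩)
      · right
        rw [hT, Finset.mem_filter]
        have := hcpos q hq
        exact ⟨hq, by omega, h2⟩
  have hc1 : (M.primeFactors.filter (fun q => 2 ≤ c q)).card ≤
      ArithmeticFunction.cardFactors i := by
    have h1 : ArithmeticFunction.cardFactors i =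
        ∑ q ∈ M.primeFactors, ArithmeticFunction.cardFactors (c q) := by
      conv_lhs => rw [hic]
      exact cardFactors_prod _ _ (fun q hq => by have := hcpos q hq; omega)
    rw [h1, Finset.card_filter]
    apply Finset.sum_le_sum
    intro q hq
    split_ifs with h
    · rw [Nat.one_le_iff_ne_zero]
      intro h0
      rw [ArithmeticFunction.cardFactors_eq_zero_iff_eq_zero_or_one] at h0
      omega
    · exact Nat.zero_le _
  have hω2 : 2 ≤ N.primeFactors.card := by
    by_contra hlt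
    push Not at hlt
    have h1 : (4 : ℕ) ^ N.primeFactors.card ≤ 4 ^ 1 := Nat.pow_le_pow_right (by norm_num) (by omega)
    have h2 : N ^ 8 < 2 ^ 28 := by
      refine hup.trans_le (Nat.pow_le_pow_right (by norm_num) ?_)
      omega
    have h3 : N < 12 := by
      by_contra h
      push Not at h
      have := Nat.pow_le_pow_left h 8
      norm_num at this h2
      omega
    interval_cases N
    all_goals first | (exact absurd hN (by decide)) | (revert hs'; unfold sg; rw [ArithmeticFunction.sigma_one_apply]; decide)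
  have hkbound : 12 * k < 7 * 4 ^ N.primeFactors.card := by
    have h1 : 3 ^ k ≤ N := by
      rw [hNM]
      calc 3 ^ k ≤ p ^ k := Nat.pow_le_pow_left hp3 k
        _ ≤ p ^ k * M := Nat.le_mul_of_pos_right _ (Nat.pos_of_ne_zero hM0)
    have h2 : 2 ^ (12 * k) < 2 ^ (7 * 4 ^ N.primeFactors.card) := by
      calc 2 ^ (12 * k) = (2 ^ 12) ^ k := by rw [pow_mul]
        _ ≤ (3 ^ 8) ^ k := Nat.pow_le_pow_left (by norm_num) k
        _ = (3 ^ k) ^ 8 := by rw [← pow_mul, ← pow_mul, mul_comm]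
        _ ≤ N ^ 8 := Nat.pow_le_pow_left h1 8
        _ < _ := hup
    exact (Nat.pow_lt_pow_iff_right (by norm_num)).1 h2
  have hTcard : 2 * T.card ≤ N.primeFactors.card + 2 := by
    apply card_primes_bound hω2 T _ _ hkbound
    · intro q hq
      have := (Finset.mem_filter.1 hq).1
      exact ⟨hqprime q this, hqodd q this⟩
    · intro q hq
      obtain ⟨h1, h2, h3⟩ := Finset.mem_filter.1 hq
      exact hJ0 q h1 h2 h3
  have hNprime : N.primeFactors ⊆ insert p M.primeFactors := by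
    intro q hq
    have hqp := Nat.prime_of_mem_primeFactors hq
    have h1 := Nat.dvd_of_mem_primeFactors hq
    rw [hNM] at h1
    rw [Finset.mem_insert]
    rcases (Nat.Prime.dvd_mul hqp).1 h1 with h2 | h2
    · left; exact (Nat.prime_dvd_prime_iff_eq hqp hp).1 (hqp.dvd_of_dvd_pow h2)
    · right; exact Nat.mem_primeFactors.2 ⟨hqp, h2, hM0⟩
  have h1 : N.primeFactors.card ≤ M.primeFactors.card + 1 :=
    (Finset.card_le_card hNprime).trans (Finset.card_insert_le _ _)
  have h2 : M.primeFactors.card ≤ (M.primeFactors.filter (fun q => 2 ≤ c q)).card +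
      (i.primeFactors.card + T.card) :=
    (Finset.card_le_card hcover).trans ((Finset.card_union_le _ _).trans
      (Nat.add_le_add_left (Finset.card_union_le _ _) _))
  have h3 := card_primeFactors_le i hi0
  omega

end Pool.Agent.Lib.MP_f02ea4_nt.IdxOmega
end
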