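import Mathlib
import Pool.Agent.Lib.MP_f02ea4_nt.Mg.G001
import Pool.Agent.Lib.MP_f02ea4_nt.LP_T1

section

/-!
The gap principle for two good primes whose orders are not coprime, with `1 ≤ c`.
-/

set_option autoImplicit false

namespace Pool.Agent.Lib.MP_f02ea4_nt.IP

open Finset
open Pool.Agent.Lib.MP_f02ea4_nt.IdxK
open Pool.Agent.Lib.MP_f02ea4_nt.LP (Fam1)

/-- the case `c = 1` -/
theorem gapY_one {p q a κ y : ℕ} (hp : p.Prime) (hp2 : p ≠ 2) (hq : q.Prime) (hq2 : q ≠ 2)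
    (ha : 2 ≤ a) (hκ1 : 1 ≤ κ) (hsig : (q - 1) * (1 * p ^ κ) + 1 = q ^ (a + 1))
    (hqy : ¬ q ∣ y)
    (hy1 : (y : ZMod p) ^ (a + 1) = 1) (hyne : (y : ZMod p) ≠ 1)
    (hrooty : y ^ (p - 1) ≡ 1 [MOD p ^ κ]) : p ^ κ ≤ y := by
  have hFp : Fact p.Prime := ⟨hp⟩
  have hgood : 1 ^ 10 < p ^ κ := by
    rw [one_pow]
    exact Nat.one_lt_pow (by omega) hp.one_lt
  have hord := ord hp hp2 hq hq2 (by omega) (by omega) hsig hgood
  have hpq := not_dvd hp hκ1 hsig
  have hprim : IsPrimitiveRoot (q : ZMod p) (a + 1) := by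
    rw [← hord]; exact IsPrimitiveRoot.orderOf _
  obtain ⟨m, hm, hqm⟩ := hprim.eq_pow_of_pow_eq_one hy1
  have hm1 : 1 ≤ m := by
    rcases Nat.eq_zero_or_pos m with h | h
    · rw [h, pow_zero] at hqm
      exact absurd hqm.symm hyne
    · exact h
  have hmodp : q ^ m ≡ y [MOD p] := by
    rw [← ZMod.natCast_eq_natCast_iff]
    push_cast
    exact hqm
  have hroot := root hp hp2 hq hq2 (by omega) (by omega) hsig hgood
  have hrootm : (q ^ m) ^ (p - 1) ≡ 1 [MOD p ^ κ] := by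
    rw [← pow_mul, mul_comm, pow_mul]
    have := hroot.pow m
    rwa [one_pow] at this
  have hmod : q ^ m ≡ y [MOD p ^ κ] :=
    lift hp hp2 (fun h => hpq (hp.dvd_of_dvd_pow h)) hmodp hrootm hrooty
  have hqa : q ^ a ≤ 1 * p ^ κ := le_of_sig hq.one_lt hsig
  rw [one_mul] at hqa
  have hqa' : q ^ a ≠ p ^ κ := by
    intro h
    have h1 : p ∣ q ^ a := by
      rw [h]
      exact dvd_pow_self p (by omega)
    exact hpq (hp.dvd_of_dvd_pow h1)
  have hlt : q ^ m < p ^ κ := by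
    have h1 : q ^ m ≤ q ^ a := Nat.pow_le_pow_right hq.pos (by omega)
    omega
  by_contra hcon
  push Not at hcon
  have h1 : q ^ m = y := Nat.ModEq.eq_of_lt_of_lt hmod hlt hcon
  exact hqy (by rw [← h1]; exact dvd_pow_self q (by omega))

/-- Two good primes `q ≠ q'` such that some `g > 1` divides both orders `a + 1`, `a' + 1`. -/
theorem gap_gcd1 {p q q' a a' c c' κ κ' g : ℕ} (hp : p.Prime) (hp2 : p ≠ 2) (hq : q.Prime)
    (hq2 : q ≠ 2) (hq' : q'.Prime) (hq'2 : q' ≠ 2) (hne : q ≠ q')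
    (ha : 2 ≤ a) (ha' : 2 ≤ a') (hc : 1 ≤ c) (hc' : 1 ≤ c')
    (hsig : (q - 1) * (c * p ^ κ) + 1 = q ^ (a + 1))
    (hsig' : (q' - 1) * (c' * p ^ κ') + 1 = q' ^ (a' + 1))
    (hgood : c ^ 10 < p ^ κ) (hgood' : c' ^ 10 < p ^ κ') (hκ : κ ≤ κ')
    (hg : 1 < g) (hga : g ∣ a + 1) (hga' : g ∣ a' + 1) :
    p ^ κ ≤ c ^ 2 * q' ^ ((a' + 1) / g) := by
  rcases Nat.lt_or_ge 1 c with hc2 | hc2
  · exact gap_gcd hp hp2 hq hq2 hq' hq'2 hne ha ha' hc2 hc' hsig hsig' hgood hgood' hκ hg hga hga'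
  · have hc1 : c = 1 := le_antisymm hc2 hc
    subst hc1
    have hFp : Fact p.Prime := ⟨hp⟩
    have hord' := ord hp hp2 hq' hq'2 (by omega) hc' hsig' hgood'
    obtain ⟨n, hn⟩ := hga'
    obtain ⟨n₀, hn₀⟩ := hga
    have hn1 : 1 ≤ n := by
      rcases Nat.eq_zero_or_pos n with h | h
      · rw [h, mul_zero] at hn; omega
      · exact h
    have hdiv : (a' + 1) / g = n := by rw [hn, Nat.mul_div_cancel_left _ (by omega)]
    rw [hdiv, one_pow, one_mul]
    refine gapY_one hp hp2 hq hq2 ha (kappa_pos hc hgood) hsig ?_ ?_ ?_ ?_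
    · intro h
      exact hne ((Nat.prime_dvd_prime_iff_eq hq hq').1 (hq.dvd_of_dvd_pow h))
    · push_cast
      have h1 : (q' : ZMod p) ^ (a' + 1) = 1 := by rw [← hord']; exact pow_orderOf_eq_one _
      rw [hn₀, ← pow_mul, show n * (g * n₀) = (a' + 1) * n₀ by rw [hn]; ring, pow_mul, h1,
        one_pow]
    · push_cast
      intro h
      have h1 := orderOf_dvd_of_pow_eq_one h
      rw [hord', hn] at h1
      have h2 := Nat.le_of_dvd hn1 h1
      nlinarith
    · have h1 := root hp hp2 hq' hq'2 (by omega) hc' hsig' hgood'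
      have h2 : q' ^ (p - 1) ≡ 1 [MOD p ^ κ] := h1.of_dvd (pow_dvd_pow p hκ)
      have h3 := h2.pow n
      rw [one_pow, ← pow_mul, mul_comm, pow_mul] at h3
      exact h3

/-- consequence of the gap principle -/
theorem ratio_gcd1 {p q q' a a' c c' κ κ' g : ℕ} (hp : p.Prime) (hp2 : p ≠ 2) (hq : q.Prime)
    (hq2 : q ≠ 2) (hq' : q'.Prime) (hq'2 : q' ≠ 2) (hne : q ≠ q')
    (ha : 2 ≤ a) (ha' : 2 ≤ a') (hc : 1 ≤ c) (hc' : 1 ≤ c')
    (hsig : (q - 1) * (c * p ^ κ) + 1 = q ^ (a + 1))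
    (hsig' : (q' - 1) * (c' * p ^ κ') + 1 = q' ^ (a' + 1))
    (hgood : c ^ 10 < p ^ κ) (hgood' : c' ^ 10 < p ^ κ') (hκ : κ ≤ κ')
    (hg : 3 ≤ g) (hga : g ∣ a + 1) (hga' : g ∣ a' + 1) : 16 * κ ≤ 11 * κ' := by
  have h1 := gap_gcd1 hp hp2 hq hq2 hq' hq'2 hne ha ha' hc hc' hsig hsig' hgood hgood' hκ
    (by omega) hga hga'
  have h2 := le_of_sig (by have := hq'.one_lt; omega) hsig'
  obtain ⟨n, hn⟩ := hga'
  have hn1 : 1 ≤ n := by
    rcases Nat.eq_zero_or_pos n with h | h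
    · rw [h, mul_zero] at hn; omega
    · exact h
  have hdiv : (a' + 1) / g = n := by rw [hn, Nat.mul_div_cancel_left _ (by omega)]
  rw [hdiv] at h1
  have h3 : p ^ (10 * a' * κ) ≤ p ^ (2 * a' * κ + 11 * κ' * n) := by
    calc p ^ (10 * a' * κ) = (p ^ κ) ^ (10 * a') := by rw [← pow_mul]; congr 1; ring
      _ ≤ (c ^ 2 * q' ^ n) ^ (10 * a') := Nat.pow_le_pow_left h1 _
      _ = (c ^ 10) ^ (2 * a') * ((q' ^ a') ^ 10) ^ n := by
          rw [mul_pow, ← pow_mul, ← pow_mul, ← pow_mul, ← pow_mul, ← pow_mul]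
          congr 2 <;> ring
      _ ≤ (p ^ κ) ^ (2 * a') * ((c' * p ^ κ') ^ 10) ^ n :=
          Nat.mul_le_mul (Nat.pow_le_pow_left hgood.le _)
            (Nat.pow_le_pow_left (Nat.pow_le_pow_left h2 _) _)
      _ = (p ^ κ) ^ (2 * a') * (c' ^ 10 * (p ^ κ') ^ 10) ^ n := by rw [mul_pow]
      _ ≤ (p ^ κ) ^ (2 * a') * (p ^ κ' * (p ^ κ') ^ 10) ^ n :=
          Nat.mul_le_mul_left _ (Nat.pow_le_pow_left (Nat.mul_le_mul_right _ hgood'.le) _)
      _ = p ^ (2 * a' * κ + 11 * κ' * n) := by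
          rw [pow_add, ← pow_mul, ← pow_succ', ← pow_mul, ← pow_mul]
          congr 2 <;> ring
  have h4 := (Nat.pow_le_pow_iff_right hp.one_lt).1 h3
  have h5 : 8 * a' * κ ≤ 11 * κ' * n := by
    have : 10 * a' * κ = 2 * a' * κ + 8 * a' * κ := by ring
    omega
  have h6 : 2 * n ≤ a' := by nlinarith
  have h7 : n * (16 * κ) ≤ n * (11 * κ') := by
    calc n * (16 * κ) = 8 * (2 * n) * κ := by ring
      _ ≤ 8 * a' * κ := Nat.mul_le_mul_right _ (Nat.mul_le_mul_left _ h6)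
      _ ≤ 11 * κ' * n := h5
      _ = n * (11 * κ') := by ring
  exact Nat.le_of_mul_le_mul_left h7 hn1

/-- The sum of the exponents of `p` over good primes, if each order `a q + 1` is divisible by one
of the numbers `≥ 3` in the set `T`. -/
theorem sum_kappa_T1 {p : ℕ} {S T : Finset ℕ} {a c κ : ℕ → ℕ} (hp : p.Prime) (hp2 : p ≠ 2)
    (F : Fam1 p S a c κ) (hT3 : ∀ l ∈ T, 3 ≤ l) (hT : ∀ q ∈ S, ∃ l ∈ T, l ∣ a q + 1)
    (X : ℕ) (hX : ∀ q ∈ S, κ q ≤ X) : 5 * ∑ q ∈ S, κ q ≤ 16 * (T.card * X) := by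
  classical
  have h1 : ∀ l ∈ T, 5 * ∑ q ∈ S.filter (fun q => l ∣ a q + 1), κ q ≤ 16 * X := by
    intro l hl
    apply geom_family
    · intro q hq q' hq' hne hle
      rw [Finset.mem_filter] at hq hq'
      exact ratio_gcd1 hp hp2 (F.prime q hq.1) (F.ne2 q hq.1) (F.prime q' hq'.1) (F.ne2 q' hq'.1)
        hne (F.two_le hq.1) (F.two_le hq'.1) (F.c1 q hq.1) (F.c1 q' hq'.1) (F.sig q hq.1)
        (F.sig q' hq'.1) (F.good q hq.1) (F.good q' hq'.1) hle (hT3 l hl) hq.2 hq'.2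
    · intro q hq
      exact hX q (Finset.mem_filter.1 hq).1
  have h2 : ∑ q ∈ S, κ q ≤ ∑ l ∈ T, ∑ q ∈ S.filter (fun q => l ∣ a q + 1), κ q := by
    have h3 : ∑ l ∈ T, ∑ q ∈ S.filter (fun q => l ∣ a q + 1), κ q
        = ∑ q ∈ S, ∑ l ∈ T, if l ∣ a q + 1 then κ q else 0 := by
      rw [Finset.sum_comm]
      exact Finset.sum_congr rfl fun l _ => Finset.sum_filter _ _
    rw [h3]
    apply Finset.sum_le_sum
    intro q hq
    obtain ⟨l, hl, hlq⟩ := hT q hq
    calc κ q = if l ∣ a q + 1 then κ q else 0 := (if_pos hlq).symm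
      _ ≤ ∑ l ∈ T, if l ∣ a q + 1 then κ q else 0 :=
        Finset.single_le_sum (f := fun l => if l ∣ a q + 1 then κ q else 0)
          (fun _ _ => Nat.zero_le _) hl
  calc 5 * ∑ q ∈ S, κ q ≤ 5 * ∑ l ∈ T, ∑ q ∈ S.filter (fun q => l ∣ a q + 1), κ q :=
        Nat.mul_le_mul_left _ h2
    _ = ∑ l ∈ T, 5 * ∑ q ∈ S.filter (fun q => l ∣ a q + 1), κ q := Finset.mul_sum _ _ _
    _ ≤ ∑ _l ∈ T, 16 * X := Finset.sum_le_sum h1
    _ = 16 * (T.card * X) := by rw [Finset.sum_const, smul_eq_mul]; ring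

end Pool.Agent.Lib.MP_f02ea4_nt.IP
end

section

/-! Good components of an odd perfect number: the components with a large prime. -/

set_option autoImplicit false

namespace Pool.Agent.Lib.MP_f02ea4_nt.BK

open Finset Real
open Pool.Agent.Lib.MP_f02ea4_nt.LP
open Pool.Agent.Lib.MP_f02ea4_nt.IP

section
variable {p : ℕ} {S : Finset ℕ} {a s κ : ℕ → ℕ}

theorem three_le (F : Fam1 p S a s κ) {r : ℕ} (hr : r ∈ S) : 3 ≤ r := by
  have h1 := (F.prime r hr).two_le
  have h2 := F.ne2 r hr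
  omega

theorem one_le_log (F : Fam1 p S a s κ) {r : ℕ} (hr : r ∈ S) : 1 ≤ log (r : ℝ) := by
  have h1 : (3 : ℝ) ≤ r := by exact_mod_cast three_le F hr
  rw [le_log_iff_exp_le (by linarith)]
  have h4 : exp 1 < 2.7182818286 := exp_one_lt_d9
  linarith

theorem kappa_one (F : Fam1 p S a s κ) {r : ℕ} (hr : r ∈ S) : 1 ≤ κ r :=
  IdxK.kappa_pos (F.c1 r hr) (F.good r hr)

theorem log_s_le (hp : p.Prime) (F : Fam1 p S a s κ) {r : ℕ} (hr : r ∈ S) :
    10 * log (s r : ℝ) ≤ κ r * log p := by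
  have h1 := F.good r hr
  have h2 := F.c1 r hr
  have hs0 : (0 : ℝ) < s r := by exact_mod_cast h2
  have hp0 : (0 : ℝ) < p := by exact_mod_cast hp.pos
  have h3 : (s r : ℝ) ^ 10 ≤ (p : ℝ) ^ κ r := by exact_mod_cast h1.le
  have h4 := log_le_log (by positivity) h3
  rw [log_pow, log_pow] at h4
  push_cast at h4
  exact h4

theorem log_s_nonneg (_F : Fam1 p S a s κ) {r : ℕ} (_hr : r ∈ S) : 0 ≤ log (s r : ℝ) :=
  log_natCast_nonneg _

/-- `(a + 1) log r ≤ (33/20) w` -/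
theorem size (hp : p.Prime) (F : Fam1 p S a s κ) {r : ℕ} (hr : r ∈ S) :
    ((a r : ℝ) + 1) * log r ≤ 33 / 20 * (κ r * log p) := by
  have hr3 := three_le F hr
  have h1 := IdxK.le_of_sig (by omega) (F.sig r hr)
  have hr0 : (0 : ℝ) < r := by exact_mod_cast (by omega : 0 < r)
  have hs0 : (0 : ℝ) < s r := by exact_mod_cast F.c1 r hr
  have hp0 : (0 : ℝ) < p := by exact_mod_cast hp.pos
  have h2 : (r : ℝ) ^ a r ≤ s r * (p : ℝ) ^ κ r := by exact_mod_cast h1
  have h3 := log_le_log (by positivity) h2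
  rw [log_pow, log_mul hs0.ne' (by positivity), log_pow] at h3
  have h4 := log_s_le hp F hr
  have h5 : (2 : ℝ) ≤ a r := by exact_mod_cast F.two_le hr
  have h6 := one_le_log F hr
  nlinarith

/-- the components with a fixed order -/
theorem sum_order (hp : p.Prime) (hp2 : p ≠ 2) (F : Fam1 p S a s κ) {L : ℕ} (hL : 3 ≤ L)
    {x : ℝ} (hx : 0 ≤ x) (h : ∀ r ∈ S, a r + 1 = L → κ r * log p ≤ x) :
    ∑ r ∈ S.filter (fun r => a r + 1 = L), (κ r : ℝ) * log p ≤ 16 / 5 * x := by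
  have hp3 : 3 ≤ p := by have := hp.two_le; omega
  have hP : 1 ≤ log (p : ℝ) := by
    have h1 : (3 : ℝ) ≤ p := by exact_mod_cast hp3
    rw [le_log_iff_exp_le (by linarith)]
    have h4 : exp 1 < 2.7182818286 := exp_one_lt_d9
    linarith
  set T := S.filter (fun r => a r + 1 = L) with hT
  have hTS : T ⊆ S := Finset.filter_subset _ _
  have h1 := sum_kappa_T1 hp hp2 (F.mono hTS) (T := {L}) (by simpa using hL)
    (fun r hr => ⟨L, Finset.mem_singleton_self L, by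
      rw [(Finset.mem_filter.1 hr).2]⟩) ⌊x / log p⌋₊ (fun r hr => by
      apply Nat.le_floor
      rw [le_div_iff₀ (by linarith)]
      exact h r (hTS hr) (Finset.mem_filter.1 hr).2)
  rw [Finset.card_singleton, one_mul] at h1
  have h2 : (5 : ℝ) * ∑ r ∈ T, (κ r : ℝ) ≤ 16 * (⌊x / log p⌋₊ : ℝ) := by exact_mod_cast h1
  have h3 : (⌊x / log p⌋₊ : ℝ) ≤ x / log p := Nat.floor_le (by positivity)
  have h4 : (x / log p) * log p = x := by field_simp
  rw [← Finset.sum_mul]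
  nlinarith

/-- (A) the components with a large prime -/
theorem sum_large (hp : p.Prime) (hp2 : p ≠ 2) (F : Fam1 p S a s κ) {A D : ℝ} (hA : 0 < A)
    (hD : 3 ≤ D) (hw : ∀ r ∈ S, 33 / 20 * (κ r * log p) ≤ D)
    (hlarge : ∀ r ∈ S, A * (κ r * log p) ^ 2 * log D / D < log r) :
    ∑ r ∈ S, (κ r : ℝ) * log p ≤ 11 * D / A := by
  classical
  have hlD : 1 ≤ log D := by
    rw [le_log_iff_exp_le (by linarith)]
    have h4 : exp 1 < 2.7182818286 := exp_one_lt_d9
    linarith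
  have hD0 : 0 < D := by linarith
  have hp0 : 0 < log (p : ℝ) := by
    apply log_pos
    exact_mod_cast hp.one_lt
  set n : ℕ := ⌊D⌋₊ with hn
  have hLn : ∀ r ∈ S, a r + 1 ∈ Finset.Icc 3 n := by
    intro r hr
    rw [Finset.mem_Icc]
    refine ⟨by have := F.two_le hr; omega, ?_⟩
    apply Nat.le_floor
    have h1 := size hp F hr
    have h2 := one_le_log F hr
    have h3 := hw r hr
    push_cast
    have h4 : (0 : ℝ) ≤ (a r : ℝ) + 1 := by positivity
    nlinarith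
  have hkey : ∀ L ∈ Finset.Icc 3 n, ∑ r ∈ S.filter (fun r => a r + 1 = L), (κ r : ℝ) * log p ≤
      (16 / 5 * (33 / 20)) * (D / (A * log D)) * (L : ℝ)⁻¹ := by
    intro L hL
    rw [Finset.mem_Icc] at hL
    have hL0 : (0 : ℝ) < L := by exact_mod_cast (by omega : 0 < L)
    have h1 := sum_order hp hp2 F hL.1 (x := 33 / 20 * (D / (A * log D)) * (L : ℝ)⁻¹)
      (by positivity) (by
      intro r hr hrL
      have h2 := size hp F hr
      have h3 := hlarge r hr
      have hκ : (1 : ℝ) ≤ κ r := by exact_mod_cast kappa_one F hr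
      set w : ℝ := κ r * log p with hw'
      have hw0 : 0 < w := by positivity
      have h5 : ((a r : ℝ) + 1) = L := by exact_mod_cast hrL
      rw [h5] at h2
      have h6 : (L : ℝ) * (A * w ^ 2 * log D / D) ≤ 33 / 20 * w :=
        (mul_le_mul_of_nonneg_left h3.le hL0.le).trans h2
      have h7 : (L : ℝ) * (A * w ^ 2 * log D / D) = (L * A * w * log D / D) * w := by
        ring
      rw [h7] at h6
      have h8 := le_of_mul_le_mul_right h6 hw0
      rw [div_le_iff₀ hD0] at h8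
      have h9 : 33 / 20 * (D / (A * log D)) * (L : ℝ)⁻¹ = 33 / 20 * D / (L * A * log D) := by
        field_simp
      rw [h9, le_div_iff₀ (by positivity)]
      linarith)
    calc _ ≤ _ := h1
      _ = _ := by ring
  have hmaps : ∀ r ∈ S, a r + 1 ∈ Finset.Icc 3 n := hLn
  rw [← Finset.sum_fiberwise_of_maps_to hmaps]
  refine (Finset.sum_le_sum hkey).trans ?_
  rw [← Finset.mul_sum]
  have hharm : ∑ L ∈ Finset.Icc 3 n, (L : ℝ)⁻¹ ≤ 1 + log D := by
    have h1 : ∑ L ∈ Finset.Icc 3 n, (L : ℝ)⁻¹ ≤ ∑ L ∈ Finset.Icc 1 n, (L : ℝ)⁻¹ := by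
      apply Finset.sum_le_sum_of_subset_of_nonneg
      · apply Finset.Icc_subset_Icc_left
        norm_num
      · intro i _ _
        positivity
    have h2 := harmonic_le_one_add_log n
    rw [harmonic_eq_sum_Icc] at h2
    push_cast at h2
    have h3 : log (n : ℝ) ≤ log D := by
      have h4 : (n : ℝ) ≤ D := Nat.floor_le hD0.le
      have h5 : 1 ≤ n := by
        apply Nat.le_floor
        push_cast
        linarith
      exact log_le_log (by exact_mod_cast h5) h4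
    linarith
  calc (16 / 5 * (33 / 20)) * (D / (A * log D)) * ∑ L ∈ Finset.Icc 3 n, (L : ℝ)⁻¹
      ≤ (16 / 5 * (33 / 20)) * (D / (A * log D)) * (2 * log D) := by
        apply mul_le_mul_of_nonneg_left _ (by positivity)
        linarith
    _ = (16 / 5 * (33 / 20)) * 2 * D / A := by field_simp
    _ ≤ 11 * D / A := by
        apply div_le_div_of_nonneg_right _ hA.le
        nlinarith

/-- (B) at most one component for each `κ` -/
theorem sum_inj (hp : p.Prime) (F : Fam1 p S a s κ) {X : ℝ} (hX0 : 0 ≤ X)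
    (hX : ∀ r ∈ S, κ r * log p ≤ X) (hinj : Set.InjOn κ S) :
    ∑ r ∈ S, (κ r : ℝ) * log p ≤ X ^ 2 / log p := by
  have hp0 : 0 < log (p : ℝ) := by
    apply log_pos
    exact_mod_cast hp.one_lt
  set J : ℕ := ⌊X / log p⌋₊ with hJ
  have hκJ : ∀ r ∈ S, κ r ≤ J := by
    intro r hr
    apply Nat.le_floor
    rw [le_div_iff₀ hp0]
    exact hX r hr
  have hcard : S.card ≤ J := by
    have h1 : S.card = (S.image κ).card := (Finset.card_image_of_injOn hinj).symm
    have h2 : S.image κ ⊆ Finset.Icc 1 J := by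
      intro x hx
      rw [Finset.mem_image] at hx
      obtain ⟨r, hr, rfl⟩ := hx
      rw [Finset.mem_Icc]
      exact ⟨kappa_one F hr, hκJ r hr⟩
    have h3 := Finset.card_le_card h2
    rw [Nat.card_Icc] at h3
    omega
  have hJX : (J : ℝ) * log p ≤ X := by
    have h1 : (J : ℝ) ≤ X / log p := Nat.floor_le (by positivity)
    rwa [le_div_iff₀ hp0] at h1
  have h4 : ∑ r ∈ S, (κ r : ℝ) * log p ≤ ∑ _r ∈ S, X := Finset.sum_le_sum hX
  rw [Finset.sum_const, nsmul_eq_mul] at h4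
  rw [le_div_iff₀ hp0]
  have h5 : (S.card : ℝ) ≤ J := by exact_mod_cast hcard
  calc (∑ r ∈ S, (κ r : ℝ) * log p) * log p ≤ (S.card * X) * log p :=
        mul_le_mul_of_nonneg_right h4 hp0.le
    _ = (S.card * log p) * X := by ring
    _ ≤ (J * log p) * X := by
        apply mul_le_mul_of_nonneg_right _ hX0
        exact mul_le_mul_of_nonneg_right h5 hp0.le
    _ ≤ X * X := mul_le_mul_of_nonneg_right hJX hX0
    _ = X ^ 2 := by ring

end

end Pool.Agent.Lib.MP_f02ea4_nt.BK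
end
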