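import Mathlib

section

/-!
A lower bound for sums over pairs of distinct primes.
-/

set_option autoImplicit false

namespace Pool.Agent.Lib.MP_f02ea4_nt.IP

open Finset Real

private lemma LB_large : ∃ n₀ : ℕ, ∀ (R : Finset ℕ) (l : ℕ → ℕ), n₀ ≤ R.card →
    (∀ r ∈ R, 3 ≤ r) → (∀ r ∈ R, (l r).Prime) → Set.InjOn l R →
    (1 / 128 : ℝ) * ((R.card : ℝ) * log R.card) ^ 2 ≤ ∑ r ∈ R, ((l r : ℝ) - 1) * log r := by
  classical
  have h1 := Chebyshev.eventually_primeCounting_le (ε := 1) one_pos
  obtain ⟨x0, hx0⟩ := Filter.eventually_atTop.mp h1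
  refine ⟨⌈max x0 (exp 16)⌉₊ + 16, ?_⟩
  intro R l hcard hr3 hlp hinj
  set n : ℕ := R.card with hn
  have hnr : max x0 (exp 16) ≤ n := by
    refine (Nat.le_ceil _).trans ?_
    exact_mod_cast (by omega : ⌈max x0 (exp 16)⌉₊ ≤ n)
  have hn16 : 16 ≤ n := by omega
  have hn16r : (16 : ℝ) ≤ n := by exact_mod_cast hn16
  have hx0n : x0 ≤ n := (le_max_left _ _).trans hnr
  have hlogn : 16 ≤ log (n : ℝ) := by
    rw [le_log_iff_exp_le (by linarith)]
    exact (le_max_right _ _).trans hnr
  set y : ℝ := (n : ℝ) * (log n / 16) with hy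
  have hyn : (n : ℝ) ≤ y := by
    rw [hy]
    have : (1 : ℝ) ≤ log n / 16 := by linarith
    nlinarith
  have hpi := hx0 y (hx0n.trans hyn)
  have hlogy : log (n : ℝ) ≤ log y := log_le_log (by linarith) hyn
  have hlog4 : log 4 + 1 ≤ 4 := by
    have h8 : log (4 : ℝ) = 2 * log 2 := by
      rw [show (4 : ℝ) = 2 ^ (2 : ℕ) by norm_num, log_pow]; norm_num
    have := log_two_lt_d9
    linarith
  have hpi2 : (Nat.primeCounting ⌊y⌋₊ : ℝ) ≤ n / 4 := by
    refine hpi.trans ?_
    rw [div_le_iff₀ (by linarith)]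
    calc (log 4 + 1) * y ≤ 4 * y := mul_le_mul_of_nonneg_right hlog4 (by linarith)
      _ = n / 4 * log n := by rw [hy]; ring
      _ ≤ n / 4 * log y := mul_le_mul_of_nonneg_left hlogy (by positivity)
  -- the exceptional sets
  set A1 := R.filter (fun r => l r ≤ ⌊y⌋₊) with hA1
  set A2 := R.filter (fun r => r * r ≤ n) with hA2
  have hc1 : (A1.card : ℝ) ≤ n / 4 := by
    refine le_trans ?_ hpi2
    have h2 : A1.card ≤ Nat.primeCounting ⌊y⌋₊ := by
      rw [Nat.primeCounting, Nat.primeCounting', Nat.count_eq_card_filter_range]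
      apply Finset.card_le_card_of_injOn l
      · intro r hr
        have h3 := Finset.mem_filter.1 hr
        have h5 : l r < ⌊y⌋₊ + 1 := by have := h3.2; omega
        exact Finset.mem_filter.2 ⟨Finset.mem_range.2 h5, hlp r h3.1⟩
      · intro r hr s hs h
        exact hinj (Finset.mem_filter.1 hr).1 (Finset.mem_filter.1 hs).1 h
    exact_mod_cast h2
  have hc2 : (A2.card : ℝ) ≤ n / 4 := by
    have h2 : A2.card ≤ Nat.sqrt n := by
      have h3 : A2 ⊆ Finset.Icc 1 (Nat.sqrt n) := by
        intro r hr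
        have h4 := Finset.mem_filter.1 hr
        rw [Finset.mem_Icc]
        refine ⟨by have := hr3 r h4.1; omega, ?_⟩
        exact Nat.le_sqrt.2 h4.2
      have h4 := Finset.card_le_card h3
      rwa [Nat.card_Icc, Nat.add_sub_cancel] at h4
    have h3 : Nat.sqrt n * Nat.sqrt n ≤ n := Nat.sqrt_le n
    have h4 : 4 * Nat.sqrt n ≤ n := by
      by_contra hcon
      push Not at hcon
      have h5 : Nat.sqrt n < 4 := by nlinarith
      omega
    have h5 : 4 * A2.card ≤ n := by omega
    have h6 : (4 : ℝ) * A2.card ≤ n := by exact_mod_cast h5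
    linarith
  set G := R.filter (fun r => ¬ l r ≤ ⌊y⌋₊ ∧ ¬ r * r ≤ n) with hG
  have hGc : (n : ℝ) / 2 ≤ G.card := by
    have h2 : R ⊆ G ∪ (A1 ∪ A2) := by
      intro r hr
      rw [Finset.mem_union, Finset.mem_union]
      by_cases h3 : l r ≤ ⌊y⌋₊
      · exact Or.inr (Or.inl (Finset.mem_filter.2 ⟨hr, h3⟩))
      · by_cases h4 : r * r ≤ n
        · exact Or.inr (Or.inr (Finset.mem_filter.2 ⟨hr, h4⟩))
        · exact Or.inl (Finset.mem_filter.2 ⟨hr, h3, h4⟩)
    have h3 := Finset.card_le_card h2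
    have h4 := Finset.card_union_le G (A1 ∪ A2)
    have h5 := Finset.card_union_le A1 A2
    have h6 : n ≤ G.card + (A1.card + A2.card) := by omega
    have h7 : (n : ℝ) ≤ G.card + (A1.card + A2.card) := by exact_mod_cast h6
    linarith
  have hterm : ∀ r ∈ G, y / 2 * (log n / 2) ≤ ((l r : ℝ) - 1) * log r := by
    intro r hr
    obtain ⟨hrR, h2, h3⟩ := Finset.mem_filter.1 hr
    have h4 : y < l r := (Nat.floor_lt (by linarith)).1 (not_le.1 h2)
    have h5 : (n : ℝ) ≤ r * r := by exact_mod_cast (not_le.1 h3).le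
    have hr0 : (3 : ℝ) ≤ r := by exact_mod_cast hr3 r hrR
    have h6 : log (n : ℝ) ≤ 2 * log r := by
      have h7 := log_le_log (by linarith) h5
      rw [log_mul (by linarith) (by linarith)] at h7
      linarith
    exact mul_le_mul (by linarith) (by linarith) (by linarith) (by linarith)
  have hnonneg : ∀ r ∈ R, 0 ≤ ((l r : ℝ) - 1) * log r := by
    intro r hr
    have h2 : (1 : ℝ) ≤ l r := by exact_mod_cast (hlp r hr).one_lt.le
    exact mul_nonneg (by linarith) (log_natCast_nonneg r)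
  calc (1 / 128 : ℝ) * ((n : ℝ) * log n) ^ 2 = (n : ℝ) / 2 * (y / 2 * (log n / 2)) := by
        rw [hy]; ring
    _ ≤ G.card * (y / 2 * (log n / 2)) := by
        apply mul_le_mul_of_nonneg_right hGc
        have : (0 : ℝ) ≤ y := by linarith
        positivity
    _ = ∑ _r ∈ G, y / 2 * (log n / 2) := by rw [Finset.sum_const, nsmul_eq_mul]
    _ ≤ ∑ r ∈ G, ((l r : ℝ) - 1) * log r := Finset.sum_le_sum hterm
    _ ≤ ∑ r ∈ R, ((l r : ℝ) - 1) * log r :=
        Finset.sum_le_sum_of_subset_of_nonneg (Finset.filter_subset _ _)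
          (fun r hr _ => hnonneg r hr)

/-- A lower bound for sums over pairs of distinct odd primes. -/
theorem LB : ∃ c₀ : ℝ, 0 < c₀ ∧ ∀ (R : Finset ℕ) (l : ℕ → ℕ),
    (∀ r ∈ R, 3 ≤ r) → (∀ r ∈ R, (l r).Prime) → (∀ r ∈ R, 3 ≤ l r) → Set.InjOn l R →
    c₀ * ((R.card : ℝ) * log R.card) ^ 2 ≤ ∑ r ∈ R, ((l r : ℝ) - 1) * log r := by
  obtain ⟨n₀, hn₀⟩ := LB_large
  set B : ℝ := ((n₀ : ℝ) * log n₀) ^ 2 + 1 with hB
  have hB0 : 0 < B := by positivity
  refine ⟨min (1 / 128) (1 / B), lt_min (by norm_num) (by positivity), ?_⟩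
  intro R l hr3 hlp hl3 hinj
  have hsq : 0 ≤ ((R.card : ℝ) * log R.card) ^ 2 := sq_nonneg _
  rcases Nat.lt_or_ge R.card n₀ with h | h
  · rcases R.eq_empty_or_nonempty with hR | ⟨r, hr⟩
    · rw [hR]; simp
    · have hc1 : 1 ≤ R.card := Finset.card_pos.2 ⟨r, hr⟩
      have h1 : (1 : ℝ) ≤ ∑ r ∈ R, ((l r : ℝ) - 1) * log r := by
        have hr3' : (3 : ℝ) ≤ r := by exact_mod_cast hr3 r hr
        have hl3' : (3 : ℝ) ≤ l r := by exact_mod_cast hl3 r hr
        have he : exp 1 < (2.7182818286 : ℝ) := exp_one_lt_d9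
        have h2 : 1 ≤ log (r : ℝ) := by
          rw [le_log_iff_exp_le (by linarith)]
          linarith
        have h3 : (1 : ℝ) ≤ ((l r : ℝ) - 1) * log r := by nlinarith
        refine h3.trans (Finset.single_le_sum (f := fun r => ((l r : ℝ) - 1) * log r) ?_ hr)
        intro s hs
        have h2 : (1 : ℝ) ≤ l s := by exact_mod_cast (hlp s hs).one_lt.le
        exact mul_nonneg (by linarith) (log_natCast_nonneg s)
      refine le_trans ?_ h1
      have h2 : (R.card : ℝ) * log R.card ≤ n₀ * log n₀ := by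
        have h3 : (1 : ℝ) ≤ R.card := by exact_mod_cast hc1
        have h4 : (R.card : ℝ) ≤ n₀ := by exact_mod_cast h.le
        exact mul_le_mul h4 (log_le_log (by linarith) h4) (log_nonneg h3) (by linarith)
      have h3 : 0 ≤ (R.card : ℝ) * log R.card := by
        have := log_natCast_nonneg R.card
        positivity
      have h4 : ((R.card : ℝ) * log R.card) ^ 2 ≤ B := by
        rw [hB]
        have := pow_le_pow_left₀ h3 h2 2
        linarith
      calc min (1 / 128) (1 / B) * ((R.card : ℝ) * log R.card) ^ 2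
          ≤ 1 / B * ((R.card : ℝ) * log R.card) ^ 2 :=
            mul_le_mul_of_nonneg_right (min_le_right _ _) hsq
        _ ≤ 1 / B * B := mul_le_mul_of_nonneg_left h4 (by positivity)
        _ = 1 := by field_simp
  · refine le_trans ?_ (hn₀ R l h hr3 hlp hinj)
    exact mul_le_mul_of_nonneg_right (min_le_left _ _) hsq

end Pool.Agent.Lib.MP_f02ea4_nt.IP
end

section

set_option autoImplicit false

/-!
# Heath-Brown's product lemma, with bounds for the partial products
-/

namespace Pool.Agent.Lib.MP_f02ea4_nt.HB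

open Finset

/-- Concavity of `u ↦ log (1 - exp (-u))`, in terms of `x = exp u`. -/
lemma basic {x y : ℝ} (hx : 1 < x) (hy : 1 < y) :
    1 / (x - 1) * (Real.log x - Real.log y) ≤ Real.log (1 - 1 / x) - Real.log (1 - 1 / y) := by
  have hx0 : 0 < x := by linarith
  have hy0 : 0 < y := by linarith
  have hx1 : 0 < x - 1 := by linarith
  have hy1 : 0 < y - 1 := by linarith
  have e1 : 1 - 1 / x = (x - 1) / x := by field_simp
  have e2 : 1 - 1 / y = (y - 1) / y := by field_simp
  have h1 := Real.log_le_sub_one_of_pos (x := ((y - 1) / y) / ((x - 1) / x)) (by positivity)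
  have h2 := Real.log_le_sub_one_of_pos (x := x / y) (by positivity)
  rw [Real.log_div (by positivity) (by positivity)] at h1 h2
  rw [e1, e2]
  have h3 : (x - 1) * (((y - 1) / y) / ((x - 1) / x) - 1) + (x / y - 1) = 0 := by
    field_simp
    ring
  have h4 : (x - 1) * (Real.log ((y - 1) / y) - Real.log ((x - 1) / x)) ≤
      (x - 1) * (((y - 1) / y) / ((x - 1) / x) - 1) := mul_le_mul_of_nonneg_left h1 hx1.le
  have h5 : Real.log x - Real.log y ≤
      (x - 1) * (Real.log ((x - 1) / x) - Real.log ((y - 1) / y)) := by linarith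
  rw [one_div, inv_mul_le_iff₀ hx1]
  exact h5

/-- Abel summation. -/
lemma abel (n : ℕ) (c d : ℕ → ℝ) (hc : ∀ i < n, c (i + 1) ≤ c i)
    (hS : ∀ i ≤ n + 1, 0 ≤ ∑ l ∈ range i, d l) :
    c n * ∑ l ∈ range (n + 1), d l ≤ ∑ l ∈ range (n + 1), c l * d l := by
  induction n with
  | zero => simp
  | succ n ih =>
    have h1 := ih (fun i hi => hc i (by omega)) (fun i hi => hS i (by omega))
    rw [Finset.sum_range_succ, Finset.sum_range_succ (fun l => c l * d l)]
    have h2 := hc n (by omega)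
    have h3 := hS (n + 1) (by omega)
    nlinarith [mul_le_mul_of_nonneg_right h2 h3]

/-- Comparison of `∏ (1 - 1/x)` for a sequence whose partial products dominate. -/
lemma major (n : ℕ) (x y : ℕ → ℝ) (hx : ∀ i ≤ n, 1 < x i) (hmono : ∀ i < n, x i ≤ x (i + 1))
    (hy : ∀ i ≤ n, 1 < y i)
    (hS : ∀ i ≤ n + 1, 0 ≤ ∑ l ∈ range i, (Real.log (x l) - Real.log (y l))) :
    1 / (x n - 1) * ∑ l ∈ range (n + 1), (Real.log (x l) - Real.log (y l)) ≤
      ∑ l ∈ range (n + 1), (Real.log (1 - 1 / x l) - Real.log (1 - 1 / y l)) := by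
  refine le_trans (abel n (fun l => 1 / (x l - 1)) _ ?_ hS) ?_
  · intro i hi
    have h1 := hx i (by omega)
    have h2 := hmono i hi
    exact one_div_le_one_div_of_le (by linarith) (by linarith)
  · apply Finset.sum_le_sum
    intro l hl
    have hl' : l ≤ n := by
      have := Finset.mem_range.1 hl
      omega
    exact basic (hx l hl') (hy l hl')

lemma log_sub_ge {x : ℝ} (hx : 1 < x) : -(1 / (x - 1)) ≤ Real.log (1 - 1 / x) := by
  have hx0 : 0 < x := by linarith
  have hx1 : 0 < x - 1 := by linarith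
  have e1 : 1 - 1 / x = (x - 1) / x := by field_simp
  have h2 := Real.log_le_sub_one_of_pos (x := x / (x - 1)) (by positivity)
  have e2 : Real.log ((x - 1) / x) = - Real.log (x / (x - 1)) := by
    rw [← Real.log_inv, inv_div]
  have e3 : x / (x - 1) - 1 = 1 / (x - 1) := by field_simp; ring
  rw [e1, e2]
  linarith

/-- `(a+1)^(2^j)` -/
def G (a j : ℕ) : ℕ := (a + 1) ^ (2 ^ j)

lemma G_zero (a : ℕ) : G a 0 = a + 1 := by simp [G]

lemma G_succ (a j : ℕ) : G a (j + 1) = G a j ^ 2 := by
  unfold G; rw [pow_succ, pow_mul]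

lemma G_ge {a : ℕ} (ha : 0 < a) (j : ℕ) : 2 ≤ G a j := by
  induction j with
  | zero => rw [G_zero]; omega
  | succ j ih => rw [G_succ]; nlinarith

/-- **Heath-Brown's lemma**, with bounds for the partial products. -/
theorem hb {a b m : ℕ} (x : ℕ → ℕ) (ha : 0 < a) (hb : 0 < b) (hx : ∀ i < m, 2 ≤ x i)
    (hmono : ∀ i, i + 1 < m → x i ≤ x (i + 1))
    (H1 : b * ∏ l ∈ range m, (x l - 1) ≤ a * ∏ l ∈ range m, x l)
    (H2 : ∀ i < m, a * ∏ l ∈ range i, x l < b * ∏ l ∈ range i, (x l - 1))
    {j : ℕ} (hj : j ≤ m) :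
    (a : ℝ) * ∏ l ∈ range j, (x l : ℝ) < Real.exp ((m : ℝ) - j) * (G a j : ℝ) := by
  by_contra hcon
  push Not at hcon
  have hj0 : 1 ≤ j := by
    by_contra h0
    have hj1 : j = 0 := by omega
    subst hj1
    rw [G_zero] at hcon
    have h1 : (1 : ℝ) ≤ Real.exp ((m : ℝ) - 0) := by
      apply Real.one_le_exp; simp
    simp only [Finset.range_zero, Finset.prod_empty, mul_one] at hcon
    push_cast at hcon
    have h2 : (0 : ℝ) ≤ a := by positivity
    nlinarith
  -- the partial products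
  set A : ℕ → ℕ := fun i => a * ∏ l ∈ range i, x l with hA
  have hApos : ∀ i ≤ m, 0 < A i := by
    intro i hi
    apply Nat.mul_pos ha
    apply Finset.prod_pos
    intro l hl
    have := hx l (by have := Finset.mem_range.1 hl; omega)
    omega
  -- the largest i0 < j with A i0 + 1 ≤ G i0
  obtain ⟨i0, hi0, hi0G, hi0max⟩ : ∃ i0 < j, A i0 + 1 ≤ G a i0 ∧
      ∀ i, i0 < i → i < j → G a i ≤ A i := by
    have hne : ((range j).filter (fun i => A i + 1 ≤ G a i)).Nonempty := by
      refine ⟨0, Finset.mem_filter.2 ⟨Finset.mem_range.2 (by omega), ?_⟩⟩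
      rw [G_zero]; simp [hA]
    refine ⟨((range j).filter (fun i => A i + 1 ≤ G a i)).max' hne, ?_, ?_, ?_⟩
    · have := Finset.max'_mem _ hne
      exact Finset.mem_range.1 (Finset.mem_filter.1 this).1
    · have := Finset.max'_mem _ hne
      exact (Finset.mem_filter.1 this).2
    · intro i h1 h2
      by_contra h3
      push Not at h3
      have h4 : i ∈ (range j).filter (fun i => A i + 1 ≤ G a i) :=
        Finset.mem_filter.2 ⟨Finset.mem_range.2 h2, by omega⟩
      have := Finset.le_max' _ i h4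
      omega
  obtain ⟨n, hn⟩ : ∃ n, j = i0 + n + 1 := ⟨j - i0 - 1, by omega⟩
  -- real logarithms
  have hxR : ∀ i < m, (1 : ℝ) < x i := by
    intro i hi
    have := hx i hi
    exact_mod_cast (by omega : 1 < x i)
  have hlogA : ∀ i ≤ m, Real.log (A i : ℝ) = Real.log a + ∑ l ∈ range i, Real.log (x l) := by
    intro i hi
    have h1 : ((A i : ℕ) : ℝ) = (a : ℝ) * ∏ l ∈ range i, (x l : ℝ) := by
      simp [hA]
    rw [h1, Real.log_mul (by positivity), Real.log_prod]
    · intro l hl
      have := hxR l (by have := Finset.mem_range.1 hl; omega)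
      positivity
    · apply Finset.prod_ne_zero_iff.2
      intro l hl
      have := hxR l (by have := Finset.mem_range.1 hl; omega)
      positivity
  -- P i = ∏ (1 - 1/x)
  have hlogP : ∀ i ≤ m, Real.log ((∏ l ∈ range i, (x l - 1) : ℕ) : ℝ) =
      ∑ l ∈ range i, (Real.log (x l) + Real.log (1 - 1 / x l)) := by
    intro i hi
    rw [Nat.cast_prod, Real.log_prod]
    · apply Finset.sum_congr rfl
      intro l hl
      have h1 := hxR l (by have := Finset.mem_range.1 hl; omega)
      have h2 := hx l (by have := Finset.mem_range.1 hl; omega)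
      rw [Nat.cast_sub (by omega), Nat.cast_one, ← Real.log_mul (by positivity)]
      · congr 1
        field_simp
      · have : 1 / (x l : ℝ) < 1 := by
          rw [div_lt_one (by linarith)]; exact h1
        linarith
    · intro l hl
      have h2 := hx l (by have := Finset.mem_range.1 hl; omega)
      have : 0 < x l - 1 := by omega
      positivity
  have hbR : (0 : ℝ) < b := by exact_mod_cast hb
  have haR : (0 : ℝ) < a := by exact_mod_cast ha
  have hprodpos : ∀ i ≤ m, 0 < ∏ l ∈ range i, (x l - 1) := by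
    intro i hi
    apply Finset.prod_pos
    intro l hl
    have h2 := hx l (by have := Finset.mem_range.1 hl; omega)
    omega
  -- H1 in log form
  have L1 : Real.log b + ∑ l ∈ range m, Real.log (1 - 1 / (x l : ℝ)) ≤ Real.log a := by
    have h1 : ((b * ∏ l ∈ range m, (x l - 1) : ℕ) : ℝ) ≤ (A m : ℝ) := by exact_mod_cast H1
    have h2 := Real.log_le_log (by
      have := hprodpos m le_rfl
      have : 0 < b * ∏ l ∈ range m, (x l - 1) := by positivity
      exact_mod_cast this) h1
    rw [Nat.cast_mul, Real.log_mul (by positivity) (by have := hprodpos m le_rfl; positivity),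
      hlogP m le_rfl, hlogA m le_rfl, Finset.sum_add_distrib] at h2
    linarith
  -- H2 at i0 in log form
  have L2 : Real.log ((A i0 : ℝ) + 1) ≤ Real.log b +
      ∑ l ∈ range i0, (Real.log (x l) + Real.log (1 - 1 / (x l : ℝ))) := by
    have h1 := H2 i0 (by omega)
    have h2 : ((A i0 : ℝ) + 1) ≤ ((b * ∏ l ∈ range i0, (x l - 1) : ℕ) : ℝ) := by
      exact_mod_cast h1
    have h3 := Real.log_le_log (by positivity) h2
    have e : ((b * ∏ l ∈ range i0, (x l - 1) : ℕ) : ℝ) =
      (b : ℝ) * ((∏ l ∈ range i0, (x l - 1) : ℕ) : ℝ) := Nat.cast_mul _ _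
    rw [e, Real.log_mul (by positivity)
      (by have := hprodpos i0 (by omega); positivity), hlogP i0 (by omega)] at h3
    exact h3
  -- the comparison sequence
  have hG2 : ∀ i, (2 : ℝ) ≤ (G a i : ℝ) := by
    intro i; exact_mod_cast G_ge ha i
  have hGs : ∀ i, ((G a (i + 1) : ℕ) : ℝ) = (G a i : ℝ) ^ 2 := by
    intro i; rw [G_succ]; push_cast; ring
  have hysum : ∀ i, ∑ l ∈ range i, Real.log ((G a (i0 + l) : ℝ) + 1) =
      Real.log ((G a (i0 + i) : ℝ) - 1) - Real.log ((G a i0 : ℝ) - 1) := by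
    intro i
    induction i with
    | zero => simp
    | succ i ih =>
      rw [Finset.sum_range_succ, ih, ← add_assoc, hGs]
      have h2 := hG2 (i0 + i)
      have h3 := hG2 i0
      have e : (G a (i0 + i) : ℝ) ^ 2 - 1 = ((G a (i0 + i) : ℝ) - 1) * ((G a (i0 + i) : ℝ) + 1) := by
        ring
      rw [e, Real.log_mul (by linarith) (by linarith)]
      ring
  have hysum2 : ∀ i, ∑ l ∈ range i, Real.log (1 - 1 / ((G a (i0 + l) : ℝ) + 1)) =
      Real.log (1 - 1 / (G a i0 : ℝ)) - Real.log (1 - 1 / (G a (i0 + i) : ℝ)) := by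
    intro i
    induction i with
    | zero => simp
    | succ i ih =>
      rw [Finset.sum_range_succ, ih, ← add_assoc, hGs]
      have h2 := hG2 (i0 + i)
      have h3 := hG2 i0
      have e1 : 1 - 1 / ((G a (i0 + i) : ℝ) + 1) = (G a (i0 + i) : ℝ) / ((G a (i0 + i) : ℝ) + 1) := by
        field_simp; ring
      have e2 : 1 - 1 / (G a (i0 + i) : ℝ) = ((G a (i0 + i) : ℝ) - 1) / (G a (i0 + i) : ℝ) := by
        field_simp
      have e3 : 1 - 1 / (G a (i0 + i) : ℝ) ^ 2 =
          (((G a (i0 + i) : ℝ) - 1) / (G a (i0 + i) : ℝ)) *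
          (((G a (i0 + i) : ℝ) + 1) / (G a (i0 + i) : ℝ)) := by
        field_simp; ring
      have hpos : (0 : ℝ) < (G a (i0 + i) : ℝ) - 1 := by linarith
      have hpos2 : (0 : ℝ) < (G a (i0 + i) : ℝ) := by linarith
      rw [e1, e2, e3, Real.log_mul (by positivity) (by positivity),
        Real.log_div hpos.ne' hpos2.ne', Real.log_div (x := (G a (i0 + i) : ℝ) + 1)
          (by positivity) hpos2.ne', Real.log_div (x := (G a (i0 + i) : ℝ)) hpos2.ne'
          (by positivity)]
      ring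
  have hlogAi0 : Real.log (A i0 : ℝ) ≤ Real.log ((G a i0 : ℝ) - 1) := by
    apply Real.log_le_log (by exact_mod_cast hApos i0 (by omega))
    have : ((A i0 : ℝ) + 1) ≤ (G a i0 : ℝ) := by exact_mod_cast hi0G
    linarith
  -- domination of the partial products
  have hlogsum : ∀ i ≤ n + 1, ∑ l ∈ range i, Real.log (x (i0 + l) : ℝ) =
      Real.log (A (i0 + i)) - Real.log (A i0) := by
    intro i hi
    rw [hlogA (i0 + i) (by omega), hlogA i0 (by omega), Finset.sum_range_add]
    ring
  have hlam : Real.log ((G a j : ℝ)) + ((m : ℝ) - j) ≤ Real.log (A j : ℝ) := by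
    have h1 : Real.exp ((m : ℝ) - j) * (G a j : ℝ) ≤ (A j : ℝ) := by
      have : ((A j : ℕ) : ℝ) = (a : ℝ) * ∏ l ∈ range j, (x l : ℝ) := by simp [hA]
      rw [this]; exact hcon
    have h2 := Real.log_le_log (by have := hG2 j; positivity) h1
    rw [Real.log_mul (by positivity) (by have := hG2 j; positivity), Real.log_exp] at h2
    linarith
  have hmj : (0 : ℝ) ≤ (m : ℝ) - j := by
    have : (j : ℝ) ≤ m := by exact_mod_cast hj
    linarith
  have hGlogsub : ∀ i, Real.log ((G a i : ℝ) - 1) ≤ Real.log (G a i : ℝ) := by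
    intro i
    have := hG2 i
    exact Real.log_le_log (by linarith) (by linarith)
  have hSS : ∀ i ≤ n + 1, 0 ≤ ∑ l ∈ range i,
      (Real.log (x (i0 + l) : ℝ) - Real.log ((G a (i0 + l) : ℝ) + 1)) := by
    intro i hi
    rw [Finset.sum_sub_distrib, hlogsum i hi, hysum i]
    rcases Nat.eq_zero_or_pos i with h0 | h0
    · subst h0; simp
    · have h1 : Real.log (G a (i0 + i) : ℝ) ≤ Real.log (A (i0 + i)) := by
        rcases Nat.lt_or_ge (i0 + i) j with h2 | h2
        · have h3 := hi0max (i0 + i) (by omega) h2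
          apply Real.log_le_log (by have := hG2 (i0 + i); positivity)
          exact_mod_cast h3
        · have h3 : i0 + i = j := by omega
          rw [h3]; linarith
      have := hGlogsub (i0 + i)
      linarith
  have hmaj := major n (fun l => (x (i0 + l) : ℝ)) (fun l => (G a (i0 + l) : ℝ) + 1)
    (fun i hi => hxR (i0 + i) (by omega))
    (fun i hi => by
      have := hmono (i0 + i) (by omega)
      exact_mod_cast this)
    (fun i hi => by have := hG2 (i0 + i); linarith) hSS
  -- value of the sum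
  have hSn : (m : ℝ) - j ≤ ∑ l ∈ range (n + 1),
      (Real.log (x (i0 + l) : ℝ) - Real.log ((G a (i0 + l) : ℝ) + 1)) := by
    rw [Finset.sum_sub_distrib, hlogsum (n + 1) le_rfl, hysum (n + 1)]
    have h3 : i0 + (n + 1) = j := by omega
    rw [h3]
    have := hGlogsub j
    linarith
  have hxn : (0 : ℝ) < (x (i0 + n) : ℝ) - 1 := by
    have := hxR (i0 + n) (by omega)
    linarith
  have hmaj2 : 1 / ((x (i0 + n) : ℝ) - 1) * ((m : ℝ) - j) ≤
      ∑ l ∈ range (n + 1),
        (Real.log (1 - 1 / (x (i0 + l) : ℝ)) - Real.log (1 - 1 / ((G a (i0 + l) : ℝ) + 1))) :=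
    le_trans (mul_le_mul_of_nonneg_left hSn (by positivity)) hmaj
  rw [Finset.sum_sub_distrib, hysum2 (n + 1)] at hmaj2
  have h3 : i0 + (n + 1) = j := by omega
  rw [h3] at hmaj2
  -- the tail
  have hmonoAll : ∀ l, i0 + n ≤ l → l < m → x (i0 + n) ≤ x l := by
    intro l hl
    induction l, hl using Nat.le_induction with
    | base => intro _; exact le_rfl
    | succ l hl ih =>
      intro h
      exact le_trans (ih (by omega)) (hmono l h)
  have htail : -(1 / ((x (i0 + n) : ℝ) - 1) * ((m : ℝ) - j)) ≤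
      ∑ l ∈ range (m - j), Real.log (1 - 1 / (x (j + l) : ℝ)) := by
    have h4 : ∑ l ∈ range (m - j), (-(1 / ((x (i0 + n) : ℝ) - 1))) ≤
        ∑ l ∈ range (m - j), Real.log (1 - 1 / (x (j + l) : ℝ)) := by
      apply Finset.sum_le_sum
      intro l hl
      have hl' := Finset.mem_range.1 hl
      have h5 := log_sub_ge (hxR (j + l) (by omega))
      have h6 := hmonoAll (j + l) (by omega) (by omega)
      have h7 : 1 / ((x (j + l) : ℝ) - 1) ≤ 1 / ((x (i0 + n) : ℝ) - 1) := by
        apply one_div_le_one_div_of_le hxn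
        have : (x (i0 + n) : ℝ) ≤ x (j + l) := by exact_mod_cast h6
        linarith
      linarith
    rw [Finset.sum_const, Finset.card_range, nsmul_eq_mul, Nat.cast_sub hj] at h4
    linarith
  -- assemble
  have hsplit : ∑ l ∈ range m, Real.log (1 - 1 / (x l : ℝ)) =
      ∑ l ∈ range i0, Real.log (1 - 1 / (x l : ℝ)) +
      ∑ l ∈ range (n + 1), Real.log (1 - 1 / (x (i0 + l) : ℝ)) +
      ∑ l ∈ range (m - j), Real.log (1 - 1 / (x (j + l) : ℝ)) := by
    have e1 : m = j + (m - j) := by omega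
    conv_lhs => rw [e1]
    rw [Finset.sum_range_add]
    congr 1
    conv_lhs => rw [← h3]
    rw [Finset.sum_range_add]
  have hLA0 := hlogA i0 (by omega)
  rw [Finset.sum_add_distrib] at L2
  -- log (A i0 + 1) - log (A i0) ≥ - log (1 - 1/G i0)
  have hgap : - Real.log (1 - 1 / (G a i0 : ℝ)) ≤ Real.log ((A i0 : ℝ) + 1) - Real.log (A i0) := by
    have hA0 : (0 : ℝ) < A i0 := by exact_mod_cast hApos i0 (by omega)
    have hG0 := hG2 i0
    have hAG : ((A i0 : ℝ) + 1) ≤ (G a i0 : ℝ) := by exact_mod_cast hi0G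
    rw [← Real.log_div (by positivity) (by positivity), ← Real.log_inv]
    apply Real.log_le_log
    · have : (0 : ℝ) < 1 - 1 / (G a i0 : ℝ) := by
        have : 1 / (G a i0 : ℝ) ≤ 1 / 2 := one_div_le_one_div_of_le (by norm_num) hG0
        linarith
      positivity
    · rw [inv_le_comm₀ (by
        have : 1 / (G a i0 : ℝ) ≤ 1 / 2 := one_div_le_one_div_of_le (by norm_num) hG0
        linarith) (by positivity), inv_div, div_le_iff₀ (by positivity)]
      have hG1 : (0 : ℝ) < G a i0 := by linarith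
      have : 1 / (G a i0 : ℝ) * ((A i0 : ℝ) + 1) ≤ 1 := by
        rw [one_div, inv_mul_le_iff₀ hG1]; linarith
      nlinarith
  have hGj : Real.log (1 - 1 / (G a j : ℝ)) < 0 := by
    have hG0 := hG2 j
    have h8 : 1 / (G a j : ℝ) ≤ 1 / 2 := one_div_le_one_div_of_le (by norm_num) hG0
    apply Real.log_neg
    · linarith
    · have : 0 < 1 / (G a j : ℝ) := by positivity
      linarith
  linarith

/-- Heath-Brown's lemma. -/
theorem hb_full {a b m : ℕ} (x : ℕ → ℕ) (ha : 0 < a) (hb : 0 < b) (hx : ∀ i < m, 2 ≤ x i)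
    (hmono : ∀ i, i + 1 < m → x i ≤ x (i + 1))
    (H1 : b * ∏ l ∈ range m, (x l - 1) ≤ a * ∏ l ∈ range m, x l)
    (H2 : ∀ i < m, a * ∏ l ∈ range i, x l < b * ∏ l ∈ range i, (x l - 1)) :
    a * ∏ l ∈ range m, x l + 1 ≤ (a + 1) ^ 2 ^ m := by
  have h := HB.hb x ha hb hx hmono H1 H2 (le_refl m)
  simp only [sub_self, Real.exp_zero, one_mul] at h
  have h2 : a * ∏ l ∈ range m, x l < G a m := by exact_mod_cast h
  unfold G at h2
  omega

end Pool.Agent.Lib.MP_f02ea4_nt.HB
end
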