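import Mathlib

section

/-! Largest prime factor of an odd perfect number: T5, the determinant bound. -/

set_option autoImplicit false

namespace Pool.Agent.Lib.MP_f02ea4_nt.LP

open Finset

private lemma T5_red {n : ℕ} {W q : ℤ} {g k x r : ℕ} (h1 : (n : ℤ) ∣ W * q ^ g - 1)
    (hx : x ≤ k) : (n : ℤ) ∣ W ^ k * q ^ (g * x + r) - W ^ (k - x) * q ^ r := by
  have h2 : (n : ℤ) ∣ (W * q ^ g) ^ x - 1 := by
    have := sub_dvd_pow_sub_pow (W * q ^ g) 1 x
    rw [one_pow] at this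
    exact h1.trans this
  have h3 : W ^ k * q ^ (g * x + r) - W ^ (k - x) * q ^ r
      = W ^ (k - x) * q ^ r * ((W * q ^ g) ^ x - 1) := by
    have h4 : W ^ k = W ^ (k - x) * W ^ x := by
      rw [← pow_add]; congr 1; omega
    rw [h4, pow_add, pow_mul, mul_pow]
    ring
  rw [h3]
  exact Dvd.dvd.mul_left h2 _

private lemma T5_dvd_det {g : ℕ} {n : ℤ} (M : Matrix (Fin g) (Fin g) ℤ) (v : Fin g → ℤ)
    (i0 : Fin g) (hv : v i0 = 1) (h : ∀ i, n ∣ M.mulVec v i) : n ∣ M.det := by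
  have h1 : M.adjugate.mulVec (M.mulVec v) = M.det • v := by
    rw [Matrix.mulVec_mulVec, Matrix.adjugate_mul, Matrix.smul_mulVec, Matrix.one_mulVec]
  have h2 := congrFun h1 i0
  rw [Pi.smul_apply, hv, smul_eq_mul, mul_one] at h2
  rw [← h2, Matrix.mulVec, dotProduct]
  exact Finset.dvd_sum fun j _ => Dvd.dvd.mul_left (h j) _

private lemma T5_max {g : ℕ} (w : Fin g → ℤ) (hw : w ≠ 0) :
    ∃ i, 0 < |w i| ∧ ∀ j, |w j| ≤ |w i| := by
  obtain ⟨j0, hj0⟩ := Function.ne_iff.mp hw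
  obtain ⟨i, -, hi⟩ := Finset.exists_max_image Finset.univ (fun j => |w j|) ⟨j0, Finset.mem_univ _⟩
  refine ⟨i, lt_of_lt_of_le (abs_pos.mpr hj0) (hi j0 (Finset.mem_univ _)), fun j => hi j (Finset.mem_univ _)⟩

/-- T5 -/
theorem det_bound {g a m n : ℕ} {q W : ℤ} (hg : 1 ≤ g) (hga : g ≤ a) (hm : 1 ≤ m)
    (hW : 2 ≤ W.natAbs) (h1 : (n : ℤ) ∣ W * q ^ g - 1) (h2 : (n : ℤ) ∣ q ^ a + m * q - (m + 1)) :
    n ≤ g.factorial * ((2 * m + 2) * W.natAbs ^ ((a + g - 1) / g)) ^ g := by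
  set k := (a + g - 1) / g with hk
  have hk1 : 1 ≤ k := by
    rw [hk, Nat.le_div_iff_mul_le hg]; omega
  have hx1 : ∀ i : Fin g, 1 ≤ (a + i) / g := fun i => by
    rw [Nat.le_div_iff_mul_le hg]; omega
  have hx2 : ∀ i : Fin g, (a + i) / g ≤ k := fun i => by
    apply Nat.div_le_div_right
    have := i.2
    omega
  have hy : ∀ i : Fin g, ((i : ℕ) + 1) / g ≤ k := fun i => by
    refine le_trans ?_ hk1
    have hi := i.2
    calc ((i : ℕ) + 1) / g ≤ g / g := Nat.div_le_div_right (by omega)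
      _ = 1 := Nat.div_self hg
  let α : Fin g → Fin g := fun i => ⟨(a + i) % g, Nat.mod_lt _ hg⟩
  let β : Fin g → Fin g := fun i => ⟨((i : ℕ) + 1) % g, Nat.mod_lt _ hg⟩
  let M : Matrix (Fin g) (Fin g) ℤ := fun i j =>
    (if α i = j then W ^ (k - (a + i) / g) else 0) +
      (if β i = j then (m : ℤ) * W ^ (k - ((i : ℕ) + 1) / g) else 0) -
      (if i = j then ((m : ℤ) + 1) * W ^ k else 0)
  have hMv : ∀ (v : Fin g → ℤ) (i : Fin g), M.mulVec v i =
      W ^ (k - (a + i) / g) * v (α i) + (m : ℤ) * W ^ (k - ((i : ℕ) + 1) / g) * v (β i)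
        - ((m : ℤ) + 1) * W ^ k * v i := by
    intro v i
    simp only [Matrix.mulVec, dotProduct, M, sub_mul, add_mul, ite_mul, zero_mul,
      Finset.sum_sub_distrib, Finset.sum_add_distrib, Finset.sum_ite_eq, Finset.mem_univ, if_true]
  have hdvd : (n : ℤ) ∣ M.det := by
    refine T5_dvd_det M (fun j => q ^ (j : ℕ)) ⟨0, hg⟩ (by simp) fun i => ?_
    rw [hMv]
    have e1 := T5_red (k := k) (x := (a + i) / g) (r := (a + i) % g) h1 (hx2 i)
    have e2 := T5_red (k := k) (x := ((i : ℕ) + 1) / g) (r := ((i : ℕ) + 1) % g) h1 (hy i)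
    rw [Nat.div_add_mod] at e1 e2
    have e3 : (n : ℤ) ∣ W ^ k * q ^ (i : ℕ) * (q ^ a + m * q - (m + 1)) := Dvd.dvd.mul_left h2 _
    have e4 : W ^ (k - (a + i) / g) * q ^ ((α i : Fin g) : ℕ) +
        (m : ℤ) * W ^ (k - ((i : ℕ) + 1) / g) * q ^ ((β i : Fin g) : ℕ)
        - ((m : ℤ) + 1) * W ^ k * q ^ (i : ℕ) =
        W ^ k * q ^ (i : ℕ) * (q ^ a + m * q - (m + 1))
        - (W ^ k * q ^ (a + (i : ℕ)) - W ^ (k - (a + i) / g) * q ^ ((a + (i : ℕ)) % g))
        - m * (W ^ k * q ^ ((i : ℕ) + 1) - W ^ (k - ((i : ℕ) + 1) / g) * q ^ (((i : ℕ) + 1) % g)) := by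
      simp only [α, β]
      rw [pow_add, pow_add]
      ring
    rw [e4]
    exact dvd_sub (dvd_sub e3 e1) (Dvd.dvd.mul_left e2 _)
  have hWabs : (2 : ℤ) ≤ |W| := by
    rw [Int.abs_eq_natAbs]; exact_mod_cast hW
  have hW1 : (1 : ℤ) ≤ |W| := by linarith
  have hpow : ∀ x : ℕ, |W| ^ (k - x) ≤ |W| ^ k := fun x =>
    pow_le_pow_right₀ hW1 (Nat.sub_le _ _)
  have hdet : M.det ≠ 0 := by
    intro h0
    obtain ⟨w, hw, hMw⟩ := Matrix.exists_mulVec_eq_zero_iff.mpr h0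
    obtain ⟨i, hi0, hi⟩ := T5_max w hw
    have h3 := congrFun hMw i
    rw [hMv, Pi.zero_apply] at h3
    have h4 : |((m : ℤ) + 1) * W ^ k * w i| =
        |W ^ (k - (a + i) / g) * w (α i) + (m : ℤ) * W ^ (k - ((i : ℕ) + 1) / g) * w (β i)| := by
      congr 1; linarith
    have h5 : |W ^ (k - (a + i) / g) * w (α i) + (m : ℤ) * W ^ (k - ((i : ℕ) + 1) / g) * w (β i)|
        ≤ |W| ^ (k - 1) * |w i| + m * |W| ^ k * |w i| := by
      refine (abs_add_le _ _).trans ?_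
      rw [abs_mul, abs_mul, abs_mul, abs_pow, abs_pow, Nat.abs_cast]
      refine add_le_add ?_ ?_
      · refine mul_le_mul ?_ (hi _) (abs_nonneg _) (by positivity)
        exact pow_le_pow_right₀ hW1 (by have := hx1 i; omega)
      · refine mul_le_mul ?_ (hi _) (abs_nonneg _) (by positivity)
        exact mul_le_mul_of_nonneg_left (hpow _) (by positivity)
    rw [abs_mul, abs_mul, abs_pow] at h4
    have h6 : |((m : ℤ) + 1)| = (m : ℤ) + 1 := abs_of_nonneg (by positivity)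
    rw [h6] at h4
    have h7 : ((m : ℤ) + 1) * |W| ^ k * |w i| ≤ |W| ^ (k - 1) * |w i| + m * |W| ^ k * |w i| :=
      h4.le.trans h5
    have h8 : |W| ^ k * |w i| ≤ |W| ^ (k - 1) * |w i| := by linarith
    have h9 : |W| ^ k ≤ |W| ^ (k - 1) := le_of_mul_le_mul_right h8 hi0
    have h10 : |W| ^ k = |W| ^ (k - 1) * |W| := by
      rw [← pow_succ]; congr 1; omega
    have h11 : (0 : ℤ) < |W| ^ (k - 1) := by positivity
    nlinarith
  have hentry : ∀ i j, AbsoluteValue.abs (M i j) ≤ ((2 * m + 2) * |W| ^ k : ℤ) := by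
    intro i j
    change |M i j| ≤ _
    have f1 : |(if α i = j then W ^ (k - (a + i) / g) else 0 : ℤ)| ≤ |W| ^ k := by
      split_ifs
      · rw [abs_pow]; exact hpow _
      · rw [abs_zero]; positivity
    have f2 : |(if β i = j then (m : ℤ) * W ^ (k - ((i : ℕ) + 1) / g) else 0 : ℤ)| ≤ m * |W| ^ k := by
      split_ifs
      · rw [abs_mul, abs_pow, Nat.abs_cast]
        exact mul_le_mul_of_nonneg_left (hpow _) (by positivity)
      · rw [abs_zero]; positivity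
    have f3 : |(if i = j then ((m : ℤ) + 1) * W ^ k else 0 : ℤ)| ≤ (m + 1) * |W| ^ k := by
      split_ifs
      · rw [abs_mul, abs_pow, abs_of_nonneg (by positivity : (0 : ℤ) ≤ (m : ℤ) + 1)]
      · rw [abs_zero]; positivity
    calc |M i j| ≤ |(if α i = j then W ^ (k - (a + i) / g) else 0 : ℤ) +
          (if β i = j then (m : ℤ) * W ^ (k - ((i : ℕ) + 1) / g) else 0)| +
          |(if i = j then ((m : ℤ) + 1) * W ^ k else 0 : ℤ)| := abs_sub _ _
      _ ≤ (|W| ^ k + m * |W| ^ k) + (m + 1) * |W| ^ k :=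
          add_le_add ((abs_add_le _ _).trans (add_le_add f1 f2)) f3
      _ = (2 * m + 2) * |W| ^ k := by ring
  have hle := Matrix.det_le hentry
  rw [Fintype.card_fin] at hle
  have h12 : (n : ℤ) ≤ |M.det| := by
    refine Int.le_of_dvd (abs_pos.mpr hdet) ?_
    exact (dvd_abs _ _).mpr hdvd
  have h13 : (n : ℤ) ≤ g.factorial • ((2 * m + 2) * |W| ^ k : ℤ) ^ g := h12.trans hle
  rw [nsmul_eq_mul, Int.abs_eq_natAbs] at h13
  exact_mod_cast h13

end Pool.Agent.Lib.MP_f02ea4_nt.LP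
end

section

/-! The real-variable step of the bound `exp (c √(log N) log log N) ≤ i`. -/

set_option autoImplicit false

namespace Pool.Agent.Lib.MP_f02ea4_nt.IP

open Real

/-- if `c₀ (n log n)² ≤ z²` then `(n + 1) log z ≤ (4 + 4 / √c₀) z` -/
theorem count_le {c₀ z : ℝ} (hc₀ : 0 < c₀) {n : ℕ} (hz : 1 ≤ z)
    (h : c₀ * ((n : ℝ) * log n) ^ 2 ≤ z ^ 2) :
    ((n : ℝ) + 1) * log z ≤ (4 + 4 / √c₀) * z := by
  have hz0 : 0 ≤ z := by linarith
  have hlz : 0 ≤ log z := log_nonneg hz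
  have hs0 : 0 < √c₀ := sqrt_pos.2 hc₀
  have hs : 0 ≤ 4 / √c₀ * z := by positivity
  have hsz : √z * √z = z := mul_self_sqrt hz0
  have hsz1 : 1 ≤ √z := by
    rw [show (1 : ℝ) = √1 by simp]; exact sqrt_le_sqrt hz
  rcases le_or_gt (n : ℝ) √z with h1 | h1
  · have h2 : log z ≤ 2 * √z := by
      have h3 : log z = 2 * log √z := by rw [log_sqrt hz0]; ring
      have h4 : log √z ≤ √z := by
        have := log_le_sub_one_of_pos (show 0 < √z by linarith)
        linarith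
      linarith
    have h3 : ((n : ℝ) + 1) * log z ≤ (2 * √z) * (2 * √z) :=
      mul_le_mul (by linarith) h2 hlz (by positivity)
    nlinarith
  · have hn1 : (1 : ℝ) < n := by linarith
    have h2 : log z ≤ 2 * log n := by
      have h3 : log z = 2 * log √z := by rw [log_sqrt hz0]; ring
      have h4 : log √z ≤ log n := log_le_log (by linarith) h1.le
      linarith
    have hln : 0 ≤ log (n : ℝ) := log_nonneg hn1.le
    have h5 : (√c₀ * ((n : ℝ) * log n)) ^ 2 ≤ z ^ 2 := by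
      rw [mul_pow, sq_sqrt hc₀.le]; exact h
    have h6 : √c₀ * ((n : ℝ) * log n) ≤ z := by
      exact le_of_sq_le_sq' h5 hz0
    have h7 : (n : ℝ) * log n ≤ z / √c₀ := by
      rw [le_div_iff₀ hs0]; linarith
    have h8 : ((n : ℝ) + 1) * log z ≤ (2 * n) * (2 * log n) :=
      mul_le_mul (by linarith) h2 hlz (by positivity)
    have h9 : 4 / √c₀ * z = 4 * (z / √c₀) := by ring
    nlinarith
  where
  le_of_sq_le_sq' {a b : ℝ} (h : a ^ 2 ≤ b ^ 2) (hb : 0 ≤ b) : a ≤ b :=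
    le_of_abs_le (abs_le_of_sq_le_sq h hb)

theorem real_step {c₀ : ℝ} (hc₀ : 0 < c₀) : ∃ c : ℝ, 0 < c ∧ ∀ (x I : ℝ) (n : ℕ), 1 ≤ x →
    x ≤ 17501 * ((n : ℝ) + 1) * I → c₀ * ((n : ℝ) * log n) ^ 2 ≤ x →
    2 * c * (√x * log x) ≤ I := by
  have hs0 : 0 < √c₀ := sqrt_pos.2 hc₀
  have hE : 0 < 4 + 4 / √c₀ := by positivity
  refine ⟨1 / (4 * 17501 * (4 + 4 / √c₀)), by positivity, ?_⟩
  intro x I n hx h1 h2
  have hx0 : 0 ≤ x := by linarith
  have hz : 1 ≤ √x := by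
    rw [show (1 : ℝ) = √1 by simp]; exact sqrt_le_sqrt hx
  have h3 := count_le hc₀ hz (n := n) (by rw [sq_sqrt hx0]; exact h2)
  have h4 : log x = 2 * log √x := by rw [log_sqrt hx0]; ring
  have hxx : √x * √x = x := mul_self_sqrt hx0
  have hn : (0 : ℝ) < (n : ℝ) + 1 := by positivity
  have hlz : 0 ≤ log √x := log_nonneg hz
  rw [h4]
  have h5 : ((n : ℝ) + 1) * (√x * log √x) ≤ (4 + 4 / √c₀) * (17501 * ((n : ℝ) + 1) * I) := by
    calc ((n : ℝ) + 1) * (√x * log √x) = √x * (((n : ℝ) + 1) * log √x) := by ring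
      _ ≤ √x * ((4 + 4 / √c₀) * √x) := mul_le_mul_of_nonneg_left h3 (by linarith)
      _ = (4 + 4 / √c₀) * x := by rw [mul_left_comm, hxx]
      _ ≤ _ := mul_le_mul_of_nonneg_left h1 hE.le
  have h6 : √x * log √x ≤ (4 + 4 / √c₀) * 17501 * I := by
    have h7 : ((n : ℝ) + 1) * (√x * log √x) ≤ ((n : ℝ) + 1) * ((4 + 4 / √c₀) * 17501 * I) := by
      linarith
    exact le_of_mul_le_mul_left h7 hn
  have h8 : 2 * (1 / (4 * 17501 * (4 + 4 / √c₀))) * (√x * (2 * log √x))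
      = (√x * log √x) / ((4 + 4 / √c₀) * 17501) := by
    field_simp
    ring
  rw [h8, div_le_iff₀ (by positivity)]
  linarith

end Pool.Agent.Lib.MP_f02ea4_nt.IP
end
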