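import Mathlib
import Pool.Agent.Lib.MP_f02ea4_nt.LPDefs

section

/-! Largest prime factor of an odd perfect number, T6: the circulant determinant bound. -/

set_option autoImplicit false

namespace Pool.Agent.Lib.MP_f02ea4_nt.LP

open Finset Real

private def T6_M (g a m : ℕ) : Matrix (Fin g) (Fin g) ℤ := fun i j =>
  (∑ t ∈ range a, if (i.1 + t) % g = j.1 then (1 : ℤ) else 0) + if i = j then (m : ℤ) else 0

private lemma T6_sum {g a m : ℕ} (hg : 1 ≤ g) (w : Fin g → ℤ) (i : Fin g) :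
    ∑ j, T6_M g a m i j * w j =
      (∑ t ∈ range a, w ⟨(i.1 + t) % g, Nat.mod_lt _ hg⟩) + m * w i := by
  have h : ∀ j, T6_M g a m i j * w j =
      (∑ t ∈ range a, if (⟨(i.1 + t) % g, Nat.mod_lt _ hg⟩ : Fin g) = j then w j else 0) +
        if i = j then (m : ℤ) * w j else 0 := by
    intro j
    unfold T6_M
    rw [add_mul, Finset.sum_mul]
    congr 1
    · apply Finset.sum_congr rfl
      intro t _
      by_cases h : (i.1 + t) % g = j.1
      · rw [if_pos h, if_pos (Fin.ext h), one_mul]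
      · rw [if_neg h, if_neg (fun h2 => h (congrArg Fin.val h2)), zero_mul]
    · split_ifs <;> simp
  rw [Finset.sum_congr rfl (fun j _ => h j), Finset.sum_add_distrib, Finset.sum_comm]
  congr 1
  · apply Finset.sum_congr rfl
    intro t _
    simp
  · simp

private lemma T6_pow {n : ℕ} {q : ℤ} {g : ℕ} (h1 : (n : ℤ) ∣ q ^ g - 1) (k : ℕ) :
    (n : ℤ) ∣ q ^ k - q ^ (k % g) := by
  have h2 : q ^ k = (q ^ g) ^ (k / g) * q ^ (k % g) := by
    rw [← pow_mul, ← pow_add, Nat.div_add_mod]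
  have h3 : (n : ℤ) ∣ (q ^ g) ^ (k / g) - 1 := by
    have := sub_dvd_pow_sub_pow (q ^ g) 1 (k / g)
    rw [one_pow] at this
    exact h1.trans this
  rw [h2]
  have : (q ^ g) ^ (k / g) * q ^ (k % g) - q ^ (k % g)
      = ((q ^ g) ^ (k / g) - 1) * q ^ (k % g) := by ring
  rw [this]
  exact Dvd.dvd.mul_right h3 _

private lemma T6_det_ne {g a m : ℕ} (hg : 1 ≤ g) (ha : 1 ≤ a) (hm : 1 ≤ m) :
    (T6_M g a m).det ≠ 0 := by
  intro hdet
  rw [← Matrix.exists_mulVec_eq_zero_iff] at hdet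
  obtain ⟨w, hw0, hw⟩ := hdet
  apply hw0
  set om : ℕ → ℤ := fun n => w ⟨n % g, Nat.mod_lt _ hg⟩ with hom
  have hE : ∀ n, (∑ t ∈ range a, om (n + t)) + m * om n = 0 := by
    intro n
    have h1 := congrFun hw ⟨n % g, Nat.mod_lt _ hg⟩
    rw [Matrix.mulVec, dotProduct, T6_sum hg] at h1
    simp only [Pi.zero_apply] at h1
    rw [← h1]
    congr 1
    apply Finset.sum_congr rfl
    intro t _
    simp only [hom]
    congr 2
    rw [Nat.mod_add_mod]
  have hD : ∀ n, ((m : ℤ) + 1) * om n = om (n + a) + m * om (n + 1) := by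
    intro n
    have h1 := hE n
    have h2 := hE (n + 1)
    have h3 : ∑ t ∈ range a, om (n + 1 + t) = (∑ t ∈ range a, om (n + t)) + om (n + a) - om n := by
      have h4 := Finset.sum_range_succ (fun t => om (n + t)) a
      have h5 := Finset.sum_range_succ' (fun t => om (n + t)) a
      have h6 : ∑ t ∈ range a, om (n + (t + 1)) = ∑ t ∈ range a, om (n + 1 + t) := by
        apply Finset.sum_congr rfl
        intro t _
        congr 1
        ring
      rw [add_zero] at h5
      linarith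
    linarith
  obtain ⟨i0, -, hi0⟩ := Finset.exists_max_image (univ : Finset (Fin g)) w
    ⟨⟨0, hg⟩, mem_univ _⟩
  have hmax : ∀ n, om n ≤ om i0.1 := by
    intro n
    have h1 : om i0.1 = w i0 := by
      simp only [hom]
      congr 1
      exact Fin.ext (Nat.mod_eq_of_lt i0.2)
    rw [h1]
    exact hi0 _ (mem_univ _)
  have hm' : (1 : ℤ) ≤ m := by exact_mod_cast hm
  have hstep : ∀ k, om (i0.1 + k) = om i0.1 := by
    intro k
    induction k with
    | zero => rfl
    | succ k ih =>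
      have h1 := hD (i0.1 + k)
      have h2 := hmax (i0.1 + k + a)
      have h3 := hmax (i0.1 + k + 1)
      rw [ih] at h1
      rw [← add_assoc]
      nlinarith
  have hall : ∀ j : Fin g, w j = om i0.1 := by
    intro j
    rw [← hstep (j.1 + i0.1 * (g - 1))]
    simp only [hom]
    congr 1
    apply Fin.ext
    have h1 : i0.1 + (j.1 + i0.1 * (g - 1)) = j.1 + i0.1 * g := by
      obtain ⟨c, rfl⟩ : ∃ c, g = c + 1 := ⟨g - 1, by omega⟩
      simp
      ring
    rw [h1]
    simp [Nat.mod_eq_of_lt j.2]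
  have hz : om i0.1 = 0 := by
    have h1 := hE i0.1
    rw [Finset.sum_congr rfl (fun t _ => hstep t), Finset.sum_const, card_range, nsmul_eq_mul] at h1
    have h2 : ((a : ℤ) + m) * om i0.1 = 0 := by linarith
    rcases mul_eq_zero.1 h2 with h3 | h3
    · have : (1 : ℤ) ≤ a := by exact_mod_cast ha
      linarith
    · exact h3
  funext j
  rw [hall j, hz]
  rfl

/-- T6 -/
theorem circ_bound {g a m n : ℕ} {q : ℤ} (hg : 1 ≤ g) (ha : 1 ≤ a) (hm : 1 ≤ m)
    (h1 : (n : ℤ) ∣ q ^ g - 1) (h2 : (n : ℤ) ∣ (∑ t ∈ range a, q ^ t) + m) :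
    n ≤ g.factorial * (a + m) ^ g := by
  have hne := T6_det_ne (g := g) (a := a) (m := m) hg ha hm
  have hdvd : (n : ℤ) ∣ (T6_M g a m).det := by
    set v : Fin g → ℤ := fun j => q ^ j.1 with hv
    have hMv : ∀ i, (n : ℤ) ∣ (T6_M g a m).mulVec v i := by
      intro i
      rw [Matrix.mulVec, dotProduct, T6_sum hg]
      have h3 : (n : ℤ) ∣ ∑ t ∈ range a, (q ^ (i.1 + t) - q ^ ((i.1 + t) % g)) :=
        Finset.dvd_sum (fun t _ => T6_pow h1 _)
      have h4 : (n : ℤ) ∣ q ^ i.1 * ((∑ t ∈ range a, q ^ t) + m) := Dvd.dvd.mul_left h2 _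
      have h5 : (∑ t ∈ range a, v ⟨(i.1 + t) % g, Nat.mod_lt _ hg⟩) + m * v i
          = q ^ i.1 * ((∑ t ∈ range a, q ^ t) + m)
            - ∑ t ∈ range a, (q ^ (i.1 + t) - q ^ ((i.1 + t) % g)) := by
        simp only [hv]
        rw [Finset.sum_sub_distrib, mul_add, Finset.mul_sum]
        have : ∀ t, q ^ (i.1 + t) = q ^ i.1 * q ^ t := fun t => pow_add q _ _
        simp only [this]
        ring
      rw [h5]
      exact dvd_sub h4 h3
    have h6 : (T6_M g a m).det • v = (T6_M g a m).adjugate.mulVec ((T6_M g a m).mulVec v) := by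
      rw [Matrix.mulVec_mulVec, Matrix.adjugate_mul, Matrix.smul_mulVec, Matrix.one_mulVec]
    have h7 := congrFun h6 ⟨0, hg⟩
    simp only [hv, Pi.smul_apply, pow_zero, smul_eq_mul, mul_one] at h7
    rw [h7]
    have h8 : (n : ℤ) ∣ ∑ j, (T6_M g a m).adjugate ⟨0, hg⟩ j *
        (T6_M g a m).mulVec (fun j => q ^ j.1) j :=
      Finset.dvd_sum (fun j _ => Dvd.dvd.mul_left (hMv j) _)
    exact h8
  have hsize : |(T6_M g a m).det| ≤ (g.factorial : ℤ) * ((a : ℤ) + m) ^ g := by
    have h3 := Matrix.det_le (A := T6_M g a m) (abv := AbsoluteValue.abs)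
      (x := ((a : ℤ) + m)) (by
        intro i j
        show |T6_M g a m i j| ≤ (a : ℤ) + m
        have h4 : 0 ≤ ∑ t ∈ range a, (if (i.1 + t) % g = j.1 then (1 : ℤ) else 0) :=
          Finset.sum_nonneg (fun t _ => by split_ifs <;> simp)
        have h5 : ∑ t ∈ range a, (if (i.1 + t) % g = j.1 then (1 : ℤ) else 0) ≤ a := by
          calc ∑ t ∈ range a, (if (i.1 + t) % g = j.1 then (1 : ℤ) else 0)
              ≤ ∑ t ∈ range a, (1 : ℤ) :=
                Finset.sum_le_sum (fun t _ => by split_ifs <;> simp)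
            _ = a := by simp
        have h6 : 0 ≤ (if i = j then (m : ℤ) else 0) := by split_ifs <;> simp
        have h7 : (if i = j then (m : ℤ) else 0) ≤ m := by split_ifs <;> simp
        unfold T6_M
        rw [abs_of_nonneg (by linarith)]
        linarith)
    rw [Fintype.card_fin, nsmul_eq_mul] at h3
    exact h3
  have h8 : (n : ℤ) ≤ |(T6_M g a m).det| :=
    Int.le_of_dvd (abs_pos.2 hne) ((dvd_abs _ _).2 hdvd)
  have h9 := h8.trans hsize
  exact_mod_cast h9

end Pool.Agent.Lib.MP_f02ea4_nt.LP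
end

section

/-! Largest prime factor of an odd perfect number: the data attached to `P ∥ N`,
`q ^ b ∥ N`, `P ∣ σ(q ^ b)` (as in T11a, with the exponents `e`). -/

set_option autoImplicit false

namespace Pool.Agent.Lib.MP_f02ea4_nt.IP

open Finset Real
open ArithmeticFunction (sigma)
open Pool.Agent.Lib.MP_f02ea4_nt.LP (Data)

private lemma LPD_geom {r : ℕ} (hr : r.Prime) (e : ℕ) :
    (r - 1) * sigma 1 (r ^ e) + 1 = r ^ (e + 1) := by
  rw [ArithmeticFunction.sigma_one_apply_prime_pow hr]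
  have key : ∀ m, (r - 1) * ∑ k ∈ range m, r ^ k + 1 = r ^ m := by
    intro m
    induction m with
    | zero => simp
    | succ m ih =>
      rw [Finset.sum_range_succ, Nat.mul_add, Nat.add_right_comm, ih, pow_succ]
      obtain ⟨q, hq⟩ : ∃ q, r = q + 1 := ⟨r - 1, by have := hr.pos; omega⟩
      rw [hq, Nat.add_sub_cancel]
      ring
  exact key (e + 1)

private lemma LPD_sigma_even {r e : ℕ} (hr : r.Prime) (hodd : Odd r) (he : Odd e) :
    Even (sigma 1 (r ^ e)) := by
  rw [ArithmeticFunction.sigma_one_apply_prime_pow hr]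
  have key : ∀ c : ℕ, Even (∑ k ∈ range (2 * c), r ^ k) := by
    intro c
    induction c with
    | zero => simp
    | succ c ih =>
      rw [show 2 * (c + 1) = 2 * c + 1 + 1 by ring, Finset.sum_range_succ, Finset.sum_range_succ,
        add_assoc]
      exact ih.add (hodd.pow.add_odd hodd.pow)
  obtain ⟨c, hc⟩ := he
  rw [show e + 1 = 2 * (c + 1) by omega]
  exact key (c + 1)

private lemma LPD_not_dvd {r : ℕ} (hr : r.Prime) (e : ℕ) : ¬ r ∣ sigma 1 (r ^ e) := by
  intro hd
  have h1 : r ∣ (r - 1) * sigma 1 (r ^ e) := Dvd.dvd.mul_left hd _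
  have h2 : r ∣ r ^ (e + 1) := dvd_pow_self _ (by omega)
  rw [← LPD_geom hr e] at h2
  have := Nat.dvd_one.mp ((Nat.dvd_add_right h1).mp h2)
  exact hr.one_lt.ne' this

/-- the bound `q ^ f ≤ 2 m` -/
private lemma LPD_qf {q m P f b : ℕ} (hq3 : 3 ≤ q) (hm : 1 ≤ m) (hfb : f ≤ b + 1)
    (hsig : (q - 1) * (m * P) + 1 = q ^ (b + 1)) (hf : q ^ f ∣ P + 1) : q ^ f ≤ 2 * m := by
  obtain ⟨c, rfl⟩ : ∃ c, q = c + 3 := ⟨q - 3, by omega⟩
  rw [show c + 3 - 1 = c + 2 by omega] at hsig
  have h1 : (c + 3) ^ f ∣ (c + 2) * (m * P) + 1 := by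
    rw [hsig]; exact pow_dvd_pow _ hfb
  have h2 : (c + 3) ^ f ∣ (c + 2) * m * (P + 1) := Dvd.dvd.mul_left hf _
  have h3 : (c + 2) * m * (P + 1) = ((c + 2) * (m * P) + 1) + ((c + 2) * m - 1) := by
    have : 1 ≤ (c + 2) * m := Nat.mul_pos (by omega) hm
    have h4 : (c + 2) * m * (P + 1) = (c + 2) * (m * P) + (c + 2) * m := by ring
    omega
  rw [h3] at h2
  obtain ⟨j, hj⟩ := (Nat.dvd_add_right h1).mp h2
  have hm2 : 2 ≤ (c + 2) * m := by nlinarith
  -- `j ≡ -1` modulo `q - 1`
  have h5 : (c + 2) ∣ j + 1 := by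
    have h6 : (c + 3) ^ f ≡ 1 [MOD (c + 2)] := by
      have : c + 3 ≡ 1 [MOD (c + 2)] := by
        have : c + 3 = 1 + (c + 2) := by ring
        rw [this]
        simp [Nat.ModEq]
      simpa using this.pow f
    have h7 : (c + 3) ^ f * j + 1 = (c + 2) * m := by omega
    have h8 : (c + 3) ^ f * j + 1 ≡ 1 * j + 1 [MOD (c + 2)] := (h6.mul_right j).add_right 1
    rw [h7, one_mul] at h8
    have h9 : (c + 2) * m ≡ 0 [MOD (c + 2)] := by simp [Nat.ModEq]
    exact (Nat.modEq_zero_iff_dvd).mp (h8.symm.trans h9)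
  have h10 : c + 2 ≤ j + 1 := Nat.le_of_dvd (by omega) h5
  have h11 : (c + 3) ^ f * (c + 1) ≤ (c + 3) ^ f * j := Nat.mul_le_mul_left _ (by omega)
  by_contra hcon
  push Not at hcon
  have h12 : (2 * m + 1) * (c + 1) ≤ (c + 3) ^ f * (c + 1) :=
    Nat.mul_le_mul_right _ (by omega)
  have h13 : (2 * m + 1) * (c + 1) ≤ (c + 2) * m - 1 := by
    rw [hj]; exact h12.trans h11
  have h14 : (2 * m + 1) * (c + 1) = c * m + (c * m + 2 * m + c + 1) := by ring
  have h15 : (c + 2) * m = c * m + 2 * m := by ring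
  omega

/-- the size of `N` -/
private lemma LPD_final {N P q m C f M u b : ℕ} (hq3 : 3 ≤ q) (hm1 : 1 ≤ m)
    (hgq : (q - 1) * (m * P) + 1 = q ^ (b + 1)) (hqf : q ^ f ≤ 2 * m) (hu : P + 1 = q ^ f * u)
    (humC : u * (m * C) = 2 * M) (hNM : N = P * (q ^ b * M)) : P ^ 3 * (m * C) ≤ 6 * N := by
  have h3 : 2 * (m * P) ≤ 3 * q ^ b := by
    obtain ⟨c, hc⟩ : ∃ c, q = c + 3 := ⟨q - 3, by omega⟩
    have h4 : q ^ (b + 1) = q * q ^ b := pow_succ' _ _
    rw [h4] at hgq
    have h5 : (c + 2) * (m * P) + 1 = (c + 3) * q ^ b := by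
      have : q - 1 = c + 2 := by omega
      rw [this] at hgq
      rw [hgq, ← hc]
    generalize m * P = x at h5 ⊢
    generalize q ^ b = y at h5 ⊢
    nlinarith
  have h4 : P * C ≤ 4 * M := by
    have h5 : (P + 1) * (m * C) = q ^ f * (2 * M) := by rw [hu, ← humC]; ring
    have h6 : (P + 1) * (m * C) ≤ (2 * m) * (2 * M) := by
      rw [h5]; exact Nat.mul_le_mul_right _ hqf
    have h7 : m * ((P + 1) * C) ≤ m * (4 * M) := by
      calc m * ((P + 1) * C) = (P + 1) * (m * C) := by ring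
        _ ≤ (2 * m) * (2 * M) := h6
        _ = _ := by ring
    have h8 : (P + 1) * C ≤ 4 * M := Nat.le_of_mul_le_mul_left h7 hm1
    exact le_trans (Nat.mul_le_mul_right C (by omega)) h8
  have h5 : 2 * (P ^ 3 * (m * C)) ≤ 2 * (6 * N) := by
    calc 2 * (P ^ 3 * (m * C)) = P * ((2 * (m * P)) * (P * C)) := by ring
      _ ≤ P * ((3 * q ^ b) * (4 * M)) := Nat.mul_le_mul_left _ (Nat.mul_le_mul h3 h4)
      _ = 2 * (6 * (P * (q ^ b * M))) := by ring
      _ = 2 * (6 * N) := by rw [← hNM]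
  omega

/-- T11a with the exponents -/
theorem exists_dataE {N P q : ℕ} (hN : Odd N) (hperf : Nat.Perfect N) (hP : P.Prime)
    (hPN : N.factorization P = 1) (hq : q.Prime) (hqN : q ∣ N)
    (hPq : P ∣ sigma 1 (q ^ N.factorization q)) :
    ∃ m C f S, ∃ e s g h d : ℕ → ℕ, Data q (N.factorization q) m C f P S e s g h d ∧
      P ^ 3 * (m * C) ≤ 6 * N ∧ ∀ r ∈ S, r ∈ N.primeFactors ∧ e r = N.factorization r := by
  have hN0 : N ≠ 0 := hperf.2.ne'
  have hσN : sigma 1 N = 2 * N := by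
    rw [ArithmeticFunction.sigma_one_apply]
    exact (Nat.perfect_iff_sum_divisors_eq_two_mul hperf.2).mp hperf
  have hPdN : P ∣ N := Nat.dvd_of_factorization_pos (by omega)
  have hPodd : Odd P := Odd.of_dvd_nat hN hPdN
  have hqodd : Odd q := Odd.of_dvd_nat hN hqN
  have hq3 : 3 ≤ q := by
    have := hq.two_le
    rcases hqodd with ⟨c, hc⟩; omega
  have hP3 : 3 ≤ P := by
    have := hP.two_le
    rcases hPodd with ⟨c, hc⟩; omega
  have hσP : sigma 1 P = P + 1 := by
    have h1 := ArithmeticFunction.sigma_one_apply_prime_pow (i := 1) hP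
    rw [pow_one] at h1
    rw [h1]
    simp [Finset.sum_range_succ, add_comm]
  have hqP : q ≠ P := by
    rintro rfl
    rw [hPN, pow_one, hσP] at hPq
    have := Nat.dvd_one.mp ((Nat.dvd_add_right (dvd_refl q)).mp hPq)
    omega
  set b := N.factorization q with hb
  have hb1 : 1 ≤ b := hq.factorization_pos_of_dvd hN0 hqN
  -- decompositions
  obtain ⟨N1, hN1⟩ : ∃ N1, N = P * N1 := hPdN
  have hN10 : N1 ≠ 0 := by rintro rfl; exact hN0 (by rw [hN1, mul_zero])
  have hPN1 : ¬ P ∣ N1 := by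
    intro h
    have h1 : P ^ 2 ∣ N := by
      rw [hN1, sq]; exact mul_dvd_mul_left _ h
    have := (hP.pow_dvd_iff_le_factorization hN0).mp h1
    omega
  have hqbN : q ^ b ∣ N := Nat.ordProj_dvd N q
  have hcopP : Nat.Coprime P N1 := (Nat.Prime.coprime_iff_not_dvd hP).mpr hPN1
  have hqbN1 : q ^ b ∣ N1 := by
    have h1 : Nat.Coprime (q ^ b) P := Nat.Coprime.pow_left b ((Nat.coprime_primes hq hP).mpr hqP)
    rw [hN1] at hqbN
    exact h1.dvd_of_dvd_mul_left hqbN
  obtain ⟨M, hM⟩ := hqbN1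
  have hM0 : M ≠ 0 := by rintro rfl; exact hN10 (by rw [hM, mul_zero])
  have hqM : ¬ q ∣ M := by
    intro h
    have h1 : q ^ (b + 1) ∣ N := by
      rw [hN1, hM, pow_succ]
      exact Dvd.dvd.mul_left (mul_dvd_mul_left _ h) _
    have := (hq.pow_dvd_iff_le_factorization hN0).mp h1
    omega
  have hNM : N = P * (q ^ b * M) := by rw [hN1, hM]
  have hMN : M ∣ N := ⟨P * q ^ b, by rw [hNM]; ring⟩
  have hModd : Odd M := Odd.of_dvd_nat hN hMN
  have hcopq : Nat.Coprime (q ^ b) M :=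
    Nat.Coprime.pow_left b ((Nat.Prime.coprime_iff_not_dvd hq).mpr hqM)
  have hσ1 : sigma 1 N = (P + 1) * (sigma 1 (q ^ b) * sigma 1 M) := by
    rw [hN1, ArithmeticFunction.isMultiplicative_sigma.map_mul_of_coprime hcopP, hσP, hM,
      ArithmeticFunction.isMultiplicative_sigma.map_mul_of_coprime hcopq]
  obtain ⟨m, hm⟩ := hPq
  have hmul : (P + 1) * (sigma 1 (q ^ b) * sigma 1 M) = 2 * N := by rw [← hσ1, hσN]
  have hqb : 0 < q ^ b := pow_pos hq.pos b
  have hkey : (P + 1) * m * sigma 1 M = 2 * q ^ b * M := by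
    rw [hm, hNM] at hmul
    have : P * ((P + 1) * m * sigma 1 M) = P * (2 * q ^ b * M) := by
      calc _ = (P + 1) * (P * m * sigma 1 M) := by ring
        _ = _ := by rw [hmul]; ring
    exact Nat.eq_of_mul_eq_mul_left hP.pos this
  have hm1 : 1 ≤ m := by
    rcases Nat.eq_zero_or_pos m with h0 | h0
    · rw [h0, mul_zero, zero_mul] at hkey
      have : 0 < 2 * q ^ b * M := by positivity
      omega
    · exact h0
  have hgq : (q - 1) * (m * P) + 1 = q ^ (b + 1) := by
    rw [mul_comm m P, ← hm]; exact LPD_geom hq b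
  -- parity
  have hPeven : Even (P + 1) := hPodd.add_one
  have hpar : ∀ X, Even X → ¬ X ∣ sigma 1 (q ^ b) * sigma 1 M := by
    intro X hX hd
    obtain ⟨x, hx⟩ := hX
    obtain ⟨y, hy⟩ := hPeven
    obtain ⟨z, hz⟩ := hd
    rcases hN with ⟨w, hw⟩
    rw [hz, hy, hx, hw] at hmul
    have : (y + y) * ((x + x) * z) = 4 * (y * x * z) := by ring
    omega
  have hbeven : Even b := by
    by_contra hc
    rw [Nat.not_even_iff_odd] at hc
    exact hpar _ (LPD_sigma_even hq hqodd hc) (dvd_mul_right _ _)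
  have hb2 : 2 ≤ b := by
    rcases hbeven with ⟨c, hc⟩; omega
  have hrprime : ∀ r ∈ M.primeFactors, r.Prime := fun r hr => Nat.prime_of_mem_primeFactors hr
  have hrodd : ∀ r ∈ M.primeFactors, Odd r := fun r hr =>
    Odd.of_dvd_nat hN ((Nat.dvd_of_mem_primeFactors hr).trans hMN)
  have hr3 : ∀ r ∈ M.primeFactors, 3 ≤ r := by
    intro r hr
    have h2 := (hrprime r hr).two_le
    rcases hrodd r hr with ⟨c, hc⟩; omega
  have hσM : sigma 1 M = ∏ r ∈ M.primeFactors, sigma 1 (r ^ M.factorization r) := by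
    rw [ArithmeticFunction.isMultiplicative_sigma.multiplicative_factorization _ hM0]
    rfl
  have he1 : ∀ r ∈ M.primeFactors, 1 ≤ M.factorization r := fun r hr =>
    (hrprime r hr).factorization_pos_of_dvd hM0 (Nat.dvd_of_mem_primeFactors hr)
  have heven : ∀ r ∈ M.primeFactors, Even (M.factorization r) := by
    intro r hr
    by_contra hc
    rw [Nat.not_even_iff_odd] at hc
    apply hpar _ (LPD_sigma_even (hrprime r hr) (hrodd r hr) hc)
    apply Dvd.dvd.mul_left
    rw [hσM]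
    exact Finset.dvd_prod_of_mem (fun r => sigma 1 (r ^ M.factorization r)) hr
  -- the components
  set F : ℕ → ℕ := fun r => (sigma 1 (r ^ M.factorization r)).factorization q with hF
  set W : ℕ → ℕ := fun r => sigma 1 (r ^ M.factorization r) / q ^ F r with hWdef
  have hFW : ∀ r, q ^ F r * W r = sigma 1 (r ^ M.factorization r) := fun r =>
    Nat.ordProj_mul_ordCompl_eq_self _ q
  have hσne : ∀ r ∈ M.primeFactors, sigma 1 (r ^ M.factorization r) ≠ 0 := by
    intro r hr
    have := (Nat.prime_of_mem_primeFactors hr).pos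
    rw [Ne, ArithmeticFunction.sigma_eq_zero]
    positivity
  have hWq : ∀ r ∈ M.primeFactors, ¬ q ∣ W r := fun r hr => Nat.not_dvd_ordCompl hq (hσne r hr)
  have hW1 : ∀ r ∈ M.primeFactors, 1 ≤ W r := by
    intro r hr
    rcases Nat.eq_zero_or_pos (W r) with h0 | h0
    · exact absurd (h0 ▸ dvd_zero q) (hWq r hr)
    · exact h0
  set C := ∏ r ∈ M.primeFactors, W r with hC
  have hC1 : 1 ≤ C := Finset.one_le_prod' hW1
  have hσM2 : sigma 1 M = q ^ (∑ r ∈ M.primeFactors, F r) * C := by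
    rw [hσM, hC, ← Finset.prod_pow_eq_pow_sum, ← Finset.prod_mul_distrib]
    exact (Finset.prod_congr rfl (fun r _ => hFW r)).symm
  have hCq : ¬ q ∣ C := by
    intro h
    obtain ⟨r, hr, h2⟩ := (Prime.dvd_finsetProd_iff hq.prime _).mp h
    exact hWq r hr h2
  have hqm : ¬ q ∣ m := by
    intro h
    apply LPD_not_dvd hq b
    rw [hm]
    exact Dvd.dvd.mul_left h _
  set f := (P + 1).factorization q with hf
  obtain ⟨u, hu⟩ : q ^ f ∣ P + 1 := Nat.ordProj_dvd _ q
  have hqu : ¬ q ∣ u := by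
    intro h
    have h1 : q ^ (f + 1) ∣ P + 1 := by
      rw [hu, pow_succ]; exact mul_dvd_mul_left _ h
    have := (hq.pow_dvd_iff_le_factorization (by omega)).mp h1
    omega
  have hu0 : u ≠ 0 := by rintro rfl; rw [mul_zero] at hu; omega
  have heq : q ^ (f + ∑ r ∈ M.primeFactors, F r) * (u * (m * C)) = q ^ b * (2 * M) := by
    calc _ = (q ^ f * u) * m * (q ^ (∑ r ∈ M.primeFactors, F r) * C) := by rw [pow_add]; ring
      _ = (P + 1) * m * sigma 1 M := by rw [← hu, ← hσM2]
      _ = 2 * q ^ b * M := hkey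
      _ = _ := by ring
  have hcopL : Nat.Coprime q (u * (m * C)) := by
    rw [Nat.Prime.coprime_iff_not_dvd hq, hq.dvd_mul, hq.dvd_mul]
    tauto
  have hcopR : Nat.Coprime q (2 * M) := by
    rw [Nat.Prime.coprime_iff_not_dvd hq, hq.dvd_mul]
    rintro (h | h)
    · have := Nat.le_of_dvd (by norm_num) h; omega
    · exact hqM h
  have hfb : f + ∑ r ∈ M.primeFactors, F r = b := by
    apply le_antisymm
    · apply (Nat.pow_dvd_pow_iff_le_right hq.one_lt).mp
      have : q ^ (f + ∑ r ∈ M.primeFactors, F r) ∣ q ^ b * (2 * M) := ⟨_, heq.symm⟩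
      exact (hcopR.pow_left _).dvd_of_dvd_mul_right this
    · apply (Nat.pow_dvd_pow_iff_le_right hq.one_lt).mp
      have : q ^ b ∣ q ^ (f + ∑ r ∈ M.primeFactors, F r) * (u * (m * C)) := ⟨_, heq⟩
      exact (hcopL.pow_left _).dvd_of_dvd_mul_right this
  have humC : u * (m * C) = 2 * M := by
    rw [hfb] at heq
    exact Nat.eq_of_mul_eq_mul_left hqb heq
  have hmC0 : m * C ≠ 0 := Nat.mul_ne_zero (by omega) (by omega)
  have hqf : q ^ f ≤ 2 * m := LPD_qf hq3 hm1 (by omega) hgq ⟨u, hu⟩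
  refine ⟨m, C, f, M.primeFactors, fun r => M.factorization r, W, F,
    fun r => (P + 1).factorization r, fun r => (m * C).factorization r,
    ⟨hq, by omega, hb2, hm1, hC1, hgq, hqf, hrprime, fun r hr => by have := hr3 r hr; omega,
      heven, he1, hW1, hWq, ?_, le_refl _, hfb, fun r _ => Nat.ordProj_dvd _ r, ?_, ?_⟩, ?_, ?_⟩
  · intro r hr
    rw [mul_comm (W r), hFW r]
    exact LPD_geom (hrprime r hr) _
  · intro r hr
    have hrq : r ≠ q := by
      rintro rfl
      exact hqM (Nat.dvd_of_mem_primeFactors hr)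
    have hP1 : P + 1 ≠ 0 := by omega
    show M.factorization r = (P + 1).factorization r + (m * C).factorization r
    have h1 : (P + 1).factorization r = u.factorization r := by
      rw [hu, Nat.factorization_mul (by positivity) hu0, hq.factorization_pow]
      simp [hrq.symm]
    have h2 : (u * (m * C)).factorization r = (2 * M).factorization r := by rw [humC]
    rw [Nat.factorization_mul hu0 hmC0, Nat.factorization_mul (by norm_num) hM0] at h2
    simp only [Finsupp.add_apply] at h2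
    have h3 : (2 : ℕ).factorization r = 0 := by
      apply Nat.factorization_eq_zero_of_not_dvd
      intro hd
      have := Nat.le_of_dvd (by norm_num) hd
      have := hr3 r hr
      omega
    omega
  · intro r _
    exact Nat.le_of_dvd (Nat.pos_of_ne_zero hmC0) (Nat.ordProj_dvd _ r)
  · exact LPD_final hq3 hm1 hgq hqf hu humC hNM
  · intro r hr
    have hrd : r ∣ M := Nat.dvd_of_mem_primeFactors hr
    have hrp := hrprime r hr
    refine ⟨Nat.mem_primeFactors.2 ⟨hrp, hrd.trans hMN, hN0⟩, ?_⟩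
    have hrq : r ≠ q := by
      rintro rfl
      exact hqM hrd
    have hrP : r ≠ P := by
      rintro rfl
      exact hPN1 (by rw [hM]; exact Dvd.dvd.mul_left hrd _)
    show M.factorization r = N.factorization r
    rw [hNM, Nat.factorization_mul hP.ne_zero (by positivity), Nat.factorization_mul
      (by positivity) hM0, hq.factorization_pow, hP.factorization]
    simp [hrq.symm, hrP.symm]

end Pool.Agent.Lib.MP_f02ea4_nt.IP
end

section

/-! Largest prime factor of an odd perfect number, T11a: the data attached to `P ∥ N`,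
`q ^ b ∥ N`, `P ∣ σ(q ^ b)`. -/

set_option autoImplicit false

namespace Pool.Agent.Lib.MP_f02ea4_nt.LP

open Finset Real
open ArithmeticFunction (sigma)

private lemma T11a_geom {r : ℕ} (hr : r.Prime) (e : ℕ) :
    (r - 1) * sigma 1 (r ^ e) + 1 = r ^ (e + 1) := by
  rw [ArithmeticFunction.sigma_one_apply_prime_pow hr]
  have key : ∀ m, (r - 1) * ∑ k ∈ range m, r ^ k + 1 = r ^ m := by
    intro m
    induction m with
    | zero => simp
    | succ m ih =>
      rw [Finset.sum_range_succ, Nat.mul_add, Nat.add_right_comm, ih, pow_succ]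
      obtain ⟨q, hq⟩ : ∃ q, r = q + 1 := ⟨r - 1, by have := hr.pos; omega⟩
      rw [hq, Nat.add_sub_cancel]
      ring
  exact key (e + 1)

private lemma T11a_sigma_even {r e : ℕ} (hr : r.Prime) (hodd : Odd r) (he : Odd e) :
    Even (sigma 1 (r ^ e)) := by
  rw [ArithmeticFunction.sigma_one_apply_prime_pow hr]
  have key : ∀ c : ℕ, Even (∑ k ∈ range (2 * c), r ^ k) := by
    intro c
    induction c with
    | zero => simp
    | succ c ih =>
      rw [show 2 * (c + 1) = 2 * c + 1 + 1 by ring, Finset.sum_range_succ, Finset.sum_range_succ,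
        add_assoc]
      exact ih.add (hodd.pow.add_odd hodd.pow)
  obtain ⟨c, hc⟩ := he
  rw [show e + 1 = 2 * (c + 1) by omega]
  exact key (c + 1)

private lemma T11a_not_dvd {r : ℕ} (hr : r.Prime) (e : ℕ) : ¬ r ∣ sigma 1 (r ^ e) := by
  intro hd
  have h1 : r ∣ (r - 1) * sigma 1 (r ^ e) := Dvd.dvd.mul_left hd _
  have h2 : r ∣ r ^ (e + 1) := dvd_pow_self _ (by omega)
  rw [← T11a_geom hr e] at h2
  have := Nat.dvd_one.mp ((Nat.dvd_add_right h1).mp h2)
  exact hr.one_lt.ne' this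

/-- the bound `q ^ f ≤ 2 m` -/
private lemma T11a_qf {q m P f b : ℕ} (hq3 : 3 ≤ q) (hm : 1 ≤ m) (hfb : f ≤ b + 1)
    (hsig : (q - 1) * (m * P) + 1 = q ^ (b + 1)) (hf : q ^ f ∣ P + 1) : q ^ f ≤ 2 * m := by
  obtain ⟨c, rfl⟩ : ∃ c, q = c + 3 := ⟨q - 3, by omega⟩
  rw [show c + 3 - 1 = c + 2 by omega] at hsig
  have h1 : (c + 3) ^ f ∣ (c + 2) * (m * P) + 1 := by
    rw [hsig]; exact pow_dvd_pow _ hfb
  have h2 : (c + 3) ^ f ∣ (c + 2) * m * (P + 1) := Dvd.dvd.mul_left hf _
  have h3 : (c + 2) * m * (P + 1) = ((c + 2) * (m * P) + 1) + ((c + 2) * m - 1) := by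
    have : 1 ≤ (c + 2) * m := Nat.mul_pos (by omega) hm
    have h4 : (c + 2) * m * (P + 1) = (c + 2) * (m * P) + (c + 2) * m := by ring
    omega
  rw [h3] at h2
  obtain ⟨j, hj⟩ := (Nat.dvd_add_right h1).mp h2
  have hm2 : 2 ≤ (c + 2) * m := by nlinarith
  -- `j ≡ -1` modulo `q - 1`
  have h5 : (c + 2) ∣ j + 1 := by
    have h6 : (c + 3) ^ f ≡ 1 [MOD (c + 2)] := by
      have : c + 3 ≡ 1 [MOD (c + 2)] := by
        have : c + 3 = 1 + (c + 2) := by ring
        rw [this]
        simp [Nat.ModEq]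
      simpa using this.pow f
    have h7 : (c + 3) ^ f * j + 1 = (c + 2) * m := by omega
    have h8 : (c + 3) ^ f * j + 1 ≡ 1 * j + 1 [MOD (c + 2)] := (h6.mul_right j).add_right 1
    rw [h7, one_mul] at h8
    have h9 : (c + 2) * m ≡ 0 [MOD (c + 2)] := by simp [Nat.ModEq]
    exact (Nat.modEq_zero_iff_dvd).mp (h8.symm.trans h9)
  have h10 : c + 2 ≤ j + 1 := Nat.le_of_dvd (by omega) h5
  have h11 : (c + 3) ^ f * (c + 1) ≤ (c + 3) ^ f * j := Nat.mul_le_mul_left _ (by omega)
  by_contra hcon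
  push Not at hcon
  have h12 : (2 * m + 1) * (c + 1) ≤ (c + 3) ^ f * (c + 1) :=
    Nat.mul_le_mul_right _ (by omega)
  have h13 : (2 * m + 1) * (c + 1) ≤ (c + 2) * m - 1 := by
    rw [hj]; exact h12.trans h11
  have h14 : (2 * m + 1) * (c + 1) = c * m + (c * m + 2 * m + c + 1) := by ring
  have h15 : (c + 2) * m = c * m + 2 * m := by ring
  omega

/-- the size of `N` -/
private lemma T11a_final {N P q m C f M u b : ℕ} (hq3 : 3 ≤ q) (hm1 : 1 ≤ m)
    (hgq : (q - 1) * (m * P) + 1 = q ^ (b + 1)) (hqf : q ^ f ≤ 2 * m) (hu : P + 1 = q ^ f * u)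
    (humC : u * (m * C) = 2 * M) (hNM : N = P * (q ^ b * M)) : P ^ 3 * (m * C) ≤ 6 * N := by
  have h3 : 2 * (m * P) ≤ 3 * q ^ b := by
    obtain ⟨c, hc⟩ : ∃ c, q = c + 3 := ⟨q - 3, by omega⟩
    have h4 : q ^ (b + 1) = q * q ^ b := pow_succ' _ _
    rw [h4] at hgq
    have h5 : (c + 2) * (m * P) + 1 = (c + 3) * q ^ b := by
      have : q - 1 = c + 2 := by omega
      rw [this] at hgq
      rw [hgq, ← hc]
    generalize m * P = x at h5 ⊢
    generalize q ^ b = y at h5 ⊢
    nlinarith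
  have h4 : P * C ≤ 4 * M := by
    have h5 : (P + 1) * (m * C) = q ^ f * (2 * M) := by rw [hu, ← humC]; ring
    have h6 : (P + 1) * (m * C) ≤ (2 * m) * (2 * M) := by
      rw [h5]; exact Nat.mul_le_mul_right _ hqf
    have h7 : m * ((P + 1) * C) ≤ m * (4 * M) := by
      calc m * ((P + 1) * C) = (P + 1) * (m * C) := by ring
        _ ≤ (2 * m) * (2 * M) := h6
        _ = _ := by ring
    have h8 : (P + 1) * C ≤ 4 * M := Nat.le_of_mul_le_mul_left h7 hm1
    exact le_trans (Nat.mul_le_mul_right C (by omega)) h8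
  have h5 : 2 * (P ^ 3 * (m * C)) ≤ 2 * (6 * N) := by
    calc 2 * (P ^ 3 * (m * C)) = P * ((2 * (m * P)) * (P * C)) := by ring
      _ ≤ P * ((3 * q ^ b) * (4 * M)) := Nat.mul_le_mul_left _ (Nat.mul_le_mul h3 h4)
      _ = 2 * (6 * (P * (q ^ b * M))) := by ring
      _ = 2 * (6 * N) := by rw [← hNM]
  omega

/-- T11a -/
theorem exists_data {N P q : ℕ} (hN : Odd N) (hperf : Nat.Perfect N) (hP : P.Prime)
    (hPN : N.factorization P = 1) (hq : q.Prime) (hqN : q ∣ N)
    (hPq : P ∣ sigma 1 (q ^ N.factorization q)) :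
    ∃ m C f S, ∃ e s g h d : ℕ → ℕ, Data q (N.factorization q) m C f P S e s g h d ∧
      P ^ 3 * (m * C) ≤ 6 * N := by
  have hN0 : N ≠ 0 := hperf.2.ne'
  have hσN : sigma 1 N = 2 * N := by
    rw [ArithmeticFunction.sigma_one_apply]
    exact (Nat.perfect_iff_sum_divisors_eq_two_mul hperf.2).mp hperf
  have hPdN : P ∣ N := Nat.dvd_of_factorization_pos (by omega)
  have hPodd : Odd P := Odd.of_dvd_nat hN hPdN
  have hqodd : Odd q := Odd.of_dvd_nat hN hqN
  have hq3 : 3 ≤ q := by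
    have := hq.two_le
    rcases hqodd with ⟨c, hc⟩; omega
  have hP3 : 3 ≤ P := by
    have := hP.two_le
    rcases hPodd with ⟨c, hc⟩; omega
  have hσP : sigma 1 P = P + 1 := by
    have h1 := ArithmeticFunction.sigma_one_apply_prime_pow (i := 1) hP
    rw [pow_one] at h1
    rw [h1]
    simp [Finset.sum_range_succ, add_comm]
  have hqP : q ≠ P := by
    rintro rfl
    rw [hPN, pow_one, hσP] at hPq
    have := Nat.dvd_one.mp ((Nat.dvd_add_right (dvd_refl q)).mp hPq)
    omega
  set b := N.factorization q with hb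
  have hb1 : 1 ≤ b := hq.factorization_pos_of_dvd hN0 hqN
  -- decompositions
  obtain ⟨N1, hN1⟩ : ∃ N1, N = P * N1 := hPdN
  have hN10 : N1 ≠ 0 := by rintro rfl; exact hN0 (by rw [hN1, mul_zero])
  have hPN1 : ¬ P ∣ N1 := by
    intro h
    have h1 : P ^ 2 ∣ N := by
      rw [hN1, sq]; exact mul_dvd_mul_left _ h
    have := (hP.pow_dvd_iff_le_factorization hN0).mp h1
    omega
  have hqbN : q ^ b ∣ N := Nat.ordProj_dvd N q
  have hcopP : Nat.Coprime P N1 := (Nat.Prime.coprime_iff_not_dvd hP).mpr hPN1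
  have hqbN1 : q ^ b ∣ N1 := by
    have h1 : Nat.Coprime (q ^ b) P := Nat.Coprime.pow_left b ((Nat.coprime_primes hq hP).mpr hqP)
    rw [hN1] at hqbN
    exact h1.dvd_of_dvd_mul_left hqbN
  obtain ⟨M, hM⟩ := hqbN1
  have hM0 : M ≠ 0 := by rintro rfl; exact hN10 (by rw [hM, mul_zero])
  have hqM : ¬ q ∣ M := by
    intro h
    have h1 : q ^ (b + 1) ∣ N := by
      rw [hN1, hM, pow_succ]
      exact Dvd.dvd.mul_left (mul_dvd_mul_left _ h) _
    have := (hq.pow_dvd_iff_le_factorization hN0).mp h1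
    omega
  have hNM : N = P * (q ^ b * M) := by rw [hN1, hM]
  have hMN : M ∣ N := ⟨P * q ^ b, by rw [hNM]; ring⟩
  have hModd : Odd M := Odd.of_dvd_nat hN hMN
  have hcopq : Nat.Coprime (q ^ b) M :=
    Nat.Coprime.pow_left b ((Nat.Prime.coprime_iff_not_dvd hq).mpr hqM)
  have hσ1 : sigma 1 N = (P + 1) * (sigma 1 (q ^ b) * sigma 1 M) := by
    rw [hN1, ArithmeticFunction.isMultiplicative_sigma.map_mul_of_coprime hcopP, hσP, hM,
      ArithmeticFunction.isMultiplicative_sigma.map_mul_of_coprime hcopq]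
  obtain ⟨m, hm⟩ := hPq
  have hmul : (P + 1) * (sigma 1 (q ^ b) * sigma 1 M) = 2 * N := by rw [← hσ1, hσN]
  have hqb : 0 < q ^ b := pow_pos hq.pos b
  have hkey : (P + 1) * m * sigma 1 M = 2 * q ^ b * M := by
    rw [hm, hNM] at hmul
    have : P * ((P + 1) * m * sigma 1 M) = P * (2 * q ^ b * M) := by
      calc _ = (P + 1) * (P * m * sigma 1 M) := by ring
        _ = _ := by rw [hmul]; ring
    exact Nat.eq_of_mul_eq_mul_left hP.pos this
  have hm1 : 1 ≤ m := by
    rcases Nat.eq_zero_or_pos m with h0 | h0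
    · rw [h0, mul_zero, zero_mul] at hkey
      have : 0 < 2 * q ^ b * M := by positivity
      omega
    · exact h0
  have hgq : (q - 1) * (m * P) + 1 = q ^ (b + 1) := by
    rw [mul_comm m P, ← hm]; exact T11a_geom hq b
  -- parity
  have hPeven : Even (P + 1) := hPodd.add_one
  have hpar : ∀ X, Even X → ¬ X ∣ sigma 1 (q ^ b) * sigma 1 M := by
    intro X hX hd
    obtain ⟨x, hx⟩ := hX
    obtain ⟨y, hy⟩ := hPeven
    obtain ⟨z, hz⟩ := hd
    rcases hN with ⟨w, hw⟩
    rw [hz, hy, hx, hw] at hmul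
    have : (y + y) * ((x + x) * z) = 4 * (y * x * z) := by ring
    omega
  have hbeven : Even b := by
    by_contra hc
    rw [Nat.not_even_iff_odd] at hc
    exact hpar _ (T11a_sigma_even hq hqodd hc) (dvd_mul_right _ _)
  have hb2 : 2 ≤ b := by
    rcases hbeven with ⟨c, hc⟩; omega
  have hrprime : ∀ r ∈ M.primeFactors, r.Prime := fun r hr => Nat.prime_of_mem_primeFactors hr
  have hrodd : ∀ r ∈ M.primeFactors, Odd r := fun r hr =>
    Odd.of_dvd_nat hN ((Nat.dvd_of_mem_primeFactors hr).trans hMN)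
  have hr3 : ∀ r ∈ M.primeFactors, 3 ≤ r := by
    intro r hr
    have h2 := (hrprime r hr).two_le
    rcases hrodd r hr with ⟨c, hc⟩; omega
  have hσM : sigma 1 M = ∏ r ∈ M.primeFactors, sigma 1 (r ^ M.factorization r) := by
    rw [ArithmeticFunction.isMultiplicative_sigma.multiplicative_factorization _ hM0]
    rfl
  have he1 : ∀ r ∈ M.primeFactors, 1 ≤ M.factorization r := fun r hr =>
    (hrprime r hr).factorization_pos_of_dvd hM0 (Nat.dvd_of_mem_primeFactors hr)
  have heven : ∀ r ∈ M.primeFactors, Even (M.factorization r) := by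
    intro r hr
    by_contra hc
    rw [Nat.not_even_iff_odd] at hc
    apply hpar _ (T11a_sigma_even (hrprime r hr) (hrodd r hr) hc)
    apply Dvd.dvd.mul_left
    rw [hσM]
    exact Finset.dvd_prod_of_mem (fun r => sigma 1 (r ^ M.factorization r)) hr
  -- the components
  set F : ℕ → ℕ := fun r => (sigma 1 (r ^ M.factorization r)).factorization q with hF
  set W : ℕ → ℕ := fun r => sigma 1 (r ^ M.factorization r) / q ^ F r with hWdef
  have hFW : ∀ r, q ^ F r * W r = sigma 1 (r ^ M.factorization r) := fun r =>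
    Nat.ordProj_mul_ordCompl_eq_self _ q
  have hσne : ∀ r ∈ M.primeFactors, sigma 1 (r ^ M.factorization r) ≠ 0 := by
    intro r hr
    have := (Nat.prime_of_mem_primeFactors hr).pos
    rw [Ne, ArithmeticFunction.sigma_eq_zero]
    positivity
  have hWq : ∀ r ∈ M.primeFactors, ¬ q ∣ W r := fun r hr => Nat.not_dvd_ordCompl hq (hσne r hr)
  have hW1 : ∀ r ∈ M.primeFactors, 1 ≤ W r := by
    intro r hr
    rcases Nat.eq_zero_or_pos (W r) with h0 | h0
    · exact absurd (h0 ▸ dvd_zero q) (hWq r hr)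
    · exact h0
  set C := ∏ r ∈ M.primeFactors, W r with hC
  have hC1 : 1 ≤ C := Finset.one_le_prod' hW1
  have hσM2 : sigma 1 M = q ^ (∑ r ∈ M.primeFactors, F r) * C := by
    rw [hσM, hC, ← Finset.prod_pow_eq_pow_sum, ← Finset.prod_mul_distrib]
    exact (Finset.prod_congr rfl (fun r _ => hFW r)).symm
  have hCq : ¬ q ∣ C := by
    intro h
    obtain ⟨r, hr, h2⟩ := (Prime.dvd_finsetProd_iff hq.prime _).mp h
    exact hWq r hr h2
  have hqm : ¬ q ∣ m := by
    intro h
    apply T11a_not_dvd hq b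
    rw [hm]
    exact Dvd.dvd.mul_left h _
  set f := (P + 1).factorization q with hf
  obtain ⟨u, hu⟩ : q ^ f ∣ P + 1 := Nat.ordProj_dvd _ q
  have hqu : ¬ q ∣ u := by
    intro h
    have h1 : q ^ (f + 1) ∣ P + 1 := by
      rw [hu, pow_succ]; exact mul_dvd_mul_left _ h
    have := (hq.pow_dvd_iff_le_factorization (by omega)).mp h1
    omega
  have hu0 : u ≠ 0 := by rintro rfl; rw [mul_zero] at hu; omega
  have heq : q ^ (f + ∑ r ∈ M.primeFactors, F r) * (u * (m * C)) = q ^ b * (2 * M) := by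
    calc _ = (q ^ f * u) * m * (q ^ (∑ r ∈ M.primeFactors, F r) * C) := by rw [pow_add]; ring
      _ = (P + 1) * m * sigma 1 M := by rw [← hu, ← hσM2]
      _ = 2 * q ^ b * M := hkey
      _ = _ := by ring
  have hcopL : Nat.Coprime q (u * (m * C)) := by
    rw [Nat.Prime.coprime_iff_not_dvd hq, hq.dvd_mul, hq.dvd_mul]
    tauto
  have hcopR : Nat.Coprime q (2 * M) := by
    rw [Nat.Prime.coprime_iff_not_dvd hq, hq.dvd_mul]
    rintro (h | h)
    · have := Nat.le_of_dvd (by norm_num) h; omega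
    · exact hqM h
  have hfb : f + ∑ r ∈ M.primeFactors, F r = b := by
    apply le_antisymm
    · apply (Nat.pow_dvd_pow_iff_le_right hq.one_lt).mp
      have : q ^ (f + ∑ r ∈ M.primeFactors, F r) ∣ q ^ b * (2 * M) := ⟨_, heq.symm⟩
      exact (hcopR.pow_left _).dvd_of_dvd_mul_right this
    · apply (Nat.pow_dvd_pow_iff_le_right hq.one_lt).mp
      have : q ^ b ∣ q ^ (f + ∑ r ∈ M.primeFactors, F r) * (u * (m * C)) := ⟨_, heq⟩
      exact (hcopL.pow_left _).dvd_of_dvd_mul_right this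
  have humC : u * (m * C) = 2 * M := by
    rw [hfb] at heq
    exact Nat.eq_of_mul_eq_mul_left hqb heq
  have hmC0 : m * C ≠ 0 := Nat.mul_ne_zero (by omega) (by omega)
  have hqf : q ^ f ≤ 2 * m := T11a_qf hq3 hm1 (by omega) hgq ⟨u, hu⟩
  refine ⟨m, C, f, M.primeFactors, fun r => M.factorization r, W, F,
    fun r => (P + 1).factorization r, fun r => (m * C).factorization r,
    ⟨hq, by omega, hb2, hm1, hC1, hgq, hqf, hrprime, fun r hr => by have := hr3 r hr; omega,
      heven, he1, hW1, hWq, ?_, le_refl _, hfb, fun r _ => Nat.ordProj_dvd _ r, ?_, ?_⟩, ?_⟩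
  · intro r hr
    rw [mul_comm (W r), hFW r]
    exact T11a_geom (hrprime r hr) _
  · intro r hr
    have hrq : r ≠ q := by
      rintro rfl
      exact hqM (Nat.dvd_of_mem_primeFactors hr)
    have hP1 : P + 1 ≠ 0 := by omega
    show M.factorization r = (P + 1).factorization r + (m * C).factorization r
    have h1 : (P + 1).factorization r = u.factorization r := by
      rw [hu, Nat.factorization_mul (by positivity) hu0, hq.factorization_pow]
      simp [hrq.symm]
    have h2 : (u * (m * C)).factorization r = (2 * M).factorization r := by rw [humC]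
    rw [Nat.factorization_mul hu0 hmC0, Nat.factorization_mul (by norm_num) hM0] at h2
    simp only [Finsupp.add_apply] at h2
    have h3 : (2 : ℕ).factorization r = 0 := by
      apply Nat.factorization_eq_zero_of_not_dvd
      intro hd
      have := Nat.le_of_dvd (by norm_num) hd
      have := hr3 r hr
      omega
    omega
  · intro r _
    exact Nat.le_of_dvd (Nat.pos_of_ne_zero hmC0) (Nat.ordProj_dvd _ r)
  · exact T11a_final hq3 hm1 hgq hqf hu humC hNM

end Pool.Agent.Lib.MP_f02ea4_nt.LP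
end
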