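import Mathlib
import Pool.Agent.Lib.MP_f02ea4_nt.LPDefs
import Pool.Agent.Lib.MP_f02ea4_nt.IdxGood

section

/-! Largest prime factor of an odd perfect number: basic consequences of the data. -/

set_option autoImplicit false

namespace Pool.Agent.Lib.MP_f02ea4_nt.LP

open Finset Real

theorem log3_ge : (1 : ℝ) ≤ log 3 := by
  rw [le_log_iff_exp_le (by norm_num)]
  have he : exp 1 < (2.7182818286 : ℝ) := exp_one_lt_d9
  linarith

section
variable {q b m C f P : ℕ} {S : Finset ℕ} {e s g h d : ℕ → ℕ}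

theorem Data.q3 (D : Data q b m C f P S e s g h d) : 3 ≤ q := by
  have h1 := D.hq.two_le
  have h2 := D.hq2
  omega

theorem Data.r3 (D : Data q b m C f P S e s g h d) {r : ℕ} (hr : r ∈ S) : 3 ≤ r := by
  have h1 := (D.prime r hr).two_le
  have h2 := D.ne2 r hr
  omega

theorem Data.e2 (D : Data q b m C f P S e s g h d) {r : ℕ} (hr : r ∈ S) : 2 ≤ e r := by
  have h1 := D.pos r hr
  obtain ⟨j, hj⟩ := D.even r hr
  omega

theorem Data.L1 (D : Data q b m C f P S e s g h d) : (1 : ℝ) ≤ log q := by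
  have h1 : (3 : ℝ) ≤ q := by exact_mod_cast D.q3
  exact log3_ge.trans (log_le_log (by norm_num) h1)

theorem Data.mC1 (D : Data q b m C f P S e s g h d) : (1 : ℝ) ≤ ((m * C : ℕ) : ℝ) := by
  have := Nat.mul_le_mul D.hm D.hC
  exact_mod_cast this

theorem Data.F0 (D : Data q b m C f P S e s g h d) : 0 ≤ log ((m * C : ℕ) : ℝ) :=
  log_nonneg D.mC1

theorem Data.gb (D : Data q b m C f P S e s g h d) {r : ℕ} (hr : r ∈ S) : g r ≤ b := by
  have h1 := D.sum
  have h2 : g r ≤ ∑ r ∈ S, g r := Finset.single_le_sum (fun _ _ => Nat.zero_le _) hr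
  omega

theorem Data.logs (D : Data q b m C f P S e s g h d) {r : ℕ} (hr : r ∈ S) :
    0 ≤ log (s r : ℝ) := log_nonneg (by exact_mod_cast D.s1 r hr)

/-- the sum of the `log s r` is at most `log (m C)` -/
theorem Data.sum_log (D : Data q b m C f P S e s g h d) :
    ∑ r ∈ S, log (s r : ℝ) ≤ log ((m * C : ℕ) : ℝ) := by
  rw [← log_prod (fun r hr => by
    have := D.s1 r hr
    positivity)]
  have h5 : (0 : ℝ) < ∏ r ∈ S, (s r : ℝ) := Finset.prod_pos (fun r hr => by
    have := D.s1 r hr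
    positivity)
  apply log_le_log h5
  have h1 : ∏ r ∈ S, s r ≤ m * C := D.prod.trans (Nat.le_mul_of_pos_left _ D.hm)
  exact_mod_cast h1

theorem Data.sum_log_sub (D : Data q b m C f P S e s g h d) {T : Finset ℕ} (hT : T ⊆ S) :
    ∑ r ∈ T, log (s r : ℝ) ≤ log ((m * C : ℕ) : ℝ) :=
  (Finset.sum_le_sum_of_subset_of_nonneg hT (fun _ hr _ => D.logs hr)).trans D.sum_log

theorem Data.log_s_le (D : Data q b m C f P S e s g h d) {r : ℕ} (hr : r ∈ S) :
    log (s r : ℝ) ≤ log ((m * C : ℕ) : ℝ) :=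
  (Finset.single_le_sum (f := fun r => log (s r : ℝ)) (fun _ hr => D.logs hr) hr).trans D.sum_log

theorem Data.dvdY (D : Data q b m C f P S e s g h d) {r : ℕ} (hr : r ∈ S) :
    r ^ h r ∣ q ^ (b + 1) + ((q - 1) * m - 1) := by
  have h1 : 1 ≤ (q - 1) * m := Nat.mul_pos (by have := D.q3; omega) D.hm
  have h2 : q ^ (b + 1) + ((q - 1) * m - 1) = (q - 1) * m * (P + 1) := by
    rw [← D.sigq]
    have : (q - 1) * (m * P) + 1 + ((q - 1) * m - 1) = (q - 1) * (m * P) + (q - 1) * m := by omega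
    rw [this]; ring
  rw [h2]
  exact Dvd.dvd.mul_left (D.hdvd r hr) _

/-- `f log q ≤ 0.7 + F` -/
theorem Data.f_le (D : Data q b m C f P S e s g h d) :
    (f : ℝ) * log q ≤ 7 / 10 + log ((m * C : ℕ) : ℝ) := by
  have h1 : ((q ^ f : ℕ) : ℝ) ≤ ((2 * m : ℕ) : ℝ) := by exact_mod_cast D.hf
  have hq : (0 : ℝ) < q := by exact_mod_cast D.hq.pos
  have hm : (0 : ℝ) < m := by exact_mod_cast D.hm
  have hC : (1 : ℝ) ≤ C := by exact_mod_cast D.hC
  push_cast at h1
  have h2 := log_le_log (by positivity) h1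
  rw [log_pow, log_mul (by norm_num) (by positivity)] at h2
  have h3 : log 2 < (0.6931471808 : ℝ) := log_two_lt_d9
  have h4 : log (m : ℝ) ≤ log ((m * C : ℕ) : ℝ) := by
    apply log_le_log hm
    push_cast
    nlinarith
  linarith

/-- a good component forces `5 ≤ q` -/
theorem good_five {q r e s g : ℕ} (hq : q.Prime) (hq2 : q ≠ 2) (hr : r.Prime) (hr2 : r ≠ 2)
    (he : 2 ≤ e) (hs : 1 ≤ s) (hsig : (r - 1) * (s * q ^ g) + 1 = r ^ (e + 1))
    (hgood : s ^ 10 < q ^ g) : 5 ≤ q := by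
  have hFq : Fact q.Prime := ⟨hq⟩
  have h1 := IdxK.ord hq hq2 hr hr2 (by omega) hs hsig hgood
  have h2 := IdxK.not_dvd hq (IdxK.kappa_pos hs hgood) hsig
  have h3 : (r : ZMod q) ≠ 0 := by
    rw [Ne, ZMod.natCast_eq_zero_iff]
    exact h2
  have h4 : e + 1 ∣ q - 1 := by
    rw [← h1]
    exact orderOf_dvd_of_pow_eq_one (ZMod.pow_card_sub_one_eq_one h3)
  have h5 := Nat.le_of_dvd (by have := hq.two_le; omega) h4
  by_contra hcon
  have h6 : q = 4 := by omega
  rw [h6] at hq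
  exact absurd hq (by norm_num)

end

/-- the exponent `clog` -/
theorem clog_le {q : ℕ} (hq : 3 ≤ q) : ((Nat.clog 2 q : ℕ) : ℝ) ≤ (5 / 2) * log q := by
  have h1 := Nat.pow_pred_clog_lt_self (b := 2) (by norm_num) (x := q) (by omega)
  have h2 : ((2 ^ (Nat.clog 2 q).pred : ℕ) : ℝ) ≤ (q : ℝ) := by exact_mod_cast h1.le
  push_cast at h2
  have h3 := log_le_log (by positivity) h2
  rw [log_pow] at h3
  have h4 : (Nat.clog 2 q : ℝ) ≤ ((Nat.clog 2 q).pred : ℝ) + 1 := by
    have : Nat.clog 2 q ≤ (Nat.clog 2 q).pred + 1 := by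
      rw [Nat.pred_eq_sub_one]; omega
    exact_mod_cast this
  have h5 : (0.6931471803 : ℝ) < log 2 := log_two_gt_d9
  have h6 : (1 : ℝ) ≤ log q := by
    have h1 : (3 : ℝ) ≤ q := by exact_mod_cast hq
    exact log3_ge.trans (log_le_log (by norm_num) h1)
  have h7 : (0 : ℝ) ≤ ((Nat.clog 2 q).pred : ℝ) := Nat.cast_nonneg _
  nlinarith

end Pool.Agent.Lib.MP_f02ea4_nt.LP
end

section

/-! Largest prime factor of an odd perfect number: orders of good primes (T7). -/

set_option autoImplicit false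

namespace Pool.Agent.Lib.MP_f02ea4_nt.LP

open Finset Real

/-- T7a -/
theorem roots_card {q G l : ℕ} (hq : q.Prime) (hq2 : q ≠ 2) (hl : 1 ≤ l) (Z : Finset ℕ)
    (hlt : ∀ z ∈ Z, z < q ^ G) (hnd : ∀ z ∈ Z, ¬ q ∣ z) (hG : 1 ≤ G)
    (hroot : ∀ z ∈ Z, z ^ (q - 1) ≡ 1 [MOD q ^ G]) (hl1 : ∀ z ∈ Z, z ^ l ≡ 1 [MOD q]) :
    Z.card ≤ l := by
  have hF : Fact q.Prime := ⟨hq⟩
  have hinj : Set.InjOn (fun z : ℕ => (z : ZMod q)) (Z : Set ℕ) := by
    intro z hz z' hz' h
    have h1 : z ≡ z' [MOD q] := (ZMod.natCast_eq_natCast_iff _ _ _).1 h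
    have h2 := IdxK.lift hq hq2 (hnd z hz) h1 (hroot z hz) (hroot z' hz')
    exact Nat.ModEq.eq_of_lt_of_lt h2 (hlt z hz) (hlt z' hz')
  rw [← Finset.card_image_of_injOn hinj]
  have hsub : Z.image (fun z : ℕ => (z : ZMod q)) ⊆
      (Polynomial.nthRoots l (1 : ZMod q)).toFinset := by
    intro w hw
    obtain ⟨z, hz, rfl⟩ := Finset.mem_image.1 hw
    rw [Multiset.mem_toFinset, Polynomial.mem_nthRoots (by omega)]
    have h1 := (ZMod.natCast_eq_natCast_iff _ _ _).2 (hl1 z hz)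
    push_cast at h1
    exact h1
  calc _ ≤ (Polynomial.nthRoots l (1 : ZMod q)).toFinset.card := Finset.card_le_card hsub
    _ ≤ Multiset.card (Polynomial.nthRoots l (1 : ZMod q)) := Multiset.toFinset_card_le _
    _ ≤ l := Polynomial.card_nthRoots l 1

/-- all facts on `x = r ^ (n / l)` -/
private theorem T7_facts {q r e s G l : ℕ} (hq : q.Prime) (hq2 : q ≠ 2) (hr : r.Prime)
    (hr2 : r ≠ 2) (he : 2 ≤ e) (hs : 1 ≤ s)
    (hsig : (r - 1) * (s * q ^ G) + 1 = r ^ (e + 1)) (hgood : s ^ 10 < q ^ G)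
    (hl : l ∣ e + 1) (hG : 1 ≤ G) :
    (r ^ ((e + 1) / l)) ^ (20 * l) ≤ q ^ (33 * G) ∧
    (r ^ ((e + 1) / l)) ^ l ≡ 1 [MOD q] ∧
    (r ^ ((e + 1) / l)) ^ (q - 1) ≡ 1 [MOD q ^ G] ∧ ¬ q ∣ r ^ ((e + 1) / l) := by
  have h1 := IdxK.le_of_sig hr.one_lt hsig
  have h2 : (r ^ e) ^ 10 ≤ q ^ (11 * G) := by
    calc (r ^ e) ^ 10 ≤ (s * q ^ G) ^ 10 := Nat.pow_le_pow_left h1 _
      _ = s ^ 10 * (q ^ G) ^ 10 := by rw [mul_pow]
      _ ≤ q ^ G * (q ^ G) ^ 10 := Nat.mul_le_mul_right _ hgood.le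
      _ = q ^ (11 * G) := by rw [← pow_succ', ← pow_mul]; congr 1; ring
  have hx : (r ^ ((e + 1) / l)) ^ l = r ^ (e + 1) := by
    rw [← pow_mul, Nat.div_mul_cancel hl]
  have hnd := IdxK.not_dvd hq hG hsig
  refine ⟨?_, ?_, ?_, fun h => hnd (hq.dvd_of_dvd_pow h)⟩
  · calc (r ^ ((e + 1) / l)) ^ (20 * l) = (r ^ (e + 1)) ^ 20 := by
          rw [mul_comm, pow_mul, hx]
      _ = r ^ (20 * e + 20) := by rw [← pow_mul]; congr 1; ring
      _ ≤ r ^ (30 * e) := Nat.pow_le_pow_right hr.pos (by omega)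
      _ = ((r ^ e) ^ 10) ^ 3 := by rw [← pow_mul, ← pow_mul]; congr 1; ring
      _ ≤ (q ^ (11 * G)) ^ 3 := Nat.pow_le_pow_left h2 _
      _ = q ^ (33 * G) := by rw [← pow_mul]; congr 1; ring
  · rw [hx]
    exact (IdxK.pow_modEq hsig).of_dvd (dvd_pow_self q (by omega))
  · have h3 := IdxK.root hq hq2 hr hr2 (by omega) hs hsig hgood
    rw [← pow_mul, mul_comm, pow_mul]
    have h4 := h3.pow ((e + 1) / l)
    rwa [one_pow] at h4

private theorem T7_num {l : ℕ} (hl : l.Prime) (h7 : 7 ≤ l) : l < (3 * l / 10 + 1) ^ 2 := by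
  rcases Nat.lt_or_ge l 20 with h | h
  · interval_cases l <;> first | (norm_num; done) | (exfalso; revert hl; norm_num)
  · have h1 : 3 * l < 10 * (3 * l / 10 + 1) := by omega
    nlinarith

private theorem T7_unique {r r' c c' u v u' v' : ℕ} (hr : r.Prime) (hr' : r'.Prime)
    (hne : r ≠ r') (hc : 1 ≤ c) (hc' : 1 ≤ c')
    (h : (r ^ c) ^ u * (r' ^ c') ^ v = (r ^ c) ^ u' * (r' ^ c') ^ v') : u = u' ∧ v = v' := by
  have key : ∀ {r r' c c' u v u' v' : ℕ}, r.Prime → r'.Prime → r ≠ r' → 1 ≤ c →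
      (r ^ c) ^ u * (r' ^ c') ^ v = (r ^ c) ^ u' * (r' ^ c') ^ v' → u = u' := by
    intro r r' c c' u v u' v' hr hr' hne hc h
    have h1 := congrArg (fun n => n.factorization r) h
    have hr0 := hr.pos.ne'
    have hr0' := hr'.pos.ne'
    have hf : (r'.factorization) r = 0 := by
      rw [hr'.factorization, Finsupp.single_apply, if_neg (Ne.symm hne)]
    have hf1 : (r.factorization) r = 1 := hr.factorization_self
    rw [Nat.factorization_mul (by positivity) (by positivity),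
      Nat.factorization_mul (by positivity) (by positivity)] at h1
    simp only [Nat.factorization_pow, Finsupp.add_apply, Finsupp.smul_apply, smul_eq_mul,
      hf, hf1, mul_zero, mul_one, add_zero] at h1
    exact Nat.eq_of_mul_eq_mul_right (by omega) h1
  refine ⟨key hr hr' hne hc h, key (c' := c) (u := v) (v := u) (u' := v') (v' := u') hr' hr hne.symm hc' ?_⟩
  rw [mul_comm, h, mul_comm]

private theorem T7_pow (a b u v n : ℕ) : (a ^ u * b ^ v) ^ n = (a ^ n) ^ u * (b ^ n) ^ v := by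
  rw [mul_pow, ← pow_mul, ← pow_mul, ← pow_mul, ← pow_mul, mul_comm u, mul_comm v]

/-- T7b -/
theorem count_orders {q G A : ℕ} {S : Finset ℕ} {e s κ : ℕ → ℕ} (hq : q.Prime) (hq2 : q ≠ 2)
    (F : Fam1 q S e s κ) (hG : ∀ r ∈ S, κ r = G) (hA : ∀ r ∈ S, e r + 1 ≤ A) :
    S.card ≤ Nat.primeCounting A + 8 := by
  rcases S.eq_empty_or_nonempty with hS | ⟨r0, hr0⟩
  · rw [hS]; simp
  have hG1 : 1 ≤ G := by
    have h1 := IdxK.kappa_pos (F.c1 r0 hr0) (F.good r0 hr0)
    rwa [hG r0 hr0] at h1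
  have he2 : ∀ r ∈ S, 2 ≤ e r := by
    intro r hr
    obtain ⟨k, hk⟩ := F.even r hr
    have := F.pos r hr
    omega
  set L : ℕ → ℕ := fun r => (e r + 1).minFac with hLdef
  have hLp : ∀ r ∈ S, (L r).Prime := fun r hr => Nat.minFac_prime (by have := he2 r hr; omega)
  have hLd : ∀ r ∈ S, L r ∣ e r + 1 := fun r _ => Nat.minFac_dvd _
  have hLodd : ∀ r ∈ S, L r ≠ 2 := by
    intro r hr h
    have h1 := hLd r hr
    rw [h] at h1
    obtain ⟨k, hk⟩ := F.even r hr
    omega
  have facts : ∀ r ∈ S, (r ^ ((e r + 1) / L r)) ^ (20 * L r) ≤ q ^ (33 * G) ∧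
      (r ^ ((e r + 1) / L r)) ^ L r ≡ 1 [MOD q] ∧
      (r ^ ((e r + 1) / L r)) ^ (q - 1) ≡ 1 [MOD q ^ G] ∧ ¬ q ∣ r ^ ((e r + 1) / L r) := by
    intro r hr
    have h1 := F.sig r hr
    have h2 := F.good r hr
    rw [hG r hr] at h1 h2
    exact T7_facts hq hq2 (F.prime r hr) (F.ne2 r hr) (he2 r hr) (F.c1 r hr) h1 h2 (hLd r hr) hG1
  have hexp : ∀ r ∈ S, 1 ≤ (e r + 1) / L r := fun r hr =>
    (Nat.one_le_div_iff (hLp r hr).pos).2 (Nat.le_of_dvd (by omega) (hLd r hr))
  -- small primes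
  have hsmall : ∀ l : ℕ, l.Prime → l ≠ 2 → (S.filter (fun r => L r = l)).card ≤ l := by
    intro l hl hl2
    have hl3 : 3 ≤ l := by have := hl.two_le; omega
    have hinj : Set.InjOn (fun r => r ^ ((e r + 1) / L r))
        (S.filter (fun r => L r = l) : Finset ℕ) := by
      intro r hr r' hr' h
      have hr1 := (Finset.mem_filter.1 (Finset.mem_coe.1 hr)).1
      have hr1' := (Finset.mem_filter.1 (Finset.mem_coe.1 hr')).1
      have h1 : r ∣ r' ^ ((e r' + 1) / L r') := by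
        have h2 : r ∣ r ^ ((e r + 1) / L r) := dvd_pow_self r (by have := hexp r hr1; omega)
        simp only at h
        rwa [h] at h2
      exact (Nat.prime_dvd_prime_iff_eq (F.prime r hr1) (F.prime r' hr1')).1
        ((F.prime r hr1).dvd_of_dvd_pow h1)
    rw [← Finset.card_image_of_injOn hinj]
    apply roots_card (q := q) (G := G) hq hq2 (by omega)
    · intro z hz
      obtain ⟨r, hr, rfl⟩ := Finset.mem_image.1 hz
      obtain ⟨hr1, hr2⟩ := Finset.mem_filter.1 hr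
      have h1 := (facts r hr1).1
      rw [hr2] at h1 ⊢
      by_contra hcon
      push Not at hcon
      have h2 : (q ^ G) ^ (20 * l) ≤ q ^ (33 * G) := (Nat.pow_le_pow_left hcon _).trans h1
      rw [← pow_mul] at h2
      have h3 := (Nat.pow_le_pow_iff_right hq.one_lt).1 h2
      have h4 : G * 60 ≤ G * (20 * l) := Nat.mul_le_mul_left _ (by omega)
      omega
    · intro z hz
      obtain ⟨r, hr, rfl⟩ := Finset.mem_image.1 hz
      exact (facts r (Finset.mem_filter.1 hr).1).2.2.2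
    · exact hG1
    · intro z hz
      obtain ⟨r, hr, rfl⟩ := Finset.mem_image.1 hz
      exact (facts r (Finset.mem_filter.1 hr).1).2.2.1
    · intro z hz
      obtain ⟨r, hr, rfl⟩ := Finset.mem_image.1 hz
      obtain ⟨hr1, hr2⟩ := Finset.mem_filter.1 hr
      have h1 := (facts r hr1).2.1
      rwa [hr2] at h1 ⊢
  -- large primes
  have hlarge : ∀ r ∈ S, ∀ r' ∈ S, L r = L r' → 7 ≤ L r → r = r' := by
    intro r hr r' hr' hLL h7
    by_contra hne
    obtain ⟨ha1, hb1, hc1, hd1⟩ := facts r hr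
    obtain ⟨ha2, hb2, hc2, hd2⟩ := facts r' hr'
    rw [← hLL] at ha2 hb2 hc2 hd2
    set l := L r with hl
    have hlp : l.Prime := hLp r hr
    set x := r ^ ((e r + 1) / l) with hx
    set x' := r' ^ ((e r' + 1) / l) with hx'
    set k := 3 * l / 10 with hk
    have hk10 : 10 * k ≤ 3 * l := by omega
    have hinj : Set.InjOn (fun w : ℕ × ℕ => x ^ w.1 * x' ^ w.2)
        (range (k + 1) ×ˢ range (k + 1) : Finset (ℕ × ℕ)) := by
      intro w _ w' _ h
      have h1 := T7_unique (F.prime r hr) (F.prime r' hr') hne (hexp r hr)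
        (by have := hexp r' hr'; rwa [← hLL] at this) h
      exact Prod.ext h1.1 h1.2
    have hcard := Finset.card_image_of_injOn hinj
    rw [Finset.card_product, Finset.card_range] at hcard
    have hle : ((range (k + 1) ×ˢ range (k + 1)).image
        (fun w : ℕ × ℕ => x ^ w.1 * x' ^ w.2)).card ≤ l := by
      apply roots_card (q := q) (G := G) hq hq2 (by omega)
      · intro z hz
        obtain ⟨w, hw, rfl⟩ := Finset.mem_image.1 hz
        obtain ⟨hw1, hw2⟩ := Finset.mem_product.1 hw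
        rw [Finset.mem_range] at hw1 hw2
        by_contra hcon
        push Not at hcon
        have h2 : (q ^ G) ^ (20 * l) ≤ q ^ (33 * G * w.1 + 33 * G * w.2) := by
          calc (q ^ G) ^ (20 * l) ≤ (x ^ w.1 * x' ^ w.2) ^ (20 * l) :=
                Nat.pow_le_pow_left hcon _
            _ = (x ^ (20 * l)) ^ w.1 * (x' ^ (20 * l)) ^ w.2 := T7_pow _ _ _ _ _
            _ ≤ (q ^ (33 * G)) ^ w.1 * (q ^ (33 * G)) ^ w.2 :=
                Nat.mul_le_mul (Nat.pow_le_pow_left ha1 _) (Nat.pow_le_pow_left ha2 _)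
            _ = q ^ (33 * G * w.1 + 33 * G * w.2) := by
                rw [pow_add, ← pow_mul, ← pow_mul]
        rw [← pow_mul] at h2
        have h3 := (Nat.pow_le_pow_iff_right hq.one_lt).1 h2
        have h4 : G * (20 * l) ≤ G * (33 * w.1 + 33 * w.2) := by
          calc G * (20 * l) ≤ 33 * G * w.1 + 33 * G * w.2 := h3
            _ = G * (33 * w.1 + 33 * w.2) := by ring
        have h5 := Nat.le_of_mul_le_mul_left h4 (by omega)
        omega
      · intro z hz h
        obtain ⟨w, hw, rfl⟩ := Finset.mem_image.1 hz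
        rcases (Nat.Prime.dvd_mul hq).1 h with h1 | h1
        · exact hd1 (hq.dvd_of_dvd_pow h1)
        · exact hd2 (hq.dvd_of_dvd_pow h1)
      · exact hG1
      · intro z hz
        obtain ⟨w, hw, rfl⟩ := Finset.mem_image.1 hz
        have h1 := (hc1.pow w.1).mul (hc2.pow w.2)
        rw [one_pow, one_pow, one_mul] at h1
        rw [T7_pow]
        exact h1
      · intro z hz
        obtain ⟨w, hw, rfl⟩ := Finset.mem_image.1 hz
        have h1 := (hb1.pow w.1).mul (hb2.pow w.2)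
        rw [one_pow, one_pow, one_mul] at h1
        rw [T7_pow]
        exact h1
    rw [hcard] at hle
    have h1 := T7_num hlp h7
    rw [← hk, sq] at h1
    omega
  -- conclusion
  have hsplit : S ⊆ (S.filter (fun r => L r = 3) ∪ S.filter (fun r => L r = 5)) ∪
      S.filter (fun r => 7 ≤ L r) := by
    intro r hr
    simp only [Finset.mem_union, Finset.mem_filter]
    have h1 := hLp r hr
    have h2 := hLodd r hr
    rcases Nat.lt_or_ge (L r) 7 with h | h
    · left
      have h3 : L r = 3 ∨ L r = 5 := by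
        generalize L r = m at h1 h2 h
        interval_cases m <;> first | (left; rfl) | (right; rfl) | (exfalso; exact h2 rfl) |
          (exfalso; revert h1; norm_num)
      rcases h3 with h3 | h3
      · exact Or.inl ⟨hr, h3⟩
      · exact Or.inr ⟨hr, h3⟩
    · exact Or.inr ⟨hr, h⟩
  have hcl : (S.filter (fun r => 7 ≤ L r)).card ≤ Nat.primeCounting A := by
    have hinj : Set.InjOn L (S.filter (fun r => 7 ≤ L r) : Finset ℕ) := by
      intro r hr r' hr' h
      obtain ⟨h1, h2⟩ := Finset.mem_filter.1 (Finset.mem_coe.1 hr)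
      obtain ⟨h3, h4⟩ := Finset.mem_filter.1 (Finset.mem_coe.1 hr')
      exact hlarge r h1 r' h3 h h2
    rw [← Finset.card_image_of_injOn hinj, Nat.primeCounting, Nat.primeCounting',
      Nat.count_eq_card_filter_range]
    apply Finset.card_le_card
    intro m hm
    obtain ⟨r, hr, rfl⟩ := Finset.mem_image.1 hm
    obtain ⟨h1, h2⟩ := Finset.mem_filter.1 hr
    rw [Finset.mem_filter, Finset.mem_range]
    refine ⟨?_, hLp r h1⟩
    have h3 := Nat.le_of_dvd (by omega) (hLd r h1)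
    have h4 := hA r h1
    omega
  have h3 := hsmall 3 Nat.prime_three (by norm_num)
  have h5 := hsmall 5 Nat.prime_five (by norm_num)
  have h6 := Finset.card_le_card hsplit
  have h7 := Finset.card_union_le (S.filter (fun r => L r = 3) ∪ S.filter (fun r => L r = 5))
      (S.filter (fun r => 7 ≤ L r))
  have h8 := Finset.card_union_le (S.filter (fun r => L r = 3)) (S.filter (fun r => L r = 5))
  omega

end Pool.Agent.Lib.MP_f02ea4_nt.LP
end
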