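import Mathlib
import Pool.Agent.Lib.MP_f02ea4_nt.IdxPig
import Pool.Agent.Lib.MP_f02ea4_nt.IdxLocal
import Pool.Agent.Lib.MP_f02ea4_nt.LPDefs

section

/-! Largest prime factor of an odd perfect number: T2, the local bound for a pair. -/

set_option autoImplicit false

namespace Pool.Agent.Lib.MP_f02ea4_nt.LP

open Finset Real

/-- the core of the local bound -/
private theorem T2_core {r h bet : ℕ} {A B : ℤ} {X : ℝ} (hr : r.Prime) (hr2 : r ≠ 2)
    (hbet : 1 ≤ bet) (hX : 0 ≤ X) (hAo : Odd A) (hB0 : B ≠ 0) (hne : B ≠ A)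
    (hA : |(A : ℝ)| ≤ exp X) (hB : |(B : ℝ)| ≤ exp X)
    (hdvd : ((r : ℤ) ^ h) ∣ B * (1 - (r : ℤ)) ^ bet - A) :
    (h : ℝ) * log r ≤ 6 * X + 22 * (bet * log 2) := by
  have hr3 : 3 ≤ r := by have := hr.two_le; omega
  have hrr : (3 : ℝ) ≤ r := by exact_mod_cast hr3
  have hl : 0 < log r := log_pos (by linarith)
  have hlog2a : (0.6931471803 : ℝ) < log 2 := log_two_gt_d9
  have hlog2b : log 2 < (0.6931471808 : ℝ) := log_two_lt_d9
  have hb0 : (1 : ℝ) ≤ bet := by exact_mod_cast hbet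
  have hbl : log 2 ≤ bet * log 2 := by nlinarith
  have hbl9 : (0.69 : ℝ) * bet ≤ bet * log 2 := by nlinarith
  have hrodd : Odd r := hr.odd_of_ne_two hr2
  have hA0 : A ≠ 0 := by
    intro h0
    rw [h0] at hAo
    exact (Int.not_odd_zero) hAo
  have hnz : B * (1 - (r : ℤ)) ^ bet - A ≠ 0 := by
    intro h0
    have h1 : Even (B * (1 - (r : ℤ)) ^ bet) := by
      apply Even.mul_left
      apply Even.pow_of_ne_zero _ (by omega)
      have : Odd (r : ℤ) := by exact_mod_cast hrodd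
      exact Odd.sub_odd odd_one this
    rw [sub_eq_zero] at h0
    rw [h0] at h1
    exact (Int.not_even_iff_odd.mpr hAo) h1
  have habs : |1 - (r : ℝ)| = r - 1 := by rw [abs_sub_comm, abs_of_pos (by linarith)]
  -- the trivial size bound
  have htriv : (r : ℝ) ^ h ≤ exp X * (r : ℝ) ^ bet := by
    refine (Idx.size_of_dvd hdvd hnz).trans ?_
    push_cast
    refine (abs_sub _ _).trans ?_
    rw [abs_mul, abs_pow, habs]
    have hpowt : ((r : ℝ) - 1) ^ bet + 1 ≤ (r : ℝ) ^ bet := by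
      have h1 : (r - 1) ^ bet < r ^ bet := Nat.pow_lt_pow_left (by omega) (by omega)
      have h3 : (r - 1) ^ bet + 1 ≤ r ^ bet := by omega
      have h4 : (((r - 1) ^ bet + 1 : ℕ) : ℝ) ≤ ((r ^ bet : ℕ) : ℝ) := by exact_mod_cast h3
      push_cast [Nat.cast_sub (show 1 ≤ r by omega)] at h4
      exact h4
    have h2 : |(B : ℝ)| * ((r : ℝ) - 1) ^ bet ≤ exp X * ((r : ℝ) - 1) ^ bet :=
      mul_le_mul_of_nonneg_right hB (pow_nonneg (by linarith) _)
    have h3 : exp X * (((r : ℝ) - 1) ^ bet + 1) ≤ exp X * (r : ℝ) ^ bet :=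
      mul_le_mul_of_nonneg_left hpowt (exp_pos _).le
    linarith
  rcases Nat.eq_zero_or_pos h with h0 | hpos
  · rw [h0]
    simp only [Nat.cast_zero, zero_mul]
    linarith
  rcases lt_or_ge (log r) 15 with h15 | h15
  · have h1 := log_le_log (by positivity) htriv
    rw [log_pow, log_mul (exp_pos _).ne' (by positivity), log_exp, log_pow] at h1
    have h2 : (bet : ℝ) * log r ≤ bet * 15 := mul_le_mul_of_nonneg_left h15.le (by linarith)
    linarith
  rcases Nat.lt_or_ge h 7 with hf7 | hf7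
  · -- `h ≤ 6`
    have h1 : ((r : ℤ) ^ 1) ∣ B - A := by
      have h2 : (r : ℤ) ∣ B * (1 - (r : ℤ)) ^ bet - A := (dvd_pow_self _ (by omega)).trans hdvd
      have h3 : (r : ℤ) ∣ (1 - (r : ℤ)) ^ bet - 1 := by
        have h4 : (1 - (r : ℤ)) - 1 ∣ (1 - (r : ℤ)) ^ bet - 1 ^ bet := sub_dvd_pow_sub_pow _ _ _
        rw [one_pow] at h4
        exact (Dvd.intro (-1) (by ring)).trans h4
      rw [pow_one]
      have h5 : B - A = (B * (1 - (r : ℤ)) ^ bet - A) - B * ((1 - (r : ℤ)) ^ bet - 1) := by ring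
      rw [h5]
      exact dvd_sub h2 (Dvd.dvd.mul_left h3 _)
    have hsize := Idx.size_of_dvd h1 (sub_ne_zero.2 hne)
    rw [pow_one] at hsize
    have h2 : (r : ℝ) ≤ 2 * exp X := by
      refine hsize.trans ?_
      push_cast
      refine (abs_sub _ _).trans ?_
      linarith
    have h3 := log_le_log (by linarith) h2
    rw [log_mul (by norm_num) (exp_pos _).ne', log_exp] at h3
    have h4 : (h : ℝ) ≤ 6 := by
      have : h ≤ 6 := by omega
      exact_mod_cast this
    have h5 : (h : ℝ) * log r ≤ 6 * log r := mul_le_mul_of_nonneg_right h4 hl.le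
    linarith
  set rho := h / 2 with hrho
  rcases Nat.lt_or_ge rho bet with hrt | hrt
  · -- Pade
    obtain ⟨s, hs1, hs2, hs3⟩ := Idx.pade_step (q := r) (f := h) (t := bet) (r := rho) (A := A)
      (B := B) (by omega : 1 ≤ r) hA0 hB0 (by omega) hrt hdvd
    have hq0 : (0 : ℝ) < r := by linarith
    have h1 : (r : ℝ) ^ h ≤ exp X * (2 ^ bet * (2 * (16 * r) ^ s)) := by
      refine hs3.trans ?_
      have h2 : (8 * (r : ℝ)) ^ s ≤ (16 * r) ^ s := by
        apply pow_le_pow_left₀ (by positivity); linarith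
      have h3 : |(B : ℝ)| * (2 ^ bet * (16 * r) ^ s) ≤ exp X * (2 ^ bet * (16 * r) ^ s) :=
        mul_le_mul_of_nonneg_right hB (by positivity)
      have h4 : |(A : ℝ)| * (2 ^ bet * (8 * r) ^ s) ≤ exp X * (2 ^ bet * (16 * r) ^ s) := by
        apply mul_le_mul hA _ (by positivity) (by positivity)
        exact mul_le_mul_of_nonneg_left h2 (by positivity)
      linarith
    have h2 := log_le_log (by positivity) h1
    have h16 : log (16 : ℝ) = 4 * log 2 := by
      rw [show (16 : ℝ) = 2 ^ (4 : ℕ) by norm_num, log_pow]; norm_num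
    rw [log_pow, log_mul (by positivity) (by positivity), log_exp,
      log_mul (by positivity) (by positivity), log_pow, log_mul (by norm_num) (by positivity),
      log_pow, log_mul (by norm_num) (by positivity), h16] at h2
    have hs8 : (s : ℝ) ≤ (5 / 8) * h := by
      have : 8 * s ≤ 5 * h := by omega
      have h5 : (8 : ℝ) * s ≤ 5 * h := by exact_mod_cast this
      linarith
    have hf7r : (7 : ℝ) ≤ h := by exact_mod_cast hf7
    have h6 : (s : ℝ) * (4 * log 2) ≤ (5 / 8) * h * (4 * log 2) :=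
      mul_le_mul_of_nonneg_right hs8 (by linarith)
    have h7 : (s : ℝ) * log r ≤ (5 / 8) * h * log r :=
      mul_le_mul_of_nonneg_right hs8 hl.le
    have h8 : (h : ℝ) * log 2 ≤ h * 0.6931471808 :=
      mul_le_mul_of_nonneg_left hlog2b.le (by positivity)
    have h9 : (h : ℝ) * 15 ≤ h * log r := mul_le_mul_of_nonneg_left h15 (by positivity)
    have h10 : (3 / 8) * (h * log r) ≤ X + bet * log 2 + log 2 + (5 / 2) * (h * log 2) := by
      linarith
    linarith
  · -- `bet ≤ rho`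
    have h2 : (r : ℝ) ^ (h - rho) ≤ exp X := by
      have h3 : (r : ℝ) ^ h = (r : ℝ) ^ (h - rho) * (r : ℝ) ^ rho := by
        rw [← pow_add]; congr 1; omega
      have h4 : (r : ℝ) ^ bet ≤ (r : ℝ) ^ rho := pow_le_pow_right₀ (by linarith) hrt
      have h5 : (r : ℝ) ^ (h - rho) * (r : ℝ) ^ rho ≤ exp X * (r : ℝ) ^ rho := by
        rw [← h3]
        exact htriv.trans (mul_le_mul_of_nonneg_left h4 (exp_pos _).le)
      exact le_of_mul_le_mul_right h5 (by positivity)
    have h3 := Idx.mul_log_le (by linarith) (h - rho) h2 le_rfl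
    have h4 : (h : ℝ) ≤ 2 * ((h - rho : ℕ) : ℝ) := by
      have : h ≤ 2 * (h - rho) := by omega
      exact_mod_cast this
    have h5 : (h : ℝ) * log r ≤ 2 * ((h - rho : ℕ) : ℝ) * log r :=
      mul_le_mul_of_nonneg_right h4 hl.le
    linarith

/-- T2 -/
theorem local_pair {q r m s g e h a lam bet al : ℕ}
    (hq : q.Prime) (hq5 : 5 ≤ q) (hr : r.Prime) (hr2 : r ≠ 2) (hm : 1 ≤ m) (hs : 1 ≤ s)
    (hqs : ¬ q ∣ s) (hsig : (r - 1) * (s * q ^ g) + 1 = r ^ (e + 1)) (hh : h ≤ e + 1)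
    (hY : r ^ h ∣ q ^ a + ((q - 1) * m - 1)) (hlam : 1 ≤ lam) (hbet : 1 ≤ bet)
    (hal : lam * a = bet * g + al ∨ lam * a + al = bet * g) :
    (h : ℝ) * log r ≤ 6 * (al * log q + lam * log (((q - 1) * m - 1 : ℕ) : ℝ) + bet * log s)
      + 22 * (bet * log 2) := by
  have hr3 : 3 ≤ r := by have := hr.two_le; omega
  set Y : ℕ := (q - 1) * m - 1 with hYdef
  have hYm : Y + 1 = (q - 1) * m := by
    have : 1 ≤ (q - 1) * m := Nat.one_le_iff_ne_zero.2 (Nat.mul_ne_zero (by omega) (by omega))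
    omega
  have hY3 : 3 ≤ Y := by
    have : (q - 1) * 1 ≤ (q - 1) * m := Nat.mul_le_mul_left _ hm
    omega
  have hYr : (3 : ℝ) ≤ (Y : ℝ) := by exact_mod_cast hY3
  have hqr : (5 : ℝ) ≤ (q : ℝ) := by exact_mod_cast hq5
  have hsr : (1 : ℝ) ≤ (s : ℝ) := by exact_mod_cast hs
  have hlq : 0 ≤ log q := log_nonneg (by linarith)
  have hlY : 0 ≤ log Y := log_nonneg (by linarith)
  have hls : 0 ≤ log s := log_nonneg hsr
  have t1 : 0 ≤ (al : ℝ) * log q := by positivity
  have t2 : 0 ≤ (lam : ℝ) * log Y := by positivity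
  have t3 : 0 ≤ (bet : ℝ) * log s := by positivity
  have hX : 0 ≤ (al : ℝ) * log q + lam * log Y + bet * log s := by linarith
  have eq : exp (al * log q) = (q : ℝ) ^ al := by rw [exp_nat_mul, exp_log (by linarith)]
  have eY : exp (lam * log Y) = (Y : ℝ) ^ lam := by rw [exp_nat_mul, exp_log (by linarith)]
  have es : exp (bet * log s) = (s : ℝ) ^ bet := by rw [exp_nat_mul, exp_log (by linarith)]
  have hexp : exp (al * log q + lam * log Y + bet * log s) =
      (q : ℝ) ^ al * (Y : ℝ) ^ lam * (s : ℝ) ^ bet := by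
    rw [exp_add, exp_add, eq, eY, es]
  have p1 : (1 : ℝ) ≤ (q : ℝ) ^ al := one_le_pow₀ (by linarith)
  have p2 : (1 : ℝ) ≤ (Y : ℝ) ^ lam := one_le_pow₀ (by linarith)
  have p3 : (1 : ℝ) ≤ (s : ℝ) ^ bet := one_le_pow₀ hsr
  have hqodd : Odd q := hq.odd_of_ne_two (by omega)
  have hqoddZ : Odd (q : ℤ) := by exact_mod_cast hqodd
  -- congruences
  have c1 : ((-(Y : ℤ) : ℤ) : ZMod (r ^ h)) = (q : ZMod (r ^ h)) ^ a := by
    have h1 : ((q ^ a + Y : ℕ) : ZMod (r ^ h)) = 0 := by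
      rw [ZMod.natCast_eq_zero_iff]; exact hY
    push_cast at h1 ⊢
    linear_combination -h1
  have c2 : ((s : ZMod (r ^ h)) * (1 - r)) * (q : ZMod (r ^ h)) ^ g = 1 := by
    have h2 : ((r ^ (e + 1) : ℕ) : ZMod (r ^ h)) = 0 := by
      rw [ZMod.natCast_eq_zero_iff]; exact pow_dvd_pow _ hh
    rw [← hsig] at h2
    push_cast [Nat.cast_sub (show 1 ≤ r by omega)] at h2
    linear_combination -h2
  push_cast at c1
  have c3 : ((s : ZMod (r ^ h)) * (1 - r)) ^ bet * (q : ZMod (r ^ h)) ^ (g * bet) = 1 := by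
    rw [pow_mul, ← mul_pow, c2, one_pow]
  rcases hal with hal | hal
  · -- first case
    refine T2_core (A := (q : ℤ) ^ al) (B := (-(Y : ℤ)) ^ lam * (s : ℤ) ^ bet) hr hr2 hbet hX
      hqoddZ.pow ?_ ?_ ?_ ?_ ?_
    · apply mul_ne_zero
      · apply pow_ne_zero; omega
      · apply pow_ne_zero; omega
    · intro h0
      have h1 := congrArg Int.natAbs h0
      rw [Int.natAbs_mul, Int.natAbs_pow, Int.natAbs_neg, Int.natAbs_pow, Int.natAbs_pow,
        Int.natAbs_natCast, Int.natAbs_natCast, Int.natAbs_natCast] at h1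
      have h2 : Y ∣ q ^ al := by
        rw [← h1]
        exact Dvd.dvd.mul_right (dvd_pow_self _ (by omega)) _
      obtain ⟨j, _, hj2⟩ := (Nat.dvd_prime_pow hq).mp h2
      have h3 : (q - 1) ∣ q ^ j - 1 := by
        simpa using Nat.sub_dvd_pow_sub_pow q 1 j
      have h4 : (q - 1) ∣ q ^ j + 1 := by
        rw [← hj2, hYm]
        exact dvd_mul_right _ _
      have h5 : (q - 1) ∣ (q ^ j + 1) - (q ^ j - 1) := Nat.dvd_sub h4 h3
      have h6 : 1 ≤ q ^ j := Nat.one_le_pow _ _ (by omega)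
      have h7 : (q ^ j + 1) - (q ^ j - 1) = 2 := by omega
      rw [h7] at h5
      have := Nat.le_of_dvd (by norm_num) h5
      omega
    · rw [hexp]
      push_cast
      rw [abs_pow, Nat.abs_cast]
      have h1 : (q : ℝ) ^ al * 1 ≤ (q : ℝ) ^ al * ((Y : ℝ) ^ lam * (s : ℝ) ^ bet) := by
        apply mul_le_mul_of_nonneg_left _ (by positivity)
        nlinarith
      rw [mul_one, ← mul_assoc] at h1
      exact h1
    · rw [hexp]
      push_cast
      rw [abs_mul, abs_pow, abs_pow, abs_neg, Nat.abs_cast, Nat.abs_cast, mul_assoc]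
      exact le_mul_of_one_le_left (by positivity) p1
    · have h1 : ((r ^ h : ℕ) : ℤ) ∣ (-(Y : ℤ)) ^ lam * (s : ℤ) ^ bet * (1 - (r : ℤ)) ^ bet
          - (q : ℤ) ^ al := by
        rw [← ZMod.intCast_zmod_eq_zero_iff_dvd]
        push_cast
        have h2 : (-(Y : ZMod (r ^ h))) ^ lam = (q : ZMod (r ^ h)) ^ (g * bet)
            * (q : ZMod (r ^ h)) ^ al := by
          rw [c1, ← pow_mul, ← pow_add]
          congr 1
          rw [mul_comm a lam, hal, mul_comm bet g]
        rw [h2]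
        have h3 : (s : ZMod (r ^ h)) ^ bet * (1 - (r : ZMod (r ^ h))) ^ bet
            = ((s : ZMod (r ^ h)) * (1 - r)) ^ bet := by rw [mul_pow]
        linear_combination ((q : ZMod (r ^ h)) ^ (g * bet) * (q : ZMod (r ^ h)) ^ al) * h3
          + (q : ZMod (r ^ h)) ^ al * c3
      rwa [Nat.cast_pow] at h1
  · -- second case
    refine T2_core (A := 1) (B := (q : ℤ) ^ al * (-(Y : ℤ)) ^ lam * (s : ℤ) ^ bet) hr hr2 hbet hX
      odd_one ?_ ?_ ?_ ?_ ?_
    · apply mul_ne_zero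
      · apply mul_ne_zero
        · apply pow_ne_zero; omega
        · apply pow_ne_zero; omega
      · apply pow_ne_zero; omega
    · intro h0
      have h1 := congrArg Int.natAbs h0
      rw [Int.natAbs_mul, Int.natAbs_mul, Int.natAbs_pow, Int.natAbs_pow, Int.natAbs_neg,
        Int.natAbs_pow, Int.natAbs_natCast, Int.natAbs_natCast, Int.natAbs_natCast,
        Int.natAbs_one] at h1
      have h2 : q ^ al * Y ^ lam = 1 := Nat.eq_one_of_mul_eq_one_right h1
      have h3 : Y ^ lam = 1 := Nat.eq_one_of_mul_eq_one_left h2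
      have h4 : Y ^ 1 ≤ Y ^ lam := Nat.pow_le_pow_right (by omega) hlam
      rw [pow_one, h3] at h4
      omega
    · rw [hexp]
      push_cast
      rw [abs_one]
      have h1 : (1 : ℝ) ≤ (q : ℝ) ^ al * (Y : ℝ) ^ lam := by nlinarith
      nlinarith
    · rw [hexp]
      push_cast
      rw [abs_mul, abs_mul, abs_pow, abs_pow, abs_pow, abs_neg, Nat.abs_cast, Nat.abs_cast,
        Nat.abs_cast]
    · have h1 : ((r ^ h : ℕ) : ℤ) ∣ (q : ℤ) ^ al * (-(Y : ℤ)) ^ lam * (s : ℤ) ^ bet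
          * (1 - (r : ℤ)) ^ bet - 1 := by
        rw [← ZMod.intCast_zmod_eq_zero_iff_dvd]
        push_cast
        have h2 : (q : ZMod (r ^ h)) ^ al * (-(Y : ZMod (r ^ h))) ^ lam
            = (q : ZMod (r ^ h)) ^ (g * bet) := by
          rw [c1, ← pow_mul, ← pow_add]
          congr 1
          rw [mul_comm a lam, add_comm, hal, mul_comm bet g]
        rw [h2]
        have h3 : (s : ZMod (r ^ h)) ^ bet * (1 - (r : ZMod (r ^ h))) ^ bet
            = ((s : ZMod (r ^ h)) * (1 - r)) ^ bet := by rw [mul_pow]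
        linear_combination ((q : ZMod (r ^ h)) ^ (g * bet)) * h3 + c3
      rwa [Nat.cast_pow] at h1

end Pool.Agent.Lib.MP_f02ea4_nt.LP
end

section

/-! Largest prime factor of an odd perfect number: T3. -/

set_option autoImplicit false

namespace Pool.Agent.Lib.MP_f02ea4_nt.LP

open Finset Real


private theorem T3_dirichlet {g a : ℕ} (hga : g ≤ a) (hg : 1 ≤ g) :
    ∃ lam bet al : ℕ, 1 ≤ lam ∧ lam ≤ 23 ∧ 1 ≤ bet ∧ (bet : ℝ) ≤ 24 * (a / g) ∧
      24 * al ≤ g ∧ (lam * a = bet * g + al ∨ lam * a + al = bet * g) := by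
  obtain ⟨j, k, hk0, hk, hjk⟩ := Real.exists_int_int_abs_mul_sub_le ((a : ℝ) / g) (n := 23)
    (by norm_num)
  have hgr : (1 : ℝ) ≤ g := by exact_mod_cast hg
  have hg0 : (0 : ℝ) < g := by linarith
  have har : (g : ℝ) ≤ a := by exact_mod_cast hga
  have hag : (1 : ℝ) ≤ a / g := by rwa [le_div_iff₀ hg0, one_mul]
  have hk1 : (1 : ℝ) ≤ (k : ℝ) := by exact_mod_cast hk0
  have hk23 : (k : ℝ) ≤ 23 := by exact_mod_cast hk
  rw [abs_le] at hjk
  obtain ⟨h1, h2⟩ := hjk
  have hj0 : (0 : ℝ) < (j : ℝ) := by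
    have : (k : ℝ) * (a / g) ≥ 1 := by nlinarith
    norm_num at h1 h2
    linarith
  have hj0' : 0 < j := by exact_mod_cast hj0
  have hkg : (k : ℝ) * (a / g) * g = k * a := by field_simp
  have h3 : -((g : ℝ)) ≤ 24 * (k * a - j * g) := by
    have := mul_le_mul_of_nonneg_right h1 hg0.le
    norm_num at this
    nlinarith
  have h4 : 24 * ((k : ℝ) * a - j * g) ≤ g := by
    have := mul_le_mul_of_nonneg_right h2 hg0.le
    norm_num at this
    nlinarith
  have h3' : -(g : ℤ) ≤ 24 * (k * a - j * g) := by exact_mod_cast h3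
  have h4' : 24 * (k * a - j * g) ≤ (g : ℤ) := by exact_mod_cast h4
  refine ⟨k.toNat, j.toNat, (k * a - j * g).natAbs, by omega, by omega, by omega, ?_, ?_, ?_⟩
  · have hjc : ((j.toNat : ℕ) : ℝ) = (j : ℝ) := by
      have : ((j.toNat : ℕ) : ℤ) = j := Int.toNat_of_nonneg hj0'.le
      exact_mod_cast congrArg (fun z : ℤ => (z : ℝ)) this
    rw [hjc]
    norm_num at h1 h2
    nlinarith
  · omega
  · have hkc : ((k.toNat : ℕ) : ℤ) = k := Int.toNat_of_nonneg hk0.le
    have hjc : ((j.toNat : ℕ) : ℤ) = j := Int.toNat_of_nonneg hj0'.le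
    rcases le_total 0 (k * a - j * g : ℤ) with h | h
    · left
      have h5 : (((k * a - j * g : ℤ).natAbs : ℕ) : ℤ) = k * a - j * g := Int.natAbs_of_nonneg h
      zify
      rw [hkc, hjc]
      rw [abs_of_nonneg h]
      ring
    · right
      zify
      rw [hkc, hjc]
      rw [abs_of_nonpos h]
      ring

/-- T3 -/
theorem local_main {q r m C s g e h d a : ℕ}
    (hq : q.Prime) (hq5 : 5 ≤ q) (hr : r.Prime) (hr2 : r ≠ 2) (hm : 1 ≤ m) (hC : 1 ≤ C)
    (hs : 1 ≤ s) (hqs : ¬ q ∣ s) (hsig : (r - 1) * (s * q ^ g) + 1 = r ^ (e + 1))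
    (he : e = h + d) (hd : r ^ d ≤ m * C)
    (hY : r ^ h ∣ q ^ a + ((q - 1) * m - 1)) (hga : g ≤ a) (hg : 600 ≤ g)
    (hF : 1400 * log ((m * C : ℕ) : ℝ) ≤ g * log q) :
    (g : ℝ) ^ 2 * log q ≤ 58 * a * (6 * log s + 22 * log 2) := by
  obtain ⟨lam, bet, al, hl1, hl23, hb1, hb24, hal24, hal⟩ := T3_dirichlet hga (by omega : 1 ≤ g)
  have hT2 := local_pair hq hq5 hr hr2 hm hs hqs hsig (by omega : h ≤ e + 1) hY hl1 hb1 hal
  have hgr : (600 : ℝ) ≤ g := by exact_mod_cast hg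
  have hg0 : (0 : ℝ) < g := by linarith
  have har : (g : ℝ) ≤ a := by exact_mod_cast hga
  have ha0 : (0 : ℝ) < a := by linarith
  have hq5r : (5 : ℝ) ≤ q := by exact_mod_cast hq5
  have hq0 : (0 : ℝ) < q := by linarith
  have hr3 : 3 ≤ r := by have := hr.two_le; omega
  have hr3r : (3 : ℝ) ≤ r := by exact_mod_cast hr3
  have hr0 : (0 : ℝ) < r := by linarith
  have hsr : (1 : ℝ) ≤ s := by exact_mod_cast hs
  have hmr : (1 : ℝ) ≤ m := by exact_mod_cast hm
  have hCr : (1 : ℝ) ≤ C := by exact_mod_cast hC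
  -- logarithms
  have hL : (1.6 : ℝ) ≤ log q := by
    have h1 : (1.6 : ℝ) ≤ log 5 := by
      have h5 : (0 : ℝ) < 5 := by norm_num
      rw [Real.le_log_iff_exp_le h5]
      have he := Real.exp_one_lt_d9
      have h8 : Real.exp 1.6 ^ 5 = Real.exp 1 ^ 8 := by
        rw [← Real.exp_nat_mul, ← Real.exp_nat_mul]
        norm_num
      have h9 : Real.exp 1 ^ 8 ≤ (2.7182818286 : ℝ) ^ 8 :=
        pow_le_pow_left₀ (Real.exp_pos 1).le he.le 8
      have h10 : Real.exp 1.6 ^ 5 ≤ 5 ^ 5 := by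
        rw [h8]
        refine h9.trans ?_
        norm_num
      exact le_of_pow_le_pow_left₀ (by norm_num) (by norm_num) h10
    exact h1.trans (Real.log_le_log (by norm_num) hq5r)
  set L := log (q : ℝ) with hLdef
  have hlogs : 0 ≤ log (s : ℝ) := Real.log_nonneg hsr
  have hlogr : 0 ≤ log (r : ℝ) := Real.log_nonneg (by linarith)
  have hlog2 : 0 ≤ log (2 : ℝ) := Real.log_nonneg (by norm_num)
  have hlogC : 0 ≤ log (C : ℝ) := Real.log_nonneg hCr
  have hFe : log ((m * C : ℕ) : ℝ) = log (m : ℝ) + log (C : ℝ) := by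
    rw [Nat.cast_mul, Real.log_mul (by positivity) (by positivity)]
  set F := log ((m * C : ℕ) : ℝ) with hFdef
  have hlogm : 0 ≤ log (m : ℝ) := Real.log_nonneg hmr
  have hF0 : 0 ≤ F := by rw [hFe]; linarith
  have hlogY : log (((q - 1) * m - 1 : ℕ) : ℝ) ≤ L + F := by
    have h1 : (((q - 1) * m - 1 : ℕ) : ℝ) ≤ q * m := by
      have : (q - 1) * m - 1 ≤ q * m :=
        (Nat.sub_le _ _).trans (Nat.mul_le_mul_right m (Nat.sub_le q 1))
      exact_mod_cast this
    have h2 : 0 < (q - 1) * m - 1 := by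
      have : 4 * 1 ≤ (q - 1) * m := Nat.mul_le_mul (by omega) hm
      omega
    have h3 : log (((q - 1) * m - 1 : ℕ) : ℝ) ≤ log ((q : ℝ) * m) :=
      Real.log_le_log (by exact_mod_cast h2) h1
    rw [Real.log_mul (by positivity) (by positivity)] at h3
    rw [hFe]
    linarith
  -- size of r ^ e
  have hsz : (g : ℝ) * L + log s ≤ e * log r + 1 / 2 := by
    have h1 : 2 * (s * q ^ g) ≤ 3 * r ^ e := by
      obtain ⟨u, rfl⟩ : ∃ u, r = u + 3 := ⟨r - 3, by omega⟩
      have h2 : (u + 3 - 1) * (s * q ^ g) + 1 = (u + 3) ^ e * (u + 3) := by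
        rw [hsig, pow_succ]
      have h3 : u + 3 - 1 = u + 2 := by omega
      rw [h3] at h2
      by_contra hcon
      push Not at hcon
      have h4 : (u + 2) * (3 * (u + 3) ^ e) < (u + 2) * (2 * (s * q ^ g)) :=
        Nat.mul_lt_mul_of_pos_left hcon (by omega)
      have h5 : (u + 2) * (2 * (s * q ^ g)) + 2 = 2 * ((u + 3) ^ e * (u + 3)) := by
        rw [← h2]; ring
      have h6 : 2 * ((u + 3) ^ e * (u + 3)) ≤ (u + 2) * (3 * (u + 3) ^ e) := by
        have : 2 * (u + 3) ≤ (u + 2) * 3 := by omega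
        calc 2 * ((u + 3) ^ e * (u + 3)) = (2 * (u + 3)) * (u + 3) ^ e := by ring
          _ ≤ ((u + 2) * 3) * (u + 3) ^ e := Nat.mul_le_mul_right _ this
          _ = (u + 2) * (3 * (u + 3) ^ e) := by ring
      omega
    have h1r : (s : ℝ) * (q : ℝ) ^ g ≤ (3 / 2) * (r : ℝ) ^ e := by
      have : (2 : ℝ) * (s * q ^ g) ≤ 3 * r ^ e := by exact_mod_cast h1
      linarith
    have h2 : log ((s : ℝ) * (q : ℝ) ^ g) ≤ log ((3 / 2) * (r : ℝ) ^ e) :=
      Real.log_le_log (by positivity) h1r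
    rw [Real.log_mul (by positivity) (by positivity), Real.log_mul (by positivity) (by positivity),
      Real.log_pow, Real.log_pow] at h2
    have h3 : log (3 / 2 : ℝ) ≤ 1 / 2 := by
      have := Real.log_le_sub_one_of_pos (show (0 : ℝ) < 3 / 2 by norm_num)
      linarith
    linarith
  have her : (e : ℝ) * log r ≤ h * log r + F := by
    have h1 : (d : ℝ) * log r ≤ F := by
      have h2 : ((r : ℝ)) ^ d ≤ ((m * C : ℕ) : ℝ) := by exact_mod_cast hd
      have h3 := Real.log_le_log (by positivity) h2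
      rwa [Real.log_pow] at h3
    rw [he]
    push_cast
    linarith
  -- the bounds on the three terms
  have hal24r : 24 * (al : ℝ) ≤ g := by exact_mod_cast hal24
  have hl23r : (lam : ℝ) ≤ 23 := by exact_mod_cast hl23
  have t1 : (al : ℝ) * L ≤ g * L / 24 := by nlinarith
  have t2 : (lam : ℝ) * log (((q - 1) * m - 1 : ℕ) : ℝ) ≤ 23 * (L + F) := by
    have hlam0 : (0 : ℝ) ≤ lam := Nat.cast_nonneg _
    calc (lam : ℝ) * log (((q - 1) * m - 1 : ℕ) : ℝ) ≤ lam * (L + F) :=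
          mul_le_mul_of_nonneg_left hlogY hlam0
      _ ≤ 23 * (L + F) := mul_le_mul_of_nonneg_right hl23r (by linarith)
  set X := 6 * log (s : ℝ) + 22 * log 2 with hX
  have hX0 : 0 ≤ X := by rw [hX]; linarith
  have t3 : (bet : ℝ) * X ≤ 24 * (a / g) * X := mul_le_mul_of_nonneg_right hb24 hX0
  have hgL : 600 * L ≤ g * L := mul_le_mul_of_nonneg_right hgr (by linarith)
  have key : (g : ℝ) * L ≤ g * L / 4 + 138 * L + 139 * F + 1 / 2 + 24 * (a / g) * X := by
    have : 6 * ((al : ℝ) * L + lam * log (((q - 1) * m - 1 : ℕ) : ℝ) + bet * log s)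
      + 22 * (bet * log 2) = 6 * ((al : ℝ) * L) + 6 * (lam * log (((q - 1) * m - 1 : ℕ) : ℝ))
        + bet * X := by rw [hX]; ring
    rw [this] at hT2
    linarith
  have key2 : (24 / 58 : ℝ) * (g * L) ≤ 24 * (a / g) * X := by linarith
  have key3 := mul_le_mul_of_nonneg_left key2 (show (0 : ℝ) ≤ 58 / 24 * g by positivity)
  have e1 : 58 / 24 * (g : ℝ) * (24 / 58 * (g * L)) = (g : ℝ) ^ 2 * L := by ring
  have e2 : 58 / 24 * (g : ℝ) * (24 * (a / g) * X) = 58 * a * X := by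
    field_simp
  rw [e1, e2] at key3
  exact key3

end Pool.Agent.Lib.MP_f02ea4_nt.LP
end
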