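import Mathlib
import Pool.Agent.Lib.MP_f02ea4_nt.Mg.G010
import Pool.Agent.Lib.MP_f02ea4_nt.LP_T1
import Pool.Agent.Lib.MP_f02ea4_nt.Mg.G011
import Pool.Agent.Lib.MP_f02ea4_nt.IdxGood
import Pool.Agent.Lib.MP_f02ea4_nt.IdxPig
import Pool.Agent.Lib.MP_f02ea4_nt.LPDefs
import Pool.Agent.Lib.MP_f02ea4_nt.LpDet
import Pool.Agent.Lib.MP_f02ea4_nt.LP_T9
import Pool.Agent.Lib.MP_f02ea4_nt.Mg.G014
import Pool.Agent.Lib.MP_f02ea4_nt.LP_T11b

section

/-! Largest prime factor of an odd perfect number: T4, the regime `log q ≤ 10⁻⁸ (b + 1)`. -/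

set_option autoImplicit false

namespace Pool.Agent.Lib.MP_f02ea4_nt.LP

open Finset Real


section
variable {q b m C f P : ℕ} {S : Finset ℕ} {e s g h d : ℕ → ℕ}

/-- components with `s ^ 10 ≥ q ^ g` -/
theorem Data.nongood (D : Data q b m C f P S e s g h d) {T : Finset ℕ} (hT : T ⊆ S)
    (hng : ∀ r ∈ T, q ^ g r ≤ s r ^ 10) :
    (∑ r ∈ T, (g r : ℝ)) * log q ≤ 10 * log ((m * C : ℕ) : ℝ) := by
  rw [Finset.sum_mul]
  calc ∑ r ∈ T, (g r : ℝ) * log q ≤ ∑ r ∈ T, 10 * log (s r : ℝ) := by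
        apply Finset.sum_le_sum
        intro r hr
        have h1 : ((q ^ g r : ℕ) : ℝ) ≤ ((s r ^ 10 : ℕ) : ℝ) := by exact_mod_cast hng r hr
        have hq : (0 : ℝ) < q := by exact_mod_cast D.hq.pos
        push_cast at h1
        have h2 := log_le_log (by positivity) h1
        rw [log_pow, log_pow] at h2
        push_cast at h2
        exact h2
    _ = 10 * ∑ r ∈ T, log (s r : ℝ) := by rw [Finset.mul_sum]
    _ ≤ _ := mul_le_mul_of_nonneg_left (D.sum_log_sub hT) (by norm_num)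

/-- the family of good components -/
theorem Data.fam (D : Data q b m C f P S e s g h d) {T : Finset ℕ} (hT : T ⊆ S)
    (hgood : ∀ r ∈ T, s r ^ 10 < q ^ g r) : Fam1 q T e s g :=
  ⟨fun r hr => D.prime r (hT hr), fun r hr => D.ne2 r (hT hr), fun r hr => D.even r (hT hr),
    fun r hr => D.pos r (hT hr), fun r hr => D.s1 r (hT hr), fun r hr => D.sig r (hT hr), hgood⟩

/-- the local bound for a good component -/
theorem Data.localb (D : Data q b m C f P S e s g h d) {r : ℕ} (hr : r ∈ S)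
    (hgood : s r ^ 10 < q ^ g r) (hg : 600 ≤ g r)
    (hF : 1400 * log ((m * C : ℕ) : ℝ) ≤ g r * log q) :
    (g r : ℝ) ^ 2 * log q ≤ 58 * ((b : ℝ) + 1) * (6 * log (s r) + 22 * log 2) := by
  have h1 := local_main (a := b + 1) D.hq (good_five D.hq D.hq2 (D.prime r hr) (D.ne2 r hr)
    (D.e2 hr) (D.s1 r hr) (D.sig r hr) hgood) (D.prime r hr) (D.ne2 r hr) D.hm D.hC (D.s1 r hr)
    (D.nd r hr) (D.sig r hr) (D.he r hr) (D.hd r hr) (D.dvdY hr)
    ((D.gb hr).trans (Nat.le_succ b)) hg hF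
  push_cast at h1
  exact h1

/-- the consequence for `s = 1` and `s ≥ 2` -/
theorem Data.localb' (D : Data q b m C f P S e s g h d) {r : ℕ} (hr : r ∈ S)
    (hgood : s r ^ 10 < q ^ g r) (hg : 600 ≤ g r)
    (hF : 1400 * log ((m * C : ℕ) : ℝ) ≤ g r * log q)
    (h1 : 900 * ((b : ℝ) + 1) ≤ (g r : ℝ) ^ 2 * log q) :
    2 ≤ s r ∧ (g r : ℝ) ^ 2 * log q ≤ 1624 * ((b : ℝ) + 1) * log (s r) := by
  have h2 := D.localb hr hgood hg hF
  have h3 : log 2 < (0.6931471808 : ℝ) := log_two_lt_d9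
  have hb : (0 : ℝ) < (b : ℝ) + 1 := by positivity
  have hs2 : 2 ≤ s r := by
    by_contra hcon
    have h4 : s r = 1 := by have := D.s1 r hr; omega
    rw [h4] at h2
    simp only [Nat.cast_one, log_one, mul_zero, zero_add] at h2
    nlinarith
  refine ⟨hs2, h2.trans ?_⟩
  have h5 : log 2 ≤ log (s r : ℝ) := log_le_log (by norm_num) (by exact_mod_cast hs2)
  nlinarith

/-- T4 -/
theorem regimeA
    (D : Data q b m C f P S e s g h d) (hL : log q ≤ ((b : ℝ) + 1) / 10 ^ 8)
    (hF : log ((m * C : ℕ) : ℝ) ≤ ((b : ℝ) + 1) / 10 ^ 8) : False := by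
  classical
  set F := log ((m * C : ℕ) : ℝ) with hFdef
  set L := log (q : ℝ) with hLdef
  set a : ℝ := (b : ℝ) + 1 with ha
  have hb2 : (2 : ℝ) ≤ b := by exact_mod_cast D.hb
  have ha3 : 3 ≤ a := by rw [ha]; linarith
  have hL1 : 1 ≤ L := D.L1
  have hF0 : 0 ≤ F := D.F0
  rw [le_div_iff₀ (by positivity)] at hL hF
  -- the threshold
  set z := sqrt (a / L) with hz
  have hz0 : 0 ≤ z := sqrt_nonneg _
  have hzz : z * z * L = a := by
    rw [hz, mul_self_sqrt (by positivity)]
    field_simp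
  have hLz : L * z ≤ a / 10 ^ 4 := by
    rw [le_div_iff₀ (by positivity)]
    by_contra hcon
    push Not at hcon
    have h1 : a * a < (L * z * 10 ^ 4) * (L * z * 10 ^ 4) :=
      mul_lt_mul'' hcon hcon (by positivity) (by positivity)
    have h2 : (L * z * 10 ^ 4) * (L * z * 10 ^ 4) = (L * 10 ^ 8) * (z * z * L) := by ring
    rw [h2, hzz] at h1
    have h3 : L * 10 ^ 8 * a ≤ a * a := mul_le_mul_of_nonneg_right hL (by positivity)
    linarith
  set X : ℕ := ⌈600 + 20000 * F / L + 30 * z⌉₊ with hX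
  have hX1 : 600 + 20000 * F / L + 30 * z ≤ X := Nat.le_ceil _
  have hX2 : (X : ℝ) < 600 + 20000 * F / L + 30 * z + 1 := Nat.ceil_lt_add_one (by positivity)
  have hFL : 0 ≤ 20000 * F / L := by positivity
  have hX600 : 600 ≤ X := by
    have : (600 : ℝ) ≤ X := by linarith
    exact_mod_cast this
  have hLX : L * X ≤ a * (33 / 10000) := by
    have h1 : L * X ≤ L * (600 + 20000 * F / L + 30 * z + 1) :=
      mul_le_mul_of_nonneg_left hX2.le (by linarith)
    have h2 : L * (600 + 20000 * F / L + 30 * z + 1) = 601 * L + 20000 * F + 30 * (L * z) := by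
      field_simp
      ring
    rw [h2] at h1
    linarith
  -- the three classes
  set S1 := S.filter (fun r => q ^ g r ≤ s r ^ 10) with hS1
  set S' := S.filter (fun r => ¬ q ^ g r ≤ s r ^ 10) with hS'
  set S2 := S'.filter (fun r => g r ≤ X) with hS2
  set S3 := S'.filter (fun r => ¬ g r ≤ X) with hS3
  have hsub1 : S1 ⊆ S := Finset.filter_subset _ _
  have hsub' : S' ⊆ S := Finset.filter_subset _ _
  have hsub2 : S2 ⊆ S := (Finset.filter_subset _ _).trans hsub'
  have hsub3 : S3 ⊆ S := (Finset.filter_subset _ _).trans hsub'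
  have hgood2 : ∀ r ∈ S2, s r ^ 10 < q ^ g r := fun r hr =>
    not_le.1 (Finset.mem_filter.1 (Finset.mem_filter.1 hr).1).2
  have hgood3 : ∀ r ∈ S3, s r ^ 10 < q ^ g r := fun r hr =>
    not_le.1 (Finset.mem_filter.1 (Finset.mem_filter.1 hr).1).2
  have hsplit : ∑ r ∈ S, (g r : ℝ)
      = ∑ r ∈ S1, (g r : ℝ) + (∑ r ∈ S2, (g r : ℝ) + ∑ r ∈ S3, (g r : ℝ)) := by
    rw [hS2, hS3, Finset.sum_filter_add_sum_filter_not, hS1, hS',
      Finset.sum_filter_add_sum_filter_not]
  have hbsum : (b : ℝ) = f + ∑ r ∈ S, (g r : ℝ) := by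
    have := D.sum
    exact_mod_cast this.symm
  -- class 1
  have hc1 : ∑ r ∈ S1, (g r : ℝ) ≤ 10 * F := by
    have h1 := D.nongood hsub1 (fun r hr => (Finset.mem_filter.1 hr).2)
    have h2 : 0 ≤ ∑ r ∈ S1, (g r : ℝ) := Finset.sum_nonneg (fun _ _ => Nat.cast_nonneg _)
    have h3 : ∑ r ∈ S1, (g r : ℝ) ≤ (∑ r ∈ S1, (g r : ℝ)) * L := le_mul_of_one_le_right h2 hL1
    exact h3.trans h1
  -- class 2
  have hc2 : ∑ r ∈ S2, (g r : ℝ) ≤ a * (6 / 100) := by
    have h1 := sum_kappa1 D.hq D.hq2 (D.fam hsub2 hgood2) (Nat.clog 2 q) X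
      (fun r hr => (Finset.mem_filter.1 hr).2) (Nat.le_pow_clog (by norm_num) q)
    have h2 : 5 * ∑ r ∈ S2, (g r : ℝ) ≤ 32 * (Nat.clog 2 q : ℝ) * X := by exact_mod_cast h1
    have h3 := clog_le D.q3
    have h4 : 32 * (Nat.clog 2 q : ℝ) * X ≤ 32 * ((5 / 2) * L) * X := by
      apply mul_le_mul_of_nonneg_right _ (Nat.cast_nonneg _)
      exact mul_le_mul_of_nonneg_left h3 (by norm_num)
    nlinarith
  -- class 3
  have hX3 : ∀ r ∈ S3, 2 ≤ s r ∧ (g r : ℝ) * (20000 * F) ≤ 1624 * a * log (s r : ℝ) := by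
    intro r hr
    have h1 : (X : ℝ) ≤ g r := by
      have := not_le.1 (Finset.mem_filter.1 hr).2
      exact_mod_cast this.le
    have hg0 : (0 : ℝ) ≤ g r := Nat.cast_nonneg _
    have h2 : 20000 * F ≤ g r * L := by
      have h3 : 20000 * F / L ≤ g r := by linarith
      rwa [div_le_iff₀ (by linarith)] at h3
    have h600 : 600 ≤ g r := by
      have : (600 : ℝ) ≤ g r := by linarith
      exact_mod_cast this
    have h4 : 900 * a ≤ (g r : ℝ) ^ 2 * L := by
      have h5 : 30 * z ≤ g r := by linarith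
      have h6 : (30 * z) * (30 * z) ≤ (g r : ℝ) * g r := mul_le_mul h5 h5 (by positivity) hg0
      calc 900 * a = (30 * z) * (30 * z) * L := by rw [← hzz]; ring
        _ ≤ (g r : ℝ) * g r * L := mul_le_mul_of_nonneg_right h6 (by linarith)
        _ = _ := by ring
    obtain ⟨h7, h8⟩ := D.localb' (hsub3 hr) (hgood3 r hr) h600 (by linarith) h4
    refine ⟨h7, ?_⟩
    calc (g r : ℝ) * (20000 * F) ≤ (g r : ℝ) * (g r * L) := mul_le_mul_of_nonneg_left h2 hg0
      _ = (g r : ℝ) ^ 2 * L := by ring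
      _ ≤ _ := h8
  have hc3 : ∑ r ∈ S3, (g r : ℝ) ≤ a * (9 / 100) := by
    rcases eq_or_lt_of_le hF0 with h0 | hpos
    · -- `F = 0`
      have hempty : S3 = ∅ := by
        apply Finset.eq_empty_of_forall_notMem
        intro r hr
        have h1 := (hX3 r hr).1
        have h2 := D.log_s_le (hsub3 hr)
        have h3 : 0 < log (s r : ℝ) := log_pos (by exact_mod_cast (by omega : 1 < s r))
        linarith
      rw [hempty, Finset.sum_empty]
      positivity
    · have h1 : (∑ r ∈ S3, (g r : ℝ)) * (20000 * F) ≤ 1624 * a * F := by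
        rw [Finset.sum_mul]
        calc ∑ r ∈ S3, (g r : ℝ) * (20000 * F) ≤ ∑ r ∈ S3, 1624 * a * log (s r : ℝ) :=
              Finset.sum_le_sum (fun r hr => (hX3 r hr).2)
          _ = 1624 * a * ∑ r ∈ S3, log (s r : ℝ) := by rw [Finset.mul_sum]
          _ ≤ _ := mul_le_mul_of_nonneg_left (D.sum_log_sub hsub3) (by positivity)
      have h2 : ((∑ r ∈ S3, (g r : ℝ)) * 20000) * F ≤ (1624 * a) * F := by linarith
      have h3 := le_of_mul_le_mul_right h2 hpos
      linarith
  -- `f`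
  have hf : (f : ℝ) ≤ 7 / 10 + F := by
    have h1 := D.f_le
    have h2 : (f : ℝ) ≤ f * L := le_mul_of_one_le_right (Nat.cast_nonneg _) hL1
    linarith
  have : a = b + 1 := ha
  linarith

end

end Pool.Agent.Lib.MP_f02ea4_nt.LP
end

section

/-! Largest prime factor of an odd perfect number: task T8, the regime `b ≤ 10^8 log q`. -/

set_option autoImplicit false

namespace Pool.Agent.Lib.MP_f02ea4_nt.LP

open Finset Real


/-! ### elementary consequences of the data -/

section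
variable {q b m C f P : ℕ} {S : Finset ℕ} {e s g h d : ℕ → ℕ}

lemma T8_q3 (D : Data q b m C f P S e s g h d) : 3 ≤ q := by
  have := D.hq.two_le
  have := D.hq2
  omega

lemma T8_r3 (D : Data q b m C f P S e s g h d) {r : ℕ} (hr : r ∈ S) : 3 ≤ r := by
  have := (D.prime r hr).two_le
  have := D.ne2 r hr
  omega

/-- `q^(b+1) + (q-1) m - 1 = (q-1) m (P+1)` -/
lemma T8_cong (D : Data q b m C f P S e s g h d) {r : ℕ} (hr : r ∈ S) :
    r ^ h r ∣ q ^ (b + 1) + ((q - 1) * m - 1) := by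
  have h1 : q ^ (b + 1) + ((q - 1) * m - 1) = (q - 1) * m * (P + 1) := by
    rw [← D.sigq]
    have h2 : 1 ≤ (q - 1) * m := Nat.one_le_iff_ne_zero.mpr
      (Nat.mul_ne_zero (by have := T8_q3 D; omega) (by have := D.hm; omega))
    have h3 : (q - 1) * m * (P + 1) = (q - 1) * (m * P) + (q - 1) * m := by ring
    omega
  rw [h1]
  exact Dvd.dvd.mul_left (D.hdvd r hr) _

lemma T8_congZ (D : Data q b m C f P S e s g h d) {r : ℕ} (hr : r ∈ S) :
    ((r ^ h r : ℕ) : ℤ) ∣ (q : ℤ) ^ (b + 1) + m * q - (m + 1) := by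
  have h1 := Int.natCast_dvd_natCast.mpr (T8_cong D hr)
  have h2 : 1 ≤ (q - 1) * m := Nat.one_le_iff_ne_zero.mpr
      (Nat.mul_ne_zero (by have := T8_q3 D; omega) (by have := D.hm; omega))
  have h3 : ((q ^ (b + 1) + ((q - 1) * m - 1) : ℕ) : ℤ) = (q : ℤ) ^ (b + 1) + m * q - (m + 1) := by
    push_cast [Nat.cast_sub h2, Nat.cast_sub (show 1 ≤ q by have := T8_q3 D; omega)]
    ring
  rw [h3] at h1
  exact h1

lemma T8_sigZ (D : Data q b m C f P S e s g h d) {r : ℕ} (hr : r ∈ S) :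
    ((r ^ h r : ℕ) : ℤ) ∣ ((s r : ℤ) * (1 - r)) * (q : ℤ) ^ g r - 1 := by
  have h1 : h r ≤ e r + 1 := by have := D.he r hr; omega
  have h2 : ((r ^ h r : ℕ) : ℤ) ∣ ((r ^ (e r + 1) : ℕ) : ℤ) :=
    Int.natCast_dvd_natCast.mpr (pow_dvd_pow _ h1)
  rw [← D.sig r hr] at h2
  have h3 : (((r - 1) * (s r * q ^ g r) + 1 : ℕ) : ℤ)
      = -(((s r : ℤ) * (1 - r)) * (q : ℤ) ^ g r - 1) := by
    push_cast [Nat.cast_sub (show 1 ≤ r by have := T8_r3 D hr; omega)]
    ring
  rw [h3] at h2
  exact (dvd_neg).mp h2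

lemma T8_F0 (D : Data q b m C f P S e s g h d) : 0 ≤ log ((m * C : ℕ) : ℝ) := by
  apply log_nonneg
  have : 1 ≤ m * C := Nat.one_le_iff_ne_zero.mpr
    (Nat.mul_ne_zero (by have := D.hm; omega) (by have := D.hC; omega))
  exact_mod_cast this

lemma T8_logm (D : Data q b m C f P S e s g h d) : log (m : ℝ) ≤ log ((m * C : ℕ) : ℝ) := by
  have hm : (0 : ℝ) < m := by have := D.hm; positivity
  apply log_le_log hm
  have : m ≤ m * C := Nat.le_mul_of_pos_right _ D.hC
  exact_mod_cast this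

/-- `∑ log s ≤ F` -/
lemma T8_sumlog (D : Data q b m C f P S e s g h d) :
    ∑ r ∈ S, log (s r : ℝ) ≤ log ((m * C : ℕ) : ℝ) := by
  have h1 : ∀ r ∈ S, (s r : ℝ) ≠ 0 := by
    intro r hr
    have := D.s1 r hr
    positivity
  rw [← log_prod h1]
  have h2 : (0 : ℝ) < ∏ r ∈ S, (s r : ℝ) := by
    apply Finset.prod_pos
    intro r hr
    have := D.s1 r hr
    positivity
  apply log_le_log h2
  have h3 : ∏ r ∈ S, s r ≤ m * C := D.prod.trans (Nat.le_mul_of_pos_left _ D.hm)
  exact_mod_cast h3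

lemma T8_logs0 (D : Data q b m C f P S e s g h d) {r : ℕ} (hr : r ∈ S) :
    0 ≤ log (s r : ℝ) := by
  apply log_nonneg
  exact_mod_cast D.s1 r hr

lemma T8_logs (D : Data q b m C f P S e s g h d) {r : ℕ} (hr : r ∈ S) :
    log (s r : ℝ) ≤ log ((m * C : ℕ) : ℝ) := by
  refine le_trans ?_ (T8_sumlog D)
  exact Finset.single_le_sum (f := fun r => log (s r : ℝ)) (fun r hr => T8_logs0 D hr) hr

/-- `2 s q^g ≤ 3 r^e` in logarithmic form -/
lemma T8_up (D : Data q b m C f P S e s g h d) {r : ℕ} (hr : r ∈ S) :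
    (g r : ℝ) * log q + log (s r : ℝ) ≤ e r * log r + 1 / 2 := by
  have hr3 := T8_r3 D hr
  have h1 : 2 * (s r * q ^ g r) ≤ 3 * r ^ e r := by
    have h2 := D.sig r hr
    have h3 : 2 * r ≤ 3 * (r - 1) := by omega
    have h4 : (2 * r) * (s r * q ^ g r) ≤ (3 * (r - 1)) * (s r * q ^ g r) :=
      Nat.mul_le_mul_right _ h3
    have h5 : r ^ (e r + 1) = r * r ^ e r := by rw [pow_succ']
    rw [h5] at h2
    have h6 : r * (2 * (s r * q ^ g r)) ≤ r * (3 * r ^ e r) := by
      calc r * (2 * (s r * q ^ g r)) = (2 * r) * (s r * q ^ g r) := by ring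
        _ ≤ (3 * (r - 1)) * (s r * q ^ g r) := h4
        _ = 3 * ((r - 1) * (s r * q ^ g r)) := by ring
        _ ≤ 3 * (r * r ^ e r) := by omega
        _ = r * (3 * r ^ e r) := by ring
    exact Nat.le_of_mul_le_mul_left h6 (by omega)
  have hs0 : (0 : ℝ) < s r := by have := D.s1 r hr; positivity
  have hq0 : (0 : ℝ) < q := by have := T8_q3 D; positivity
  have hr0 : (0 : ℝ) < r := by positivity
  have h2 : (2 : ℝ) * ((s r : ℝ) * (q : ℝ) ^ g r) ≤ 3 * (r : ℝ) ^ e r := by exact_mod_cast h1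
  have h3 := log_le_log (by positivity) h2
  rw [log_mul (by norm_num) (by positivity), log_mul (by positivity) (by positivity),
    log_mul (by norm_num) (by positivity), log_pow, log_pow] at h3
  have h4 : log 3 ≤ log 2 + 1 / 2 := by
    have h5 : log (3 : ℝ) = log 2 + log (3 / 2) := by
      rw [← log_mul (by norm_num) (by norm_num)]; norm_num
    have h6 : log (3 / 2 : ℝ) ≤ 3 / 2 - 1 := log_le_sub_one_of_pos (by norm_num)
    linarith
  linarith

/-- `r^e ≤ s q^g` in logarithmic form -/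
lemma T8_low (D : Data q b m C f P S e s g h d) {r : ℕ} (hr : r ∈ S) :
    (e r : ℝ) * log r ≤ g r * log q + log (s r : ℝ) := by
  have hr3 := T8_r3 D hr
  have h1 : r ^ e r ≤ s r * q ^ g r := by
    have h2 := D.sig r hr
    have h5 : r ^ (e r + 1) = r * r ^ e r := by rw [pow_succ']
    rw [h5] at h2
    have hc : 1 ≤ r ^ e r := Nat.one_le_pow _ _ (by omega)
    by_contra hcon
    push Not at hcon
    have h3 : (r - 1) * (s r * q ^ g r + 1) ≤ (r - 1) * r ^ e r := Nat.mul_le_mul_left _ hcon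
    have h4 : r * r ^ e r = (r - 1) * r ^ e r + r ^ e r := by
      obtain ⟨x, rfl⟩ : ∃ x, r = x + 1 := ⟨r - 1, by omega⟩
      simp only [Nat.add_sub_cancel]
      ring
    have h6 : (r - 1) * (s r * q ^ g r + 1) = (r - 1) * (s r * q ^ g r) + (r - 1) := by ring
    omega
  have hs0 : (0 : ℝ) < s r := by have := D.s1 r hr; positivity
  have hq0 : (0 : ℝ) < q := by have := T8_q3 D; positivity
  have hr0 : (0 : ℝ) < r := by positivity
  have h2 : (r : ℝ) ^ e r ≤ (s r : ℝ) * (q : ℝ) ^ g r := by exact_mod_cast h1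
  have h3 := log_le_log (by positivity) h2
  rw [log_mul (by positivity) (by positivity), log_pow, log_pow] at h3
  linarith

/-- `e log r ≤ h log r + F` -/
lemma T8_hd (D : Data q b m C f P S e s g h d) {r : ℕ} (hr : r ∈ S) :
    (e r : ℝ) * log r ≤ h r * log r + log ((m * C : ℕ) : ℝ) := by
  have hr3 := T8_r3 D hr
  have hr0 : (0 : ℝ) < r := by positivity
  have h1 : (d r : ℝ) * log r ≤ log ((m * C : ℕ) : ℝ) := by
    rw [← log_pow]
    apply log_le_log (by positivity)
    exact_mod_cast D.hd r hr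
  have h2 : (e r : ℝ) = h r + d r := by exact_mod_cast D.he r hr
  rw [h2]
  linarith

/-- the determinant bound in logarithmic form -/
lemma T8_det (D : Data q b m C f P S e s g h d) {r : ℕ} (hr : r ∈ S) (hg1 : 1 ≤ g r)
    (hgb : g r ≤ b) :
    (h r : ℝ) * log r ≤ ((b : ℝ) + 1) * (log (s r : ℝ) + log r)
      + g r * (7 / 5 + log ((m * C : ℕ) : ℝ)) := by
  have hr3 := T8_r3 D hr
  have hs1 := D.s1 r hr
  have habs : |(s r : ℤ) * (1 - (r : ℤ))| = s r * ((r : ℤ) - 1) := by
    rw [abs_mul, Nat.abs_cast, abs_sub_comm, abs_of_nonneg (by omega)]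
  have hU : 2 ≤ |(s r : ℤ) * (1 - (r : ℤ))| := by
    rw [habs]
    have h1 : (1 : ℤ) ≤ s r := by exact_mod_cast hs1
    have h2 : (2 : ℤ) ≤ (r : ℤ) - 1 := by omega
    nlinarith
  have h1 := Lp.det_bound (R := r ^ h r) (a := b + 1) hU hg1 (by omega) (T8_sigZ D hr)
    (T8_congZ D hr)
  rw [habs] at h1
  have hs0 : (0 : ℝ) < s r := by positivity
  have hr0 : (0 : ℝ) < r := by positivity
  have hr1 : (3 : ℝ) ≤ r := by exact_mod_cast hr3
  have hm1 : (1 : ℝ) ≤ m := by exact_mod_cast D.hm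
  have h2 : (r : ℝ) ^ h r ≤ ((s r : ℝ) * (r - 1)) ^ (b + 1) * (2 * m + 2) ^ g r := by
    have h3 : (((r ^ h r : ℕ) : ℤ) : ℝ)
        ≤ (((s r * ((r : ℤ) - 1)) ^ (b + 1) * (2 * (m : ℤ) + 2) ^ g r : ℤ) : ℝ) := by
      exact_mod_cast h1
    push_cast at h3
    exact h3
  have h3 : (r : ℝ) ^ h r ≤ ((s r : ℝ) * r) ^ (b + 1) * (4 * m) ^ g r := by
    refine h2.trans ?_
    apply mul_le_mul
    · apply pow_le_pow_left₀ (mul_nonneg hs0.le (by linarith))
      exact mul_le_mul_of_nonneg_left (by linarith) hs0.le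
    · apply pow_le_pow_left₀ (by positivity)
      linarith
    · positivity
    · positivity
  have h4 := log_le_log (by positivity) h3
  rw [log_mul (by positivity) (by positivity), log_pow, log_pow, log_pow,
    log_mul (by positivity) (by positivity), log_mul (by positivity) (by positivity)] at h4
  push_cast at h4
  have h5 : log (4 : ℝ) ≤ 7 / 5 := by
    have h6 : log (4 : ℝ) = 2 * log 2 := by
      rw [show (4 : ℝ) = 2 ^ (2 : ℕ) by norm_num, log_pow]; norm_num
    have := log_two_lt_d9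
    linarith
  have h6 := T8_logm D
  have h7 : (g r : ℝ) * (log 4 + log m) ≤ g r * (7 / 5 + log ((m * C : ℕ) : ℝ)) :=
    mul_le_mul_of_nonneg_left (by linarith) (Nat.cast_nonneg _)
  linarith

lemma T8_gb (D : Data q b m C f P S e s g h d) {r : ℕ} (hr : r ∈ S) : g r ≤ b := by
  have h1 := D.sum
  have h2 : g r ≤ ∑ r ∈ S, g r := Finset.single_le_sum (f := g) (fun _ _ => Nat.zero_le _) hr
  omega

end

/-- `π(5 (b+1))` is small -/
lemma T8_pi (K : ℝ) (hK : 0 < K) : ∃ a0 : ℕ, ∀ a : ℕ, a0 ≤ a →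
    K * ((Nat.primeCounting (5 * a) : ℝ) + 8) ≤ a / 4 := by
  have h1 := Chebyshev.eventually_primeCounting_le (ε := 1) one_pos
  have h2 : Filter.Tendsto (fun x : ℝ => log x) Filter.atTop Filter.atTop := tendsto_log_atTop
  have h3 := h2.eventually (Filter.eventually_ge_atTop (160 * K))
  obtain ⟨x0, hx0⟩ := Filter.eventually_atTop.mp (h1.and (h3.and (Filter.eventually_gt_atTop 1)))
  refine ⟨⌈max x0 (64 * K)⌉₊ + 1, ?_⟩
  intro a ha
  have ha1 : max x0 (64 * K) ≤ a := by
    refine (Nat.le_ceil _).trans ?_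
    exact_mod_cast (by omega : ⌈max x0 (64 * K)⌉₊ ≤ a)
  have ha2 : x0 ≤ ((5 * a : ℕ) : ℝ) := by
    push_cast
    have := le_max_left x0 (64 * K)
    have : (0 : ℝ) ≤ a := Nat.cast_nonneg a
    linarith
  have ha3 : 64 * K ≤ a := (le_max_right _ _).trans ha1
  obtain ⟨h4, h5, h6⟩ := hx0 _ ha2
  rw [Nat.floor_natCast] at h4
  have hl : 0 < log ((5 * a : ℕ) : ℝ) := log_pos h6
  have h7 : log 4 + 1 ≤ 5 / 2 := by
    have h8 : log (4 : ℝ) = 2 * log 2 := by
      rw [show (4 : ℝ) = 2 ^ (2 : ℕ) by norm_num, log_pow]; norm_num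
    have := log_two_lt_d9
    linarith
  have ha0 : (0 : ℝ) ≤ a := Nat.cast_nonneg a
  have h8 : (log 4 + 1) * ((5 * a : ℕ) : ℝ) / log ((5 * a : ℕ) : ℝ) ≤ 20 * a / (160 * K) := by
    rw [div_le_div_iff₀ hl (by positivity)]
    have h9 : (log 4 + 1) * ((5 * a : ℕ) : ℝ) ≤ 20 * a := by
      push_cast
      nlinarith
    exact mul_le_mul h9 h5 (by positivity) (by positivity)
  have h9 : ((Nat.primeCounting (5 * a) : ℕ) : ℝ) ≤ 20 * a / (160 * K) := h4.trans h8
  have h10 : K * ((Nat.primeCounting (5 * a) : ℕ) : ℝ) ≤ a / 8 := by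
    calc K * ((Nat.primeCounting (5 * a) : ℕ) : ℝ) ≤ K * (20 * a / (160 * K)) :=
          mul_le_mul_of_nonneg_left h9 hK.le
      _ = a / 8 := by field_simp; ring
  linarith

/-- T8 -/
theorem regimeB : ∃ a0 : ℕ, ∃ δ L0 : ℝ, 0 < δ ∧ 0 < L0 ∧
    ∀ {q b m C f P : ℕ} {S : Finset ℕ} {e s g h d : ℕ → ℕ},
    Data q b m C f P S e s g h d → a0 ≤ b → ((b : ℝ) + 1) / 10 ^ 8 ≤ log q → L0 ≤ log q →
    log ((m * C : ℕ) : ℝ) ≤ δ * log q → False := by
  obtain ⟨a0, ha0⟩ := T8_pi (600000 ^ 2) (by norm_num)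
  refine ⟨a0, 1 / 2000, 10, by norm_num, by norm_num, ?_⟩
  intro q b m C f P S e s g h d D hab hbL hL hF
  set L := log (q : ℝ) with hLdef
  set F := log ((m * C : ℕ) : ℝ) with hFdef
  set a : ℝ := (b : ℝ) + 1 with ha
  have hb2 : (2 : ℝ) ≤ b := by exact_mod_cast D.hb
  have hF0 : 0 ≤ F := T8_F0 D
  have hq3 := T8_q3 D
  have hq5 : 5 ≤ q := by
    by_contra hcon
    have h1 : (q : ℝ) ≤ 4 := by exact_mod_cast (by omega : q ≤ 4)
    have h2 : L ≤ log 4 := log_le_log (by positivity) h1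
    have h3 : log (4 : ℝ) ≤ 3 := by
      have := log_le_sub_one_of_pos (show (0 : ℝ) < 4 by norm_num)
      linarith
    linarith
  have hL0 : 0 < L := by linarith
  have hlog2 : log 2 < (0.6931471808 : ℝ) := log_two_lt_d9
  -- `f = 0`
  have hf0 : f = 0 := by
    by_contra hcon
    have h1 : (q : ℝ) ^ f ≤ 2 * m := by exact_mod_cast D.hf
    have hm0 : (0 : ℝ) < m := by have := D.hm; positivity
    have h2 := log_le_log (by positivity) h1
    rw [log_pow, log_mul (by norm_num) (by positivity)] at h2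
    have h3 : (1 : ℝ) ≤ f := by exact_mod_cast Nat.one_le_iff_ne_zero.mpr hcon
    have h4 : 1 * L ≤ f * L := mul_le_mul_of_nonneg_right h3 hL0.le
    have h5 := T8_logm D
    linarith
  -- the two classes
  set S1 := S.filter (fun r => (g r : ℝ) * L ≤ 4 * a * log (s r : ℝ)) with hS1
  set S2 := S.filter (fun r => ¬ (g r : ℝ) * L ≤ 4 * a * log (s r : ℝ)) with hS2
  have hsplit : ∑ r ∈ S, g r = ∑ r ∈ S1, g r + ∑ r ∈ S2, g r :=
    (Finset.sum_filter_add_sum_filter_not S _ _).symm
  have hA : (∑ r ∈ S1, (g r : ℝ)) * L ≤ 4 * a * F := by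
    rw [Finset.sum_mul]
    calc ∑ r ∈ S1, (g r : ℝ) * L ≤ ∑ r ∈ S1, 4 * a * log (s r : ℝ) := by
          apply Finset.sum_le_sum
          intro r hr
          exact (Finset.mem_filter.mp hr).2
      _ ≤ ∑ r ∈ S, 4 * a * log (s r : ℝ) := by
          apply Finset.sum_le_sum_of_subset_of_nonneg (Finset.filter_subset _ _)
          intro r hr _
          have := T8_logs0 D hr
          positivity
      _ = 4 * a * ∑ r ∈ S, log (s r : ℝ) := by rw [Finset.mul_sum]
      _ ≤ 4 * a * F := mul_le_mul_of_nonneg_left (T8_sumlog D) (by positivity)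
  -- properties of the second class
  have hB : ∀ r ∈ S2, 1 ≤ g r ∧ g r < 600000 ∧ e r + 1 ≤ 5 * (b + 1) ∧ s r ^ 10 < q ^ g r := by
    intro r hr
    obtain ⟨hrS, hlt⟩ := Finset.mem_filter.mp hr
    push Not at hlt
    have hr3 := T8_r3 D hrS
    have hr1 : (3 : ℝ) ≤ r := by exact_mod_cast hr3
    have hlr : 0 < log (r : ℝ) := log_pos (by linarith)
    have hs0 := T8_logs0 D hrS
    have hsF := T8_logs D hrS
    have hg1 : 1 ≤ g r := by
      by_contra hcon
      have h1 : g r = 0 := by omega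
      rw [h1] at hlt
      push_cast at hlt
      have : 0 ≤ 4 * a * log (s r : ℝ) := by positivity
      linarith
    have hg1r : (1 : ℝ) ≤ g r := by exact_mod_cast hg1
    have hgL : L ≤ g r * L := le_mul_of_one_le_left hL0.le hg1r
    refine ⟨hg1, ?_, ?_, ?_⟩
    · -- `g < 600000`
      by_contra hcon
      push Not at hcon
      have hgr : (600000 : ℝ) ≤ g r := by exact_mod_cast hcon
      have h1 := local_main (C := C) D.hq hq5 (D.prime r hrS) (D.ne2 r hrS) D.hm D.hC
        (D.s1 r hrS) (D.nd r hrS) (D.sig r hrS) (D.he r hrS) (D.hd r hrS) (T8_cong D hrS)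
        (by have := T8_gb D hrS; omega) (by omega) (by linarith)
      push_cast at h1
      have h2 : a ≤ 10 ^ 8 * L := by
        have : a / 10 ^ 8 ≤ L := hbL
        rw [div_le_iff₀ (by norm_num)] at this
        linarith
      have h3 : (600000 : ℝ) * (g r * L) ≤ (g r : ℝ) ^ 2 * L := by
        have : (600000 : ℝ) * (g r * L) ≤ g r * (g r * L) :=
          mul_le_mul_of_nonneg_right hgr (by positivity)
        linarith
      have h4 : (600000 : ℝ) * (600000 * L) ≤ 600000 * (g r * L) := by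
        apply mul_le_mul_of_nonneg_left _ (by norm_num)
        exact mul_le_mul_of_nonneg_right hgr hL0.le
      have h5 : 0 ≤ a * log (s r : ℝ) := by positivity
      have h6 : a * log 2 ≤ 10 ^ 8 * L * 0.6931471808 :=
        mul_le_mul h2 hlog2.le (by positivity) (by positivity)
      have h7 : (g r : ℝ) ^ 2 * L ≤ 58 * 6 * (a * log (s r : ℝ)) + 58 * 22 * (a * log 2) := by
        rw [ha]; linarith
      linarith
    · -- `e + 1 ≤ 5 a`
      have h1 := T8_det D hrS hg1 (T8_gb D hrS)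
      have h2 := T8_up D hrS
      have h3 := T8_hd D hrS
      have h4 := T8_low D hrS
      have h5 : (g r : ℝ) * (7 / 5 + F) ≤ g r * ((7 / 50) * L + L / 2000) := by
        apply mul_le_mul_of_nonneg_left _ (by positivity)
        linarith
      have h6 : (g r : ℝ) * L / 2 ≤ a * (log (s r : ℝ) + log r) := by
        nlinarith
      have h7 : (g r : ℝ) * L ≤ 4 * (a * log r) := by nlinarith
      have h8 : (e r : ℝ) * log r ≤ (49 / 10 * a) * log r - a * log r / 2 := by
        nlinarith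
      have h9 : (e r : ℝ) * log r ≤ (22 / 5 * a) * log r := by linarith
      have h10 : (e r : ℝ) ≤ 22 / 5 * a := le_of_mul_le_mul_right h9 hlr
      have h11 : (e r : ℝ) + 1 ≤ 5 * (b + 1) := by rw [ha] at h10; linarith
      exact_mod_cast h11
    · -- good
      have h1 : 10 * log (s r : ℝ) < g r * L := by linarith
      have hsp : (0 : ℝ) < s r := by have := D.s1 r hrS; positivity
      have h2 : log ((s r : ℝ) ^ 10) < log ((q : ℝ) ^ g r) := by
        rw [log_pow, log_pow]; push_cast; exact h1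
      have h3 : (s r : ℝ) ^ 10 < (q : ℝ) ^ g r := by
        apply (log_lt_log_iff (by positivity) (by positivity)).mp h2
      exact_mod_cast h3
  -- counting
  have hcount : ∀ G : ℕ, (S2.filter (fun r => g r = G)).card
      ≤ Nat.primeCounting (5 * (b + 1)) + 8 := by
    intro G
    apply count_orders (G := G) (e := e) (s := s) (κ := g) D.hq D.hq2
    · refine ⟨?_, ?_, ?_, ?_, ?_, ?_, ?_⟩ <;> intro r hr <;>
        [skip; skip; skip; skip; skip; skip; skip] <;>
        have hr' := Finset.mem_filter.mp hr <;>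
        have hrS := (Finset.mem_filter.mp hr'.1).1
      · exact D.prime r hrS
      · exact D.ne2 r hrS
      · exact D.even r hrS
      · exact D.pos r hrS
      · exact D.s1 r hrS
      · exact D.sig r hrS
      · exact (hB r hr'.1).2.2.2
    · intro r hr
      exact (Finset.mem_filter.mp hr).2
    · intro r hr
      exact (hB r (Finset.mem_filter.mp hr).1).2.2.1
  have hmass : ∑ r ∈ S2, g r ≤ 600000 * (600000 * (Nat.primeCounting (5 * (b + 1)) + 8)) := by
    rw [← Finset.sum_fiberwise_of_maps_to (g := g) (t := range 600000)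
      (fun r hr => Finset.mem_range.mpr (hB r hr).2.1)]
    calc ∑ G ∈ range 600000, ∑ r ∈ S2.filter (fun r => g r = G), g r
        ≤ ∑ G ∈ range 600000, 600000 * (Nat.primeCounting (5 * (b + 1)) + 8) := by
          apply Finset.sum_le_sum
          intro G hG
          rw [mem_range] at hG
          calc ∑ r ∈ S2.filter (fun r => g r = G), g r
              = ∑ r ∈ S2.filter (fun r => g r = G), G := by
                apply Finset.sum_congr rfl
                intro r hr
                exact (Finset.mem_filter.mp hr).2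
            _ = (S2.filter (fun r => g r = G)).card * G := by
                rw [Finset.sum_const, smul_eq_mul]
            _ ≤ (Nat.primeCounting (5 * (b + 1)) + 8) * 600000 :=
                Nat.mul_le_mul (hcount G) hG.le
            _ = 600000 * (Nat.primeCounting (5 * (b + 1)) + 8) := Nat.mul_comm _ _
      _ = 600000 * (600000 * (Nat.primeCounting (5 * (b + 1)) + 8)) := by
          rw [Finset.sum_const, card_range, smul_eq_mul]
  have hpi := ha0 (b + 1) (by omega)
  have hmassr : (∑ r ∈ S2, (g r : ℝ)) ≤ a / 4 := by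
    have h1 : ((∑ r ∈ S2, g r : ℕ) : ℝ)
        ≤ ((600000 * (600000 * (Nat.primeCounting (5 * (b + 1)) + 8)) : ℕ) : ℝ) := by
      exact_mod_cast hmass
    push_cast at h1 hpi
    rw [ha]
    linarith
  have hA' : (∑ r ∈ S1, (g r : ℝ)) ≤ a / 500 := by
    have h1 : (∑ r ∈ S1, (g r : ℝ)) * L ≤ (a / 500) * L := by
      have h2 : 4 * a * F ≤ 4 * a * (1 / 2000 * L) := mul_le_mul_of_nonneg_left hF (by positivity)
      linarith
    exact le_of_mul_le_mul_right h1 hL0
  have htot : (b : ℝ) = ∑ r ∈ S1, (g r : ℝ) + ∑ r ∈ S2, (g r : ℝ) := by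
    have h1 := D.sum
    rw [hf0, zero_add, hsplit] at h1
    have h2 : ((∑ r ∈ S1, g r + ∑ r ∈ S2, g r : ℕ) : ℝ) = b := by exact_mod_cast h1
    push_cast at h2
    linarith
  rw [ha] at hmassr hA'
  linarith

end Pool.Agent.Lib.MP_f02ea4_nt.LP
end

section

/-! Largest prime factor of an odd perfect number: T10. -/

set_option autoImplicit false

namespace Pool.Agent.Lib.MP_f02ea4_nt.LP

open Finset Real


theorem main_data : ∃ K : ℝ, 0 < K ∧
    ∀ {q b m C f P : ℕ} {S : Finset ℕ} {e s g h d : ℕ → ℕ},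
    Data q b m C f P S e s g h d → (b : ℝ) + log q ≤ K * (1 + log ((m * C : ℕ) : ℝ)) := by
  obtain ⟨a0, δ, L0, hδ, hL0, hB⟩ := regimeB
  set K : ℝ := 2 * 10 ^ 8 + (10 ^ 8 + 1) / δ + (10 ^ 8 + 1) * L0 + ((a0 : ℝ) + 1)
    + 20 * ((a0 : ℝ) + 1) ^ 3 with hK
  have k1 : 0 ≤ (10 ^ 8 + 1) / δ := by positivity
  have k2 : 0 ≤ (10 ^ 8 + 1) * L0 := by positivity
  have k3 : 0 ≤ (a0 : ℝ) + 1 := by positivity
  have k4 : 0 ≤ 20 * ((a0 : ℝ) + 1) ^ 3 := by positivity
  have hK0 : 0 < K := by rw [hK]; positivity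
  refine ⟨K, hK0, ?_⟩
  intro q b m C f P S e s g h d D
  by_contra hcon
  push Not at hcon
  set F := log ((m * C : ℕ) : ℝ) with hFdef
  set L := log (q : ℝ) with hLdef
  have hmC : (1 : ℝ) ≤ ((m * C : ℕ) : ℝ) := by
    have := Nat.mul_le_mul D.hm D.hC
    exact_mod_cast this
  have hF0 : 0 ≤ F := log_nonneg hmC
  have hL : 0 < L := log_pos (by exact_mod_cast D.hq.one_lt)
  have hb : (2 : ℝ) ≤ b := by exact_mod_cast D.hb
  have hKF : 0 ≤ K * F := by positivity
  have hKF1 : K * F ≤ b + L := by nlinarith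
  have hK1 : K ≤ b + L := by nlinarith
  rcases le_or_gt L (((b : ℝ) + 1) / 10 ^ 8) with hc | hc
  · apply regimeA D hc
    have h1 : (2 * 10 ^ 8) * F ≤ K * F := by
      apply mul_le_mul_of_nonneg_right _ hF0
      rw [hK]; linarith
    rw [le_div_iff₀ (by positivity)]
    rw [le_div_iff₀ (by positivity)] at hc
    linarith
  · rw [div_lt_iff₀ (by positivity)] at hc
    have h2 : (b : ℝ) + L ≤ (10 ^ 8 + 1) * L := by linarith
    rcases le_or_gt a0 b with hab | hab
    · apply hB D hab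
      · rw [div_le_iff₀ (by positivity)]; exact hc.le
      · have h3 : (10 ^ 8 + 1) * L0 ≤ (10 ^ 8 + 1) * L := by
          calc (10 ^ 8 + 1) * L0 ≤ K := by rw [hK]; linarith
            _ ≤ _ := hK1.trans h2
        linarith
      · have h3 : (10 ^ 8 + 1) / δ * F ≤ (10 ^ 8 + 1) * L := by
          calc (10 ^ 8 + 1) / δ * F ≤ K * F := by
                apply mul_le_mul_of_nonneg_right _ hF0
                rw [hK]; linarith
            _ ≤ _ := hKF1.trans h2
        have h4 : (10 ^ 8 + 1) / δ * F = (10 ^ 8 + 1) * (F / δ) := by ring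
        rw [h4] at h3
        have h5 : F / δ ≤ L := by linarith
        rw [div_le_iff₀ hδ] at h5
        linarith
    · have h3 := bounded_b D
      have hb1 : (b : ℝ) ≤ a0 := by exact_mod_cast hab.le
      have h4 : ((b : ℝ) + 1) ^ 3 ≤ ((a0 : ℝ) + 1) ^ 3 := by
        apply pow_le_pow_left₀ (by positivity); linarith
      have h5 : 20 * ((b : ℝ) + 1) ^ 3 * (1 + F) ≤ 20 * ((a0 : ℝ) + 1) ^ 3 * (1 + F) := by
        apply mul_le_mul_of_nonneg_right _ (by linarith)
        linarith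
      have h6 : (b : ℝ) ≤ ((a0 : ℝ) + 1) * (1 + F) := by nlinarith
      have h7 : (((a0 : ℝ) + 1) + 20 * ((a0 : ℝ) + 1) ^ 3) * (1 + F) ≤ K * (1 + F) := by
        apply mul_le_mul_of_nonneg_right _ (by linarith)
        rw [hK]; linarith
      have h8 : L ≤ 20 * ((b : ℝ) + 1) ^ 3 * (1 + F) := h3
      nlinarith

end Pool.Agent.Lib.MP_f02ea4_nt.LP
end

section

/-! Largest prime factor of an odd perfect number: T12, T13. -/

set_option autoImplicit false

namespace Pool.Agent.Lib.MP_f02ea4_nt.LP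

open Finset Real
open ArithmeticFunction (sigma)


/-- T12: the main inequality -/
theorem main_ineq : ∃ c : ℝ, 0 < c ∧ ∀ {N P q : ℕ}, Odd N → Nat.Perfect N → P.Prime →
    N.factorization P = 1 → q.Prime → q ∣ N → P ∣ sigma 1 (q ^ N.factorization q) →
    c * (P : ℝ) ^ 3 * ((2 : ℝ) ^ N.factorization q * q) ^ c ≤ N := by
  obtain ⟨K, hK, hmain⟩ := main_data
  refine ⟨min (1 / K) (1 / 20), lt_min (by positivity) (by norm_num), ?_⟩
  intro N P q hN hperf hP hPN hq hqN hPq
  obtain ⟨m, C, f, S, e, s, g, h, d, D, hsize⟩ := exists_data hN hperf hP hPN hq hqN hPq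
  set b := N.factorization q with hb
  set c := min (1 / K) (1 / 20 : ℝ) with hc
  have hc0 : 0 < c := lt_min (by positivity) (by norm_num)
  have hcK : c * K ≤ 1 := by
    have : c ≤ 1 / K := min_le_left _ _
    rwa [le_div_iff₀ hK] at this
  have hc20 : c ≤ 1 / 20 := min_le_right _ _
  have hmC1 : (1 : ℝ) ≤ ((m * C : ℕ) : ℝ) := by
    have := Nat.mul_le_mul D.hm D.hC
    exact_mod_cast this
  have hF0 : 0 ≤ log ((m * C : ℕ) : ℝ) := log_nonneg hmC1
  have hq0 : (0 : ℝ) < q := by exact_mod_cast hq.pos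
  have hL0 : 0 ≤ log (q : ℝ) := log_nonneg (by exact_mod_cast hq.one_lt.le)
  have h1 := hmain D
  have h2 : ((2 : ℝ) ^ b * q) ^ c ≤ exp (1 + log ((m * C : ℕ) : ℝ)) := by
    rw [rpow_def_of_pos (by positivity), exp_le_exp, log_mul (by positivity) (by positivity),
      log_pow]
    have h3 : (b : ℝ) * log 2 ≤ b := by
      have : log 2 < (0.6931471808 : ℝ) := log_two_lt_d9
      nlinarith [Nat.cast_nonneg (α := ℝ) b]
    have h5 : (0 : ℝ) ≤ b := Nat.cast_nonneg _
    calc ((b : ℝ) * log 2 + log q) * c ≤ ((b : ℝ) + log q) * c :=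
          mul_le_mul_of_nonneg_right (by linarith) hc0.le
      _ ≤ (K * (1 + log ((m * C : ℕ) : ℝ))) * c := mul_le_mul_of_nonneg_right h1 hc0.le
      _ = (c * K) * (1 + log ((m * C : ℕ) : ℝ)) := by ring
      _ ≤ 1 * (1 + log ((m * C : ℕ) : ℝ)) := mul_le_mul_of_nonneg_right hcK (by linarith)
      _ = _ := one_mul _
  rw [exp_add, exp_log (by linarith)] at h2
  have he : exp 1 < (2.7182818286 : ℝ) := exp_one_lt_d9
  have hs : (P : ℝ) ^ 3 * ((m * C : ℕ) : ℝ) ≤ 6 * N := by exact_mod_cast hsize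
  have hN0 : (0 : ℝ) ≤ N := Nat.cast_nonneg _
  calc c * (P : ℝ) ^ 3 * ((2 : ℝ) ^ b * q) ^ c
      ≤ c * (P : ℝ) ^ 3 * (exp 1 * ((m * C : ℕ) : ℝ)) :=
        mul_le_mul_of_nonneg_left h2 (by positivity)
    _ = (c * exp 1) * ((P : ℝ) ^ 3 * ((m * C : ℕ) : ℝ)) := by ring
    _ ≤ (c * exp 1) * (6 * N) := mul_le_mul_of_nonneg_left hs (by positivity)
    _ = (c * exp 1 * 6) * N := by ring
    _ ≤ 1 * N := by
        apply mul_le_mul_of_nonneg_right _ hN0
        have : c * exp 1 ≤ (1 / 20) * 2.7182818286 :=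
          mul_le_mul hc20 he.le (exp_pos _).le (by norm_num)
        linarith
    _ = N := one_mul _

/-- T13: consequences -/
theorem final : ∃ c : ℝ, 0 < c ∧ ∀ N : ℕ, Odd N → Nat.Perfect N →
    (∀ P q : ℕ, P.Prime → N.factorization P = 1 → q.Prime → q ∣ N →
      P ∣ sigma 1 (q ^ N.factorization q) →
      c * (P : ℝ) ^ 3 * ((2 : ℝ) ^ N.factorization q * q) ^ c ≤ N) ∧
    (∀ P : ℕ, P.Prime → P ∣ N → c * (P : ℝ) ^ 3 * exp (c * sqrt (log N)) ≤ N) ∧
    (∀ B : ℕ, (∀ p : ℕ, N.factorization p ≤ B) → ∀ P : ℕ, P.Prime → P ∣ N →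
      c * (P : ℝ) ^ (3 + c / B) ≤ N) := by
  obtain ⟨c₀, hc₀, hmain⟩ := main_ineq
  set c := min (c₀ / 3) (1 / 200 : ℝ) with hc
  have hc0 : 0 < c := lt_min (by positivity) (by norm_num)
  have hc3 : c ≤ c₀ / 3 := min_le_left _ _
  have hc200 : c ≤ 1 / 200 := min_le_right _ _
  have hlogc : log c ≤ -5 := by
    have h1 : log c ≤ log (1 / 200 : ℝ) := log_le_log hc0 hc200
    have h2 : log (1 / 200 : ℝ) ≤ -5 := by
      rw [log_le_iff_le_exp (by norm_num)]
      have h3 : exp 5 ≤ 200 := by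
        have he : exp 1 < (2.7182818286 : ℝ) := exp_one_lt_d9
        have h4 : exp 5 = exp 1 ^ 5 := by rw [← exp_nat_mul]; norm_num
        rw [h4]
        calc exp 1 ^ 5 ≤ (2.7182818286 : ℝ) ^ 5 :=
              pow_le_pow_left₀ (exp_pos _).le he.le 5
          _ ≤ 200 := by norm_num
      rw [exp_neg]
      rw [one_div]
      exact inv_anti₀ (exp_pos _) h3
    linarith
  have hlogcc : log c ≤ log c₀ := log_le_log hc0 (by linarith)
  refine ⟨c, hc0, ?_⟩
  intro N hN hperf
  have hN0 : 0 < N := hperf.2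
  have hNr : (1 : ℝ) ≤ N := by exact_mod_cast hN0
  have hNp : (0 : ℝ) < N := by linarith
  set x := log (N : ℝ) with hx
  have hx0 : 0 ≤ x := log_nonneg hNr
  have hsq : sqrt x ≤ 1 + x / 4 := by
    rw [sqrt_le_left (by positivity)]
    nlinarith [sq_nonneg (x / 4 - 1)]
  have hsq0 : 0 ≤ sqrt x := sqrt_nonneg _
  have hcs : c * sqrt x ≤ 1 + x / 400 := by nlinarith
  -- from logarithms to the statement
  have key : ∀ (P : ℕ) (z : ℝ), P.Prime → log c + 3 * log P + z ≤ x →
      c * (P : ℝ) ^ 3 * exp z ≤ N := by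
    intro P z hP hz
    have hP0 : (0 : ℝ) < P := by exact_mod_cast hP.pos
    rw [← log_le_log_iff (by positivity) hNp, log_mul (by positivity) (by positivity), log_exp,
      log_mul (by positivity) (by positivity), log_pow]
    push_cast
    linarith
  have hpq : ∀ P q : ℕ, P.Prime → N.factorization P = 1 → q.Prime → q ∣ N →
      P ∣ sigma 1 (q ^ N.factorization q) →
      log c₀ + 3 * log P + c₀ * ((N.factorization q : ℝ) * log 2 + log q) ≤ x := by
    intro P q hP hPN hq hqN hPq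
    have h1 := hmain hN hperf hP hPN hq hqN hPq
    have hP0 : (0 : ℝ) < P := by exact_mod_cast hP.pos
    have hq0 : (0 : ℝ) < q := by exact_mod_cast hq.pos
    have h2 := log_le_log (by positivity) h1
    rw [log_mul (by positivity) (by positivity), log_mul (by positivity) (by positivity),
      log_pow, log_rpow (by positivity), log_mul (by positivity) (by positivity), log_pow] at h2
    push_cast at h2
    linarith
  have hbq : ∀ P q : ℕ, P.Prime → q.Prime → q ∣ N → P ∣ sigma 1 (q ^ N.factorization q) →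
      1 ≤ N.factorization q ∧ log (P : ℝ) ≤ 2 * N.factorization q * log q := by
    intro P q hP hq hqN hPq
    have hb1 : 1 ≤ N.factorization q := hq.factorization_pos_of_dvd hN0.ne' hqN
    refine ⟨hb1, ?_⟩
    have hσ0 : 0 < sigma 1 (q ^ N.factorization q) := by
      rw [Nat.pos_iff_ne_zero, Ne, ArithmeticFunction.sigma_eq_zero]
      have := hq.pos
      positivity
    have h1 : P ≤ sigma 1 (q ^ N.factorization q) := Nat.le_of_dvd hσ0 hPq
    have h2 : sigma 1 (q ^ N.factorization q) ≤ q ^ (N.factorization q + 1) := by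
      rw [ArithmeticFunction.sigma_one_apply_prime_pow hq]
      exact (Nat.geomSum_lt hq.two_le (fun k hk => mem_range.1 hk)).le
    have h3 : (P : ℝ) ≤ (q : ℝ) ^ (N.factorization q + 1) := by exact_mod_cast h1.trans h2
    have hP0 : (0 : ℝ) < P := by exact_mod_cast hP.pos
    have h4 := log_le_log hP0 h3
    rw [log_pow] at h4
    push_cast at h4
    have hL0 : 0 ≤ log (q : ℝ) := log_nonneg (by exact_mod_cast hq.one_lt.le)
    have hb1r : (1 : ℝ) ≤ N.factorization q := by exact_mod_cast hb1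
    nlinarith
  have hfour : ∀ P : ℕ, P.Prime → 2 ≤ N.factorization P → 4 * log (P : ℝ) ≤ 1 + x := by
    intro P hP hPN
    have h1 := pow_four_le hN hperf hP hPN
    have hP0 : (0 : ℝ) < P := by exact_mod_cast hP.pos
    have h2 : (P : ℝ) ^ 4 ≤ 2 * N := by exact_mod_cast h1
    have h3 := log_le_log (by positivity) h2
    rw [log_pow, log_mul (by norm_num) (by positivity)] at h3
    have : log 2 < (0.6931471808 : ℝ) := log_two_lt_d9
    push_cast at h3
    linarith
  have hfac : ∀ P : ℕ, P.Prime → P ∣ N → N.factorization P = 1 ∨ 2 ≤ N.factorization P := by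
    intro P hP hPN
    have := hP.factorization_pos_of_dvd hN0.ne' hPN
    omega
  refine ⟨?_, ?_, ?_⟩
  · intro P q hP hPN hq hqN hPq
    have h1 := hmain hN hperf hP hPN hq hqN hPq
    refine le_trans ?_ h1
    have hq1 : (1 : ℝ) ≤ q := by exact_mod_cast hq.one_lt.le
    have h2 : (1 : ℝ) ≤ (2 : ℝ) ^ N.factorization q * q := by
      have : (1 : ℝ) ≤ (2 : ℝ) ^ N.factorization q := one_le_pow₀ (by norm_num)
      nlinarith
    have h3 : ((2 : ℝ) ^ N.factorization q * q) ^ c ≤ ((2 : ℝ) ^ N.factorization q * q) ^ c₀ :=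
      rpow_le_rpow_of_exponent_le h2 (by linarith)
    have h4 : c * (P : ℝ) ^ 3 ≤ c₀ * (P : ℝ) ^ 3 :=
      mul_le_mul_of_nonneg_right (by linarith) (by positivity)
    exact mul_le_mul h4 h3 (by positivity) (by positivity)
  · intro P hP hPN
    have hlP : 0 ≤ log (P : ℝ) := log_nonneg (by exact_mod_cast hP.one_lt.le)
    apply key P _ hP
    rcases hfac P hP hPN with h1 | h1
    · obtain ⟨q, hq, hqN, hPq⟩ := exists_payer hN hperf hP h1
      obtain ⟨hb1, h3⟩ := hbq P q hP hq hqN hPq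
      have h2 := hpq P q hP h1 hq hqN hPq
      rcases le_or_gt x (6 * log (P : ℝ)) with h4 | h4
      · -- `P` large
        have hb0 : (1 : ℝ) ≤ N.factorization q := by exact_mod_cast hb1
        have hL0 : 0 ≤ log (q : ℝ) := log_nonneg (by exact_mod_cast hq.one_lt.le)
        have hlog2 : (0.6931471803 : ℝ) < log 2 := log_two_gt_d9
        have h5 : sqrt x ≤ 3 * ((N.factorization q : ℝ) * log 2 + log q) := by
          rw [sqrt_le_left (by positivity)]
          set b : ℝ := (N.factorization q : ℝ) with hbdef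
          set L := log (q : ℝ) with hLdef
          have h6 : 4 * ((b * log 2) * L) ≤ (b * log 2 + L) ^ 2 := by
            nlinarith [sq_nonneg (b * log 2 - L)]
          have h7 : b * L * 0.6931471803 ≤ (b * log 2) * L := by
            have : 0 ≤ b * L := by positivity
            nlinarith
          nlinarith
        have h6 : c * sqrt x ≤ c₀ * ((N.factorization q : ℝ) * log 2 + log q) := by
          have h7 : 0 ≤ (N.factorization q : ℝ) * log 2 + log q := by positivity
          calc c * sqrt x ≤ (c₀ / 3) * sqrt x := mul_le_mul_of_nonneg_right hc3 hsq0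
            _ ≤ (c₀ / 3) * (3 * ((N.factorization q : ℝ) * log 2 + log q)) :=
                mul_le_mul_of_nonneg_left h5 (by positivity)
            _ = _ := by ring
        linarith
      · linarith
    · have h2 := hfour P hP h1
      linarith
  · intro B hB P hP hPN
    have hP0 : (0 : ℝ) < P := by exact_mod_cast hP.pos
    have hlP : 0 ≤ log (P : ℝ) := log_nonneg (by exact_mod_cast hP.one_lt.le)
    have hB1 : 1 ≤ B := lt_of_lt_of_le (hP.factorization_pos_of_dvd hN0.ne' hPN) (hB P)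
    have hB1r : (1 : ℝ) ≤ B := by exact_mod_cast hB1
    rw [← log_le_log_iff (by positivity) hNp, log_mul (by positivity) (by positivity),
      log_rpow hP0]
    rcases hfac P hP hPN with h1 | h1
    · obtain ⟨q, hq, hqN, hPq⟩ := exists_payer hN hperf hP h1
      obtain ⟨hb1, h3⟩ := hbq P q hP hq hqN hPq
      have h2 := hpq P q hP h1 hq hqN hPq
      have hL0 : 0 ≤ log (q : ℝ) := log_nonneg (by exact_mod_cast hq.one_lt.le)
      have hbB : (N.factorization q : ℝ) ≤ B := by exact_mod_cast hB q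
      have hlog2 : (0.6931471803 : ℝ) < log 2 := log_two_gt_d9
      have h4 : log (P : ℝ) ≤ 2 * B * log q := by nlinarith
      have h5 : c / B * log (P : ℝ) ≤ c₀ * log q := by
        rw [div_mul_eq_mul_div, div_le_iff₀ (by positivity)]
        calc c * log (P : ℝ) ≤ (c₀ / 3) * (2 * B * log q) :=
              mul_le_mul hc3 h4 hlP (by positivity)
          _ ≤ c₀ * log q * B := by
              have : 0 ≤ c₀ * log q * B := by positivity
              linarith
      have h6 : 0 ≤ (N.factorization q : ℝ) * log 2 := by positivity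
      have h7 : 0 ≤ c₀ * ((N.factorization q : ℝ) * log 2) := by positivity
      linarith
    · have h2 := hfour P hP h1
      have h3 : c / B ≤ 1 := by
        rw [div_le_one (by positivity)]
        linarith
      nlinarith

end Pool.Agent.Lib.MP_f02ea4_nt.LP
end
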