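import Pool.Agent.Lib.MP_f02ea4_nt.Mg.G007
import Pool.Agent.Lib.MP_f02ea4_nt.Mg.G012
import Pool.Agent.Lib.MP_f02ea4_nt.LP_AK
import Pool.Agent.Lib.MP_f02ea4_nt.Mg.G014
import Pool.Agent.Lib.MP_f02ea4_nt.Mg.G004
import Pool.Agent.Lib.MP_f02ea4_nt.Mg.G013
import Pool.Agent.Lib.MP_f02ea4_nt.IP.Final

section

/-! Largest prime factor of an odd perfect number: the regime of few order primes. -/

set_option autoImplicit false

namespace Pool.Agent.Lib.MP_f02ea4_nt.IP

open Finset Real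
open Pool.Agent.Lib.MP_f02ea4_nt.LP

section
variable {q b m C f P : ℕ} {S : Finset ℕ} {e s g h d : ℕ → ℕ}

/-- the regime of few order primes is impossible -/
theorem regimeW (D : Data q b m C f P S e s g h d) {T : Finset ℕ} (hT3 : ∀ l ∈ T, 3 ≤ l)
    (hT : ∀ r ∈ S, s r ^ 10 < q ^ g r → ∃ l ∈ T, l ∣ e r + 1) {w : ℝ} (hwT : w = T.card + 1)
    (hwa : w * 10 ^ 6 ≤ (b : ℝ) + 1) (hwz : w * 10 ^ 6 ≤ √(((b : ℝ) + 1) * log q))
    (hwF : w * log ((m * C : ℕ) : ℝ) * 10 ^ 6 ≤ ((b : ℝ) + 1) * log q) : False := by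
  classical
  set F := log ((m * C : ℕ) : ℝ) with hFdef
  set L := log (q : ℝ) with hLdef
  set a : ℝ := (b : ℝ) + 1 with ha
  have hL1 : 1 ≤ L := D.L1
  have hL0 : 0 < L := by linarith
  have hF0 : 0 ≤ F := D.F0
  have hw1 : 1 ≤ w := by
    rw [hwT]
    have : (0 : ℝ) ≤ T.card := Nat.cast_nonneg _
    linarith
  have hw0 : 0 < w := by linarith
  have ha6 : 10 ^ 6 ≤ a := by linarith
  have ha0 : 0 < a := by linarith
  have hFw : F ≤ w * F := le_mul_of_one_le_left hF0 hw1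
  have hFaL : F * 10 ^ 6 ≤ a * L := by linarith
  -- the threshold
  set z := sqrt (a / L) with hz
  have hz0 : 0 ≤ z := sqrt_nonneg _
  have hzz : z * z * L = a := by
    rw [hz, mul_self_sqrt (by positivity)]
    field_simp
  have hzL : √(a * L) = z * L := by
    rw [show a * L = (z * L) * (z * L) by rw [← hzz]; ring]
    exact sqrt_mul_self (by positivity)
  rw [hzL] at hwz
  have hwz' : w * z * 10 ^ 6 ≤ a := by
    calc w * z * 10 ^ 6 = (w * 10 ^ 6) * z := by ring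
      _ ≤ (z * L) * z := mul_le_mul_of_nonneg_right hwz hz0
      _ = z * z * L := by ring
      _ = a := hzz
  have hFL : 0 ≤ 20000 * F / L := by positivity
  have hwFL : w * (20000 * F / L) ≤ 20000 * a / 10 ^ 6 := by
    rw [← mul_div_assoc, div_le_div_iff₀ hL0 (by positivity)]
    calc w * (20000 * F) * 10 ^ 6 = 20000 * (w * F * 10 ^ 6) := by ring
      _ ≤ 20000 * (a * L) := mul_le_mul_of_nonneg_left hwF (by norm_num)
      _ = _ := by ring
  set X : ℕ := ⌈600 + 20000 * F / L + 30 * z⌉₊ with hX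
  have hX1 : 600 + 20000 * F / L + 30 * z ≤ X := Nat.le_ceil _
  have hX2 : (X : ℝ) < 600 + 20000 * F / L + 30 * z + 1 := Nat.ceil_lt_add_one (by positivity)
  have hwX : w * X ≤ a * (21 / 1000) := by
    have h1 : w * X ≤ w * (600 + 20000 * F / L + 30 * z + 1) :=
      mul_le_mul_of_nonneg_left hX2.le hw0.le
    have h2 : w * (600 + 20000 * F / L + 30 * z + 1)
        = 601 * w + w * (20000 * F / L) + 30 * (w * z) := by ring
    rw [h2] at h1
    linarith
  -- the three classes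
  set S1 := S.filter (fun r => q ^ g r ≤ s r ^ 10) with hS1
  set S' := S.filter (fun r => ¬ q ^ g r ≤ s r ^ 10) with hS'
  set S2 := S'.filter (fun r => g r ≤ X) with hS2
  set S3 := S'.filter (fun r => ¬ g r ≤ X) with hS3
  have hsub1 : S1 ⊆ S := Finset.filter_subset _ _
  have hsub' : S' ⊆ S := Finset.filter_subset _ _
  have hsub2 : S2 ⊆ S := (Finset.filter_subset _ _).trans hsub'
  have hsub3 : S3 ⊆ S := (Finset.filter_subset _ _).trans hsub'
  have hgood2 : ∀ r ∈ S2, s r ^ 10 < q ^ g r := fun r hr =>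
    not_le.1 (Finset.mem_filter.1 (Finset.mem_filter.1 hr).1).2
  have hgood3 : ∀ r ∈ S3, s r ^ 10 < q ^ g r := fun r hr =>
    not_le.1 (Finset.mem_filter.1 (Finset.mem_filter.1 hr).1).2
  have hsplit : ∑ r ∈ S, (g r : ℝ)
      = ∑ r ∈ S1, (g r : ℝ) + (∑ r ∈ S2, (g r : ℝ) + ∑ r ∈ S3, (g r : ℝ)) := by
    rw [hS2, hS3, Finset.sum_filter_add_sum_filter_not, hS1, hS',
      Finset.sum_filter_add_sum_filter_not]
  have hbsum : (b : ℝ) = f + ∑ r ∈ S, (g r : ℝ) := by
    have := D.sum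
    exact_mod_cast this.symm
  -- class 1
  have hc1 : ∑ r ∈ S1, (g r : ℝ) ≤ a / 10 ^ 5 := by
    have h1 := D.nongood hsub1 (fun r hr => (Finset.mem_filter.1 hr).2)
    have h2 : (∑ r ∈ S1, (g r : ℝ)) * L ≤ (a / 10 ^ 5) * L := by
      calc (∑ r ∈ S1, (g r : ℝ)) * L ≤ 10 * F := h1
        _ ≤ a / 10 ^ 5 * L := by linarith
    exact le_of_mul_le_mul_right h2 hL0
  -- class 2
  have hc2 : ∑ r ∈ S2, (g r : ℝ) ≤ a * (7 / 100) := by
    have h1 := sum_kappa_T1 D.hq D.hq2 (D.fam hsub2 hgood2) hT3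
      (fun r hr => hT r (hsub2 hr) (hgood2 r hr)) X (fun r hr => (Finset.mem_filter.1 hr).2)
    have h2 : 5 * ∑ r ∈ S2, (g r : ℝ) ≤ 16 * ((T.card : ℝ) * X) := by exact_mod_cast h1
    have h3 : (T.card : ℝ) * X ≤ w * X :=
      mul_le_mul_of_nonneg_right (by linarith) (Nat.cast_nonneg _)
    linarith
  -- class 3
  have hX3 : ∀ r ∈ S3, 2 ≤ s r ∧ (g r : ℝ) * (20000 * F) ≤ 1624 * a * log (s r : ℝ) := by
    intro r hr
    have h1 : (X : ℝ) ≤ g r := by
      have := not_le.1 (Finset.mem_filter.1 hr).2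
      exact_mod_cast this.le
    have hg0 : (0 : ℝ) ≤ g r := Nat.cast_nonneg _
    have h2 : 20000 * F ≤ g r * L := by
      have h3 : 20000 * F / L ≤ g r := by linarith
      rwa [div_le_iff₀ (by linarith)] at h3
    have h600 : 600 ≤ g r := by
      have : (600 : ℝ) ≤ g r := by linarith
      exact_mod_cast this
    have h4 : 900 * a ≤ (g r : ℝ) ^ 2 * L := by
      have h5 : 30 * z ≤ g r := by linarith
      have h6 : (30 * z) * (30 * z) ≤ (g r : ℝ) * g r := mul_le_mul h5 h5 (by positivity) hg0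
      calc 900 * a = (30 * z) * (30 * z) * L := by rw [← hzz]; ring
        _ ≤ (g r : ℝ) * g r * L := mul_le_mul_of_nonneg_right h6 (by linarith)
        _ = _ := by ring
    obtain ⟨h7, h8⟩ := D.localb' (hsub3 hr) (hgood3 r hr) h600 (by linarith) h4
    refine ⟨h7, ?_⟩
    calc (g r : ℝ) * (20000 * F) ≤ (g r : ℝ) * (g r * L) := mul_le_mul_of_nonneg_left h2 hg0
      _ = (g r : ℝ) ^ 2 * L := by ring
      _ ≤ _ := h8
  have hc3 : ∑ r ∈ S3, (g r : ℝ) ≤ a * (9 / 100) := by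
    rcases eq_or_lt_of_le hF0 with h0 | hpos
    · -- `F = 0`
      have hempty : S3 = ∅ := by
        apply Finset.eq_empty_of_forall_notMem
        intro r hr
        have h1 := (hX3 r hr).1
        have h2 := D.log_s_le (hsub3 hr)
        have h3 : 0 < log (s r : ℝ) := log_pos (by exact_mod_cast (by omega : 1 < s r))
        linarith
      rw [hempty, Finset.sum_empty]
      positivity
    · have h1 : (∑ r ∈ S3, (g r : ℝ)) * (20000 * F) ≤ 1624 * a * F := by
        rw [Finset.sum_mul]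
        calc ∑ r ∈ S3, (g r : ℝ) * (20000 * F) ≤ ∑ r ∈ S3, 1624 * a * log (s r : ℝ) :=
              Finset.sum_le_sum (fun r hr => (hX3 r hr).2)
          _ = 1624 * a * ∑ r ∈ S3, log (s r : ℝ) := by rw [Finset.mul_sum]
          _ ≤ _ := mul_le_mul_of_nonneg_left (D.sum_log_sub hsub3) (by positivity)
      have h2 : ((∑ r ∈ S3, (g r : ℝ)) * 20000) * F ≤ (1624 * a) * F := by linarith
      have h3 := le_of_mul_le_mul_right h2 hpos
      linarith
  -- `f`
  have hf : (f : ℝ) ≤ 7 / 10 + a / 10 ^ 6 := by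
    have h1 := D.f_le
    have h2 : (f : ℝ) * L ≤ (7 / 10 + a / 10 ^ 6) * L := by
      have h3 : (7 / 10 : ℝ) ≤ 7 / 10 * L := by linarith
      have h4 : F ≤ a / 10 ^ 6 * L := by linarith
      linarith
    exact le_of_mul_le_mul_right h2 hL0
  have : a = b + 1 := ha
  linarith

/-- the structure theorem with the number of order primes -/
theorem main_dataW : ∃ K : ℝ, 0 < K ∧
    ∀ {q b m C f P : ℕ} {S : Finset ℕ} {e s g h d : ℕ → ℕ}, Data q b m C f P S e s g h d →
      ∀ T : Finset ℕ, (∀ l ∈ T, 3 ≤ l) →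
        (∀ r ∈ S, s r ^ 10 < q ^ g r → ∃ l ∈ T, l ∣ e r + 1) →
        ((b : ℝ) + 1) * log q ≤ K * ((T.card : ℝ) + 1) * (1 + log ((m * C : ℕ) : ℝ)) := by
  obtain ⟨K, hK, hmain⟩ := main_data
  refine ⟨10 ^ 6 * (K + 1), by positivity, ?_⟩
  intro q b m C f P S e s g h d D T hT3 hT
  have h1 := hmain D
  set F := log ((m * C : ℕ) : ℝ) with hFdef
  set L := log (q : ℝ) with hLdef
  set a : ℝ := (b : ℝ) + 1 with ha
  set w : ℝ := (T.card : ℝ) + 1 with hw
  have hL1 : 1 ≤ L := D.L1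
  have hF0 : 0 ≤ F := D.F0
  have hw1 : 1 ≤ w := by
    rw [hw]
    have : (0 : ℝ) ≤ T.card := Nat.cast_nonneg _
    linarith
  have ha0 : 0 < a := by positivity
  have hb0 : (0 : ℝ) ≤ b := Nat.cast_nonneg _
  have hKF : 0 ≤ K * (1 + F) := by positivity
  by_contra hcon
  push Not at hcon
  have hle : ∀ y : ℝ, y ≤ K * (1 + F) + 1 + F → 0 ≤ y →
      w * 10 ^ 6 * y ≤ 10 ^ 6 * (K + 1) * w * (1 + F) := by
    intro y hy hy0
    calc w * 10 ^ 6 * y ≤ w * 10 ^ 6 * (K * (1 + F) + 1 + F) :=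
          mul_le_mul_of_nonneg_left hy (by positivity)
      _ = _ := by ring
  refine regimeW D hT3 hT hw ?_ ?_ ?_
  · by_contra h2
    push Not at h2
    have h3 : a * L ≤ w * 10 ^ 6 * L := mul_le_mul_of_nonneg_right h2.le (by linarith)
    have h4 := hle L (by linarith) (by linarith)
    linarith
  · by_contra h2
    push Not at h2
    have hs0 : 0 ≤ √(a * L) := sqrt_nonneg _
    have h3 : √(a * L) ≤ K * (1 + F) + 1 + F := by
      have h4 : √(a * L) ≤ (a + L) / 2 := by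
        rw [sqrt_le_left (by positivity)]
        nlinarith [sq_nonneg (a - L)]
      have h5 : a + L ≤ K * (1 + F) + 1 := by linarith
      linarith
    have h4 := hle _ h3 hs0
    have h5 : a * L = √(a * L) * √(a * L) := (mul_self_sqrt (by positivity)).symm
    have h6 : √(a * L) * √(a * L) ≤ w * 10 ^ 6 * √(a * L) :=
      mul_le_mul_of_nonneg_right h2.le hs0
    linarith
  · by_contra h2
    push Not at h2
    have h4 := hle F (by linarith) hF0
    linarith

end

end Pool.Agent.Lib.MP_f02ea4_nt.IP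
end

section

/-! Largest prime factor of an odd perfect number: the bounds with the constant of Acquaah and
Konyagin, valid for all `N`. -/

set_option autoImplicit false

namespace Pool.Agent.Lib.MP_f02ea4_nt.LP

open Finset Real
open ArithmeticFunction (sigma)

private theorem absorb {c₀ c₁ c : ℝ} (hc₀ : 0 < c₀) (hc : 0 < c) (hcc : c ≤ c₀ / 2)
    (hc₁ : 0 ≤ c₁) (hc1 : c * (2 / c₀ * log (1 / c₀)) ≤ c₁) {P N w y : ℝ} (hP : 0 < P)
    (hw : 1 ≤ w) (hy : 1 ≤ y) (hN : 0 < N) (h : c₀ * P ^ 3 * w ^ c₀ ≤ N)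
    (h' : P ^ 3 * exp (c₁ * y) < 3 * N) : P ^ 3 * w ^ c < 3 * N := by
  have hw0 : 0 < w := by linarith
  have hP3 : 0 < P ^ 3 := by positivity
  rcases le_or_gt (1 / c₀) (w ^ (c₀ / 2)) with h1 | h1
  · have h2 : w ^ c₀ = w ^ (c₀ / 2) * w ^ (c₀ / 2) := by
      rw [← rpow_add hw0]; congr 1; ring
    have h3 : 1 ≤ c₀ * w ^ (c₀ / 2) := by
      rw [div_le_iff₀ hc₀] at h1
      linarith
    have h4 : w ^ c ≤ w ^ (c₀ / 2) := rpow_le_rpow_of_exponent_le hw hcc
    have h5 : 0 < w ^ (c₀ / 2) := rpow_pos_of_pos hw0 _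
    calc P ^ 3 * w ^ c ≤ P ^ 3 * (1 * w ^ (c₀ / 2)) := by
          rw [one_mul]; exact mul_le_mul_of_nonneg_left h4 hP3.le
      _ ≤ P ^ 3 * ((c₀ * w ^ (c₀ / 2)) * w ^ (c₀ / 2)) :=
          mul_le_mul_of_nonneg_left (mul_le_mul_of_nonneg_right h3 h5.le) hP3.le
      _ = c₀ * P ^ 3 * w ^ c₀ := by rw [h2]; ring
      _ ≤ N := h
      _ < 3 * N := by linarith
  · have h2 : log w * (c₀ / 2) < log (1 / c₀) := by
      have h3 := log_lt_log (rpow_pos_of_pos hw0 _) h1
      rw [log_rpow hw0] at h3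
      linarith
    have h3 : log w ≤ 2 / c₀ * log (1 / c₀) := by
      have h4 : 2 / c₀ * (log w * (c₀ / 2)) = log w := by field_simp
      rw [← h4]
      exact mul_le_mul_of_nonneg_left h2.le (by positivity)
    have h4 : w ^ c ≤ exp (c₁ * y) := by
      rw [rpow_def_of_pos hw0, exp_le_exp]
      calc log w * c = c * log w := mul_comm _ _
        _ ≤ c * (2 / c₀ * log (1 / c₀)) := mul_le_mul_of_nonneg_left h3 hc.le
        _ ≤ c₁ * 1 := by linarith
        _ ≤ c₁ * y := mul_le_mul_of_nonneg_left hy hc₁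
    exact lt_of_le_of_lt (mul_le_mul_of_nonneg_left h4 hP3.le) h'

private theorem step1 {c₀ : ℝ} (hc₀ : 0 < c₀)
    (h : ∀ N : ℕ, Odd N → Nat.Perfect N → ∀ P : ℕ, P.Prime → P ∣ N →
      c₀ * (P : ℝ) ^ 3 * exp (c₀ * sqrt (log N)) ≤ N) :
    ∃ c : ℝ, 0 < c ∧ ∀ N : ℕ, Odd N → Nat.Perfect N → ∀ P : ℕ, P.Prime → P ∣ N →
      (P : ℝ) ^ 3 * exp (c * sqrt (log N)) < 3 * N := by
  -- the threshold `Y`
  set Y : ℝ := 1 + |log c₀| * (2 / c₀) with hY
  have hY1 : 1 ≤ Y := by
    have : 0 ≤ |log c₀| * (2 / c₀) := by positivity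
    linarith
  have hYc : 1 ≤ c₀ * exp (c₀ / 2 * Y) := by
    have h1 : -log c₀ ≤ c₀ / 2 * Y := by
      have h2 : c₀ / 2 * Y = c₀ / 2 + |log c₀| := by rw [hY]; field_simp
      rw [h2]
      have := neg_abs_le (log c₀)
      linarith
    have h2 : exp (log c₀ + c₀ / 2 * Y) = c₀ * exp (c₀ / 2 * Y) := by
      rw [exp_add, exp_log hc₀]
    rw [← h2]
    exact one_le_exp (by linarith)
  set δ : ℝ := 1 / (3 * exp (Y ^ 2)) with hδ
  have hδ0 : 0 < δ := by positivity
  have hlogδ : 0 < log (1 + δ) := log_pos (by linarith)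
  have hY0 : 0 < Y := by linarith
  refine ⟨min (c₀ / 2) (log (1 + δ) / Y), lt_min (by positivity) (by positivity), ?_⟩
  intro N hN hperf P hP hPN
  set c := min (c₀ / 2) (log (1 + δ) / Y) with hc
  have hc1 : c ≤ c₀ / 2 := min_le_left _ _
  have hc2 : c * Y ≤ log (1 + δ) := by
    have : c ≤ log (1 + δ) / Y := min_le_right _ _
    rwa [le_div_iff₀ hY0] at this
  have hc0 : 0 < c := lt_min (by positivity) (by positivity)
  have hP0 : (0 : ℝ) < P := by exact_mod_cast hP.pos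
  have hN1 : (1 : ℝ) ≤ N := by exact_mod_cast hperf.2
  have hx0 : 0 ≤ log (N : ℝ) := log_nonneg hN1
  set y := sqrt (log (N : ℝ)) with hy
  have hy0 : 0 ≤ y := sqrt_nonneg _
  rcases le_or_gt Y y with hYy | hYy
  · have h1 := h N hN hperf P hP hPN
    rw [← hy] at h1
    have h2 : 1 ≤ c₀ * exp (c₀ / 2 * y) := by
      refine hYc.trans (mul_le_mul_of_nonneg_left ?_ hc₀.le)
      exact exp_le_exp.2 (mul_le_mul_of_nonneg_left hYy (by positivity))
    have h3 : exp (c * y) ≤ exp (c₀ / 2 * y) :=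
      exp_le_exp.2 (mul_le_mul_of_nonneg_right hc1 hy0)
    have h4 : exp (c₀ * y) = exp (c₀ / 2 * y) * exp (c₀ / 2 * y) := by
      rw [← exp_add]; congr 1; ring
    calc (P : ℝ) ^ 3 * exp (c * y) ≤ (P : ℝ) ^ 3 * (1 * exp (c₀ / 2 * y)) := by
          rw [one_mul]; exact mul_le_mul_of_nonneg_left h3 (by positivity)
      _ ≤ (P : ℝ) ^ 3 * ((c₀ * exp (c₀ / 2 * y)) * exp (c₀ / 2 * y)) :=
          mul_le_mul_of_nonneg_left (mul_le_mul_of_nonneg_right h2 (exp_pos _).le)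
            (by positivity)
      _ = c₀ * (P : ℝ) ^ 3 * exp (c₀ * y) := by rw [h4]; ring
      _ ≤ N := h1
      _ < 3 * N := by linarith
  · have h1 : (P : ℝ) ^ 3 + 1 ≤ 3 * N := by
      have := ak hN hperf hP hPN
      exact_mod_cast this
    have h2 : (N : ℝ) ≤ exp (Y ^ 2) := by
      rw [← log_le_iff_le_exp (by linarith)]
      have h3 : y ^ 2 = log (N : ℝ) := sq_sqrt hx0
      rw [← h3]
      exact pow_le_pow_left₀ hy0 hYy.le 2
    have h3 : exp (c * y) ≤ 1 + δ := by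
      rw [← exp_log (by linarith : 0 < 1 + δ), exp_le_exp]
      exact (mul_le_mul_of_nonneg_left hYy.le hc0.le).trans hc2
    have h4 : δ * (3 * N) ≤ 1 := by
      rw [hδ, div_mul_eq_mul_div, div_le_one (by positivity)]
      linarith
    calc (P : ℝ) ^ 3 * exp (c * y) ≤ (P : ℝ) ^ 3 * (1 + δ) :=
          mul_le_mul_of_nonneg_left h3 (by positivity)
      _ ≤ (3 * N - 1) * (1 + δ) := mul_le_mul_of_nonneg_right (by linarith) (by linarith)
      _ = 3 * N - 1 + δ * (3 * N) - δ := by ring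
      _ < 3 * N := by linarith

/-- The final statement, with the constant of Acquaah and Konyagin. -/
theorem final2 : ∃ c : ℝ, 0 < c ∧ ∀ N : ℕ, Odd N → Nat.Perfect N →
    (∀ P : ℕ, P.Prime → P ∣ N → (P : ℝ) ^ 3 * exp (c * sqrt (log N)) < 3 * N) ∧
    (∀ B : ℕ, (∀ p : ℕ, N.factorization p ≤ B) → ∀ P : ℕ, P.Prime → P ∣ N →
      (P : ℝ) ^ (3 + c / B) < 3 * N) ∧
    (∀ P q : ℕ, P.Prime → N.factorization P = 1 → q.Prime → q ∣ N →
      P ∣ sigma 1 (q ^ N.factorization q) →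
      (P : ℝ) ^ 3 * ((2 : ℝ) ^ N.factorization q * q) ^ c < 3 * N) := by
  obtain ⟨c₀, hc₀, h⟩ := final
  obtain ⟨c₁, hc₁, h1⟩ := step1 hc₀ (fun N hN hp => (h N hN hp).2.1)
  set K : ℝ := 1 + 2 / c₀ * |log (1 / c₀)| with hK
  have hK1 : 1 ≤ K := by
    have : 0 ≤ 2 / c₀ * |log (1 / c₀)| := by positivity
    linarith
  have hK0 : 0 < K := by linarith
  set c := min (c₀ / 2) (c₁ / K) with hc
  have hc0 : 0 < c := lt_min (by positivity) (by positivity)
  have hcc : c ≤ c₀ / 2 := min_le_left _ _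
  have hcK : c * K ≤ c₁ := by
    have : c ≤ c₁ / K := min_le_right _ _
    rwa [le_div_iff₀ hK0] at this
  have hcc1 : c ≤ c₁ := by nlinarith
  have hcl : c * (2 / c₀ * log (1 / c₀)) ≤ c₁ := by
    refine le_trans (mul_le_mul_of_nonneg_left ?_ hc0.le) hcK
    have h2 : 2 / c₀ * log (1 / c₀) ≤ 2 / c₀ * |log (1 / c₀)| :=
      mul_le_mul_of_nonneg_left (le_abs_self _) (by positivity)
    linarith
  refine ⟨c, hc0, ?_⟩
  intro N hN hperf
  obtain ⟨hF1, hF2, hF3⟩ := h N hN hperf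
  have hN1 : (1 : ℝ) ≤ N := by exact_mod_cast hperf.2
  have hNp : (0 : ℝ) < N := by linarith
  have hN3 : 3 ≤ N := by
    by_contra hlt
    push Not at hlt
    have h2 := hperf.2
    have h3 : N = 1 := by
      obtain ⟨k, hk⟩ := hN
      omega
    have h4 := (Nat.perfect_iff_sum_divisors_eq_two_mul hperf.2).1 hperf
    rw [h3] at h4
    simp at h4
  have hy1 : 1 ≤ sqrt (log (N : ℝ)) := by
    rw [one_le_sqrt]
    have h2 : log 3 ≤ log (N : ℝ) := log_le_log (by norm_num) (by exact_mod_cast hN3)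
    exact log3_ge.trans h2
  have hx0 : 0 ≤ log (N : ℝ) := log_nonneg hN1
  refine ⟨?_, ?_, ?_⟩
  · intro P hP hPN
    refine lt_of_le_of_lt ?_ (h1 N hN hperf P hP hPN)
    apply mul_le_mul_of_nonneg_left _ (by positivity)
    exact exp_le_exp.2 (mul_le_mul_of_nonneg_right hcc1 (sqrt_nonneg _))
  · intro B hB P hP hPN
    have hP0 : (0 : ℝ) < P := by exact_mod_cast hP.pos
    have hP1 : (1 : ℝ) ≤ P := by exact_mod_cast hP.one_lt.le
    have hw : (1 : ℝ) ≤ (P : ℝ) ^ (1 / (B : ℝ)) := one_le_rpow hP1 (by positivity)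
    have e1 : ∀ z : ℝ, (P : ℝ) ^ (3 + z / B) = (P : ℝ) ^ 3 * ((P : ℝ) ^ (1 / (B : ℝ))) ^ z := by
      intro z
      rw [← rpow_mul hP0.le, rpow_add hP0]
      congr 1
      · norm_cast
      · congr 1; ring
    rw [e1 c]
    apply absorb hc₀ hc0 hcc hc₁.le hcl hP0 hw hy1 hNp _ (h1 N hN hperf P hP hPN)
    have h2 := hF3 B hB P hP hPN
    rw [e1 c₀] at h2
    linarith
  · intro P q hP hfP hq hqN hPq
    have hP0 : (0 : ℝ) < P := by exact_mod_cast hP.pos
    have hq1 : (1 : ℝ) ≤ q := by exact_mod_cast hq.one_lt.le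
    have hw : (1 : ℝ) ≤ (2 : ℝ) ^ N.factorization q * q := by
      have : (1 : ℝ) ≤ (2 : ℝ) ^ N.factorization q := one_le_pow₀ (by norm_num)
      nlinarith
    have hPN : P ∣ N := Nat.dvd_of_factorization_pos (by rw [hfP]; exact one_ne_zero)
    exact absorb hc₀ hc0 hcc hc₁.le hcl hP0 hw hy1 hNp (hF1 P q hP hfP hq hqN hPq)
      (h1 N hN hperf P hP hPN)

end Pool.Agent.Lib.MP_f02ea4_nt.LP
end

section

/-! Largest prime factor of an odd perfect number: final form with the number of order primes. -/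

set_option autoImplicit false

namespace Pool.Agent.Lib.MP_f02ea4_nt.IP

open Finset Real
open Pool.Agent.Lib.MP_f02ea4_nt.LP (Data)
open ArithmeticFunction (sigma)

section
variable {q b m C f P : ℕ} {S : Finset ℕ} {e s g h d : ℕ → ℕ}

/-- for a good component `e r + 1` has a prime factor `l ≥ 3` which divides `q - 1` -/
theorem LP_good (D : Data q b m C f P S e s g h d) {r : ℕ} (hr : r ∈ S)
    (hg : s r ^ 10 < q ^ g r) :
    (e r + 1).minFac.Prime ∧ 3 ≤ (e r + 1).minFac ∧ (e r + 1).minFac ∣ q - 1 := by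
  have hFp : Fact q.Prime := ⟨D.hq⟩
  have hp3 := D.q3
  have ha := D.pos r hr
  have h1 := IdxK.ord D.hq D.hq2 (D.prime r hr) (D.ne2 r hr) ha (D.s1 r hr) (D.sig r hr) hg
  have hpr := IdxK.not_dvd D.hq (IdxK.kappa_pos (D.s1 r hr) hg) (D.sig r hr)
  have h2 : (r : ZMod q) ≠ 0 := by
    rw [Ne, ZMod.natCast_eq_zero_iff]
    exact hpr
  have h3 : e r + 1 ∣ q - 1 := by
    rw [← h1]
    exact orderOf_dvd_of_pow_eq_one (ZMod.pow_card_sub_one_eq_one h2)
  have h4 : (e r + 1).minFac.Prime := Nat.minFac_prime (by omega)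
  have h5 := Nat.minFac_dvd (e r + 1)
  refine ⟨h4, ?_, h5.trans h3⟩
  have h6 := h4.two_le
  rcases Nat.lt_or_ge (e r + 1).minFac 3 with h7 | h7
  · exfalso
    have h8 : (e r + 1).minFac = 2 := by omega
    rw [h8] at h5
    obtain ⟨j, hj⟩ := D.even r hr
    omega
  · exact h7

/-- the number of order primes is small -/
theorem LP_count {c₀ : ℝ} (hc : ∀ (R : Finset ℕ) (l : ℕ → ℕ),
    (∀ r ∈ R, 3 ≤ r) → (∀ r ∈ R, (l r).Prime) → (∀ r ∈ R, 3 ≤ l r) → Set.InjOn l R →
    c₀ * ((R.card : ℝ) * log R.card) ^ 2 ≤ ∑ r ∈ R, ((l r : ℝ) - 1) * log r)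
    (D : Data q b m C f P S e s g h d) :
    ∃ T : Finset ℕ, (∀ l ∈ T, 3 ≤ l) ∧
      (∀ r ∈ S, s r ^ 10 < q ^ g r → ∃ l ∈ T, l ∣ e r + 1) ∧
      c₀ * ((T.card : ℝ) * log T.card) ^ 2 ≤
        log ((m * C : ℕ) : ℝ) + ((b : ℝ) + 1) * log q := by
  classical
  set S' := S.filter (fun r => s r ^ 10 < q ^ g r) with hS'
  set l : ℕ → ℕ := fun r => (e r + 1).minFac with hl
  have hsurj : Set.SurjOn l (↑S' : Set ℕ) (S'.image l) := by
    rw [Finset.coe_image]
    exact Set.surjOn_image l S'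
  obtain ⟨R, hRS, hinj, himg⟩ := Finset.exists_subset_injOn_image_eq_of_surjOn (↑S' : Set ℕ)
    (S'.image l) hsurj
  have hS'' : ∀ r ∈ S', r ∈ S ∧ (l r).Prime ∧ 3 ≤ l r := by
    intro r hr
    obtain ⟨h1, h2⟩ := Finset.mem_filter.1 hr
    obtain ⟨h5, h6, -⟩ := LP_good D h1 h2
    exact ⟨h1, h5, h6⟩
  have hcard : (S'.image l).card = R.card := by
    rw [← himg]
    exact Finset.card_image_of_injOn hinj
  have hRS' : ∀ r ∈ R, r ∈ S' := fun r hr => hRS hr
  have hRsub : R ⊆ S := fun r hr => (hS'' r (hRS' r hr)).1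
  refine ⟨S'.image l, ?_, ?_, ?_⟩
  · intro y hy
    obtain ⟨r, hr, rfl⟩ := Finset.mem_image.1 hy
    exact (hS'' r hr).2.2
  · intro r hr hg
    exact ⟨l r, Finset.mem_image.2 ⟨r, Finset.mem_filter.2 ⟨hr, hg⟩, rfl⟩, Nat.minFac_dvd _⟩
  · rw [hcard]
    refine (hc R l (fun r hr => D.r3 (hRsub hr))
      (fun r hr => (hS'' r (hRS' r hr)).2.1) (fun r hr => (hS'' r (hRS' r hr)).2.2) hinj).trans ?_
    have hL1 : 1 ≤ log (q : ℝ) := D.L1
    have h1 : ∀ r ∈ R, ((l r : ℝ) - 1) * log r ≤ log (s r : ℝ) + (g r : ℝ) * log q := by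
      intro r hr
      have hrS := hRsub hr
      have h2 : (l r : ℕ) ≤ e r + 1 := Nat.minFac_le (by omega)
      have h3 : (l r : ℝ) ≤ (e r : ℝ) + 1 := by exact_mod_cast h2
      have h4 := IdxK.le_of_sig (D.prime r hrS).one_lt (D.sig r hrS)
      have h5 : ((r ^ e r : ℕ) : ℝ) ≤ ((s r * q ^ g r : ℕ) : ℝ) := by exact_mod_cast h4
      have hr0 : (0 : ℝ) < r := by exact_mod_cast (D.prime r hrS).pos
      have hq0 : (0 : ℝ) < q := by exact_mod_cast D.hq.pos
      have hs0 : (0 : ℝ) < s r := by exact_mod_cast D.s1 r hrS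
      push_cast at h5
      have h6 := log_le_log (by positivity) h5
      rw [log_pow, log_mul (by positivity) (by positivity), log_pow] at h6
      refine le_trans ?_ h6
      exact mul_le_mul_of_nonneg_right (by linarith) (log_natCast_nonneg r)
    refine (Finset.sum_le_sum h1).trans ?_
    rw [Finset.sum_add_distrib, ← Finset.sum_mul]
    have h2 := D.sum_log_sub hRsub
    have h3 : ∑ r ∈ R, (g r : ℝ) ≤ (b : ℝ) + 1 := by
      have h4 : ∑ r ∈ R, g r ≤ ∑ r ∈ S, g r :=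
        Finset.sum_le_sum_of_subset hRsub
      have h5 := D.sum
      have h6 : ∑ r ∈ R, g r ≤ b + 1 := by omega
      exact_mod_cast h6
    have h4 : (∑ r ∈ R, (g r : ℝ)) * log q ≤ ((b : ℝ) + 1) * log q :=
      mul_le_mul_of_nonneg_right h3 (by linarith)
    linarith

end

/-- the real-variable step -/
theorem LP_real {c₀ K : ℝ} (hc₀ : 0 < c₀) (hK : 0 < K) : ∃ C₁ : ℝ, 0 < C₁ ∧
    ∀ (y F : ℝ) (n : ℕ), 1 ≤ y → 0 ≤ F → y ≤ K * ((n : ℝ) + 1) * (1 + F) →
      c₀ * ((n : ℝ) * log n) ^ 2 ≤ F + y → √y * log y ≤ C₁ * (1 + F) := by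
  have hs0 : 0 < √c₀ := sqrt_pos.2 hc₀
  have hE : 0 < 4 + 4 / √c₀ := by positivity
  refine ⟨3 * K * (4 + 4 / √c₀) + 2, by positivity, ?_⟩
  intro y F n hy hF h1 h2
  have hy0 : 0 < y := by linarith
  have hly : 0 ≤ log y := log_nonneg hy
  have hsy : 0 < √y := sqrt_pos.2 hy0
  have hyy : √y * √y = y := mul_self_sqrt hy0.le
  have hKE : 0 ≤ 3 * K * (4 + 4 / √c₀) * (1 + F) := by positivity
  rcases le_or_gt y F with h3 | h3
  · have h4 : log y ≤ 2 * √y := by
      have h5 : log y = 2 * log √y := by rw [log_sqrt hy0.le]; ring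
      have h6 : log √y ≤ √y - 1 := log_le_sub_one_of_pos hsy
      linarith
    have h5 : √y * log y ≤ 2 * y := by
      calc √y * log y ≤ √y * (2 * √y) := mul_le_mul_of_nonneg_left h4 hsy.le
        _ = 2 * (√y * √y) := by ring
        _ = 2 * y := by rw [hyy]
    linarith
  · have hz2 : √(2 * y) ^ 2 = 2 * y := sq_sqrt (by positivity)
    have hz1 : 1 ≤ √(2 * y) := by
      rw [show (1 : ℝ) = √1 by simp]; exact sqrt_le_sqrt (by linarith)
    have h4 := count_le hc₀ hz1 (n := n) (by rw [hz2]; linarith)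
    have h5 : log y ≤ 2 * log √(2 * y) := by
      have h6 : 2 * log √(2 * y) = log (2 * y) := by rw [log_sqrt (by positivity)]; ring
      rw [h6]
      exact log_le_log hy0 (by linarith)
    have h6 : √(2 * y) ≤ 3 / 2 * √y := by
      rw [sqrt_le_left (by positivity)]
      have : (3 / 2 * √y) ^ 2 = 9 / 4 * y := by rw [mul_pow, sq_sqrt hy0.le]; ring
      rw [this]
      linarith
    have hn : (0 : ℝ) < (n : ℝ) + 1 := by positivity
    have h7 : ((n : ℝ) + 1) * log y ≤ 3 * (4 + 4 / √c₀) * √y := by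
      calc ((n : ℝ) + 1) * log y ≤ ((n : ℝ) + 1) * (2 * log √(2 * y)) :=
            mul_le_mul_of_nonneg_left h5 hn.le
        _ = 2 * (((n : ℝ) + 1) * log √(2 * y)) := by ring
        _ ≤ 2 * ((4 + 4 / √c₀) * √(2 * y)) := by linarith
        _ ≤ 2 * ((4 + 4 / √c₀) * (3 / 2 * √y)) := by
            have := mul_le_mul_of_nonneg_left h6 hE.le
            linarith
        _ = _ := by ring
    have h8 : y * log y ≤ √y * (3 * K * (4 + 4 / √c₀) * (1 + F)) := by
      calc y * log y ≤ (K * ((n : ℝ) + 1) * (1 + F)) * log y :=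
            mul_le_mul_of_nonneg_right h1 hly
        _ = K * (1 + F) * (((n : ℝ) + 1) * log y) := by ring
        _ ≤ K * (1 + F) * (3 * (4 + 4 / √c₀) * √y) :=
            mul_le_mul_of_nonneg_left h7 (by positivity)
        _ = _ := by ring
    have h9 : √y * (√y * log y) ≤ √y * (3 * K * (4 + 4 / √c₀) * (1 + F)) := by
      rw [← mul_assoc, hyy]
      exact h8
    have h10 := le_of_mul_le_mul_left h9 hsy
    linarith

/-- the data with all the bounds -/
theorem LP_all : ∃ K : ℝ, 0 < K ∧ ∀ {N P q : ℕ}, Odd N → Nat.Perfect N → P.Prime →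
    N.factorization P = 1 → q.Prime → q ∣ N → P ∣ sigma 1 (q ^ N.factorization q) →
    ∃ F : ℝ, 0 ≤ F ∧ (P : ℝ) ^ 3 * exp F ≤ 6 * N ∧
      log (P : ℝ) ≤ K * ((((q - 1).primeFactors.filter (fun l => l ≠ 2 ∧
        ∃ r ∈ N.primeFactors, l ∣ N.factorization r + 1)).card : ℝ) + 1) * (1 + F) ∧
      (log N ≤ 6 * log P → √(log N) * log (log N) ≤ K * (1 + F)) := by
  classical
  obtain ⟨K, hK, hmain⟩ := main_dataW
  obtain ⟨c₀, hc₀, hLB⟩ := LB
  obtain ⟨C₁, hC₁, hreal⟩ := LP_real hc₀ hK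
  refine ⟨K + 9 * C₁, by positivity, ?_⟩
  intro N P q hN hperf hP hPN hq hqN hPq
  obtain ⟨m, C, f, S, e, s, g, h, d, D, hsize, hSN⟩ := exists_dataE hN hperf hP hPN hq hqN hPq
  set b := N.factorization q with hb
  have hmC1 : (1 : ℝ) ≤ ((m * C : ℕ) : ℝ) := D.mC1
  have hF0 : 0 ≤ log ((m * C : ℕ) : ℝ) := log_nonneg hmC1
  set F := log ((m * C : ℕ) : ℝ) with hF
  have hL1 : 1 ≤ log (q : ℝ) := D.L1
  have hP0 : (0 : ℝ) < P := by exact_mod_cast hP.pos
  have hlP : 0 ≤ log (P : ℝ) := log_natCast_nonneg P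
  have hb2 : (2 : ℝ) ≤ b := by exact_mod_cast D.hb
  set y : ℝ := ((b : ℝ) + 1) * log q with hy
  have hy3 : 3 ≤ y := by nlinarith
  have hPy : log (P : ℝ) ≤ y := by
    have h1 : P ≤ q ^ (b + 1) := by
      have h2 := D.sigq
      have h3 : 1 * P ≤ (q - 1) * (m * P) := by
        rw [← mul_assoc]
        apply Nat.mul_le_mul_right
        have h4 := D.hm
        have h5 := D.q3
        exact Nat.mul_pos (by omega) h4
      omega
    have h2 : (P : ℝ) ≤ (q : ℝ) ^ (b + 1) := by exact_mod_cast h1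
    have h3 := log_le_log hP0 h2
    rw [log_pow] at h3
    push_cast at h3
    exact h3
  refine ⟨F, hF0, ?_, ?_, ?_⟩
  · rw [hF, exp_log (by linarith)]
    exact_mod_cast hsize
  · set T := (q - 1).primeFactors.filter (fun l => l ≠ 2 ∧
      ∃ r ∈ N.primeFactors, l ∣ N.factorization r + 1) with hT
    have h1 := hmain D T (by
      intro l hl
      obtain ⟨h1, h2, -⟩ := Finset.mem_filter.1 hl
      have h3 := (Nat.prime_of_mem_primeFactors h1).two_le
      omega) (by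
      intro r hr hg
      obtain ⟨h1, h2, h3⟩ := LP_good D hr hg
      have hq3 := D.q3
      refine ⟨_, Finset.mem_filter.2 ⟨Nat.mem_primeFactors.2 ⟨h1, h3, by omega⟩, by omega, r,
        (hSN r hr).1, ?_⟩, Nat.minFac_dvd _⟩
      rw [← (hSN r hr).2]
      exact Nat.minFac_dvd _)
    have h2 : 0 ≤ 9 * C₁ * ((T.card : ℝ) + 1) * (1 + F) := by positivity
    linarith
  · intro hx
    obtain ⟨T, hT3, hT, hcount⟩ := LP_count hLB D
    have h1 := hreal y F T.card (by linarith) hF0 (hmain D T hT3 hT) hcount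
    have hN3 : (3 : ℝ) ≤ N := by
      have h2 : 3 ≤ N := by
        have h3 := Nat.le_of_dvd hperf.2 hqN
        have h4 := D.q3
        omega
      exact_mod_cast h2
    have hx1 : 1 ≤ log (N : ℝ) := by
      rw [le_log_iff_exp_le (by linarith)]
      have h4 : exp 1 < 2.7182818286 := exp_one_lt_d9
      linarith
    have hx6 : log (N : ℝ) ≤ 6 * y := by linarith
    have h2 : √(log (N : ℝ)) ≤ 3 * √y := by
      rw [sqrt_le_left (by positivity), mul_pow, sq_sqrt (by linarith)]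
      linarith
    have h3 : log (log (N : ℝ)) ≤ 3 * log y := by
      have h4 : 3 * log y = log (y ^ 3) := by rw [log_pow]; norm_num
      rw [h4]
      apply log_le_log (by linarith)
      have h5 : 6 * y ≤ y ^ 3 := by nlinarith [sq_nonneg (y - 3), mul_nonneg (by linarith : (0:ℝ) ≤ y) (by linarith : 0 ≤ y - 3)]
      linarith
    have h4 : √(log (N : ℝ)) * log (log N) ≤ (3 * √y) * (3 * log y) :=
      mul_le_mul h2 h3 (log_nonneg hx1) (by positivity)
    have h5 : 0 ≤ K * (1 + F) := by positivity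
    calc √(log (N : ℝ)) * log (log N) ≤ (3 * √y) * (3 * log y) := h4
      _ = 9 * (√y * log y) := by ring
      _ ≤ 9 * (C₁ * (1 + F)) := by linarith
      _ ≤ (K + 9 * C₁) * (1 + F) := by linarith

end Pool.Agent.Lib.MP_f02ea4_nt.IP
end

section

/-! Largest prime factor of an odd perfect number: the good components with a small exponent
of `q`. -/

set_option autoImplicit false

namespace Pool.Agent.MP_f02ea4.TB

open Finset Real
open Pool.Agent.Lib.MP_f02ea4_nt.LP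
open Pool.Agent.Lib.MP_f02ea4_nt.IP

section
variable {q b m C f P : ℕ} {S : Finset ℕ} {e s g h d : ℕ → ℕ}

/-- the good components with a small exponent of `q` carry a positive proportion -/
theorem LP_class2 (D : Data q b m C f P S e s g h d)
    (hF6 : log ((m * C : ℕ) : ℝ) * 10 ^ 6 ≤ ((b : ℝ) + 1) * log q) :
    ∃ S2 : Finset ℕ, S2 ⊆ S ∧ (∀ r ∈ S2, s r ^ 10 < q ^ g r) ∧
      (∀ r ∈ S2, (g r : ℝ) * log q ≤
        601 * log q + 20000 * log ((m * C : ℕ) : ℝ) + 30 * √(((b : ℝ) + 1) * log q)) ∧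
      ((b : ℝ) + 1) * log q ≤ 4 * ∑ r ∈ S2, (g r : ℝ) * log q := by
  classical
  set F := log ((m * C : ℕ) : ℝ) with hFdef
  set L := log (q : ℝ) with hLdef
  set a : ℝ := (b : ℝ) + 1 with ha
  have hL1 : 1 ≤ L := D.L1
  have hL0 : 0 < L := by linarith
  have hF0 : 0 ≤ F := D.F0
  have hb2 : (2 : ℝ) ≤ b := by exact_mod_cast D.hb
  have ha3 : 3 ≤ a := by linarith
  have ha0 : 0 < a := by linarith
  have hFaL : F * 10 ^ 6 ≤ a * L := hF6
  -- the threshold
  set z := sqrt (a / L) with hz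
  have hz0 : 0 ≤ z := sqrt_nonneg _
  have hzz : z * z * L = a := by
    rw [hz, mul_self_sqrt (by positivity)]
    field_simp
  have hzL : √(a * L) = z * L := by
    rw [show a * L = (z * L) * (z * L) by rw [← hzz]; ring]
    exact sqrt_mul_self (by positivity)
  have hFL : 0 ≤ 20000 * F / L := by positivity
  set X : ℕ := ⌈600 + 20000 * F / L + 30 * z⌉₊ with hX
  have hX1 : 600 + 20000 * F / L + 30 * z ≤ X := Nat.le_ceil _
  have hX2 : (X : ℝ) < 600 + 20000 * F / L + 30 * z + 1 := Nat.ceil_lt_add_one (by positivity)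
  have hXL : (X : ℝ) * L ≤ 601 * L + 20000 * F + 30 * √(a * L) := by
    have h1 : (X : ℝ) * L ≤ (600 + 20000 * F / L + 30 * z + 1) * L :=
      mul_le_mul_of_nonneg_right hX2.le hL0.le
    have h2 : (600 + 20000 * F / L + 30 * z + 1) * L
        = 601 * L + 20000 * F + 30 * (z * L) := by
      field_simp
      ring
    rw [h2] at h1
    rw [hzL]
    exact h1
  -- the three classes
  set S1 := S.filter (fun r => q ^ g r ≤ s r ^ 10) with hS1
  set S' := S.filter (fun r => ¬ q ^ g r ≤ s r ^ 10) with hS'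
  set S2 := S'.filter (fun r => g r ≤ X) with hS2
  set S3 := S'.filter (fun r => ¬ g r ≤ X) with hS3
  have hsub1 : S1 ⊆ S := Finset.filter_subset _ _
  have hsub' : S' ⊆ S := Finset.filter_subset _ _
  have hsub2 : S2 ⊆ S := (Finset.filter_subset _ _).trans hsub'
  have hsub3 : S3 ⊆ S := (Finset.filter_subset _ _).trans hsub'
  have hgood2 : ∀ r ∈ S2, s r ^ 10 < q ^ g r := fun r hr =>
    not_le.1 (Finset.mem_filter.1 (Finset.mem_filter.1 hr).1).2
  have hgood3 : ∀ r ∈ S3, s r ^ 10 < q ^ g r := fun r hr =>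
    not_le.1 (Finset.mem_filter.1 (Finset.mem_filter.1 hr).1).2
  have hsplit : ∑ r ∈ S, (g r : ℝ)
      = ∑ r ∈ S1, (g r : ℝ) + (∑ r ∈ S2, (g r : ℝ) + ∑ r ∈ S3, (g r : ℝ)) := by
    rw [hS2, hS3, Finset.sum_filter_add_sum_filter_not, hS1, hS',
      Finset.sum_filter_add_sum_filter_not]
  have hbsum : (b : ℝ) = f + ∑ r ∈ S, (g r : ℝ) := by
    have := D.sum
    exact_mod_cast this.symm
  -- class 1
  have hc1 : ∑ r ∈ S1, (g r : ℝ) ≤ a / 10 ^ 5 := by
    have h1 := D.nongood hsub1 (fun r hr => (Finset.mem_filter.1 hr).2)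
    have h2 : (∑ r ∈ S1, (g r : ℝ)) * L ≤ (a / 10 ^ 5) * L := by
      calc (∑ r ∈ S1, (g r : ℝ)) * L ≤ 10 * F := h1
        _ ≤ a / 10 ^ 5 * L := by linarith
    exact le_of_mul_le_mul_right h2 hL0
  -- class 3
  have hX3 : ∀ r ∈ S3, 2 ≤ s r ∧ (g r : ℝ) * (20000 * F) ≤ 1624 * a * log (s r : ℝ) := by
    intro r hr
    have h1 : (X : ℝ) ≤ g r := by
      have := not_le.1 (Finset.mem_filter.1 hr).2
      exact_mod_cast this.le
    have hg0 : (0 : ℝ) ≤ g r := Nat.cast_nonneg _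
    have h2 : 20000 * F ≤ g r * L := by
      have h3 : 20000 * F / L ≤ g r := by linarith
      rwa [div_le_iff₀ (by linarith)] at h3
    have h600 : 600 ≤ g r := by
      have : (600 : ℝ) ≤ g r := by linarith
      exact_mod_cast this
    have h4 : 900 * a ≤ (g r : ℝ) ^ 2 * L := by
      have h5 : 30 * z ≤ g r := by linarith
      have h6 : (30 * z) * (30 * z) ≤ (g r : ℝ) * g r := mul_le_mul h5 h5 (by positivity) hg0
      calc 900 * a = (30 * z) * (30 * z) * L := by rw [← hzz]; ring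
        _ ≤ (g r : ℝ) * g r * L := mul_le_mul_of_nonneg_right h6 (by linarith)
        _ = _ := by ring
    obtain ⟨h7, h8⟩ := D.localb' (hsub3 hr) (hgood3 r hr) h600 (by linarith) h4
    refine ⟨h7, ?_⟩
    calc (g r : ℝ) * (20000 * F) ≤ (g r : ℝ) * (g r * L) := mul_le_mul_of_nonneg_left h2 hg0
      _ = (g r : ℝ) ^ 2 * L := by ring
      _ ≤ _ := h8
  have hc3 : ∑ r ∈ S3, (g r : ℝ) ≤ a * (9 / 100) := by
    rcases eq_or_lt_of_le hF0 with h0 | hpos
    · have hempty : S3 = ∅ := by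
        apply Finset.eq_empty_of_forall_notMem
        intro r hr
        have h1 := (hX3 r hr).1
        have h2 := D.log_s_le (hsub3 hr)
        have h3 : 0 < log (s r : ℝ) := log_pos (by exact_mod_cast (by omega : 1 < s r))
        linarith
      rw [hempty, Finset.sum_empty]
      positivity
    · have h1 : (∑ r ∈ S3, (g r : ℝ)) * (20000 * F) ≤ 1624 * a * F := by
        rw [Finset.sum_mul]
        calc ∑ r ∈ S3, (g r : ℝ) * (20000 * F) ≤ ∑ r ∈ S3, 1624 * a * log (s r : ℝ) :=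
              Finset.sum_le_sum (fun r hr => (hX3 r hr).2)
          _ = 1624 * a * ∑ r ∈ S3, log (s r : ℝ) := by rw [Finset.mul_sum]
          _ ≤ _ := mul_le_mul_of_nonneg_left (D.sum_log_sub hsub3) (by positivity)
      have h2 : ((∑ r ∈ S3, (g r : ℝ)) * 20000) * F ≤ (1624 * a) * F := by linarith
      have h3 := le_of_mul_le_mul_right h2 hpos
      linarith
  -- `f`
  have hf : (f : ℝ) ≤ 7 / 10 + a / 10 ^ 6 := by
    have h1 := D.f_le
    have h2 : (f : ℝ) * L ≤ (7 / 10 + a / 10 ^ 6) * L := by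
      have h3 : (7 / 10 : ℝ) ≤ 7 / 10 * L := by linarith
      have h4 : F ≤ a / 10 ^ 6 * L := by linarith
      linarith
    exact le_of_mul_le_mul_right h2 hL0
  refine ⟨S2, hsub2, hgood2, ?_, ?_⟩
  · intro r hr
    have h1 : (g r : ℝ) ≤ X := by exact_mod_cast (Finset.mem_filter.1 hr).2
    exact (mul_le_mul_of_nonneg_right h1 hL0.le).trans hXL
  · have h1 : a ≤ 4 * ∑ r ∈ S2, (g r : ℝ) := by
      have : a = b + 1 := ha
      linarith
    calc a * L ≤ (4 * ∑ r ∈ S2, (g r : ℝ)) * L := mul_le_mul_of_nonneg_right h1 hL0.le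
      _ = 4 * ∑ r ∈ S2, (g r : ℝ) * L := by rw [mul_assoc, Finset.sum_mul]

end

end Pool.Agent.MP_f02ea4.TB
end
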