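import Pool.Agent.Lib.MP_f02ea4_nt.IdxLocal
import Pool.Agent.Lib.MP_f02ea4_nt.IdxStruct
import Pool.Agent.Lib.MP_f02ea4_nt.IdxGood
import Pool.Agent.Lib.MP_f02ea4_nt.Mg.G003
import Pool.Agent.Lib.MP_f02ea4_nt.IdxTwo

section

/-! Index of odd perfect numbers: the third inequality, `k ≤ 30000 log i`. -/

set_option autoImplicit false

namespace Pool.Agent.Lib.MP_f02ea4_nt.Idx

open Finset Real

/-- the final real inequality -/
lemma kfinal_ineq (k P I D Z t X G T : ℝ) (hk : 1000 ≤ k) (hP : 1 ≤ P) (hI : log 2 ≤ I)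
    (hD : D = (k + 1) * P) (hZ : Z = 600 * I) (ht : t ≤ (24427 / 10000) * P) (ht0 : 0 ≤ t)
    (hX : X * P ≤ Z) (hG : 5 * G ≤ 32 * t * X)
    (hT : T ≤ 12 * sqrt (D * I) + 11 * I + I + 288 * D * I / Z + (11 / 10) * (P * G))
    (h : k * P ≤ log 2 + (I + 2 * log (k + 1)) + T) : k ≤ 30000 * I := by
  have h2 : (0.6931471803 : ℝ) < log 2 := log_two_gt_d9
  have hI0 : 0 < I := by linarith
  have hD0 : 0 < D := by rw [hD]; positivity
  have hDk : D ≤ (1001 / 1000) * (k * P) := by rw [hD]; nlinarith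
  -- the term `2 log (k + 1)`
  have hlog : 2 * log (k + 1) ≤ (47 / 1000) * (k * P) := by
    have h3 := log_le_sqrt (k + 1) (by linarith)
    have h4 : sqrt (k + 1) * (316 / 10) ≤ k + 1 := by
      have h5 : sqrt (k + 1) * sqrt (k + 1) = k + 1 := mul_self_sqrt (by linarith)
      have h6 : (316 / 10 : ℝ) ≤ sqrt (k + 1) := by
        apply le_sqrt_of_sq_le
        norm_num
        linarith
      nlinarith [sqrt_nonneg (k + 1)]
    nlinarith
  -- the odd term
  have hodd : 12 * sqrt (D * I) ≤ (2 / 100) * D + 1800 * I := by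
    have h3 : sqrt (D * I) ≤ (1 / 600) * D + 150 * I := by
      rw [sqrt_le_left (by positivity)]
      nlinarith [sq_nonneg ((1 / 600) * D - 150 * I)]
    linarith
  have h288 : 288 * D * I / Z = (48 / 100) * D := by
    rw [hZ]
    field_simp
    ring
  rw [h288] at hT
  -- the good part
  have hPG : P * G ≤ (32 / 5) * t * Z := by
    have h3 : P * (5 * G) ≤ P * (32 * t * X) := mul_le_mul_of_nonneg_left hG (by linarith)
    have h4 : t * (X * P) ≤ t * Z := mul_le_mul_of_nonneg_left hX ht0
    nlinarith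
  have htZ : t * Z ≤ (24427 / 10000) * P * (600 * I) := by
    rw [hZ]
    exact mul_le_mul_of_nonneg_right ht (by positivity)
  have hPI : I ≤ P * I := by nlinarith
  have h7 : log 2 ≤ P * I := by linarith
  have h8 : (k * P) * (452 / 1000) ≤ 12400 * (P * I) := by
    nlinarith
  have h9 : k * (452 / 1000) ≤ 12400 * I := by
    by_contra hc
    push Not at hc
    nlinarith
  linarith

/-- The exponent of a prime power component is at most `30000 log i`. -/
theorem k_le {N p k M i : ℕ} {F W f : ℕ → ℕ} (hp : p.Prime)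
    (H : Data N p k M i F W f) : (k : ℝ) ≤ 30000 * log i := by
  obtain ⟨hp3, hM0, hi2, hi4, hidiv, hrprime, hr3, he1, hσr, hW1, hWp, hWdvd, hpar,
    hfval, hfdvd, hkP, hsum1, hlogW, hlogN⟩ := H
  have hir : (2 : ℝ) ≤ i := by exact_mod_cast hi2
  have hp3r : (3 : ℝ) ≤ p := by exact_mod_cast hp3
  have hP : (1 : ℝ) ≤ log p := log_three_ge_one.trans (log_le_log (by norm_num) hp3r)
  have hI : log 2 ≤ log i := log_le_log (by norm_num) hir
  have h2 : (0.6931471803 : ℝ) < log 2 := log_two_gt_d9
  have h2b : log 2 < (0.6931471808 : ℝ) := log_two_lt_d9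
  have hI0 : 0 < log (i : ℝ) := by linarith
  rcases Nat.lt_or_ge k 1000 with hk | hk
  · have : (k : ℝ) ≤ 1000 := by exact_mod_cast hk.le
    nlinarith
  have hkr : (1000 : ℝ) ≤ k := by exact_mod_cast hk
  set D : ℝ := ((k : ℝ) + 1) * log p with hD
  have hD0 : 0 < D := by positivity
  set Z : ℝ := 600 * log i with hZ
  have hZ0 : 0 < Z := by positivity
  set t : ℕ := Nat.clog 2 p with ht
  have hpt : p ≤ 2 ^ t := Nat.le_pow_clog (by norm_num) p
  have htr : (t : ℝ) ≤ (24427 / 10000) * log p := by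
    have h3 : 2 ^ (t - 1) < p := Nat.pow_pred_clog_lt_self (by norm_num) (by omega)
    have h4 : ((2 : ℝ)) ^ (t - 1) ≤ p := by exact_mod_cast h3.le
    have h5 := log_le_log (by positivity) h4
    rw [log_pow] at h5
    have h6 : (t : ℝ) ≤ ((t - 1 : ℕ) : ℝ) + 1 := by
      have : t ≤ (t - 1) + 1 := by omega
      exact_mod_cast this
    nlinarith
  set X : ℕ := ⌊Z / log p⌋₊ with hX
  have hXP : (X : ℝ) * log p ≤ Z := by
    have : (X : ℝ) ≤ Z / log p := Nat.floor_le (by positivity)
    exact (le_div_iff₀ (by linarith)).mp this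
  set S2 := M.primeFactors.filter (fun r => ¬ W r = 1) with hS2
  have hS2W : ∀ r ∈ S2, r ∈ M.primeFactors ∧ 2 ≤ W r := by
    intro r hr
    rw [hS2, mem_filter] at hr
    have := hW1 r hr.1
    exact ⟨hr.1, by omega⟩
  set a : ℕ → ℕ := fun r => M.factorization r with ha
  set C : ℕ → ℝ := fun r => log (W r) with hC
  -- sizes
  have hlow : ∀ r ∈ M.primeFactors, (a r : ℝ) * log r ≤ F r * log p + C r := by
    intro r hr
    have h3 := hσr r hr
    have hr3' := hr3 r hr
    have hx : r ^ a r ≤ p ^ F r * W r := by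
      by_contra hc
      push Not at hc
      obtain ⟨b, hb⟩ : ∃ b, r = b + 1 := ⟨r - 1, by omega⟩
      have h4 : r ^ (M.factorization r + 1) = (b + 1) * r ^ a r := by
        rw [pow_succ', ← hb]
      rw [h4, show r - 1 = b by omega] at h3
      have h5 : b * (p ^ F r * W r + 1) ≤ b * r ^ a r := Nat.mul_le_mul_left b hc
      have h6 : (b + 1) * r ^ a r = b * r ^ a r + r ^ a r := by ring
      have h7 : b * (p ^ F r * W r + 1) = b * (p ^ F r * W r) + b := by ring
      omega
    have hx' : ((r : ℝ)) ^ a r ≤ (p : ℝ) ^ F r * W r := by exact_mod_cast hx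
    have hr0 : (0 : ℝ) < r := by exact_mod_cast (by omega : 0 < r)
    have hWr : (0 : ℝ) < W r := by exact_mod_cast hW1 r hr
    have h5 := log_le_log (by positivity) hx'
    rw [log_pow, log_mul (by positivity) (by positivity), log_pow] at h5
    exact h5
  have hup : ∀ r ∈ M.primeFactors, F r * log p + C r ≤ (a r : ℝ) * log r + log (3 / 2) := by
    intro r hr
    have h3 := hσr r hr
    have hr3' := hr3 r hr
    have hx : 2 * (p ^ F r * W r) ≤ 3 * r ^ a r := by
      obtain ⟨b, hb⟩ : ∃ b, r = b + 1 := ⟨r - 1, by omega⟩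
      have hb2 : 2 ≤ b := by omega
      have h4 : r ^ (M.factorization r + 1) = (b + 1) * r ^ a r := by
        rw [pow_succ', ← hb]
      rw [h4, show r - 1 = b by omega] at h3
      by_contra hc
      push Not at hc
      have h5 : b * (3 * r ^ a r + 1) ≤ b * (2 * (p ^ F r * W r)) := Nat.mul_le_mul_left b hc
      have h6 : (b + 1) * r ^ a r = b * r ^ a r + r ^ a r := by ring
      have h7 : b * (3 * r ^ a r + 1) = 3 * (b * r ^ a r) + b := by ring
      have h8 : b * (2 * (p ^ F r * W r)) = 2 * (b * (p ^ F r * W r)) := by ring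
      have h9 : 2 * r ^ a r ≤ b * r ^ a r := Nat.mul_le_mul_right _ hb2
      omega
    have hx' : (p : ℝ) ^ F r * W r ≤ ((r : ℝ)) ^ a r * (3 / 2) := by
      have : 2 * ((p : ℝ) ^ F r * W r) ≤ 3 * (r : ℝ) ^ a r := by exact_mod_cast hx
      linarith
    have hr0 : (0 : ℝ) < r := by exact_mod_cast (by omega : 0 < r)
    have hWr : (0 : ℝ) < W r := by exact_mod_cast hW1 r hr
    have h5 := log_le_log (by positivity) hx'
    have e1 : log ((p : ℝ) ^ F r * W r) = F r * log p + C r := by
      rw [log_mul (by positivity) hWr.ne', log_pow]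
    have e2 : log (((r : ℝ)) ^ a r * (3 / 2)) = a r * log r + log (3 / 2) := by
      rw [log_mul (by positivity) (by norm_num), log_pow]
    rw [e1, e2] at h5
    exact h5
  have hloc : ∀ r ∈ S2, (f r : ℝ) * log r ≤ 12 * sqrt (D * C r) := by
    intro r hr
    obtain ⟨hrS, hW2⟩ := hS2W r hr
    have h3 := local_bound (p := p) (q := r) (c := W r) (κ := F r) (a := M.factorization r)
      (f := f r) (d := k + 1) hp (by omega) (hrprime r hrS) (by have := hr3 r hrS; omega) hW2
      (hWp r hrS) (by rw [mul_comm (W r)]; exact hσr r hrS) (by have := hfval r hrS; omega)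
      (by omega) (hfdvd r)
    push_cast at h3
    exact h3
  have hC2 : ∀ r ∈ S2, log 2 ≤ C r := by
    intro r hr
    apply log_le_log (by norm_num)
    exact_mod_cast (hS2W r hr).2
  have hCI : ∀ r ∈ S2, C r ≤ log i := by
    intro r hr
    refine le_trans ?_ hlogW
    apply Finset.single_le_sum (f := fun r => log (W r : ℝ)) _ hr
    intro s hs
    exact (by linarith [hC2 s hs] : (0 : ℝ) ≤ C s)
  -- the pointwise bound
  set good : ℕ → Prop := fun r => Even (a r) ∧ W r ^ 10 < p ^ F r ∧ F r ≤ X with hgood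
  classical
  have hpt2 : ∀ r ∈ S2, (f r : ℝ) * log r ≤
      (if Odd (a r) then 12 * sqrt (D * log i) else 0) + 11 * C r
        + (i.factorization r : ℝ) * log r + 288 * D * C r / Z
        + (if good r then (11 / 10) * (log p * F r) else 0) := by
    intro r hr
    obtain ⟨hrS, hW2⟩ := hS2W r hr
    have hr1 : (0 : ℝ) ≤ log r := log_natCast_nonneg r
    have hc2 := hC2 r hr
    have hCi := hCI r hr
    have hCr0 : 0 < C r := by linarith
    have ht1 : 0 ≤ (i.factorization r : ℝ) * log r := by positivity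
    have ht2 : 0 ≤ 288 * D * C r / Z := by positivity
    have ht3 : (0 : ℝ) ≤ (if good r then (11 / 10) * (log p * F r) else 0) := by
      split_ifs <;> positivity
    have ht4 : (0 : ℝ) ≤ (if Odd (a r) then 12 * sqrt (D * log i) else 0) := by
      split_ifs <;> positivity
    rcases Nat.even_or_odd (a r) with he | ho
    swap
    · rw [if_pos ho]
      have h3 := hloc r hr
      have h4 : sqrt (D * C r) ≤ sqrt (D * log i) :=
        sqrt_le_sqrt (mul_le_mul_of_nonneg_left hCi hD0.le)
      linarith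
    have hfa : f r ≤ a r := by
      show f r ≤ M.factorization r
      have := hfval r hrS
      omega
    have hfar : (f r : ℝ) * log r ≤ a r * log r := by
      apply mul_le_mul_of_nonneg_right _ hr1
      exact_mod_cast hfa
    have hlow' := hlow r hrS
    rcases Nat.lt_or_ge (W r ^ 10) (p ^ F r) with hg | hng
    swap
    · -- not good
      have h3 : ((p : ℝ)) ^ F r ≤ (W r : ℝ) ^ 10 := by exact_mod_cast hng
      have h4 := log_le_log (by positivity) h3
      rw [log_pow, log_pow] at h4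
      push_cast at h4
      have h5 : (10 : ℝ) * log (W r) = 10 * C r := rfl
      linarith
    have hg' : 10 * C r ≤ F r * log p := by
      have h3 : (W r : ℝ) ^ 10 ≤ (p : ℝ) ^ F r := by exact_mod_cast hg.le
      have h4 := log_le_log (by positivity) h3
      rw [log_pow, log_pow] at h4
      push_cast at h4
      exact h4
    rcases Nat.lt_or_ge (i.factorization r) (f r) with hfv | hfv
    swap
    · -- `f ≤ v`
      have h3 : (f r : ℝ) * log r ≤ (i.factorization r : ℝ) * log r := by
        apply mul_le_mul_of_nonneg_right _ hr1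
        exact_mod_cast hfv
      have : 0 ≤ 11 * C r := by positivity
      linarith
    rcases Nat.lt_or_ge X (F r) with hXF | hXF
    swap
    · -- small `F`
      rw [if_pos (⟨he, hg, hXF⟩ : good r)]
      have h3 : 0 ≤ 11 * C r := by positivity
      have h4 : (f r : ℝ) * log r ≤ (11 / 10) * (log p * F r) := by linarith
      linarith
    · -- large `F`
      have h3 : Z < F r * log p := by
        have h4 : Z / log p < F r := (Nat.floor_lt (by positivity)).mp hXF
        exact (div_lt_iff₀ (by linarith)).mp h4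
      have h5 := hup r hrS
      have h6 : (a r : ℝ) ≤ 2 * f r := by
        have h7 := hfval r hrS
        have : a r ≤ 2 * f r := by
          show M.factorization r ≤ 2 * f r
          omega
        exact_mod_cast this
      have h7 : (a r : ℝ) * log r ≤ 2 * f r * log r := mul_le_mul_of_nonneg_right h6 hr1
      have h32 : log (3 / 2 : ℝ) ≤ log 2 := log_le_log (by norm_num) (by norm_num)
      have hy : Z / 2 ≤ (f r : ℝ) * log r := by linarith
      have h8 := hloc r hr
      have h9 : ((f r : ℝ) * log r) * (Z / 2) ≤ 144 * (D * C r) := by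
        calc ((f r : ℝ) * log r) * (Z / 2) ≤ ((f r : ℝ) * log r) * ((f r : ℝ) * log r) :=
              mul_le_mul_of_nonneg_left hy (by positivity)
          _ ≤ (12 * sqrt (D * C r)) * (12 * sqrt (D * C r)) :=
              mul_le_mul h8 h8 (by positivity) (by positivity)
          _ = 144 * (sqrt (D * C r) * sqrt (D * C r)) := by ring
          _ = 144 * (D * C r) := by rw [mul_self_sqrt (by positivity)]
      have h10 : (f r : ℝ) * log r ≤ 288 * D * C r / Z := by
        rw [le_div_iff₀ hZ0]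
        linarith
      have h11 : 0 ≤ 11 * C r := by positivity
      linarith
  -- sums
  have hsumT := Finset.sum_le_sum hpt2
  simp only [Finset.sum_add_distrib] at hsumT
  -- the odd part
  have hoddsum : ∑ r ∈ S2, (if Odd (a r) then 12 * sqrt (D * log i) else 0)
      ≤ 12 * sqrt (D * log i) := by
    rw [← Finset.sum_filter, Finset.sum_const, nsmul_eq_mul]
    have hcard : (S2.filter (fun r => Odd (a r))).card ≤ 1 := by
      rw [Finset.card_le_one]
      intro r hr s hs
      rw [mem_filter] at hr hs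
      by_contra hne
      apply hi4
      have hWr : Even (W r) := by
        rcases hpar r (hS2W r hr.1).1 with h | h
        · exact absurd h (Nat.not_even_iff_odd.mpr hr.2)
        · exact h
      have hWs : Even (W s) := by
        rcases hpar s (hS2W s hs.1).1 with h | h
        · exact absurd h (Nat.not_even_iff_odd.mpr hs.2)
        · exact h
      have h3 : W r * W s ∣ ∏ r ∈ M.primeFactors, W r := by
        have h4 : ({r, s} : Finset ℕ) ⊆ M.primeFactors := by
          intro x hx
          rw [mem_insert, mem_singleton] at hx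
          rcases hx with rfl | rfl
          · exact (hS2W _ hr.1).1
          · exact (hS2W _ hs.1).1
        have h5 := Finset.prod_dvd_prod_of_subset _ _ W h4
        rwa [Finset.prod_pair hne] at h5
      have h6 : 2 * 2 ∣ W r * W s := mul_dvd_mul hWr.two_dvd hWs.two_dvd
      exact (h6.trans h3).trans hWdvd
    have hcr : ((S2.filter (fun r => Odd (a r))).card : ℝ) ≤ 1 := by exact_mod_cast hcard
    have h0 : 0 ≤ 12 * sqrt (D * log i) := by positivity
    nlinarith
  have hsumC : ∑ r ∈ S2, 11 * C r ≤ 11 * log i := by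
    rw [← Finset.mul_sum]
    exact mul_le_mul_of_nonneg_left hlogW (by norm_num)
  have hsumD : ∑ r ∈ S2, 288 * D * C r / Z ≤ 288 * D * log i / Z := by
    rw [← Finset.sum_div, ← Finset.mul_sum]
    apply div_le_div_of_nonneg_right _ hZ0.le
    exact mul_le_mul_of_nonneg_left hlogW (by positivity)
  have hsumv : ∑ r ∈ S2, (i.factorization r : ℝ) * log r ≤ log i := by
    have hdvd : ∏ r ∈ S2, r ^ i.factorization r ∣ i := by
      apply Finset.prod_dvd_of_isRelPrime
      · intro r hr s hs hrs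
        have hco : Nat.Coprime r s := (Nat.coprime_primes (hrprime r (hS2W r hr).1)
          (hrprime s (hS2W s hs).1)).mpr hrs
        exact Nat.coprime_iff_isRelPrime.mp (Nat.Coprime.pow _ _ hco)
      · intro r _
        exact Nat.ordProj_dvd i r
    have hle : ∏ r ∈ S2, r ^ i.factorization r ≤ i := Nat.le_of_dvd (by omega) hdvd
    have hpos : 0 < ∏ r ∈ S2, r ^ i.factorization r := Finset.prod_pos (fun r hr => by
      have := (hrprime r (hS2W r hr).1).pos
      positivity)
    have h3 : ((∏ r ∈ S2, r ^ i.factorization r : ℕ) : ℝ) ≤ i := by exact_mod_cast hle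
    have h4 := log_le_log (by exact_mod_cast hpos) h3
    have h5 : log ((∏ r ∈ S2, r ^ i.factorization r : ℕ) : ℝ)
        = ∑ r ∈ S2, (i.factorization r : ℝ) * log r := by
      push_cast
      rw [Real.log_prod (fun r hr => by
        have := (hrprime r (hS2W r hr).1).pos
        positivity)]
      exact Finset.sum_congr rfl (fun r _ => by rw [log_pow])
    rw [h5] at h4
    exact h4
  -- the good part
  have hgoodsum : ∑ r ∈ S2, (if good r then (11 / 10) * (log p * F r) else 0)
      = (11 / 10) * (log p * ((∑ r ∈ S2.filter good, F r : ℕ) : ℝ)) := by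
    rw [← Finset.sum_filter, ← Finset.mul_sum, ← Finset.mul_sum]
    push_cast
    rfl
  have hfam : IdxK.Fam p (S2.filter good) a W F :=
    { prime := fun q hq => hrprime q (hS2W q (mem_filter.mp hq).1).1
      ne2 := fun q hq => by have := hr3 q (hS2W q (mem_filter.mp hq).1).1; omega
      even := fun q hq => (mem_filter.mp hq).2.1
      pos := fun q hq => he1 q (hS2W q (mem_filter.mp hq).1).1
      c2 := fun q hq => (hS2W q (mem_filter.mp hq).1).2
      sig := fun q hq => by
        rw [mul_comm (W q)]; exact hσr q (hS2W q (mem_filter.mp hq).1).1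
      good := fun q hq => (mem_filter.mp hq).2.2.1 }
  have hsk := IdxK.sum_kappa hp (by omega) hfam t X (fun q hq => (mem_filter.mp hq).2.2.2) hpt
  have hskr : 5 * ((∑ r ∈ S2.filter good, F r : ℕ) : ℝ) ≤ 32 * t * X := by exact_mod_cast hsk
  rw [hgoodsum] at hsumT
  rw [← Finset.sum_filter_add_sum_filter_not M.primeFactors (fun r => W r = 1)] at hkP
  exact kfinal_ineq (k : ℝ) (log p) (log i) D Z t X
    ((∑ r ∈ S2.filter good, F r : ℕ) : ℝ) (∑ r ∈ S2, (f r : ℝ) * log r)
    hkr hP hI hD hZ htr (by positivity) hXP hskr (by linarith) (by linarith)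

end Pool.Agent.Lib.MP_f02ea4_nt.Idx
end

section

/-! Index of odd perfect numbers: the second local bound. -/

set_option autoImplicit false

namespace Pool.Agent.Lib.MP_f02ea4_nt.Idx

open Finset Real

/-- The second local bound. -/
theorem local_bound_two {p q c κ a f d : ℕ} (hp : 1 ≤ p) (hq : q.Prime)
    (hq2 : q ≠ 2) (hc : 2 ≤ c) (hsig : (q - 1) * (c * p ^ κ) + 1 = q ^ (a + 1))
    (hf : f ≤ a + 1) (hd : 1 ≤ d) (hpd : q ^ f ∣ p ^ d - 1) :
    (f : ℝ) * log q ≤ (27 / 2) * (d * log c) := by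
  have hq3 : 3 ≤ q := by have := hq.two_le; omega
  have hqr : (3 : ℝ) ≤ q := by exact_mod_cast hq3
  have hcr : (2 : ℝ) ≤ c := by exact_mod_cast hc
  have hdr : (1 : ℝ) ≤ d := by exact_mod_cast hd
  have hC : 0 < log c := log_pos (by linarith)
  have hl : 0 < log q := log_pos (by linarith)
  have hlog2 : log 2 ≤ log c := log_le_log (by norm_num) hcr
  have hlog2a : (0.6931471803 : ℝ) < log 2 := log_two_gt_d9
  have hlog2b : log 2 < (0.6931471808 : ℝ) := log_two_lt_d9
  have hmod : 0 ≡ 0 + κ * d [MOD d] := by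
    rw [zero_add]
    exact ((Nat.modEq_zero_iff_dvd).mpr (dvd_mul_left d κ)).symm
  have hdvd := modq (p := p) (q := q) (c := c) (κ := κ) (a := a) (f := f) (d := d)
    hp (by omega) hsig hf hpd hmod
  rw [pow_zero, one_mul] at hdvd
  set Y : ℝ := d * log c with hY
  have hY0 : 0 ≤ Y := by positivity
  have hqodd : Odd q := hq.odd_of_ne_two hq2
  have hqoddZ : Odd (q : ℤ) := by exact_mod_cast hqodd
  set B : ℤ := (c : ℤ) ^ d with hB
  have hBr : (B : ℝ) = (c : ℝ) ^ d := by rw [hB]; push_cast; ring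
  have hB0 : (0 : ℝ) < B := by rw [hBr]; positivity
  have hBe : (B : ℝ) = exp Y := by
    rw [hBr, hY, exp_nat_mul, exp_log (by positivity)]
  have hB1 : (1 : ℝ) ≤ B := by rw [hBe]; exact one_le_exp hY0
  have hBZ : B ≠ 0 := by intro h; rw [h] at hB0; simp at hB0
  have hdvd' : ((q : ℤ) ^ f) ∣ B * (1 - (q : ℤ)) ^ d - 1 := by
    rw [hB, ← mul_pow]; exact hdvd
  have hnz : B * (1 - (q : ℤ)) ^ d - 1 ≠ 0 := by
    intro h0
    have h1 : Even (B * (1 - (q : ℤ)) ^ d) := by
      apply Even.mul_left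
      apply Even.pow_of_ne_zero _ (by omega)
      exact Odd.sub_odd odd_one hqoddZ
    rw [sub_eq_zero] at h0
    rw [h0] at h1
    exact (Int.not_even_iff_odd.mpr odd_one) h1
  have hsize := size_of_dvd hdvd' hnz
  have hpowt : ∀ r, d ≤ r → |((B * (1 - (q : ℤ)) ^ d - 1 : ℤ) : ℝ)| ≤ exp Y * (q : ℝ) ^ r := by
    intro r hr
    have hpowt : ((q : ℝ) - 1) ^ d + 1 ≤ (q : ℝ) ^ r := by
      have h1 : (q - 1) ^ d < q ^ d := Nat.pow_lt_pow_left (by omega) (by omega)
      have h2 : q ^ d ≤ q ^ r := Nat.pow_le_pow_right (by omega) hr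
      have h3 : (q - 1) ^ d + 1 ≤ q ^ r := by omega
      have h4 : (((q - 1) ^ d + 1 : ℕ) : ℝ) ≤ ((q ^ r : ℕ) : ℝ) := by exact_mod_cast h3
      push_cast [Nat.cast_sub (show 1 ≤ q by omega)] at h4
      exact h4
    push_cast
    refine (abs_sub _ _).trans ?_
    rw [abs_mul, abs_pow, abs_of_pos hB0, abs_one]
    have h1 : |1 - (q : ℝ)| = q - 1 := by rw [abs_sub_comm, abs_of_pos (by linarith)]
    rw [h1, ← hBe]
    have h3 : (B : ℝ) * (((q : ℝ) - 1) ^ d + 1) ≤ B * (q : ℝ) ^ r :=
      mul_le_mul_of_nonneg_left hpowt hB0.le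
    linarith
  rcases Nat.eq_zero_or_pos f with hf0 | hf0
  · rw [hf0]; simp only [Nat.cast_zero, zero_mul]; positivity
  rcases le_or_gt (17 / 2 : ℝ) (log q) with h17 | h17
  swap
  · -- small `q`
    have h1 := hsize.trans (hpowt d le_rfl)
    have h2 := log_le_log (by positivity) h1
    rw [log_mul (by positivity) (by positivity), log_exp, log_pow, log_pow] at h2
    have h3 : (d : ℝ) * log q ≤ d * ((25 / 2) * log c) := by
      apply mul_le_mul_of_nonneg_left _ (by positivity)
      linarith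
    linarith
  have hlY : log q ≤ Y := by
    have hBA : B - 1 ≠ 0 := by
      intro h0
      have h1 : (1 : ℝ) < B := by
        rw [hBr]
        exact one_lt_pow₀ (by linarith) (by omega)
      have h2 : ((B - 1 : ℤ) : ℝ) = 0 := by rw [h0]; simp
      push_cast at h2
      linarith
    have h1 : ((q : ℤ) ^ 1) ∣ B - 1 := by
      have h2 : (q : ℤ) ∣ B * (1 - (q : ℤ)) ^ d - 1 := (dvd_pow_self _ (by omega)).trans hdvd'
      have h3 : (q : ℤ) ∣ (1 - (q : ℤ)) ^ d - 1 := by
        have h4 : (1 - (q : ℤ)) - 1 ∣ (1 - (q : ℤ)) ^ d - 1 ^ d := sub_dvd_pow_sub_pow _ _ _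
        rw [one_pow] at h4
        exact (Dvd.intro (-1) (by ring)).trans h4
      rw [pow_one]
      have h5 : B - 1 = (B * (1 - (q : ℤ)) ^ d - 1) - B * ((1 - (q : ℤ)) ^ d - 1) := by ring
      rw [h5]
      exact dvd_sub h2 (Dvd.dvd.mul_left h3 _)
    have hsize1 := size_of_dvd h1 hBA
    have hbound : |((B - 1 : ℤ) : ℝ)| ≤ exp Y := by
      push_cast
      rw [abs_of_nonneg (by linarith), ← hBe]
      linarith
    have := mul_log_le (by linarith) 1 hsize1 hbound
    simpa using this
  rcases Nat.lt_or_ge f 7 with hf7 | hf7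
  · have h1 : (f : ℝ) ≤ 6 := by
      have : f ≤ 6 := by omega
      exact_mod_cast this
    nlinarith
  set r := f / 2 with hr
  rcases Nat.lt_or_ge r d with hrt | hrt
  · -- Pade
    obtain ⟨s, hs1, hs2, hs3⟩ := pade_step (f := f) (t := d) (r := r) (A := 1) (B := B)
      (by omega : 1 ≤ q) one_ne_zero hBZ (by omega) hrt hdvd'
    have hq0 : (0 : ℝ) < q := by linarith
    have h1 : (q : ℝ) ^ f ≤ exp Y * (2 ^ d * (2 * (16 * q) ^ s)) := by
      refine hs3.trans ?_
      rw [abs_of_pos hB0, Int.cast_one, abs_one, one_mul, ← hBe]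
      have h2 : (8 * (q : ℝ)) ^ s ≤ (16 * q) ^ s := by
        apply pow_le_pow_left₀ (by positivity); linarith
      have h4 : (2 : ℝ) ^ d * (8 * q) ^ s ≤ B * (2 ^ d * (16 * q) ^ s) := by
        calc (2 : ℝ) ^ d * (8 * q) ^ s ≤ 2 ^ d * (16 * q) ^ s :=
              mul_le_mul_of_nonneg_left h2 (by positivity)
          _ = 1 * (2 ^ d * (16 * q) ^ s) := by ring
          _ ≤ B * (2 ^ d * (16 * q) ^ s) := mul_le_mul_of_nonneg_right hB1 (by positivity)
      linarith
    have h2 := log_le_log (by positivity) h1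
    have h16 : log (16 : ℝ) = 4 * log 2 := by
      rw [show (16 : ℝ) = 2 ^ (4 : ℕ) by norm_num, log_pow]; norm_num
    rw [log_pow, log_mul (by positivity) (by positivity), log_exp,
      log_mul (by positivity) (by positivity), log_pow, log_mul (by norm_num) (by positivity),
      log_pow, log_mul (by norm_num) (by positivity), h16] at h2
    have htl : (d : ℝ) * log 2 ≤ Y := mul_le_mul_of_nonneg_left hlog2 (by positivity)
    have hs8 : (s : ℝ) ≤ (5 / 8) * f := by
      have : 8 * s ≤ 5 * f := by omega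
      have h5 : (8 : ℝ) * s ≤ 5 * f := by exact_mod_cast this
      linarith
    have hf7r : (7 : ℝ) ≤ f := by exact_mod_cast hf7
    have h6 : (s : ℝ) * (4 * log 2) ≤ (5 / 8) * f * (4 * log 2) :=
      mul_le_mul_of_nonneg_right hs8 (by linarith)
    have h7 : (s : ℝ) * log q ≤ (5 / 8) * f * log q :=
      mul_le_mul_of_nonneg_right hs8 hl.le
    have h8 : (f : ℝ) * log 2 ≤ f * 0.6931471808 :=
      mul_le_mul_of_nonneg_left hlog2b.le (by positivity)
    have h9 : (f : ℝ) * (17 / 2) ≤ f * log q := mul_le_mul_of_nonneg_left h17 (by positivity)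
    have h10 : (3 / 8) * (f * log q) ≤ 2 * Y + log 2 + (5 / 2) * (f * log 2) := by
      linarith
    linarith
  · -- `d ≤ r`
    have h1 := hsize.trans (hpowt r hrt)
    have h2 : (q : ℝ) ^ (f - r) ≤ exp Y := by
      have h3 : (q : ℝ) ^ f = (q : ℝ) ^ (f - r) * (q : ℝ) ^ r := by
        rw [← pow_add]; congr 1; omega
      rw [h3] at h1
      exact le_of_mul_le_mul_right h1 (by positivity)
    have h3 := mul_log_le (by linarith) (f - r) h2 le_rfl
    have h4 : (f : ℝ) ≤ 2 * ((f - r : ℕ) : ℝ) := by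
      have : f ≤ 2 * (f - r) := by omega
      exact_mod_cast this
    have h5 : (f : ℝ) * log q ≤ 2 * ((f - r : ℕ) : ℝ) * log q :=
      mul_le_mul_of_nonneg_right h4 hl.le
    linarith

end Pool.Agent.Lib.MP_f02ea4_nt.Idx
end

section

/-! Index of odd perfect numbers: the first two inequalities. -/

set_option autoImplicit false

namespace Pool.Agent.Lib.MP_f02ea4_nt.Idx

open Finset
open ArithmeticFunction (sigma)

theorem main_pos {N p k M : ℕ} (hN : Odd N) (hperf : Nat.Perfect N) (hp : p.Prime)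
    (hpM : ¬ p ∣ M) (hNM : N = p ^ k * M) (hk : 1 ≤ k) :
    p ^ k ∣ sigma 1 M ∧
    Real.log N ≤ 1300 * (Real.log ((sigma 1 M / p ^ k : ℕ) : ℝ)) ^ 2 ∧
    N ≤ (sigma 1 M / p ^ k) ^ (62 * k + 1) := by
  obtain ⟨hdM, i, F, W, f, H⟩ := exists_data hN hperf hp hpM hNM hk
  refine ⟨hdM, ?_⟩
  obtain ⟨hp3, hM0, hi2, hi4, hidiv, hrprime, hr3, he1, hσr, hW1, hWp, hWdvd, hpar,
    hfval, hfdvd, hkP, hsum1, hlogW, hlogN⟩ := H
  rw [hidiv]
  have hir : (2 : ℝ) ≤ i := by exact_mod_cast hi2
  have hp3r : (3 : ℝ) ≤ p := by exact_mod_cast hp3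
  have hP : (1 : ℝ) ≤ Real.log p := log_three_ge_one.trans (Real.log_le_log (by norm_num) hp3r)
  have hI : Real.log 2 ≤ Real.log i := Real.log_le_log (by norm_num) hir
  have hN1 : (0 : ℝ) < N := by exact_mod_cast hperf.2
  set s : ℝ := Real.sqrt (((k : ℝ) + 1) * Real.log p) with hs
  have htype2 : ∀ r ∈ M.primeFactors.filter (fun r => ¬ W r = 1),
      (f r : ℝ) * Real.log r ≤ 12 * s * Real.sqrt (Real.log (W r)) := by
    intro r hr
    rw [mem_filter] at hr
    obtain ⟨hrS, hrW⟩ := hr
    have hW2 : 2 ≤ W r := by have := hW1 r hrS; omega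
    have h3 := local_bound (p := p) (q := r) (c := W r) (κ := F r) (a := M.factorization r)
      (f := f r) (d := k + 1) hp (by omega) (hrprime r hrS) (by have := hr3 r hrS; omega) hW2
      (hWp r hrS) (by rw [mul_comm (W r)]; exact hσr r hrS) (by have := hfval r hrS; omega)
      (by omega) (hfdvd r)
    refine h3.trans (le_of_eq ?_)
    rw [hs]
    push_cast
    rw [Real.sqrt_mul (by positivity : (0 : ℝ) ≤ ((k : ℝ) + 1) * Real.log p)]
    ring
  have htype3 : ∑ r ∈ M.primeFactors.filter (fun r => ¬ W r = 1), (f r : ℝ) * Real.log r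
      ≤ (27 / 2) * (((k : ℝ) + 1) * Real.log i) := by
    calc ∑ r ∈ M.primeFactors.filter (fun r => ¬ W r = 1), (f r : ℝ) * Real.log r
        ≤ ∑ r ∈ M.primeFactors.filter (fun r => ¬ W r = 1),
          (27 / 2) * (((k : ℝ) + 1) * Real.log (W r : ℝ)) := by
          apply Finset.sum_le_sum
          intro r hr
          rw [mem_filter] at hr
          obtain ⟨hrS, hrW⟩ := hr
          have hW2 : 2 ≤ W r := by have := hW1 r hrS; omega
          have h3 := local_bound_two (p := p) (q := r) (c := W r) (κ := F r)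
            (a := M.factorization r) (f := f r) (d := k + 1) hp.pos (hrprime r hrS)
            (by have := hr3 r hrS; omega) hW2
            (by rw [mul_comm (W r)]; exact hσr r hrS) (by have := hfval r hrS; omega)
            (by omega) (hfdvd r)
          push_cast at h3
          exact h3
      _ = (27 / 2) * (((k : ℝ) + 1) * ∑ r ∈ M.primeFactors.filter (fun r => ¬ W r = 1),
          Real.log (W r : ℝ)) := by rw [Finset.mul_sum, Finset.mul_sum]
      _ ≤ _ := by
          apply mul_le_mul_of_nonneg_left _ (by norm_num)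
          exact mul_le_mul_of_nonneg_left hlogW (by positivity)
  have hsum2 : ∑ r ∈ M.primeFactors.filter (fun r => ¬ W r = 1), Real.sqrt (Real.log (W r))
      ≤ (12012 / 10000) * Real.log i := by
    calc _ ≤ ∑ r ∈ M.primeFactors.filter (fun r => ¬ W r = 1),
          (12012 / 10000) * Real.log (W r : ℝ) := by
          apply Finset.sum_le_sum
          intro r hr
          rw [mem_filter] at hr
          apply sqrt_le_lin
          apply Real.log_le_log (by norm_num)
          have h6 : 2 ≤ W r := by have := hW1 r hr.1; omega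
          exact_mod_cast h6
      _ = (12012 / 10000) * ∑ r ∈ M.primeFactors.filter (fun r => ¬ W r = 1),
          Real.log (W r : ℝ) := by rw [Finset.mul_sum]
      _ ≤ _ := mul_le_mul_of_nonneg_left hlogW (by norm_num)
  rw [← Finset.sum_filter_add_sum_filter_not M.primeFactors (fun r => W r = 1)] at hkP
  have htot : (k : ℝ) * Real.log p ≤ Real.log 2 + Real.log i + 2 * Real.log ((k : ℝ) + 1)
      + 12 * s * ∑ r ∈ M.primeFactors.filter (fun r => ¬ W r = 1), Real.sqrt (Real.log (W r)) := by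
    have h3 : ∑ r ∈ M.primeFactors.filter (fun r => ¬ W r = 1), (f r : ℝ) * Real.log r
        ≤ 12 * s * ∑ r ∈ M.primeFactors.filter (fun r => ¬ W r = 1),
          Real.sqrt (Real.log (W r)) := by
      rw [Finset.mul_sum]
      exact Finset.sum_le_sum htype2
    linarith
  have hfin := final_ineq (k : ℝ) (Real.log p) (Real.log i) (((k : ℝ) + 1) * Real.log p) s
    (∑ r ∈ M.primeFactors.filter (fun r => ¬ W r = 1), Real.sqrt (Real.log (W r)))
    (by exact_mod_cast hk) hP hI rfl hs hsum2 htot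
  refine ⟨hlogN.trans hfin, ?_⟩
  have hk1r : (1 : ℝ) ≤ k := by exact_mod_cast hk
  have hlogk : Real.log ((k : ℝ) + 1) ≤ k * Real.log i := by
    have h3 : (k : ℝ) + 1 ≤ (2 : ℝ) ^ k := by
      have : k < 2 ^ k := Nat.lt_two_pow_self
      exact_mod_cast this
    have h4 := Real.log_le_log (by positivity) h3
    rw [Real.log_pow] at h4
    exact h4.trans (mul_le_mul_of_nonneg_left hI (by positivity))
  have hI0 : 0 < Real.log i := Real.log_pos (by linarith)
  have hkP2 : (k : ℝ) * Real.log p ≤ 31 * (k * Real.log i) := by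
    nlinarith
  have hfin2 : Real.log N ≤ ((62 * k + 1 : ℕ) : ℝ) * Real.log i := by
    push_cast
    linarith
  have h9 : (N : ℝ) ≤ (i : ℝ) ^ (62 * k + 1) := by
    rw [← Real.log_le_log_iff hN1 (by positivity), Real.log_pow]
    exact hfin2
  exact_mod_cast h9

theorem main {N p k M : ℕ} (hN : Odd N) (hperf : Nat.Perfect N) (hp : p.Prime) (hpM : ¬ p ∣ M)
    (hNM : N = p ^ k * M) :
    p ^ k ∣ sigma 1 M ∧
    Real.log N ≤ 1300 * (Real.log ((sigma 1 M / p ^ k : ℕ) : ℝ)) ^ 2 ∧
    N ≤ (sigma 1 M / p ^ k) ^ (62 * k + 1) := by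
  rcases Nat.eq_zero_or_pos k with hk | hk
  · subst hk
    rw [pow_zero, one_mul] at hNM
    subst hNM
    have hσN : sigma 1 N = 2 * N := by
      rw [ArithmeticFunction.sigma_one_apply]
      exact (Nat.perfect_iff_sum_divisors_eq_two_mul hperf.2).mp hperf
    rw [pow_zero, Nat.div_one, hσN]
    refine ⟨by simp, ?_, by simp; omega⟩
    have hN1 : (1 : ℝ) ≤ N := by exact_mod_cast hperf.2
    push_cast
    rw [Real.log_mul (by norm_num) (by linarith)]
    have h2 : (0.6931471803 : ℝ) < Real.log 2 := Real.log_two_gt_d9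
    have h3 : 0 ≤ Real.log N := Real.log_nonneg hN1
    nlinarith
  · exact main_pos hN hperf hp hpM hNM hk

end Pool.Agent.Lib.MP_f02ea4_nt.Idx
end

section

/-! Index of odd perfect numbers: the three inequalities together. -/

set_option autoImplicit false

namespace Pool.Agent.Lib.MP_f02ea4_nt.Idx

open Finset
open ArithmeticFunction (sigma)

theorem main_k {N p k M : ℕ} (hN : Odd N) (hperf : Nat.Perfect N) (hp : p.Prime) (hpM : ¬ p ∣ M)
    (hNM : N = p ^ k * M) :
    (k : ℝ) ≤ 30000 * Real.log ((sigma 1 M / p ^ k : ℕ) : ℝ) ∧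
    Real.log N ≤ (60000 * Real.log p + 1) * Real.log ((sigma 1 M / p ^ k : ℕ) : ℝ) := by
  rcases Nat.eq_zero_or_pos k with hk | hk
  · subst hk
    rw [pow_zero, one_mul] at hNM
    subst hNM
    have hσN : sigma 1 N = 2 * N := by
      rw [ArithmeticFunction.sigma_one_apply]
      exact (Nat.perfect_iff_sum_divisors_eq_two_mul hperf.2).mp hperf
    rw [pow_zero, Nat.div_one, hσN]
    have hN1 : (1 : ℝ) ≤ N := by exact_mod_cast hperf.2
    have h3 : 0 ≤ Real.log N := Real.log_nonneg hN1
    have h2 : (0.6931471803 : ℝ) < Real.log 2 := Real.log_two_gt_d9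
    have h4 : 0 ≤ Real.log (p : ℝ) := Real.log_natCast_nonneg p
    push_cast
    rw [Real.log_mul (by norm_num) (by linarith)]
    refine ⟨by positivity, ?_⟩
    nlinarith [mul_nonneg h4 h3, mul_nonneg h4 (by linarith : (0 : ℝ) ≤ Real.log 2)]
  · obtain ⟨hdM, i, F, W, f, H⟩ := exists_data hN hperf hp hpM hNM hk
    have h1 := k_le hp H
    have hidiv := H.hidiv
    have hlogN := H.hlogN
    rw [hidiv]
    refine ⟨h1, ?_⟩
    have h4 : 0 ≤ Real.log (p : ℝ) := Real.log_natCast_nonneg p
    have h5 : (k : ℝ) * Real.log p ≤ 30000 * Real.log i * Real.log p :=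
      mul_le_mul_of_nonneg_right h1 h4
    linarith

theorem main_cs {N p k M : ℕ} (hN : Odd N) (hperf : Nat.Perfect N) (hp : p.Prime)
    (hpM : ¬ p ∣ M) (hNM : N = p ^ k * M) :
    Real.log N ≤ Real.log ((sigma 1 M / p ^ k : ℕ) : ℝ) *
      (800 * (ArithmeticFunction.cardFactors (sigma 1 M / p ^ k) : ℕ)) := by
  rcases Nat.eq_zero_or_pos k with hk | hk
  · subst hk
    rw [pow_zero, one_mul] at hNM
    subst hNM
    have hσN : sigma 1 N = 2 * N := by
      rw [ArithmeticFunction.sigma_one_apply]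
      exact (Nat.perfect_iff_sum_divisors_eq_two_mul hperf.2).mp hperf
    rw [pow_zero, Nat.div_one, hσN]
    have hN1 : (1 : ℝ) ≤ N := by exact_mod_cast hperf.2
    have h3 : 0 ≤ Real.log N := Real.log_nonneg hN1
    have h2 : (0.6931471803 : ℝ) < Real.log 2 := Real.log_two_gt_d9
    have h1 : 1 ≤ ArithmeticFunction.cardFactors (2 * N) := by
      rw [ArithmeticFunction.cardFactors_mul (by norm_num) hperf.2.ne',
        ArithmeticFunction.cardFactors_apply_prime Nat.prime_two]
      omega
    have h1r : (1 : ℝ) ≤ (ArithmeticFunction.cardFactors (2 * N) : ℕ) := by exact_mod_cast h1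
    push_cast
    rw [Real.log_mul (by norm_num) (by linarith)]
    nlinarith
  · obtain ⟨hdM, i, F, W, f, H⟩ := exists_data hN hperf hp hpM hNM hk
    have h1 := cs_data hp hk H
    have hidiv := H.hidiv
    rw [hidiv]
    exact h1

/-- `p ^ (2 k) * i < 2 N`. -/
theorem two_mul_lt {N p k M : ℕ} (hN : Odd N) (hperf : Nat.Perfect N) (hp : p.Prime)
    (hpM : ¬ p ∣ M) (hNM : N = p ^ k * M) (hk : 1 ≤ k) :
    p ^ (2 * k) * (sigma 1 M / p ^ k) < 2 * N := by
  obtain ⟨hdM, i, F, W, f, H⟩ := exists_data hN hperf hp hpM hNM hk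
  have hi2 := H.hi2
  have hidiv := H.hidiv
  have hN0 : N ≠ 0 := hperf.2.ne'
  have hcop : Nat.Coprime (p ^ k) M :=
    Nat.Coprime.pow_left k ((Nat.Prime.coprime_iff_not_dvd hp).mpr hpM)
  have hσN : sigma 1 N = 2 * N := by
    rw [ArithmeticFunction.sigma_one_apply]
    exact (Nat.perfect_iff_sum_divisors_eq_two_mul hperf.2).mp hperf
  have hmul : sigma 1 (p ^ k) * sigma 1 M = 2 * N := by
    rw [← ArithmeticFunction.isMultiplicative_sigma.map_mul_of_coprime hcop, ← hNM, hσN]
  have hlt : p ^ k < sigma 1 (p ^ k) := by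
    rw [ArithmeticFunction.sigma_one_apply_prime_pow hp, Finset.sum_range_succ]
    have : 0 < ∑ j ∈ range k, p ^ j := by
      apply Finset.sum_pos
      · intro j _
        exact pow_pos hp.pos j
      · exact ⟨0, by simp; omega⟩
    omega
  obtain ⟨j, hj⟩ := hdM
  have hpk : 0 < p ^ k := pow_pos hp.pos k
  have hji : j = i := by rw [← hidiv, hj, Nat.mul_div_cancel_left _ hpk]
  rw [hidiv, ← hmul, hj, hji]
  have h1 : p ^ k * (p ^ k * i) < sigma 1 (p ^ k) * (p ^ k * i) := by
    apply Nat.mul_lt_mul_of_pos_right hlt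
    positivity
  calc p ^ (2 * k) * i = p ^ k * (p ^ k * i) := by rw [two_mul, pow_add]; ring
    _ < _ := h1

/-- the power saving -/
theorem power_saving {N p k M : ℕ} (hN : Odd N) (hperf : Nat.Perfect N) (hp : p.Prime)
    (hpM : ¬ p ∣ M) (hNM : N = p ^ k * M) (hk : k ≠ 0) {m : ℝ} (hm : 0 < m)
    (h : Real.log N ≤ Real.log ((sigma 1 M / p ^ k : ℕ) : ℝ) * m) :
    (p : ℝ) ^ k < √2 * (N : ℝ) ^ (1 / 2 - 1 / (2 * m)) := by
  have h1 := two_mul_lt hN hperf hp hpM hNM (by omega)
  set i := sigma 1 M / p ^ k with hi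
  have hN1 : (0 : ℝ) < N := by exact_mod_cast hperf.2
  have hp0 : (0 : ℝ) < p := by exact_mod_cast hp.pos
  have h2 : ((p : ℝ)) ^ (2 * k) * i < 2 * N := by exact_mod_cast h1
  have hi0 : 0 < i := by
    rcases Nat.eq_zero_or_pos i with h0 | h0
    · exfalso
      rw [h0] at h
      simp only [Nat.cast_zero, Real.log_zero, zero_mul] at h
      have hN2 : 1 < N := by
        rcases Nat.lt_or_ge 1 N with h3 | h3
        · exact h3
        · exfalso
          have : N = 1 := by have := hperf.2; omega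
          subst this
          have := hperf.1
          simp [Nat.properDivisors_one] at this
      have : 0 < Real.log N := Real.log_pos (by exact_mod_cast hN2)
      linarith
    · exact h0
  have hir : (0 : ℝ) < i := by exact_mod_cast hi0
  have h3 := Real.log_lt_log (by positivity) h2
  rw [Real.log_mul (by positivity) hir.ne', Real.log_mul (by norm_num) hN1.ne', Real.log_pow] at h3
  push_cast at h3
  have h4 : Real.log N / m ≤ Real.log i := by
    rw [div_le_iff₀ hm]
    exact h
  rw [← Real.log_lt_log_iff (by positivity) (by positivity), Real.log_pow,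
    Real.log_mul (by positivity) (by positivity), Real.log_rpow hN1,
    Real.log_sqrt (by norm_num)]
  have h5 : (1 / 2 - 1 / (2 * m)) * Real.log N = (1 / 2) * (Real.log N - Real.log N / m) := by
    field_simp
  rw [h5]
  linarith

/-- `4 N < 3 p ^ (2 k) * i`. -/
theorem four_mul_lt {N p k M : ℕ} (hN : Odd N) (hperf : Nat.Perfect N) (hp : p.Prime)
    (hpM : ¬ p ∣ M) (hNM : N = p ^ k * M) (hk : 1 ≤ k) :
    4 * N < 3 * ((p ^ k) ^ 2 * (sigma 1 M / p ^ k)) := by
  obtain ⟨hdM, i, F, W, f, H⟩ := exists_data hN hperf hp hpM hNM hk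
  have hi2 := H.hi2
  have hidiv := H.hidiv
  have hp3 := H.hp3
  have hcop : Nat.Coprime (p ^ k) M :=
    Nat.Coprime.pow_left k ((Nat.Prime.coprime_iff_not_dvd hp).mpr hpM)
  have hσN : sigma 1 N = 2 * N := by
    rw [ArithmeticFunction.sigma_one_apply]
    exact (Nat.perfect_iff_sum_divisors_eq_two_mul hperf.2).mp hperf
  have hmul : sigma 1 (p ^ k) * sigma 1 M = 2 * N := by
    rw [← ArithmeticFunction.isMultiplicative_sigma.map_mul_of_coprime hcop, ← hNM, hσN]
  have hgp := geom hp k
  have hlt : 2 * sigma 1 (p ^ k) < 3 * p ^ k := by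
    obtain ⟨b, hb⟩ : ∃ b, p = b + 1 := ⟨p - 1, by omega⟩
    have hb2 : 2 ≤ b := by omega
    rw [pow_succ'] at hgp
    set x := p ^ k with hx
    set X := sigma 1 x with hX
    rw [show p - 1 = b by omega, hb] at hgp
    by_contra hc
    push Not at hc
    have h5 : b * (3 * x) ≤ b * (2 * X) := Nat.mul_le_mul_left b hc
    have h8 : b * (2 * X) = 2 * (b * X) := by ring
    have h7 : b * (3 * x) = 3 * (b * x) := by ring
    have h9 : 2 * x ≤ b * x := Nat.mul_le_mul_right _ hb2
    have h10 : (b + 1) * x = b * x + x := by ring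
    omega
  obtain ⟨j, hj⟩ := hdM
  have hpk : 0 < p ^ k := pow_pos hp.pos k
  have hji : j = i := by rw [← hidiv, hj, Nat.mul_div_cancel_left _ hpk]
  rw [hj, hji] at hmul
  rw [hidiv]
  have h1 : 2 * sigma 1 (p ^ k) * (p ^ k * i) < 3 * p ^ k * (p ^ k * i) := by
    apply Nat.mul_lt_mul_of_pos_right hlt
    positivity
  calc 4 * N = 2 * (sigma 1 (p ^ k) * (p ^ k * i)) := by rw [hmul]; ring
    _ = 2 * sigma 1 (p ^ k) * (p ^ k * i) := by ring
    _ < 3 * p ^ k * (p ^ k * i) := h1
    _ = _ := by ring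

/-- The product of the indices at two different primes. -/
theorem two_indices {N p q k l R : ℕ} (hN : Odd N) (hperf : Nat.Perfect N) (hp : p.Prime)
    (hq : q.Prime) (hpq : p ≠ q) (hk : k ≠ 0) (hl : l ≠ 0) (hpR : ¬ p ∣ R) (hqR : ¬ q ∣ R)
    (hNR : N = p ^ k * q ^ l * R) :
    (p ^ k * q ^ l) ^ 5 < 864 * N ^ 4 ∧
    N ^ 2 < (9 * (sigma 1 (q ^ l * R) / p ^ k * (sigma 1 (p ^ k * R) / q ^ l))) ^ 5 := by
  have h1 := IdxTwo.two_comp hN hperf hp hq hpq (by omega) (by omega) hpR hqR hNR
  refine ⟨h1, ?_⟩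
  have hpM : ¬ p ∣ q ^ l * R := by
    intro h
    rcases (Nat.Prime.dvd_mul hp).mp h with h2 | h2
    · exact hpq ((Nat.prime_dvd_prime_iff_eq hp hq).mp (hp.dvd_of_dvd_pow h2))
    · exact hpR h2
  have hqM : ¬ q ∣ p ^ k * R := by
    intro h
    rcases (Nat.Prime.dvd_mul hq).mp h with h2 | h2
    · exact hpq ((Nat.prime_dvd_prime_iff_eq hq hp).mp (hq.dvd_of_dvd_pow h2)).symm
    · exact hqR h2
  have h2 := four_mul_lt (k := k) (M := q ^ l * R) hN hperf hp hpM (by rw [hNR]; ring) (by omega)
  have h3 := four_mul_lt (k := l) (M := p ^ k * R) hN hperf hq hqM (by rw [hNR]; ring) (by omega)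
  set i := sigma 1 (q ^ l * R) / p ^ k with hi
  set j := sigma 1 (p ^ k * R) / q ^ l with hj
  set P := p ^ k with hP
  set Q := q ^ l with hQ
  have hN0 : 0 < N := hperf.2
  have h4 : (4 * N) * (4 * N) < (3 * (P ^ 2 * i)) * (3 * (Q ^ 2 * j)) :=
    Nat.mul_lt_mul'' h2 h3
  have h5 : ((4 * N) * (4 * N)) ^ 5 < ((3 * (P ^ 2 * i)) * (3 * (Q ^ 2 * j))) ^ 5 :=
    Nat.pow_lt_pow_left h4 (by norm_num)
  have h6 : ((3 * (P ^ 2 * i)) * (3 * (Q ^ 2 * j))) ^ 5
      = ((P * Q) ^ 5) ^ 2 * (9 * (i * j)) ^ 5 := by ring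
  have h7 : ((P * Q) ^ 5) ^ 2 ≤ (864 * N ^ 4) ^ 2 := Nat.pow_le_pow_left h1.le 2
  have h8 : ((4 * N) * (4 * N)) ^ 5 < (864 * N ^ 4) ^ 2 * (9 * (i * j)) ^ 5 := by
    rw [h6] at h5
    exact h5.trans_le (Nat.mul_le_mul_right _ h7)
  have h9 : ((4 * N) * (4 * N)) ^ 5 = N ^ 8 * (1048576 * N ^ 2) := by ring
  have h10 : (864 * N ^ 4) ^ 2 * (9 * (i * j)) ^ 5 = N ^ 8 * (746496 * (9 * (i * j)) ^ 5) := by ring
  rw [h9, h10] at h8
  have h11 : 1048576 * N ^ 2 < 746496 * (9 * (i * j)) ^ 5 :=
    lt_of_mul_lt_mul_left h8 (Nat.zero_le _)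
  omega

end Pool.Agent.Lib.MP_f02ea4_nt.Idx
end
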