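import Mathlib
import Pool.Agent.Lib.MP_f02ea4_nt.TB.Num

section

/-! # Simultaneous small linear forms: the bound -/

set_option autoImplicit false
set_option linter.unusedSectionVars false
set_option linter.unusedVariables false

namespace Pool.Agent.MP_f02ea4.QR

open Finset Real

lemma pow_exp : ∃ C : ℕ, 1 ≤ C ∧ ∀ T M : ℝ, 2 ≤ T → 0 ≤ M → M ≤ T ^ 11 →
    48 * M ^ 45 ≤ T ^ C := by
  refine ⟨6 + 11 * 45, by omega, ?_⟩
  intro T M hT hM hMT
  have h1 : M ^ 45 ≤ T ^ (11 * 45) := by
    rw [pow_mul]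
    exact pow_le_pow_left₀ hM hMT 45
  have h2 : (48 : ℝ) ≤ T ^ 6 := by
    calc (48 : ℝ) ≤ 2 ^ 6 := by norm_num
      _ ≤ T ^ 6 := pow_le_pow_left₀ (by norm_num) hT 6
  rw [pow_add]
  exact mul_le_mul h2 h1 (pow_nonneg hM _) (pow_nonneg (by linarith) _)

theorem CD.sharp : ∃ C : ℕ, 1 ≤ C ∧ ∀ {H B : Type} [Fintype H] [Fintype B] [DecidableEq H]
    [DecidableEq B] (D : CD H B) (hD : D.OK) {s : ℕ} (hs : 1 ≤ s)
    (hH : Fintype.card H = s + 2) (hU : D.U.card = s + 1) (hB : Fintype.card B = s + 1)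
    {E W Y w : ℝ} (hE1 : 1 ≤ E) (hE : ∀ h ∈ D.U, log (D.r h : ℝ) ≤ E) (hW1 : 1 ≤ W)
    (hW : ∀ q, log (D.u q : ℝ) ≤ W) (hY1 : 1 ≤ Y) (hYE : log E ≤ Y) (hYW : log W ≤ Y)
    (hTh : ∑ h, log (D.r h : ℝ) ≤ exp Y)
    (hF : ∀ q h, |(D.F q h : ℝ)| ≤ exp Y) (hLam : ∀ q, |D.Lam q| ≤ 2 * exp (-w)),
    w ≤ (((s : ℝ) + 1) * Y) ^ C * (E * W) ^ ((1 : ℝ) + 1 / s) := by
  obtain ⟨C, hC1, hC⟩ := pow_exp
  refine ⟨C, hC1, ?_⟩
  intro H B _ _ _ _ D hD s hs hH hU hB E W Y w hE1 hE hW1 hW hY1 hYE hYW hTh hF hLam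
  have hsr : (1 : ℝ) ≤ s := by exact_mod_cast hs
  have hs0 : (0 : ℝ) < s := by linarith
  set T : ℝ := ((s : ℝ) + 1) * Y with hT
  have hT2 : 2 ≤ T := by rw [hT]; nlinarith
  have hYT : 2 * Y ≤ T := by rw [hT]; nlinarith
  set M : ℕ := ⌈1000 * T⌉₊ with hM
  have hM1 : 1000 * T ≤ M := Nat.le_ceil _
  have hM2 : (M : ℝ) ≤ 1000 * T + 1 := (Nat.ceil_lt_add_one (by linarith)).le
  set Mr : ℝ := (M : ℝ) with hMr
  have hM2000 : 2000 ≤ Mr := by linarith
  have hM0 : 0 < Mr := by linarith
  have hMT : Mr ≤ T ^ 11 := by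
    have h1 : (2 : ℝ) ^ 10 ≤ T ^ 10 := pow_le_pow_left₀ (by norm_num) hT2 10
    calc Mr ≤ 1000 * T + 1 := hM2
      _ ≤ 2 ^ 10 * T := by norm_num; linarith
      _ ≤ T ^ 10 * T := mul_le_mul_of_nonneg_right h1 (by linarith)
      _ = T ^ 11 := by ring
  have hEW1 : 1 ≤ E * W := one_le_mul_of_one_le_of_one_le hE1 hW1
  have hEW4 : 1 ≤ 4 * E * W := by nlinarith
  have hE0 : 0 < E := by linarith
  have hW0 : 0 < W := by linarith
  have he : (0 : ℝ) ≤ 1 + 1 / s := by positivity
  have he2 : (1 : ℝ) + 1 / s ≤ 2 := by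
    have : 1 / (s : ℝ) ≤ 1 := by
      rw [div_le_one hs0]
      exact hsr
    linarith
  set P : ℝ := (4 * E * W) ^ ((1 : ℝ) + 1 / s) with hP
  have hP1 : 4 * E * W ≤ P := by
    calc 4 * E * W = (4 * E * W) ^ (1 : ℝ) := (rpow_one _).symm
      _ ≤ P := rpow_le_rpow_of_exponent_le hEW4 (by
        have : 0 ≤ 1 / (s : ℝ) := by positivity
        linarith)
  have hP11 : 1 ≤ P := hEW4.trans hP1
  set R : ℝ := P * Mr ^ 33 with hR
  have hM33 : 1 ≤ Mr ^ 33 := one_le_pow₀ (by linarith)
  have hR1 : P ≤ R := le_mul_of_one_le_right (by linarith) hM33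
  have hR11 : 1 ≤ R := hP11.trans hR1
  set d : ℕ := ⌈R⌉₊ + 1 with hd
  have hdR : R < d := by
    have h1 : R ≤ (⌈R⌉₊ : ℝ) := Nat.le_ceil _
    rw [hd]
    push_cast
    linarith
  have hd3R : (d : ℝ) ≤ 3 * R := by
    have h1 : (⌈R⌉₊ : ℝ) ≤ R + 1 := (Nat.ceil_lt_add_one (by linarith)).le
    rw [hd]
    push_cast
    linarith
  have hlogM : log Mr ≤ Mr / 200 := log_le_div hM2000
  have hkey := D.sharp_num hD hs hH hU hB hE1 hE hW1 hW hY1 hTh hF hLam (M := M) (d := d)
    (by
      have : 1000 * ((s : ℝ) + 1) * Y = 1000 * T := by rw [hT]; ring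
      rw [this]
      exact hM1) (by
      have h1 : R ^ s = (4 * E * W) ^ (s + 1) * Mr ^ (33 * s) := by
        rw [hR, mul_pow, ← pow_mul]
        congr 1
        rw [hP, ← rpow_natCast ((4 * E * W) ^ ((1 : ℝ) + 1 / s)) s, ← rpow_mul (by positivity)]
        have h2 : ((1 : ℝ) + 1 / s) * s = ((s + 1 : ℕ) : ℝ) := by
          push_cast
          field_simp
        rw [h2, rpow_natCast]
      rw [← h1]
      exact pow_lt_pow_left₀ hdR (by linarith) (by omega)) (by
      have h1 : log (d : ℝ) ≤ log (3 * R) := log_le_log (by linarith) hd3R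
      have h2 : log (3 * R) = log 3 + ((1 + 1 / s) * (log 4 + log E + log W) + 33 * log Mr) := by
        rw [log_mul (by norm_num) (by positivity), hR, log_mul (by positivity) (by positivity),
          log_pow, hP, log_rpow (by positivity), log_mul (by positivity) (by positivity),
          log_mul (by positivity) (by positivity)]
        push_cast
        ring
      have hl2 : log 2 < (0.6931471808 : ℝ) := log_two_lt_d9
      have h4 : log (4 : ℝ) = 2 * log 2 := by
        rw [show (4 : ℝ) = 2 ^ 2 by norm_num, log_pow]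
        push_cast
        ring
      have h3 : log (3 : ℝ) ≤ log 4 := log_le_log (by norm_num) (by norm_num)
      have h5 : 0 ≤ log (4 : ℝ) + log E + log W := by
        have h6 : 0 ≤ log E := log_nonneg hE1
        have h7 : 0 ≤ log W := log_nonneg hW1
        have h8 : 0 ≤ log (4 : ℝ) := log_nonneg (by norm_num)
        linarith
      have h6 : (1 + 1 / (s : ℝ)) * (log 4 + log E + log W) ≤ 2 * (log 4 + log E + log W) :=
        mul_le_mul_of_nonneg_right he2 h5
      rw [h2] at h1
      linarith) (by linarith)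
  have h1 : w ≤ Mr ^ 12 * (3 * R) :=
    hkey.le.trans (mul_le_mul_of_nonneg_left hd3R (by positivity))
  refine h1.trans ?_
  have hP2 : P ≤ 16 * (E * W) ^ ((1 : ℝ) + 1 / s) := by
    rw [hP, mul_assoc, mul_rpow (by norm_num) (by positivity)]
    apply mul_le_mul_of_nonneg_right _ (by positivity)
    calc (4 : ℝ) ^ ((1 : ℝ) + 1 / s) ≤ 4 ^ (2 : ℝ) :=
          rpow_le_rpow_of_exponent_le (by norm_num) he2
      _ = 16 := by norm_num
  have hpow := hC T Mr hT2 hM0.le hMT
  have hX0 : 0 ≤ (E * W) ^ ((1 : ℝ) + 1 / s) := by positivity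
  calc Mr ^ 12 * (3 * R) = 3 * Mr ^ 45 * P := by rw [hR]; ring
    _ ≤ 3 * Mr ^ 45 * (16 * (E * W) ^ ((1 : ℝ) + 1 / s)) :=
        mul_le_mul_of_nonneg_left hP2 (by positivity)
    _ = 48 * Mr ^ 45 * (E * W) ^ ((1 : ℝ) + 1 / s) := by ring
    _ ≤ T ^ C * (E * W) ^ ((1 : ℝ) + 1 / s) := mul_le_mul_of_nonneg_right hpow hX0

end Pool.Agent.MP_f02ea4.QR
end

section

/-! # Several prime powers which are `1` modulo high powers of one prime -/

set_option autoImplicit false

namespace Pool.Agent.MP_f02ea4.TB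

open Finset Real
open Pool.Agent.MP_f02ea4.QR

/-- the part of `N` prime to finitely many primes -/
lemma exists_u {H : Type} [Fintype H] (r : H → ℕ) (hr : ∀ h, (r h).Prime)
    (hinj : Function.Injective r) (N : ℕ) (hN : N ≠ 0) :
    ∃ u : ℕ, 0 < u ∧ N = (∏ h, r h ^ N.factorization (r h)) * u ∧
      ∀ h, Nat.Coprime u (r h) := by
  classical
  set P : Finset ℕ := univ.image r with hP
  refine ⟨∏ ℓ ∈ N.primeFactors \ P, ℓ ^ N.factorization ℓ, ?_, ?_, ?_⟩
  · apply Finset.prod_pos
    intro ℓ hℓ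
    rw [mem_sdiff] at hℓ
    exact pow_pos (Nat.prime_of_mem_primeFactors hℓ.1).pos _
  · have h1 : ∏ h, r h ^ N.factorization (r h) = ∏ ℓ ∈ P, ℓ ^ N.factorization ℓ := by
      rw [hP, Finset.prod_image (fun a _ b _ hab => hinj hab)]
    have h2 : ∏ ℓ ∈ P, ℓ ^ N.factorization ℓ =
        ∏ ℓ ∈ N.primeFactors ∩ P, ℓ ^ N.factorization ℓ := by
      symm
      apply Finset.prod_subset inter_subset_right
      intro ℓ hℓ hℓ2
      have : ℓ ∉ N.primeFactors := fun h => hℓ2 (mem_inter.2 ⟨h, hℓ⟩)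
      rw [← Nat.support_factorization, Finsupp.notMem_support_iff] at this
      rw [this, pow_zero]
    rw [h1, h2, Finset.prod_inter_mul_prod_diff]
    exact (Nat.prod_factorization_pow_eq_self hN).symm
  · intro h
    apply Nat.Coprime.prod_left
    intro ℓ hℓ
    rw [mem_sdiff] at hℓ
    apply Nat.Coprime.pow_left
    rw [Nat.coprime_primes (Nat.prime_of_mem_primeFactors hℓ.1) (hr h)]
    rintro rfl
    exact hℓ.2 (mem_image_of_mem r (mem_univ h))

/-- `(∑ v_ℓ) log 2 ≤ log c` -/
lemma sum_factorization_le {H : Type} [Fintype H] (r : H → ℕ) (hr : ∀ h, (r h).Prime)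
    (hinj : Function.Injective r) (c : ℕ) (hc : c ≠ 0) :
    (∑ h, (c.factorization (r h) : ℝ)) * log 2 ≤ log c := by
  obtain ⟨u, hu, hcu, -⟩ := exists_u r hr hinj c hc
  have h1 : 2 ^ (∑ h, c.factorization (r h)) ≤ ∏ h, r h ^ c.factorization (r h) := by
    rw [← Finset.prod_pow_eq_pow_sum]
    exact Finset.prod_le_prod (fun _ _ => by positivity)
      (fun h _ => Nat.pow_le_pow_left (hr h).two_le _)
  have h2 : 2 ^ (∑ h, c.factorization (r h)) ≤ c := by
    calc 2 ^ (∑ h, c.factorization (r h)) ≤ ∏ h, r h ^ c.factorization (r h) := h1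
      _ ≤ (∏ h, r h ^ c.factorization (r h)) * u := Nat.le_mul_of_pos_right _ hu
      _ = c := hcu.symm
  have h3 : (2 : ℝ) ^ (∑ h, c.factorization (r h)) ≤ c := by exact_mod_cast h2
  have h4 := log_le_log (by positivity) h3
  rw [log_pow] at h4
  push_cast at h4
  exact h4

/-- the data of several components -/
structure Comp (p : ℕ) (T : Finset ℕ) (L c κ : ℕ → ℕ) : Prop where
  hp : p.Prime
  prime : ∀ r ∈ T, r.Prime
  c1 : ∀ r ∈ T, 1 ≤ c r
  k1 : ∀ r ∈ T, 1 ≤ κ r
  eq : ∀ r ∈ T, r ^ L r = c r * p ^ κ r + 1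

section

variable {p : ℕ} {T : Finset ℕ} {L c κ : ℕ → ℕ}

lemma Comp.L1 (h : Comp p T L c κ) {r : ℕ} (hr : r ∈ T) : 1 ≤ L r := by
  by_contra hL
  have h0 : L r = 0 := by omega
  have h1 := h.eq r hr
  rw [h0, pow_zero] at h1
  have h2 : 0 < c r * p ^ κ r := Nat.mul_pos (h.c1 r hr) (pow_pos h.hp.pos _)
  omega

lemma Comp.ne (h : Comp p T L c κ) {r : ℕ} (hr : r ∈ T) : r ≠ p := by
  rintro rfl
  have h1 := h.eq r hr
  have h2 : r ∣ r ^ L r := dvd_pow_self r (by have := h.L1 hr; omega)
  have h3 : r ∣ c r * r ^ κ r := dvd_mul_of_dvd_right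
    (dvd_pow_self r (by have := h.k1 r hr; omega)) _
  rw [h1] at h2
  have h4 := (Nat.dvd_add_right h3).1 h2
  exact h.hp.one_lt.ne' (Nat.dvd_one.1 h4)

/-- the primes -/
def pr (p : ℕ) (T : Finset ℕ) : Option {r // r ∈ T} → ℕ
  | none => p
  | some r => r.1

lemma pr_prime (h : Comp p T L c κ) (x : Option {r // r ∈ T}) : (pr p T x).Prime := by
  cases x with
  | none => exact h.hp
  | some r => exact h.prime r.1 r.2

lemma pr_inj (h : Comp p T L c κ) : Function.Injective (pr p T) := by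
  intro x y hxy
  cases x with
  | none =>
    cases y with
    | none => rfl
    | some r => exact absurd hxy.symm (h.ne r.2)
  | some r =>
    cases y with
    | none => exact absurd hxy (h.ne r.2)
    | some s => exact congrArg some (Subtype.ext hxy)

/-- `N_r = r ^ L - 1` -/
def nn (p : ℕ) (c κ : ℕ → ℕ) (r : ℕ) : ℕ := c r * p ^ κ r

lemma nn_pos (h : Comp p T L c κ) {r : ℕ} (hr : r ∈ T) : 0 < nn p c κ r :=
  Nat.mul_pos (h.c1 r hr) (pow_pos h.hp.pos _)

/-- the row -/
def row (p : ℕ) (T : Finset ℕ) (L c κ : ℕ → ℕ) (q : {r // r ∈ T}) (x : Option {r // r ∈ T}) :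
    ℤ :=
  (if x = some q then (L q.1 : ℤ) else 0) - ((nn p c κ q.1).factorization (pr p T x) : ℤ)

lemma fac_self (h : Comp p T L c κ) {r : ℕ} (hr : r ∈ T) :
    (nn p c κ r).factorization r = 0 := by
  apply Nat.factorization_eq_zero_of_not_dvd
  intro hd
  have h1 := h.eq r hr
  have h2 : r ∣ r ^ L r := dvd_pow_self r (by have := h.L1 hr; omega)
  rw [h1] at h2
  have h4 := (Nat.dvd_add_right hd).1 h2
  exact (h.prime r hr).one_lt.ne' (Nat.dvd_one.1 h4)

lemma fac_other (h : Comp p T L c κ) {r s : ℕ} (hr : r ∈ T) (hs : s ∈ T) :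
    (nn p c κ r).factorization s = (c r).factorization s := by
  rw [nn, Nat.factorization_mul (by have := h.c1 r hr; omega) (pow_ne_zero _ h.hp.ne_zero),
    Finsupp.add_apply, h.hp.factorization_pow, Finsupp.single_apply,
    if_neg (h.ne hs).symm, add_zero]

/-- the independence of the rows -/
lemma row_indep (h : Comp p T L c κ) {E H : ℝ} (hE : ∀ r ∈ T, log (r : ℝ) ≤ E)
    (hH : ∀ r ∈ T, log (c r : ℝ) ≤ H) (hw : ∀ r ∈ T, 2 * E * H < κ r * log p) :
    LinearIndependent ℚ (fun q x => (row p T L c κ q x : ℚ)) := by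
  classical
  set A : Matrix {r // r ∈ T} {r // r ∈ T} ℚ := fun q q' => (row p T L c κ q (some q') : ℚ)
    with hA
  have hdet : A.det ≠ 0 := by
    apply det_ne_zero_of_sum_row_lt_diag
    intro q
    have hq := h.prime q.1 q.2
    have hlogq : 0 < log (q.1 : ℝ) := log_pos (by exact_mod_cast hq.one_lt)
    have hEpos : 0 < E := hlogq.trans_le (hE q.1 q.2)
    have hdiag : A q q = L q.1 := by
      simp only [hA, row, if_true, pr]
      rw [fac_self h q.2]
      push_cast
      ring
    have hoff : ∀ q' ∈ Finset.univ.erase q, ‖A q q'‖ = ((c q.1).factorization q'.1 : ℝ) := by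
      intro q' hq'
      rw [Finset.mem_erase] at hq'
      have h1 : (some q' : Option {r // r ∈ T}) ≠ some q := by
        intro h2
        exact hq'.1 (Option.some_injective _ h2)
      simp only [hA, row, if_neg h1, pr]
      rw [fac_other h q.2 q'.2]
      push_cast
      rw [zero_sub, norm_neg, ← Rat.norm_cast_real, Rat.cast_natCast, Real.norm_natCast]
    rw [Finset.sum_congr rfl hoff, hdiag]
    have h1 : ‖((L q.1 : ℕ) : ℚ)‖ = (L q.1 : ℝ) := by
      rw [← Rat.norm_cast_real, Rat.cast_natCast, Real.norm_natCast]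
    rw [h1]
    have h2 : ∑ q' ∈ Finset.univ.erase q, ((c q.1).factorization q'.1 : ℝ) ≤
        ∑ q' : {r // r ∈ T}, ((c q.1).factorization q'.1 : ℝ) :=
      Finset.sum_le_sum_of_subset_of_nonneg (Finset.erase_subset _ _)
        (fun _ _ _ => Nat.cast_nonneg _)
    have h3 := sum_factorization_le (fun q' : {r // r ∈ T} => q'.1)
      (fun q' => h.prime q'.1 q'.2) Subtype.val_injective (c q.1)
      (by have := h.c1 q.1 q.2; omega)
    have h4 : log (c q.1 : ℝ) ≤ H := hH q.1 q.2
    have hl2 : (0.6931471803 : ℝ) < log 2 := log_two_gt_d9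
    set vs : ℝ := ∑ q' : {r // r ∈ T}, ((c q.1).factorization q'.1 : ℝ) with hvs
    have hvs0 : 0 ≤ vs := Finset.sum_nonneg fun _ _ => Nat.cast_nonneg _
    have h5 : vs ≤ 2 * H := by nlinarith
    have h6 : 2 * H * E < L q.1 * E := by
      have h7 : (κ q.1 : ℝ) * log p ≤ L q.1 * log q.1 := by
        have h8 : ((p : ℝ)) ^ κ q.1 ≤ (q.1 : ℝ) ^ L q.1 := by
          have h9 : p ^ κ q.1 ≤ q.1 ^ L q.1 := by
            rw [h.eq q.1 q.2]
            calc p ^ κ q.1 = 1 * p ^ κ q.1 := (one_mul _).symm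
              _ ≤ c q.1 * p ^ κ q.1 := Nat.mul_le_mul_right _ (h.c1 q.1 q.2)
              _ ≤ _ := Nat.le_succ _
          exact_mod_cast h9
        have hp0 : (0 : ℝ) < p := by exact_mod_cast h.hp.pos
        have h10 := log_le_log (by positivity) h8
        rw [log_pow, log_pow] at h10
        exact h10
      have h8 := hw q.1 q.2
      have h9 : (L q.1 : ℝ) * log q.1 ≤ L q.1 * E :=
        mul_le_mul_of_nonneg_left (hE q.1 q.2) (Nat.cast_nonneg _)
      linarith
    have h7 : 2 * H < L q.1 := lt_of_mul_lt_mul_right h6 hEpos.le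
    linarith
  have hrows := Matrix.linearIndependent_rows_of_det_ne_zero hdet
  refine LinearIndependent.of_comp (LinearMap.funLeft ℚ ℚ (some : {r // r ∈ T} → _)) ?_
  exact hrows

end

/-- the bound for several components, with the exponent `C` of the logarithmic factors -/
def TupleBound (C : ℕ) : Prop :=
  ∀ (p : ℕ) (T : Finset ℕ) (L c κ : ℕ → ℕ) (E H Y w : ℝ), Comp p T L c κ → 2 ≤ T.card →
    1 ≤ E → (∀ r ∈ T, log (r : ℝ) ≤ E) → 1 ≤ H → (∀ r ∈ T, log (c r : ℝ) ≤ H) →
    (∀ r ∈ T, w ≤ κ r * log p) → 1 ≤ Y → log E ≤ Y → log H ≤ Y →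
    T.card * E + log p ≤ exp Y → (∀ r ∈ T, 2 * (1 + H + κ r * log p) ≤ exp Y) →
    w ≤ (T.card * Y) ^ C * (E * H) ^ ((1 : ℝ) + 1 / ((T.card : ℝ) - 1))

/-- the simultaneous bound: several components -/
theorem tuple_bound : ∃ C : ℕ, 1 ≤ C ∧ TupleBound C := by
  classical
  obtain ⟨C, hC1, hC⟩ := CD.sharp
  refine ⟨C, hC1, ?_⟩
  intro p T L c κ E H Y w h hT hE1 hE hH1 hH hw hY1 hYE hYH hY2 hY3
  obtain ⟨s, hs⟩ : ∃ s : ℕ, T.card = s + 1 := ⟨T.card - 1, by omega⟩
  have hs1 : 1 ≤ s := by omega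
  have hsr : (1 : ℝ) ≤ s := by exact_mod_cast hs1
  have hTr : (T.card : ℝ) = s + 1 := by rw [hs]; push_cast; rfl
  have hsub : (T.card : ℝ) - 1 = s := by rw [hTr]; ring
  have hE0 : 0 < E := by linarith
  have hH0 : 0 < H := by linarith
  have hEH : 1 ≤ E * H := one_le_mul_of_one_le_of_one_le hE1 hH1
  rw [hsub]
  rcases le_or_gt w (2 * E * H) with hw2 | hw2
  · refine hw2.trans ?_
    have h1 : E * H ≤ (E * H) ^ ((1 : ℝ) + 1 / s) := by
      calc E * H = (E * H) ^ (1 : ℝ) := (rpow_one _).symm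
        _ ≤ _ := rpow_le_rpow_of_exponent_le hEH (by
          have : 0 ≤ 1 / (s : ℝ) := by positivity
          linarith)
    have h2 : (2 : ℝ) ≤ (T.card * Y) ^ C := by
      have h3 : (2 : ℝ) ≤ T.card * Y := by rw [hTr]; nlinarith
      calc (2 : ℝ) ≤ T.card * Y := h3
        _ ≤ (T.card * Y) ^ C := le_self_pow₀ (by linarith) (by omega)
    calc 2 * E * H = 2 * (E * H) := by ring
      _ ≤ _ := mul_le_mul h2 h1 (by positivity) (by positivity)
  · have hne : ∀ q : {r // r ∈ T}, nn p c κ q.1 ≠ 0 := fun q => (nn_pos h q.2).ne'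
    choose u hu0 hueq hucop using fun q : {r // r ∈ T} =>
      exists_u (pr p T) (pr_prime h) (pr_inj h) (nn p c κ q.1) (hne q)
    let D : CD (Option {r // r ∈ T}) {r // r ∈ T} :=
      { r := pr p T
        U := Finset.univ.map Function.Embedding.some
        F := row p T L c κ
        u := u }
    have hOK : D.OK := by
      refine ⟨pr_prime h, pr_inj h, ?_, hu0, hucop⟩
      exact row_indep h hE hH (fun r hr => by
        have := hw r hr
        linarith)
    have hcardB : Fintype.card {r // r ∈ T} = s + 1 := by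
      rw [Fintype.card_coe, hs]
    have hcardH : Fintype.card (Option {r // r ∈ T}) = s + 2 := by
      rw [Fintype.card_option, hcardB]
    have hcardU : D.U.card = s + 1 := by
      simp only [D]
      rw [Finset.card_map, Finset.card_univ, hcardB]
    -- the logarithm of `nn`
    have hprod : ∀ q : {r // r ∈ T}, log (nn p c κ q.1 : ℝ) =
        ∑ x, ((nn p c κ q.1).factorization (pr p T x) : ℝ) * log (pr p T x) + log (u q) := by
      intro q
      have h1 : (nn p c κ q.1 : ℝ) =
          (∏ x, (pr p T x : ℝ) ^ (nn p c κ q.1).factorization (pr p T x)) * (u q : ℝ) := by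
        have h2 := congrArg (fun z : ℕ => (z : ℝ)) (hueq q)
        push_cast at h2
        exact h2
      have h3 : ∀ x : Option {r // r ∈ T}, (0 : ℝ) < pr p T x := fun x => by
        exact_mod_cast (pr_prime h x).pos
      rw [h1, log_mul (Finset.prod_ne_zero_iff.2 fun x _ => by
        have := h3 x
        positivity) (by exact_mod_cast (hu0 q).ne'), log_prod (fun x _ => by
        have := h3 x
        positivity)]
      congr 1
      refine Finset.sum_congr rfl fun x _ => ?_
      rw [log_pow]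
    have hnr : ∀ q : {r // r ∈ T}, (0 : ℝ) < nn p c κ q.1 := fun q => by
      exact_mod_cast nn_pos h q.2
    have hp0 : (0 : ℝ) < p := by exact_mod_cast h.hp.pos
    have hlogp : 0 ≤ log (p : ℝ) := log_natCast_nonneg p
    have hnnge : ∀ q : {r // r ∈ T}, (p : ℝ) ^ κ q.1 ≤ nn p c κ q.1 := by
      intro q
      have h1 : p ^ κ q.1 ≤ nn p c κ q.1 := by
        calc p ^ κ q.1 = 1 * p ^ κ q.1 := (one_mul _).symm
          _ ≤ c q.1 * p ^ κ q.1 := Nat.mul_le_mul_right _ (h.c1 q.1 q.2)
      exact_mod_cast h1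
    have hlognn : ∀ q : {r // r ∈ T}, log (nn p c κ q.1 : ℝ) = log (c q.1) + κ q.1 * log p := by
      intro q
      rw [nn]
      push_cast
      have hc0 : (0 : ℝ) < c q.1 := by exact_mod_cast h.c1 q.1 q.2
      rw [log_mul hc0.ne' (by positivity), log_pow]
    have hLlog : ∀ q : {r // r ∈ T}, (L q.1 : ℝ) * log q.1 = log ((nn p c κ q.1 : ℝ) + 1) := by
      intro q
      have h1 : ((q.1 : ℝ)) ^ L q.1 = (nn p c κ q.1 : ℝ) + 1 := by
        have h2 := congrArg (fun z : ℕ => (z : ℝ)) (h.eq q.1 q.2)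
        push_cast at h2
        rw [nn]
        push_cast
        exact h2
      rw [← h1, log_pow]
    -- `Lam`
    have hLameq : ∀ q : {r // r ∈ T}, D.Lam q = log ((nn p c κ q.1 : ℝ) + 1) -
        log (nn p c κ q.1) := by
      intro q
      unfold CD.Lam
      simp only [D]
      have h1 : ∑ x, ((row p T L c κ q x : ℤ) : ℝ) * log (pr p T x) =
          L q.1 * log q.1 - ∑ x, ((nn p c κ q.1).factorization (pr p T x) : ℝ) *
            log (pr p T x) := by
        have h2 : ∀ x, ((row p T L c κ q x : ℤ) : ℝ) * log (pr p T x) =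
            (if x = some q then (L q.1 : ℝ) * log q.1 else 0) -
            ((nn p c κ q.1).factorization (pr p T x) : ℝ) * log (pr p T x) := by
          intro x
          unfold row
          by_cases hx : x = some q
          · rw [if_pos hx, if_pos hx, hx]
            push_cast
            rw [pr]
            ring
          · rw [if_neg hx, if_neg hx]
            push_cast
            ring
        rw [Finset.sum_congr rfl fun x _ => h2 x, Finset.sum_sub_distrib, Finset.sum_ite_eq',
          if_pos (Finset.mem_univ _)]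
      rw [h1, hLlog q, hprod q]
      ring
    have hLam : ∀ q : {r // r ∈ T}, |D.Lam q| ≤ 2 * exp (-w) := by
      intro q
      rw [hLameq q]
      have hn := hnr q
      have h1 : log ((nn p c κ q.1 : ℝ) + 1) - log (nn p c κ q.1) =
          log (1 + 1 / (nn p c κ q.1 : ℝ)) := by
        rw [← log_div (by positivity) hn.ne']
        congr 1
        field_simp
      rw [h1]
      have h2 : 0 ≤ log (1 + 1 / (nn p c κ q.1 : ℝ)) := by
        apply log_nonneg
        have : 0 ≤ 1 / (nn p c κ q.1 : ℝ) := by positivity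
        linarith
      have h3 : log (1 + 1 / (nn p c κ q.1 : ℝ)) ≤ 1 / (nn p c κ q.1 : ℝ) := by
        have := log_le_sub_one_of_pos (x := 1 + 1 / (nn p c κ q.1 : ℝ)) (by positivity)
        linarith
      have h4 : 1 / (nn p c κ q.1 : ℝ) ≤ exp (-w) := by
        rw [exp_neg, one_div]
        apply inv_anti₀ (exp_pos _)
        refine le_trans ?_ (hnnge q)
        rw [← exp_log (show (0 : ℝ) < (p : ℝ) ^ κ q.1 by positivity), exp_le_exp, log_pow]
        exact hw q.1 q.2
      rw [abs_of_nonneg h2]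
      have := exp_pos (-w)
      linarith
    have hlogpr : ∀ x : Option {r // r ∈ T}, 0 ≤ log (pr p T x : ℝ) := fun x =>
      log_natCast_nonneg _
    -- `Th`
    have hTh : ∑ x, log (D.r x : ℝ) ≤ exp Y := by
      simp only [D]
      rw [Fintype.sum_option]
      refine le_trans ?_ hY2
      have h1 : ∑ q : {r // r ∈ T}, log (pr p T (some q) : ℝ) ≤ T.card * E := by
        refine (Finset.sum_le_sum fun q _ => hE q.1 q.2).trans ?_
        rw [Finset.sum_const, Finset.card_univ, Fintype.card_coe, nsmul_eq_mul]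
      have h2 : log (pr p T none : ℝ) = log p := rfl
      rw [h2]
      linarith
    have hl2 : (0.6931471803 : ℝ) < log 2 := log_two_gt_d9
    have hlog2le : log 2 ≤ 1 := by
      have := log_two_lt_d9
      linarith
    have hlognn1 : ∀ q : {r // r ∈ T}, log ((nn p c κ q.1 : ℝ) + 1) ≤
        1 + H + κ q.1 * log p := by
      intro q
      have hn := hnr q
      have h1 : (1 : ℝ) ≤ nn p c κ q.1 := by exact_mod_cast nn_pos h q.2
      have h2 : log ((nn p c κ q.1 : ℝ) + 1) ≤ log (2 * (nn p c κ q.1 : ℝ)) :=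
        log_le_log (by linarith) (by linarith)
      rw [log_mul (by norm_num) hn.ne', hlognn q] at h2
      have h3 := hH q.1 q.2
      linarith
    have hFb : ∀ (q : {r // r ∈ T}) (x : Option {r // r ∈ T}), |(D.F q x : ℝ)| ≤ exp Y := by
      intro q x
      have hY3' := hY3 q.1 q.2
      have hn := hnr q
      have hB := hlognn1 q
      simp only [D]
      have h1 : (L q.1 : ℝ) * log 2 ≤ 1 + H + κ q.1 * log p := by
        have h2 : log 2 ≤ log (q.1 : ℝ) :=
          log_le_log (by norm_num) (by exact_mod_cast (h.prime q.1 q.2).two_le)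
        have h3 : (L q.1 : ℝ) * log 2 ≤ L q.1 * log q.1 :=
          mul_le_mul_of_nonneg_left h2 (Nat.cast_nonneg _)
        rw [hLlog q] at h3
        linarith
      have h2 : ((nn p c κ q.1).factorization (pr p T x) : ℝ) * log 2 ≤
          1 + H + κ q.1 * log p := by
        have h3 : 2 ^ (nn p c κ q.1).factorization (pr p T x) ≤ nn p c κ q.1 := by
          refine (Nat.pow_le_pow_left (pr_prime h x).two_le _).trans ?_
          exact Nat.le_of_dvd (nn_pos h q.2) (Nat.ordProj_dvd _ _)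
        have h4 : (2 : ℝ) ^ (nn p c κ q.1).factorization (pr p T x) ≤ (nn p c κ q.1 : ℝ) + 1 := by
          have h5 : (2 : ℝ) ^ (nn p c κ q.1).factorization (pr p T x) ≤ (nn p c κ q.1 : ℝ) := by
            exact_mod_cast h3
          linarith
        have h5 := log_le_log (by positivity) h4
        rw [log_pow] at h5
        linarith
      set a : ℝ := (L q.1 : ℝ) with ha
      set b : ℝ := ((nn p c κ q.1).factorization (pr p T x) : ℝ) with hb
      have ha0 : 0 ≤ a := Nat.cast_nonneg _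
      have hb0 : 0 ≤ b := Nat.cast_nonneg _
      set V : ℝ := 1 + H + κ q.1 * log p with hV
      have hV0 : 0 ≤ V := le_trans (by positivity) h1
      have ha2 : a ≤ 2 * V := by nlinarith
      have hb2 : b ≤ 2 * V := by nlinarith
      have h6 : ((row p T L c κ q x : ℤ) : ℝ) = (if x = some q then a else 0) - b := by
        unfold row
        split_ifs <;> push_cast <;> rfl
      rw [h6]
      refine le_trans ?_ hY3'
      split_ifs
      · rw [abs_le]
        constructor <;> linarith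
      · rw [abs_le]
        constructor <;> linarith
    have hub : ∀ q : {r // r ∈ T}, log (D.u q : ℝ) ≤ H := by
      intro q
      refine le_trans ?_ (hH q.1 q.2)
      simp only [D]
      apply log_le_log (by exact_mod_cast hu0 q)
      have h1 : p ^ κ q.1 ≤ ∏ x, pr p T x ^ (nn p c κ q.1).factorization (pr p T x) := by
        have h2 : p ^ κ q.1 ≤ p ^ (nn p c κ q.1).factorization p := by
          apply Nat.pow_le_pow_right h.hp.pos
          rw [nn, Nat.factorization_mul (by have := h.c1 q.1 q.2; omega)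
            (pow_ne_zero _ h.hp.ne_zero), Finsupp.add_apply, h.hp.factorization_pow,
            Finsupp.single_apply, if_pos rfl]
          omega
        refine h2.trans ?_
        have h3 := Finset.single_le_prod' (f := fun x => pr p T x ^
          (nn p c κ q.1).factorization (pr p T x)) (s := Finset.univ) (fun x _ =>
            Nat.one_le_iff_ne_zero.2 (pow_ne_zero _ (pr_prime h x).ne_zero))
            (Finset.mem_univ none)
        exact h3
      have h2 : p ^ κ q.1 * u q ≤ p ^ κ q.1 * c q.1 := by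
        calc p ^ κ q.1 * u q ≤ (∏ x, pr p T x ^ (nn p c κ q.1).factorization (pr p T x)) * u q :=
              Nat.mul_le_mul_right _ h1
          _ = nn p c κ q.1 := (hueq q).symm
          _ = p ^ κ q.1 * c q.1 := by rw [nn, mul_comm]
      have h3 : u q ≤ c q.1 := Nat.le_of_mul_le_mul_left h2 (pow_pos h.hp.pos _)
      exact_mod_cast h3
    have hEU : ∀ x ∈ D.U, log (D.r x : ℝ) ≤ E := by
      intro x hx
      simp only [D, Finset.mem_map, Finset.mem_univ, true_and] at hx
      obtain ⟨q, rfl⟩ := hx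
      exact hE q.1 q.2
    have key := hC D hOK hs1 hcardH hcardU hcardB hE1 hEU hH1 hub hY1 hYE hYH hTh hFb hLam
    rw [hTr]
    exact key

end Pool.Agent.MP_f02ea4.TB
end
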