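import Mathlib
import Pool.Agent.Lib.MP_f02ea4_nt.QR.CDef

section

/-!
# The determinant step

From a relation `∑ σ, G_σ(z) ξ ^ σ = 0` on `(d + 1 + S') E` to a nonzero polynomial which vanishes on
`(d + 1) E`.
-/

set_option autoImplicit false

open Finset Pointwise

namespace Pool.Agent.MP_f02ea4.QR

open MvPolynomial

section hc

variable {ι : Type*}

lemma hc_mul {p q : MvPolynomial ι ℚ} {m n : ℕ} (hp : p.totalDegree ≤ m) (hq : q.totalDegree ≤ n) :
    homogeneousComponent (m + n) (p * q) = homogeneousComponent m p * homogeneousComponent n q := by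
  classical
  ext s
  rw [coeff_homogeneousComponent, coeff_mul, coeff_mul]
  have hz : ∀ (r : MvPolynomial ι ℚ) (k : ℕ) (a : ι →₀ ℕ), r.totalDegree ≤ k → k < a.degree →
      coeff a r = 0 := by
    intro r k a hr ha
    apply coeff_eq_zero_of_totalDegree_lt
    rw [Finsupp.degree] at ha
    exact lt_of_le_of_lt hr ha
  by_cases hs : s.degree = m + n
  · rw [if_pos hs]
    refine Finset.sum_congr rfl fun x hx => ?_
    rw [HasAntidiagonal.mem_antidiagonal] at hx
    rw [coeff_homogeneousComponent, coeff_homogeneousComponent]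
    have hd : x.1.degree + x.2.degree = m + n := by
      rw [← hs, ← hx, map_add]
    by_cases h1 : x.1.degree = m
    · have h2 : x.2.degree = n := by omega
      rw [if_pos h1, if_pos h2]
    · rw [if_neg h1, zero_mul]
      rcases lt_or_gt_of_ne h1 with h | h
      · rw [hz q n x.2 hq (by omega), mul_zero]
      · rw [hz p m x.1 hp h, zero_mul]
  · rw [if_neg hs]
    symm
    apply Finset.sum_eq_zero
    intro x hx
    rw [HasAntidiagonal.mem_antidiagonal] at hx
    rw [coeff_homogeneousComponent, coeff_homogeneousComponent]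
    by_cases h1 : x.1.degree = m
    · by_cases h2 : x.2.degree = n
      · exfalso
        apply hs
        rw [← hx, map_add, h1, h2]
      · rw [if_neg h2, mul_zero]
    · rw [if_neg h1, zero_mul]

lemma hc_prod {κ : Type*} (s : Finset κ) (p : κ → MvPolynomial ι ℚ) (m : κ → ℕ)
    (hp : ∀ i ∈ s, (p i).totalDegree ≤ m i) :
    (∏ i ∈ s, p i).totalDegree ≤ ∑ i ∈ s, m i ∧
    homogeneousComponent (∑ i ∈ s, m i) (∏ i ∈ s, p i) =
      ∏ i ∈ s, homogeneousComponent (m i) (p i) := by
  classical
  induction s using Finset.induction_on with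
  | empty =>
    simp only [sum_empty, prod_empty]
    refine ⟨by simp, ?_⟩
    rw [show (1 : MvPolynomial ι ℚ) = C 1 from rfl, homogeneousComponent_zero]
    simp
  | insert a s ha ih =>
    obtain ⟨h1, h2⟩ := ih fun i hi => hp i (mem_insert_of_mem hi)
    have h3 := hp a (mem_insert_self _ _)
    rw [Finset.sum_insert ha, Finset.prod_insert ha, Finset.prod_insert ha]
    refine ⟨(totalDegree_mul _ _).trans (Nat.add_le_add h3 h1), ?_⟩
    rw [hc_mul h3 h1, h2]

lemma hc_totalDegree_ne_zero {p : MvPolynomial ι ℚ} (hp : p ≠ 0) :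
    homogeneousComponent p.totalDegree p ≠ 0 := by
  classical
  obtain ⟨s, hs, h⟩ := Finset.exists_mem_eq_sup p.support (support_nonempty.2 hp)
    (fun s => s.sum fun _ e => e)
  intro h0
  have h1 := congrArg (coeff s) h0
  rw [coeff_homogeneousComponent, coeff_zero, if_pos] at h1
  · exact (mem_support_iff.1 hs) h1
  · rw [totalDegree, h, Finsupp.degree]
    rfl

end hc

/-- The translate `f (x + v)`. -/
noncomputable def shiftP {d : ℕ} (v : Fin d → ℚ) :
    MvPolynomial (Fin d) ℚ →ₐ[ℚ] MvPolynomial (Fin d) ℚ :=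
  aeval fun i => X i + C (v i)

lemma eval_shiftP {d : ℕ} (v x : Fin d → ℚ) (f : MvPolynomial (Fin d) ℚ) :
    eval x (shiftP v f) = eval (x + v) f := by
  induction f using MvPolynomial.induction_on with
  | C a => simp [shiftP]
  | add p q hp hq => rw [map_add, map_add, map_add, hp, hq]
  | mul_X p i hp =>
    rw [map_mul, map_mul, map_mul, hp]
    simp [shiftP]

lemma shiftP_monomial {d : ℕ} (v : Fin d → ℚ) (a : Fin d →₀ ℕ) (c : ℚ) :
    shiftP v (monomial a c) = C c * ∏ i, (X i + C (v i)) ^ a i := by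
  rw [shiftP, aeval_monomial, algebraMap_eq, Finsupp.prod_fintype]
  intro i
  rw [pow_zero]

lemma prod_shift_aux {d : ℕ} (v : Fin d → ℚ) (a : Fin d →₀ ℕ) :
    (∏ i, (X i + C (v i) : MvPolynomial (Fin d) ℚ) ^ a i).totalDegree ≤ ∑ i, a i ∧
    homogeneousComponent (∑ i, a i) (∏ i, (X i + C (v i) : MvPolynomial (Fin d) ℚ) ^ a i) =
      monomial a 1 := by
  classical
  have hX : ∀ i, (X i + C (v i) : MvPolynomial (Fin d) ℚ).totalDegree ≤ 1 ∧
      homogeneousComponent 1 (X i + C (v i) : MvPolynomial (Fin d) ℚ) = X i := by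
    intro i
    constructor
    · refine (totalDegree_add _ _).trans ?_
      rw [totalDegree_X, totalDegree_C]
      simp
    · rw [map_add, homogeneousComponent_of_mem (isHomogeneous_X ℚ i),
        homogeneousComponent_of_mem (isHomogeneous_C _ _)]
      simp
  have hpow : ∀ i, ((X i + C (v i) : MvPolynomial (Fin d) ℚ) ^ a i).totalDegree ≤ a i ∧
      homogeneousComponent (a i) ((X i + C (v i) : MvPolynomial (Fin d) ℚ) ^ a i) =
        X i ^ a i := by
    intro i
    have := hc_prod (Finset.range (a i)) (fun _ => (X i + C (v i) : MvPolynomial (Fin d) ℚ))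
      (fun _ => 1) (fun _ _ => (hX i).1)
    simp only [sum_const, card_range, smul_eq_mul, mul_one, prod_const, (hX i).2] at this
    exact this
  have := hc_prod Finset.univ (fun i => (X i + C (v i) : MvPolynomial (Fin d) ℚ) ^ a i)
    (fun i => a i) (fun i _ => (hpow i).1)
  refine ⟨this.1, ?_⟩
  rw [this.2, Finset.prod_congr rfl fun i _ => (hpow i).2, monomial_eq, C_1, one_mul,
    Finsupp.prod_fintype]
  intro i
  rw [pow_zero]

lemma shiftP_spec {d : ℕ} (v : Fin d → ℚ) (f : MvPolynomial (Fin d) ℚ) {D : ℕ}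
    (hf : f.totalDegree ≤ D) :
    (shiftP v f).totalDegree ≤ D ∧
      homogeneousComponent D (shiftP v f) = homogeneousComponent D f := by
  classical
  have hmon : ∀ a ∈ f.support, (shiftP v (monomial a (coeff a f))).totalDegree ≤ D ∧
      homogeneousComponent D (shiftP v (monomial a (coeff a f))) =
        homogeneousComponent D (monomial a (coeff a f)) := by
    intro a ha
    have hdeg : ∑ i, a i ≤ D := by
      have h1 := le_totalDegree ha
      rw [Finsupp.sum_fintype _ _ (fun _ => rfl)] at h1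
      exact h1.trans hf
    have hdeg' : a.degree = ∑ i, a i := by
      rw [Finsupp.degree_eq_sum]
    obtain ⟨h1, h2⟩ := prod_shift_aux v a
    rw [shiftP_monomial]
    refine ⟨?_, ?_⟩
    · refine (totalDegree_mul _ _).trans ?_
      rw [totalDegree_C, zero_add]
      exact h1.trans hdeg
    · rw [homogeneousComponent_C_mul]
      rcases hdeg.lt_or_eq with h | h
      · rw [homogeneousComponent_eq_zero _ _ (lt_of_le_of_lt h1 h), mul_zero]
        rw [homogeneousComponent_of_mem (n := ∑ i, a i)]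
        · rw [if_neg (by omega)]
        · exact isHomogeneous_monomial _ hdeg'
      · rw [← h, h2, homogeneousComponent_of_mem (n := ∑ i, a i)
          (isHomogeneous_monomial _ hdeg'), if_pos rfl, C_mul_monomial, mul_one]
  have hsum : f = ∑ a ∈ f.support, monomial a (coeff a f) := (support_sum_monomial_coeff f).symm
  constructor
  · rw [hsum, map_sum]
    refine (totalDegree_finsetSum _ _).trans ?_
    exact Finset.sup_le fun a ha => (hmon a ha).1
  · conv_lhs => rw [hsum]
    conv_rhs => rw [hsum]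
    rw [map_sum, map_sum, map_sum]
    exact Finset.sum_congr rfl fun a ha => (hmon a ha).2

lemma mem_nsmul_of_le {M : Type*} [AddCommGroup M] [DecidableEq M] {E : Finset M} (h0 : (0 : M) ∈ E)
    {l0 : M} (hl0 : l0 ∈ E) (n : ℕ) : ∀ (i k : ℕ), i + n ≤ k → ∀ m ∈ n • E, m + i • l0 ∈ k • E := by
  intro i k hik m hm
  have h1 : ∀ j : ℕ, j • l0 ∈ j • E := by
    intro j
    induction j with
    | zero => simp
    | succ j ih =>
      rw [succ_nsmul, succ_nsmul]
      exact Finset.add_mem_add ih hl0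
  have h2 : ∀ j : ℕ, (0 : M) ∈ j • E := by
    intro j
    induction j with
    | zero => simp
    | succ j ih =>
      rw [succ_nsmul]
      simpa using Finset.add_mem_add ih h0
  have h3 : k • E = n • E + i • E + (k - (i + n)) • E := by
    rw [← add_nsmul, ← add_nsmul]
    congr 1
    omega
  rw [h3]
  have := Finset.add_mem_add (Finset.add_mem_add hm (h1 i)) (h2 (k - (i + n)))
  rwa [add_zero] at this

theorem det_step {d : ℕ} {M : Type*} [AddCommGroup M] [DecidableEq M]
    (z : M →+ (Fin d → ℚ)) (xi : M → ℚ) (hxi : ∀ a b, xi (a + b) = xi a * xi b)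
    (E1 : Finset M) (h0 : (0 : M) ∈ E1) (l0 : M) (hl0 : l0 ∈ E1) (hl0p : 0 < xi l0)
    (hl01 : xi l0 ≠ 1) (n S' T : ℕ) (G : ℕ → MvPolynomial (Fin d) ℚ) (hG : ∃ σ < S', G σ ≠ 0)
    (hT : ∀ σ < S', (G σ).totalDegree ≤ T)
    (hv : ∀ m ∈ (n + S') • E1, ∑ σ ∈ range S', eval (z m) (G σ) * xi m ^ σ = 0) :
    ∃ P : MvPolynomial (Fin d) ℚ, P ≠ 0 ∧ P.totalDegree ≤ S' * T ∧
      ∀ m ∈ n • E1, eval (z m) P = 0 := by
  classical
  set a := xi l0 with ha
  -- `xi` never vanishes
  have hxi0 : xi 0 = 1 := by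
    have := hxi 0 l0
    rw [zero_add] at this
    have h1 : xi 0 * a = 1 * a := by rw [one_mul]; exact this.symm
    exact mul_right_cancel₀ hl0p.ne' h1
  have hxine : ∀ m, xi m ≠ 0 := by
    intro m h
    have := hxi m (-m)
    rw [add_neg_cancel, hxi0, h, zero_mul] at this
    exact one_ne_zero this
  have hxin : ∀ (i : ℕ), xi (i • l0) = a ^ i := by
    intro i
    induction i with
    | zero => rw [zero_nsmul, hxi0, pow_zero]
    | succ i ih => rw [succ_nsmul, hxi, ih, pow_succ]
  -- the indices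
  set Sg := (range S').filter (fun σ => G σ ≠ 0) with hSg
  set s := Sg.card with hs
  have hsS : s ≤ S' := by
    rw [hs, hSg]
    exact (card_filter_le _ _).trans (by rw [card_range])
  have hspos : 0 < s := by
    obtain ⟨σ, h1, h2⟩ := hG
    exact card_pos.2 ⟨σ, by rw [hSg, mem_filter, mem_range]; exact ⟨h1, h2⟩⟩
  let e : Fin s ≃ Sg := Sg.equivFin.symm
  let Mx : Matrix (Fin s) (Fin s) (MvPolynomial (Fin d) ℚ) := fun i j =>
    C (a ^ ((i : ℕ) * (e j : ℕ))) * shiftP (((i : ℕ) : ℚ) • z l0) (G (e j))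
  have heS : ∀ j, (e j : ℕ) < S' ∧ G (e j) ≠ 0 := by
    intro j
    have := Finset.mem_filter.1 (show (e j : ℕ) ∈ (range S').filter (fun σ => G σ ≠ 0) from (e j).2)
    exact ⟨mem_range.1 this.1, this.2⟩
  have hMdeg : ∀ i j, (Mx i j).totalDegree ≤ (G (e j)).totalDegree := by
    intro i j
    refine (totalDegree_mul _ _).trans ?_
    rw [totalDegree_C, zero_add]
    exact (shiftP_spec _ _ le_rfl).1
  have hMhc : ∀ i j, homogeneousComponent (G (e j)).totalDegree (Mx i j) =
      C (a ^ ((i : ℕ) * (e j : ℕ))) * homogeneousComponent (G (e j)).totalDegree (G (e j)) := by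
    intro i j
    simp only [Mx]
    rw [homogeneousComponent_C_mul, (shiftP_spec _ _ le_rfl).2]
  set DD := ∑ j : Fin s, (G (e j)).totalDegree with hDD
  have hprod : ∀ π : Equiv.Perm (Fin s), (∏ j, Mx (π j) j).totalDegree ≤ DD ∧
      homogeneousComponent DD (∏ j, Mx (π j) j) = ∏ j, (C (a ^ (((π j : Fin s) : ℕ) * (e j : ℕ))) *
        homogeneousComponent (G (e j)).totalDegree (G (e j))) := by
    intro π
    have := hc_prod Finset.univ (fun j => Mx (π j) j) (fun j => (G (e j)).totalDegree)
      (fun j _ => hMdeg _ _)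
    refine ⟨this.1, ?_⟩
    rw [this.2]
    exact Finset.prod_congr rfl fun j _ => hMhc _ _
  have hdetdeg : Mx.det.totalDegree ≤ DD := by
    rw [Matrix.det_apply]
    refine (totalDegree_finsetSum _ _).trans ?_
    refine Finset.sup_le fun π _ => ?_
    rw [Units.smul_def]
    exact (totalDegree_smul_le _ _).trans (hprod π).1
  have hdethc : homogeneousComponent DD Mx.det =
      C (Matrix.det (fun i j : Fin s => (a ^ (e j : ℕ)) ^ (i : ℕ))) *
        ∏ j, homogeneousComponent (G (e j)).totalDegree (G (e j)) := by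
    rw [Matrix.det_apply, map_sum, Matrix.det_apply, map_sum, Finset.sum_mul]
    refine Finset.sum_congr rfl fun π _ => ?_
    rw [Units.smul_def, Units.smul_def, map_zsmul, (hprod π).2, map_zsmul, smul_mul_assoc]
    congr 1
    rw [Finset.prod_mul_distrib, map_prod]
    congr 1
    refine Finset.prod_congr rfl fun j _ => ?_
    rw [← pow_mul, mul_comm]
  have hvdm : Matrix.det (fun i j : Fin s => (a ^ (e j : ℕ)) ^ (i : ℕ)) ≠ 0 := by
    have h1 : (fun i j : Fin s => (a ^ (e j : ℕ)) ^ (i : ℕ)) =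
        (Matrix.vandermonde (fun j : Fin s => a ^ (e j : ℕ))).transpose := by
      ext i j
      rw [Matrix.transpose_apply, Matrix.vandermonde_apply]
    rw [h1, Matrix.det_transpose, Matrix.det_vandermonde_ne_zero_iff]
    intro j1 j2 h12
    have h2 : (e j1 : ℕ) = (e j2 : ℕ) := pow_right_injective₀ hl0p hl01 h12
    exact e.injective (Subtype.ext h2)
  have hdet0 : Mx.det ≠ 0 := by
    intro h
    rw [h, map_zero] at hdethc
    have h1 : C (Matrix.det (fun i j : Fin s => (a ^ (e j : ℕ)) ^ (i : ℕ))) *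
        ∏ j, homogeneousComponent (G (e j)).totalDegree (G (e j)) ≠ 0 := by
      refine mul_ne_zero ?_ ?_
      · rw [Ne, C_eq_zero]
        exact hvdm
      · rw [Finset.prod_ne_zero_iff]
        intro j _
        exact hc_totalDegree_ne_zero (heS j).2
    exact h1 hdethc.symm
  refine ⟨Mx.det, hdet0, ?_, ?_⟩
  · refine hdetdeg.trans ?_
    calc DD ≤ ∑ j : Fin s, T := Finset.sum_le_sum fun j _ => hT _ (heS j).1
      _ = s * T := by rw [sum_const, card_univ, Fintype.card_fin, smul_eq_mul]
      _ ≤ S' * T := Nat.mul_le_mul_right _ hsS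
  · intro m hm
    have h1 : eval (z m) Mx.det = Matrix.det (fun i j : Fin s => eval (z m) (Mx i j)) := by
      rw [RingHom.map_det]
      rfl
    rw [h1]
    rw [← Matrix.exists_mulVec_eq_zero_iff]
    refine ⟨fun j => xi m ^ (e j : ℕ), ?_, ?_⟩
    · intro h
      exact pow_ne_zero _ (hxine m) (congrFun h ⟨0, hspos⟩)
    · ext i
      rw [Matrix.mulVec, dotProduct, Pi.zero_apply]
      have h2 := hv (m + (i : ℕ) • l0) (mem_nsmul_of_le h0 hl0 n (i : ℕ) (n + S')
        (by have := i.2; omega) m hm)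
      have h3 : ∑ σ ∈ range S', eval (z (m + (i : ℕ) • l0)) (G σ) * xi (m + (i : ℕ) • l0) ^ σ =
          ∑ σ ∈ Sg, eval (z (m + (i : ℕ) • l0)) (G σ) * xi (m + (i : ℕ) • l0) ^ σ := by
        rw [hSg, Finset.sum_filter_of_ne]
        intro σ _ hne h
        apply hne
        rw [h, map_zero, zero_mul]
      rw [h3, ← Finset.sum_coe_sort, ← Equiv.sum_comp e] at h2
      rw [← h2]
      refine Finset.sum_congr rfl fun j _ => ?_
      simp only [Mx]
      rw [map_mul, eval_C, eval_shiftP, map_add, map_nsmul, hxi, hxin, mul_pow, ← pow_mul,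
        Nat.cast_smul_eq_nsmul]
      ring

end Pool.Agent.MP_f02ea4.QR
end

section

/-! # The lattice of the core data, A -/

set_option autoImplicit false
set_option linter.unusedSectionVars false

namespace Pool.Agent.MP_f02ea4.QR

open Finset Real
open scoped Pointwise

variable {H B : Type} [Fintype H] [Fintype B] [DecidableEq H] [DecidableEq B]

lemma CD.r_pos' (D : CD H B) (hD : D.OK) (h : H) : (0 : ℚ) < (D.r h : ℚ) := by
  exact_mod_cast (hD.r_prime h).pos

lemma CD.u_pos' (D : CD H B) (hD : D.OK) (q : B) : (0 : ℚ) < (D.u q : ℚ) := by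
  exact_mod_cast hD.u_pos q

lemma CD.xi_pos (D : CD H B) (hD : D.OK) (m : Lat H B) : 0 < D.xi m := by
  unfold CD.xi
  refine mul_pos (prod_pos fun h _ => zpow_pos (D.r_pos' hD h) _) (prod_pos fun q _ => zpow_pos (D.u_pos' hD q) _)

lemma CD.xi_zero (D : CD H B) : D.xi 0 = 1 := by
  simp [CD.xi]

lemma CD.xi_add (D : CD H B) (hD : D.OK) (m m' : Lat H B) : D.xi (m + m') = D.xi m * D.xi m' := by
  unfold CD.xi
  have e1 : ∏ h, (D.r h : ℚ) ^ (m + m').1 h = (∏ h, (D.r h : ℚ) ^ m.1 h) * ∏ h, (D.r h : ℚ) ^ m'.1 h := by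
    rw [← prod_mul_distrib]
    refine prod_congr rfl (fun h _ => ?_)
    rw [Prod.fst_add, Pi.add_apply, zpow_add₀ (D.r_pos' hD h).ne']
  have e2 : ∏ q, (D.u q : ℚ) ^ (m + m').2 q = (∏ q, (D.u q : ℚ) ^ m.2 q) * ∏ q, (D.u q : ℚ) ^ m'.2 q := by
    rw [← prod_mul_distrib]
    refine prod_congr rfl (fun q _ => ?_)
    rw [Prod.snd_add, Pi.add_apply, zpow_add₀ (D.u_pos' hD q).ne']
  rw [e1, e2]
  ring

lemma CD.card_box (D : CD H B) (x y : ℕ) :
    (D.box x y).card = x ^ D.U.card * y ^ Fintype.card B := by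
  unfold CD.box
  rw [card_product, Fintype.card_piFinset, Fintype.card_piFinset]
  congr 1
  · have e : ∀ h, (if h ∈ D.U then Finset.Ico (0 : ℤ) x else {0}).card = if h ∈ D.U then x else 1 := by
      intro h
      split_ifs <;> simp
    rw [prod_congr rfl (fun h _ => e h)]
    rw [prod_ite, prod_const, prod_const_one, mul_one]
    congr 2
    ext h
    simp
  · simp

lemma CD.sm_of_mem_sub (D : CD H B) (x y : ℕ) (m : Lat H B) (hm : m ∈ D.box x y - D.box x y) :
    D.Sm (x - 1) (y - 1) m := by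
  obtain ⟨p, hp, q, hq, rfl⟩ := Finset.mem_sub.mp hm
  unfold CD.box at hp hq
  rw [mem_product, Fintype.mem_piFinset, Fintype.mem_piFinset] at hp hq
  refine ⟨fun h hU => ?_, fun h hU => ?_, fun b => ?_⟩
  · have h1 := hp.1 h
    have h2 := hq.1 h
    rw [if_pos hU, mem_Ico] at h1 h2
    rw [Prod.fst_sub, Pi.sub_apply, abs_le]
    omega
  · have h1 := hp.1 h
    have h2 := hq.1 h
    rw [if_neg hU, mem_singleton] at h1 h2
    rw [Prod.fst_sub, Pi.sub_apply, h1, h2, sub_zero]
  · have h1 := hp.2 b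
    have h2 := hq.2 b
    rw [mem_Ico] at h1 h2
    rw [Prod.snd_sub, Pi.sub_apply, abs_le]
    omega

lemma CD.Sm.add {D : CD H B} {x y x' y' : ℕ} {m m' : Lat H B} (h : D.Sm x y m) (h' : D.Sm x' y' m') :
    D.Sm (x + x') (y + y') (m + m') := by
  refine ⟨fun g hg => ?_, fun g hg => ?_, fun b => ?_⟩
  · rw [Prod.fst_add, Pi.add_apply]
    push_cast
    exact le_trans (abs_add_le _ _) (add_le_add (h.1 g hg) (h'.1 g hg))
  · rw [Prod.fst_add, Pi.add_apply, h.2.1 g hg, h'.2.1 g hg, add_zero]
  · rw [Prod.snd_add, Pi.add_apply]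
    push_cast
    exact le_trans (abs_add_le _ _) (add_le_add (h.2.2 b) (h'.2.2 b))

lemma CD.Sm.nsmul {D : CD H B} {x y : ℕ} (E : Finset (Lat H B)) (hE : ∀ m ∈ E, D.Sm x y m) (n : ℕ) :
    ∀ m ∈ n • E, D.Sm (n * x) (n * y) m := by
  induction n with
  | zero =>
    intro m hm
    rw [zero_nsmul, Finset.mem_zero] at hm
    subst hm
    refine ⟨fun h _ => ?_, fun h _ => rfl, fun b => ?_⟩ <;> simp
  | succ n ih =>
    intro m hm
    rw [succ_nsmul] at hm
    obtain ⟨p, hp, q, hq, rfl⟩ := Finset.mem_add.mp hm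
    have := CD.Sm.add (ih p hp) (hE q hq)
    rw [← add_one_mul, ← add_one_mul] at this
    exact this

lemma CD.log_xi' (D : CD H B) (hD : D.OK) (m : Lat H B) :
    log (D.xi m : ℝ) = ∑ h, (m.1 h : ℝ) * log (D.r h) + ∑ q, (m.2 q : ℝ) * log (D.u q) := by
  unfold CD.xi
  have hr : ∀ h, (0 : ℝ) < (D.r h : ℝ) := fun h => by exact_mod_cast (hD.r_prime h).pos
  have hu : ∀ q, (0 : ℝ) < (D.u q : ℝ) := fun q => by exact_mod_cast hD.u_pos q
  push_cast
  rw [log_mul (prod_ne_zero_iff.mpr fun h _ => (zpow_pos (hr h) _).ne')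
    (prod_ne_zero_iff.mpr fun q _ => (zpow_pos (hu q) _).ne')]
  rw [log_prod (fun h _ => (zpow_pos (hr h) _).ne'), log_prod (fun q _ => (zpow_pos (hu q) _).ne')]
  congr 1
  · refine sum_congr rfl (fun h _ => ?_)
    rw [log_zpow]
  · refine sum_congr rfl (fun q _ => ?_)
    rw [log_zpow]

/-- `log xi = ∑ z_h log r_h - ∑ k_q Lam q` -/
lemma CD.log_xi (D : CD H B) (hD : D.OK) (m : Lat H B) :
    log (D.xi m : ℝ) = ∑ h, (D.zi m h : ℝ) * log (D.r h) - ∑ q, (m.2 q : ℝ) * D.Lam q := by
  rw [D.log_xi' hD m]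
  have e1 : ∑ h, (D.zi m h : ℝ) * log (D.r h) =
      ∑ h, (m.1 h : ℝ) * log (D.r h) + ∑ q, (m.2 q : ℝ) * ∑ h, (D.F q h : ℝ) * log (D.r h) := by
    unfold CD.zi
    push_cast
    simp only [add_mul, sum_add_distrib]
    congr 1
    simp only [sum_mul, mul_sum]
    rw [sum_comm]
    refine sum_congr rfl (fun q _ => sum_congr rfl (fun h _ => ?_))
    ring
  have e2 : ∑ q, (m.2 q : ℝ) * D.Lam q =
      ∑ q, (m.2 q : ℝ) * ∑ h, (D.F q h : ℝ) * log (D.r h) - ∑ q, (m.2 q : ℝ) * log (D.u q) := by
    rw [← sum_sub_distrib]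
    refine sum_congr rfl (fun q _ => ?_)
    unfold CD.Lam
    ring
  rw [e1, e2]
  ring

/-- numerator with the common denominator `∏_U r ^ x ∏ u ^ y` -/
lemma CD.exists_num (D : CD H B) (hD : D.OK) (x y : ℕ) (m : Lat H B) (hm : D.Sm x y m) :
    ∃ a : ℕ, 0 < a ∧ (D.xi m : ℚ) = (a : ℚ) / ((∏ h ∈ D.U, D.r h ^ x) * ∏ q, D.u q ^ y : ℕ) ∧
      log (a : ℝ) ≤ 2 * D.ht x y := by
  have hr : ∀ h, (0 : ℝ) < (D.r h : ℝ) := fun h => by exact_mod_cast (hD.r_prime h).pos
  have hr1 : ∀ h, (1 : ℝ) ≤ (D.r h : ℝ) := fun h => by exact_mod_cast (hD.r_prime h).one_le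
  have hu : ∀ q, (0 : ℝ) < (D.u q : ℝ) := fun q => by exact_mod_cast hD.u_pos q
  have hu1 : ∀ q, (1 : ℝ) ≤ (D.u q : ℝ) := fun q => by exact_mod_cast hD.u_pos q
  refine ⟨(∏ h ∈ D.U, D.r h ^ (m.1 h + x).toNat) * ∏ q, D.u q ^ (m.2 q + y).toNat, ?_, ?_, ?_⟩
  · refine Nat.mul_pos (prod_pos fun h _ => pow_pos (hD.r_prime h).pos _) (prod_pos fun q _ => pow_pos (hD.u_pos q) _)
  · have hden : (((∏ h ∈ D.U, D.r h ^ x) * ∏ q, D.u q ^ y : ℕ) : ℚ) ≠ 0 := by
      have : 0 < (∏ h ∈ D.U, D.r h ^ x) * ∏ q, D.u q ^ y :=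
        Nat.mul_pos (prod_pos fun h _ => pow_pos (hD.r_prime h).pos _) (prod_pos fun q _ => pow_pos (hD.u_pos q) _)
      exact_mod_cast this.ne'
    rw [eq_div_iff hden]
    unfold CD.xi
    push_cast
    have e0 : ∏ h, (D.r h : ℚ) ^ m.1 h = ∏ h ∈ D.U, (D.r h : ℚ) ^ m.1 h := by
      symm
      refine prod_subset (subset_univ _) (fun h _ hh => ?_)
      rw [hm.2.1 h hh, zpow_zero]
    rw [e0]
    have e1 : (∏ h ∈ D.U, (D.r h : ℚ) ^ m.1 h) * ∏ h ∈ D.U, (D.r h : ℚ) ^ x =
        ∏ h ∈ D.U, (D.r h : ℚ) ^ (m.1 h + x).toNat := by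
      rw [← prod_mul_distrib]
      refine prod_congr rfl (fun h hh => ?_)
      have h1 := (abs_le.mp (hm.1 h hh)).1
      rw [← zpow_natCast, ← zpow_natCast, ← zpow_add₀ (D.r_pos' hD h).ne', Int.toNat_of_nonneg (by linarith)]
    have e2 : (∏ q, (D.u q : ℚ) ^ m.2 q) * ∏ q, (D.u q : ℚ) ^ y = ∏ q, (D.u q : ℚ) ^ (m.2 q + y).toNat := by
      rw [← prod_mul_distrib]
      refine prod_congr rfl (fun q _ => ?_)
      have h1 := (abs_le.mp (hm.2.2 q)).1
      rw [← zpow_natCast, ← zpow_natCast, ← zpow_add₀ (D.u_pos' hD q).ne', Int.toNat_of_nonneg (by linarith)]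
    rw [← e1, ← e2]
    ring
  · push_cast
    rw [log_mul (prod_ne_zero_iff.mpr fun h _ => (pow_pos (hr h) _).ne')
      (prod_ne_zero_iff.mpr fun q _ => (pow_pos (hu q) _).ne')]
    rw [log_prod (fun h _ => (pow_pos (hr h) _).ne'), log_prod (fun q _ => (pow_pos (hu q) _).ne')]
    unfold CD.ht
    rw [mul_add]
    refine add_le_add ?_ ?_
    · rw [mul_sum, mul_sum]
      refine sum_le_sum (fun h hh => ?_)
      rw [log_pow, ← mul_assoc]
      refine mul_le_mul_of_nonneg_right ?_ (log_nonneg (hr1 h))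
      have h1 := abs_le.mp (hm.1 h hh)
      have h2 : (m.1 h + x).toNat ≤ 2 * x := by omega
      exact_mod_cast h2
    · rw [mul_sum, mul_sum]
      refine sum_le_sum (fun q _ => ?_)
      rw [log_pow, ← mul_assoc]
      refine mul_le_mul_of_nonneg_right ?_ (log_nonneg (hu1 q))
      have h1 := abs_le.mp (hm.2.2 q)
      have h2 : (m.2 q + y).toNat ≤ 2 * y := by omega
      exact_mod_cast h2

lemma CD.log_den (D : CD H B) (hD : D.OK) (x y : ℕ) :
    0 < (∏ h ∈ D.U, D.r h ^ x) * ∏ q, D.u q ^ y ∧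
      log (((∏ h ∈ D.U, D.r h ^ x) * ∏ q, D.u q ^ y : ℕ) : ℝ) = D.ht x y := by
  have hr : ∀ h, (0 : ℝ) < (D.r h : ℝ) := fun h => by exact_mod_cast (hD.r_prime h).pos
  have hu : ∀ q, (0 : ℝ) < (D.u q : ℝ) := fun q => by exact_mod_cast hD.u_pos q
  refine ⟨Nat.mul_pos (prod_pos fun h _ => pow_pos (hD.r_prime h).pos _) (prod_pos fun q _ => pow_pos (hD.u_pos q) _),
    ?_⟩
  push_cast
  rw [log_mul (prod_ne_zero_iff.mpr fun h _ => (pow_pos (hr h) _).ne')
    (prod_ne_zero_iff.mpr fun q _ => (pow_pos (hu q) _).ne')]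
  rw [log_prod (fun h _ => (pow_pos (hr h) _).ne'), log_prod (fun q _ => (pow_pos (hu q) _).ne')]
  unfold CD.ht
  congr 1
  · rw [mul_sum]
    refine sum_congr rfl (fun h _ => ?_)
    rw [log_pow]
  · rw [mul_sum]
    refine sum_congr rfl (fun q _ => ?_)
    rw [log_pow]

end Pool.Agent.MP_f02ea4.QR
end

section

set_option autoImplicit false

namespace Pool.Agent.MP_f02ea4.QR

open MvPolynomial Module

variable {d : ℕ}

/-- The translate `f (x + v)`. -/
noncomputable def tr (v : Fin d → ℚ) : MvPolynomial (Fin d) ℚ →ₐ[ℚ] MvPolynomial (Fin d) ℚ :=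
  aeval fun i => X i + C (v i)

lemma tr_C (v : Fin d → ℚ) (a : ℚ) : tr v (C a) = C a := by
  simp [tr]

lemma tr_X (v : Fin d → ℚ) (i : Fin d) : tr v (X i) = X i + C (v i) := by
  simp [tr]

lemma tr_zero (f : MvPolynomial (Fin d) ℚ) : tr 0 f = f := by
  have h : tr (0 : Fin d → ℚ) = AlgHom.id ℚ (MvPolynomial (Fin d) ℚ) := by
    apply MvPolynomial.algHom_ext
    intro i
    simp [tr_X]
  rw [h]
  rfl

lemma tr_tr (v w : Fin d → ℚ) (f : MvPolynomial (Fin d) ℚ) : tr v (tr w f) = tr (v + w) f := by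
  have h : (tr v).comp (tr w) = tr (v + w) := by
    apply MvPolynomial.algHom_ext
    intro i
    rw [AlgHom.comp_apply, tr_X, tr_X, map_add, tr_X, tr_C, Pi.add_apply, C_add, add_assoc]
  rw [← h]
  rfl

lemma eval_tr (v x : Fin d → ℚ) (f : MvPolynomial (Fin d) ℚ) :
    eval x (tr v f) = eval (x + v) f := by
  have h : (eval x).comp (tr v : MvPolynomial (Fin d) ℚ →+* MvPolynomial (Fin d) ℚ) =
      eval (x + v) := by
    apply MvPolynomial.ringHom_ext
    · intro a
      simp
    · intro i
      simp [tr_X]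
  rw [← h]
  rfl

lemma totalDegree_tr_le (v : Fin d → ℚ) (f : MvPolynomial (Fin d) ℚ) :
    (tr v f).totalDegree ≤ f.totalDegree := by
  have h : tr v f = ∑ m ∈ f.support, C (f.coeff m) * ∏ i, (X i + C (v i)) ^ (m i) := by
    rw [tr, aeval_def, eval₂_eq' , algebraMap_eq]
  rw [h]
  apply (totalDegree_finsetSum _ _).trans
  apply Finset.sup_le
  intro m hm
  have h1 : (∏ i, ((X i + C (v i)) : MvPolynomial (Fin d) ℚ) ^ (m i)).totalDegree ≤ ∑ i, m i := by
    apply (totalDegree_finsetProd _ _).trans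
    apply Finset.sum_le_sum
    intro i _
    apply (totalDegree_pow _ _).trans
    have h2 : ((X i + C (v i)) : MvPolynomial (Fin d) ℚ).totalDegree ≤ 1 := by
      apply (totalDegree_add _ _).trans
      rw [totalDegree_C, totalDegree_X]
      simp
    calc m i * ((X i + C (v i)) : MvPolynomial (Fin d) ℚ).totalDegree ≤ m i * 1 :=
          Nat.mul_le_mul_left _ h2
      _ = m i := mul_one _
  apply (totalDegree_mul _ _).trans
  rw [totalDegree_C, zero_add]
  apply h1.trans
  have h3 := le_totalDegree hm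
  rwa [Finsupp.sum_fintype _ _ (fun _ => rfl)] at h3

/-- Pass to the quotient by `p`, a domain of characteristic zero: the polynomial `f (x + t v)` in `t`
has the roots `t = 0, 1, 2, ...`. -/
lemma tr_smul_mem (p : Ideal (MvPolynomial (Fin d) ℚ)) [p.IsPrime] (v : Fin d → ℚ)
    (hv : ∀ f ∈ p, tr v f ∈ p) (t : ℚ) : ∀ f ∈ p, tr (t • v) f ∈ p := by
  intro f hf
  set Phi : MvPolynomial (Fin d) ℚ →ₐ[ℚ] Polynomial (MvPolynomial (Fin d) ℚ) :=
    aeval (fun i => Polynomial.C (X i) + Polynomial.X * Polynomial.C (C (v i))) with hPhi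
  have h1 : ∀ s : ℚ, Polynomial.eval (C s) (Phi f) = tr (s • v) f := by
    intro s
    have h : (Polynomial.evalRingHom (C s)).comp
        (Phi : MvPolynomial (Fin d) ℚ →+* Polynomial (MvPolynomial (Fin d) ℚ)) =
        (tr (s • v) : MvPolynomial (Fin d) ℚ →+* MvPolynomial (Fin d) ℚ) := by
      apply MvPolynomial.ringHom_ext
      · intro a
        have : Phi (C a) = Polynomial.C (C a) := by
          rw [hPhi, aeval_C]
          rfl
        rw [RingHom.comp_apply]
        simp [this]
      · intro i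
        have : Phi (X i) = Polynomial.C (X i) + Polynomial.X * Polynomial.C (C (v i)) := by
          rw [hPhi, aeval_X]
        rw [RingHom.comp_apply]
        simp only [RingHom.coe_coe, this, tr_X, Polynomial.coe_evalRingHom,
          Polynomial.eval_add, Polynomial.eval_mul, Polynomial.eval_C, Polynomial.eval_X,
          Pi.smul_apply, smul_eq_mul, C_mul]
    have h2 := congrArg (fun g : MvPolynomial (Fin d) ℚ →+* MvPolynomial (Fin d) ℚ => g f) h
    exact h2
  have h2 : ∀ n : ℕ, tr ((n : ℚ) • v) f ∈ p := by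
    intro n
    induction n with
    | zero => rw [Nat.cast_zero, zero_smul, tr_zero]; exact hf
    | succ n ih =>
      have := hv _ ih
      rw [tr_tr] at this
      have h3 : ((n + 1 : ℕ) : ℚ) • v = v + (n : ℚ) • v := by
        rw [Nat.cast_succ, add_smul, one_smul, add_comm]
      rw [h3]
      exact this
  set q := (Phi f).map (Ideal.Quotient.mk p) with hq
  have h3 : ∀ s : ℚ, Polynomial.eval (Ideal.Quotient.mk p (C s)) q =
      Ideal.Quotient.mk p (tr (s • v) f) := by
    intro s
    rw [hq, Polynomial.eval_map, Polynomial.eval₂_hom, h1]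
  have hq0 : q = 0 := by
    apply Polynomial.eq_zero_of_infinite_isRoot
    have hinj : Function.Injective (fun n : ℕ => Ideal.Quotient.mk p (C (n : ℚ))) := by
      intro a b hab
      have h4 : (C (a : ℚ) - C (b : ℚ) : MvPolynomial (Fin d) ℚ) ∈ p := by
        rw [← Ideal.Quotient.mk_eq_mk_iff_sub_mem]
        exact hab
      by_contra hne
      have h5 : ((a : ℚ) - b) ≠ 0 := by
        rw [sub_ne_zero]
        exact_mod_cast hne
      have h6 : (1 : MvPolynomial (Fin d) ℚ) ∈ p := by
        have := p.mul_mem_left (C (((a : ℚ) - b)⁻¹)) h4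
        rw [← C_sub, ← C_mul, inv_mul_cancel₀ h5, C_1] at this
        exact this
      exact (Ideal.IsPrime.ne_top ‹p.IsPrime›) ((Ideal.eq_top_iff_one p).2 h6)
    apply (Set.infinite_range_of_injective hinj).mono
    rintro _ ⟨n, rfl⟩
    show Polynomial.IsRoot q _
    rw [Polynomial.IsRoot, h3, Ideal.Quotient.eq_zero_iff_mem]
    exact h2 n
  have h4 := h3 t
  rw [hq0, Polynomial.eval_zero] at h4
  exact Ideal.Quotient.eq_zero_iff_mem.1 h4.symm

/-- The vectors `v` such that the translate by `v` maps `p` into `p`. -/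
noncomputable def stab (p : Ideal (MvPolynomial (Fin d) ℚ)) [p.IsPrime] :
    Submodule ℚ (Fin d → ℚ) where
  carrier := {v | ∀ f ∈ p, tr v f ∈ p}
  add_mem' := by
    intro v w hv hw f hf
    rw [← tr_tr]
    exact hv _ (hw f hf)
  zero_mem' := by
    intro f hf
    rw [tr_zero]
    exact hf
  smul_mem' := fun t v hv => tr_smul_mem p v hv t

lemma mem_stab (p : Ideal (MvPolynomial (Fin d) ℚ)) [p.IsPrime] (v : Fin d → ℚ) :
    v ∈ stab p ↔ ∀ f ∈ p, tr v f ∈ p := Iff.rfl

/-- The translate of an ideal: the polynomials `f` with `f (x + v) ∈ p`. -/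
noncomputable def trI (v : Fin d → ℚ) (p : Ideal (MvPolynomial (Fin d) ℚ)) :
    Ideal (MvPolynomial (Fin d) ℚ) := p.comap (tr v)

lemma mem_trI (v : Fin d → ℚ) (p : Ideal (MvPolynomial (Fin d) ℚ)) (f : MvPolynomial (Fin d) ℚ) :
    f ∈ trI v p ↔ tr v f ∈ p := Iff.rfl

/-- `tr v` is an automorphism of the ring, so it preserves heights. -/
lemma height_trI (v : Fin d → ℚ) (p : Ideal (MvPolynomial (Fin d) ℚ)) :
    (trI v p).height = p.height := by
  let e : MvPolynomial (Fin d) ℚ ≃+* MvPolynomial (Fin d) ℚ :=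
    { toFun := tr v
      invFun := tr (-v)
      left_inv := fun f => by rw [tr_tr, neg_add_cancel, tr_zero]
      right_inv := fun f => by rw [tr_tr, add_neg_cancel, tr_zero]
      map_mul' := map_mul (tr v)
      map_add' := map_add (tr v) }
  have h : trI v p = p.comap e := rfl
  rw [h]
  exact RingEquiv.height_comap e p

instance isPrime_trI (v : Fin d → ℚ) (p : Ideal (MvPolynomial (Fin d) ℚ)) [p.IsPrime] :
    (trI v p).IsPrime := Ideal.comap_isPrime _ _

lemma sub_mem_stab_of_trI_eq (p : Ideal (MvPolynomial (Fin d) ℚ)) [p.IsPrime] {v w : Fin d → ℚ}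
    (h : trI v p = trI w p) : v - w ∈ stab p := by
  rw [mem_stab]
  intro f hf
  have h1 : tr (-w) f ∈ trI w p := by
    rw [mem_trI, tr_tr, add_neg_cancel, tr_zero]
    exact hf
  rw [← h, mem_trI, tr_tr, ← sub_eq_add_neg] at h1
  exact h1

end Pool.Agent.MP_f02ea4.QR
end

section

set_option autoImplicit false

namespace Pool.Agent.MP_f02ea4.QR

open MvPolynomial Module

variable {d : ℕ}

/-- A subspace of `ℚ ^ d` projects bijectively onto some coordinates. -/
lemma exists_coord (V : Submodule ℚ (Fin d → ℚ)) :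
    ∃ I : Finset (Fin d), I.card = finrank ℚ V ∧
      ∀ y : Fin d → ℚ, ∃ v ∈ V, ∀ i ∈ I, v i = y i := by
  classical
  set φ : Fin d → Dual ℚ V := fun i => (LinearMap.proj i).comp V.subtype with hφ
  obtain ⟨κ, a, ha, hspan, hli⟩ := exists_linearIndependent' ℚ φ
  have : Finite κ := Finite.of_injective a ha
  have : Fintype κ := Fintype.ofFinite κ
  set L : V →ₗ[ℚ] (κ → ℚ) := LinearMap.pi fun k => φ (a k) with hL
  have hLinj : Function.Injective L := by
    rw [← LinearMap.ker_eq_bot, LinearMap.ker_eq_bot']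
    intro v hv
    have h1 : ∀ ψ ∈ Submodule.span ℚ (Set.range (φ ∘ a)), ψ v = 0 := by
      intro ψ hψ
      induction hψ using Submodule.span_induction with
      | mem x hx =>
        obtain ⟨k, rfl⟩ := hx
        exact congrFun hv k
      | zero => rfl
      | add x y _ _ hx hy => rw [LinearMap.add_apply, hx, hy, add_zero]
      | smul t x _ hx => rw [LinearMap.smul_apply, hx, smul_zero]
    rw [hspan] at h1
    apply Subtype.ext
    funext i
    exact h1 (φ i) (Submodule.subset_span ⟨i, rfl⟩)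
  have hc1 : finrank ℚ V ≤ Fintype.card κ := by
    have := LinearMap.finrank_le_finrank_of_injective hLinj
    rwa [Module.finrank_fintype_fun_eq_card] at this
  have hc2 : Fintype.card κ ≤ finrank ℚ V := by
    have := hli.fintype_card_le_finrank
    rwa [Subspace.dual_finrank_eq] at this
  have hc : Fintype.card κ = finrank ℚ V := le_antisymm hc2 hc1
  have hsurj : Function.Surjective L := by
    rw [← LinearMap.injective_iff_surjective_of_finrank_eq_finrank]
    · exact hLinj
    · rw [Module.finrank_fintype_fun_eq_card, hc]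
  refine ⟨Finset.univ.image a, ?_, ?_⟩
  · rw [Finset.card_image_of_injective _ ha, Finset.card_univ, hc]
  · intro y
    obtain ⟨v, hv⟩ := hsurj fun k => y (a k)
    refine ⟨v, v.2, ?_⟩
    intro i hi
    obtain ⟨k, -, rfl⟩ := Finset.mem_image.1 hi
    exact congrFun hv k

/-- A proper prime contains no non zero polynomial in the coordinates onto which its stabiliser
projects. -/
lemma stab_indep (p : Ideal (MvPolynomial (Fin d) ℚ)) [p.IsPrime] :
    ∃ I : Finset (Fin d), I.card = finrank ℚ (stab p) ∧ ∀ f ∈ p, f.vars ⊆ I → f = 0 := by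
  obtain ⟨I, hI, hI'⟩ := exists_coord (stab p)
  refine ⟨I, hI, ?_⟩
  intro f hf hfI
  -- all translates of `f` are in `p`
  have htr : ∀ y : Fin d → ℚ, tr y f ∈ p := by
    intro y
    obtain ⟨v, hv, hvy⟩ := hI' y
    have h1 : tr y f = tr v f := by
      unfold tr
      rw [aeval_eq_eval₂Hom, aeval_eq_eval₂Hom]
      apply eval₂Hom_congr' rfl _ rfl
      intro i hi _
      rw [hvy i (hfI hi)]
    rw [h1]
    exact (mem_stab p v).1 hv f hf
  set Q := MvPolynomial (Fin d) ℚ ⧸ p with hQ
  set ξ : Fin d → Q := fun i => Ideal.Quotient.mk p (X i) with hξ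
  set g : MvPolynomial (Fin d) Q := aeval (fun i => X i + C (ξ i)) f with hg
  have hginj : Function.Injective (algebraMap ℚ Q) := (algebraMap ℚ Q).injective
  have hev : ∀ w : Fin d → Q, eval w g = aeval (fun i => w i + ξ i) f := by
    intro w
    rw [hg]
    have : (aeval (fun i => w i + ξ i) : MvPolynomial (Fin d) ℚ →ₐ[ℚ] Q)
        = ((aeval w : MvPolynomial (Fin d) Q →ₐ[Q] Q).restrictScalars ℚ).comp
            (aeval (fun i => X i + C (ξ i))) := by
      ext i
      simp
    rw [this]
    simp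
  have hg0 : g = 0 := by
    apply funext_set (fun _ => Set.range (algebraMap ℚ Q))
      (fun _ => Set.infinite_range_of_injective hginj)
    intro x hx
    choose y hy using fun i => hx i (Set.mem_univ i)
    rw [map_zero, hev]
    have h2 : (aeval (fun i => x i + ξ i) f : Q) = Ideal.Quotient.mk p (tr y f) := by
      have : (aeval (fun i => x i + ξ i) : MvPolynomial (Fin d) ℚ →ₐ[ℚ] Q)
          = (Ideal.Quotient.mkₐ ℚ p).comp (tr y) := by
        ext i
        simp only [aeval_X, AlgHom.comp_apply, tr, map_add, Ideal.Quotient.mkₐ_eq_mk, hξ]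
        rw [← hy i, add_comm]
        rfl
      rw [this]
      rfl
    rw [h2]
    exact Ideal.Quotient.eq_zero_iff_mem.2 (htr y)
  apply MvPolynomial.funext
  intro z
  rw [map_zero]
  apply hginj
  rw [map_zero]
  have h3 := hev (fun i => algebraMap ℚ Q (z i) - ξ i)
  rw [hg0, map_zero] at h3
  have h4 : (aeval (fun i => algebraMap ℚ Q (z i) - ξ i + ξ i) f : Q) = algebraMap ℚ Q (eval z f) := by
    simp only [sub_add_cancel]
    rw [show (fun i => algebraMap ℚ Q (z i)) = (algebraMap ℚ Q) ∘ z from rfl]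
    rw [aeval_algebraMap_apply]
    rfl
  rw [← h4, ← h3]

end Pool.Agent.MP_f02ea4.QR
end

section

/-! # The lattice of the core data, B -/

set_option autoImplicit false
set_option linter.unusedSectionVars false

namespace Pool.Agent.MP_f02ea4.QR

open Finset Real
open scoped Pointwise

variable {H B : Type} [Fintype H] [Fintype B] [DecidableEq H] [DecidableEq B]

lemma padicValRat_prod {ι : Type} (p : ℕ) [Fact p.Prime] (s : Finset ι) (f : ι → ℚ)
    (hf : ∀ i ∈ s, f i ≠ 0) : padicValRat p (∏ i ∈ s, f i) = ∑ i ∈ s, padicValRat p (f i) := by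
  classical
  induction s using Finset.induction_on with
  | empty => simp
  | insert a s ha ih =>
    rw [Finset.prod_insert ha, Finset.sum_insert ha, padicValRat.mul (hf a (Finset.mem_insert_self _ _)),
      ih fun i hi => hf i (Finset.mem_insert_of_mem hi)]
    exact Finset.prod_ne_zero_iff.2 fun i hi => hf i (Finset.mem_insert_of_mem hi)

/-- If `xi = 1`, the first component vanishes. -/
lemma CD.fst_eq_zero (D : CD H B) (hD : D.OK) (m : Lat H B) (hxi : D.xi m = 1) : m.1 = 0 := by
  funext h0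
  have : Fact (D.r h0).Prime := ⟨hD.r_prime h0⟩
  have hr : ∀ h, (D.r h : ℚ) ≠ 0 := fun h => by exact_mod_cast (hD.r_prime h).ne_zero
  have hu : ∀ q, (D.u q : ℚ) ≠ 0 := fun q => by exact_mod_cast (hD.u_pos q).ne'
  have h1 : padicValRat (D.r h0) (D.xi m) = m.1 h0 := by
    unfold CD.xi
    rw [padicValRat.mul (Finset.prod_ne_zero_iff.2 fun h _ => zpow_ne_zero _ (hr h))
      (Finset.prod_ne_zero_iff.2 fun q _ => zpow_ne_zero _ (hu q)),
      padicValRat_prod _ _ _ (fun h _ => zpow_ne_zero _ (hr h)),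
      padicValRat_prod _ _ _ (fun q _ => zpow_ne_zero _ (hu q))]
    have h2 : ∑ q, padicValRat (D.r h0) ((D.u q : ℚ) ^ m.2 q) = 0 := by
      apply Finset.sum_eq_zero
      intro q _
      rw [padicValRat.zpow, padicValRat.of_nat, padicValNat.eq_zero_of_not_dvd]
      · simp
      · intro hdvd
        have := (hD.u_coprime q h0).symm
        exact (Nat.Prime.coprime_iff_not_dvd (hD.r_prime h0)).1 this hdvd
    have h3 : ∑ h, padicValRat (D.r h0) ((D.r h : ℚ) ^ m.1 h) = m.1 h0 := by
      rw [Finset.sum_eq_single h0]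
      · rw [padicValRat.zpow, padicValRat.self (hD.r_prime h0).one_lt, mul_one]
      · intro h _ hne
        rw [padicValRat.zpow, padicValRat.of_nat, padicValNat.eq_zero_of_not_dvd]
        · simp
        · intro hdvd
          have := (Nat.prime_dvd_prime_iff_eq (hD.r_prime h0) (hD.r_prime h)).1 hdvd
          exact hne (hD.r_inj this.symm)
      · intro h
        exact absurd (Finset.mem_univ _) h
    rw [h2, h3, add_zero]
  rw [hxi, padicValRat.one] at h1
  exact h1.symm

/-- The map `(z, xi)` is injective on the points with `a` supported on `U`. -/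
lemma CD.eq_zero_of (D : CD H B) (hD : D.OK) (m : Lat H B) (hm : ∀ h, h ∉ D.U → m.1 h = 0)
    (hz : D.z m = 0) (hxi : D.xi m = 1) : m = 0 := by
  have h1 := D.fst_eq_zero hD m hxi
  have h2 : m.2 = 0 := by
    have h3 : ∑ q, (m.2 q : ℚ) • (fun h => (D.F q h : ℚ)) = 0 := by
      funext h
      have h4 := congrFun hz h
      rw [D.z_apply, CD.zi, h1] at h4
      simp only [Pi.zero_apply, zero_add] at h4
      push_cast at h4
      simpa [Finset.sum_apply] using h4
    have h5 := (Fintype.linearIndependent_iff.1 hD.F_indep) (fun q => (m.2 q : ℚ)) h3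
    funext q
    exact_mod_cast h5 q
  exact Prod.ext h1 h2


lemma CD.ht_nonneg' (D : CD H B) (x y : ℕ) : 0 ≤ D.ht x y := by
  unfold CD.ht
  have h1 : 0 ≤ ∑ h ∈ D.U, log (D.r h : ℝ) := Finset.sum_nonneg fun h _ => Real.log_natCast_nonneg _
  have h2 : 0 ≤ ∑ q, log (D.u q : ℝ) := Finset.sum_nonneg fun q _ => Real.log_natCast_nonneg _
  positivity

/-- Liouville: a value of `xi` different from 1 is not too close to 1. -/
lemma CD.liouville (D : CD H B) (hD : D.OK) (x y : ℕ) (m : Lat H B) (hm : D.Sm x y m)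
    (h1 : D.xi m ≠ 1) : exp (-(2 * D.ht x y)) ≤ 2 * |log (D.xi m : ℝ)| := by
  obtain ⟨a, ha, hxa, hla⟩ := D.exists_num hD x y m hm
  obtain ⟨hn, hln⟩ := D.log_den hD x y
  set n := (∏ h ∈ D.U, D.r h ^ x) * ∏ q, D.u q ^ y with hndef
  have hht := D.ht_nonneg' x y
  have haR : (0 : ℝ) < a := by exact_mod_cast ha
  have hnR : (0 : ℝ) < n := by exact_mod_cast hn
  have hxi : (D.xi m : ℝ) = a / n := by
    rw [hxa]
    push_cast
    rfl
  have hne : a ≠ n := by
    intro h
    apply h1
    rw [hxa, h]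
    exact div_self (by exact_mod_cast hn.ne')
  have hexpa : exp (-(2 * D.ht x y)) ≤ 1 / a := by
    rw [Real.exp_neg, one_div]
    apply inv_anti₀ haR
    rw [← Real.exp_log haR]
    exact Real.exp_le_exp.2 hla
  have hexpn : exp (-(2 * D.ht x y)) ≤ 1 / n := by
    rw [Real.exp_neg, one_div]
    apply inv_anti₀ hnR
    rw [← Real.exp_log hnR]
    exact Real.exp_le_exp.2 (by rw [hln]; linarith)
  have key : exp (-(2 * D.ht x y)) ≤ |log (D.xi m : ℝ)| := by
    rcases lt_or_gt_of_ne hne with hlt | hgt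
    · have h2 : (a : ℝ) + 1 ≤ n := by exact_mod_cast hlt
      have h3 : log (D.xi m : ℝ) ≤ a / n - 1 := by
        rw [hxi]
        exact Real.log_le_sub_one_of_pos (div_pos haR hnR)
      have h4 : (a : ℝ) / n - 1 ≤ -(1 / n) := by
        rw [div_sub_one hnR.ne', ← neg_div, div_le_div_iff_of_pos_right hnR]
        linarith
      have h5 : 1 / (n : ℝ) ≤ -log (D.xi m : ℝ) := by linarith
      exact hexpn.trans (h5.trans (neg_le_abs _))
    · have h2 : (n : ℝ) + 1 ≤ a := by exact_mod_cast hgt
      have h3 : 1 - (D.xi m : ℝ)⁻¹ ≤ log (D.xi m : ℝ) := by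
        rw [hxi]
        exact Real.one_sub_inv_le_log_of_pos (div_pos haR hnR)
      have h4 : 1 / (a : ℝ) ≤ 1 - (D.xi m : ℝ)⁻¹ := by
        rw [hxi, inv_div, one_sub_div haR.ne', div_le_div_iff_of_pos_right haR]
        linarith
      exact hexpa.trans ((h4.trans h3).trans (le_abs_self _))
  have := abs_nonneg (log (D.xi m : ℝ))
  linarith

/-- `z` is injective on small boxes. -/
lemma CD.injOn_box (D : CD H B) (hD : D.OK) (x y : ℕ) (eps : ℝ) (heps : ∀ q, |D.Lam q| ≤ eps)
    (hsmall : 2 * (y * Fintype.card B * eps) < exp (-(2 * D.ht x y))) :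
    Set.InjOn D.z (D.box x y : Set (Lat H B)) := by
  intro m hm m' hm' hmm
  have h1 : m - m' ∈ D.box x y - D.box x y := Finset.sub_mem_sub hm hm'
  have h2 := D.sm_of_mem_sub x y _ h1
  have h3 : D.Sm x y (m - m') := by
    refine ⟨fun h hh => (h2.1 h hh).trans ?_, h2.2.1, fun q => (h2.2.2 q).trans ?_⟩
    · exact_mod_cast Nat.sub_le x 1
    · exact_mod_cast Nat.sub_le y 1
  have hz : D.z (m - m') = 0 := by
    rw [map_sub, hmm, sub_self]
  have h4 : D.xi (m - m') = 1 := by
    by_contra hne
    have h5 := D.liouville hD x y _ h3 hne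
    rw [D.log_xi hD] at h5
    have h6 : ∑ h, (D.zi (m - m') h : ℝ) * log (D.r h) = 0 := by
      apply Finset.sum_eq_zero
      intro h _
      have h7 : D.zi (m - m') h = 0 := by
        have := congrFun hz h
        rw [D.z_apply, Pi.zero_apply] at this
        exact_mod_cast this
      rw [h7]
      simp
    rw [h6, zero_sub, abs_neg] at h5
    have h8 : |∑ q, ((m - m').2 q : ℝ) * D.Lam q| ≤ y * Fintype.card B * eps := by
      calc |∑ q, ((m - m').2 q : ℝ) * D.Lam q| ≤ ∑ q, |((m - m').2 q : ℝ) * D.Lam q| :=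
            Finset.abs_sum_le_sum_abs _ _
        _ ≤ ∑ _q : B, (y : ℝ) * eps := by
            apply Finset.sum_le_sum
            intro q _
            rw [abs_mul]
            apply mul_le_mul _ (heps q) (abs_nonneg _) (Nat.cast_nonneg _)
            have := h3.2.2 q
            exact_mod_cast this
        _ = y * Fintype.card B * eps := by
            rw [Finset.sum_const, Finset.card_univ, nsmul_eq_mul]
            ring
    linarith
  have h9 := D.eq_zero_of hD _ h3.2.1 hz h4
  exact sub_eq_zero.1 h9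

/-- A subspace of `ℚ ^ B` is embedded by at most `dim` coordinates. -/
lemma exists_coord_inj {B : Type} [DecidableEq B] [Finite B] (W : Submodule ℚ (B → ℚ)) :
    ∃ J : Finset B, J.card ≤ Module.finrank ℚ W ∧ ∀ v ∈ W, (∀ q ∈ J, v q = 0) → v = 0 := by
  classical
  set φ : B → Module.Dual ℚ W := fun i => (LinearMap.proj i).comp W.subtype with hφ
  obtain ⟨κ, a, ha, hspan, hli⟩ := exists_linearIndependent' ℚ φ
  have : Finite κ := Finite.of_injective a ha
  have : Fintype κ := Fintype.ofFinite κ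
  refine ⟨Finset.univ.image a, ?_, ?_⟩
  · rw [Finset.card_image_of_injective _ ha, Finset.card_univ]
    have := hli.fintype_card_le_finrank
    rwa [Subspace.dual_finrank_eq] at this
  · intro v hv hJ
    have h1 : ∀ ψ ∈ Submodule.span ℚ (Set.range (φ ∘ a)), ψ ⟨v, hv⟩ = 0 := by
      intro ψ hψ
      induction hψ using Submodule.span_induction with
      | mem x hx =>
        obtain ⟨k, rfl⟩ := hx
        exact hJ (a k) (Finset.mem_image_of_mem _ (Finset.mem_univ _))
      | zero => rfl
      | add x y _ _ hx hy => rw [LinearMap.add_apply, hx, hy, add_zero]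
      | smul t x _ hx => rw [LinearMap.smul_apply, hx, smul_zero]
    rw [hspan] at h1
    funext i
    exact h1 (φ i) (Submodule.subset_span ⟨i, rfl⟩)

/-- The point with `xi ≠ 1`. `E1` is the set of the differences of the box in the space `V`; if `xi = 1` on `E1`
then `a = 0` on `E1`, so `E1` has at most `(2 y - 1) ^ dim V` elements. -/
lemma CD.exists_xi_ne_one (D : CD H B) (hD : D.OK) (x y : ℕ) (hy : 1 ≤ y)
    (V : Submodule ℚ (H → ℚ))
    (E1 : Finset (Lat H B)) (hE1 : ∀ m ∈ E1, m ∈ D.box x y - D.box x y ∧ D.z m ∈ V) (T : ℕ)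
    (hT : 2 * y ≤ T) (hV : V ≠ ⊥)
    (hcard : (T : ℝ) ^ Module.finrank ℚ V ≤ ((E1.image D.z).card : ℝ)) :
    ∃ m ∈ E1, D.xi m ≠ 1 := by
  classical
  by_contra hcon
  push Not at hcon
  set L : (B → ℚ) →ₗ[ℚ] (H → ℚ) := Fintype.linearCombination ℚ (fun q h => (D.F q h : ℚ)) with hL
  have hLinj : Function.Injective L := hD.F_indep.fintypeLinearCombination_injective
  have hLz : ∀ m ∈ E1, L (fun q => (m.2 q : ℚ)) = D.z m := by
    intro m hm
    have h1 := D.fst_eq_zero hD m (hcon m hm)
    funext h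
    rw [hL, Fintype.linearCombination_apply, D.z_apply, CD.zi, h1]
    simp [Finset.sum_apply]
  set W := V.comap L with hW
  have hWV : Module.finrank ℚ W ≤ Module.finrank ℚ V := by
    have h1 := (Submodule.equivMapOfInjective L hLinj W).finrank_eq
    rw [h1]
    exact Submodule.finrank_mono (Submodule.map_comap_le L V)
  obtain ⟨J, hJ, hJ'⟩ := exists_coord_inj W
  have hinj : ∀ m ∈ E1, ∀ m' ∈ E1, (∀ q ∈ J, m.2 q = m'.2 q) → D.z m = D.z m' := by
    intro m hm m' hm' hq
    have h1 : (fun q => (m.2 q : ℚ)) - (fun q => (m'.2 q : ℚ)) ∈ W := by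
      rw [hW, Submodule.mem_comap, map_sub, hLz m hm, hLz m' hm']
      exact V.sub_mem (hE1 m hm).2 (hE1 m' hm').2
    have h2 := hJ' _ h1 (fun q hqJ => by
      rw [Pi.sub_apply, hq q hqJ, sub_self])
    rw [← hLz m hm, ← hLz m' hm', sub_eq_zero.1 h2]
  set P : Finset (J → ℤ) :=
    Fintype.piFinset (fun _ => Finset.Icc (-((y - 1 : ℕ) : ℤ)) ((y - 1 : ℕ) : ℤ)) with hP
  have hPcard : P.card = (2 * y - 1) ^ J.card := by
    rw [hP, Fintype.card_piFinset, Finset.prod_const, Int.card_Icc, Finset.card_univ,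
      Fintype.card_coe]
    congr 1
    omega
  have hsec : ∀ w ∈ E1.image D.z, ∃ m ∈ E1, D.z m = w := fun w hw => Finset.mem_image.1 hw
  choose! sec hsec1 hsec2 using hsec
  have hle : (E1.image D.z).card ≤ P.card := by
    apply Finset.card_le_card_of_injOn (fun w => fun q : J => (sec w).2 q)
    · intro w hw
      rw [hP, Finset.mem_coe, Fintype.mem_piFinset]
      intro q
      have h1 := (D.sm_of_mem_sub x y _ (hE1 _ (hsec1 w hw)).1).2.2 q
      rw [Finset.mem_Icc]
      exact abs_le.1 h1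
    · intro w hw w' hw' hww
      have h1 := hinj _ (hsec1 w hw) _ (hsec1 w' hw') (fun q hq => congrFun hww ⟨q, hq⟩)
      rw [hsec2 w hw, hsec2 w' hw'] at h1
      exact h1
  have hd : 0 < Module.finrank ℚ V := by
    rw [Module.finrank_pos_iff, Submodule.nontrivial_iff_ne_bot]
    exact hV
  have h3 : (2 * y - 1) ^ J.card ≤ (2 * y - 1) ^ Module.finrank ℚ V :=
    Nat.pow_le_pow_right (by omega) (hJ.trans hWV)
  have h4 : (2 * y - 1) ^ Module.finrank ℚ V < T ^ Module.finrank ℚ V :=
    Nat.pow_lt_pow_left (by omega) hd.ne'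
  have h5 : T ^ Module.finrank ℚ V ≤ (E1.image D.z).card := by exact_mod_cast hcard
  rw [hPcard] at hle
  omega

end Pool.Agent.MP_f02ea4.QR
end

section

/-!
# The maximal subspace

`exists_max_subspace`: for a finite set `Om` on which the homomorphism `z` is injective and which has more than
`T ^ |U|` elements, there is a nonzero subspace `V` such that `(Om - Om) ∩ z⁻¹ V` has at least
`T ^ (dim V - dim V')` classes modulo every proper subspace `V'` of `V`.
-/

set_option autoImplicit false

open Finset Module Pointwise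

namespace Pool.Agent.MP_f02ea4.QR

/-- Cauchy-Schwarz refinement: if each class of `f` splits into at most `M` classes of `g`. -/
theorem card_pairs_le {α β γ : Type*} [DecidableEq α] [DecidableEq β] [DecidableEq γ]
    (s : Finset α) (f : α → β) (g : α → γ) (M : ℕ)
    (hM : ∀ b, ((s.filter (fun a => f a = b)).image g).card ≤ M) :
    ((s ×ˢ s).filter (fun p => f p.1 = f p.2)).card ≤
      M * ((s ×ˢ s).filter (fun p => f p.1 = f p.2 ∧ g p.1 = g p.2)).card := by
  classical
  -- sums over classes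
  have h1 : ((s ×ˢ s).filter (fun p => f p.1 = f p.2)).card =
      ∑ b ∈ s.image f, (s.filter (fun a => f a = b)).card ^ 2 := by
    rw [Finset.card_eq_sum_card_fiberwise (f := fun p : α × α => f p.1) (t := s.image f)]
    · refine Finset.sum_congr rfl fun b hb => ?_
      rw [sq, ← Finset.card_product]
      congr 1
      ext p
      simp only [mem_filter, mem_product]
      constructor
      · rintro ⟨⟨⟨h1, h2⟩, h3⟩, h4⟩
        exact ⟨⟨h1, h4⟩, ⟨h2, h3 ▸ h4⟩⟩
      · rintro ⟨⟨h1, h4⟩, ⟨h2, h3⟩⟩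
        exact ⟨⟨⟨h1, h2⟩, h4.trans h3.symm⟩, h4⟩
    · intro p hp
      simp only [coe_filter, mem_product, Set.mem_ofPred_eq] at hp
      simp only [coe_image, Set.mem_image, mem_coe]
      exact ⟨p.1, hp.1.1, rfl⟩
  have h2 : ((s ×ˢ s).filter (fun p => f p.1 = f p.2 ∧ g p.1 = g p.2)).card =
      ∑ b ∈ s.image f, ∑ c ∈ (s.filter (fun a => f a = b)).image g,
        ((s.filter (fun a => f a = b)).filter (fun a => g a = c)).card ^ 2 := by
    rw [Finset.card_eq_sum_card_fiberwise (f := fun p : α × α => f p.1) (t := s.image f)]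
    · refine Finset.sum_congr rfl fun b hb => ?_
      rw [Finset.card_eq_sum_card_fiberwise (f := fun p : α × α => g p.1)
        (t := (s.filter (fun a => f a = b)).image g)]
      · refine Finset.sum_congr rfl fun c hc => ?_
        rw [sq, ← Finset.card_product]
        congr 1
        ext p
        simp only [mem_filter, mem_product]
        constructor
        · rintro ⟨⟨⟨⟨h1, h2⟩, h3, h5⟩, h4⟩, h6⟩
          exact ⟨⟨⟨h1, h4⟩, h6⟩, ⟨⟨h2, h3 ▸ h4⟩, h5 ▸ h6⟩⟩
        · rintro ⟨⟨⟨h1, h4⟩, h6⟩, ⟨⟨h2, h3⟩, h5⟩⟩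
          exact ⟨⟨⟨⟨h1, h2⟩, h4.trans h3.symm, h6.trans h5.symm⟩, h4⟩, h6⟩
      · intro p hp
        simp only [coe_filter, mem_product, Set.mem_ofPred_eq, mem_filter] at hp
        simp only [coe_image, Set.mem_image, mem_coe, mem_filter]
        exact ⟨p.1, ⟨hp.1.1.1, hp.2⟩, rfl⟩
    · intro p hp
      simp only [coe_filter, mem_product, Set.mem_ofPred_eq] at hp
      simp only [coe_image, Set.mem_image, mem_coe]
      exact ⟨p.1, hp.1.1, rfl⟩
  rw [h1, h2, Finset.mul_sum]
  refine Finset.sum_le_sum fun b hb => ?_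
  set sb := s.filter (fun a => f a = b) with hsb
  have h3 : sb.card = ∑ c ∈ sb.image g, (sb.filter (fun a => g a = c)).card :=
    Finset.card_eq_sum_card_image g sb
  calc sb.card ^ 2 = (∑ c ∈ sb.image g, (sb.filter (fun a => g a = c)).card) ^ 2 := by rw [← h3]
    _ ≤ (sb.image g).card * ∑ c ∈ sb.image g, (sb.filter (fun a => g a = c)).card ^ 2 :=
        sq_sum_le_card_mul_sum_sq
    _ ≤ M * ∑ c ∈ sb.image g, (sb.filter (fun a => g a = c)).card ^ 2 :=
        Nat.mul_le_mul_right _ (hM b)

open Classical in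
theorem exists_max_subspace {U M : Type*} [Fintype U] [AddCommGroup M] [DecidableEq M]
    (z : M →+ (U → ℚ)) (Om : Finset M) (hinj : Set.InjOn z Om)
    (T : ℝ) (hT : 0 < T) (hOm : T ^ Fintype.card U < (Om.card : ℝ)) :
    ∃ V : Submodule ℚ (U → ℚ), V ≠ ⊥ ∧ ∀ V' : Submodule ℚ (U → ℚ), V' < V →
      T ^ (finrank ℚ V - finrank ℚ V') ≤
        ((((Om - Om).filter (fun m => z m ∈ V)).image (fun m => V'.mkQ (z m))).card : ℝ) := by
  classical
  have hne : Om.Nonempty := by
    rw [← Finset.card_pos]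
    exact_mod_cast lt_trans (pow_pos hT _) hOm
  -- the counting function
  set cnt : Submodule ℚ (U → ℚ) → ℕ := fun V =>
    ((Om ×ˢ Om).filter (fun p => V.mkQ (z p.1) = V.mkQ (z p.2))).card with hcnt
  set score : Submodule ℚ (U → ℚ) → ℝ := fun V => (cnt V : ℝ) * T ^ (Fintype.card U - finrank ℚ V)
    with hscore
  -- the set of scores is finite
  have hfin : (Set.range score).Finite := by
    have : Set.range score ⊆ ((Finset.range (Om.card * Om.card + 1)) ×ˢ
        (Finset.range (Fintype.card U + 1)) : Finset (ℕ × ℕ)).image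
          (fun p => (p.1 : ℝ) * T ^ (Fintype.card U - p.2)) := by
      rintro x ⟨V, rfl⟩
      simp only [coe_image, Set.mem_image, mem_coe, mem_product, Finset.mem_range]
      refine ⟨(cnt V, finrank ℚ V), ⟨?_, ?_⟩, rfl⟩
      · have : cnt V ≤ (Om ×ˢ Om).card := Finset.card_filter_le _ _
        rw [Finset.card_product] at this
        omega
      · have := Submodule.finrank_le V
        rw [Module.finrank_fintype_fun_eq_card] at this
        omega
    exact Set.Finite.subset (Finset.finite_toSet _) this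
  obtain ⟨x, ⟨V, rfl⟩, hmax⟩ := Set.exists_max_image (Set.range score) id hfin ⟨_, ⟨⊥, rfl⟩⟩
  have hmax' : ∀ V', score V' ≤ score V := fun V' => hmax _ ⟨V', rfl⟩
  have hcntpos : ∀ V', 0 < cnt V' := by
    intro V'
    obtain ⟨a, ha⟩ := hne
    apply Finset.card_pos.2
    exact ⟨(a, a), by simp [ha]⟩
  refine ⟨V, ?_, ?_⟩
  · rintro rfl
    have h1 := hmax' ⊤
    simp only [hscore] at h1
    have h2 : cnt ⊤ = Om.card * Om.card := by
      simp only [hcnt]
      rw [← Finset.card_product]
      congr 1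
      ext p
      simp only [mem_filter, Submodule.mkQ_apply, and_iff_left_iff_imp]
      intro _
      rw [Submodule.Quotient.eq]
      exact Submodule.mem_top
    have h3 : cnt ⊥ = Om.card := by
      simp only [hcnt]
      rw [← Finset.card_image_of_injOn (s := Om) (f := fun a => (a, a))]
      · congr 1
        ext p
        simp only [mem_filter, mem_product, mem_image, Submodule.mkQ_apply]
        rw [Submodule.Quotient.eq, Submodule.mem_bot, sub_eq_zero]
        constructor
        · rintro ⟨⟨h1, h2⟩, h3⟩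
          refine ⟨p.1, h1, ?_⟩
          rw [Prod.ext_iff]
          exact ⟨rfl, hinj h1 h2 h3⟩
        · rintro ⟨a, ha, rfl⟩
          exact ⟨⟨ha, ha⟩, rfl⟩
      · intro a _ b _ h
        exact (Prod.ext_iff.1 h).1
    rw [h2, h3, finrank_top, Module.finrank_fintype_fun_eq_card, finrank_bot, Nat.sub_self,
      pow_zero, mul_one, Nat.sub_zero] at h1
    push_cast at h1
    have h4 : (0 : ℝ) < Om.card := by
      exact_mod_cast Finset.card_pos.2 hne
    have h5 : (Om.card : ℝ) ≤ T ^ Fintype.card U := le_of_mul_le_mul_left h1 h4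
    linarith
  · intro V' hV'
    have hlt : finrank ℚ V' < finrank ℚ V := Submodule.finrank_lt_finrank_of_lt hV'
    have hle : finrank ℚ V ≤ Fintype.card U := by
      have := Submodule.finrank_le V
      rwa [Module.finrank_fintype_fun_eq_card] at this
    set MM := (((Om - Om).filter (fun m => z m ∈ V)).image (fun m => V'.mkQ (z m))).card with hMM
    have h1 := card_pairs_le Om (fun a => V.mkQ (z a)) (fun a => V'.mkQ (z a)) MM (by
      intro b
      by_cases hb : (Om.filter (fun a => V.mkQ (z a) = b)).Nonempty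
      · obtain ⟨a0, ha0⟩ := hb
        rw [mem_filter] at ha0
        rw [hMM]
        -- translate by -z a0
        have : (((Om.filter (fun a => V.mkQ (z a) = b)).image (fun a => V'.mkQ (z a))).image
            (fun y => y - V'.mkQ (z a0))) ⊆
            (((Om - Om).filter (fun m => z m ∈ V)).image (fun m => V'.mkQ (z m))) := by
          intro y hy
          simp only [mem_image, mem_filter] at hy
          obtain ⟨y', ⟨a, ⟨ha, hab⟩, rfl⟩, rfl⟩ := hy
          simp only [mem_image, mem_filter]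
          refine ⟨a - a0, ⟨Finset.sub_mem_sub ha ha0.1, ?_⟩, ?_⟩
          · rw [map_sub, ← Submodule.Quotient.eq, ← Submodule.mkQ_apply, ← Submodule.mkQ_apply,
              hab, ha0.2]
          · rw [map_sub, map_sub]
        refine le_trans (le_of_eq ?_) (Finset.card_le_card this)
        rw [Finset.card_image_of_injective _ (sub_left_injective)]
      · rw [Finset.not_nonempty_iff_eq_empty] at hb
        rw [hb]
        simp)
    have h2 : ((Om ×ˢ Om).filter (fun p => V.mkQ (z p.1) = V.mkQ (z p.2) ∧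
        V'.mkQ (z p.1) = V'.mkQ (z p.2))).card ≤ cnt V' := by
      apply Finset.card_le_card
      intro p hp
      rw [mem_filter] at hp ⊢
      exact ⟨hp.1, hp.2.2⟩
    have h3 : cnt V ≤ MM * cnt V' := h1.trans (Nat.mul_le_mul_left _ h2)
    have h4 := hmax' V'
    simp only [hscore] at h4
    have h5 : T ^ (Fintype.card U - finrank ℚ V') =
        T ^ (finrank ℚ V - finrank ℚ V') * T ^ (Fintype.card U - finrank ℚ V) := by
      rw [← pow_add]
      congr 1
      omega
    rw [h5] at h4
    have h6 : (0 : ℝ) < T ^ (Fintype.card U - finrank ℚ V) := pow_pos hT _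
    have h7 : (cnt V' : ℝ) * T ^ (finrank ℚ V - finrank ℚ V') ≤ cnt V := by
      have : ((cnt V' : ℝ) * T ^ (finrank ℚ V - finrank ℚ V')) *
          T ^ (Fintype.card U - finrank ℚ V) ≤ (cnt V : ℝ) * T ^ (Fintype.card U - finrank ℚ V) := by
        rw [mul_assoc]; exact h4
      exact le_of_mul_le_mul_right this h6
    have h8 : (cnt V : ℝ) ≤ MM * cnt V' := by exact_mod_cast h3
    have h9 : (0 : ℝ) < cnt V' := by exact_mod_cast hcntpos V'
    have h10 : (cnt V' : ℝ) * T ^ (finrank ℚ V - finrank ℚ V') ≤ cnt V' * MM := by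
      linarith [mul_comm (MM : ℝ) (cnt V')]
    exact le_of_mul_le_mul_left h10 h9

end Pool.Agent.MP_f02ea4.QR
end

section

/-!
# Coordinates of a subspace given by a maximal minor
-/

set_option autoImplicit false

open Finset Module Pointwise

namespace Pool.Agent.MP_f02ea4.QR

theorem exists_det_ne_zero {U : Type*} [Fintype U] (V : Submodule ℚ (U → ℚ)) {d : ℕ}
    (b : Basis (Fin d) ℚ V) :
    ∃ J : Fin d → U, Matrix.det (fun i j : Fin d => (b i : U → ℚ) (J j)) ≠ 0 := by
  classical
  set φ : U → Module.Dual ℚ V := fun u => (LinearMap.proj u : (U → ℚ) →ₗ[ℚ] ℚ) ∘ₗ V.subtype with hφ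
  have hspan : Submodule.span ℚ (Set.range φ) = ⊤ := by
    have h0 : (Submodule.span ℚ (Set.range φ)).dualCoannihilator = ⊥ := by
      rw [eq_bot_iff]
      intro v hv
      rw [Submodule.mem_dualCoannihilator] at hv
      rw [Submodule.mem_bot]
      ext u
      exact hv (φ u) (Submodule.subset_span ⟨u, rfl⟩)
    have h1 := Subspace.dualCoannihilator_dualAnnihilator_eq (W := Submodule.span ℚ (Set.range φ))
    rw [h0] at h1
    rw [← h1]
    exact Submodule.dualAnnihilator_bot
  obtain ⟨κ, a, ha, hs, hli⟩ := exists_linearIndependent' ℚ φ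
  rw [hspan] at hs
  let c : Basis κ ℚ (Module.Dual ℚ V) := Basis.mk hli (by rw [hs])
  let e : κ ≃ Fin d := c.indexEquiv b.dualBasis
  refine ⟨a ∘ e.symm, ?_⟩
  have h2 : IsUnit (b.dualBasis.det (φ ∘ (a ∘ e.symm))) := by
    rw [← Module.Basis.is_basis_iff_det]
    constructor
    · rw [← Function.comp_assoc]
      exact hli.comp _ e.symm.injective
    · rw [← Function.comp_assoc, Set.range_comp, e.symm.surjective.range_eq, Set.image_univ]
      exact hs
  have h3 : b.dualBasis.det (φ ∘ (a ∘ e.symm)) =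
      Matrix.det (fun i j : Fin d => (b i : U → ℚ) ((a ∘ e.symm) j)) := by
    rw [Module.Basis.det_apply]
    congr 1
    ext i j
    rw [Module.Basis.toMatrix_apply, Module.Basis.dualBasis_repr]
    rfl
  rw [← h3]
  exact h2.ne_zero

theorem exists_minor {U : Type*} [Fintype U] (V : Submodule ℚ (U → ℚ)) :
    ∃ (J : Fin (finrank ℚ V) → U) (A : U → Fin (finrank ℚ V) → ℚ), Function.Injective J ∧
      (∀ r j, |A r j| ≤ 1) ∧ ∀ v ∈ V, ∀ r, v r = ∑ j, A r j * v (J j) := by
  classical
  set d := finrank ℚ V with hd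
  let b : Basis (Fin d) ℚ V := Module.finBasisOfFinrankEq ℚ V hd.symm
  let Mt : (Fin d → U) → Matrix (Fin d) (Fin d) ℚ := fun J i j => (b i : U → ℚ) (J j)
  obtain ⟨J0, hJ0⟩ := exists_det_ne_zero V b
  obtain ⟨J, -, hJ⟩ := Finset.exists_max_image (Finset.univ : Finset (Fin d → U))
    (fun J => |(Mt J).det|) ⟨J0, Finset.mem_univ _⟩
  have hdet : (Mt J).det ≠ 0 := by
    have h1 := hJ J0 (Finset.mem_univ _)
    have h2 : 0 < |(Mt J0).det| := abs_pos.2 hJ0
    exact abs_pos.1 (lt_of_lt_of_le h2 h1)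
  have hunit : IsUnit (Mt J).det := hdet.isUnit
  let A : U → Fin d → ℚ := fun r j => (Mt (Function.update J j r)).det / (Mt J).det
  have hA : ∀ r i, (b i : U → ℚ) r = ∑ j, A r j * (b i : U → ℚ) (J j) := by
    intro r i
    have h1 := congrFun (Matrix.mulVec_cramer (Mt J) (fun i => (b i : U → ℚ) r)) i
    rw [Matrix.mulVec, dotProduct] at h1
    simp only [Pi.smul_apply, smul_eq_mul] at h1
    have h2 : ∀ j, Matrix.cramer (Mt J) (fun i => (b i : U → ℚ) r) j =
        (Mt (Function.update J j r)).det := by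
      intro j
      rw [Matrix.cramer_apply]
      congr 1
      ext i' j'
      rw [Matrix.updateCol_apply]
      by_cases h : j' = j
      · subst h
        simp [Mt]
      · simp [Mt, h]
    have h3 : ∑ j, A r j * (b i : U → ℚ) (J j) =
        (∑ j, Mt J i j * Matrix.cramer (Mt J) (fun i => (b i : U → ℚ) r) j) / (Mt J).det := by
      rw [Finset.sum_div]
      refine Finset.sum_congr rfl fun j _ => ?_
      rw [h2]
      simp only [A, Mt]
      ring
    rw [h3, h1]
    field_simp
  refine ⟨J, A, ?_, ?_, ?_⟩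
  · intro j1 j2 h12
    by_contra hne
    apply hdet
    apply Matrix.det_zero_of_column_eq hne
    intro i
    simp only [Mt]
    rw [h12]
  · intro r j
    simp only [A]
    rw [abs_div]
    exact div_le_one_of_le₀ (hJ _ (Finset.mem_univ _)) (abs_nonneg _)
  · intro v hv r
    have h1 : v = ∑ i, (b.repr ⟨v, hv⟩ i) • (b i : U → ℚ) := by
      have := congrArg (Subtype.val) (b.sum_repr ⟨v, hv⟩)
      simp only [Submodule.coe_sum, Submodule.coe_smul] at this
      exact this.symm
    rw [h1]
    simp only [Finset.sum_apply, Pi.smul_apply, smul_eq_mul]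
    rw [Finset.sum_congr rfl fun i _ => by rw [hA r i]]
    simp only [Finset.mul_sum]
    rw [Finset.sum_comm]
    refine Finset.sum_congr rfl fun j _ => Finset.sum_congr rfl fun i _ => ?_
    ring

theorem card_image_le_of_imp {α β γ : Type*} [DecidableEq β] [DecidableEq γ] (s : Finset α)
    (f : α → β) (g : α → γ) (h : ∀ a ∈ s, ∀ b ∈ s, g a = g b → f a = f b) :
    (s.image f).card ≤ (s.image g).card := by
  classical
  rcases s.eq_empty_or_nonempty with rfl | ⟨a0, ha0⟩
  · simp
  · let k : γ → β := fun c => if hc : ∃ a ∈ s, g a = c then f hc.choose else f a0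
    refine Finset.card_le_card_of_surjOn k ?_
    intro y hy
    simp only [coe_image, Set.mem_image, mem_coe] at hy
    obtain ⟨a, ha, rfl⟩ := hy
    refine ⟨g a, by simpa using ⟨a, ha, rfl⟩, ?_⟩
    have hc : ∃ b ∈ s, g b = g a := ⟨a, ha, rfl⟩
    simp only [k, dif_pos hc]
    exact h _ hc.choose_spec.1 _ ha hc.choose_spec.2

open Classical in
theorem exists_max_coord {U M : Type*} [Fintype U] [AddCommGroup M] [DecidableEq M]
    (z : M →+ (U → ℚ)) (Om : Finset M) (hinj : Set.InjOn z Om)
    (T : ℝ) (hT : 0 < T) (hOm : T ^ Fintype.card U < (Om.card : ℝ)) :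
    ∃ (d : ℕ) (V : Submodule ℚ (U → ℚ)) (J : Fin d → U) (A : U → Fin d → ℚ),
      1 ≤ d ∧ d ≤ Fintype.card U ∧ Function.Injective J ∧ (∀ r j, |A r j| ≤ 1) ∧
      finrank ℚ V = d ∧ (∀ v ∈ V, ∀ r, v r = ∑ j, A r j * v (J j)) ∧
      ∀ V' : Submodule ℚ (Fin d → ℚ), V' ≠ ⊤ →
        T ^ (d - finrank ℚ V') ≤
          ((((Om - Om).filter (fun m => z m ∈ V)).image
            (fun m => V'.mkQ (fun j => z m (J j)))).card : ℝ) := by
  obtain ⟨V, hV0, hV⟩ := exists_max_subspace z Om hinj T hT hOm
  obtain ⟨J, A, hJ, hA, hAV⟩ := exists_minor V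
  have hd1 : 1 ≤ finrank ℚ V := by
    rw [Nat.one_le_iff_ne_zero]
    intro h0
    exact hV0 (Submodule.finrank_eq_zero.1 h0)
  have hd2 : finrank ℚ V ≤ Fintype.card U := by
    have := Submodule.finrank_le V
    rwa [Module.finrank_fintype_fun_eq_card] at this
  refine ⟨finrank ℚ V, V, J, A, hd1, hd2, hJ, hA, rfl, hAV, ?_⟩
  intro V' hV'
  -- the projection to the coordinates `J`
  let pr : (U → ℚ) →ₗ[ℚ] (Fin (finrank ℚ V) → ℚ) := LinearMap.funLeft ℚ ℚ J
  have hprV : Function.Injective (pr ∘ₗ V.subtype) := by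
    rw [← LinearMap.ker_eq_bot, LinearMap.ker_eq_bot']
    intro v hv
    ext r
    rw [hAV v v.2 r]
    have : ∀ j, (v : U → ℚ) (J j) = 0 := fun j => congrFun hv j
    simp [this]
  let eq : V ≃ₗ[ℚ] (Fin (finrank ℚ V) → ℚ) :=
    LinearEquiv.ofInjectiveOfFinrankEq (pr ∘ₗ V.subtype) hprV (by
      rw [Module.finrank_fintype_fun_eq_card, Fintype.card_fin])
  have heq : ∀ v : V, eq v = pr (v : U → ℚ) := fun v => rfl
  let W : Submodule ℚ (U → ℚ) := (V'.comap (eq : V →ₗ[ℚ] (Fin (finrank ℚ V) → ℚ))).map V.subtype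
  have hWV : W ≤ V := by
    rintro _ ⟨v, -, rfl⟩
    exact v.2
  have hmemW : ∀ v ∈ V, v ∈ W ↔ pr v ∈ V' := by
    intro v hv
    constructor
    · rintro ⟨w, hw, rfl⟩
      exact hw
    · intro h
      exact ⟨⟨v, hv⟩, h, rfl⟩
  have hWfin : finrank ℚ W = finrank ℚ V' := by
    have h1 : finrank ℚ W = finrank ℚ (V'.comap (eq : V →ₗ[ℚ] (Fin (finrank ℚ V) → ℚ))) :=
      Submodule.finrank_map_subtype_eq _ _
    rw [h1, Submodule.comap_equiv_eq_map_symm]
    exact LinearEquiv.finrank_map_eq eq.symm V'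
  have hWlt : W < V := by
    refine lt_of_le_of_ne hWV ?_
    intro h
    have h1 : finrank ℚ V' < finrank ℚ (Fin (finrank ℚ V) → ℚ) := Submodule.finrank_lt hV'
    rw [Module.finrank_fintype_fun_eq_card, Fintype.card_fin] at h1
    rw [h] at hWfin
    omega
  have h1 := hV W hWlt
  rw [hWfin] at h1
  refine h1.trans ?_
  have h2 := card_image_le_of_imp ((Om - Om).filter (fun m => z m ∈ V)) (fun m => W.mkQ (z m))
    (fun m => V'.mkQ (fun j => z m (J j))) (by
      intro a ha b hb hab
      rw [mem_filter] at ha hb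
      simp only [Submodule.mkQ_apply] at hab ⊢
      rw [Submodule.Quotient.eq] at hab ⊢
      rw [hmemW _ (V.sub_mem ha.2 hb.2)]
      exact hab)
  exact_mod_cast h2

end Pool.Agent.MP_f02ea4.QR
end

section

/-!
# The zero estimate, 1: the Hilbert function of an ideal

`hilb I t` is the dimension of the space of polynomials of total degree at most `t` modulo `I`.
-/

set_option autoImplicit false

namespace Pool.Agent.MP_f02ea4.QR

open MvPolynomial Module

variable {d : ℕ}

/-- The dimension of the space of polynomials of total degree at most `t` modulo `I`. -/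
noncomputable def hilb (I : Ideal (MvPolynomial (Fin d) ℚ)) (t : ℕ) : ℕ :=
  finrank ℚ (Submodule.map (Ideal.Quotient.mkₐ ℚ I).toLinearMap (restrictTotalDegree (Fin d) ℚ t))

lemma hilb_mono {I J : Ideal (MvPolynomial (Fin d) ℚ)} (h : I ≤ J) (t : ℕ) :
    hilb J t ≤ hilb I t := by
  have : Submodule.map (Ideal.Quotient.mkₐ ℚ J).toLinearMap (restrictTotalDegree (Fin d) ℚ t) =
      Submodule.map (Ideal.Quotient.factorₐ ℚ h).toLinearMap
        (Submodule.map (Ideal.Quotient.mkₐ ℚ I).toLinearMap (restrictTotalDegree (Fin d) ℚ t)) := by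
    rw [← Submodule.map_comp]
    congr 1
  rw [hilb, hilb, this]
  exact Submodule.finrank_map_le _ _

lemma hilb_mono_right (I : Ideal (MvPolynomial (Fin d) ℚ)) {s t : ℕ} (h : s ≤ t) :
    hilb I s ≤ hilb I t := by
  apply Submodule.finrank_mono
  apply Submodule.map_mono
  intro p hp
  rw [mem_restrictTotalDegree] at hp ⊢
  omega

/-- A non zero divisor of degree at most `T` costs the Hilbert function `hilb K (t - T)`. -/
lemma hilb_add_le {K J : Ideal (MvPolynomial (Fin d) ℚ)} (hKJ : K ≤ J)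
    {G : MvPolynomial (Fin d) ℚ} (hG : G ∈ J) (hK : ∀ f, G * f ∈ K → f ∈ K) {T s : ℕ}
    (hT : G.totalDegree ≤ T) : hilb J (s + T) + hilb K s ≤ hilb K (s + T) := by
  set fK := (Ideal.Quotient.mkₐ ℚ K).toLinearMap with hfK
  set g := (Ideal.Quotient.factorₐ ℚ hKJ).toLinearMap with hg
  set M := Submodule.map fK (restrictTotalDegree (Fin d) ℚ (s + T)) with hM
  have h1 : Submodule.map (Ideal.Quotient.mkₐ ℚ J).toLinearMap
      (restrictTotalDegree (Fin d) ℚ (s + T)) = Submodule.map g M := by
    rw [hM, ← Submodule.map_comp]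
    congr 1
  have h2 := LinearMap.finrank_range_add_finrank_ker (g.domRestrict M)
  have h3 : LinearMap.range (g.domRestrict M) = Submodule.map g M := by
    rw [LinearMap.range_domRestrict]
  rw [h3] at h2
  set mG : (MvPolynomial (Fin d) ℚ ⧸ K) →ₗ[ℚ] (MvPolynomial (Fin d) ℚ ⧸ K) :=
    LinearMap.mulLeft ℚ (Ideal.Quotient.mk K G) with hmG
  have hinj : Function.Injective mG := by
    intro x y hxy
    obtain ⟨x, rfl⟩ := Ideal.Quotient.mk_surjective x
    obtain ⟨y, rfl⟩ := Ideal.Quotient.mk_surjective y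
    rw [hmG, LinearMap.mulLeft_apply, LinearMap.mulLeft_apply, ← map_mul, ← map_mul,
      Ideal.Quotient.mk_eq_mk_iff_sub_mem, ← mul_sub] at hxy
    rw [Ideal.Quotient.mk_eq_mk_iff_sub_mem]
    exact hK _ hxy
  set N := Submodule.map fK (restrictTotalDegree (Fin d) ℚ s) with hN
  have h4 : finrank ℚ (Submodule.map mG N) = finrank ℚ N :=
    (Submodule.equivMapOfInjective mG hinj N).finrank_eq.symm
  have h5 : Submodule.map mG N ≤ M := by
    rintro _ ⟨_, ⟨p, hp, rfl⟩, rfl⟩
    refine ⟨G * p, ?_, ?_⟩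
    · rw [SetLike.mem_coe, mem_restrictTotalDegree] at hp ⊢
      exact (totalDegree_mul _ _).trans (by omega)
    · simp [hfK, hmG]
  have h6 : ∀ x ∈ Submodule.map mG N, g x = 0 := by
    rintro _ ⟨_, ⟨p, hp, rfl⟩, rfl⟩
    have : g (mG (fK p)) = Ideal.Quotient.mk J (G * p) := by
      simp [hfK, hmG, hg]
    rw [this, Ideal.Quotient.eq_zero_iff_mem]
    exact Ideal.mul_mem_right _ _ hG
  have h7 : finrank ℚ (Submodule.map mG N) ≤ finrank ℚ (LinearMap.ker (g.domRestrict M)) := by
    have h8 : Submodule.map mG N ≤ Submodule.map M.subtype (LinearMap.ker (g.domRestrict M)) := by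
      intro x hx
      refine ⟨⟨x, h5 hx⟩, ?_, rfl⟩
      rw [SetLike.mem_coe, LinearMap.mem_ker]
      exact h6 x hx
    have h9 := Submodule.finrank_mono h8
    exact h9.trans (Submodule.finrank_map_le _ _)
  have h10 : hilb J (s + T) = finrank ℚ (Submodule.map g M) := by rw [hilb, h1]
  have h11 : hilb K (s + T) = finrank ℚ M := rfl
  have h12 : hilb K s = finrank ℚ N := rfl
  rw [h10, h11, h12]
  omega

end Pool.Agent.MP_f02ea4.QR
end

section

set_option autoImplicit false

namespace Pool.Agent.MP_f02ea4.QR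

open MvPolynomial Module

variable {d : ℕ}

/-- A space of polynomials is not the union of its intersections with finitely many ideals none of
which contains it. -/
lemma exists_mem_forall_notMem (A : Submodule ℚ (MvPolynomial (Fin d) ℚ))
    (s : Finset (Ideal (MvPolynomial (Fin d) ℚ)))
    (h : ∀ p ∈ s, ¬ (A : Set (MvPolynomial (Fin d) ℚ)) ⊆ p) :
    ∃ G ∈ A, ∀ p ∈ s, G ∉ p := by
  classical
  by_contra hcon
  push Not at hcon
  have hcov : ⋃ q ∈ s.image (fun p : Ideal (MvPolynomial (Fin d) ℚ) =>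
      (Submodule.comap A.subtype (p.restrictScalars ℚ) : Submodule ℚ A)), (q : Set A) =
      Set.univ := by
    apply Set.eq_univ_of_forall
    intro x
    obtain ⟨p, hp, hxp⟩ := hcon x.1 x.2
    simp only [Finset.mem_image, Set.mem_iUnion]
    exact ⟨_, ⟨p, hp, rfl⟩, hxp⟩
  refine Subspace.biUnion_ne_univ_of_top_notMem (k := ℚ) (E := A) ?_ hcov
  intro htop
  rw [Finset.mem_image] at htop
  obtain ⟨p, hp, hpt⟩ := htop
  refine h p hp ?_
  intro x hx
  have hm : (⟨x, hx⟩ : A) ∈ Submodule.comap A.subtype (p.restrictScalars ℚ) := by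
    rw [hpt]; trivial
  exact hm

/-- The minimal primes over `i` generators have height at most `i`. -/
lemma height_le_of_mem_minimalPrimes (G : ℕ → MvPolynomial (Fin d) ℚ) (i : ℕ)
    {p : Ideal (MvPolynomial (Fin d) ℚ)}
    (hp : p ∈ (Ideal.span (G '' Set.Iio i)).minimalPrimes) : p.height ≤ (i : ℕ∞) := by
  have h1 := Ideal.height_le_card_of_mem_minimalPrimes_span
    ((Set.finite_Iio i).image G) hp
  refine h1.trans ?_
  have h2 : (G '' Set.Iio i).ncard ≤ (Set.Iio i).ncard := Set.ncard_image_le (Set.finite_Iio i)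
  have h3 : (Set.Iio i).ncard = i := by
    rw [Set.ncard_eq_toFinset_card' (Set.Iio i)]
    simp
  exact_mod_cast h2.trans h3.le

lemma image_Iio_succ (G : ℕ → MvPolynomial (Fin d) ℚ) (i : ℕ) :
    G '' Set.Iio (i + 1) = insert (G i) (G '' Set.Iio i) := by
  rw [← Set.image_insert_eq]
  congr 1
  ext x
  simp only [Set.mem_Iio, Set.mem_insert_iff]
  omega

/-- The next element lies in no minimal prime of the previous ones. -/
lemma notMem_of_mem_minimalPrimes (G : ℕ → MvPolynomial (Fin d) ℚ) (i : ℕ)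
    (h : ((i + 1 : ℕ) : ℕ∞) ≤ (Ideal.span (G '' Set.Iio (i + 1))).height)
    {p : Ideal (MvPolynomial (Fin d) ℚ)}
    (hp : p ∈ (Ideal.span (G '' Set.Iio i)).minimalPrimes) : G i ∉ p := by
  intro hG
  have h1 : Ideal.span (G '' Set.Iio (i + 1)) ≤ p := by
    rw [image_Iio_succ, Ideal.span_le, Set.insert_subset_iff]
    exact ⟨hG, Ideal.span_le.1 hp.1.2⟩
  have h2 := h.trans ((Ideal.height_mono h1).trans (height_le_of_mem_minimalPrimes G i hp))
  have h3 := Nat.cast_le.1 h2
  omega

/-- Generic elements of a space which generates an ideal of height at least `c`. -/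
lemma exists_generic (A : Submodule ℚ (MvPolynomial (Fin d) ℚ)) (c : ℕ)
    (hc : (c : ℕ∞) ≤ (Ideal.span (A : Set (MvPolynomial (Fin d) ℚ))).height) :
    ∃ G : ℕ → MvPolynomial (Fin d) ℚ, (∀ i < c, G i ∈ A) ∧
      ∀ i ≤ c, (i : ℕ∞) ≤ (Ideal.span (G '' Set.Iio i)).height := by
  classical
  induction c with
  | zero =>
    refine ⟨fun _ => 0, fun i hi => absurd hi (by omega), fun i hi => ?_⟩
    have : i = 0 := by omega
    subst this
    exact bot_le
  | succ c ih =>
    obtain ⟨G, hGA, hGh⟩ := ih (le_trans (by exact_mod_cast Nat.le_succ c) hc)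
    set I := Ideal.span (G '' Set.Iio c) with hI
    have hfin : I.minimalPrimes.Finite :=
      Ideal.finite_minimalPrimes_of_isNoetherianRing (MvPolynomial (Fin d) ℚ) I
    obtain ⟨g, hgA, hg⟩ := exists_mem_forall_notMem A hfin.toFinset (by
      intro p hp hAp
      rw [Set.Finite.mem_toFinset] at hp
      have h1 : Ideal.span (A : Set (MvPolynomial (Fin d) ℚ)) ≤ p := Ideal.span_le.2 hAp
      have h2 := hc.trans ((Ideal.height_mono h1).trans (height_le_of_mem_minimalPrimes G c hp))
      have h3 := Nat.cast_le.1 h2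
      omega)
    set G' := Function.update G c g with hG'
    have himg : ∀ i ≤ c, G' '' Set.Iio i = G '' Set.Iio i := by
      intro i hi
      apply Set.image_congr
      intro j hj
      rw [hG', Function.update_of_ne]
      have := Set.mem_Iio.1 hj
      omega
    have hG'c : G' c = g := by rw [hG', Function.update_self]
    refine ⟨G', ?_, ?_⟩
    · intro i hi
      rcases Nat.lt_succ_iff_lt_or_eq.1 hi with h | h
      · rw [hG', Function.update_of_ne (by omega)]
        exact hGA i h
      · subst h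
        rw [hG'c]
        exact hgA
    · intro i hi
      rcases Nat.le_succ_iff.1 hi with h | h
      · rw [himg i h]
        exact hGh i h
      · subst h
        rw [Ideal.height_eq_inf_minimalPrimes]
        refine le_iInf₂ ?_
        intro p' hp'
        have hp'prime : p'.IsPrime := hp'.1.1
        have hle : Ideal.span (G' '' Set.Iio (c + 1)) ≤ p' := hp'.1.2
        rw [image_Iio_succ, hG'c, himg c le_rfl] at hle
        have hIp : I ≤ p' := (Ideal.span_mono (Set.subset_insert _ _)).trans hle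
        have hgp : g ∈ p' := hle (Ideal.subset_span (Set.mem_insert _ _))
        obtain ⟨p, hp, hpp'⟩ := Ideal.exists_minimalPrimes_le hIp
        have hpprime : p.IsPrime := hp.1.1
        have hlt : p < p' := by
          refine lt_of_le_of_ne hpp' ?_
          intro heq
          exact hg p ((Set.Finite.mem_toFinset hfin).2 hp) (heq ▸ hgp)
        have h1 := Ideal.height_add_one_le_of_lt_of_isPrime hlt
        have h2 : (c : ℕ∞) ≤ p.height := (hGh c le_rfl).trans (Ideal.height_mono hp.1.2)
        calc ((c + 1 : ℕ) : ℕ∞) = (c : ℕ∞) + 1 := by push_cast; rfl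
          _ ≤ p.height + 1 := by gcongr
          _ ≤ p'.height := h1

/-- The inequality between the Hilbert functions of the radicals. -/
lemma generic_step (G : ℕ → MvPolynomial (Fin d) ℚ) (c T : ℕ)
    (hdeg : ∀ i < c, (G i).totalDegree ≤ T)
    (h : ∀ i ≤ c, (i : ℕ∞) ≤ (Ideal.span (G '' Set.Iio i)).height) {i : ℕ} (hi : i < c) (s : ℕ) :
    hilb (Ideal.span (G '' Set.Iio (i + 1))).radical (s + T) +
      hilb (Ideal.span (G '' Set.Iio i)).radical s ≤
        hilb (Ideal.span (G '' Set.Iio i)).radical (s + T) := by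
  refine hilb_add_le (G := G i) ?_ ?_ ?_ (hdeg i hi)
  · refine Ideal.radical_mono (Ideal.span_mono (Set.image_mono ?_))
    exact Set.Iio_subset_Iio (by omega)
  · refine Ideal.le_radical (Ideal.subset_span ⟨i, ?_, rfl⟩)
    exact Set.mem_Iio.2 (by omega)
  · intro f hf
    rw [← Ideal.sInf_minimalPrimes, Ideal.mem_sInf] at hf ⊢
    intro p hp
    have hpp : p.IsPrime := hp.1.1
    rcases hpp.mem_or_mem (hf hp) with h1 | h1
    · exact absurd h1 (notMem_of_mem_minimalPrimes G i (h (i + 1) (by omega)) hp)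
    · exact h1

end Pool.Agent.MP_f02ea4.QR
end

section

/-!
# The zero estimate, 2: telescoping sums of Hilbert functions
-/

set_option autoImplicit false

namespace Pool.Agent.MP_f02ea4.QR

open Finset

/-- `H t + H (t - T) + H (t - 2 T) + ...`. -/
def tel (T : ℕ) (H : ℕ → ℕ) (t : ℕ) : ℕ := ∑ j ∈ range (t / T + 1), H (t - j * T)

lemma tel_small {T : ℕ} (H : ℕ → ℕ) {t : ℕ} (ht : t < T) : tel T H t = H t := by
  rw [tel, Nat.div_eq_of_lt ht]
  simp

lemma tel_add {T : ℕ} (hT : 0 < T) (H : ℕ → ℕ) (t : ℕ) :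
    tel T H (t + T) = H (t + T) + tel T H t := by
  rw [tel, Nat.add_div_right _ hT, sum_range_succ', tel, add_comm]
  congr 1
  · simp
  · apply sum_congr rfl
    intro j _
    congr 1
    rw [add_mul, one_mul]
    omega

lemma tel_mono {T : ℕ} {H H' : ℕ → ℕ} (h : ∀ t, H t ≤ H' t) (t : ℕ) : tel T H t ≤ tel T H' t :=
  sum_le_sum fun _ _ => h _

lemma tel_iter_mono {T : ℕ} {H H' : ℕ → ℕ} (h : ∀ t, H t ≤ H' t) (k : ℕ) :
    ∀ t, (tel T)^[k] H t ≤ (tel T)^[k] H' t := by
  induction k with
  | zero => exact h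
  | succ k ih =>
    intro t
    rw [Function.iterate_succ_apply', Function.iterate_succ_apply']
    exact tel_mono ih t

lemma tel_le {T : ℕ} (hT : 0 < T) {H H' : ℕ → ℕ} (h : ∀ s, H' (s + T) + H s ≤ H (s + T))
    (h' : ∀ t, H' t ≤ H t) (t : ℕ) : tel T H' t ≤ H t := by
  induction t using Nat.strong_induction_on with
  | _ t ih =>
    rcases lt_or_ge t T with ht | ht
    · rw [tel_small _ ht]
      exact h' t
    · obtain ⟨s, rfl⟩ := Nat.exists_eq_add_of_le' ht
      rw [tel_add hT]
      have := ih s (by omega)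
      have := h s
      omega

lemma tel_chain {T : ℕ} (hT : 0 < T) (H : ℕ → ℕ → ℕ) (c : ℕ)
    (h : ∀ i < c, ∀ s, H (i + 1) (s + T) + H i s ≤ H i (s + T))
    (h' : ∀ i < c, ∀ t, H (i + 1) t ≤ H i t) : ∀ t, (tel T)^[c] (H c) t ≤ H 0 t := by
  induction c with
  | zero => intro t; exact le_rfl
  | succ c ih =>
    intro t
    rw [Function.iterate_succ_apply]
    refine (tel_iter_mono (T := T) (H' := H c) (fun t => ?_) c t).trans
      (ih (fun i hi => h i (by omega)) (fun i hi => h' i (by omega)) t)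
    exact tel_le hT (h c (by omega)) (h' c (by omega)) t

lemma tel_smul (T a : ℕ) (H : ℕ → ℕ) : tel T (fun t => a * H t) = fun t => a * tel T H t := by
  funext t
  rw [tel, tel, mul_sum]

lemma tel_iter_smul (T a : ℕ) (H : ℕ → ℕ) (k : ℕ) :
    (tel T)^[k] (fun t => a * H t) = fun t => a * (tel T)^[k] H t := by
  induction k with
  | zero => rfl
  | succ k ih => rw [Function.iterate_succ_apply', ih, tel_smul, ← Function.iterate_succ_apply' (tel T)]

lemma tel_shift {T : ℕ} (_hT : 0 < T) (H : ℕ → ℕ) (u t : ℕ) :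
    tel T (fun t => H (t + u)) t ≤ tel T H (t + u) := by
  rw [tel, tel]
  have h1 : t / T + 1 ≤ (t + u) / T + 1 := by
    have := Nat.div_le_div_right (c := T) (Nat.le_add_right t u)
    omega
  refine le_trans (le_of_eq ?_) (sum_le_sum_of_subset (range_subset_range.2 h1))
  apply sum_congr rfl
  intro j hj
  rw [mem_range] at hj
  have : j * T ≤ t := by
    have h2 : j ≤ t / T := by omega
    calc j * T ≤ t / T * T := Nat.mul_le_mul_right _ h2
      _ ≤ t := Nat.div_mul_le_self _ _
  congr 1
  omega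

lemma tel_iter_shift {T : ℕ} (hT : 0 < T) (H : ℕ → ℕ) (u k : ℕ) :
    ∀ t, (tel T)^[k] (fun t => H (t + u)) t ≤ (tel T)^[k] H (t + u) := by
  induction k with
  | zero => intro t; exact le_rfl
  | succ k ih =>
    intro t
    rw [Function.iterate_succ_apply', Function.iterate_succ_apply']
    exact (tel_mono (T := T) ih t).trans (tel_shift hT _ u t)

/-- The number of monomials of degree at most `t` in `k` variables. -/
def bin (k t : ℕ) : ℕ := (t + k).choose k

lemma bin_zero (t : ℕ) : bin 0 t = 1 := by simp [bin]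

lemma bin_succ_zero (k : ℕ) : bin k 0 = 1 := by simp [bin]

lemma bin_succ (k t : ℕ) : bin (k + 1) (t + 1) = bin (k + 1) t + bin k (t + 1) := by
  unfold bin
  have : t + 1 + (k + 1) = (t + 1 + k) + 1 := by ring
  rw [this, Nat.choose_succ_succ]
  have : t + (k + 1) = t + 1 + k := by ring
  rw [this, add_comm]

lemma bin_mono (k : ℕ) {s t : ℕ} (h : s ≤ t) : bin k s ≤ bin k t :=
  Nat.choose_le_choose k (by omega)

lemma bin_pos (k t : ℕ) : 0 < bin k t := Nat.choose_pos (by omega)

lemma bin_add_le (k s m : ℕ) : bin (k + 1) (s + m) ≤ bin (k + 1) s + m * bin k (s + m) := by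
  induction m with
  | zero => simp
  | succ m ih =>
    rw [← add_assoc, bin_succ]
    have h1 : bin k (s + m) ≤ bin k (s + m + 1) := bin_mono k (by omega)
    calc bin (k + 1) (s + m) + bin k (s + m + 1)
        ≤ bin (k + 1) s + m * bin k (s + m) + bin k (s + m + 1) := by omega
      _ ≤ bin (k + 1) s + m * bin k (s + m + 1) + bin k (s + m + 1) := by
          have := Nat.mul_le_mul_left m h1
          omega
      _ = _ := by ring

lemma bin_le_tel {T : ℕ} (hT : 0 < T) (k t : ℕ) : bin (k + 1) t ≤ T * tel T (bin k) t := by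
  induction t using Nat.strong_induction_on with
  | _ t ih =>
    rcases lt_or_ge t T with ht | ht
    · rw [tel_small _ ht]
      have h1 := bin_add_le k 0 t
      rw [zero_add, bin_succ_zero] at h1
      have h2 := bin_pos k t
      have h3 : t * bin k t + 1 ≤ (t + 1) * bin k t := by nlinarith
      have h4 : (t + 1) * bin k t ≤ T * bin k t := Nat.mul_le_mul_right _ ht
      omega
    · obtain ⟨s, rfl⟩ := Nat.exists_eq_add_of_le' ht
      rw [tel_add hT, mul_add]
      have h1 := ih s (by omega)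
      have h2 := bin_add_le k s T
      omega

lemma bin_le_tel_iter {T : ℕ} (hT : 0 < T) (e c : ℕ) :
    ∀ t, bin (e + c) t ≤ T ^ c * (tel T)^[c] (bin e) t := by
  induction c with
  | zero => intro t; simp
  | succ c ih =>
    intro t
    have h1 := bin_le_tel hT (e + c) t
    have h2 := tel_mono (T := T) ih t
    rw [tel_smul] at h2
    rw [← add_assoc, Function.iterate_succ_apply', pow_succ']
    calc bin (e + c + 1) t ≤ T * tel T (bin (e + c)) t := h1
      _ ≤ T * (T ^ c * tel T ((tel T)^[c] (bin e)) t) := Nat.mul_le_mul_left _ h2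
      _ = _ := by ring

lemma succ_mul_bin (k s : ℕ) : (k + 1) * bin (k + 1) s = (s + k + 1) * bin k s := by
  unfold bin
  have := Nat.add_one_mul_choose_eq (s + k) k
  rw [← add_assoc, this, mul_comm]

lemma bin_ratio (k t u : ℕ) : bin k (t + u) * (t + 1) ^ k ≤ bin k t * (t + 1 + u) ^ k := by
  induction k with
  | zero => simp [bin_zero]
  | succ k ih =>
    have h2 : (t + u + k + 1) * (t + 1) ≤ (t + k + 1) * (t + 1 + u) := by nlinarith
    have h3 : 0 < k + 1 := by omega
    apply Nat.le_of_mul_le_mul_left _ h3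
    calc (k + 1) * (bin (k + 1) (t + u) * (t + 1) ^ (k + 1))
        = ((k + 1) * bin (k + 1) (t + u)) * (t + 1) ^ (k + 1) := by ring
      _ = ((t + u + k + 1) * bin k (t + u)) * (t + 1) ^ (k + 1) := by rw [succ_mul_bin]
      _ = ((t + u + k + 1) * (t + 1)) * (bin k (t + u) * (t + 1) ^ k) := by ring
      _ ≤ ((t + k + 1) * (t + 1 + u)) * (bin k t * (t + 1 + u) ^ k) := Nat.mul_le_mul h2 ih
      _ = ((t + k + 1) * bin k t) * (t + 1 + u) ^ (k + 1) := by ring
      _ = (k + 1) * (bin (k + 1) t * (t + 1 + u) ^ (k + 1)) := by rw [← succ_mul_bin]; ring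

/-- If `m` copies of `bin k t` are at most `a` copies of `bin k (t + u)` for all `t`, then `m ≤ a`. -/
lemma le_of_bin {k u m a : ℕ} (h : ∀ t, m * bin k t ≤ a * bin k (t + u)) : m ≤ a := by
  by_contra hlt
  push Not at hlt
  set t := (a + 1) * k * u with ht
  have h1 : (a + 1) * (t + 1) ^ k ≤ a * (t + 1 + u) ^ k := by
    have hb := bin_pos k t
    apply Nat.le_of_mul_le_mul_left _ hb
    calc bin k t * ((a + 1) * (t + 1) ^ k) = ((a + 1) * bin k t) * (t + 1) ^ k := by ring
      _ ≤ (m * bin k t) * (t + 1) ^ k :=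
          Nat.mul_le_mul_right _ (Nat.mul_le_mul_right _ hlt)
      _ ≤ (a * bin k (t + u)) * (t + 1) ^ k := Nat.mul_le_mul_right _ (h t)
      _ = a * (bin k (t + u) * (t + 1) ^ k) := by ring
      _ ≤ a * (bin k t * (t + 1 + u) ^ k) := Nat.mul_le_mul_left _ (bin_ratio k t u)
      _ = bin k t * (a * (t + 1 + u) ^ k) := by ring
  have hpos : (0 : ℝ) < (t : ℝ) + 1 + u := by positivity
  have h2 : (1 : ℝ) - k * u / (t + 1 + u) ≤ ((t + 1 : ℝ) / (t + 1 + u)) ^ k := by
    have h3 : (-2 : ℝ) ≤ -(u / ((t : ℝ) + 1 + u)) := by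
      have : (u : ℝ) / ((t : ℝ) + 1 + u) ≤ 1 := by
        rw [div_le_one hpos]
        have : (0 : ℝ) ≤ t := by positivity
        linarith
      linarith
    have h4 := one_add_mul_le_pow h3 k
    have h5 : (1 : ℝ) + -(u / ((t : ℝ) + 1 + u)) = (t + 1 : ℝ) / (t + 1 + u) := by
      field_simp
      ring
    rw [h5] at h4
    refine le_trans (le_of_eq ?_) h4
    ring
  have h6 : (k : ℝ) * u * (a + 1) < t + 1 + u := by
    have : (t : ℝ) = (a + 1) * k * u := by rw [ht]; push_cast; ring
    rw [this]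
    have : (0 : ℝ) ≤ u := by positivity
    linarith
  have h7 : (k : ℝ) * u / (t + 1 + u) < 1 / (a + 1) := by
    rw [div_lt_div_iff₀ hpos (by positivity), one_mul]
    exact h6
  have h8 : (a : ℝ) * (t + 1 + u) ^ k < (a + 1) * (t + 1) ^ k := by
    have h9 : (a : ℝ) / (a + 1) < ((t + 1 : ℝ) / (t + 1 + u)) ^ k := by
      have : (a : ℝ) / (a + 1) = 1 - 1 / (a + 1) := by field_simp; ring
      linarith
    rw [div_pow, div_lt_div_iff₀ (by positivity) (by positivity)] at h9
    linarith
  have h10 : ((a + 1) * (t + 1) ^ k : ℝ) ≤ a * (t + 1 + u) ^ k := by exact_mod_cast h1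
  linarith

end Pool.Agent.MP_f02ea4.QR
end

section

set_option autoImplicit false

namespace Pool.Agent.MP_f02ea4.QR

open MvPolynomial Module

variable {d : ℕ}

/-- Multiplication by `G` maps `P_s` to the kernel of `R / K → R / J`, with kernel inside `P`. -/
lemma hilb_add_le' {K J P : Ideal (MvPolynomial (Fin d) ℚ)} (hKJ : K ≤ J)
    {G : MvPolynomial (Fin d) ℚ} (hG : G ∈ J) (hK : ∀ f, G * f ∈ K → f ∈ P) {T s : ℕ}
    (hT : G.totalDegree ≤ T) : hilb J (s + T) + hilb P s ≤ hilb K (s + T) := by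
  set fK := (Ideal.Quotient.mkₐ ℚ K).toLinearMap with hfK
  set fP := (Ideal.Quotient.mkₐ ℚ P).toLinearMap with hfP
  set g := (Ideal.Quotient.factorₐ ℚ hKJ).toLinearMap with hg
  set M := Submodule.map fK (restrictTotalDegree (Fin d) ℚ (s + T)) with hM
  have h1 : Submodule.map (Ideal.Quotient.mkₐ ℚ J).toLinearMap
      (restrictTotalDegree (Fin d) ℚ (s + T)) = Submodule.map g M := by
    rw [hM, ← Submodule.map_comp]
    congr 1
  have h2 := LinearMap.finrank_range_add_finrank_ker (g.domRestrict M)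
  have h3 : LinearMap.range (g.domRestrict M) = Submodule.map g M := by
    rw [LinearMap.range_domRestrict]
  rw [h3] at h2
  set W := restrictTotalDegree (Fin d) ℚ s with hW
  set L := (fK ∘ₗ LinearMap.mulLeft ℚ G).domRestrict W with hL
  set L' := fP.domRestrict W with hL'
  have hker : LinearMap.ker L ≤ LinearMap.ker L' := by
    intro x hx
    rw [LinearMap.mem_ker] at hx ⊢
    have hx' : Ideal.Quotient.mk K (G * (x : MvPolynomial (Fin d) ℚ)) = 0 := hx
    rw [Ideal.Quotient.eq_zero_iff_mem] at hx'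
    have hx'' : Ideal.Quotient.mk P (x : MvPolynomial (Fin d) ℚ) = 0 :=
      Ideal.Quotient.eq_zero_iff_mem.2 (hK _ hx')
    exact hx''
  have e1 := LinearMap.finrank_range_add_finrank_ker L
  have e2 := LinearMap.finrank_range_add_finrank_ker L'
  have e3 := Submodule.finrank_mono hker
  have r1 : LinearMap.range L = Submodule.map (fK ∘ₗ LinearMap.mulLeft ℚ G) W := by
    rw [hL, LinearMap.range_domRestrict]
  have r2 : LinearMap.range L' = Submodule.map fP W := by
    rw [hL', LinearMap.range_domRestrict]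
  have h5 : LinearMap.range L ≤ M := by
    rw [r1]
    rintro _ ⟨p, hp, rfl⟩
    refine ⟨G * p, ?_, rfl⟩
    rw [SetLike.mem_coe, mem_restrictTotalDegree] at hp ⊢
    exact (totalDegree_mul _ _).trans (by omega)
  have h6 : ∀ x ∈ LinearMap.range L, g x = 0 := by
    rw [r1]
    rintro _ ⟨p, hp, rfl⟩
    have : g ((fK ∘ₗ LinearMap.mulLeft ℚ G) p) = Ideal.Quotient.mk J (G * p) := rfl
    rw [this, Ideal.Quotient.eq_zero_iff_mem]
    exact Ideal.mul_mem_right _ _ hG
  have h7 : finrank ℚ (LinearMap.range L) ≤ finrank ℚ (LinearMap.ker (g.domRestrict M)) := by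
    have h8 : LinearMap.range L ≤ Submodule.map M.subtype (LinearMap.ker (g.domRestrict M)) := by
      intro x hx
      refine ⟨⟨x, h5 hx⟩, ?_, rfl⟩
      rw [SetLike.mem_coe, LinearMap.mem_ker]
      exact h6 x hx
    have h9 := Submodule.finrank_mono h8
    exact h9.trans (Submodule.finrank_map_le _ _)
  have h10 : hilb J (s + T) = finrank ℚ (Submodule.map g M) := by rw [hilb, h1]
  have h11 : hilb K (s + T) = finrank ℚ M := rfl
  have h12 : hilb P s = finrank ℚ (LinearMap.range L') := by rw [hilb, r2]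
  rw [h10, h11, h12]
  omega

/-- Finitely many primes, none of which contains another one: their Hilbert functions add up. -/
lemma hilb_many (K : Ideal (MvPolynomial (Fin d) ℚ)) (S : Finset (Ideal (MvPolynomial (Fin d) ℚ)))
    (hprime : ∀ p ∈ S, p.IsPrime) (hK : ∀ p ∈ S, K ≤ p) (hinc : ∀ p ∈ S, ∀ q ∈ S, p ≤ q → p = q) :
    ∃ u, ∀ t, ∑ p ∈ S, hilb p t ≤ hilb K (t + u) := by
  classical
  induction S using Finset.induction_on generalizing K with
  | empty => exact ⟨0, fun t => by simp⟩
  | insert p₀ S' hp₀ ih =>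
    have hpr := hprime p₀ (Finset.mem_insert_self _ _)
    have hKp := hK p₀ (Finset.mem_insert_self _ _)
    obtain ⟨u, hu⟩ := ih (S'.inf id) (fun p hp => hprime p (Finset.mem_insert_of_mem hp))
      (fun p hp => Finset.inf_le (f := id) hp)
      (fun p hp q hq => hinc p (Finset.mem_insert_of_mem hp) q (Finset.mem_insert_of_mem hq))
    have hKJ : K ≤ S'.inf id :=
      Finset.le_inf (fun q hq => hK q (Finset.mem_insert_of_mem hq))
    have hex : ∃ f ∈ S'.inf id, f ∉ p₀ := by
      by_contra hcon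
      push Not at hcon
      obtain ⟨q, hq, hqp⟩ := (Ideal.IsPrime.inf_le' hpr).1 hcon
      have := hinc q (Finset.mem_insert_of_mem hq) p₀ (Finset.mem_insert_self _ _) hqp
      exact hp₀ (this ▸ hq)
    obtain ⟨f, hfJ, hfp⟩ := hex
    refine ⟨u + f.totalDegree, fun t => ?_⟩
    rw [Finset.sum_insert hp₀]
    have h0 := hilb_add_le' hKJ hfJ (P := p₀)
      (fun g hg => (hpr.mem_or_mem (hKp hg)).resolve_left hfp)
      (T := f.totalDegree) (s := t + u) le_rfl
    have h1 := hu t
    have h2 : hilb (S'.inf id) (t + u) ≤ hilb (S'.inf id) (t + u + f.totalDegree) :=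
      hilb_mono_right _ (by omega)
    have h3 : hilb p₀ t ≤ hilb p₀ (t + u) := hilb_mono_right _ (by omega)
    rw [← add_assoc]
    omega

end Pool.Agent.MP_f02ea4.QR
end

section

set_option autoImplicit false

namespace Pool.Agent.MP_f02ea4.QR

open MvPolynomial Module

/-- the variables of a coefficient -/
lemma vars_coeff_finSucc {d : ℕ} (f : MvPolynomial (Fin (d + 1)) ℚ) (i : ℕ) (j : Fin d)
    (hj : j ∈ ((finSuccEquiv ℚ d f).coeff i).vars) : j.succ ∈ f.vars := by
  rw [mem_vars_iff_mem_support] at hj ⊢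
  obtain ⟨m, hm, hmj⟩ := hj
  refine ⟨m.cons i, ?_, ?_⟩
  · rw [MvPolynomial.mem_support_iff] at hm ⊢
    rwa [finSuccEquiv_coeff_coeff] at hm
  · rw [Finsupp.mem_support_iff] at hmj ⊢
    rwa [Finsupp.cons_succ]

lemma coeff_finSucc_eq_zero {d : ℕ} (f : MvPolynomial (Fin (d + 1)) ℚ) (h0 : 0 ∉ f.vars) (i : ℕ)
    (hi : i ≠ 0) : (finSuccEquiv ℚ d f).coeff i = 0 := by
  ext m
  rw [finSuccEquiv_coeff_coeff, coeff_zero]
  by_contra hne
  apply h0
  rw [mem_vars_iff_mem_support]
  refine ⟨m.cons i, MvPolynomial.mem_support_iff.2 hne, ?_⟩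
  rw [Finsupp.mem_support_iff, Finsupp.cons_zero]
  exact hi

/-- A prime of height at most `c` contains no non zero polynomial in certain `d - c` variables. -/
lemma exists_indep_of_height (d : ℕ) (p : Ideal (MvPolynomial (Fin d) ℚ)) [p.IsPrime] (c : ℕ)
    (hc : p.height ≤ c) :
    ∃ I : Finset (Fin d), d ≤ c + I.card ∧ ∀ f ∈ p, f.vars ⊆ I → f = 0 := by
  induction d generalizing c with
  | zero =>
    refine ⟨∅, by omega, ?_⟩
    intro f hf _
    by_contra hne
    obtain ⟨a, rfl⟩ := C_surjective (Fin 0) f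
    have ha : a ≠ 0 := by
      rintro rfl
      exact hne C_0
    have h1 : (1 : MvPolynomial (Fin 0) ℚ) ∈ p := by
      have h2 := p.mul_mem_left (C a⁻¹) hf
      rwa [← C_mul, inv_mul_cancel₀ ha, C_1] at h2
    exact (Ideal.ne_top_iff_one p).1 (Ideal.IsPrime.ne_top inferInstance) h1
  | succ d ih =>
    set e := (finSuccEquiv ℚ d).toRingEquiv with he
    set P : Ideal (Polynomial (MvPolynomial (Fin d) ℚ)) := p.comap e.symm with hP
    have hPprime : P.IsPrime := Ideal.comap_isPrime _ _
    have hPh : P.height = p.height := RingEquiv.height_comap e.symm p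
    have hmem : ∀ f, f ∈ p ↔ finSuccEquiv ℚ d f ∈ P := by
      intro f
      rw [hP, Ideal.mem_comap]
      have : e.symm (finSuccEquiv ℚ d f) = f := e.symm_apply_apply f
      rw [this]
    set q : Ideal (MvPolynomial (Fin d) ℚ) := P.under (MvPolynomial (Fin d) ℚ) with hq
    have hqprime : q.IsPrime := Ideal.comap_isPrime _ _
    have hlies : P.LiesOver q := ⟨rfl⟩
    have hqmem : ∀ g, g ∈ q ↔ Polynomial.C g ∈ P := fun g => Iff.rfl
    have hht := Ideal.height_eq_height_add_of_liesOver_of_hasGoingDown (p := q) (P := P)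
    have hqc : q.height ≤ c := by
      refine le_trans ?_ (hPh.le.trans hc)
      rw [hht]
      exact le_self_add
    obtain ⟨c', hc'⟩ : ∃ c' : ℕ, q.height = c' := by
      have : q.height ≠ ⊤ := ne_top_of_le_ne_top (ENat.natCast_ne_top c) hqc
      exact ⟨q.height.toNat, (ENat.natCast_toNat this).symm⟩
    obtain ⟨I, hI, hI'⟩ := ih q c' hc'.le
    by_cases hcase : P ≤ q.map Polynomial.C
    · refine ⟨insert 0 (I.map (Fin.succEmb d)), ?_, ?_⟩
      · have h0 : (0 : Fin (d + 1)) ∉ I.map (Fin.succEmb d) := by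
          simp [Fin.succ_ne_zero]
        rw [Finset.card_insert_of_notMem h0, Finset.card_map]
        have : c' ≤ c := by
          rw [hc'] at hqc
          exact_mod_cast hqc
        omega
      · intro f hf hfv
        have h1 : finSuccEquiv ℚ d f ∈ q.map Polynomial.C := hcase ((hmem f).1 hf)
        rw [Ideal.mem_map_C_iff] at h1
        have h2 : finSuccEquiv ℚ d f = 0 := by
          ext1 i
          rw [Polynomial.coeff_zero]
          refine hI' _ (h1 i) ?_
          intro j hj
          have h3 := hfv (vars_coeff_finSucc f i j hj)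
          rw [Finset.mem_insert, Finset.mem_map] at h3
          rcases h3 with h3 | ⟨j', hj', h4⟩
          · exact absurd h3 (Fin.succ_ne_zero j)
          · have : j' = j := Fin.succ_injective _ h4
            rwa [this] at hj'
        exact (map_eq_zero_iff _ (finSuccEquiv ℚ d).injective).1 h2
    · refine ⟨I.map (Fin.succEmb d), ?_, ?_⟩
      · rw [Finset.card_map]
        have h1 : c' + 1 ≤ c := by
          have h2 : (1 : ℕ∞) ≤ (P.map (Ideal.Quotient.mk (q.map (algebraMap (MvPolynomial (Fin d) ℚ)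
              (Polynomial (MvPolynomial (Fin d) ℚ)))))).height := by
            set Q := q.map (algebraMap (MvPolynomial (Fin d) ℚ)
              (Polynomial (MvPolynomial (Fin d) ℚ))) with hQ
            have hQprime : Q.IsPrime := Ideal.isPrime_map_C_of_isPrime
            have hQP : Q ≤ P := Ideal.map_le_iff_le_comap.2 le_rfl
            have hprime : (P.map (Ideal.Quotient.mk Q)).IsPrime :=
              Ideal.map_isPrime_of_surjective Ideal.Quotient.mk_surjective (by
                rw [Ideal.mk_ker]; exact hQP)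
            have hne : (P.map (Ideal.Quotient.mk Q)).height ≠ 0 := by
              rw [Ne, Ideal.height_eq_zero_iff_eq_bot, Ideal.map_eq_bot_iff_le_ker, Ideal.mk_ker]
              exact hcase
            exact Order.one_le_iff_pos.2 (pos_iff_ne_zero.2 hne)
          have h3 : (c' : ℕ∞) + 1 ≤ c := by
            refine le_trans ?_ (hPh.le.trans hc)
            rw [hht, hc']
            exact add_le_add_right h2 _
          exact_mod_cast h3
        omega
      · intro f hf hfv
        have h0 : (0 : Fin (d + 1)) ∉ f.vars := by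
          intro h
          have h1 := hfv h
          rw [Finset.mem_map] at h1
          obtain ⟨j, _, hj⟩ := h1
          exact Fin.succ_ne_zero j hj
        have h1 : finSuccEquiv ℚ d f = Polynomial.C ((finSuccEquiv ℚ d f).coeff 0) := by
          ext1 i
          by_cases hi : i = 0
          · rw [hi, Polynomial.coeff_C_zero]
          · rw [coeff_finSucc_eq_zero f h0 i hi, Polynomial.coeff_C_of_ne_zero hi]
        have h2 : (finSuccEquiv ℚ d f).coeff 0 = 0 := by
          refine hI' _ ?_ ?_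
          · rw [hqmem, ← h1]
            exact (hmem f).1 hf
          · intro j hj
            have h3 := hfv (vars_coeff_finSucc f 0 j hj)
            rw [Finset.mem_map] at h3
            obtain ⟨j', hj', h4⟩ := h3
            have : j' = j := Fin.succ_injective _ h4
            rwa [this] at hj'
        rw [h2, Polynomial.C_0] at h1
        exact (map_eq_zero_iff _ (finSuccEquiv ℚ d).injective).1 h1

end Pool.Agent.MP_f02ea4.QR
end

section

set_option autoImplicit false

namespace Pool.Agent.MP_f02ea4.QR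

open MvPolynomial Module

variable {d : ℕ}

lemma multichoose_eq_bin (k t : ℕ) : Nat.multichoose (k + 1) t = bin k t := by
  have h : k + 1 + t - 1 = t + k := by omega
  rw [Nat.multichoose_eq, bin, h]
  exact Nat.choose_symm_add

lemma sum_multichoose (k t : ℕ) :
    ∑ n ∈ Finset.range (t + 1), Nat.multichoose k n = bin k t := by
  induction t with
  | zero => simp [bin]
  | succ t ih =>
    rw [Finset.sum_range_succ, ih]
    cases k with
    | zero => rw [Nat.multichoose_zero_succ, bin_zero, bin_zero]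
    | succ k => rw [multichoose_eq_bin, bin_succ]

/-- The exponents of the monomials in the variables of `I` of degree at most `t`. -/
noncomputable def expo (I : Finset (Fin d)) (t : ℕ) : Finset (Fin d →₀ ℕ) :=
  (Finset.range (t + 1)).biUnion (fun n => I.finsuppAntidiag n)

lemma mem_expo {I : Finset (Fin d)} {t : ℕ} {a : Fin d →₀ ℕ} :
    a ∈ expo I t ↔ (a.sum fun _ e => e) ≤ t ∧ a.support ⊆ I := by
  rw [expo, Finset.mem_biUnion]
  constructor
  · rintro ⟨n, hn, ha⟩
    rw [Finset.mem_range] at hn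
    rw [Finset.mem_finsuppAntidiag'] at ha
    exact ⟨by omega, ha.2⟩
  · rintro ⟨h1, h2⟩
    exact ⟨a.sum fun _ e => e, Finset.mem_range.2 (by omega),
      Finset.mem_finsuppAntidiag'.2 ⟨rfl, h2⟩⟩

lemma card_expo (I : Finset (Fin d)) (t : ℕ) : (expo I t).card = bin I.card t := by
  rw [expo, Finset.card_biUnion]
  · simp only [Finset.card_finsuppAntidiag_nat_eq_multichoose]
    exact sum_multichoose _ _
  · intro m _ n _ hmn
    rw [Function.onFun, Finset.disjoint_left]
    intro a ha hb
    rw [Finset.mem_finsuppAntidiag'] at ha hb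
    exact hmn (ha.1.symm.trans hb.1)

lemma finrank_expo (I : Finset (Fin d)) (t : ℕ) :
    finrank ℚ (restrictSupport ℚ (expo I t : Set (Fin d →₀ ℕ))) = bin I.card t := by
  rw [finrank_eq_nat_card_basis (basisRestrictSupport ℚ (expo I t : Set (Fin d →₀ ℕ))),
    Nat.card_coe_set_eq, Set.ncard_coe_finset, card_expo]

/-- If `p` contains no non zero polynomial in the variables of `I`, its Hilbert function is at least
the number of monomials in these variables. -/
lemma bin_le_hilb (p : Ideal (MvPolynomial (Fin d) ℚ)) (I : Finset (Fin d))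
    (h : ∀ f ∈ p, f.vars ⊆ I → f = 0) (t : ℕ) : bin I.card t ≤ hilb p t := by
  set S := restrictSupport ℚ (expo I t : Set (Fin d →₀ ℕ)) with hS
  set φ := (Ideal.Quotient.mkₐ ℚ p).toLinearMap with hφ
  have h1 : S ≤ restrictTotalDegree (Fin d) ℚ t := by
    apply restrictSupport_mono
    intro a ha
    exact (mem_expo.1 ha).1
  have h2 : Function.Injective (φ.domRestrict S) := by
    rw [← LinearMap.ker_eq_bot, LinearMap.ker_eq_bot']
    rintro ⟨f, hf⟩ hf0
    have hf1 : Ideal.Quotient.mk p f = 0 := hf0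
    rw [Ideal.Quotient.eq_zero_iff_mem] at hf1
    have hf2 : f.vars ⊆ I := by
      intro i hi
      rw [mem_vars_iff_mem_support] at hi
      obtain ⟨a, ha, hi⟩ := hi
      rw [hS, mem_restrictSupport_iff] at hf
      exact (mem_expo.1 (hf ha)).2 hi
    exact Subtype.ext (h f hf1 hf2)
  have h3 := LinearMap.finrank_range_of_inj h2
  rw [LinearMap.range_domRestrict, finrank_expo] at h3
  rw [← h3]
  exact Submodule.finrank_mono (Submodule.map_mono h1)

/-- The Hilbert function is at most the number of monomials. -/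
lemma hilb_le_bin (p : Ideal (MvPolynomial (Fin d) ℚ)) (t : ℕ) : hilb p t ≤ bin d t := by
  refine (Submodule.finrank_map_le _ _).trans ?_
  have h1 : restrictTotalDegree (Fin d) ℚ t ≤
      restrictSupport ℚ (expo (Finset.univ : Finset (Fin d)) t : Set (Fin d →₀ ℕ)) := by
    apply restrictSupport_mono
    intro a ha
    exact mem_expo.2 ⟨ha, Finset.subset_univ _⟩
  have h2 := finrank_expo (Finset.univ : Finset (Fin d)) t
  rw [Finset.card_univ, Fintype.card_fin] at h2
  rw [← h2]
  have : Module.Finite ℚ (restrictSupport ℚ (expo (Finset.univ : Finset (Fin d)) t :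
      Set (Fin d →₀ ℕ))) := Module.Finite.of_basis (basisRestrictSupport ℚ _)
  exact Submodule.finrank_mono h1

end Pool.Agent.MP_f02ea4.QR
end

section

set_option autoImplicit false

namespace Pool.Agent.MP_f02ea4.QR

open MvPolynomial Module

variable {d : ℕ}

/-- The chain of inequalities. -/
lemma tel_hilb_le (A : Submodule ℚ (MvPolynomial (Fin d) ℚ)) {T : ℕ} (hT : 0 < T)
    (hA : ∀ f ∈ A, f.totalDegree ≤ T) (c : ℕ)
    (hc : (c : ℕ∞) ≤ (Ideal.span (A : Set (MvPolynomial (Fin d) ℚ))).height) :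
    ∃ K : Ideal (MvPolynomial (Fin d) ℚ), K.IsRadical ∧ (c : ℕ∞) ≤ K.height ∧
      (∀ p : Ideal (MvPolynomial (Fin d) ℚ), p.IsPrime →
        Ideal.span (A : Set (MvPolynomial (Fin d) ℚ)) ≤ p → K ≤ p) ∧
      ∀ t, (tel T)^[c] (hilb K) t ≤ bin d t := by
  obtain ⟨G, hG, hGc⟩ := exists_generic A c hc
  set H : ℕ → Ideal (MvPolynomial (Fin d) ℚ) := fun i => (Ideal.span (G '' Set.Iio i)).radical with hH
  refine ⟨H c, Ideal.radical_isRadical _, (hGc c le_rfl).trans (Ideal.height_mono Ideal.le_radical),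
    ?_, ?_⟩
  · intro p hp hAp
    rw [hH]
    refine (Ideal.IsPrime.radical_le_iff hp).2 ?_
    rw [Ideal.span_le]
    rintro _ ⟨i, hi, rfl⟩
    exact hAp (Ideal.subset_span (hG i hi))
  · intro t
    have h1 := tel_chain hT (fun i => hilb (H i)) c
      (fun i hi s => generic_step G c T (fun i hi => hA _ (hG i hi)) hGc hi s)
      (fun i hi t => hilb_mono (Ideal.radical_mono (Ideal.span_mono
        (Set.image_mono (Set.Iio_subset_Iio (by omega))))) t) t
    exact h1.trans (hilb_le_bin _ t)

/-- The number of primes of height at most `c` over an ideal of height at least `c` generated by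
polynomials of degree at most `T` is at most `T ^ c`. -/
theorem bezout (A : Submodule ℚ (MvPolynomial (Fin d) ℚ)) {T : ℕ} (hT : 0 < T)
    (hA : ∀ f ∈ A, f.totalDegree ≤ T) (c : ℕ)
    (hc : (c : ℕ∞) ≤ (Ideal.span (A : Set (MvPolynomial (Fin d) ℚ))).height) (hcd : c ≤ d)
    (S : Finset (Ideal (MvPolynomial (Fin d) ℚ)))
    (hS : ∀ p ∈ S, p.IsPrime ∧ Ideal.span (A : Set (MvPolynomial (Fin d) ℚ)) ≤ p ∧
      p.height ≤ c) : S.card ≤ T ^ c := by
  obtain ⟨K, -, hKc, hK, hKt⟩ := tel_hilb_le A hT hA c hc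
  obtain ⟨u, hu⟩ := hilb_many K S (fun p hp => (hS p hp).1)
    (fun p hp => hK p (hS p hp).1 (hS p hp).2.1) (by
      intro p hp q hq hpq
      have := (hS p hp).1
      have := (hS q hq).1
      have h1 : (c : ℕ∞) ≤ p.height := hKc.trans (Ideal.height_mono (hK p (hS p hp).1 (hS p hp).2.1))
      by_contra hne
      have h2 := Ideal.height_add_one_le_of_lt_of_isPrime (lt_of_le_of_ne hpq hne)
      have h3 : (c : ℕ∞) + 1 ≤ c := (add_le_add_left h1 1).trans (h2.trans (hS q hq).2.2)
      have h4 : ((c + 1 : ℕ) : ℕ∞) ≤ (c : ℕ) := by exact_mod_cast h3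
      have h5 := Nat.cast_le.1 h4
      omega)
  have hlow : ∀ t, S.card * bin (d - c) t ≤ hilb K (t + u) := by
    intro t
    refine le_trans ?_ (hu t)
    rw [← smul_eq_mul]
    apply Finset.card_nsmul_le_sum
    intro p hp
    have := (hS p hp).1
    obtain ⟨I, hI, hI'⟩ := exists_indep_of_height d p c (hS p hp).2.2
    refine le_trans ?_ (bin_le_hilb p I hI' t)
    unfold bin
    have h1 : d - c ≤ I.card := by omega
    rw [← Nat.choose_symm_add, ← Nat.choose_symm_add]
    exact Nat.choose_le_choose _ (by omega)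
  apply le_of_bin (k := d) (u := u)
  intro t
  have h1 := tel_iter_mono (T := T) hlow c t
  rw [tel_iter_smul] at h1
  have h2 := tel_iter_shift hT (hilb K) u c t
  have h3 := hKt (t + u)
  have h4 := bin_le_tel_iter hT (d - c) c t
  rw [Nat.sub_add_cancel hcd] at h4
  calc S.card * bin d t ≤ S.card * (T ^ c * (tel T)^[c] (bin (d - c)) t) :=
        Nat.mul_le_mul_left _ h4
    _ = T ^ c * (S.card * (tel T)^[c] (bin (d - c)) t) := by ring
    _ ≤ T ^ c * bin d (t + u) := Nat.mul_le_mul_left _ (h1.trans (h2.trans h3))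

lemma bin_mono_left {k k' : ℕ} (h : k ≤ k') (t : ℕ) : bin k t ≤ bin k' t := by
  unfold bin
  rw [← Nat.choose_symm_add, ← Nat.choose_symm_add]
  exact Nat.choose_le_choose _ (by omega)

/-- Polynomials in `t` of different degree. -/
lemma le_of_bin_growth {k a : ℕ} (h : ∀ t, bin k t ≤ a * bin d t) : k ≤ d := by
  by_contra hlt
  push Not at hlt
  set t := a * (d + 1) with ht
  have h1 : bin (d + 1) t ≤ a * bin d t := (bin_mono_left hlt t).trans (h t)
  have h2 := succ_mul_bin d t
  have h3 : (t + d + 1) * bin d t ≤ (a * (d + 1)) * bin d t := by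
    rw [← h2]
    calc (d + 1) * bin (d + 1) t ≤ (d + 1) * (a * bin d t) := Nat.mul_le_mul_left _ h1
      _ = _ := by ring
  have h4 := Nat.le_of_mul_le_mul_right h3 (bin_pos d t)
  omega

/-- The codimension of the stabiliser of a prime is at least the height. -/
theorem height_add_finrank_stab_le (p : Ideal (MvPolynomial (Fin d) ℚ)) [p.IsPrime] (c : ℕ)
    (hc : (c : ℕ∞) ≤ p.height) : c + finrank ℚ (stab p) ≤ d := by
  obtain ⟨s, hs⟩ := (isNoetherianRing_iff_ideal_fg _).1 inferInstance p
  set T := s.sup totalDegree + 1 with hT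
  set A : Submodule ℚ (MvPolynomial (Fin d) ℚ) :=
    (p.restrictScalars ℚ) ⊓ restrictTotalDegree (Fin d) ℚ T with hA
  have hspan : Ideal.span (A : Set (MvPolynomial (Fin d) ℚ)) = p := by
    apply le_antisymm
    · rw [Ideal.span_le]
      intro f hf
      exact hf.1
    · conv_lhs => rw [← hs]
      apply Ideal.span_mono
      intro f hf
      refine ⟨?_, ?_⟩
      · show f ∈ p
        rw [← hs]
        exact Ideal.subset_span hf
      · rw [SetLike.mem_coe, mem_restrictTotalDegree]
        have := Finset.le_sup (f := totalDegree) (Finset.mem_coe.1 hf)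
        omega
  obtain ⟨K, -, -, hK, hKt⟩ := tel_hilb_le A (T := T) (by omega)
    (fun f hf => (mem_restrictTotalDegree (Fin d) T f).1 hf.2) c (by rw [hspan]; exact hc)
  have hKp : K ≤ p := hK p inferInstance (by rw [hspan])
  obtain ⟨I, hI, hI'⟩ := stab_indep p
  rw [← hI, add_comm]
  apply le_of_bin_growth (a := T ^ c)
  intro t
  have h1 := bin_le_tel_iter (T := T) (by omega) I.card c t
  have h2 := tel_iter_mono (T := T) (H := bin I.card) (H' := hilb K)
    (fun t => (bin_le_hilb p I hI' t).trans (hilb_mono hKp t)) c t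
  exact h1.trans (Nat.mul_le_mul_left _ (h2.trans (hKt t)))

end Pool.Agent.MP_f02ea4.QR
end

section

/-!
# The zero estimate

`E ⊆ ℚ ^ d`, `0 ∈ E`, `|E mod V| > T ^ codim V` for all proper subspaces `V`: then no non zero
polynomial of degree at most `T` vanishes on `(d + 1) E`.
-/

set_option autoImplicit false

namespace Pool.Agent.MP_f02ea4.QR

open MvPolynomial Module
open scoped Pointwise

variable {d : ℕ}

/-- The polynomials of degree at most `T` that vanish on `F`. -/
noncomputable def van (T : ℕ) (F : Finset (Fin d → ℚ)) :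
    Submodule ℚ (MvPolynomial (Fin d) ℚ) where
  carrier := {f | f.totalDegree ≤ T ∧ ∀ x ∈ F, eval x f = 0}
  add_mem' := by
    rintro f g ⟨hf, hf'⟩ ⟨hg, hg'⟩
    refine ⟨(totalDegree_add f g).trans (max_le hf hg), fun x hx => ?_⟩
    rw [map_add, hf' x hx, hg' x hx, add_zero]
  zero_mem' := by
    refine ⟨by simp, fun x _ => by simp⟩
  smul_mem' := by
    rintro a f ⟨hf, hf'⟩
    refine ⟨(totalDegree_smul_le a f).trans hf, fun x hx => ?_⟩
    rw [smul_eval, hf' x hx, mul_zero]

lemma mem_van {T : ℕ} {F : Finset (Fin d → ℚ)} {f : MvPolynomial (Fin d) ℚ} :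
    f ∈ van T F ↔ f.totalDegree ≤ T ∧ ∀ x ∈ F, eval x f = 0 := Iff.rfl

/-- The maximal ideal of the origin. -/
noncomputable def orig (d : ℕ) : Ideal (MvPolynomial (Fin d) ℚ) :=
  RingHom.ker (eval (0 : Fin d → ℚ))

instance isPrime_orig : (orig d).IsPrime := RingHom.ker_isPrime _

lemma height_le_of_isPrime (p : Ideal (MvPolynomial (Fin d) ℚ)) [p.IsPrime] : p.height ≤ d := by
  by_contra h
  rw [not_le] at h
  have h1 : ((d + 1 : ℕ) : ℕ∞) ≤ p.height := by
    have := Order.add_one_le_of_lt h
    exact_mod_cast this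
  have h2 := height_add_finrank_stab_le p (d + 1) h1
  omega

lemma card_image_le_card_image {α β γ : Type*} [DecidableEq β] [DecidableEq γ] (E : Finset α)
    (f : α → β) (g : α → γ) (h : ∀ a ∈ E, ∀ b ∈ E, g a = g b → f a = f b) :
    (E.image f).card ≤ (E.image g).card := by
  classical
  rcases E.eq_empty_or_nonempty with rfl | ⟨a₀, -⟩
  · simp
  have : Nonempty α := ⟨a₀⟩
  have h1 : ∀ y ∈ E.image g, ∃ a ∈ E, g a = y := by
    intro y hy
    simpa using hy
  choose! c hc hc' using h1
  have h2 : E.image f ⊆ (E.image g).image (fun y => f (c y)) := by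
    intro y hy
    rw [Finset.mem_image] at hy
    obtain ⟨a, ha, rfl⟩ := hy
    rw [Finset.mem_image]
    have h3 : g a ∈ E.image g := Finset.mem_image_of_mem g ha
    exact ⟨g a, h3, h _ (hc _ h3) _ ha (hc' _ h3)⟩
  exact (Finset.card_le_card h2).trans Finset.card_image_le

/-- A monotone pigeonhole principle. -/
lemma exists_eq_succ {d : ℕ} (c : ℕ → ℕ) (h2 : ∀ j ≤ d + 1, c j ≤ d)
    (h3 : ∀ j ≤ d, c (j + 1) ≤ c j) : ∃ j ≤ d, c j = c (j + 1) := by
  by_contra h
  push Not at h
  have h4 : ∀ j ≤ d + 1, c j + j ≤ d := by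
    intro j
    induction j with
    | zero => intro _; simpa using h2 0 (by omega)
    | succ j ih =>
      intro hj
      have h5 := ih (by omega)
      have h6 := h3 j (by omega)
      have h7 := h j (by omega)
      omega
  have h8 := h4 (d + 1) le_rfl
  omega

/-- **The zero estimate.** -/
theorem zero_estimate (E : Finset (Fin d → ℚ)) (h0 : 0 ∈ E) {T : ℕ} (hT : 0 < T)
    (hE : ∀ V : Submodule ℚ (Fin d → ℚ), V ≠ ⊤ →
      T ^ (d - finrank ℚ V) < (V.mkQ '' (E : Set (Fin d → ℚ))).ncard)
    {P : MvPolynomial (Fin d) ℚ} (hP0 : P ≠ 0) (hP : P.totalDegree ≤ T) :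
    ∃ x ∈ (d + 1) • E, eval x P ≠ 0 := by
  classical
  by_contra hvan
  push Not at hvan
  -- the sets `j E` increase
  have hsub : ∀ j : ℕ, j • E ⊆ (j + 1) • E := by
    intro j x hx
    rw [succ_nsmul]
    have := Finset.add_mem_add hx h0
    rwa [add_zero] at this
  have hsub' : ∀ j k : ℕ, j ≤ k → j • E ⊆ k • E := by
    intro j k hjk
    induction hjk with
    | refl => exact subset_rfl
    | step _ ih => exact ih.trans (hsub _)
  have h0' : ∀ j : ℕ, (0 : Fin d → ℚ) ∈ j • E := by
    intro j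
    apply hsub' 0 j (Nat.zero_le _)
    rw [zero_nsmul]
    exact Finset.zero_mem_zero
  set I : ℕ → Ideal (MvPolynomial (Fin d) ℚ) := fun j =>
    Ideal.span (van T (j • E) : Set (MvPolynomial (Fin d) ℚ)) with hI
  have hmono : ∀ j, I (j + 1) ≤ I j := by
    intro j
    apply Ideal.span_mono
    intro f hf
    exact ⟨hf.1, fun x hx => hf.2 x (hsub j hx)⟩
  have hIorig : ∀ j, I j ≤ orig d := by
    intro j
    rw [hI]
    refine Ideal.span_le.2 ?_
    intro f hf
    exact hf.2 0 (h0' j)
  have hPI : ∀ j ≤ d + 1, P ∈ I j := by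
    intro j hj
    apply Ideal.subset_span
    exact ⟨hP, fun x hx => hvan x (hsub' j (d + 1) hj hx)⟩
  have hle : ∀ j, (I j).height ≤ d := fun j =>
    (Ideal.height_mono (hIorig j)).trans (height_le_of_isPrime _)
  have hne : ∀ j, (I j).height ≠ ⊤ := fun j h => by
    have := hle j
    rw [h] at this
    exact absurd this (by simp)
  set c : ℕ → ℕ := fun j => (I j).height.toNat with hc
  have hcj : ∀ j, (c j : ℕ∞) = (I j).height := fun j => ENat.natCast_toNat (hne j)
  have hc1 : ∀ j ≤ d + 1, 1 ≤ c j := by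
    intro j hj
    by_contra h
    have h1 : c j = 0 := by omega
    have h2 := hcj j
    rw [h1, Nat.cast_zero] at h2
    have h3 := Ideal.height_eq_zero_iff_eq_bot.1 h2.symm
    have h4 := hPI j hj
    rw [h3, Ideal.mem_bot] at h4
    exact hP0 h4
  have hc2 : ∀ j, c j ≤ d := by
    intro j
    have := hle j
    rw [← hcj j] at this
    exact_mod_cast this
  have hc3 : ∀ j, c (j + 1) ≤ c j := by
    intro j
    have := Ideal.height_mono (hmono j)
    rw [← hcj j, ← hcj (j + 1)] at this
    exact_mod_cast this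
  obtain ⟨j, hj, hjc⟩ := exists_eq_succ c (fun j _ => hc2 j) (fun j _ => hc3 j)
  obtain ⟨p, hp, hIp, hph⟩ := Ideal.exists_isPrime_height_eq (hcj j).symm
  -- the translates of `p` contain `I (j + 1)`
  have htr : ∀ e ∈ E, I (j + 1) ≤ trI e p := by
    intro e he
    rw [hI]
    refine Ideal.span_le.2 ?_
    intro f hf
    rw [SetLike.mem_coe, mem_trI]
    apply hIp
    apply Ideal.subset_span
    refine ⟨(totalDegree_tr_le e f).trans hf.1, fun x hx => ?_⟩
    rw [eval_tr]
    apply hf.2
    rw [succ_nsmul]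
    exact Finset.add_mem_add hx he
  have hstab := height_add_finrank_stab_le p (c j) hph.ge
  have hcard : (E.image (fun e => trI e p)).card ≤ T ^ (c j) := by
    apply bezout (van T ((j + 1) • E)) hT (fun f hf => hf.1) (c j) _ (hc2 j)
    · intro q hq
      rw [Finset.mem_image] at hq
      obtain ⟨e, he, rfl⟩ := hq
      exact ⟨inferInstance, htr e he, by rw [height_trI, hph]⟩
    · rw [hjc, hcj (j + 1)]
  have hV : stab p ≠ ⊤ := by
    intro h
    rw [h, finrank_top, Module.finrank_fin_fun] at hstab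
    have := hc1 j (by omega)
    omega
  have h1 := hE (stab p) hV
  have h2 : ((stab p).mkQ '' (E : Set (Fin d → ℚ))).ncard ≤
      (E.image (fun e => trI e p)).card := by
    rw [← Finset.coe_image, Set.ncard_coe_finset]
    apply card_image_le_card_image
    intro a _ b _ hab
    rw [Submodule.mkQ_apply, Submodule.mkQ_apply, Submodule.Quotient.eq]
    exact sub_mem_stab_of_trI_eq p hab
  have h3 : T ^ (c j) ≤ T ^ (d - finrank ℚ (stab p)) :=
    Nat.pow_le_pow_right hT (by omega)
  omega

end Pool.Agent.MP_f02ea4.QR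
end
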