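import Mathlib
import Pool.Agent.Lib.MP_f02ea4_nt.Mg.G020
import Pool.Agent.Lib.MP_f02ea4_nt.Mg.G022
import Pool.Agent.Lib.MP_f02ea4_nt.QR.SimApply

section

/-! The biggest payer and dominance (MP_f02ea4). -/

set_option autoImplicit false

namespace Pool.Agent.MP_f02ea4.QR

open Finset Real
open Pool.Agent.Lib.MP_f02ea4_nt.Sm
open Pool.Agent.Lib.MP_f02ea4_nt.Ml (Lg s_prime s_ne_two s_sg s_aa_nonneg)
open Pool.Agent.Lib.MP_f02ea4_nt.AE (Vs fac_sum_le)

lemma not_dvd_self_Sq (N q : ℕ) (hq : q ∈ N.primeFactors) : (Sq N q).factorization q = 0 := by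
  have hqp := s_prime hq
  apply Nat.factorization_eq_zero_of_not_dvd
  intro h
  have h1 := s_sg hq
  have h2 : q ∣ q ^ nn N q - 1 := by
    rw [h1]
    exact Dvd.dvd.mul_left h _
  have h3 : q ∣ q ^ nn N q := dvd_pow_self q (by unfold nn; omega)
  have hpos : 1 ≤ q ^ nn N q := Nat.one_le_pow _ _ hqp.pos
  have h4 : q ∣ 1 := by
    have h5 := Nat.dvd_sub h3 h2
    have h6 : q ^ nn N q - (q ^ nn N q - 1) = 1 := by omega
    rwa [h6] at h5
  exact hqp.one_lt.ne' (Nat.dvd_one.1 h4)

/-- there is a biggest payer -/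
lemma exists_payer (N : ℕ) (hodd : Odd N) (hN : Nat.Perfect N) : ∃ f : ℕ → ℕ,
    ∀ r ∈ N.primeFactors, f r ∈ N.primeFactors ∧ f r ≠ r ∧
      N.factorization r ≤ N.primeFactors.card * (Sq N (f r)).factorization r := by
  classical
  have key : ∀ r : ℕ, ∃ a : ℕ, r ∈ N.primeFactors → a ∈ N.primeFactors ∧ a ≠ r ∧
      N.factorization r ≤ N.primeFactors.card * (Sq N a).factorization r := by
    intro r
    by_cases hr : r ∈ N.primeFactors
    · have hrp := s_prime hr
      have h1 := sum_val N hN r hrp (s_ne_two hodd hr)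
      obtain ⟨a, ha, hmax⟩ := exists_max_image N.primeFactors
        (fun q => (Sq N q).factorization r) ⟨r, hr⟩
      refine ⟨a, fun _ => ⟨ha, ?_, ?_⟩⟩
      · rintro rfl
        have h2 := not_dvd_self_Sq N a hr
        have h3 : N.factorization a = 0 := by
          rw [← h1]
          apply Finset.sum_eq_zero
          intro q hq
          have h4 := hmax q hq
          rw [h2] at h4
          omega
        have h4 := hrp.factorization_pos_of_dvd hN.2.ne' (Nat.dvd_of_mem_primeFactors hr)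
        omega
      · rw [← h1]
        calc ∑ q ∈ N.primeFactors, (Sq N q).factorization r
            ≤ ∑ _q ∈ N.primeFactors, (Sq N a).factorization r := sum_le_sum fun q hq => hmax q hq
          _ = N.primeFactors.card * (Sq N a).factorization r := by
              rw [sum_const, smul_eq_mul]
    · exact ⟨0, fun h => absurd h hr⟩
  choose f hf using key
  exact ⟨f, fun r hr => hf r hr⟩

/-- dominance on a set which contains no payer of its elements -/
lemma payer_dom (N y : ℕ) (hodd : Odd N) (hN : Nat.Perfect N) (hy : 3 ≤ y) (f : ℕ → ℕ)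
    (hf : ∀ r ∈ N.primeFactors, f r ∈ N.primeFactors ∧ f r ≠ r ∧
      N.factorization r ≤ N.primeFactors.card * (Sq N (f r)).factorization r)
    (B : Finset ℕ) (hB : B ⊆ Vs N y) (hind : ∀ r ∈ B, f r ∉ B)
    (hZ : ∀ r ∈ B, ((N.primeFactors.card : ℝ) * B.card * log y + 1) * log y ≤ nn N r * log r) :
    ∀ r ∈ B, ∑ q ∈ B.erase r, (q ^ nn N q - 1).factorization r < nn N r := by
  intro r hr
  have hrm := Finset.mem_filter.1 (hB hr)
  have hrP := hrm.1
  have hrp := s_prime hrP
  obtain ⟨hf1, hf2, hf3⟩ := hf r hrP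
  have hlogr : 1 ≤ log (r : ℝ) := d15_log3 (d15_three_le hodd hrP)
  have hyR : (3 : ℝ) ≤ y := by exact_mod_cast hy
  have hlogy : 1 ≤ log (y : ℝ) := d15_log3 hyR
  have hlogry : log (r : ℝ) ≤ log y :=
    Real.log_le_log (by exact_mod_cast hrp.pos) (by exact_mod_cast hrm.2)
  have hsplit : ∀ q ∈ B.erase r, (q ^ nn N q - 1).factorization r =
      (q - 1).factorization r + (Sq N q).factorization r := by
    intro q hq
    have hqP := (Finset.mem_filter.1 (hB (mem_of_mem_erase hq))).1
    have hqp := s_prime hqP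
    have hq1 : q - 1 ≠ 0 := by have := hqp.two_le; omega
    rw [s_sg hqP, Nat.factorization_mul hq1 (c1_ne_zero N q hqp)]
    rfl
  rw [sum_congr rfl hsplit, sum_add_distrib]
  -- the second sum
  have h1 := sum_val N hN r hrp (s_ne_two hodd hrP)
  have h2 : ∑ q ∈ B.erase r, (Sq N q).factorization r + (Sq N (f r)).factorization r ≤
      N.factorization r := by
    rw [← h1]
    have h3 : f r ∉ B.erase r := fun h => hind r hr (mem_of_mem_erase h)
    rw [add_comm, ← sum_insert (f := fun q => (Sq N q).factorization r) h3]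
    apply sum_le_sum_of_subset
    intro q hq
    rcases mem_insert.1 hq with h | h
    · rw [h]
      exact hf1
    · exact (Finset.mem_filter.1 (hB (mem_of_mem_erase h))).1
  -- the first sum
  have h4 : ((∑ q ∈ B.erase r, (q - 1).factorization r : ℕ) : ℝ) ≤ B.card * log y := by
    push_cast
    have h5 : ∀ q ∈ B.erase r, (((q - 1).factorization r : ℕ) : ℝ) ≤ log y := by
      intro q hq
      have hqm := Finset.mem_filter.1 (hB (mem_of_mem_erase hq))
      have hqp := s_prime hqm.1
      have h6 := Pool.Agent.Lib.MP_f02ea4_nt.AE.pred_sum_le y q hqp hqm.2 {r}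
      rw [Finset.sum_singleton] at h6
      have h7 : (0 : ℝ) ≤ ((q - 1).factorization r : ℕ) := Nat.cast_nonneg _
      nlinarith
    refine (sum_le_sum h5).trans ?_
    rw [sum_const, nsmul_eq_mul]
    apply mul_le_mul_of_nonneg_right _ (by linarith)
    exact_mod_cast card_le_card (erase_subset r B)
  -- conclusion
  have hom : 0 < N.primeFactors.card := card_pos.2 ⟨r, hrP⟩
  have homR : (0 : ℝ) < N.primeFactors.card := by exact_mod_cast hom
  have h8 : (nn N r : ℝ) = N.factorization r + 1 := by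
    unfold nn
    push_cast
    ring
  have h9 : (N.primeFactors.card : ℝ) * B.card * log y + 1 ≤ nn N r := by
    have h10 := hZ r hr
    have h11 : (nn N r : ℝ) * log r ≤ nn N r * log y :=
      mul_le_mul_of_nonneg_left hlogry (Nat.cast_nonneg _)
    exact le_of_mul_le_mul_right (h10.trans h11) (by linarith)
  have h10 : (N.primeFactors.card : ℝ) * (B.card * log y) ≤
      N.primeFactors.card * ((Sq N (f r)).factorization r : ℕ) := by
    have h11 : ((N.factorization r : ℕ) : ℝ) ≤
        (N.primeFactors.card : ℝ) * ((Sq N (f r)).factorization r : ℕ) := by exact_mod_cast hf3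
    linarith
  have h11 : (B.card : ℝ) * log y ≤ ((Sq N (f r)).factorization r : ℕ) :=
    le_of_mul_le_mul_left h10 homR
  have h12 : ∑ q ∈ B.erase r, (q - 1).factorization r ≤ (Sq N (f r)).factorization r := by
    exact_mod_cast h4.trans h11
  have h13 : nn N r = N.factorization r + 1 := rfl
  omega

/-- an independent set for the payer graph -/
lemma payer_indep (f : ℕ → ℕ) (S : Finset ℕ) (hf : ∀ r ∈ S, f r ≠ r) (t : ℕ)
    (hS : 3 * t ≤ S.card) : ∃ B ⊆ S, B.card = t ∧ ∀ r ∈ B, f r ∉ B := by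
  classical
  obtain ⟨B, hB, hBt, hBi⟩ := Pool.Agent.Lib.MP_f02ea4_nt.AG.indep_out (fun q r => r = f q) 1 t S
    (fun q _ => by
      have h1 : (S.filter (fun r => r = f q)) ⊆ {f q} := by
        intro r hr
        exact mem_singleton.2 (mem_filter.1 hr).2
      have h2 := card_le_card h1
      rw [card_singleton] at h2
      convert h2) (by omega)
  refine ⟨B, hB, hBt, fun r hr hfr => ?_⟩
  exact hBi r hr (f r) hfr (fun h => hf r (hB hr) h.symm) rfl

end Pool.Agent.MP_f02ea4.QR
end

section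

/-! One application of the simultaneous lower bound to an odd perfect number. -/

set_option autoImplicit false

namespace Pool.Agent.MP_f02ea4.QR

open Finset Real
open Pool.Agent.Lib.MP_f02ea4_nt.Sm
open Pool.Agent.Lib.MP_f02ea4_nt.Ml (Lg s_prime s_ne_two s_sg s_aa_nonneg basics)
open Pool.Agent.Lib.MP_f02ea4_nt.AE (Vs hv fac_sum_le light_part)

lemma log_prime_le (N q : ℕ) (hN : Nat.Perfect N) (hq : q ∈ N.primeFactors) :
    log (q : ℝ) ≤ log (N : ℝ) := by
  apply Real.log_le_log
  · exact_mod_cast (s_prime hq).pos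
  · exact_mod_cast Nat.le_of_dvd hN.2 (Nat.dvd_of_mem_primeFactors hq)

lemma nn_log_le (N q : ℕ) (hN : Nat.Perfect N) (hq : q ∈ N.primeFactors) :
    (nn N q : ℝ) * log q ≤ 2 * log N := by
  have hqp := s_prime hq
  have h1 : q ^ N.factorization q ≤ N := Nat.le_of_dvd hN.2 (Nat.ordProj_dvd _ _)
  have h2 : (N.factorization q : ℝ) * log q ≤ log N := by
    rw [← Real.log_pow]
    apply Real.log_le_log
    · have : (0 : ℝ) < q := by exact_mod_cast hqp.pos
      positivity
    · exact_mod_cast h1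
  have h3 := log_prime_le N q hN hq
  have h4 : (nn N q : ℝ) = N.factorization q + 1 := by
    unfold nn
    push_cast
    ring
  rw [h4]
  linarith

/-- one block -/
theorem one_block {C : ℕ} (hC : SimulC C) (N y : ℕ) (hodd : Odd N) (hN : Nat.Perfect N)
    (hy : 3 ≤ y) (f : ℕ → ℕ)
    (hf : ∀ r ∈ N.primeFactors, f r ∈ N.primeFactors ∧ f r ≠ r ∧
      N.factorization r ≤ N.primeFactors.card * (Sq N (f r)).factorization r)
    (T : ℝ) (hT : 0 ≤ T) (U H' B : Finset ℕ) (hUV : U ⊆ Vs N y) (hBH : B ⊆ H') (hHU : H' ⊆ U)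
    (hheavy : ∀ q ∈ B, ∀ r ∈ U, hv N T q r → r ∈ H')
    (hind : ∀ r ∈ B, f r ∉ B) (hBne : B.Nonempty) (W Z : ℝ) (m : ℕ)
    (hm : (Lg N y).card = m) (hmB : 2 * m ≤ B.card)
    (hW1 : 1 ≤ W) (hW : ∀ q ∈ B, log y + log 2 + (Vs N y).card * T + log (nn N q : ℝ) +
      ∑ r ∈ Vs N y \ U, aa N q r ≤ W)
    (hZ : ∀ q ∈ B, Z ≤ nn N q * log q)
    (hZ2 : ((N.primeFactors.card : ℝ) * B.card * log y + 1) * log y ≤ Z) :
    Z ≤ exp (C * (((H'.card : ℝ) / B.card + 2) *
      log (((H'.card : ℝ) + m + 1) * log y * (2 + (log (log N) + log y) + log W))) +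
        2 * (m : ℝ) / B.card * log W) * W := by
  classical
  obtain ⟨hX1, -, -, -⟩ := basics N hodd hN
  set X : ℝ := log (N : ℝ) with hX
  set L : ℝ := log X with hL
  have hL0 : 0 ≤ L := Real.log_nonneg hX1
  have hX0 : 0 < X := by linarith
  have hyR : (3 : ℝ) ≤ y := by exact_mod_cast hy
  have hlogy : 1 ≤ log (y : ℝ) := d15_log3 hyR
  have hlogW : 0 ≤ log W := Real.log_nonneg hW1
  have hHV : H' ⊆ Vs N y := hHU.trans hUV
  have hdisj : Disjoint H' (Lg N y) := by
    rw [Finset.disjoint_left]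
    intro r hr hr'
    have h1 := (Finset.mem_filter.1 (hHV hr)).2
    have h2 := (Finset.mem_filter.1 hr').2
    omega
  obtain ⟨h', hh'⟩ : ∃ h' : ℕ, h' = H'.card := ⟨_, rfl⟩
  obtain ⟨t, ht⟩ : ∃ t : ℕ, t = B.card := ⟨_, rfl⟩
  have ht1 : 1 ≤ t := by rw [ht]; exact hBne.card_pos
  have hth : t ≤ h' := by rw [ht, hh']; exact card_le_card hBH
  have hcard : (H' ∪ Lg N y).card = h' + m := by
    rw [card_union_of_disjoint hdisj, hm, hh']
  have hHP : ∀ r ∈ H' ∪ Lg N y, r ∈ N.primeFactors := by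
    intro r hr
    rcases mem_union.1 hr with h | h
    · exact (Finset.mem_filter.1 (hHV h)).1
    · exact (Finset.mem_filter.1 h).1
  have hexp : exp (2 + (L + log y)) = exp 2 * X * y := by
    rw [← add_assoc, Real.exp_add, Real.exp_add, hL, Real.exp_log hX0, Real.exp_log (by linarith)]
  have hexp2 : (4 : ℝ) ≤ exp 2 := by
    have h1 := Real.exp_one_gt_d9
    have h2 : exp (2 : ℝ) = exp 1 * exp 1 := by
      rw [← Real.exp_add]
      norm_num
    rw [h2]
    nlinarith
  have hbig : 4 * X ≤ exp (2 + (L + log y)) := by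
    rw [hexp]
    have h1 : 4 * X ≤ exp 2 * X := mul_le_mul_of_nonneg_right hexp2 hX0.le
    have h2 : exp 2 * X * 1 ≤ exp 2 * X * y :=
      mul_le_mul_of_nonneg_left (by linarith) (by positivity)
    linarith
  have hBV : B ⊆ Vs N y := hBH.trans hHV
  obtain ⟨n, hn⟩ : ∃ n : ℕ, n = h' + m := ⟨_, rfl⟩
  have hn1 : 1 ≤ n := by omega
  have ht0R : (0 : ℝ) < t := by exact_mod_cast ht1
  have hm0R : (0 : ℝ) ≤ m := Nat.cast_nonneg m
  obtain ⟨ρ, hρ⟩ : ∃ ρ : ℕ, ρ = (n + t - 1) / t := ⟨_, rfl⟩
  have hρ1 : n ≤ ρ * t := by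
    have h1 := Nat.lt_mul_div_succ (n + t - 1) (by omega : 0 < t)
    rw [← hρ] at h1
    have h2 : t * (ρ + 1) = ρ * t + t := by ring
    omega
  have hρ2 : (ρ : ℝ) * t ≤ n + t := by
    have h1 : ρ * t ≤ n + t - 1 := by
      rw [hρ]
      exact Nat.div_mul_le_self _ _
    have h2 : ρ * t ≤ n + t := by omega
    exact_mod_cast h2
  have hρ3 : (ρ : ℝ) ≤ (h' : ℝ) / t + 2 := by
    have h1 : (m : ℝ) ≤ t := by
      have : m ≤ t := by omega
      exact_mod_cast this
    have h2 : (ρ : ℝ) * t ≤ ((h' : ℝ) / t + 2) * t := by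
      rw [add_mul, div_mul_cancel₀ _ ht0R.ne']
      rw [hn] at hρ2
      push_cast at hρ2
      linarith
    exact le_of_mul_le_mul_right h2 ht0R
  have key := simul_primes hC (H' ∪ Lg N y) B H' (hBH.trans subset_union_left) subset_union_left
    hBne (fun r hr => s_prime (hHP r hr)) (nn N) (fun q _ => by unfold nn; omega)
    (payer_dom N y hodd hN hy f hf B hBV hind (fun r hr => hZ2.trans (hZ r hr)))
    (log y) W (2 + (L + log y)) Z ρ
    (fun r hr => by
      have h1 := Finset.mem_filter.1 (hHV hr)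
      exact Real.log_le_log (by exact_mod_cast (s_prime h1.1).pos) (by exact_mod_cast h1.2))
    hlogy
    (fun r hr => by
      have h1 := log_prime_le N r hN (hHP r hr)
      linarith)
    (fun q hq => by
      refine le_trans ?_ (hW q hq)
      refine light_part N y q T hodd hN (hBV hq) U H' hT ?_
      intro r hr
      have h1 := Finset.mem_filter.1 hr
      exact hheavy q hq r h1.1 h1.2)
    hW1 (by linarith)
    (fun q hq => by
      have h1 := nn_log_le N q hN (Finset.mem_filter.1 (hBV hq)).1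
      linarith)
    hZ (by rw [hcard, ← hn, ← ht]; exact hρ1) m (by rw [hcard, hh']) hmB
  rw [hcard, ← ht] at key
  push_cast at key
  rw [← hh', ← ht]
  set A : ℝ := ((h' : ℝ) + m + 1) * log y * (2 + (L + log y) + log W) with hA
  have hA1 : 1 ≤ A := by
    have h1 : (1 : ℝ) ≤ (h' : ℝ) + m + 1 := by
      have : (0 : ℝ) ≤ h' := Nat.cast_nonneg _
      linarith
    have h2 : (1 : ℝ) ≤ ((h' : ℝ) + m + 1) * log y := by nlinarith
    rw [hA]
    nlinarith
  refine key.trans ?_
  have hW0 : 0 < W := by linarith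
  rw [Real.rpow_add hW0, Real.rpow_one, Real.exp_add]
  have h1 : A ^ (C * ρ) ≤ exp (C * (((h' : ℝ) / t + 2) * log A)) := by
    have h2 : A ^ (C * ρ) = exp (((C * ρ : ℕ) : ℝ) * log A) := by
      rw [Real.exp_nat_mul, Real.exp_log (by linarith)]
    rw [h2]
    apply exp_le_exp.2
    push_cast
    have h3 : 0 ≤ log A := Real.log_nonneg hA1
    have h4 : (ρ : ℝ) * log A ≤ ((h' : ℝ) / t + 2) * log A := mul_le_mul_of_nonneg_right hρ3 h3
    have h5 : (0 : ℝ) ≤ C := Nat.cast_nonneg _
    calc (C : ℝ) * ρ * log A = C * (ρ * log A) := by ring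
      _ ≤ C * (((h' : ℝ) / t + 2) * log A) := mul_le_mul_of_nonneg_left h4 h5
  have h2 : W ^ (2 * (m : ℝ) / t) = exp (2 * (m : ℝ) / t * log W) := by
    rw [Real.rpow_def_of_pos hW0]
    congr 1
    ring
  rw [h2]
  calc A ^ (C * ρ) * (W * exp (2 * (m : ℝ) / t * log W)) ≤
      exp (C * (((h' : ℝ) / t + 2) * log A)) * (W * exp (2 * (m : ℝ) / t * log W)) := by
        apply mul_le_mul_of_nonneg_right h1
        positivity
    _ = _ := by ring

end Pool.Agent.MP_f02ea4.QR
end
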