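import Mathlib
import Pool.Agent.Lib.MP_f02ea4_nt.Mg.G024
import Pool.Agent.Lib.MP_f02ea4_nt.Mg.G020

section

/-! Few heavy payers, `log y` up to a small power of `X`. -/

set_option autoImplicit false

namespace Pool.Agent.MP_f02ea4.QR

open Finset Real
open Pool.Agent.Lib.MP_f02ea4_nt.Sm
open Pool.Agent.Lib.MP_f02ea4_nt.Ml (absorb_log)
open Pool.Agent.Lib.MP_f02ea4_nt.AG

theorem heavy_count4 : ∃ X0 : ℝ, 3 ≤ X0 ∧ ∀ (X : ℝ) (y r : ℕ) (H : Finset ℕ), X0 ≤ X →
    log y ≤ X ^ (1 / 16 : ℝ) → r.Prime → r ≤ y →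
    (∀ q ∈ H, q.Prime ∧ q ≤ y) →
    (∀ q ∈ H, X ^ (1 / 4 : ℝ) * log y < ((q ^ (r - 1) - 1).factorization r : ℝ) * log r) →
    (H.card : ℝ) ≤ 1 + 16 * (log r / (1 + log X)) := by
  refine ⟨17 ^ 16, by norm_num, ?_⟩
  intro X y r H hX hyA hr hry hH hheavy
  have hX3 : 3 ≤ X := le_trans (by norm_num) hX
  have hX1 : 1 ≤ X := by linarith
  have hlX1 : 1 ≤ log X := d15_log3 hX3
  have hr2 := hr.two_le
  have hr1R : (1 : ℝ) ≤ r := by exact_mod_cast (by omega : 1 ≤ r)
  have hy1 : (1 : ℝ) ≤ y := by exact_mod_cast (by omega : 1 ≤ y)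
  have hlogr : 0 ≤ log (r : ℝ) := log_nonneg hr1R
  have hlogry : log (r : ℝ) ≤ log y :=
    Real.log_le_log (by linarith) (by exact_mod_cast hry)
  have hL : 0 < 1 + log X := by linarith
  have hA0 : 0 ≤ log (r : ℝ) / (1 + log X) := div_nonneg hlogr hL.le
  have hX16 : (17 : ℝ) ≤ X ^ (1 / 16 : ℝ) := by
    have h6 : ((17 : ℝ) ^ 16) ^ (1 / 16 : ℝ) ≤ X ^ (1 / 16 : ℝ) :=
      Real.rpow_le_rpow (by positivity) hX (by norm_num)
    rw [← Real.rpow_natCast 17 16, ← Real.rpow_mul (by norm_num)] at h6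
    norm_num at h6
    norm_num
    exact h6
  have hA1 : log (r : ℝ) / (1 + log X) ≤ X ^ (1 / 16 : ℝ) := by
    rw [div_le_iff₀ hL]
    calc log (r : ℝ) ≤ log y := hlogry
      _ ≤ X ^ (1 / 16 : ℝ) := hyA
      _ ≤ X ^ (1 / 16 : ℝ) * (1 + log X) := le_mul_of_one_le_right (by linarith) (by linarith)
  by_contra hcon
  rw [not_le] at hcon
  set i := ⌊16 * (log (r : ℝ) / (1 + log X))⌋₊ + 1 with hi
  have hi0 : 0 < i := by omega
  have hi1 : 16 * (log (r : ℝ) / (1 + log X)) < i := by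
    rw [hi]
    push_cast
    exact Nat.lt_floor_add_one _
  have hi2 : (i : ℝ) ≤ 1 + 16 * (log (r : ℝ) / (1 + log X)) := by
    rw [hi]
    push_cast
    have := Nat.floor_le (by linarith : 0 ≤ 16 * (log (r : ℝ) / (1 + log X)))
    linarith
  have hcard : i ≤ H.card := by
    have : (i : ℝ) ≤ H.card := hi2.trans hcon.le
    exact_mod_cast this
  obtain ⟨H', hH', hH'c⟩ := Finset.exists_subset_card_eq hcard
  let q : Fin i → ℕ := fun j => ((Finset.equivFin H').symm (Fin.cast hH'c.symm j) : ℕ)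
  have hqmem : ∀ j, q j ∈ H := fun j => hH' ((Finset.equivFin H').symm (Fin.cast hH'c.symm j)).2
  have hqinj : Function.Injective q := by
    intro a b hab
    have h1 : (Finset.equivFin H').symm (Fin.cast hH'c.symm a) =
        (Finset.equivFin H').symm (Fin.cast hH'c.symm b) := Subtype.ext hab
    have h2 := (Finset.equivFin H').symm.injective h1
    exact Fin.cast_injective _ h2
  obtain ⟨j0, -, hj0⟩ := Finset.exists_min_image (Finset.univ : Finset (Fin i))
    (fun j => ((q j) ^ (r - 1) - 1).factorization r) ⟨⟨0, hi0⟩, mem_univ _⟩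
  set v := ((q j0) ^ (r - 1) - 1).factorization r with hv
  have hv0 := hheavy (q j0) (hqmem j0)
  rw [← hv] at hv0
  set T := X ^ (1 / 4 : ℝ) with hT
  have hT1 : 1 ≤ T := Real.one_le_rpow hX1 (by norm_num)
  set u := ⌊T⌋₊ with hu
  have huT : (u : ℝ) ≤ T := Nat.floor_le (by linarith)
  have hTu : T ≤ u + 1 := (Nat.lt_floor_add_one T).le
  have hlogy : 0 ≤ log (y : ℝ) := log_nonneg hy1
  have hPu : y ^ u < r ^ v := by
    have h1 : (y : ℝ) ^ u < (r : ℝ) ^ v := by
      have hr0 : (0 : ℝ) < r := by linarith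
      have hy0 : (0 : ℝ) < y := by linarith
      rw [← Real.log_lt_log_iff (by positivity) (by positivity), Real.log_pow, Real.log_pow]
      calc (u : ℝ) * log y ≤ T * log y := mul_le_mul_of_nonneg_right huT hlogy
        _ < v * log r := hv0
    exact_mod_cast h1
  have hg := gap_principle r v y u i hr q (fun j => (hH _ (hqmem j)).1) hqinj
    (fun j => (hH _ (hqmem j)).2) (by
      intro j
      have h1 : v ≤ ((q j) ^ (r - 1) - 1).factorization r := hj0 j (mem_univ _)
      exact (Nat.pow_dvd_pow r h1).trans (Nat.ordProj_dvd _ _)) hPu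
  have hpc : ((u : ℝ) + 1) ^ i ≤ (i.factorial : ℝ) * ((i + u).choose i : ℝ) := by
    have h1 := Nat.pow_le_choose (α := ℝ) i (i + u)
    have h2 : i + u + 1 - i = u + 1 := by omega
    rw [h2] at h1
    push_cast at h1
    rw [div_le_iff₀ (by positivity)] at h1
    linarith
  have hch : ((i + u).choose i : ℝ) ≤ r := by
    exact_mod_cast (hg.trans (by omega) : (i + u).choose i ≤ r)
  have hfac : (i.factorial : ℝ) ≤ (i : ℝ) ^ i := by exact_mod_cast Nat.factorial_le_pow i
  have hmain : T ^ i ≤ (i : ℝ) ^ i * r := by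
    calc T ^ i ≤ ((u : ℝ) + 1) ^ i := pow_le_pow_left₀ (by linarith) hTu _
      _ ≤ (i.factorial : ℝ) * ((i + u).choose i : ℝ) := hpc
      _ ≤ (i : ℝ) ^ i * r := by
        apply mul_le_mul hfac hch (by positivity) (by positivity)
  have hi0R : (0 : ℝ) < i := by exact_mod_cast hi0
  have hlog : (i : ℝ) * (1 / 4 * log X) ≤ i * log i + log r := by
    have h1 := Real.log_le_log (by positivity) hmain
    rw [Real.log_pow, Real.log_mul (by positivity) (by positivity), Real.log_pow, hT,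
      Real.log_rpow (by linarith)] at h1
    exact h1
  have hlogi : log (i : ℝ) ≤ 1 / 8 * log X := by
    rw [← Real.log_rpow (by linarith)]
    refine Real.log_le_log hi0R ?_
    have h2 : X ^ (1 / 8 : ℝ) = X ^ (1 / 16 : ℝ) * X ^ (1 / 16 : ℝ) := by
      rw [← Real.rpow_add (by linarith)]
      norm_num
    rw [h2]
    nlinarith
  have h1 : (i : ℝ) * (1 / 8 * log X) ≤ log r := by
    have h2 : (i : ℝ) * log i ≤ i * (1 / 8 * log X) := mul_le_mul_of_nonneg_left hlogi hi0R.le
    linarith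
  have h3 : 16 * log (r : ℝ) < i * (1 + log X) := by
    have h4 : 16 * (log (r : ℝ) / (1 + log X)) * (1 + log X) < i * (1 + log X) :=
      mul_lt_mul_of_pos_right hi1 hL
    have h5 : 16 * (log (r : ℝ) / (1 + log X)) * (1 + log X) = 16 * log r := by
      field_simp
    linarith
  have h6 : (i : ℝ) * (1 + log X) ≤ i * (2 * log X) :=
    mul_le_mul_of_nonneg_left (by linarith) hi0R.le
  nlinarith

end Pool.Agent.MP_f02ea4.QR
end

section

/-! The radical corollary. -/

set_option autoImplicit false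

namespace Pool.Agent.MP_f02ea4.QR

open Finset Real

open Pool.Agent.Lib.MP_f02ea4_nt.Ml (Lg)
open Pool.Agent.Lib.MP_f02ea4_nt.AE (Vs)

lemma rc_log3 : (1.095 : ℝ) ≤ log 3 := by
  have h1 : 2 * log 3 = 3 * log 2 + log (9 / 8) := by
    have h2 : log ((3 : ℝ) ^ 2) = 2 * log 3 := by rw [log_pow]; norm_num
    have h3 : log ((2 : ℝ) ^ 3) = 3 * log 2 := by rw [log_pow]; norm_num
    rw [← h2, ← h3, ← log_mul (by norm_num) (by norm_num)]
    norm_num
  have h2 : (1 : ℝ) - (9 / 8 : ℝ)⁻¹ ≤ log (9 / 8) := one_sub_inv_le_log_of_pos (by norm_num)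
  have h3 := log_two_gt_d9
  norm_num at h2
  linarith

lemma rc_loglog {t : ℝ} (ht : 3 ≤ t) : (1 / 13 : ℝ) ≤ log (log t) := by
  have hlogN : (1.095 : ℝ) ≤ log t := le_trans rc_log3 (log_le_log (by norm_num) ht)
  have h1 : (1 : ℝ) - (log t)⁻¹ ≤ log (log t) := one_sub_inv_le_log_of_pos (by linarith)
  have h2 : (log t)⁻¹ ≤ (1.095 : ℝ)⁻¹ := inv_anti₀ (by norm_num) hlogN
  have h3 : (1.095 : ℝ)⁻¹ ≤ 11 / 12 := by norm_num
  linarith

/-- the real inequality behind the corollary -/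
lemma rc_real (C L R w : ℝ) (hC : 0 ≤ C) (hL : 0 ≤ L) (hR : 1 ≤ R) (hs : 1 / 13 ≤ log R)
    (hw0 : 0 ≤ w) (hw : w ≤ R)
    (h : L ≤ C * (1 + log (1 + w / (1 + L))) *
      ((1 + log (1 + w / (1 + L))) + log (2 + L + R))) :
    L ≤ (1458 * (2 * C + 1) ^ 2) * log R ^ 2 := by
  set s := log R with hsdef
  set a := 2 + s with ha
  have ha1 : 1 ≤ a := by linarith
  have hlR : log (1 + R) ≤ 1 + s := by
    have h1 : log (1 + R) ≤ log (2 * R) := log_le_log (by linarith) (by linarith)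
    rw [log_mul (by norm_num) (by linarith)] at h1
    have h2 : log 2 ≤ 1 := by
      have := log_two_lt_d9
      linarith
    linarith
  set l := 1 + log (1 + w / (1 + L)) with hl
  have hl1 : 1 ≤ l := by
    have : 0 ≤ log (1 + w / (1 + L)) := log_nonneg (by
      have : 0 ≤ w / (1 + L) := by positivity
      linarith)
    linarith
  have hla : l ≤ a := by
    have h1 : w / (1 + L) ≤ R := by
      rw [div_le_iff₀ (by linarith)]
      nlinarith
    have h2 : log (1 + w / (1 + L)) ≤ log (1 + R) := log_le_log (by positivity) (by linarith)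
    linarith
  have h2 : log (2 + L + R) ≤ log (2 + L) + (1 + s) := by
    have h3 : log (2 + L + R) ≤ log ((2 + L) * (1 + R)) := log_le_log (by linarith) (by nlinarith)
    rw [log_mul (by linarith) (by linarith)] at h3
    linarith
  have hlog2L : 0 ≤ log (2 + L) := log_nonneg (by linarith)
  -- `log (2 + L) ≤ (2 + L) / c + log c`
  set c := (2 * C + 1) * a with hc
  have hc1 : 1 ≤ c := by nlinarith
  have h3 : log (2 + L) ≤ (2 + L) / c + c := by
    have h4 : log ((2 + L) / c) ≤ (2 + L) / c - 1 := log_le_sub_one_of_pos (by positivity)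
    rw [log_div (by linarith) (by linarith)] at h4
    have h5 : log c ≤ c - 1 := log_le_sub_one_of_pos (by linarith)
    linarith
  have h4 : L ≤ C * a * (2 * a + ((2 + L) / c + c)) := by
    refine h.trans ?_
    have h5 : C * l ≤ C * a := mul_le_mul_of_nonneg_left hla hC
    have h6 : l + log (2 + L + R) ≤ 2 * a + ((2 + L) / c + c) := by linarith
    have h7 : 0 ≤ l + log (2 + L + R) := by
      have : 0 ≤ log (2 + L + R) := log_nonneg (by linarith)
      linarith
    exact mul_le_mul h5 h6 h7 (by positivity)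
  have h5 : C * a * ((2 + L) / c) ≤ (2 + L) / 2 := by
    rw [mul_div_assoc', div_le_div_iff₀ (by linarith) (by norm_num)]
    have : C * a * 2 ≤ c := by rw [hc]; nlinarith
    nlinarith
  have h6 : L ≤ 2 * (C * a * (2 * a) + 1 + C * a * c) := by
    have : C * a * (2 * a + ((2 + L) / c + c)) =
        C * a * (2 * a) + C * a * ((2 + L) / c) + C * a * c := by ring
    rw [this] at h4
    linarith
  have h7 : 2 * (C * a * (2 * a) + 1 + C * a * c) ≤ 2 * (2 * C + 1) ^ 2 * a ^ 2 := by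
    rw [hc]
    have h8 : 2 * (2 * C + 1) ^ 2 * a ^ 2 - 2 * (C * a * (2 * a) + 1 + C * a * ((2 * C + 1) * a)) =
        (4 * C ^ 2 + 2 * C) * a ^ 2 + 2 * (a ^ 2 - 1) := by ring
    have h9 : 1 ≤ a ^ 2 := by nlinarith
    have h10 : 0 ≤ (4 * C ^ 2 + 2 * C) * a ^ 2 := by positivity
    linarith
  have h8 : a ≤ 27 * s := by linarith
  have h9 : a ^ 2 ≤ (27 * s) ^ 2 := pow_le_pow_left₀ (by linarith) h8 2
  calc L ≤ 2 * (2 * C + 1) ^ 2 * a ^ 2 := h6.trans h7
    _ ≤ 2 * (2 * C + 1) ^ 2 * (27 * s) ^ 2 := mul_le_mul_of_nonneg_left h9 (by positivity)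
    _ = (1458 * (2 * C + 1) ^ 2) * s ^ 2 := by ring

theorem rad_cor (C : ℕ) (h : ∀ N y : ℕ, Odd N → Nat.Perfect N → 3 ≤ y →
    log (log (N : ℝ)) ≤ C * ((Lg N y).card +
      (1 + log (1 + ((Vs N y).card : ℝ) / (1 + log (log (N : ℝ)))))) *
      ((1 + log (1 + ((Vs N y).card : ℝ) / (1 + log (log (N : ℝ))))) +
        log (2 + log (log (N : ℝ)) + log y))) :
    ∃ C' : ℕ, 1 ≤ C' ∧ ∀ N : ℕ, Odd N → Nat.Perfect N →
      log (log (N : ℝ)) ≤ C' * log (log ((∏ p ∈ N.primeFactors, p : ℕ) : ℝ)) ^ 2 := by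
  refine ⟨1458 * (2 * C + 1) ^ 2, Nat.succ_le_of_lt (by positivity), ?_⟩
  intro N hodd hN
  -- `N ≥ 3`
  have hN3 : 3 ≤ N := by
    have h0 : 0 < N := hN.2
    have h1 : N ≠ 1 := by
      intro h
      have h2 := hN.1
      rw [h] at h2
      simp at h2
    obtain ⟨k, hk⟩ := hodd
    omega
  have hprime3 : ∀ p ∈ N.primeFactors, 3 ≤ p := by
    intro p hp
    have h1 := Nat.prime_of_mem_primeFactors hp
    have h2 := h1.two_le
    have h3 : p ≠ 2 := by
      rintro rfl
      exact (Nat.not_even_iff_odd.2 hodd) (even_iff_two_dvd.2 (Nat.dvd_of_mem_primeFactors hp))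
    omega
  set r := ∏ p ∈ N.primeFactors, p with hr
  have hrpos : 0 < r := Finset.prod_pos fun p hp => (by have := hprime3 p hp; omega)
  have hple : ∀ p ∈ N.primeFactors, p ≤ r := fun p hp =>
    Nat.le_of_dvd hrpos (Finset.dvd_prod_of_mem _ hp)
  have hne : N.primeFactors.Nonempty := by
    rw [Nat.nonempty_primeFactors]
    omega
  have hr3 : 3 ≤ r := by
    obtain ⟨p, hp⟩ := hne
    exact (hprime3 p hp).trans (hple p hp)
  have hr3R : (3 : ℝ) ≤ r := by exact_mod_cast hr3
  have hL : 1 / 13 ≤ log (log (N : ℝ)) := rc_loglog (by exact_mod_cast hN3)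
  have hs := rc_loglog hr3R
  have hR : 1 ≤ log (r : ℝ) := by
    have := le_trans rc_log3 (log_le_log (by norm_num) hr3R)
    linarith
  have hLg : Lg N r = ∅ := by
    rw [Finset.filter_eq_empty_iff]
    intro p hp
    exact not_lt.2 (hple p hp)
  have hVs : Vs N r = N.primeFactors := by
    rw [Finset.filter_eq_self]
    exact hple
  have hw : (N.primeFactors.card : ℝ) ≤ log (r : ℝ) := by
    rw [hr]
    push_cast
    rw [Real.log_prod]
    · calc (N.primeFactors.card : ℝ) = ∑ p ∈ N.primeFactors, (1 : ℝ) := by simp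
        _ ≤ ∑ p ∈ N.primeFactors, log (p : ℝ) := Finset.sum_le_sum fun p hp => by
          have h1 : (3 : ℝ) ≤ p := by exact_mod_cast hprime3 p hp
          have := le_trans rc_log3 (log_le_log (by norm_num) h1)
          linarith
    · intro p hp
      have := hprime3 p hp
      positivity
  have h1 := h N r hodd hN hr3
  rw [hLg, hVs, Finset.card_empty, Nat.cast_zero, zero_add] at h1
  have h2 := rc_real C (log (log (N : ℝ))) (log (r : ℝ)) N.primeFactors.card (Nat.cast_nonneg _)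
    (by linarith) hR hs (Nat.cast_nonneg _) hw h1
  push_cast
  exact h2

end Pool.Agent.MP_f02ea4.QR
end
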