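import Mathlib
import Pool.Agent.Lib.MP_f02ea4_nt.QR.StepB

section

/-! Iteration of the levels and the final doubling (MP_f02ea4). -/

set_option autoImplicit false

namespace Pool.Agent.MP_f02ea4.QR

open Finset Real
open Pool.Agent.Lib.MP_f02ea4_nt.Sm
open Pool.Agent.Lib.MP_f02ea4_nt.Ml (Lg s_prime s_ne_two s_sg s_aa_nonneg basics HH process)
open Pool.Agent.Lib.MP_f02ea4_nt.AE (Vs hv fac_sum_le light_part col_le nn_le_log)

/-- iteration of one level -/
lemma iterate {V : Finset ℕ} (mass : Finset ℕ → ℝ) (M c1 b' : ℝ) (hM : 0 < M)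
    (hstep : ∀ s : ℝ, M ≤ s → ∀ U ⊆ V, (U.card : ℝ) ≤ s → ∃ U' ⊆ U, (U'.card : ℝ) ≤ 3 / 4 * s ∧
      mass U' ≤ exp (c1 + b' / s) * mass U) (n : ℕ) :
    ∀ U ⊆ V, (U.card : ℝ) ≤ M * (4 / 3) ^ n → ∃ U' ⊆ U, (U'.card : ℝ) ≤ M ∧
      mass U' ≤ exp (c1 * n + b' / M * (3 * (1 - (3 / 4) ^ n))) * mass U := by
  induction n with
  | zero =>
    intro U _ hU
    refine ⟨U, Subset.refl _, by simpa using hU, ?_⟩
    simp
  | succ n ih =>
    intro U hUV hU
    have hs : M ≤ M * (4 / 3) ^ (n + 1) := by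
      have : (1 : ℝ) ≤ (4 / 3) ^ (n + 1) := one_le_pow₀ (by norm_num)
      nlinarith
    obtain ⟨U1, hU1, hc, hm1⟩ := hstep _ hs U hUV hU
    obtain ⟨U2, hU2, hc2, hm2⟩ := ih U1 (hU1.trans hUV) (by
      refine hc.trans (le_of_eq ?_)
      rw [pow_succ]
      ring)
    refine ⟨U2, hU2.trans hU1, hc2, hm2.trans ?_⟩
    refine (mul_le_mul_of_nonneg_left hm1 (exp_pos _).le).trans (le_of_eq ?_)
    rw [← mul_assoc, ← Real.exp_add]
    congr 2
    have h1 : b' / (M * (4 / 3 : ℝ) ^ (n + 1)) = b' / M * (3 / 4) ^ (n + 1) := by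
      have h2 : ((3 : ℝ) / 4) ^ (n + 1) = ((4 / 3 : ℝ) ^ (n + 1))⁻¹ := by
        rw [← inv_pow]
        norm_num
      rw [h2]
      field_simp
    rw [h1]
    push_cast
    ring

/-- number of levels -/
lemma levels_number (M k : ℝ) (hM : 0 < M) (hk : 0 ≤ k) : ∃ n : ℕ, k ≤ M * (4 / 3) ^ n ∧
    (n : ℝ) ≤ 1 + 4 * log (1 + k / M) := by
  have h0 : 0 ≤ k / M := div_nonneg hk hM.le
  have hl : 0 ≤ log (1 + k / M) := Real.log_nonneg (by linarith)
  refine ⟨⌈4 * log (1 + k / M)⌉₊, ?_, ?_⟩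
  · set n := ⌈4 * log (1 + k / M)⌉₊ with hn
    have h1 : 4 * log (1 + k / M) ≤ n := Nat.le_ceil _
    have h2 : (1 : ℝ) / 4 ≤ log (4 / 3) := by
      have := Real.one_sub_inv_le_log_of_pos (show (0 : ℝ) < 4 / 3 by norm_num)
      norm_num at this ⊢
      linarith
    have h3 : log (1 + k / M) ≤ log ((4 / 3 : ℝ) ^ n) := by
      rw [Real.log_pow]
      nlinarith
    have h4 : 1 + k / M ≤ (4 / 3 : ℝ) ^ n :=
      (Real.log_le_log_iff (by linarith) (by positivity)).1 h3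
    have h5 : k / M ≤ (4 / 3 : ℝ) ^ n := by linarith
    rw [div_le_iff₀ hM] at h5
    linarith
  · have := Nat.ceil_lt_add_one (by positivity : 0 ≤ 4 * log (1 + k / M))
    linarith

/-- size of the light part -/
lemma ll_le (N y : ℕ) (hy : 3 ≤ y) (hX : 256 ≤ log (N : ℝ)) :
    ll N y ≤ 6 * (((Vs N y).card : ℝ) + 1) * log (N : ℝ) ^ (1 / 4 : ℝ) * log y := by
  have hyR : (3 : ℝ) ≤ y := by exact_mod_cast hy
  have hlogy : 1 ≤ log (y : ℝ) := d15_log3 hyR
  obtain ⟨X, hXd⟩ : ∃ X : ℝ, X = log (N : ℝ) := ⟨_, rfl⟩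
  obtain ⟨R, hR⟩ : ∃ R : ℝ, R = log (N : ℝ) ^ (1 / 4 : ℝ) := ⟨_, rfl⟩
  have hR4 : 4 ≤ R := by rw [hR]; exact X4_ge hX
  have hk0 : (0 : ℝ) ≤ (Vs N y).card := Nat.cast_nonneg _
  have h1 : log (3 * log (N : ℝ)) ≤ 4 * R := by
    have h2 : log (N : ℝ) = R ^ 4 := by
      rw [hR, ← Real.rpow_natCast, ← Real.rpow_mul (by linarith)]
      norm_num
    have h3 : log R ≤ R - 1 := Real.log_le_sub_one_of_pos (by linarith)
    rw [Real.log_mul (by norm_num) (by linarith), h2, Real.log_pow]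
    have h4 : log (3 : ℝ) ≤ 2 := by
      have := Real.log_le_sub_one_of_pos (by norm_num : (0 : ℝ) < 3)
      linarith
    push_cast
    linarith
  unfold ll
  rw [← hR]
  have h5 : (1 : ℝ) ≤ (((Vs N y).card : ℝ) + 1) := by linarith
  have h6 : R * log y ≤ (((Vs N y).card : ℝ) + 1) * (R * log y) :=
    le_mul_of_one_le_left (by positivity) h5
  have h7 : 4 * R ≤ 4 * (R * log y) := by nlinarith
  have h8 : log (y : ℝ) + 1 ≤ R * log y := by nlinarith
  have h9 : 6 * (((Vs N y).card : ℝ) + 1) * R * log y =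
      6 * ((((Vs N y).card : ℝ) + 1) * (R * log y)) := by ring
  rw [h9]
  linarith

/-- final bound from a level step -/
theorem final_gen (N y : ℕ) (hodd : Odd N) (hN : Nat.Perfect N) (hy : 3 ≤ y)
    (hX : 256 ≤ log (N : ℝ)) (m : ℕ) (hm : (Lg N y).card = m) (c1 b' : ℝ) (hc1 : 0 ≤ c1)
    (hb' : 0 ≤ b')
    (hstep : ∀ s : ℝ, log (log (N : ℝ)) / 8 ≤ s → ∀ U ⊆ Vs N y, (U.card : ℝ) ≤ s →
      ∃ U' ⊆ U, (U'.card : ℝ) ≤ 3 / 4 * s ∧
        mss N y (ll N y) U' ≤ exp (c1 + b' / s) * mss N y (ll N y) U) :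
    log (log (N : ℝ)) ≤ 4 * m + 2 * (c1 * (13 * (1 + log (1 + ((Vs N y).card : ℝ) /
      (1 + log (log (N : ℝ))))))) + 48 * b' / log (log (N : ℝ)) +
        4 * log (((Vs N y).card : ℝ) + 1) + 4 + 2 * log (log y) := by
  classical
  obtain ⟨hX1, -, hom, hom1⟩ := basics N hodd hN
  have hL3 := L_ge_three _ hX
  have hllk := ll_le N y hy hX
  have hll := ll_nonneg N y hy hX
  set X : ℝ := log (N : ℝ) with hXd
  set L : ℝ := log X with hL
  have hX0 : 0 < X := by linarith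
  have hyR : (3 : ℝ) ≤ y := by exact_mod_cast hy
  have hlogy : 1 ≤ log (y : ℝ) := d15_log3 hyR
  obtain ⟨k, hk⟩ : ∃ k : ℕ, k = (Vs N y).card := ⟨_, rfl⟩
  rw [← hk] at hllk ⊢
  have hk0 : (0 : ℝ) ≤ k := Nat.cast_nonneg _
  have hm0 : (0 : ℝ) ≤ m := Nat.cast_nonneg _
  obtain ⟨M, hM⟩ : ∃ M : ℝ, M = L / 8 := ⟨_, rfl⟩
  have hM0 : 0 < M := by linarith
  obtain ⟨n, hn1, hn2⟩ := levels_number M k hM0 hk0
  obtain ⟨U, hUV, hUc, hUm⟩ := iterate (V := Vs N y) (mss N y (ll N y)) M c1 b' hM0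
    (by rw [hM]; exact hstep) n (Vs N y) (Subset.refl _) (by rw [← hk]; exact hn1)
  obtain ⟨Φ, hΦ⟩ : ∃ Φ : ℝ, Φ = c1 * n + b' / M * (3 * (1 - (3 / 4) ^ n)) := ⟨_, rfl⟩
  rw [← hΦ] at hUm
  have hp0 : (0 : ℝ) ≤ (3 / 4 : ℝ) ^ n := by positivity
  have hp1 : ((3 / 4 : ℝ)) ^ n ≤ 1 := pow_le_one₀ (by norm_num) (by norm_num)
  have hbM : 0 ≤ b' / M := by positivity
  have hΦ0 : 0 ≤ Φ := by
    rw [hΦ]
    have h1 : 0 ≤ c1 * n := by positivity
    have h2 : 0 ≤ b' / M * (3 * (1 - (3 / 4 : ℝ) ^ n)) := by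
      apply mul_nonneg hbM
      linarith
    linarith
  -- number of levels
  have hn13 : (n : ℝ) ≤ 13 * (1 + log (1 + (k : ℝ) / (1 + L))) := by
    have hlam0 : 0 < 1 + L := by linarith
    have hkl : 0 ≤ (k : ℝ) / (1 + L) := by positivity
    have hkM : (k : ℝ) / M ≤ 16 * (k / (1 + L)) := by
      rw [mul_div_assoc', div_le_div_iff₀ hM0 hlam0, hM]
      nlinarith
    have h0 : 0 ≤ (k : ℝ) / M := by positivity
    have h1 : log (1 + (k : ℝ) / M) ≤ log (16 * (1 + k / (1 + L))) := by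
      apply Real.log_le_log (by linarith)
      linarith
    rw [Real.log_mul (by norm_num) (by linarith)] at h1
    have h2 : log (16 : ℝ) ≤ 3 := by
      have h4 : log ((2 : ℝ) ^ 4) = 4 * log 2 := by rw [Real.log_pow]; norm_num
      have h3 : (16 : ℝ) = 2 ^ 4 := by norm_num
      rw [h3, h4]
      have := Real.log_two_lt_d9
      linarith
    have h3 : 0 ≤ log (1 + (k : ℝ) / (1 + L)) := Real.log_nonneg (by linarith)
    linarith
  have hΦ2 : Φ ≤ c1 * (13 * (1 + log (1 + (k : ℝ) / (1 + L)))) + 24 * b' / L := by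
    rw [hΦ]
    have h1 : c1 * n ≤ c1 * (13 * (1 + log (1 + (k : ℝ) / (1 + L)))) :=
      mul_le_mul_of_nonneg_left hn13 hc1
    have h2 : b' / M * (3 * (1 - (3 / 4 : ℝ) ^ n)) ≤ b' / M * 3 :=
      mul_le_mul_of_nonneg_left (by linarith) hbM
    have h3 : b' / M * 3 = 24 * b' / L := by
      rw [hM]
      field_simp
      ring
    linarith
  -- cards
  have hcards : N.primeFactors.card = k + m := by
    have h1 : (Vs N y).card + (N.primeFactors.filter (fun p => ¬ p ≤ y)).card =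
        N.primeFactors.card := Finset.card_filter_add_card_filter_not _
    have h2 : N.primeFactors.filter (fun p => ¬ p ≤ y) = Lg N y := by
      apply Finset.filter_congr
      intro p _
      exact not_le
    rw [h2, hm, ← hk] at h1
    omega
  have hproc := process N hodd hN (Vs N y) (Vs N y \ U) (Finset.filter_subset _ _)
    Finset.sdiff_subset (2 * m + U.card) (by
      rw [hcards, Finset.card_sdiff_of_subset hUV, ← hk]
      have := Finset.card_le_card hUV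
      omega)
  have hll1 := ll_1 (N := N) hy hX
  rw [← hk] at hll1
  have hHH : HH N (Vs N y) (Vs N y \ U) ≤ mss N y (ll N y) U := by
    unfold HH mss
    have h1 : ∑ p ∈ Vs N y, log (p : ℝ) ≤ k * ll N y := by
      rw [hk, ← nsmul_eq_mul]
      apply Finset.sum_le_card_nsmul
      intro p hp
      have hpm := Finset.mem_filter.1 hp
      have h2 : log (p : ℝ) ≤ log y :=
        Real.log_le_log (by exact_mod_cast (s_prime hpm.1).pos) (by exact_mod_cast hpm.2)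
      nlinarith
    rw [← hk]
    linarith
  have hmV : mss N y (ll N y) (Vs N y) = k * ll N y := by
    unfold mss
    rw [Finset.sdiff_self, Finset.sum_empty, zero_add, ← hk]
  rw [hmV] at hUm
  have hlog4 : log (4 * (N.primeFactors.card : ℝ)) ≤ ll N y := by
    have h1 : log (4 * (N.primeFactors.card : ℝ)) ≤ log (4 * X) := by
      apply Real.log_le_log
      · have : (0 : ℝ) < N.primeFactors.card := by exact_mod_cast hom1
        positivity
      · linarith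
    have h2 : log (4 * X) ≤ 1 + log (3 * X) := by
      have h3 : log (4 * X) = log (4 / 3) + log (3 * X) := by
        rw [← Real.log_mul (by norm_num) (by positivity)]
        congr 1
        ring
      have h4 := Real.log_le_sub_one_of_pos (by norm_num : (0 : ℝ) < 4 / 3)
      linarith
    unfold ll
    rw [← hXd, ← hk]
    have h3 : 0 ≤ ((k : ℝ) + 1) * (X ^ (1 / 4 : ℝ) * log y) := by positivity
    linarith
  have hexp1 : 1 ≤ exp Φ := Real.one_le_exp hΦ0
  have hmain : X ≤ 2 ^ (2 * m + U.card) * (exp Φ * (((k : ℝ) + 1) * ll N y)) := by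
    refine hproc.trans ?_
    apply mul_le_mul_of_nonneg_left _ (by positivity)
    have h1 : ll N y ≤ exp Φ * ll N y := le_mul_of_one_le_left hll hexp1
    have h2 : exp Φ * (((k : ℝ) + 1) * ll N y) = exp Φ * (k * ll N y) + exp Φ * ll N y := by ring
    rw [h2]
    linarith
  -- logarithms
  have hR4 : 4 ≤ X ^ (1 / 4 : ℝ) := X4_ge hX
  have hmain2 : X ≤ 2 ^ (2 * m + U.card) * (exp Φ * (((k : ℝ) + 1) *
      (6 * ((k : ℝ) + 1) * X ^ (1 / 4 : ℝ) * log y))) := by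
    refine hmain.trans ?_
    apply mul_le_mul_of_nonneg_left _ (by positivity)
    apply mul_le_mul_of_nonneg_left _ (exp_pos _).le
    exact mul_le_mul_of_nonneg_left hllk (by linarith)
  have hlog := Real.log_le_log hX0 hmain2
  rw [Real.log_mul (by positivity) (by positivity), Real.log_pow,
    Real.log_mul (exp_pos _).ne' (by positivity), Real.log_exp,
    Real.log_mul (by positivity) (by positivity), Real.log_mul (by positivity) (by positivity),
    Real.log_mul (by positivity) (by positivity), Real.log_mul (by norm_num) (by positivity),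
    Real.log_rpow hX0] at hlog
  have h6 : log (6 : ℝ) ≤ 21 / 10 := by
    have h7 : log (6 : ℝ) ≤ log (2 ^ 3) := Real.log_le_log (by norm_num) (by norm_num)
    have h8 : log ((2 : ℝ) ^ 3) = 3 * log 2 := by rw [Real.log_pow]; norm_num
    have := Real.log_two_lt_d9
    linarith
  have h7 : ((2 * m + U.card : ℕ) : ℝ) * log 2 ≤ 7 / 10 * (2 * m + L / 8) := by
    push_cast
    have h8 := Real.log_two_lt_d9
    have h9 : (U.card : ℝ) ≤ L / 8 := by rw [← hM]; exact hUc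
    have h10 := Real.log_two_gt_d9
    have h11 : (2 * (m : ℝ) + U.card) * log 2 ≤ (2 * m + L / 8) * log 2 :=
      mul_le_mul_of_nonneg_right (by linarith) (by linarith)
    have h12 : (2 * (m : ℝ) + L / 8) * log 2 ≤ (2 * m + L / 8) * (7 / 10) :=
      mul_le_mul_of_nonneg_left (by linarith) (by linarith)
    linarith
  have hXL : log X = L := rfl
  rw [hXL] at hlog
  have h13 : 48 * b' / L = 2 * (24 * b' / L) := by ring
  rw [h13]
  linarith

end Pool.Agent.MP_f02ea4.QR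
end

section

/-! The two main inequalities (MP_f02ea4). -/

set_option autoImplicit false

namespace Pool.Agent.MP_f02ea4.QR

open Finset Real
open Pool.Agent.Lib.MP_f02ea4_nt.Sm
open Pool.Agent.Lib.MP_f02ea4_nt.Ml (Lg s_prime s_ne_two s_sg s_aa_nonneg basics HH process)
open Pool.Agent.Lib.MP_f02ea4_nt.AE (Vs hv fac_sum_le light_part col_le nn_le_log)

/-- `log (k + 1) ≤ l + log (2 + L + w)` -/
lemma log_k (k L w : ℝ) (hk : 0 ≤ k) (hL : 0 ≤ L) (hw : 0 ≤ w) :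
    log (k + 1) ≤ log (1 + k / (1 + L)) + log (2 + L + w) := by
  have h0 : 0 < 1 + L := by linarith
  have h1 : k + 1 ≤ (1 + k / (1 + L)) * (1 + L) := by
    rw [add_mul, div_mul_cancel₀ _ h0.ne']
    linarith
  have h2 := Real.log_le_log (by linarith) h1
  have h3 : 0 ≤ k / (1 + L) := div_nonneg hk h0.le
  rw [Real.log_mul (by linarith) h0.ne'] at h2
  have h4 := Real.log_le_log h0 (by linarith : 1 + L ≤ 2 + L + w)
  linarith

/-- FIRST MAIN INEQUALITY -/
theorem main_A {C : ℕ} (hC : SimulC C) (hC1 : 1 ≤ C) : ∃ C' : ℕ, 1 ≤ C' ∧ ∀ N y : ℕ, Odd N →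
    Nat.Perfect N → 3 ≤ y → log (log (N : ℝ)) ≤ C' * ((Lg N y).card +
      (1 + log (1 + ((Vs N y).card : ℝ) / (1 + log (log (N : ℝ))))) *
        ((1 + log (1 + ((Vs N y).card : ℝ) / (1 + log (log (N : ℝ))))) +
          log (2 + log (log (N : ℝ)) + log y))) := by
  refine ⟨100000 * C, by omega, ?_⟩
  intro N y hodd hN hy
  obtain ⟨hX1, hlogN, hom, hom1⟩ := basics N hodd hN
  obtain ⟨X, hX⟩ : ∃ X : ℝ, X = log (N : ℝ) := ⟨_, rfl⟩
  obtain ⟨L, hL⟩ : ∃ L : ℝ, L = log (log (N : ℝ)) := ⟨_, rfl⟩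
  obtain ⟨m, hm⟩ : ∃ m : ℕ, (Lg N y).card = m := ⟨_, rfl⟩
  obtain ⟨k, hk⟩ : ∃ k : ℝ, k = ((Vs N y).card : ℝ) := ⟨_, rfl⟩
  have hyR : (3 : ℝ) ≤ y := by exact_mod_cast hy
  have hlogy : 1 ≤ log (y : ℝ) := d15_log3 hyR
  have hL0 : 0 ≤ L := by rw [hL]; exact Real.log_nonneg hX1
  rw [← hL, ← hk, hm]
  have hk0 : 0 ≤ k := by rw [hk]; exact Nat.cast_nonneg _
  have hm0 : (0 : ℝ) ≤ m := Nat.cast_nonneg _
  have hkl : 0 ≤ k / (1 + L) := div_nonneg hk0 (by linarith)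
  obtain ⟨l, hl⟩ : ∃ l : ℝ, l = 1 + log (1 + k / (1 + L)) := ⟨_, rfl⟩
  rw [← hl]
  have hl1 : 1 ≤ l := by
    rw [hl]
    have := Real.log_nonneg (by linarith : 1 ≤ 1 + k / (1 + L))
    linarith
  obtain ⟨Λ, hΛ⟩ : ∃ Λ : ℝ, Λ = log (2 + L + log y) := ⟨_, rfl⟩
  rw [← hΛ]
  have hΛ1 : 1 ≤ Λ := by
    rw [hΛ, Real.le_log_iff_exp_le (by linarith)]
    have := Real.exp_one_lt_d9
    linarith
  have hCR : (1 : ℝ) ≤ C := by exact_mod_cast hC1
  have hS1 : 1 ≤ l * (l + Λ) := by nlinarith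
  have hSl : Λ ≤ l * (l + Λ) := by nlinarith
  have hSl2 : l ≤ l * (l + Λ) := by nlinarith
  have hSS : 0 ≤ l * (l + Λ) := by linarith
  push_cast
  by_cases hc1 : L < 512
  · nlinarith
  rw [not_lt] at hc1
  by_cases hc2 : L / 16 < log (log (y : ℝ))
  · have h1 : log (log (y : ℝ)) ≤ Λ := by
      rw [hΛ]
      exact Real.log_le_log (by linarith) (by linarith)
    nlinarith
  rw [not_lt] at hc2
  by_cases hc3 : L < 1024 * m
  · nlinarith
  rw [not_lt] at hc3
  have hX256 : 256 ≤ log (N : ℝ) := by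
    have h1 : log (log (N : ℝ)) ≤ log (N : ℝ) := by
      have := Real.log_le_sub_one_of_pos (by linarith : 0 < log (N : ℝ))
      linarith
    rw [← hL] at h1
    linarith
  have hly : log (log (y : ℝ)) ≤ log (log (N : ℝ)) := by
    rw [← hL]
    linarith
  have key := final_gen N y hodd hN hy hX256 m hm
    (3 + C * (66 * (log ((Vs N y).card + m + 1) + 3 +
        2 * log (2 + log (log (N : ℝ)) + log y)))) (640 * m * log (log (N : ℝ))) (by
      rw [← hk, ← hL, ← hΛ]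
      have h1 : 0 ≤ log (k + m + 1) := Real.log_nonneg (by linarith)
      positivity) (by rw [← hL]; positivity)
    (fun s hs U hUV hUs => by
      rw [← hL] at hs
      exact stepA hC hC1 N y hodd hN hy hX256 hly m hm s (by linarith) (by linarith) U hUV hUs)
  rw [← hk, ← hL, ← hΛ, ← hl] at key
  have h1 : log (k + 1) ≤ l + Λ := by
    have := log_k k L (log y) hk0 hL0 (by linarith)
    rw [← hΛ] at this
    linarith
  have h2 : log (k + m + 1) ≤ l + 2 * Λ := by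
    have h3 : k + m + 1 ≤ (k + 1) * (2 + L + log y) := by nlinarith
    have h4 := Real.log_le_log (by linarith) h3
    rw [Real.log_mul (by linarith) (by linarith), ← hΛ] at h4
    linarith
  obtain ⟨c1, hc1'⟩ : ∃ c1 : ℝ, c1 = 3 + (C : ℝ) * (66 * (log (k + m + 1) + 3 + 2 * Λ)) :=
    ⟨_, rfl⟩
  rw [← hc1'] at key
  have h3 : c1 ≤ 270 * C * (l + Λ) := by
    rw [hc1']
    have h4 : log (k + m + 1) + 3 + 2 * Λ ≤ 4 * (l + Λ) := by linarith
    have h5 : (C : ℝ) * (66 * (log (k + m + 1) + 3 + 2 * Λ)) ≤ C * (66 * (4 * (l + Λ))) := by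
      apply mul_le_mul_of_nonneg_left _ (by linarith)
      linarith
    have h6 : 3 ≤ (C : ℝ) * (l + Λ) * 6 := by nlinarith
    linarith
  have h4 : 2 * (c1 * (13 * l)) ≤ 7020 * C * (l * (l + Λ)) := by
    have h5 := mul_le_mul_of_nonneg_right h3 (by linarith : 0 ≤ 13 * l)
    linarith
  have h5 : 48 * (640 * m * L) / L = 30720 * m := by
    field_simp
    ring
  rw [h5] at key
  have h6 : log (log (y : ℝ)) ≤ Λ := by
    rw [hΛ]
    exact Real.log_le_log (by linarith) (by linarith)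
  have h7 : (m : ℝ) ≤ C * m := le_mul_of_one_le_left hm0 hCR
  have h8 : l * (l + Λ) ≤ C * (l * (l + Λ)) := le_mul_of_one_le_left hSS hCR
  have h9 : 0 ≤ (C : ℝ) * (l * (l + Λ)) := by positivity
  have h10 : 0 ≤ (C : ℝ) * m := by positivity
  linarith

open Classical in
/-- SECOND MAIN INEQUALITY -/
theorem main_B {C : ℕ} (hC : SimulC C) (hC1 : 1 ≤ C)
    (hheavy : ∃ X0 : ℝ, 3 ≤ X0 ∧ ∀ (X : ℝ) (y r : ℕ) (H : Finset ℕ), X0 ≤ X →
      log y ≤ X ^ (1 / 16 : ℝ) → r.Prime → r ≤ y → (∀ q ∈ H, q.Prime ∧ q ≤ y) →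
      (∀ q ∈ H, X ^ (1 / 4 : ℝ) * log y < ((q ^ (r - 1) - 1).factorization r : ℝ) * log r) →
      (H.card : ℝ) ≤ 1 + 16 * (log r / (1 + log X))) : ∃ C' : ℕ, 1 ≤ C' ∧ ∀ N y : ℕ, Odd N →
    Nat.Perfect N → 3 ≤ y → log (log (N : ℝ)) ≤ C' * ((Lg N y).card +
      (1 + log (1 + ((Vs N y).card : ℝ) / (1 + log (log (N : ℝ))))) *
        ((1 + 16 * (log y / (1 + log (log (N : ℝ))))) *
          log (2 + log (log (N : ℝ)) + log y))) := by
  obtain ⟨X0, hX03, hX0⟩ := hheavy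
  refine ⟨100000 * C + ⌈X0⌉₊, by omega, ?_⟩
  intro N y hodd hN hy
  obtain ⟨hX1, hlogN, hom, hom1⟩ := basics N hodd hN
  obtain ⟨X, hX⟩ : ∃ X : ℝ, X = log (N : ℝ) := ⟨_, rfl⟩
  obtain ⟨L, hL⟩ : ∃ L : ℝ, L = log (log (N : ℝ)) := ⟨_, rfl⟩
  obtain ⟨m, hm⟩ : ∃ m : ℕ, (Lg N y).card = m := ⟨_, rfl⟩
  obtain ⟨k, hk⟩ : ∃ k : ℝ, k = ((Vs N y).card : ℝ) := ⟨_, rfl⟩
  have hyR : (3 : ℝ) ≤ y := by exact_mod_cast hy
  have hlogy : 1 ≤ log (y : ℝ) := d15_log3 hyR
  have hL0 : 0 ≤ L := by rw [hL]; exact Real.log_nonneg hX1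
  rw [← hL, ← hk, hm]
  have hk0 : 0 ≤ k := by rw [hk]; exact Nat.cast_nonneg _
  have hm0 : (0 : ℝ) ≤ m := Nat.cast_nonneg _
  have hkl : 0 ≤ k / (1 + L) := div_nonneg hk0 (by linarith)
  obtain ⟨l, hl⟩ : ∃ l : ℝ, l = 1 + log (1 + k / (1 + L)) := ⟨_, rfl⟩
  rw [← hl]
  have hl1 : 1 ≤ l := by
    rw [hl]
    have := Real.log_nonneg (by linarith : 1 ≤ 1 + k / (1 + L))
    linarith
  obtain ⟨Λ, hΛ⟩ : ∃ Λ : ℝ, Λ = log (2 + L + log y) := ⟨_, rfl⟩
  rw [← hΛ]
  have hΛ1 : 1 ≤ Λ := by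
    rw [hΛ, Real.le_log_iff_exp_le (by linarith)]
    have := Real.exp_one_lt_d9
    linarith
  obtain ⟨a, ha⟩ : ∃ a : ℝ, a = 1 + 16 * (log y / (1 + L)) := ⟨_, rfl⟩
  rw [← ha]
  have ha1 : 1 ≤ a := by
    rw [ha]
    have : 0 ≤ log (y : ℝ) / (1 + L) := by positivity
    linarith
  have hCR : (1 : ℝ) ≤ C := by exact_mod_cast hC1
  have haΛ : Λ ≤ a * Λ := by nlinarith
  have hS0 : a * Λ ≤ l * (a * Λ) := by nlinarith
  have hSl2 : l ≤ l * (a * Λ) := by nlinarith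
  have hSS : 1 ≤ l * (a * Λ) := by linarith
  obtain ⟨S, hS⟩ : ∃ S : ℝ, S = l * (a * Λ) := ⟨_, rfl⟩
  rw [← hS] at hS0 hSl2 hSS ⊢
  have hX0c : X0 ≤ (⌈X0⌉₊ : ℝ) := Nat.le_ceil X0
  have hX0n : (0 : ℝ) ≤ (⌈X0⌉₊ : ℝ) := Nat.cast_nonneg _
  have hX0m : 0 ≤ (⌈X0⌉₊ : ℝ) * (m + S) := by positivity
  push_cast
  have hLX : L ≤ log (N : ℝ) := by
    rw [hL]
    have := Real.log_le_sub_one_of_pos (by linarith : 0 < log (N : ℝ))
    linarith
  by_cases hc0 : log (N : ℝ) < X0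
  · have h1 : (⌈X0⌉₊ : ℝ) ≤ (⌈X0⌉₊ : ℝ) * (m + S) :=
      le_mul_of_one_le_right hX0n (by linarith)
    have h2 : 0 ≤ 100000 * (C : ℝ) * (m + S) := by positivity
    linarith
  rw [not_lt] at hc0
  have hCS : ∀ x : ℝ, x ≤ 100000 * (m + S) → x ≤ (100000 * (C : ℝ) + ⌈X0⌉₊) * (m + S) := by
    intro x hx
    have h1 : 100000 * ((m : ℝ) + S) ≤ 100000 * C * (m + S) := by
      have h2 : (m : ℝ) + S ≤ C * (m + S) := le_mul_of_one_le_left (by linarith) hCR
      linarith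
    linarith
  by_cases hc1 : L < 512
  · apply hCS
    linarith
  rw [not_lt] at hc1
  by_cases hc2 : L / 16 < log (log (y : ℝ))
  · have h1 : log (log (y : ℝ)) ≤ Λ := by
      rw [hΛ]
      exact Real.log_le_log (by linarith) (by linarith)
    apply hCS
    linarith
  rw [not_lt] at hc2
  by_cases hc3 : L < 1024 * m
  · apply hCS
    linarith
  rw [not_lt] at hc3
  have hX256 : 256 ≤ log (N : ℝ) := by linarith
  have hly : log (log (y : ℝ)) ≤ log (log (N : ℝ)) := by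
    rw [← hL]
    linarith
  have hyX : log (y : ℝ) ≤ log (N : ℝ) ^ (1 / 16 : ℝ) := by
    have h1 : log (y : ℝ) = exp (log (log (y : ℝ))) := (Real.exp_log (by linarith)).symm
    rw [h1, Real.rpow_def_of_pos (by linarith)]
    apply exp_le_exp.2
    rw [← hL]
    linarith
  have hI : ∀ r ∈ Vs N y, (((Vs N y).filter (fun q => hv N (log (N : ℝ) ^ (1 / 4 : ℝ) * log y) q
      r)).card : ℝ) ≤ a := by
    intro r hr
    rw [Finset.mem_filter] at hr
    have hrp := s_prime hr.1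
    refine (hX0 (log (N : ℝ)) y r _ hc0 hyX hrp hr.2 ?_ ?_).trans ?_
    · intro q hq
      rw [Finset.mem_filter, Finset.mem_filter] at hq
      exact ⟨s_prime hq.1.1, hq.1.2⟩
    · intro q hq
      rw [Finset.mem_filter, Finset.mem_filter] at hq
      have h1 : log (N : ℝ) ^ (1 / 4 : ℝ) * log y < bb N q r := hq.2
      have h2 : bb N q r ≤ ((q ^ (r - 1) - 1).factorization r : ℝ) * log r := by
        unfold bb
        split_ifs
        · exact le_rfl
        · exact mul_nonneg (Nat.cast_nonneg _) (log_natCast_nonneg r)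
      exact h1.trans_le h2
    · rw [ha, ← hL]
      have h1 : log (r : ℝ) ≤ log y :=
        Real.log_le_log (by exact_mod_cast hrp.pos) (by exact_mod_cast hr.2)
      have h2 : log (r : ℝ) / (1 + L) ≤ log y / (1 + L) :=
        div_le_div_of_nonneg_right h1 (by linarith)
      linarith
  have key := final_gen N y hodd hN hy hX256 m hm
    (4 + 72 * C * a * log (2 + log (log (N : ℝ)) + log y)) (640 * m * log (log (N : ℝ))) (by
      rw [← hL, ← hΛ]
      positivity) (by rw [← hL]; positivity)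
    (fun s hs U hUV hUs => by
      rw [← hL] at hs
      exact stepB hC hC1 N y hodd hN hy hX256 hly a (by rw [ha, hL]) hI m hm
        (by rw [← hL]; linarith) s (by linarith) (by linarith) U hUV hUs)
  rw [← hk, ← hL, ← hΛ, ← hl] at key
  have h1 : log (k + 1) ≤ l + Λ := by
    have := log_k k L (log y) hk0 hL0 (by linarith)
    rw [← hΛ] at this
    linarith
  have h3 : 4 + 72 * C * a * Λ ≤ 76 * C * (a * Λ) := by
    have h4 : (1 : ℝ) ≤ C * (a * Λ) := by nlinarith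
    linarith
  have h4 : 2 * ((4 + 72 * C * a * Λ) * (13 * l)) ≤ 1976 * (C * S) := by
    have h5 := mul_le_mul_of_nonneg_right h3 (by linarith : 0 ≤ 13 * l)
    rw [hS]
    linarith
  have h5 : 48 * (640 * m * L) / L = 30720 * m := by
    field_simp
    ring
  rw [h5] at key
  have h6 : log (log (y : ℝ)) ≤ Λ := by
    rw [hΛ]
    exact Real.log_le_log (by linarith) (by linarith)
  have h7 : (m : ℝ) ≤ C * m := le_mul_of_one_le_left hm0 hCR
  have h8 : S ≤ C * S := le_mul_of_one_le_left (by linarith) hCR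
  have h9 : 0 ≤ (C : ℝ) * S := by positivity
  have h10 : 0 ≤ (C : ℝ) * m := by positivity
  linarith

end Pool.Agent.MP_f02ea4.QR
end
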