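import Mathlib
import Pool.Agent.Lib.MP_f02ea4_nt.Mg.G023
import Pool.Agent.Lib.MP_f02ea4_nt.MK.MkF
import Pool.Agent.Lib.MP_f02ea4_nt.QR.NumV3

section

/-! Many large primes with the simultaneous lower bound (MP_f02ea4). -/

set_option autoImplicit false

namespace Pool.Agent.MP_f02ea4.QR

open Finset Real
open Pool.Agent.Lib.MP_f02ea4_nt.Sm
open Pool.Agent.Lib.MP_f02ea4_nt.Ml (Lg s_prime s_ne_two s_sg s_aa_nonneg basics cof w_bound)
open Pool.Agent.Lib.MP_f02ea4_nt.AE (nn_le_log)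

/-- the threshold -/
noncomputable def Zs (C N y t j : ℕ) (w : ℝ) : ℝ :=
  exp (C * (3 * log (((t : ℝ) + j + 1) * log y * (2 + (log (log (N : ℝ)) + log y) + log w))) +
    2 * (j : ℝ) / t * log w) * w

/-- fewer than `t` heavy small primes -/
lemma heavy_v3 {C : ℕ} (hC : SimulC C) (hC1 : 1 ≤ C) (η : ℝ) (hη : 0 < η) : ∃ C1 : ℝ, 1 ≤ C1 ∧
    ∀ (N y t j : ℕ) (w : ℝ), Odd N → Nat.Perfect N → 3 ≤ y → (Lg N y).card = j → 1 ≤ t →
      2 * j ≤ t → ((y : ℝ) * (j + C1 * (y : ℝ) ^ η) + 2) * log y +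
        log ((Nat.log 2 N + 1 : ℕ) : ℝ) ≤ w → 1 ≤ w →
      (N.primeFactors.filter (fun p => p ≤ y ∧ Zs C N y t j w < nn N p * log (p : ℝ))).card < t := by
  classical
  obtain ⟨C1, hC11, hcof⟩ := cof η hη
  refine ⟨C1, hC11, ?_⟩
  intro N y t j w hodd hN hy hj ht hjt hw hw1
  by_contra hcon
  rw [not_lt] at hcon
  obtain ⟨hX1, -, -, -⟩ := basics N hodd hN
  have hL0 : 0 ≤ log (log (N : ℝ)) := Real.log_nonneg hX1
  have hyR : (3 : ℝ) ≤ y := by exact_mod_cast hy
  have hlogy : 1 ≤ log (y : ℝ) := d15_log3 hyR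
  have hlogw : 0 ≤ log w := Real.log_nonneg hw1
  obtain ⟨B, hBsub, hBt⟩ := Finset.exists_subset_card_eq hcon
  have hB : ∀ q ∈ B, q ∈ N.primeFactors ∧ q ≤ y ∧ Zs C N y t j w < nn N q * log (q : ℝ) := by
    intro q hq
    have := Finset.mem_filter.1 (hBsub hq)
    exact ⟨this.1, this.2.1, this.2.2⟩
  have hBne : B.Nonempty := by
    rw [← card_pos, hBt]
    omega
  have hdisj : Disjoint B (Lg N y) := by
    rw [Finset.disjoint_left]
    intro r hr hr'
    have h1 := (hB r hr).2.1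
    have h2 := (Finset.mem_filter.1 hr').2
    omega
  have hcard : (B ∪ Lg N y).card = B.card + j := by
    rw [card_union_of_disjoint hdisj, hj]
  have hHP : ∀ r ∈ B ∪ Lg N y, r ∈ N.primeFactors := by
    intro r hr
    rcases mem_union.1 hr with h | h
    · exact (hB r h).1
    · exact (Finset.mem_filter.1 h).1
  have hexp : exp (2 + (log (log (N : ℝ)) + log y)) = exp 2 * log (N : ℝ) * y := by
    rw [← add_assoc, Real.exp_add, Real.exp_add, Real.exp_log (by linarith),
      Real.exp_log (by linarith)]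
  have hexp2 : (4 : ℝ) ≤ exp 2 := by
    have h1 := Real.exp_one_gt_d9
    have h2 : exp (2 : ℝ) = exp 1 * exp 1 := by
      rw [← Real.exp_add]
      norm_num
    rw [h2]
    nlinarith
  have hX0 : 0 < log (N : ℝ) := by linarith
  have hbig : 4 * log (N : ℝ) ≤ exp (2 + (log (log (N : ℝ)) + log y)) := by
    rw [hexp]
    have h1 : 4 * log (N : ℝ) ≤ exp 2 * log (N : ℝ) := mul_le_mul_of_nonneg_right hexp2 hX0.le
    have h2 : exp 2 * log (N : ℝ) * 1 ≤ exp 2 * log (N : ℝ) * y :=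
      mul_le_mul_of_nonneg_left (by linarith) (by positivity)
    linarith
  -- the small part
  have hsmall : ∀ q ∈ B, ∑ r ∈ (q ^ nn N q - 1).primeFactors \ Lg N y,
      ((q ^ nn N q - 1).factorization r : ℝ) * log r ≤ w := by
    intro q hq
    obtain ⟨hqP, hqy, -⟩ := hB q hq
    have hqp := s_prime hqP
    obtain ⟨W0, hW01, hW02, -, hW04⟩ := hcof N y hodd hN hy q hqP hqy
    have hqn : 2 ≤ q ^ nn N q := by
      calc 2 ≤ q := hqp.two_le
        _ = q ^ 1 := (pow_one q).symm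
        _ ≤ q ^ nn N q := Nat.pow_le_pow_right hqp.pos (by unfold nn; omega)
    have h1 : q ^ nn N q - 1 = W0 * ∏ r ∈ Lg N y, r ^ (q ^ nn N q - 1).factorization r := by
      omega
    have h2 := log_pred_eq (Lg N y) q (nn N q)
    have h3 : log ((q ^ nn N q - 1 : ℕ) : ℝ) = log (W0 : ℝ) +
        ∑ r ∈ Lg N y, ((q ^ nn N q - 1).factorization r : ℝ) * log r := by
      have h4 : ((q ^ nn N q - 1 : ℕ) : ℝ) =
          (W0 : ℝ) * ∏ r ∈ Lg N y, (r : ℝ) ^ (q ^ nn N q - 1).factorization r := by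
        conv_lhs => rw [h1]
        push_cast
        rfl
      have hr0 : ∀ r ∈ Lg N y, (r : ℝ) ^ (q ^ nn N q - 1).factorization r ≠ 0 := by
        intro r hr
        have h5 := (s_prime (Finset.mem_filter.1 hr).1).pos
        have h6 : (r : ℝ) ≠ 0 := by exact_mod_cast h5.ne'
        exact pow_ne_zero _ h6
      rw [h4, Real.log_mul (by exact_mod_cast (by omega : W0 ≠ 0))
        (Finset.prod_ne_zero_iff.2 hr0), Real.log_prod hr0]
      congr 1
      refine sum_congr rfl fun r _ => ?_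
      rw [Real.log_pow]
    rw [← uu_log]
    have h5 : log (uu (Lg N y) q (nn N q) : ℝ) = log (W0 : ℝ) := by linarith
    rw [h5]
    refine hW04.trans (le_trans ?_ hw)
    rw [hj]
    have h6 : log (nn N q : ℝ) ≤ log ((Nat.log 2 N + 1 : ℕ) : ℝ) := by
      apply Real.log_le_log
      · exact_mod_cast (by unfold nn; omega : 0 < nn N q)
      · exact_mod_cast nn_le_log N q
    linarith
  -- size of the threshold
  obtain ⟨S, hS⟩ : ∃ S : ℝ, S = ((t : ℝ) + j + 1) * log y *
    (2 + (log (log (N : ℝ)) + log y) + log w) := ⟨_, rfl⟩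
  have htR : (1 : ℝ) ≤ t := by exact_mod_cast ht
  have hj0 : (0 : ℝ) ≤ j := Nat.cast_nonneg _
  have hC1R : (1 : ℝ) ≤ C := by exact_mod_cast hC1
  have hS1 : (t : ℝ) + 1 ≤ S := by
    rw [hS]
    have h1 : (t : ℝ) + 1 ≤ ((t : ℝ) + j + 1) * log y := by nlinarith
    have h2 : (1 : ℝ) ≤ 2 + (log (log (N : ℝ)) + log y) + log w := by linarith
    nlinarith
  have hlogS : 0 ≤ log S := Real.log_nonneg (by linarith)
  have hZs : Zs C N y t j w = exp (C * (3 * log S)) * (exp (2 * (j : ℝ) / t * log w) * w) := by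
    rw [Zs, ← hS, Real.exp_add]
    ring
  have he1 : 1 ≤ exp (2 * (j : ℝ) / t * log w) := Real.one_le_exp (by positivity)
  have hZbig : (t : ℝ) * w < Zs C N y t j w := by
    rw [hZs]
    have h1 : S ≤ exp (C * (3 * log S)) := by
      have h2 : S = exp (log S) := (Real.exp_log (by linarith)).symm
      calc S = exp (log S) := h2
        _ ≤ exp (C * (3 * log S)) := by
            apply exp_le_exp.2
            nlinarith
    have h3 : w ≤ exp (2 * (j : ℝ) / t * log w) * w := le_mul_of_one_le_left (by linarith) he1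
    calc (t : ℝ) * w < S * w := mul_lt_mul_of_pos_right (by linarith) (by linarith)
      _ ≤ exp (C * (3 * log S)) * (exp (2 * (j : ℝ) / t * log w) * w) :=
          mul_le_mul h1 h3 (by linarith) (exp_pos _).le
  -- dominance
  have hdom : ∀ r ∈ B, ∑ q ∈ B.erase r, (q ^ nn N q - 1).factorization r < nn N r := by
    intro r hr
    obtain ⟨hrP, hry, hrZ⟩ := hB r hr
    have hlogr : 1 ≤ log (r : ℝ) := d15_log3 (d15_three_le hodd hrP)
    have h1 : ∀ q ∈ B.erase r, (((q ^ nn N q - 1).factorization r : ℕ) : ℝ) * log r ≤ w := by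
      intro q hq
      have hqB := mem_of_mem_erase hq
      by_cases h2 : r ∈ (q ^ nn N q - 1).primeFactors
      · refine le_trans ?_ (hsmall q hqB)
        have h3 : r ∈ (q ^ nn N q - 1).primeFactors \ Lg N y := by
          rw [mem_sdiff]
          exact ⟨h2, fun h => (Finset.disjoint_left.1 hdisj hr) h⟩
        exact Finset.single_le_sum
          (f := fun r : ℕ => (((q ^ nn N q - 1).factorization r : ℕ) : ℝ) * log (r : ℝ))
          (fun r _ => mul_nonneg (Nat.cast_nonneg _) (log_natCast_nonneg r)) h3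
      · rw [← Nat.support_factorization, Finsupp.notMem_support_iff] at h2
        rw [h2]
        simp
        linarith
    have h2 : ((∑ q ∈ B.erase r, (q ^ nn N q - 1).factorization r : ℕ) : ℝ) * log r ≤ t * w := by
      push_cast
      rw [sum_mul]
      refine (sum_le_sum h1).trans ?_
      rw [sum_const, nsmul_eq_mul]
      apply mul_le_mul_of_nonneg_right _ (by linarith)
      rw [← hBt]
      exact_mod_cast card_le_card (erase_subset r B)
    have h3 : ((∑ q ∈ B.erase r, (q ^ nn N q - 1).factorization r : ℕ) : ℝ) * log r <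
        nn N r * log r := by linarith
    have h4 := lt_of_mul_lt_mul_right h3 (by linarith)
    exact_mod_cast h4
  obtain ⟨q0, hq0, hmin⟩ := exists_min_image B (fun q => (nn N q : ℝ) * log q) hBne
  have h2 := (hB q0 hq0).2.2
  obtain ⟨z0, hz0⟩ : ∃ z0 : ℝ, z0 = (nn N q0 : ℝ) * log q0 := ⟨_, rfl⟩
  rw [← hz0] at h2
  have key := simul_primes hC (B ∪ Lg N y) B B subset_union_left subset_union_left hBne
    (fun r hr => s_prime (hHP r hr)) (nn N) (fun q _ => by unfold nn; omega) hdom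
    (log y) w (2 + (log (log (N : ℝ)) + log y)) z0 2
    (fun r hr => by
      obtain ⟨h1, h2, -⟩ := hB r hr
      exact Real.log_le_log (by exact_mod_cast (s_prime h1).pos) (by exact_mod_cast h2))
    hlogy
    (fun r hr => by
      have h1 := log_prime_le N r hN (hHP r hr)
      linarith)
    (fun q hq => by
      refine le_trans ?_ (hsmall q hq)
      apply Finset.sum_le_sum_of_subset_of_nonneg
      · exact sdiff_subset_sdiff (Subset.refl _) subset_union_right
      · intro r _ _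
        exact mul_nonneg (Nat.cast_nonneg _) (log_natCast_nonneg r))
    hw1 (by linarith)
    (fun q hq => by
      have h1 := nn_log_le N q hN (hB q hq).1
      linarith)
    (fun q hq => by rw [hz0]; exact hmin q hq) (by rw [hcard, hBt]; omega) j hcard
    (by rw [hBt]; exact hjt)
  rw [hcard, hBt] at key
  push_cast at key
  rw [← hS] at key
  have h1 : S ^ (C * 2) * w ^ (1 + 2 * (j : ℝ) / t) ≤ Zs C N y t j w := by
    rw [hZs, Real.rpow_add (by linarith), Real.rpow_one]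
    have h2 : w ^ (2 * (j : ℝ) / t) = exp (2 * (j : ℝ) / t * log w) := by
      rw [Real.rpow_def_of_pos (by linarith)]
      congr 1
      ring
    have h3 : S ^ (C * 2) ≤ exp (C * (3 * log S)) := by
      have h4 : S ^ (C * 2) = exp (((C * 2 : ℕ) : ℝ) * log S) := by
        rw [Real.exp_nat_mul, Real.exp_log (by linarith)]
      rw [h4]
      apply exp_le_exp.2
      push_cast
      nlinarith
    rw [h2, mul_comm w]
    exact mul_le_mul_of_nonneg_right h3 (by positivity)
  linarith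

end Pool.Agent.MP_f02ea4.QR
end

section

/-! Many large primes with the simultaneous lower bound: the core (MP_f02ea4). -/

set_option autoImplicit false

namespace Pool.Agent.MP_f02ea4.QR

open Finset Real
open Pool.Agent.Lib.MP_f02ea4_nt.Sm
open Pool.Agent.Lib.MP_f02ea4_nt.Ml (Lg s_prime s_ne_two basics w_bound process_lightK)

/-- the core for `y ≥ 3` -/
theorem many_core3 {C0 : ℕ} (hC : SimulC C0) (hC0 : 1 ≤ C0) (ε : ℝ) (hε : 0 < ε) :
    ∃ C : ℕ, 3 ≤ C ∧ ∀ N y : ℕ, Odd N → Nat.Perfect N → 3 ≤ y →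
      log N ≤ (C : ℝ) ^ ((N.primeFactors.filter (y < ·)).card + 1) *
        ((((N.primeFactors.filter (· ≤ y)).card : ℝ) + 1) * (y : ℝ) ^ (1 + ε)) := by
  obtain ⟨η, A, hη, hη1, hA, hnum⟩ := numbers_v3 ε hε
  obtain ⟨C1, hC11, hheavy⟩ := heavy_v3 hC hC0 η hη
  obtain ⟨K1, hK1, hw⟩ := w_bound η hη C1 hC11
  obtain ⟨C2, hC21, hfin⟩ := hnum C0 K1 hC0 hK1
  refine ⟨C2 + 3, by omega, ?_⟩
  intro N y hodd hN hy
  obtain ⟨hX1, hV3, hom, hom1⟩ := basics N hodd hN
  obtain ⟨X, hX⟩ : ∃ X : ℝ, X = log (N : ℝ) := ⟨_, rfl⟩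
  obtain ⟨j, hj⟩ : ∃ j : ℕ, j = (N.primeFactors.filter (y < ·)).card := ⟨_, rfl⟩
  obtain ⟨k, hk⟩ : ∃ k : ℕ, k = (N.primeFactors.filter (· ≤ y)).card := ⟨_, rfl⟩
  rw [← hX] at hX1 hV3 hom ⊢
  rw [← hj, ← hk]
  have hyR : (3 : ℝ) ≤ y := by exact_mod_cast hy
  have hk0 : (0 : ℝ) ≤ k := Nat.cast_nonneg _
  have hy1 : (y : ℝ) ≤ (y : ℝ) ^ (1 + ε) := by
    calc (y : ℝ) = (y : ℝ) ^ (1 : ℝ) := (Real.rpow_one _).symm
      _ ≤ (y : ℝ) ^ (1 + ε) := Real.rpow_le_rpow_of_exponent_le (by linarith) (by linarith)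
  have hB1 : (y : ℝ) ≤ ((k : ℝ) + 1) * (y : ℝ) ^ (1 + ε) := by
    have h1 : (1 : ℝ) * (y : ℝ) ≤ ((k : ℝ) + 1) * (y : ℝ) ^ (1 + ε) :=
      mul_le_mul (by linarith) hy1 (by linarith) (by linarith)
    linarith
  have hC3 : (3 : ℝ) ≤ ((C2 + 3 : ℕ) : ℝ) := by
    push_cast
    have : (0 : ℝ) ≤ C2 := Nat.cast_nonneg _
    linarith
  have hCj : (3 : ℝ) ^ (j + 1) ≤ ((C2 + 3 : ℕ) : ℝ) ^ (j + 1) :=
    pow_le_pow_left₀ (by norm_num) hC3 _
  have h3j : (1 : ℝ) ≤ (3 : ℝ) ^ (j + 1) := one_le_pow₀ (by norm_num)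
  have htriv : y ≤ ((C2 + 3 : ℕ) : ℝ) ^ (j + 1) * (((k : ℝ) + 1) * (y : ℝ) ^ (1 + ε)) := by
    refine hB1.trans ?_
    apply le_mul_of_one_le_left (by linarith)
    linarith
  -- trivial cases
  rcases lt_or_ge X y with hXy | hyX
  · linarith
  rcases lt_or_ge (log X) j with hLj | hLj
  · -- X ≤ 3 ^ j
    have h1 : X ≤ exp j := by
      rw [← Real.log_le_iff_le_exp (by linarith)]
      exact hLj.le
    have h2 : exp (j : ℝ) ≤ (3 : ℝ) ^ j := by
      have h3 : exp (j : ℝ) = exp 1 ^ j := by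
        rw [← Real.exp_nat_mul]
        simp
      rw [h3]
      apply pow_le_pow_left₀ (exp_pos _).le
      have := Real.exp_one_lt_d9
      linarith
    have h3 : (3 : ℝ) ^ j ≤ (3 : ℝ) ^ (j + 1) := pow_le_pow_right₀ (by norm_num) (by omega)
    calc X ≤ ((C2 + 3 : ℕ) : ℝ) ^ (j + 1) * 1 := by linarith
      _ ≤ _ := by
          apply mul_le_mul_of_nonneg_left _ (by positivity)
          linarith
  have hX3 : 3 ≤ X := by linarith
  have hL0 : 0 ≤ log X := Real.log_nonneg (by linarith)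
  -- the main case
  obtain ⟨t, ht⟩ : ∃ t : ℕ, t = A * (j + 1) := ⟨_, rfl⟩
  obtain ⟨w, hwdef⟩ : ∃ w : ℝ, w = K1 * (y : ℝ) ^ (1 + 2 * η) * (1 + log X) := ⟨_, rfl⟩
  have hw1 : 1 ≤ w := by
    have h1 : 1 ≤ (y : ℝ) ^ (1 + 2 * η) := Real.one_le_rpow (by linarith) (by linarith)
    have h2 : 1 ≤ K1 * (y : ℝ) ^ (1 + 2 * η) := by nlinarith
    rw [hwdef]
    nlinarith
  have hwb := hw X y j (Nat.log 2 N + 1) hX1 hy hyX (by linarith) (by omega) hV3
  rw [← hwdef] at hwb
  have htj : 2 * j ≤ t := by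
    rw [ht]
    nlinarith
  have ht1 : 1 ≤ t := by
    rw [ht]
    exact Nat.mul_pos (by omega) (by omega)
  have hhv := hheavy N y t j w hodd hN hy hj.symm ht1 htj hwb hw1
  have hZ0 : 0 ≤ Zs C0 N y t j w := by
    unfold Zs
    have : 0 ≤ w := by linarith
    positivity
  have hpr := process_lightK N y j t k (Zs C0 N y t j w) hodd hN (by omega) hZ0
    (by rw [hk]) (by rw [hj]) hhv.le
  rw [← hX] at hpr
  have hky : (k : ℝ) ≤ y := by
    have h1 : k ≤ y := by
      rw [hk]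
      have h2 : (N.primeFactors.filter (· ≤ y)) ⊆ Finset.Icc 1 y := by
        intro p hp
        rw [Finset.mem_filter] at hp
        rw [Finset.mem_Icc]
        exact ⟨(s_prime hp.1).pos, hp.2⟩
      have h3 := Finset.card_le_card h2
      rw [Nat.card_Icc] at h3
      omega
    exact_mod_cast h1
  have hlog4 : log (4 * (N.primeFactors.card : ℝ)) ≤ log (4 * X) := by
    apply Real.log_le_log
    · have : (0 : ℝ) < N.primeFactors.card := by exact_mod_cast hom1
      linarith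
    · linarith
  have hpr2 : X ≤ 2 ^ (2 * j + t) * (k * log y + k * Zs C0 N y t j w + log (4 * X)) := by
    refine hpr.trans ?_
    apply mul_le_mul_of_nonneg_left _ (by positivity)
    linarith
  have hres := hfin X y (log X) w (Zs C0 N y t j w) k j t hX3 rfl hyR hyX hky hLj ht hwdef
    (by rw [Zs, ← hX]) hpr2
  refine hres.trans ?_
  apply mul_le_mul_of_nonneg_right _ (by positivity)
  apply pow_le_pow_left₀ (Nat.cast_nonneg _)
  push_cast
  linarith

/-- the core for `y ≥ 2` -/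
theorem many_core {C0 : ℕ} (hC : SimulC C0) (hC0 : 1 ≤ C0) (ε : ℝ) (hε : 0 < ε) :
    ∃ C : ℕ, 1 ≤ C ∧ ∀ N y : ℕ, Odd N → Nat.Perfect N → 2 ≤ y →
      log N ≤ (C : ℝ) ^ ((N.primeFactors.filter (y < ·)).card + 1) *
        ((((N.primeFactors.filter (· ≤ y)).card : ℝ) + 1) * (y : ℝ) ^ (1 + ε)) := by
  obtain ⟨C, hC3, h⟩ := many_core3 hC hC0 ε hε
  obtain ⟨K, hK⟩ := exists_nat_ge ((3 : ℝ) ^ (1 + ε) * 2)
  have hCR : (3 : ℝ) ≤ C := by exact_mod_cast hC3
  have h30 : (0 : ℝ) < (3 : ℝ) ^ (1 + ε) := by positivity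
  have h31 : (1 : ℝ) ≤ (3 : ℝ) ^ (1 + ε) := Real.one_le_rpow (by norm_num) (by linarith)
  have hK1 : (1 : ℝ) ≤ K := by linarith
  have hKn : 1 ≤ K := by exact_mod_cast hK1
  refine ⟨C * K, by nlinarith, ?_⟩
  intro N y hodd hN hy
  obtain ⟨j, hj⟩ : ∃ j : ℕ, j = (N.primeFactors.filter (y < ·)).card := ⟨_, rfl⟩
  obtain ⟨k, hk⟩ : ∃ k : ℕ, k = (N.primeFactors.filter (· ≤ y)).card := ⟨_, rfl⟩
  rw [← hj, ← hk]
  have hk0 : (0 : ℝ) ≤ k := Nat.cast_nonneg _
  have hyR : (2 : ℝ) ≤ y := by exact_mod_cast hy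
  have hy1 : (1 : ℝ) ≤ (y : ℝ) ^ (1 + ε) := Real.one_le_rpow (by linarith) (by linarith)
  have hpow : (C : ℝ) ^ (j + 1) * K ≤ ((C * K : ℕ) : ℝ) ^ (j + 1) := by
    push_cast
    rw [mul_pow]
    apply mul_le_mul_of_nonneg_left _ (by positivity)
    exact le_self_pow₀ hK1 (by omega)
  rcases Nat.lt_or_ge 2 y with h2 | h2
  · have h1 := h N y hodd hN (by omega)
    rw [← hj, ← hk] at h1
    refine h1.trans ?_
    apply mul_le_mul_of_nonneg_right _ (by positivity)
    refine le_trans ?_ hpow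
    exact le_mul_of_one_le_right (by positivity) hK1
  · have hy2 : y = 2 := by omega
    have h1 := h N 3 hodd hN le_rfl
    have hj3 : (N.primeFactors.filter (3 < ·)).card ≤ j := by
      rw [hj]
      apply Finset.card_le_card
      intro p hp
      rw [Finset.mem_filter] at hp ⊢
      exact ⟨hp.1, by omega⟩
    have hk3 : (N.primeFactors.filter (· ≤ 3)).card ≤ 1 := by
      have h3 : N.primeFactors.filter (· ≤ 3) ⊆ {3} := by
        intro p hp
        rw [Finset.mem_filter] at hp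
        rw [Finset.mem_singleton]
        have h4 := (s_prime hp.1).two_le
        have h5 : p ≠ 2 := by
          intro h6
          have h7 : 2 ∣ N := by
            rw [← h6]
            exact Nat.dvd_of_mem_primeFactors hp.1
          exact (Nat.not_even_iff_odd.2 hodd) (even_iff_two_dvd.2 h7)
        omega
      have h4 := Finset.card_le_card h3
      rwa [Finset.card_singleton] at h4
    have hk3R : ((N.primeFactors.filter (· ≤ 3)).card : ℝ) ≤ 1 := by exact_mod_cast hk3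
    have hpj : (C : ℝ) ^ ((N.primeFactors.filter (3 < ·)).card + 1) ≤ (C : ℝ) ^ (j + 1) :=
      pow_le_pow_right₀ (by linarith) (by omega)
    push_cast at h1
    have h4 : (C : ℝ) ^ ((N.primeFactors.filter (3 < ·)).card + 1) *
        ((((N.primeFactors.filter (· ≤ 3)).card : ℝ) + 1) * (3 : ℝ) ^ (1 + ε)) ≤
        (C : ℝ) ^ (j + 1) * K := by
      apply mul_le_mul hpj _ (by positivity) (by positivity)
      nlinarith
    refine (h1.trans h4).trans (hpow.trans ?_)
    apply le_mul_of_one_le_right (by positivity)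
    nlinarith

end Pool.Agent.MP_f02ea4.QR
end
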